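import Mathlib

set_option autoImplicit false

namespace Pool.Agent.Helper368.AP

/-- the quadratic map -/
noncomputable def ff (g x : ℝ) : ℝ := (x ^ 2 - 1) / (2 * g) + 1

/-- minus the critical value -/
noncomputable def xz (g : ℝ) : ℝ := 1 / (2 * g) - 1

/-- ratio functions `P_{n+1}(x) / P_n(x)` at level `k` -/
noncomputable def rr (γ : ℕ → ℝ) (n k : ℕ) (x : ℝ) : ℝ :=
  if n = 0 then x
  else if n % 2 = 0 then
    2 * γ k / x * (rr γ (n / 2) (k + 1) (ff (γ k) x) + rr γ (n / 2) (k + 1) (xz (γ k)))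
  else
    x * rr γ (n / 2) (k + 1) (ff (γ k) x) /
      (rr γ (n / 2) (k + 1) (ff (γ k) x) + rr γ (n / 2) (k + 1) (xz (γ k)))
termination_by n
decreasing_by all_goals omega

/-- recurrence coefficients -/
noncomputable def yy (γ : ℕ → ℝ) (n k : ℕ) : ℝ :=
  if n % 2 = 0 then 2 * γ k * (xz (γ k) - rr γ (n / 2) (k + 1) (xz (γ k)))
  else 2 * γ k * rr γ (n / 2) (k + 1) (xz (γ k))

/-- admissible parameters -/
def Adm (γ : ℕ → ℝ) : Prop := ∀ k, 0 < γ k ∧ γ k < 1 / 4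

variable {γ : ℕ → ℝ}

theorem ff_add_xz {g : ℝ} (hg : 0 < g) (x : ℝ) : ff g x + xz g = x ^ 2 / (2 * g) := by
  unfold ff xz
  field_simp
  ring

theorem xz_ge {g : ℝ} (hg : 0 < g) (hg' : g < 1 / 4) : 1 < xz g := by
  unfold xz
  have : 2 < 1 / (2 * g) := by
    rw [lt_div_iff₀ (by positivity)]
    linarith
  linarith

theorem ff_ge {g x : ℝ} (hg : 0 < g) (hg' : g < 1 / 4) (hx : 1 ≤ x) : x ≤ ff g x := by
  unfold ff
  have h1 : x ^ 2 - 1 ≤ (x ^ 2 - 1) / (2 * g) := by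
    rw [le_div_iff₀ (by positivity)]
    have : 0 ≤ x ^ 2 - 1 := by nlinarith
    nlinarith
  nlinarith

theorem ff_ge_one {g x : ℝ} (hg : 0 < g) (hg' : g < 1 / 4) (hx : 1 ≤ x) : 1 ≤ ff g x :=
  le_trans hx (ff_ge hg hg' hx)

theorem two_mul_xz {g : ℝ} (hg : 0 < g) : 2 * g * xz g = 1 - 2 * g := by
  unfold xz
  field_simp

theorem rr_zero (k : ℕ) (x : ℝ) : rr γ 0 k x = x := by
  rw [rr]; simp

theorem rr_even (hγ : Adm γ) (m k : ℕ) {x : ℝ} (hx : 1 ≤ x) :
    rr γ (2 * m) k x = 2 * γ k / x * (rr γ m (k + 1) (ff (γ k) x) + rr γ m (k + 1) (xz (γ k))) := by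
  rcases Nat.eq_zero_or_pos m with rfl | hm
  · simp only [mul_zero, rr_zero]
    have h0 := (hγ k).1
    rw [ff_add_xz h0]
    field_simp
  · rw [rr]
    have h1 : 2 * m ≠ 0 := by omega
    have h2 : 2 * m % 2 = 0 := by omega
    have h3 : 2 * m / 2 = m := by omega
    rw [if_neg h1, if_pos h2, h3]

theorem rr_odd (m k : ℕ) (x : ℝ) :
    rr γ (2 * m + 1) k x = x * rr γ m (k + 1) (ff (γ k) x) /
      (rr γ m (k + 1) (ff (γ k) x) + rr γ m (k + 1) (xz (γ k))) := by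
  rw [rr]
  have h1 : 2 * m + 1 ≠ 0 := by omega
  have h2 : ¬ ((2 * m + 1) % 2 = 0) := by omega
  have h3 : (2 * m + 1) / 2 = m := by omega
  rw [if_neg h1, if_neg h2, h3]

theorem yy_even (m k : ℕ) :
    yy γ (2 * m) k = 2 * γ k * (xz (γ k) - rr γ m (k + 1) (xz (γ k))) := by
  unfold yy
  have h2 : 2 * m % 2 = 0 := by omega
  have h3 : 2 * m / 2 = m := by omega
  rw [if_pos h2, h3]

theorem yy_odd (m k : ℕ) :
    yy γ (2 * m + 1) k = 2 * γ k * rr γ m (k + 1) (xz (γ k)) := by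
  unfold yy
  have h2 : ¬ ((2 * m + 1) % 2 = 0) := by omega
  have h3 : (2 * m + 1) / 2 = m := by omega
  rw [if_neg h2, h3]

theorem rr_pos_le (hγ : Adm γ) (n : ℕ) : ∀ (k : ℕ) (x : ℝ), 1 ≤ x →
    0 < rr γ n k x ∧ rr γ n k x ≤ x := by
  induction n using Nat.strong_induction_on with
  | _ n ih =>
    intro k x hx
    have h0 := (hγ k).1
    have h4 := (hγ k).2
    have hx0 : 0 < x := by linarith
    rcases Nat.eq_zero_or_pos n with rfl | hn
    · rw [rr_zero]; exact ⟨hx0, le_refl _⟩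
    · rcases Nat.even_or_odd' n with ⟨m, rfl | rfl⟩
      · have hm : m < 2 * m := by omega
        obtain ⟨p1, l1⟩ := ih m hm (k + 1) _ (ff_ge_one h0 h4 hx)
        obtain ⟨p2, l2⟩ := ih m hm (k + 1) _ (xz_ge h0 h4).le
        rw [rr_even hγ m k hx]
        refine ⟨by positivity, ?_⟩
        calc _ ≤ 2 * γ k / x * (ff (γ k) x + xz (γ k)) := by gcongr
          _ = x := by
            rw [ff_add_xz h0]; field_simp
      · have hm : m < 2 * m + 1 := by omega
        obtain ⟨p1, l1⟩ := ih m hm (k + 1) _ (ff_ge_one h0 h4 hx)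
        obtain ⟨p2, l2⟩ := ih m hm (k + 1) _ (xz_ge h0 h4).le
        rw [rr_odd m k x]
        refine ⟨by positivity, ?_⟩
        rw [div_le_iff₀ (by positivity)]
        nlinarith

theorem rr_pos (hγ : Adm γ) (n k : ℕ) {x : ℝ} (hx : 1 ≤ x) : 0 < rr γ n k x :=
  (rr_pos_le hγ n k x hx).1

theorem rr_le (hγ : Adm γ) (n k : ℕ) {x : ℝ} (hx : 1 ≤ x) : rr γ n k x ≤ x :=
  (rr_pos_le hγ n k x hx).2

theorem rr_rec (hγ : Adm γ) (n : ℕ) : ∀ (k : ℕ) (x : ℝ), 1 ≤ x →
    (x - rr γ (n + 1) k x) * rr γ n k x = yy γ (n + 1) k := by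
  induction n using Nat.strong_induction_on with
  | _ n ih =>
    intro k x hx
    have h0 := (hγ k).1
    have h4 := (hγ k).2
    have hx0 : 0 < x := by linarith
    have hf := ff_ge_one h0 h4 hx
    have hz := (xz_ge h0 h4).le
    rcases Nat.even_or_odd' n with ⟨m, rfl | rfl⟩
    · -- n = 2m, n+1 = 2m+1
      rw [rr_odd, rr_even hγ m k hx, yy_odd]
      have p1 := rr_pos hγ m (k + 1) hf
      have p2 := rr_pos hγ m (k + 1) hz
      field_simp
      ring
    · -- n = 2m+1, n+1 = 2(m+1)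
      have e : 2 * m + 1 + 1 = 2 * (m + 1) := by ring
      rw [e, rr_even hγ (m + 1) k hx, rr_odd, yy_even]
      have i1 := ih m (by omega) (k + 1) _ hf
      have i2 := ih m (by omega) (k + 1) _ hz
      have p1 := rr_pos hγ m (k + 1) hf
      have p2 := rr_pos hγ m (k + 1) hz
      set a := rr γ m (k + 1) (ff (γ k) x)
      set b := rr γ m (k + 1) (xz (γ k))
      set a' := rr γ (m + 1) (k + 1) (ff (γ k) x)
      set b' := rr γ (m + 1) (k + 1) (xz (γ k))
      have hkey := ff_add_xz h0 x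
      have e1 : x - 2 * γ k / x * (a' + b') = 2 * γ k / x * ((ff (γ k) x - a') + (xz (γ k) - b')) := by
        have : x = 2 * γ k / x * (ff (γ k) x + xz (γ k)) := by
          rw [hkey]; field_simp
        nth_rewrite 1 [this]
        ring
      rw [e1]
      have e2 : ff (γ k) x - a' = yy γ (m + 1) (k + 1) / a := by
        rw [← i1]; field_simp
      have e3 : xz (γ k) - b' = yy γ (m + 1) (k + 1) / b := by
        rw [← i2]; field_simp
      rw [e2, e3]
      field_simp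
      ring

theorem yy_zero (k : ℕ) : yy γ 0 k = 0 := by
  have := yy_even (γ := γ) 0 k
  rw [mul_zero, rr_zero] at this
  rw [this]; ring

theorem yy_sum (hγ : Adm γ) (m k : ℕ) : yy γ (2 * m) k + yy γ (2 * m + 1) k = 1 - 2 * γ k := by
  rw [yy_even, yy_odd, ← two_mul_xz (hγ k).1]
  ring

theorem yy_prod (hγ : Adm γ) (m k : ℕ) :
    yy γ (2 * m + 2) k * yy γ (2 * m + 1) k = 4 * (γ k) ^ 2 * yy γ (m + 1) (k + 1) := by
  have e : 2 * m + 2 = 2 * (m + 1) := by ring
  rw [e, yy_even, yy_odd, ← rr_rec hγ m (k + 1) _ (xz_ge (hγ k).1 (hγ k).2).le]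
  ring

theorem yy_nonneg (hγ : Adm γ) (n k : ℕ) : 0 ≤ yy γ n k := by
  have h0 := (hγ k).1
  have hz := (xz_ge h0 (hγ k).2).le
  rcases Nat.even_or_odd' n with ⟨m, rfl | rfl⟩
  · rw [yy_even]
    have := rr_le hγ m (k + 1) hz
    have : 0 ≤ xz (γ k) - rr γ m (k + 1) (xz (γ k)) := by linarith
    positivity
  · rw [yy_odd]
    have := rr_pos hγ m (k + 1) hz
    positivity

theorem yy_pos (hγ : Adm γ) (n : ℕ) : ∀ k, 0 < yy γ (n + 1) k := by
  induction n using Nat.strong_induction_on with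
  | _ n ih =>
    intro k
    have h0 := (hγ k).1
    have hz := (xz_ge h0 (hγ k).2).le
    rcases Nat.even_or_odd' n with ⟨m, rfl | rfl⟩
    · rw [yy_odd]
      have := rr_pos hγ m (k + 1) hz
      positivity
    · have h1 := yy_prod hγ m k
      have h2 := ih m (by omega) (k + 1)
      have h3 := yy_nonneg hγ (2 * m + 1) k
      have h4 : 0 < yy γ (2 * m + 2) k * yy γ (2 * m + 1) k := by
        rw [h1]; positivity
      exact pos_of_mul_pos_left h4 h3

theorem rr_mono (hγ : Adm γ) (n k : ℕ) {x x' : ℝ} (hx : 1 ≤ x) (hxx : x ≤ x') :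
    x' - x ≤ rr γ n k x' - rr γ n k x := by
  induction n with
  | zero => rw [rr_zero, rr_zero]
  | succ n ih =>
    have hx' : 1 ≤ x' := le_trans hx hxx
    have e1 := rr_rec hγ n k x hx
    have e2 := rr_rec hγ n k x' hx'
    have p1 := rr_pos hγ n k hx
    have p2 := rr_pos hγ n k hx'
    have h1 : rr γ n k x ≤ rr γ n k x' := by linarith
    have h2 : x - rr γ (n + 1) k x = yy γ (n + 1) k / rr γ n k x := by
      rw [← e1]; field_simp
    have h3 : x' - rr γ (n + 1) k x' = yy γ (n + 1) k / rr γ n k x' := by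
      rw [← e2]; field_simp
    have h4 : yy γ (n + 1) k / rr γ n k x' ≤ yy γ (n + 1) k / rr γ n k x :=
      div_le_div_of_nonneg_left (yy_nonneg hγ _ _) p1 h1
    linarith

theorem rr_ge (hγ : Adm γ) (n k : ℕ) {x : ℝ} (hx : 1 ≤ x) : x - 1 ≤ rr γ n k x := by
  have h1 := rr_mono hγ n k (le_refl (1:ℝ)) hx
  have h2 := rr_pos hγ n k (le_refl (1:ℝ))
  linarith

theorem rr_le_of_le (hγ : Adm γ) (n k : ℕ) {x x' : ℝ} (hx : 1 ≤ x) (hxx : x ≤ x') :
    rr γ n k x ≤ rr γ n k x' := by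
  have := rr_mono hγ n k hx hxx
  linarith

theorem yy_odd_ge (hγ : Adm γ) (m k : ℕ) : 1 - 4 * γ k ≤ yy γ (2 * m + 1) k := by
  rw [yy_odd]
  have h0 := (hγ k).1
  have h1 := rr_ge hγ m (k + 1) (xz_ge h0 (hγ k).2).le
  have h2 := two_mul_xz h0
  nlinarith

end Pool.Agent.Helper368.AP
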