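import Mathlib
import Pool.Agent.Helper368.A1

set_option autoImplicit false

namespace Pool.Agent.Helper368.AP

variable {γ : ℕ → ℝ}

/-- three level composition -/
noncomputable def Phi (γ : ℕ → ℝ) (k : ℕ) (x : ℝ) : ℝ :=
  ff (γ (k + 2)) (ff (γ (k + 1)) (ff (γ k) x))

/-- block of three levels -/
structure Blk (γ : ℕ → ℝ) (k : ℕ) (F : ℝ) : Prop where
  g_le : γ (k + 2) ≤ 1 / 400
  hE : ff (γ (k + 2)) (ff (γ (k + 1)) (xz (γ k))) = 3 / 2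
  hF : ff (γ (k + 2)) (xz (γ (k + 1))) = F
  F_le : F ≤ 2

theorem le_of_ff_le_two {g x : ℝ} (hg : 0 < g) (hx : 1 ≤ x) (h : ff g x ≤ 2) : x ≤ 1 + g := by
  unfold ff at h
  have h1 : (x ^ 2 - 1) / (2 * g) ≤ 1 := by linarith
  rw [div_le_one (by positivity)] at h1
  nlinarith

theorem xz_big {g : ℝ} (hg : 0 < g) (h : g ≤ 1 / 400) : 199 ≤ xz g := by
  unfold xz
  have : 200 ≤ 1 / (2 * g) := by
    rw [le_div_iff₀ (by positivity)]
    linarith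
  linarith

section
variable (hγ : Adm γ) {k : ℕ} {F : ℝ} (hB : Blk γ k F)
include hγ hB

theorem F_gt : 1 < F := by
  have h1 := xz_ge (hγ (k+1)).1 (hγ (k+1)).2
  have h2 := ff_ge (hγ (k+2)).1 (hγ (k+2)).2 h1.le
  rw [hB.hF] at h2
  linarith

theorem e1_bounds : 1 < ff (γ (k + 1)) (xz (γ k)) ∧ xz (γ k) ≤ ff (γ (k + 1)) (xz (γ k)) ∧
    ff (γ (k + 1)) (xz (γ k)) ≤ 1 + γ (k + 2) / 2 := by
  have h1 := xz_ge (hγ k).1 (hγ k).2
  have h2 := ff_ge (hγ (k+1)).1 (hγ (k+1)).2 h1.le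
  refine ⟨by linarith, h2, ?_⟩
  have h3 := hB.hE
  unfold ff at h3
  set e1 := (xz (γ k) ^ 2 - 1) / (2 * γ (k + 1)) + 1 with he1
  have h2' : xz (γ k) ≤ e1 := h2
  have hg := (hγ (k+2)).1
  have h4 : (e1 ^ 2 - 1) / (2 * γ (k + 2)) = 1 / 2 := by linarith
  rw [div_eq_iff (by positivity)] at h4
  show e1 ≤ _
  nlinarith

theorem d0_bounds : 1 < xz (γ (k + 1)) ∧ xz (γ (k + 1)) ≤ 1 + γ (k + 2) := by
  have h1 := xz_ge (hγ (k+1)).1 (hγ (k+1)).2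
  exact ⟨h1, le_of_ff_le_two (hγ (k+2)).1 h1.le (by rw [hB.hF]; exact hB.F_le)⟩

theorem w0_ge : 199 ≤ xz (γ (k + 2)) := xz_big (hγ (k+2)).1 hB.g_le

theorem Dw0_ge (l : ℕ) : 198 ≤ rr γ l (k + 3) (xz (γ (k + 2))) := by
  have h1 := w0_ge hγ hB
  have h2 := rr_ge hγ l (k + 3) (x := xz (γ (k+2))) (by linarith)
  linarith

/-- value at the `E` point at level `k+2` -/
theorem C_e1 (l : ℕ) : rr γ (2 * l + 1) (k + 2) (ff (γ (k + 1)) (xz (γ k))) =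
    ff (γ (k + 1)) (xz (γ k)) * rr γ l (k + 3) (3 / 2) /
      (rr γ l (k + 3) (3 / 2) + rr γ l (k + 3) (xz (γ (k + 2)))) := by
  rw [rr_odd, hB.hE]

theorem C_d0 (l : ℕ) : rr γ (2 * l + 1) (k + 2) (xz (γ (k + 1))) =
    xz (γ (k + 1)) * rr γ l (k + 3) F /
      (rr γ l (k + 3) F + rr γ l (k + 3) (xz (γ (k + 2)))) := by
  rw [rr_odd, hB.hF]

end

theorem C_le (hγ : Adm γ) (l k : ℕ) {z : ℝ} (hz : 1 ≤ z) : rr γ (2 * l + 1) k z ≤
    z * rr γ l (k + 1) (ff (γ k) z) / rr γ l (k + 1) (xz (γ k)) := by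
  rw [rr_odd]
  have p1 := rr_pos hγ l (k + 1) (ff_ge_one (hγ k).1 (hγ k).2 hz)
  have p2 := rr_pos hγ l (k + 1) (xz_ge (hγ k).1 (hγ k).2).le
  apply div_le_div_of_nonneg_left (by positivity) p2 (by linarith)

/-- upper recursion for digit 5 -/
theorem blk_upper (hγ : Adm γ) {k : ℕ} {F : ℝ} (hB : Blk γ k F) (l : ℕ) {x : ℝ} (hx : 1 ≤ x)
    (hx3 : Phi γ k x ≤ 2) :
    rr γ (8 * l + 5) k x ≤ (1 + γ (k + 2)) *
      (1 / rr γ l (k + 3) (3 / 2) + 1 / rr γ l (k + 3) (xz (γ (k + 2)))) *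
      (rr γ l (k + 3) (Phi γ k x) + rr γ l (k + 3) F) := by
  obtain ⟨he1, he01, -⟩ := e1_bounds hγ hB
  obtain ⟨hd0, hd0'⟩ := d0_bounds hγ hB
  have hg := (hγ (k+2)).1
  have hγ1 := (hγ (k+1)).1
  have he0 := xz_ge (hγ k).1 (hγ k).2
  have hx1 := ff_ge (hγ k).1 (hγ k).2 hx
  have hx1' : 1 ≤ ff (γ k) x := le_trans hx hx1
  have hx2' : 1 ≤ ff (γ (k+1)) (ff (γ k) x) := ff_ge_one (hγ (k+1)).1 (hγ (k+1)).2 hx1'
  have hx2 : ff (γ (k+1)) (ff (γ k) x) ≤ 1 + γ (k + 2) := le_of_ff_le_two hg hx2' hx3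
  have hx3' : 1 ≤ Phi γ k x := ff_ge_one (hγ (k+2)).1 (hγ (k+2)).2 hx2'
  have hF1 := F_gt hγ hB
  have pw := rr_pos hγ l (k + 3) (xz_ge (hγ (k+2)).1 (hγ (k+2)).2).le
  have pE := rr_pos hγ l (k + 3) (x := 3/2) (by norm_num)
  have pF := rr_pos hγ l (k + 3) hF1.le
  have pX := rr_pos hγ l (k + 3) hx3'
  have e8 : 8 * l + 5 = 2 * (4 * l + 2) + 1 := by ring
  have e4 : 4 * l + 2 = 2 * (2 * l + 1) := by ring
  rw [e8, rr_odd, e4, rr_even hγ _ _ hx1', rr_even hγ _ _ he0.le]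
  have c1 := C_le hγ l (k+2) hx2'
  have c2 := C_le hγ l (k+2) hd0.le
  have c3 := C_e1 hγ hB l
  rw [hB.hF] at c2
  have pC1 := rr_pos hγ (2 * l + 1) (k + 2) hx2'
  have pC2 := rr_pos hγ (2 * l + 1) (k + 2) hd0.le
  have pC3 := rr_pos hγ (2 * l + 1) (k + 2) he1.le
  set x1 := ff (γ k) x with hx1d
  set x2 := ff (γ (k+1)) x1 with hx2d
  set e0 := xz (γ k)
  set e1 := ff (γ (k+1)) e0
  set d0 := xz (γ (k+1))
  set Dw := rr γ l (k + 3) (xz (γ (k + 2)))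
  set DE := rr γ l (k + 3) (3/2)
  set DF := rr γ l (k + 3) F
  have hXe : Phi γ k x = ff (γ (k+2)) x2 := rfl
  set DX := rr γ l (k + 3) (Phi γ k x)
  have c1' : rr γ (2 * l + 1) (k + 2) x2 ≤ (1 + γ (k+2)) * DX / Dw := by
    refine le_trans c1 ?_
    have : rr γ l (k + 2 + 1) (ff (γ (k+2)) x2) = DX := rfl
    rw [this]
    show x2 * DX / Dw ≤ _
    gcongr
  have c2' : rr γ (2 * l + 1) (k + 2) d0 ≤ (1 + γ (k+2)) * DF / Dw := by
    refine le_trans c2 ?_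
    show d0 * DF / Dw ≤ _
    gcongr
  have e0p : 0 < e0 := by linarith
  have x1p : 0 < x1 := by linarith
  have e1p : 0 < e1 := by linarith
  have xp : 0 < x := by linarith
  have n0 : 0 < k + 1 + 1 := by omega
  have ek : k + 1 + 1 = k + 2 := rfl
  rw [ek]
  -- main chain
  calc x * (2 * γ (k + 1) / x1 * (rr γ (2 * l + 1) (k + 2) x2 + rr γ (2 * l + 1) (k + 2) d0)) /
      (2 * γ (k + 1) / x1 * (rr γ (2 * l + 1) (k + 2) x2 + rr γ (2 * l + 1) (k + 2) d0) +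
        2 * γ (k + 1) / e0 * (rr γ (2 * l + 1) (k + 2) e1 + rr γ (2 * l + 1) (k + 2) d0))
      ≤ x * (2 * γ (k + 1) / x1 * ((1 + γ (k+2)) * DX / Dw + (1 + γ (k+2)) * DF / Dw)) /
        (2 * γ (k + 1) / e0 * rr γ (2 * l + 1) (k + 2) e1) := by
        apply div_le_div₀ (by positivity) (by gcongr) (by positivity)
        have : 0 < 2 * γ (k + 1) / x1 * (rr γ (2 * l + 1) (k + 2) x2 + rr γ (2 * l + 1) (k + 2) d0) := by
          positivity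
        have : 0 < 2 * γ (k + 1) / e0 * rr γ (2 * l + 1) (k + 2) d0 := by positivity
        rw [mul_add (2 * γ (k + 1) / e0)]
        linarith
    _ = (x / x1) * (e0 / e1) * ((1 + γ (k+2)) * (1 / DE + 1 / Dw) * (DX + DF)) := by
        rw [c3]
        field_simp
        ring
    _ ≤ 1 * 1 * ((1 + γ (k+2)) * (1 / DE + 1 / Dw) * (DX + DF)) := by
        have h1 : x / x1 ≤ 1 := (div_le_one x1p).mpr hx1
        have h2 : e0 / e1 ≤ 1 := (div_le_one e1p).mpr he01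
        have h3 : 0 ≤ e0 / e1 := by positivity
        have h4 : 0 ≤ x / x1 := by positivity
        gcongr
    _ = _ := by ring

end Pool.Agent.Helper368.AP
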