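import Mathlib
import Pool.Agent.Helper368.A2

set_option autoImplicit false

set_option maxHeartbeats 4000000

namespace Pool.Agent.Helper368.AP

variable {γ : ℕ → ℝ}

/-- value at `3/2` for digit 5 -/
theorem blk_E (hγ : Adm γ) {k : ℕ} {F : ℝ} (hB : Blk γ k F) (l : ℕ) :
    7 / 5 ≤ rr γ (8 * l + 5) k (3 / 2) := by
  obtain ⟨he1, he01, he1'⟩ := e1_bounds hγ hB
  obtain ⟨hd0, hd0'⟩ := d0_bounds hγ hB
  have hg := (hγ (k+2)).1
  have hgl := hB.g_le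
  have hγ1 := (hγ (k+1)).1
  have hγ1' := (hγ (k+1)).2
  have he0 := xz_ge (hγ k).1 (hγ k).2
  have hx : (1:ℝ) ≤ 3/2 := by norm_num
  have hx1 := ff_ge (hγ k).1 (hγ k).2 hx
  have hx1' : 1 ≤ ff (γ k) (3/2) := le_trans hx hx1
  have hx1'' : 7/2 ≤ ff (γ k) (3/2) := by
    unfold ff
    have h0 := (hγ k).1
    have h1 := (hγ k).2
    have : (5:ℝ)/2 ≤ ((3/2)^2 - 1) / (2 * γ k) := by
      rw [le_div_iff₀ (by positivity)]
      nlinarith
    linarith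
  have hx2' : 1 ≤ ff (γ (k+1)) (ff (γ k) (3/2)) := ff_ge_one (hγ (k+1)).1 (hγ (k+1)).2 hx1'
  have hX : 1 ≤ ff (γ (k+2)) (ff (γ (k+1)) (ff (γ k) (3/2))) := ff_ge_one (hγ (k+2)).1 (hγ (k+2)).2 hx2'
  have hF1 := F_gt hγ hB
  have hw := w0_ge hγ hB
  have pw := Dw0_ge hγ hB l
  have pw' := rr_le hγ l (k + 3) (xz_ge (hγ (k+2)).1 (hγ (k+2)).2).le
  have pE' := rr_le hγ l (k + 3) (x := 3/2) (by norm_num)
  have pF' := rr_le hγ l (k + 3) hF1.le
  have pE := rr_pos hγ l (k + 3) (x := 3/2) (by norm_num)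
  have pF := rr_pos hγ l (k + 3) hF1.le
  have pX := rr_pos hγ l (k + 3) hX
  have pX' := rr_ge hγ l (k + 3) hX
  have e8 : 8 * l + 5 = 2 * (4 * l + 2) + 1 := by ring
  have e4 : 4 * l + 2 = 2 * (2 * l + 1) := by ring
  rw [e8, rr_odd, e4, rr_even hγ _ _ hx1', rr_even hγ _ _ he0.le]
  have c2 := C_le hγ l (k+2) hd0.le
  have c3 := C_le hγ l (k+2) he1.le
  have c4 : rr γ (2 * l + 1) (k + 2) (ff (γ (k+1)) (ff (γ k) (3/2))) = _ := rr_odd l (k+2) _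
  rw [hB.hF] at c2
  rw [hB.hE] at c3
  have pC1 := rr_pos hγ (2 * l + 1) (k + 2) hx2'
  have pC2 := rr_pos hγ (2 * l + 1) (k + 2) hd0.le
  have pC3 := rr_pos hγ (2 * l + 1) (k + 2) he1.le
  have hx2d : 2 * γ (k+1) * ff (γ (k+1)) (ff (γ k) (3/2)) = (ff (γ k) (3/2))^2 - 1 + 2 * γ (k+1) := by
    rw [ff]; field_simp
  set x1 := ff (γ k) (3/2)
  set x2 := ff (γ (k+1)) x1
  set e0 := xz (γ k)
  set e1 := ff (γ (k+1)) e0
  set d0 := xz (γ (k+1))
  set w0 := xz (γ (k + 2)) with hw0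
  have ek : k + 2 + 1 = k + 3 := rfl
  have ek1 : k + 1 + 1 = k + 2 := rfl
  rw [ek] at c2 c3 c4
  rw [ek1]
  set Dw := rr γ l (k + 3) w0
  set DE := rr γ l (k + 3) (3/2)
  set DF := rr γ l (k + 3) F
  set DX := rr γ l (k + 3) (ff (γ (k+2)) x2)
  set C1 := rr γ (2 * l + 1) (k + 2) x2
  set C2 := rr γ (2 * l + 1) (k + 2) d0
  set C3 := rr γ (2 * l + 1) (k + 2) e1
  have hFle := hB.F_le
  -- small side
  have hC2 : C2 ≤ 1/90 := by
    refine le_trans c2 ?_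
    rw [div_le_iff₀ (by linarith)]
    nlinarith
  have hC3 : C3 ≤ 1/90 := by
    refine le_trans c3 ?_
    rw [div_le_iff₀ (by linarith)]
    nlinarith
  have hB' : 2 * γ (k + 1) / e0 * (C3 + C2) ≤ 1/90 := by
    have h1 : 2 * γ (k + 1) / e0 ≤ 1/2 := by
      rw [div_le_iff₀ (by linarith)]
      nlinarith
    have h2 : 0 ≤ 2 * γ (k + 1) / e0 := by
      have : 0 < e0 := by linarith
      positivity
    calc 2 * γ (k + 1) / e0 * (C3 + C2) ≤ 1/2 * (1/90 + 1/90) := by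
          apply mul_le_mul h1 (by linarith) (by linarith) (by norm_num)
      _ = 1/90 := by norm_num
  -- large side
  have hC1 : x2 - 1 ≤ C1 := by
    have h1 : C1 = x2 * DX / (DX + Dw) := c4
    have h2 : ff (γ (k+2)) x2 - 1 ≤ DX := pX'
    have h3 : ff (γ (k+2)) x2 - 1 = (x2^2 - 1) / (2 * γ (k+2)) := by unfold ff; ring
    have h4 : w0 ≤ 1 / (2 * γ (k+2)) := by rw [hw0]; unfold xz; linarith
    rw [h1, le_div_iff₀ (by linarith)]
    rw [h3, div_le_iff₀ (by positivity)] at h2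
    rw [le_div_iff₀ (by positivity)] at h4
    have h5 : Dw * (2 * γ (k+2)) ≤ 1 :=
      le_trans (mul_le_mul_of_nonneg_right pw' (by positivity)) h4
    -- (x2-1)(DX+Dw) ≤ x2 DX  iff (x2-1) Dw ≤ DX
    have h6 : (x2 - 1) * Dw ≤ DX := by
      have h7 : (x2 - 1) * Dw * (2 * γ (k+2)) ≤ DX * (2 * γ (k+2)) := by
        have h8 : (x2 - 1) * (Dw * (2 * γ (k+2))) ≤ (x2 - 1) * 1 :=
          mul_le_mul_of_nonneg_left h5 (by linarith)
        have h9 : 0 ≤ (x2 - 1) * x2 := mul_nonneg (by linarith) (by linarith)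
        linarith
      exact le_of_mul_le_mul_right h7 (by positivity)
    nlinarith
  have hA : 5/2 ≤ 2 * γ (k + 1) / x1 * (C1 + C2) := by
    have h1 : (x1 ^ 2 - 1) / x1 ≤ 2 * γ (k + 1) / x1 * (C1 + C2) := by
      rw [div_mul_eq_mul_div]
      apply div_le_div_of_nonneg_right _ (by linarith)
      have : 2 * γ (k+1) * (x2 - 1) ≤ 2 * γ (k+1) * (C1 + C2) := by
        apply mul_le_mul_of_nonneg_left (by linarith) (by positivity)
      linarith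
    refine le_trans ?_ h1
    rw [le_div_iff₀ (by linarith)]
    nlinarith
  rw [le_div_iff₀]
  · nlinarith
  · have : 0 < 2 * γ (k + 1) / e0 * (C3 + C2) := by
      have : 0 < e0 := by linarith
      positivity
    linarith

/-- top digit 4 -/
theorem blk_top (hγ : Adm γ) {k : ℕ} {F : ℝ} (hB : Blk γ k F) {x : ℝ} (hx : 1 ≤ x)
    (hx3 : Phi γ k x ≤ 2) :
    rr γ 4 k x ≤ 4 * γ (k + 2) := by
  obtain ⟨he1, he01, he1'⟩ := e1_bounds hγ hB
  obtain ⟨hd0, hd0'⟩ := d0_bounds hγ hB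
  have hg := (hγ (k+2)).1
  have hgl := hB.g_le
  have hγ0 := (hγ k).1
  have hγ0' := (hγ k).2
  have hγ1 := (hγ (k+1)).1
  have hγ1' := (hγ (k+1)).2
  have he0 := xz_ge (hγ k).1 (hγ k).2
  have hx1' : 1 ≤ ff (γ k) x := ff_ge_one (hγ k).1 (hγ k).2 hx
  have hx2' : 1 ≤ ff (γ (k+1)) (ff (γ k) x) := ff_ge_one (hγ (k+1)).1 (hγ (k+1)).2 hx1'
  have hx2 : ff (γ (k+1)) (ff (γ k) x) ≤ 1 + γ (k + 2) := le_of_ff_le_two hg hx2' hx3
  have hw := w0_ge hγ hB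
  have e4 : 4 = 2 * 2 := rfl
  have e2 : 2 = 2 * (2 * 0 + 1) := rfl
  have hX : ff (γ (k+2)) (ff (γ (k+1)) (ff (γ k) x)) ≤ 2 := hx3
  rw [show (4:ℕ) = 2 * (2 * (2 * 0 + 1)) from rfl, rr_even hγ _ _ hx, rr_even hγ _ _ hx1', rr_even hγ _ _ he0.le]
  have c1 := C_le hγ 0 (k+2) hx2'
  have c2 := C_le hγ 0 (k+2) hd0.le
  have c3 := C_le hγ 0 (k+2) he1.le
  rw [rr_zero, rr_zero] at c1 c2 c3
  rw [hB.hF] at c2
  rw [hB.hE] at c3
  have pC1 := rr_pos hγ (2 * 0 + 1) (k + 2) hx2'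
  have pC2 := rr_pos hγ (2 * 0 + 1) (k + 2) hd0.le
  have pC3 := rr_pos hγ (2 * 0 + 1) (k + 2) he1.le
  have hw' : 1 / xz (γ (k+2)) ≤ 202/100 * γ (k+2) := by
    rw [div_le_iff₀ (by linarith)]
    have : 2 * γ (k+2) * xz (γ (k+2)) = 1 - 2 * γ (k+2) := two_mul_xz hg
    nlinarith
  have ek1 : k + 1 + 1 = k + 2 := rfl
  rw [ek1]
  have hFle := hB.F_le
  set x1 := ff (γ k) x
  set x2 := ff (γ (k+1)) x1
  set X := ff (γ (k+2)) x2
  set e0 := xz (γ k)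
  set e1 := ff (γ (k+1)) e0
  set d0 := xz (γ (k+1))
  set w0 := xz (γ (k + 2))
  set C1 := rr γ (2 * 0 + 1) (k + 2) x2
  set C2 := rr γ (2 * 0 + 1) (k + 2) d0
  set C3 := rr γ (2 * 0 + 1) (k + 2) e1
  have hX1 : 1 ≤ X := ff_ge_one (hγ (k+2)).1 (hγ (k+2)).2 hx2'
  have hb1 : C1 ≤ 202/100 * γ (k+2) * (401/200) := by
    refine le_trans c1 ?_
    calc x2 * X / w0 = (x2 * X) * (1 / w0) := by ring
      _ ≤ (401/200) * (202/100 * γ (k+2)) := by
        apply mul_le_mul _ hw' (by positivity) (by norm_num)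
        nlinarith
      _ = _ := by ring
  have hb2 : C2 ≤ 202/100 * γ (k+2) * (401/200) := by
    refine le_trans c2 ?_
    calc d0 * F / w0 = (d0 * F) * (1 / w0) := by ring
      _ ≤ (401/200) * (202/100 * γ (k+2)) := by
        apply mul_le_mul _ hw' (by positivity) (by norm_num)
        nlinarith
      _ = _ := by ring
  have hb3 : C3 ≤ 202/100 * γ (k+2) * (401/260) := by
    refine le_trans c3 ?_
    calc e1 * (3/2) / w0 = (e1 * (3/2)) * (1 / w0) := by ring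
      _ ≤ (401/260) * (202/100 * γ (k+2)) := by
        apply mul_le_mul _ hw' (by positivity) (by norm_num)
        nlinarith
      _ = _ := by ring
  have q0 : 2 * γ k / x ≤ 1/2 := by
    rw [div_le_iff₀ (by linarith)]; nlinarith
  have q1 : 2 * γ (k+1) / x1 ≤ 1/2 := by
    rw [div_le_iff₀ (by linarith)]; nlinarith
  have q2 : 2 * γ (k+1) / e0 ≤ 1/2 := by
    rw [div_le_iff₀ (by linarith)]; nlinarith
  have x0p : 0 < x := by linarith
  have e0p : 0 < e0 := by linarith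
  have x1p : 0 < x1 := by linarith
  calc 2 * γ k / x * (2 * γ (k+1) / x1 * (C1 + C2) + 2 * γ (k+1) / e0 * (C3 + C2))
      ≤ 1/2 * (1/2 * (C1 + C2) + 1/2 * (C3 + C2)) := by
        gcongr
    _ ≤ _ := by nlinarith

end Pool.Agent.Helper368.AP
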