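import Mathlib
import Pool.Agent.Helper368.A3

set_option autoImplicit false
set_option maxHeartbeats 4000000

namespace Pool.Agent.Helper368.AP

variable {γ : ℕ → ℝ}

theorem ff_one (g : ℝ) : ff g 1 = 1 := by unfold ff; simp

/-- pure real inequality for the lower recursion -/
theorem low_aux {α β v e0 : ℝ} (hα : 0 < α) (hv : α ≤ v) (hβ0 : 0 < β) (hβ : β ≤ 31/3 * α) (he : 1 ≤ e0)
    {c : ℝ} (hc : 0 < c) :
    3 / 20 ≤ 1 * (c / 1 * (α + v)) / (c / 1 * (α + v) + c / e0 * (β + v)) := by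
  have e0p : 0 < e0 := by linarith
  have hv0 : 0 < v := by linarith
  have h1 : c / e0 * (β + v) ≤ c * (β + v) := by
    rw [div_mul_eq_mul_div, div_le_iff₀ e0p]
    have : 0 < c * (β + v) := by positivity
    nlinarith
  rw [le_div_iff₀ (by positivity)]
  have h2 : 3/20 * ((α + v) + (β + v)) ≤ α + v := by linarith
  have h3 := mul_le_mul_of_nonneg_left h2 hc.le
  nlinarith

/-- lower recursion for digit 5 -/
theorem blk_lower (hγ : Adm γ) {k : ℕ} {F : ℝ} (hB : Blk γ k F) (l : ℕ)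
    (hD : 3 / 20 ≤ rr γ l (k + 3) 1) : 3 / 20 ≤ rr γ (8 * l + 5) k 1 := by
  obtain ⟨he1, he01, he1'⟩ := e1_bounds hγ hB
  obtain ⟨hd0, hd0'⟩ := d0_bounds hγ hB
  have hg := (hγ (k+2)).1
  have hgl := hB.g_le
  have hγ1 := (hγ (k+1)).1
  have he0 := xz_ge (hγ k).1 (hγ k).2
  have hF1 := F_gt hγ hB
  have hw := w0_ge hγ hB
  have pw := Dw0_ge hγ hB l
  have pE' := rr_le hγ l (k + 3) (x := 3/2) (by norm_num)
  have p1E := rr_le_of_le hγ l (k + 3) (x := 1) (x' := 3/2) (le_refl _) (by norm_num)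
  have p1F := rr_le_of_le hγ l (k + 3) (x := 1) (x' := F) (le_refl _) hF1.le
  have e8 : 8 * l + 5 = 2 * (4 * l + 2) + 1 := by ring
  have e4 : 4 * l + 2 = 2 * (2 * l + 1) := by ring
  rw [e8, rr_odd, e4, ff_one, rr_even hγ _ _ (le_refl _), rr_even hγ _ _ he0.le, ff_one]
  have c2 : rr γ (2 * l + 1) (k + 2) (xz (γ (k + 1))) = _ := rr_odd l (k+2) _
  have c3 : rr γ (2 * l + 1) (k + 2) (ff (γ (k + 1)) (xz (γ k))) = _ := rr_odd l (k+2) _
  have c1 : rr γ (2 * l + 1) (k + 2) 1 = _ := rr_odd l (k+2) _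
  rw [hB.hF] at c2
  rw [hB.hE] at c3
  rw [ff_one] at c1
  have ek : k + 2 + 1 = k + 3 := rfl
  rw [ek] at c1 c2 c3
  have ek1 : k + 1 + 1 = k + 2 := rfl
  rw [ek1]
  set D1 := rr γ l (k + 3) 1
  set DE := rr γ l (k + 3) (3/2)
  set DF := rr γ l (k + 3) F
  set Dw := rr γ l (k + 3) (xz (γ (k + 2)))
  set d0 := xz (γ (k+1))
  set e0 := xz (γ k)
  set e1 := ff (γ (k+1)) e0
  have hD1 : 0 < D1 := by linarith
  have hDE : 0 < DE := by linarith
  have hDF : 0 < DF := by linarith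
  have hDw : 0 < Dw := by linarith
  apply low_aux
  · rw [c1]; positivity
  · rw [c1, c2]
    have h1 : D1 / (D1 + Dw) ≤ DF / (DF + Dw) := by
      rw [div_le_div_iff₀ (by positivity) (by positivity)]
      nlinarith
    have h2 : DF / (DF + Dw) ≤ d0 * DF / (DF + Dw) := by
      apply div_le_div_of_nonneg_right _ (by positivity)
      nlinarith
    rw [one_mul]
    linarith
  · rw [c3]
    have : 0 < e1 := by linarith
    positivity
  · rw [c1, c3]
    have h1 : e1 * DE / (DE + Dw) ≤ e1 * DE / (D1 + Dw) := by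
      have : 0 < e1 := by linarith
      apply div_le_div_of_nonneg_left (by positivity) (by positivity) (by linarith)
    refine le_trans h1 ?_
    rw [one_mul, mul_div_assoc']
    apply div_le_div_of_nonneg_right _ (by positivity)
    nlinarith
  · exact he0.le
  · positivity

theorem one_lower (hγ : Adm γ) {k : ℕ} {F : ℝ} (hB : Blk γ k F) : 3 / 20 ≤ rr γ 1 k 1 := by
  obtain ⟨he1, he01, he1'⟩ := e1_bounds hγ hB
  have hgl := hB.g_le
  have he0 := xz_ge (hγ k).1 (hγ k).2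
  have h := rr_odd (γ := γ) 0 k 1
  rw [rr_zero, rr_zero, ff_one] at h
  have : (2 * 0 + 1) = 1 := rfl
  rw [this] at h
  rw [h, le_div_iff₀ (by linarith)]
  linarith

theorem surf_eq (hγ : Adm γ) {k : ℕ} {F : ℝ} (hB : Blk γ k F) (m : ℕ) :
    yy γ (8 * m + 7) k = (1 - 2 * γ k) *
      (rr γ (2 * m + 1) (k + 2) (ff (γ (k + 1)) (xz (γ k))) /
        (rr γ (2 * m + 1) (k + 2) (ff (γ (k + 1)) (xz (γ k))) +
          rr γ (2 * m + 1) (k + 2) (xz (γ (k + 1))))) := by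
  have e8 : 8 * m + 7 = 2 * (4 * m + 3) + 1 := by ring
  have e4 : 4 * m + 3 = 2 * (2 * m + 1) + 1 := by ring
  rw [e8, yy_odd, e4, rr_odd, ← two_mul_xz (hγ k).1]
  have ek1 : k + 1 + 1 = k + 2 := rfl
  rw [ek1]
  ring

theorem surf_B (hγ : Adm γ) {k : ℕ} {F : ℝ} (hB : Blk γ k F) (m : ℕ)
    (hF : rr γ m (k + 3) F ≤ 1 / 20) (hE : 7 / 5 ≤ rr γ m (k + 3) (3 / 2)) :
    482 / 1000 ≤ yy γ (8 * m + 7) k := by
  obtain ⟨he1, he01, he1'⟩ := e1_bounds hγ hB
  obtain ⟨hd0, hd0'⟩ := d0_bounds hγ hB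
  have hgl := hB.g_le
  have hF1 := F_gt hγ hB
  have pw := Dw0_ge hγ hB m
  have pF := rr_pos hγ m (k + 3) hF1.le
  have pE' := rr_le hγ m (k + 3) (x := 3/2) (by norm_num)
  have hγ0 := (hγ k).2
  rw [surf_eq hγ hB]
  have c2 : rr γ (2 * m + 1) (k + 2) (xz (γ (k + 1))) = _ := rr_odd m (k+2) _
  have c3 : rr γ (2 * m + 1) (k + 2) (ff (γ (k + 1)) (xz (γ k))) = _ := rr_odd m (k+2) _
  rw [hB.hF] at c2
  rw [hB.hE] at c3
  have ek : k + 2 + 1 = k + 3 := rfl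
  rw [ek] at c2 c3
  set DE := rr γ m (k + 3) (3/2)
  set DF := rr γ m (k + 3) F
  set Dw := rr γ m (k + 3) (xz (γ (k + 2)))
  set d0 := xz (γ (k+1))
  set e1 := ff (γ (k+1)) (xz (γ k))
  set C3 := rr γ (2 * m + 1) (k + 2) e1
  set C2 := rr γ (2 * m + 1) (k + 2) d0
  have hC3 : 0 < C3 := by
    rw [c3]
    have : 0 < e1 := by linarith
    have : 0 < DE := by linarith
    have : 0 < Dw := by linarith
    positivity
  have hC2 : 0 < C2 := by
    rw [c2]
    have : 0 < d0 := by linarith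
    have : 0 < Dw := by linarith
    positivity
  -- C2 ≤ 0.0362 C3
  have hlow : 7/5 / (3/2 + Dw) ≤ C3 := by
    rw [c3]
    rw [div_le_div_iff₀ (by linarith) (by linarith)]
    have h1 : 7/5 * (DE + Dw) ≤ DE * (3/2 + Dw) := by nlinarith
    have h2 : DE * (3/2 + Dw) ≤ e1 * DE * (3/2 + Dw) := by
      have : 0 ≤ DE * (3/2 + Dw) := by
        apply mul_nonneg <;> linarith
      nlinarith
    linarith
  have hup : C2 ≤ 401/400 * (1/20) / Dw := by
    rw [c2]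
    have h1 : d0 * DF / (DF + Dw) ≤ d0 * DF / Dw := by
      have : 0 < d0 := by linarith
      apply div_le_div_of_nonneg_left (by positivity) (by linarith) (by linarith)
    refine le_trans h1 ?_
    apply div_le_div_of_nonneg_right _ (by linarith)
    nlinarith
  have hr : C2 ≤ 37/1000 * C3 := by
    refine le_trans hup (le_trans ?_ (mul_le_mul_of_nonneg_left hlow (by norm_num)))
    have e : (37:ℝ) / 1000 * (7 / 5 / (3 / 2 + Dw)) = (37 / 1000 * (7 / 5)) / (3 / 2 + Dw) := by ring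
    rw [e, div_le_div_iff₀ (by linarith) (by linarith)]
    nlinarith
  have h1 : 1000/1037 ≤ C3 / (C3 + C2) := by
    rw [div_le_div_iff₀ (by norm_num) (by linarith)]
    linarith
  have h2 : (1:ℝ)/2 ≤ 1 - 2 * γ k := by linarith
  calc (482:ℝ)/1000 ≤ 1/2 * (1000/1037) := by norm_num
    _ ≤ _ := by
      apply mul_le_mul h2 h1 (by norm_num) (by linarith)

theorem surf_A (hγ : Adm γ) {k : ℕ} {F : ℝ} (hB : Blk γ k F) (m : ℕ)
    (hD : 3 / 20 ≤ rr γ m (k + 3) 1) :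
    yy γ (8 * m + 7) k ≤ 456 / 1000 := by
  obtain ⟨he1, he01, he1'⟩ := e1_bounds hγ hB
  obtain ⟨hd0, hd0'⟩ := d0_bounds hγ hB
  have hgl := hB.g_le
  have hF1 := F_gt hγ hB
  have pw := Dw0_ge hγ hB m
  have pE' := rr_le hγ m (k + 3) (x := 3/2) (by norm_num)
  have pE := rr_pos hγ m (k + 3) (x := 3/2) (by norm_num)
  have p1F := rr_le_of_le hγ m (k + 3) (x := 1) (x' := F) (le_refl _) hF1.le
  have hγ0 := (hγ k).1
  rw [surf_eq hγ hB]
  have c2 : rr γ (2 * m + 1) (k + 2) (xz (γ (k + 1))) = _ := rr_odd m (k+2) _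
  have c3 : rr γ (2 * m + 1) (k + 2) (ff (γ (k + 1)) (xz (γ k))) = _ := rr_odd m (k+2) _
  rw [hB.hF] at c2
  rw [hB.hE] at c3
  have ek : k + 2 + 1 = k + 3 := rfl
  rw [ek] at c2 c3
  have hγe : 1 - 2 * γ k ≤ 50032/100000 := by
    have h1 := two_mul_xz hγ0
    nlinarith
  set DE := rr γ m (k + 3) (3/2)
  set DF := rr γ m (k + 3) F
  set Dw := rr γ m (k + 3) (xz (γ (k + 2)))
  set d0 := xz (γ (k+1))
  set e1 := ff (γ (k+1)) (xz (γ k))
  set C3 := rr γ (2 * m + 1) (k + 2) e1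
  set C2 := rr γ (2 * m + 1) (k + 2) d0
  have hDF : 3/20 ≤ DF := by linarith
  have hC3 : 0 < C3 := by
    rw [c3]
    have : 0 < e1 := by linarith
    have : 0 < Dw := by linarith
    positivity
  have hup : C3 ≤ 801/800 * (3/2) / (3/2 + Dw) := by
    rw [c3]
    rw [div_le_div_iff₀ (by linarith) (by linarith)]
    have h1 : DE * (3/2 + Dw) ≤ 3/2 * (DE + Dw) := by nlinarith
    have h2 : e1 ≤ 801/800 := by linarith
    have h3 : 0 ≤ DE * (3/2 + Dw) := by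
      apply mul_nonneg <;> linarith
    nlinarith
  have hlow : (3/20) / (3/20 + Dw) ≤ C2 := by
    rw [c2]
    rw [div_le_div_iff₀ (by linarith) (by linarith)]
    have h1 : 3/20 * (DF + Dw) ≤ DF * (3/20 + Dw) := by nlinarith
    have h3 : 0 ≤ DF * (3/20 + Dw) := by
      apply mul_nonneg <;> linarith
    nlinarith
  have hr : 99/1000 * C3 ≤ C2 := by
    refine le_trans (mul_le_mul_of_nonneg_left hup (by norm_num)) (le_trans ?_ hlow)
    have e : (99:ℝ) / 1000 * (801 / 800 * (3 / 2) / (3 / 2 + Dw)) = (99 / 1000 * (801 / 800 * (3 / 2))) / (3 / 2 + Dw) := by ring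
    rw [e, div_le_div_iff₀ (by linarith) (by linarith)]
    nlinarith
  have h1 : C3 / (C3 + C2) ≤ 1000/1099 := by
    rw [div_le_div_iff₀ (by linarith) (by norm_num)]
    linarith
  have h0 : 0 ≤ C3 / (C3 + C2) := by
    apply div_nonneg <;> linarith
  calc (1 - 2 * γ k) * (C3 / (C3 + C2)) ≤ 50032/100000 * (1000/1099) := by
        apply mul_le_mul hγe h1 h0 (by norm_num)
    _ ≤ 456/1000 := by norm_num

/-- numeric form of the upper recursion -/
theorem blk_upper' (hγ : Adm γ) {k : ℕ} {F : ℝ} (hB : Blk γ k F) (l : ℕ) {x : ℝ} (hx : 1 ≤ x)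
    (hx3 : Phi γ k x ≤ 2) (hE : 7 / 5 ≤ rr γ l (k + 3) (3 / 2)) :
    rr γ (8 * l + 5) k x ≤ 3 / 4 *
      (rr γ l (k + 3) (Phi γ k x) + rr γ l (k + 3) F) := by
  refine le_trans (blk_upper hγ hB l hx hx3) ?_
  have hX : 1 ≤ Phi γ k x := ff_ge_one (hγ (k+2)).1 (hγ (k+2)).2
    (ff_ge_one (hγ (k+1)).1 (hγ (k+1)).2 (ff_ge_one (hγ k).1 (hγ k).2 hx))
  have pX := rr_pos hγ l (k + 3) hX
  have pF := rr_pos hγ l (k + 3) (F_gt hγ hB).le
  have pw := Dw0_ge hγ hB l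
  apply mul_le_mul_of_nonneg_right _ (by linarith)
  have h1 : 1 / rr γ l (k + 3) (3 / 2) ≤ 5/7 := by
    rw [div_le_iff₀ (by linarith)]; linarith
  have h2 : 1 / rr γ l (k + 3) (xz (γ (k+2))) ≤ 1/198 := by
    rw [div_le_iff₀ (by linarith)]; linarith
  have hg := hB.g_le
  have hg0 := (hγ (k+2)).1
  have h3 : 0 < 1 / rr γ l (k + 3) (3 / 2) := by
    apply one_div_pos.mpr; linarith
  calc (1 + γ (k+2)) * (1 / rr γ l (k + 3) (3 / 2) + 1 / rr γ l (k + 3) (xz (γ (k+2))))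
      ≤ (1 + 1/400) * (5/7 + 1/198) := by
        gcongr
    _ ≤ 3/4 := by norm_num

theorem blk_upper'' (hγ : Adm γ) {k : ℕ} {F : ℝ} (hB : Blk γ k F) (l : ℕ) {x : ℝ} (hx : 1 ≤ x)
    (hx3 : Phi γ k x ≤ 2) :
    rr γ (8 * l + 5) k x ≤ 21 / 10 *
      (rr γ l (k + 3) (Phi γ k x) + rr γ l (k + 3) F) := by
  refine le_trans (blk_upper hγ hB l hx hx3) ?_
  have hX : 1 ≤ Phi γ k x := ff_ge_one (hγ (k+2)).1 (hγ (k+2)).2
    (ff_ge_one (hγ (k+1)).1 (hγ (k+1)).2 (ff_ge_one (hγ k).1 (hγ k).2 hx))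
  have pX := rr_pos hγ l (k + 3) hX
  have pF := rr_pos hγ l (k + 3) (F_gt hγ hB).le
  have pw := Dw0_ge hγ hB l
  apply mul_le_mul_of_nonneg_right _ (by linarith)
  have hE := rr_ge hγ l (k + 3) (x := 3/2) (by norm_num)
  have h1 : 1 / rr γ l (k + 3) (3 / 2) ≤ 2 := by
    rw [div_le_iff₀ (by linarith)]; linarith
  have h2 : 1 / rr γ l (k + 3) (xz (γ (k+2))) ≤ 1/198 := by
    rw [div_le_iff₀ (by linarith)]; linarith
  have hg := hB.g_le
  have hg0 := (hγ (k+2)).1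
  have h3 : 0 < 1 / rr γ l (k + 3) (3 / 2) := by
    apply one_div_pos.mpr; linarith
  calc (1 + γ (k+2)) * (1 / rr γ l (k + 3) (3 / 2) + 1 / rr γ l (k + 3) (xz (γ (k+2))))
      ≤ (1 + 1/400) * (2 + 1/198) := by
        gcongr
    _ ≤ 21/10 := by norm_num

end Pool.Agent.Helper368.AP
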