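import Mathlib
import Pool.Agent.Helper368.A4

set_option autoImplicit false
set_option maxHeartbeats 4000000

namespace Pool.Agent.Helper368.AP

variable {γ : ℕ → ℝ}

/-- orbit under the block maps -/
noncomputable def ZZ (γ : ℕ → ℝ) : ℕ → ℕ → ℝ → ℝ
  | _, 0, x => x
  | b, t + 1, x => ZZ γ (b + 1) t (Phi γ (3 * b) x)

/-- indices with repeated octal digit 5 above -/
def idx (top : ℕ) : ℕ → ℕ
  | 0 => top
  | h + 1 => 8 * idx top h + 5

/-- the whole sequence consists of blocks -/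
structure Seq (γ : ℕ → ℝ) (F : ℕ → ℝ) : Prop where
  adm : Adm γ
  blk : ∀ b, Blk γ (3 * b) (F b)
  g_le : ∀ b, γ (3 * b + 2) ≤ (1 / 2) ^ b / 400
  orb : ∀ b i, i ≤ 3 * (b + 1) + 20 → ZZ γ (b + 1) i (F b) ≤ 2

theorem one_le_Phi (hγ : Adm γ) (k : ℕ) {x : ℝ} (hx : 1 ≤ x) : 1 ≤ Phi γ k x :=
  ff_ge_one (hγ (k+2)).1 (hγ (k+2)).2
    (ff_ge_one (hγ (k+1)).1 (hγ (k+1)).2 (ff_ge_one (hγ k).1 (hγ k).2 hx))

theorem upper_main {F : ℕ → ℝ} (hS : Seq γ F) (h : ℕ) : ∀ b,
    (∀ (t : ℕ) (x : ℝ), 1 ≤ x → (∀ i, i ≤ t → ZZ γ b i x ≤ 2) →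
      rr γ (idx 4 h) (3 * b) x ≤ 6 / 100 * (1 / 2) ^ b + 6 * (3 / 4) ^ t) ∧
    (∀ c, b = c + 1 → rr γ (idx 4 h) (3 * b) (F c) ≤ 1 / 10 * (1 / 2) ^ b) := by
  have hγ := hS.adm
  have second : ∀ b, (∀ (t : ℕ) (x : ℝ), 1 ≤ x → (∀ i, i ≤ t → ZZ γ b i x ≤ 2) →
      rr γ (idx 4 h) (3 * b) x ≤ 6 / 100 * (1 / 2) ^ b + 6 * (3 / 4) ^ t) →
      (∀ c, b = c + 1 → rr γ (idx 4 h) (3 * b) (F c) ≤ 1 / 10 * (1 / 2) ^ b) := by
    intro b hb c hc
    subst hc
    have h1 := hb (3 * (c + 1) + 20) (F c) (F_gt hγ (hS.blk c)).le (hS.orb c)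
    refine le_trans h1 ?_
    have h2 : (3/4 : ℝ) ^ (3 * (c + 1) + 20) ≤ (1/2)^(c+1) * (3/4)^20 := by
      rw [pow_add, pow_mul]
      gcongr
      norm_num
    have h3 : (3/4 : ℝ) ^ 20 ≤ 1/150 := by norm_num
    have h4 : (0:ℝ) < (1/2)^(c+1) := by positivity
    nlinarith
  induction h with
  | zero =>
    intro b
    have first : (∀ (t : ℕ) (x : ℝ), 1 ≤ x → (∀ i, i ≤ t → ZZ γ b i x ≤ 2) →
        rr γ (idx 4 0) (3 * b) x ≤ 6 / 100 * (1 / 2) ^ b + 6 * (3 / 4) ^ t) := by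
      intro t x hx hZ
      have h0 : (0:ℝ) < (1/2)^b := by positivity
      rcases t with _ | t
      · have h1 := rr_le hγ (idx 4 0) (3 * b) hx
        have h2 : x ≤ 2 := hZ 0 (le_refl _)
        rw [pow_zero]
        linarith
      · have h1 : Phi γ (3 * b) x ≤ 2 := hZ 1 (by omega)
        have h2 := blk_top hγ (hS.blk b) hx h1
        have h3 := hS.g_le b
        have h4 : (0:ℝ) < (3/4)^(t+1) := by positivity
        show rr γ 4 (3 * b) x ≤ _
        linarith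
    exact ⟨first, second b first⟩
  | succ h ih =>
    intro b
    have sec' : ∀ c, b + 1 = c + 1 → rr γ (idx 4 h) (3 * (b + 1)) (F c) ≤ 1 / 10 * (1 / 2) ^ (b + 1) := by
      apply (ih _ (b + 1)).2
      intro b' hb' c hc
      subst hc
      have h1 := hb' (3 * (c + 1) + 20) (F c) (F_gt hγ (hS.blk c)).le (hS.orb c)
      refine le_trans h1 ?_
      have h2 : (3/4 : ℝ) ^ (3 * (c + 1) + 20) ≤ (1/2)^(c+1) * (3/4)^20 := by
        rw [pow_add, pow_mul]
        gcongr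
        norm_num
      have h3 : (3/4 : ℝ) ^ 20 ≤ 1/150 := by norm_num
      have h4 : (0:ℝ) < (1/2)^(c+1) := by positivity
      nlinarith
    have fst' : (∀ (t : ℕ) (x : ℝ), 1 ≤ x → (∀ i, i ≤ t → ZZ γ (b + 1) i x ≤ 2) →
        rr γ (idx 4 h) (3 * (b + 1)) x ≤ 6 / 100 * (1 / 2) ^ (b + 1) + 6 * (3 / 4) ^ t) := by
      apply (ih _ (b + 1)).1
      intro b' hb' c hc
      subst hc
      have h1 := hb' (3 * (c + 1) + 20) (F c) (F_gt hγ (hS.blk c)).le (hS.orb c)
      refine le_trans h1 ?_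
      have h2 : (3/4 : ℝ) ^ (3 * (c + 1) + 20) ≤ (1/2)^(c+1) * (3/4)^20 := by
        rw [pow_add, pow_mul]
        gcongr
        norm_num
      have h3 : (3/4 : ℝ) ^ 20 ≤ 1/150 := by norm_num
      have h4 : (0:ℝ) < (1/2)^(c+1) := by positivity
      nlinarith
    have e3 : 3 * (b + 1) = 3 * b + 3 := by ring
    have first : (∀ (t : ℕ) (x : ℝ), 1 ≤ x → (∀ i, i ≤ t → ZZ γ b i x ≤ 2) →
        rr γ (idx 4 (h + 1)) (3 * b) x ≤ 6 / 100 * (1 / 2) ^ b + 6 * (3 / 4) ^ t) := by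
      intro t x hx hZ
      have h0 : (0:ℝ) < (1/2)^b := by positivity
      rcases t with _ | t
      · have h1 := rr_le hγ (idx 4 (h + 1)) (3 * b) hx
        have h2 : x ≤ 2 := hZ 0 (by omega)
        rw [pow_zero]
        linarith
      · have h1 : Phi γ (3 * b) x ≤ 2 := hZ 1 (by omega)
        have hPhi := one_le_Phi hγ (3 * b) hx
        show rr γ (8 * idx 4 h + 5) (3 * b) x ≤ _
        rcases h with _ | h
        · -- height one
          have h2 := blk_upper'' hγ (hS.blk b) (idx 4 0) hx h1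
          refine le_trans h2 ?_
          have hF : rr γ (idx 4 0) (3 * b + 3) (F b) ≤ 4 * γ (3 * b + 3 + 2) := by
            have h3 : Phi γ (3 * (b + 1)) (F b) ≤ 2 := hS.orb b 1 (by omega)
            have := blk_top hγ (hS.blk (b + 1)) (F_gt hγ (hS.blk b)).le h3
            rw [e3] at this
            exact this
          have hg := hS.g_le (b + 1)
          rw [e3] at hg
          have hp : (1/2:ℝ)^(b+1) = (1/2)^b * (1/2) := pow_succ _ _
          have hp1 : (1/2:ℝ)^b ≤ 1 := pow_le_one₀ (by norm_num) (by norm_num)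
          rcases t with _ | t
          · have h4 := rr_le hγ (idx 4 0) (3 * b + 3) hPhi
            rw [zero_add, pow_one]
            linarith
          · have h5 : Phi γ (3 * (b + 1)) (Phi γ (3 * b) x) ≤ 2 := hZ 2 (by omega)
            have h6 := blk_top hγ (hS.blk (b + 1)) hPhi h5
            rw [e3] at h6
            have h6' : rr γ (idx 4 0) (3 * b + 3) (Phi γ (3 * b) x) ≤ 4 * γ (3 * b + 3 + 2) := h6
            have h7 : (0:ℝ) < (3/4)^(t+1+1) := by positivity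
            linarith
        · have hE := blk_E hγ (hS.blk (b + 1)) (idx 4 h)
          rw [e3] at hE
          have h2 := blk_upper' hγ (hS.blk b) (idx 4 (h + 1)) hx h1 hE
          refine le_trans h2 ?_
          have h3 := fst' t (Phi γ (3 * b) x) hPhi (fun i hi => hZ (i + 1) (by omega))
          have h4 := sec' b rfl
          rw [e3] at h3 h4
          have hp : (1/2:ℝ)^(b+1) = (1/2)^b * (1/2) := pow_succ _ _
          have hq : (3/4:ℝ)^(t+1) = (3/4)^t * (3/4) := pow_succ _ _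
          rw [hq]
          rw [hp] at h3 h4
          linarith
    exact ⟨first, second b first⟩

theorem lower_main {F : ℕ → ℝ} (hS : Seq γ F) (h : ℕ) : ∀ b,
    3 / 20 ≤ rr γ (idx 1 h) (3 * b) 1 := by
  induction h with
  | zero => intro b; exact one_lower hS.adm (hS.blk b)
  | succ h ih =>
    intro b
    have h1 := ih (b + 1)
    exact blk_lower hS.adm (hS.blk b) (idx 1 h) h1

theorem surface_B {F : ℕ → ℝ} (hS : Seq γ F) (h : ℕ) :
    482 / 1000 ≤ yy γ (8 * idx 4 (h + 1) + 7) 0 := by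
  have h1 := (upper_main hS (h + 1) 1).2 0 rfl
  have h2 := blk_E hS.adm (hS.blk 1) (idx 4 h)
  apply surf_B hS.adm (hS.blk 0)
  · have : (1:ℝ)/10 * (1/2)^1 = 1/20 := by norm_num
    rw [this] at h1
    exact h1
  · exact h2

theorem surface_A {F : ℕ → ℝ} (hS : Seq γ F) (h : ℕ) :
    yy γ (8 * idx 1 (h + 1) + 7) 0 ≤ 456 / 1000 := by
  have h1 := lower_main hS (h + 1) 1
  exact surf_A hS.adm (hS.blk 0) _ h1

theorem idx_eq (h : ℕ) : idx 4 h = idx 1 h + 3 * 8 ^ h := by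
  induction h with
  | zero => rfl
  | succ h ih =>
    show 8 * idx 4 h + 5 = 8 * idx 1 h + 5 + 3 * 8 ^ (h + 1)
    rw [ih, pow_succ]
    ring

theorem idx_ge (h : ℕ) : h ≤ idx 1 h := by
  induction h with
  | zero => exact Nat.zero_le _
  | succ h ih =>
    show h + 1 ≤ 8 * idx 1 h + 5
    omega

end Pool.Agent.Helper368.AP
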