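import Mathlib
import Pool.Agent.Helper368.A5

set_option autoImplicit false
set_option maxHeartbeats 4000000

namespace Pool.Agent.Helper368.AP

/-- small parameters -/
noncomputable def gp (b : ℕ) : ℝ := (1 / 2) ^ b / 400

/-- `F - 1` -/
noncomputable def ph (b : ℕ) : ℝ := ∏ i ∈ Finset.range (3 * (b + 1) + 20), (gp (b + 1 + i) / 100)

noncomputable def g1 (b : ℕ) : ℝ := 1 / (2 * (1 + Real.sqrt (1 + 2 * gp b * ph b)))

noncomputable def g0 (b : ℕ) : ℝ :=
  1 / (2 * (1 + Real.sqrt (1 + 2 * g1 b * (Real.sqrt (1 + gp b) - 1))))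

/-- the parameter sequence -/
noncomputable def gam (n : ℕ) : ℝ :=
  if n % 3 = 0 then g0 (n / 3) else if n % 3 = 1 then g1 (n / 3) else gp (n / 3)

theorem gam0 (b : ℕ) : gam (3 * b) = g0 b := by
  unfold gam
  have h1 : 3 * b % 3 = 0 := by omega
  have h2 : 3 * b / 3 = b := by omega
  rw [if_pos h1, h2]

theorem gam1 (b : ℕ) : gam (3 * b + 1) = g1 b := by
  unfold gam
  have h0 : ¬ ((3 * b + 1) % 3 = 0) := by omega
  have h1 : (3 * b + 1) % 3 = 1 := by omega
  have h2 : (3 * b + 1) / 3 = b := by omega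
  rw [if_neg h0, if_pos h1, h2]

theorem gam2 (b : ℕ) : gam (3 * b + 2) = gp b := by
  unfold gam
  have h0 : ¬ ((3 * b + 2) % 3 = 0) := by omega
  have h1 : ¬ ((3 * b + 2) % 3 = 1) := by omega
  have h2 : (3 * b + 2) / 3 = b := by omega
  rw [if_neg h0, if_neg h1, h2]

theorem gp_pos (b : ℕ) : 0 < gp b := by unfold gp; positivity

theorem gp_le (b : ℕ) : gp b ≤ 1 / 400 := by
  unfold gp
  have : (1/2:ℝ)^b ≤ 1 := pow_le_one₀ (by norm_num) (by norm_num)
  linarith

theorem ph_pos (b : ℕ) : 0 < ph b := by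
  unfold ph
  apply Finset.prod_pos
  intro i _
  have := gp_pos (b + 1 + i)
  positivity

theorem ph_le (b : ℕ) : ph b ≤ 1 := by
  unfold ph
  apply Finset.prod_le_one
  · intro i _
    have := gp_pos (b + 1 + i)
    positivity
  · intro i _
    have := gp_le (b + 1 + i)
    linarith

theorem inv_lt {s : ℝ} (hs : 1 < s) : 0 < 1 / (2 * (1 + s)) ∧ 1 / (2 * (1 + s)) < 1 / 4 := by
  constructor
  · apply one_div_pos.mpr; linarith
  · rw [div_lt_div_iff₀ (by linarith) (by norm_num)]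
    linarith

theorem one_lt_sqrt_add {a : ℝ} (ha : 0 < a) : 1 < Real.sqrt (1 + a) := by
  rw [Real.lt_sqrt (by norm_num)]
  linarith

theorem sq_sqrt_add {a : ℝ} (ha : 0 < a) : Real.sqrt (1 + a) ^ 2 = 1 + a :=
  Real.sq_sqrt (by linarith)

theorem g1_bd (b : ℕ) : 0 < g1 b ∧ g1 b < 1 / 4 := by
  unfold g1
  apply inv_lt
  apply one_lt_sqrt_add
  have := gp_pos b
  have := ph_pos b
  positivity

theorem g0_arg (b : ℕ) : 0 < 2 * g1 b * (Real.sqrt (1 + gp b) - 1) := by
  have h1 := (g1_bd b).1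
  have h2 := one_lt_sqrt_add (gp_pos b)
  have h3 : 0 < Real.sqrt (1 + gp b) - 1 := by linarith
  positivity

theorem g0_bd (b : ℕ) : 0 < g0 b ∧ g0 b < 1 / 4 := by
  unfold g0
  exact inv_lt (one_lt_sqrt_add (g0_arg b))

theorem gam_adm : Adm gam := by
  intro k
  rcases Nat.lt_trichotomy (k % 3) 1 with h | h | h
  · obtain ⟨b, rfl⟩ : ∃ b, k = 3 * b := ⟨k / 3, by omega⟩
    rw [gam0]; exact g0_bd b
  · obtain ⟨b, rfl⟩ : ∃ b, k = 3 * b + 1 := ⟨k / 3, by omega⟩
    rw [gam1]; exact g1_bd b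
  · obtain ⟨b, rfl⟩ : ∃ b, k = 3 * b + 2 := ⟨k / 3, by omega⟩
    rw [gam2]
    exact ⟨gp_pos b, by linarith [gp_le b]⟩

theorem xz_inv {s : ℝ} (hs : 0 < s) : xz (1 / (2 * (1 + s))) = s := by
  unfold xz
  field_simp
  ring

theorem xz_g1 (b : ℕ) : xz (g1 b) = Real.sqrt (1 + 2 * gp b * ph b) := by
  unfold g1
  apply xz_inv
  have := gp_pos b
  have := ph_pos b
  positivity

theorem xz_g0 (b : ℕ) : xz (g0 b) = Real.sqrt (1 + 2 * g1 b * (Real.sqrt (1 + gp b) - 1)) := by
  unfold g0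
  apply xz_inv
  have := g0_arg b
  positivity

theorem gam_blk (b : ℕ) : Blk gam (3 * b) (1 + ph b) := by
  have hg := gp_pos b
  have hp := ph_pos b
  have h1 := (g1_bd b).1
  refine ⟨?_, ?_, ?_, ?_⟩
  · rw [gam2]; exact gp_le b
  · rw [gam0, gam1, gam2, xz_g0]
    have e1 : ff (g1 b) (Real.sqrt (1 + 2 * g1 b * (Real.sqrt (1 + gp b) - 1))) = Real.sqrt (1 + gp b) := by
      unfold ff
      rw [sq_sqrt_add (g0_arg b)]
      field_simp
      ring
    rw [e1]
    unfold ff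
    rw [sq_sqrt_add hg]
    field_simp
    ring
  · rw [gam1, gam2, xz_g1]
    unfold ff
    rw [sq_sqrt_add (by positivity)]
    field_simp
    ring
  · linarith [ph_le b]

theorem Phi_bound {γ : ℕ → ℝ} (hγ : Adm γ) {k : ℕ} {F : ℝ} (hB : Blk γ k F) {x : ℝ} (hx : 1 ≤ x)
    (hx2 : (x - 1) * (100 / γ (k + 2)) ≤ 1) :
    Phi γ k x - 1 ≤ (x - 1) * (100 / γ (k + 2)) := by
  obtain ⟨he1, he01, he1'⟩ := e1_bounds hγ hB
  obtain ⟨hd0, hd0'⟩ := d0_bounds hγ hB
  have hg := (hγ (k+2)).1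
  have hgl := hB.g_le
  have hγ0 := (hγ k).1
  have hγ1 := (hγ (k+1)).1
  have a0 : 1/5 ≤ γ k := by
    have h1 := two_mul_xz hγ0
    nlinarith
  have a1 : 1/5 ≤ γ (k+1) := by
    have h1 := two_mul_xz hγ1
    nlinarith
  have hx1' : 1 ≤ ff (γ k) x := ff_ge_one (hγ k).1 (hγ k).2 hx
  have hx2' : 1 ≤ ff (γ (k+1)) (ff (γ k) x) := ff_ge_one (hγ (k+1)).1 (hγ (k+1)).2 hx1'
  have hs : (x - 1) ≤ γ (k+2) / 100 := by
    rw [mul_div_assoc', div_le_one hg] at hx2
    linarith
  have b1 : ff (γ k) x - 1 ≤ 15/2 * (x - 1) := by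
    have : ff (γ k) x - 1 = (x^2 - 1) / (2 * γ k) := by unfold ff; ring
    rw [this, div_le_iff₀ (by positivity)]
    nlinarith
  have b2 : ff (γ (k+1)) (ff (γ k) x) - 1 ≤ 15/2 * (ff (γ k) x - 1) := by
    set y := ff (γ k) x
    have : ff (γ (k+1)) y - 1 = (y^2 - 1) / (2 * γ (k+1)) := by unfold ff; ring
    rw [this, div_le_iff₀ (by positivity)]
    nlinarith
  have b3 : Phi γ k x - 1 ≤ 3 / (2 * γ (k+2)) * (ff (γ (k+1)) (ff (γ k) x) - 1) := by
    unfold Phi
    set y := ff (γ (k+1)) (ff (γ k) x)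
    have : ff (γ (k+2)) y - 1 = (y^2 - 1) / (2 * γ (k+2)) := by unfold ff; ring
    rw [this, div_mul_eq_mul_div]
    apply div_le_div_of_nonneg_right _ (by positivity)
    nlinarith
  refine le_trans b3 ?_
  have b4 : ff (γ (k+1)) (ff (γ k) x) - 1 ≤ 225/4 * (x - 1) := by linarith
  have b5 : 0 < 3 / (2 * γ (k+2)) := by positivity
  calc 3 / (2 * γ (k+2)) * (ff (γ (k+1)) (ff (γ k) x) - 1) ≤ 3 / (2 * γ (k+2)) * (225/4 * (x - 1)) := by
        apply mul_le_mul_of_nonneg_left b4 b5.le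
    _ = (x - 1) * (84.375 / γ (k+2)) := by
        field_simp
        ring
    _ ≤ _ := by
        apply mul_le_mul_of_nonneg_left _ (by linarith)
        apply div_le_div_of_nonneg_right (by norm_num) hg.le

theorem ZZ_le (t : ℕ) : ∀ (b : ℕ) (x : ℝ), 1 ≤ x →
    (x - 1) * ∏ i ∈ Finset.range t, (100 / gp (b + i)) ≤ 1 → ∀ i, i ≤ t → ZZ gam b i x ≤ 2 := by
  induction t with
  | zero =>
    intro b x hx h i hi
    obtain rfl : i = 0 := by omega
    rw [Finset.prod_range_zero, mul_one] at h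
    show x ≤ 2
    linarith
  | succ t ih =>
    intro b x hx h i hi
    rw [Finset.prod_range_succ'] at h
    have hone : ∀ s (c : ℕ → ℕ), 1 ≤ ∏ i ∈ Finset.range s, (100 / gp (c i)) := by
      intro s c
      induction s with
      | zero => simp
      | succ s ihs =>
        rw [Finset.prod_range_succ]
        have h1 := gp_pos (c s)
        have h2 := gp_le (c s)
        have h3 : 1 ≤ 100 / gp (c s) := by
          rw [le_div_iff₀ h1]; linarith
        nlinarith
    have h1 := hone t (fun i => b + (i + 1))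
    simp only [add_zero] at h
    have hb := gp_pos b
    have hM : 0 < 100 / gp b := by positivity
    have hM1 : 1 ≤ 100 / gp b := by
      rw [le_div_iff₀ hb]; linarith [gp_le b]
    set p := ∏ i ∈ Finset.range t, (100 / gp (b + (i + 1)))
    have hx0 : 0 ≤ x - 1 := by linarith
    have h2 : (x - 1) * (100 / gp b) ≤ 1 := by
      refine le_trans ?_ h
      have : (x - 1) * (100 / gp b) * 1 ≤ (x - 1) * (100 / gp b) * p := by
        apply mul_le_mul_of_nonneg_left h1 (by positivity)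
      calc _ = (x - 1) * (100 / gp b) * 1 := by ring
        _ ≤ _ := this
        _ = _ := by ring
    have h3 := Phi_bound gam_adm (gam_blk b) hx (by rw [gam2]; exact h2)
    rw [gam2] at h3
    rcases i with _ | i
    · show x ≤ 2
      have : (x - 1) * 1 ≤ (x - 1) * (100 / gp b) := mul_le_mul_of_nonneg_left hM1 hx0
      linarith
    · show ZZ gam (b + 1) i (Phi gam (3 * b) x) ≤ 2
      apply ih (b + 1) _ (one_le_Phi gam_adm _ hx) _ i (by omega)
      have e : ∏ i ∈ Finset.range t, (100 / gp (b + 1 + i)) = p := by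
        apply Finset.prod_congr rfl
        intro i _
        congr 2
        ring
      rw [e]
      calc (Phi gam (3 * b) x - 1) * p ≤ ((x - 1) * (100 / gp b)) * p := by
            apply mul_le_mul_of_nonneg_right h3 (by linarith)
        _ = (x - 1) * (p * (100 / gp b)) := by ring
        _ ≤ 1 := h

theorem gam_seq : Seq gam (fun b => 1 + ph b) := by
  refine ⟨gam_adm, gam_blk, ?_, ?_⟩
  · intro b; rw [gam2]; exact le_refl _
  · intro b i hi
    apply ZZ_le (3 * (b + 1) + 20) (b + 1) _ (by linarith [ph_pos b]) _ i hi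
    have e : (1 + ph b - 1) = ph b := by ring
    rw [e]
    unfold ph
    rw [← Finset.prod_mul_distrib]
    apply le_of_eq
    apply Finset.prod_eq_one
    intro j _
    have := gp_pos (b + 1 + j)
    field_simp

theorem gam_inv_le (n : ℕ) : 1 / (4 * gam n) ≤ 2 ^ (n + 7) := by
  have h7 : (128:ℝ) ≤ 2 ^ (n + 7) := by
    rw [pow_add]
    have : (1:ℝ) ≤ 2 ^ n := one_le_pow₀ (by norm_num)
    norm_num
    linarith
  rcases Nat.lt_trichotomy (n % 3) 1 with h | h | h
  · obtain ⟨b, rfl⟩ : ∃ b, n = 3 * b := ⟨n / 3, by omega⟩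
    refine le_trans ?_ h7
    obtain ⟨he1, he01, he1'⟩ := e1_bounds gam_adm (gam_blk b)
    have h1 := (gam_blk b).g_le
    have h0 := (gam_adm (3 * b)).1
    have h2 := two_mul_xz h0
    rw [div_le_iff₀ (by positivity)]
    nlinarith
  · obtain ⟨b, rfl⟩ : ∃ b, n = 3 * b + 1 := ⟨n / 3, by omega⟩
    refine le_trans ?_ h7
    obtain ⟨hd0, hd0'⟩ := d0_bounds gam_adm (gam_blk b)
    have h1 := (gam_blk b).g_le
    have h0 := (gam_adm (3 * b + 1)).1
    have h2 := two_mul_xz h0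
    rw [div_le_iff₀ (by positivity)]
    nlinarith
  · obtain ⟨b, rfl⟩ : ∃ b, n = 3 * b + 2 := ⟨n / 3, by omega⟩
    rw [gam2]
    unfold gp
    have e1 : 1 / (4 * ((1 / 2 : ℝ) ^ b / 400)) = 100 * 2 ^ b := by
      rw [one_div_pow]
      field_simp
      norm_num
    rw [e1]
    calc (100:ℝ) * 2 ^ b ≤ 2 ^ 7 * 2 ^ b := by
          have : (0:ℝ) < 2 ^ b := by positivity
          nlinarith
      _ = 2 ^ (b + 7) := by rw [← pow_add]; ring_nf
      _ ≤ 2 ^ (3 * b + 2 + 7) := by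
          apply pow_le_pow_right₀ (by norm_num); omega

end Pool.Agent.Helper368.AP
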