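import Mathlib
import Pool.Agent.Helper368.A6

set_option autoImplicit false
set_option maxHeartbeats 4000000

open Filter Topology

namespace Pool.Agent.Helper368.AP

variable {γ : ℕ → ℝ}

theorem tau_le (hγ : Adm γ) (s : ℕ) : ∀ (k m : ℕ) (x : ℝ), 1 ≤ x →
    x - rr γ (2 ^ s * m) k x ≤ ∏ i ∈ Finset.range s, (4 * γ (k + i)) := by
  induction s with
  | zero =>
    intro k m x hx
    have := rr_ge hγ (2 ^ 0 * m) k hx
    rw [Finset.prod_range_zero]
    linarith
  | succ s ih =>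
    intro k m x hx
    have h0 := (hγ k).1
    have e : 2 ^ (s + 1) * m = 2 * (2 ^ s * m) := by rw [pow_succ]; ring
    have h1 := ih (k + 1) m _ (ff_ge_one (hγ k).1 (hγ k).2 hx)
    have h2 := ih (k + 1) m _ (xz_ge (hγ k).1 (hγ k).2).le
    rw [e, rr_even hγ _ _ hx, Finset.prod_range_succ']
    have e2 : ∏ i ∈ Finset.range s, (4 * γ (k + (i + 1))) = ∏ i ∈ Finset.range s, (4 * γ (k + 1 + i)) := by
      apply Finset.prod_congr rfl
      intro i _
      congr 2
      ring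
    rw [e2, add_zero]
    set p := ∏ i ∈ Finset.range s, (4 * γ (k + 1 + i))
    have hkey := ff_add_xz h0 x
    have hx0 : 0 < x := by linarith
    have e3 : x = 2 * γ k / x * (ff (γ k) x + xz (γ k)) := by
      rw [hkey]; field_simp
    have hp0 : 0 ≤ p := by
      apply Finset.prod_nonneg
      intro i _
      have := (hγ (k + 1 + i)).1
      positivity
    calc x - 2 * γ k / x * (rr γ (2 ^ s * m) (k + 1) (ff (γ k) x) + rr γ (2 ^ s * m) (k + 1) (xz (γ k)))
        = 2 * γ k / x * ((ff (γ k) x - rr γ (2 ^ s * m) (k + 1) (ff (γ k) x)) +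
          (xz (γ k) - rr γ (2 ^ s * m) (k + 1) (xz (γ k)))) := by
          nth_rewrite 1 [e3]; ring
      _ ≤ 2 * γ k / x * (p + p) := by
          apply mul_le_mul_of_nonneg_left (by linarith) (by positivity)
      _ ≤ 2 * γ k / 1 * (p + p) := by
          gcongr
      _ = p * (4 * γ k) := by ring

theorem prod_small (k s : ℕ) : ∏ i ∈ Finset.range s, (4 * gam (k + i)) ≤ 8 * (1 / 2) ^ s := by
  have hb : ∀ n, 0 ≤ 4 * gam n ∧ 4 * gam n ≤ 1 := by
    intro n
    have := gam_adm n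
    constructor <;> linarith [this.1, this.2]
  have h3 : ∀ n, 4 * gam n * (4 * gam (n+1)) * (4 * gam (n+2)) ≤ 1/100 := by
    intro n
    have a0 := hb n
    have a1 := hb (n+1)
    have a2 := hb (n+2)
    have key : ∀ b, 4 * gam (3*b+2) ≤ 1/100 := by
      intro b
      rw [gam2]
      linarith [gp_le b]
    rcases Nat.lt_trichotomy (n % 3) 1 with h | h | h
    · have : n + 2 = 3 * (n/3) + 2 := by omega
      have hk := key (n/3)
      rw [← this] at hk
      calc 4 * gam n * (4 * gam (n+1)) * (4 * gam (n+2)) ≤ 1 * 1 * (1/100) := by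
            apply mul_le_mul (mul_le_mul a0.2 a1.2 a1.1 (by norm_num)) hk a2.1 (by norm_num)
        _ = 1/100 := by norm_num
    · have : n + 1 = 3 * (n/3) + 2 := by omega
      have hk := key (n/3)
      rw [← this] at hk
      calc 4 * gam n * (4 * gam (n+1)) * (4 * gam (n+2)) ≤ 1 * (1/100) * 1 := by
            apply mul_le_mul (mul_le_mul a0.2 hk a1.1 (by norm_num)) a2.2 a2.1 (by norm_num)
        _ = 1/100 := by norm_num
    · have : n = 3 * (n/3) + 2 := by omega
      have hk := key (n/3)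
      rw [← this] at hk
      calc 4 * gam n * (4 * gam (n+1)) * (4 * gam (n+2)) ≤ (1/100) * 1 * 1 := by
            apply mul_le_mul (mul_le_mul hk a1.2 a1.1 (by norm_num)) a2.2 a2.1 (by norm_num)
        _ = 1/100 := by norm_num
  induction s using Nat.strong_induction_on with
  | _ s ih =>
    rcases s with _ | _ | _ | s
    · simp
    · rw [Finset.prod_range_one]
      have := (hb (k + 0)).2
      norm_num
      simp only [add_zero] at this
      linarith
    · rw [Finset.prod_range_succ, Finset.prod_range_one]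
      have h1 := hb (k + 0)
      have h2 := hb (k + 1)
      have : 4 * gam (k + 0) * (4 * gam (k + 1)) ≤ 1 * 1 :=
        mul_le_mul h1.2 h2.2 h2.1 (by norm_num)
      norm_num at this ⊢
      linarith
    · have h := ih s (by omega)
      rw [Finset.prod_range_succ, Finset.prod_range_succ, Finset.prod_range_succ]
      have h4 := h3 (k + s)
      set p := ∏ i ∈ Finset.range s, (4 * gam (k + i))
      have hp : 0 ≤ p := Finset.prod_nonneg fun i _ => (hb (k + i)).1
      have e1 : (1/2:ℝ) ^ (s + 1 + 1 + 1) = (1/2)^s * (1/8) := by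
        rw [pow_succ, pow_succ, pow_succ]; ring
      rw [e1]
      calc p * (4 * gam (k + s)) * (4 * gam (k + (s + 1))) * (4 * gam (k + (s + 1 + 1)))
          = p * (4 * gam (k + s) * (4 * gam (k + s + 1)) * (4 * gam (k + s + 2))) := by
            have e5 : k + (s + 1) = k + s + 1 := by ring
            have e6 : k + (s + 1 + 1) = k + s + 2 := by ring
            rw [e5, e6]; ring
        _ ≤ p * (1/100) := mul_le_mul_of_nonneg_left h4 hp
        _ ≤ (8 * (1/2)^s) * (1/100) := by linarith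
        _ ≤ 8 * ((1/2)^s * (1/8)) := by
            have : (0:ℝ) < (1/2)^s := by positivity
            linarith

theorem yy_mul_le (s k m : ℕ) : yy gam (2 ^ (s + 1) * m) k ≤ 8 * (1 / 2) ^ s := by
  have e : 2 ^ (s + 1) * m = 2 * (2 ^ s * m) := by rw [pow_succ]; ring
  rw [e, yy_even]
  have h1 := tau_le gam_adm s (k + 1) m _ (xz_ge (gam_adm k).1 (gam_adm k).2).le
  have h2 := prod_small (k + 1) s
  have h3 := gam_adm k
  have h4 := rr_le gam_adm (2 ^ s * m) (k + 1) (xz_ge (gam_adm k).1 (gam_adm k).2).le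
  have h5 : xz (gam k) - rr gam (2 ^ s * m) (k + 1) (xz (gam k)) ≤ 8 * (1/2)^s := le_trans h1 h2
  have h6 : (0:ℝ) < (1/2)^s := by positivity
  calc 2 * gam k * (xz (gam k) - rr gam (2 ^ s * m) (k + 1) (xz (gam k)))
      ≤ 1 * (8 * (1/2)^s) := by
        apply mul_le_mul (by linarith [h3.2]) h5 (by linarith) (by norm_num)
    _ = _ := one_mul _

theorem tendsto_pred : Tendsto (fun p : ℕ × ℕ => (p.1 - 1, p.2)) (atTop ×ˢ (⊤ : Filter ℕ))
    (atTop ×ˢ (⊤ : Filter ℕ)) := by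
  apply Tendsto.prodMk
  · exact (tendsto_sub_atTop_nat 1).comp tendsto_fst
  · exact tendsto_snd

theorem dec_yy (j : ℕ) : ∀ k, Tendsto (fun p : ℕ × ℕ => yy gam (2 ^ p.1 * p.2 + j) k)
    (atTop ×ˢ (⊤ : Filter ℕ)) (𝓝 (yy gam j k)) := by
  have hev : ∀ᶠ p : ℕ × ℕ in (atTop ×ˢ (⊤ : Filter ℕ)), 1 ≤ p.1 :=
    tendsto_fst.eventually (eventually_ge_atTop 1)
  induction j using Nat.strong_induction_on with
  | _ j ih =>
    intro k
    rcases Nat.eq_zero_or_pos j with rfl | hj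
    · rw [yy_zero]
      have h1 : Tendsto (fun s : ℕ => 8 * (1/2 : ℝ) ^ (s - 1)) atTop (𝓝 0) := by
        have h2 := tendsto_pow_atTop_nhds_zero_of_lt_one (r := (1/2:ℝ)) (by norm_num) (by norm_num)
        have h3 := (h2.comp (tendsto_sub_atTop_nat 1)).const_mul 8
        rw [mul_zero] at h3
        exact h3
      have h4 := h1.comp (tendsto_fst (f := atTop) (g := (⊤ : Filter ℕ)))
      apply tendsto_of_tendsto_of_tendsto_of_le_of_le' tendsto_const_nhds h4
      · exact Eventually.of_forall fun p => yy_nonneg gam_adm _ _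
      · filter_upwards [hev] with p hp
        have := yy_mul_le (p.1 - 1) k p.2
        rw [Nat.sub_add_cancel hp] at this
        exact this
    · rcases Nat.even_or_odd' j with ⟨i, rfl | rfl⟩
      · -- j = 2 i, i ≥ 1
        obtain ⟨i, rfl⟩ : ∃ i', i = i' + 1 := ⟨i - 1, by omega⟩
        have h1 := ih (2 * i + 1) (by omega) k
        have h2 := (ih (i + 1) (by omega) (k + 1)).comp tendsto_pred
        have hpos := yy_pos gam_adm (2 * i) k
        have h3 := (h2.const_mul (4 * (gam k) ^ 2)).div h1 hpos.ne'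
        have e1 : yy gam (2 * (i + 1)) k = 4 * (gam k) ^ 2 * yy gam (i + 1) (k + 1) / yy gam (2 * i + 1) k := by
          rw [← yy_prod gam_adm i k]
          have : 2 * (i + 1) = 2 * i + 2 := by ring
          rw [this]
          field_simp
        rw [e1]
        apply h3.congr'
        filter_upwards [hev] with p hp
        obtain ⟨s, hs⟩ : ∃ s, p.1 = s + 1 := ⟨p.1 - 1, by omega⟩
        have e2 : 2 ^ p.1 * p.2 + (2 * i + 1) = 2 * (2 ^ s * p.2 + i) + 1 := by
          rw [hs, pow_succ]; ring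
        have e3 : 2 ^ p.1 * p.2 + (2 * (i + 1)) = 2 * (2 ^ s * p.2 + i) + 2 := by
          rw [hs, pow_succ]; ring
        simp only [Function.comp, Pi.div_apply]
        rw [e2, e3]
        have h4 := yy_prod gam_adm (2 ^ s * p.2 + i) k
        have h5 := yy_pos gam_adm (2 * (2 ^ s * p.2 + i)) k
        have e4 : p.1 - 1 = s := by omega
        rw [e4, div_eq_iff h5.ne', h4]
        rfl
      · have h1 := ih (2 * i) (by omega) k
        have h3 := (tendsto_const_nhds (x := 1 - 2 * gam k)).sub h1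
        have e1 : yy gam (2 * i + 1) k = 1 - 2 * gam k - yy gam (2 * i) k := by
          have := yy_sum gam_adm i k
          linarith
        rw [e1]
        apply h3.congr'
        filter_upwards [hev] with p hp
        obtain ⟨s, hs⟩ : ∃ s, p.1 = s + 1 := ⟨p.1 - 1, by omega⟩
        have e2 : 2 ^ p.1 * p.2 + (2 * i + 1) = 2 * (2 ^ s * p.2 + i) + 1 := by
          rw [hs, pow_succ]; ring
        have e3 : 2 ^ p.1 * p.2 + (2 * i) = 2 * (2 ^ s * p.2 + i) := by
          rw [hs, pow_succ]; ring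
        rw [e2, e3]
        have := yy_sum gam_adm (2 ^ s * p.2 + i) k
        linarith

/-- asymptotic almost periodicity and decoupling give asymptotic `2`-adic continuity -/
theorem aap_cont {a : ℕ → ℝ}
    (hdec : ∀ j, Tendsto (fun p : ℕ × ℕ => a (2 ^ p.1 * p.2 + j)) (atTop ×ˢ (⊤ : Filter ℕ)) (𝓝 (a j)))
    {c : ℤ → ℝ}
    (hc : ∀ ε : ℝ, 0 < ε → ∃ L : ℕ, ∀ m : ℤ, ∃ τ : ℤ, m ≤ τ ∧ τ ≤ m + L ∧ ∀ n : ℤ, |c (n + τ) - c n| < ε)
    (hlim : Tendsto (fun n : ℕ => a n - c n) atTop (𝓝 0)) {ε : ℝ} (hε : 0 < ε) :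
    ∃ s0 N : ℕ, ∀ s, s0 ≤ s → ∀ m n, N ≤ n → |a (n + 2 ^ s * m) - a n| < 7 * ε := by
  obtain ⟨L, hL⟩ := hc ε hε
  have h1 : ∀ᶠ n : ℕ in atTop, |a n - c n| < ε := by
    have := hlim.eventually (Metric.ball_mem_nhds 0 hε)
    filter_upwards [this] with n hn
    rwa [Real.dist_eq, sub_zero] at hn
  obtain ⟨N, hN⟩ := eventually_atTop.mp h1
  have h2 : ∀ j, ∀ᶠ p : ℕ × ℕ in (atTop ×ˢ (⊤ : Filter ℕ)), |a (2 ^ p.1 * p.2 + j) - a j| < ε := by
    intro j
    have := (hdec j).eventually (Metric.ball_mem_nhds (a j) hε)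
    filter_upwards [this] with p hp
    rwa [Real.dist_eq] at hp
  have h3 : ∀ᶠ p : ℕ × ℕ in (atTop ×ˢ (⊤ : Filter ℕ)), ∀ j ∈ Finset.range (N + L + 1),
      |a (2 ^ p.1 * p.2 + j) - a j| < ε := by
    rw [Filter.eventually_all_finset]
    intro j _
    exact h2 j
  rw [Filter.eventually_prod_iff] at h3
  obtain ⟨pa, hpa, pb, hpb, hp⟩ := h3
  obtain ⟨s0, hs0⟩ := eventually_atTop.mp hpa
  rw [Filter.eventually_top] at hpb
  refine ⟨s0, N, ?_⟩
  intro s hs m n hn
  obtain ⟨τ, hτ1, hτ2, hτ⟩ := hL ((n : ℤ) - N - L)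
  obtain ⟨j, hj⟩ : ∃ j : ℕ, (j : ℤ) = n - τ := ⟨((n : ℤ) - τ).toNat, by
    rw [Int.toNat_of_nonneg]; linarith⟩
  have hjN : N ≤ j := by
    have : (N : ℤ) ≤ j := by rw [hj]; linarith
    exact_mod_cast this
  have hjL : j < N + L + 1 := by
    have : (j : ℤ) < N + L + 1 := by rw [hj]; linarith
    exact_mod_cast this
  have b1 := hp (hs0 s hs) (hpb m) j (Finset.mem_range.mpr hjL)
  simp only at b1
  have b2 := hN n hn
  have b3 := hN j hjN
  have b4 := hN (n + 2 ^ s * m) (by omega)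
  have b5 := hN (2 ^ s * m + j) (by omega)
  have b6 := hτ j
  have b7 := hτ ((2 ^ s * m + j : ℕ) : ℤ)
  have e1 : (j : ℤ) + τ = n := by rw [hj]; ring
  have e2 : ((2 ^ s * m + j : ℕ) : ℤ) + τ = ((n + 2 ^ s * m : ℕ) : ℤ) := by
    push_cast
    rw [hj]; ring
  rw [e1] at b6
  rw [e2] at b7
  rw [abs_lt] at *
  constructor <;> linarith [b1.1, b1.2, b2.1, b2.2, b3.1, b3.2, b4.1, b4.2, b5.1, b5.2, b6.1, b6.2, b7.1, b7.2]

theorem yy_le_one {γ : ℕ → ℝ} (hγ : Adm γ) (n k : ℕ) : yy γ n k ≤ 1 := by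
  have h0 := (hγ k).1
  rcases Nat.even_or_odd' n with ⟨m, rfl | rfl⟩
  · have := yy_sum hγ m k
    have := yy_nonneg hγ (2 * m + 1) k
    linarith
  · have := yy_sum hγ m k
    have := yy_nonneg hγ (2 * m) k
    linarith

/-- the recurrence coefficients are not asymptotically almost periodic -/
theorem not_aap (c : ℤ → ℝ)
    (hc : ∀ ε : ℝ, 0 < ε → ∃ L : ℕ, ∀ m : ℤ, ∃ τ : ℤ, m ≤ τ ∧ τ ≤ m + L ∧ ∀ n : ℤ, |c (n + τ) - c n| < ε)
    (hlim : Tendsto (fun n : ℕ => 1 / 2 * Real.sqrt (yy gam (n + 1) 0) - c n) atTop (𝓝 0)) : False := by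
  have hdec : ∀ j, Tendsto (fun p : ℕ × ℕ => 1 / 2 * Real.sqrt (yy gam (2 ^ p.1 * p.2 + j + 1) 0))
      (atTop ×ˢ (⊤ : Filter ℕ)) (𝓝 (1 / 2 * Real.sqrt (yy gam (j + 1) 0))) := by
    intro j
    exact ((Real.continuous_sqrt.tendsto _).comp (dec_yy (j + 1) 0)).const_mul (1/2)
  obtain ⟨s0, N, h⟩ := aap_cont (a := fun n => 1 / 2 * Real.sqrt (yy gam (n + 1) 0)) hdec hc hlim
    (ε := 8/10000) (by norm_num)
  have hA := surface_A gam_seq (s0 + N)
  have hB := surface_B gam_seq (s0 + N)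
  have hge := idx_ge (s0 + N + 1)
  have heq := idx_eq (s0 + N + 1)
  have h1 := h (3 * (s0 + N + 2)) (by omega) 3 (8 * idx 1 (s0 + N + 1) + 6) (by omega)
  have e1 : 8 * idx 1 (s0 + N + 1) + 6 + 2 ^ (3 * (s0 + N + 2)) * 3 + 1 = 8 * idx 4 (s0 + N + 1) + 7 := by
    rw [heq, pow_mul]
    have : (2 ^ 3) ^ (s0 + N + 2) = 8 * 8 ^ (s0 + N + 1) := by
      rw [show s0 + N + 2 = (s0 + N + 1) + 1 from rfl, pow_succ]
      norm_num
      ring
    rw [this]
    ring
  rw [e1] at h1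
  have e2 : 8 * idx 1 (s0 + N + 1) + 6 + 1 = 8 * idx 1 (s0 + N + 1) + 7 := rfl
  rw [e2] at h1
  set u := Real.sqrt (yy gam (8 * idx 4 (s0 + N + 1) + 7) 0)
  set v := Real.sqrt (yy gam (8 * idx 1 (s0 + N + 1) + 7) 0)
  have hu : u ^ 2 = yy gam (8 * idx 4 (s0 + N + 1) + 7) 0 := Real.sq_sqrt (yy_nonneg gam_adm _ _)
  have hv : v ^ 2 = yy gam (8 * idx 1 (s0 + N + 1) + 7) 0 := Real.sq_sqrt (yy_nonneg gam_adm _ _)
  have hu0 : 0 ≤ u := Real.sqrt_nonneg _
  have hv0 : 0 ≤ v := Real.sqrt_nonneg _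
  have hu1 : u ≤ 1 := by
    rw [Real.sqrt_le_one]; exact yy_le_one gam_adm _ _
  have hv1 : v ≤ 1 := by
    rw [Real.sqrt_le_one]; exact yy_le_one gam_adm _ _
  rw [abs_lt] at h1
  have h2 : u - v < 112/10000 := by linarith [h1.2]
  nlinarith

end Pool.Agent.Helper368.AP
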