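import Mathlib

open MeasureTheory Set Filter Topology ENNReal

namespace Pool.Agent.Helper368

/-- logarithmic kernel `log T - log |x - y|`, equal to `⊤` on the diagonal -/
noncomputable def ker (T x y : ℝ) : ENNReal :=
  if x = y then ⊤ else ENNReal.ofReal (Real.log T - Real.log (dist x y))

theorem rep_pos {T u : ℝ} (hT : 0 < T) (hu : 0 < u) (h : u ≤ T) :
    (∫⁻ s in Ioc 0 T, ENNReal.ofReal (s - u) * ENNReal.ofReal (1 / s ^ 2))
      + ENNReal.ofReal (T - u) * ENNReal.ofReal (1 / T)
      = ENNReal.ofReal (Real.log T - Real.log u) := by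
  have h1 : (∫⁻ s in Ioc 0 T, ENNReal.ofReal (s - u) * ENNReal.ofReal (1 / s ^ 2))
      = ∫⁻ s in Ioc u T, ENNReal.ofReal ((s - u) * (1 / s ^ 2)) := by
    have h2 : (Ioc (0:ℝ) T) = Ioc 0 u ∪ Ioc u T := (Ioc_union_Ioc_eq_Ioc hu.le h).symm
    rw [h2, lintegral_union measurableSet_Ioc]
    · have h3 : (∫⁻ s in Ioc 0 u, ENNReal.ofReal (s - u) * ENNReal.ofReal (1 / s ^ 2)) = 0 := by
        rw [setLIntegral_congr_fun (g := fun _ => 0) measurableSet_Ioc]
        · simp
        · intro s hs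
          have : s - u ≤ 0 := by linarith [hs.2]
          simp [ENNReal.ofReal_of_nonpos this]
      rw [h3, zero_add]
      apply setLIntegral_congr_fun measurableSet_Ioc
      intro s hs
      have : 0 ≤ s - u := by linarith [hs.1]
      simp only
      rw [ENNReal.ofReal_mul this]
    · rw [Set.disjoint_left]
      intro x hx hx'
      exact absurd hx.2 (not_le.mpr hx'.1)
  have hcont : ContinuousOn (fun s : ℝ => (s - u) * (1 / s ^ 2)) (Icc u T) := by
    apply ContinuousOn.mul (by fun_prop)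
    apply ContinuousOn.div (by fun_prop) (by fun_prop)
    intro x hx
    have : 0 < x := lt_of_lt_of_le hu hx.1
    positivity
  have hint : IntegrableOn (fun s : ℝ => (s - u) * (1 / s ^ 2)) (Ioc u T) :=
    (hcont.integrableOn_Icc).mono_set Ioc_subset_Icc_self
  have h4 : ∫⁻ s in Ioc u T, ENNReal.ofReal ((s - u) * (1 / s ^ 2))
      = ENNReal.ofReal (∫ s in Ioc u T, (s - u) * (1 / s ^ 2)) := by
    rw [ofReal_integral_eq_lintegral_ofReal hint]
    rw [Filter.EventuallyLE, ae_restrict_iff' measurableSet_Ioc]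
    filter_upwards with s hs
    have : 0 ≤ s - u := by linarith [hs.1]
    simp only [Pi.zero_apply]
    positivity
  have h5 : ∫ s in Ioc u T, (s - u) * (1 / s ^ 2)
      = (Real.log T + u / T) - (Real.log u + u / u) := by
    rw [← intervalIntegral.integral_of_le h]
    apply intervalIntegral.integral_eq_sub_of_hasDerivAt (f := fun s => Real.log s + u / s)
    · intro s hs
      rw [uIcc_of_le h] at hs
      have hs0 : 0 < s := lt_of_lt_of_le hu hs.1
      have e1 := Real.hasDerivAt_log hs0.ne'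
      have e2 := (hasDerivAt_inv hs0.ne').const_mul u
      have e3 : HasDerivAt (fun s => Real.log s + u / s) (s⁻¹ + u * -(s ^ 2)⁻¹) s := e1.add e2
      have e4 : (s - u) * (1 / s ^ 2) = s⁻¹ + u * -(s ^ 2)⁻¹ := by
        field_simp
        ring
      rw [e4]
      exact e3
    · rw [intervalIntegrable_iff_integrableOn_Ioc_of_le h]
      exact hint
  rw [h1, h4, h5]
  have h6 : 0 ≤ Real.log T + u / T - (Real.log u + u / u) := by
    have := Real.add_one_le_exp (u / T - 1)
    have h7 : Real.log (u / T) ≤ u / T - 1 := Real.log_le_sub_one_of_pos (by positivity)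
    rw [Real.log_div hu.ne' hT.ne'] at h7
    rw [div_self hu.ne']
    linarith
  rw [← ENNReal.ofReal_mul (by linarith), ← ENNReal.ofReal_add h6]
  · congr 1
    field_simp
    ring
  · have : 0 ≤ T - u := by linarith
    positivity

theorem rep_zero {T : ℝ} (hT : 0 < T) :
    (∫⁻ s in Ioc 0 T, ENNReal.ofReal (s - 0) * ENNReal.ofReal (1 / s ^ 2))
      + ENNReal.ofReal (T - 0) * ENNReal.ofReal (1 / T) = ⊤ := by
  rw [ENNReal.add_eq_top]
  left
  rw [eq_top_iff]
  have key : ∀ u : ℝ, 0 < u → u ≤ T → ENNReal.ofReal (Real.log T - Real.log u) ≤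
     (∫⁻ s in Ioc 0 T, ENNReal.ofReal (s - 0) * ENNReal.ofReal (1 / s ^ 2))
      + ENNReal.ofReal (T - 0) * ENNReal.ofReal (1 / T) := by
    intro u hu huT
    rw [← rep_pos hT hu huT]
    gcongr
  by_contra hcon
  rw [not_le, lt_top_iff_ne_top] at hcon
  set A := (∫⁻ s in Ioc 0 T, ENNReal.ofReal (s - 0) * ENNReal.ofReal (1 / s ^ 2))
      + ENNReal.ofReal (T - 0) * ENNReal.ofReal (1 / T) with hA
  have hAtop : A ≠ ⊤ := by
    rw [hA]
    exact ENNReal.add_ne_top.mpr ⟨hcon, ENNReal.mul_ne_top ofReal_ne_top ofReal_ne_top⟩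
  have h2 := key (T * Real.exp (-(A.toReal + 1))) (by positivity) (by
    have h0 : 0 ≤ A.toReal := ENNReal.toReal_nonneg
    have : Real.exp (-(A.toReal + 1)) ≤ 1 := by
      rw [Real.exp_le_one_iff]; linarith
    nlinarith)
  rw [Real.log_mul hT.ne' (Real.exp_pos _).ne', Real.log_exp] at h2
  have h3 : Real.log T - (Real.log T + -(A.toReal + 1)) = A.toReal + 1 := by ring
  rw [h3] at h2
  have h4 := ENNReal.ofReal_le_iff_le_toReal hAtop |>.mp h2
  linarith

theorem ker_eq_rep {T x y : ℝ} (hT : 0 < T) (h : dist x y ≤ T) :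
    ker T x y = (∫⁻ s in Ioc 0 T, ENNReal.ofReal (s - dist x y) * ENNReal.ofReal (1 / s ^ 2))
      + ENNReal.ofReal (T - dist x y) * ENNReal.ofReal (1 / T) := by
  unfold ker
  split_ifs with hxy
  · subst hxy
    rw [dist_self]
    exact (rep_zero hT).symm
  · exact (rep_pos hT (dist_pos.mpr hxy) h).symm

/-- the overlap integral -/
noncomputable def Qf (μ ν : Measure ℝ) (s : ℝ) : ENNReal :=
  ∫⁻ z, μ (Ioc (z - s) z) * ν (Ioc (z - s) z)

theorem ofReal_tri (s x y : ℝ) :
    ENNReal.ofReal (s - dist x y) =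
      ∫⁻ z, (Ioc (z - s) z).indicator (fun _ => (1 : ENNReal)) x *
        (Ioc (z - s) z).indicator (fun _ => (1 : ENNReal)) y := by
  have h1 : (fun z : ℝ => (Ioc (z - s) z).indicator (fun _ => (1 : ENNReal)) x *
        (Ioc (z - s) z).indicator (fun _ => (1 : ENNReal)) y)
      = (Ico x (x + s) ∩ Ico y (y + s)).indicator (fun _ => 1) := by
    funext z
    by_cases hx : x ∈ Ioc (z - s) z
    · by_cases hy : y ∈ Ioc (z - s) z
      · rw [indicator_of_mem hx, indicator_of_mem hy, indicator_of_mem, mul_one]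
        exact ⟨⟨hx.2, by linarith [hx.1]⟩, ⟨hy.2, by linarith [hy.1]⟩⟩
      · have hz : z ∉ Ico x (x + s) ∩ Ico y (y + s) := by
          intro hz
          exact hy ⟨by linarith [hz.2.2], hz.2.1⟩
        rw [indicator_of_notMem hy, indicator_of_notMem hz, mul_zero]
    · have hz : z ∉ Ico x (x + s) ∩ Ico y (y + s) := by
        intro hz
        exact hx ⟨by linarith [hz.1.2], hz.1.1⟩
      rw [indicator_of_notMem hx, indicator_of_notMem hz, zero_mul]
  rw [h1, lintegral_indicator (measurableSet_Ico.inter measurableSet_Ico)]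
  simp only [lintegral_const, one_mul, Measure.restrict_apply MeasurableSet.univ, univ_inter]
  rw [Ico_inter_Ico, Real.volume_Ico]
  congr 1
  rw [Real.dist_eq]
  rcases le_total x y with hxy | hxy
  · rw [abs_of_nonpos (by linarith), sup_eq_right.mpr hxy, inf_eq_left.mpr (by linarith)]
    ring
  · rw [abs_of_nonneg (by linarith), sup_eq_left.mpr hxy, inf_eq_right.mpr (by linarith)]
    ring

theorem measurable_slab (s : ℝ) :
    Measurable (fun p : ℝ × ℝ => (Ioc (p.2 - s) p.2).indicator (fun _ => (1 : ENNReal)) p.1) := by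
  have h1 : (fun p : ℝ × ℝ => (Ioc (p.2 - s) p.2).indicator (fun _ => (1 : ENNReal)) p.1)
      = ({p : ℝ × ℝ | p.2 - s < p.1} ∩ {p : ℝ × ℝ | p.1 ≤ p.2}).indicator (fun _ => 1) := by
    funext p
    by_cases hp : p.1 ∈ Ioc (p.2 - s) p.2
    · rw [indicator_of_mem hp, indicator_of_mem]
      exact ⟨hp.1, hp.2⟩
    · rw [indicator_of_notMem hp, indicator_of_notMem]
      intro h
      exact hp ⟨h.1, h.2⟩
  rw [h1]
  apply Measurable.indicator measurable_const
  exact (measurableSet_lt (by fun_prop) (by fun_prop)).inter (measurableSet_le (by fun_prop) (by fun_prop))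

theorem lintegral_tri (μ ν : Measure ℝ) [SFinite μ] [SFinite ν] (s : ℝ) :
    ∫⁻ x, ∫⁻ y, ENNReal.ofReal (s - dist x y) ∂ν ∂μ = Qf μ ν s := by
  have hm := measurable_slab s
  calc ∫⁻ x, ∫⁻ y, ENNReal.ofReal (s - dist x y) ∂ν ∂μ
      = ∫⁻ x, ∫⁻ y, ∫⁻ z, (Ioc (z - s) z).indicator (fun _ => (1 : ENNReal)) x *
        (Ioc (z - s) z).indicator (fun _ => (1 : ENNReal)) y ∂volume ∂ν ∂μ := by
        simp_rw [ofReal_tri]
    _ = ∫⁻ x, ∫⁻ z, ∫⁻ y, (Ioc (z - s) z).indicator (fun _ => (1 : ENNReal)) x *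
        (Ioc (z - s) z).indicator (fun _ => (1 : ENNReal)) y ∂ν ∂volume ∂μ := by
        congr 1
        funext x
        rw [lintegral_lintegral_swap]
        apply Measurable.aemeasurable
        apply Measurable.mul
        · exact hm.comp (measurable_const.prodMk measurable_snd)
        · exact hm.comp (measurable_fst.prodMk measurable_snd)
    _ = ∫⁻ x, ∫⁻ z, (Ioc (z - s) z).indicator (fun _ => (1 : ENNReal)) x *
        ν (Ioc (z - s) z) ∂volume ∂μ := by
        congr 1; funext x; congr 1; funext z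
        rw [lintegral_const_mul _ (measurable_const.indicator measurableSet_Ioc)]
        congr 1
        rw [lintegral_indicator measurableSet_Ioc]
        simp
    _ = ∫⁻ z, ∫⁻ x, (Ioc (z - s) z).indicator (fun _ => (1 : ENNReal)) x *
        ν (Ioc (z - s) z) ∂μ ∂volume := by
        rw [lintegral_lintegral_swap]
        apply Measurable.aemeasurable
        apply Measurable.mul
        · exact hm.comp (measurable_fst.prodMk measurable_snd)
        · have : Measurable (fun z : ℝ => ν (Ioc (z - s) z)) := by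
            have h2 : (fun z : ℝ => ν (Ioc (z - s) z)) =
              fun z => ∫⁻ y, (Ioc (z - s) z).indicator (fun _ => (1 : ENNReal)) y ∂ν := by
              funext z
              rw [lintegral_indicator measurableSet_Ioc]
              simp
            rw [h2]
            exact Measurable.lintegral_prod_right (hm.comp (measurable_snd.prodMk measurable_fst))
          exact this.comp measurable_snd
    _ = Qf μ ν s := by
        unfold Qf
        congr 1; funext z
        rw [lintegral_mul_const _ (measurable_const.indicator measurableSet_Ioc)]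
        congr 1
        rw [lintegral_indicator measurableSet_Ioc]
        simp

/-- mutual energy -/
noncomputable def en (T : ℝ) (μ ν : Measure ℝ) : ENNReal :=
  ∫⁻ x, ∫⁻ y, ker T x y ∂ν ∂μ

theorem en_rep {T : ℝ} (hT : 0 < T) (μ ν : Measure ℝ) [SFinite μ] [SFinite ν]
    (h : ∀ᵐ x ∂μ, ∀ᵐ y ∂ν, dist x y ≤ T) :
    en T μ ν = (∫⁻ s in Ioc 0 T, Qf μ ν s * ENNReal.ofReal (1 / s ^ 2))
      + Qf μ ν T * ENNReal.ofReal (1 / T) := by
  have hm1 : ∀ s : ℝ, Measurable (fun p : ℝ × ℝ => ENNReal.ofReal (s - dist p.1 p.2)) := by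
    intro s; fun_prop
  have h1 : en T μ ν = ∫⁻ x, ∫⁻ y, ((∫⁻ s in Ioc 0 T, ENNReal.ofReal (s - dist x y)
      * ENNReal.ofReal (1 / s ^ 2)) + ENNReal.ofReal (T - dist x y) * ENNReal.ofReal (1 / T)) ∂ν ∂μ := by
    unfold en
    apply lintegral_congr_ae
    filter_upwards [h] with x hx
    apply lintegral_congr_ae
    filter_upwards [hx] with y hy
    exact ker_eq_rep hT hy
  have hmj : Measurable (fun q : (ℝ × ℝ) × ℝ => ENNReal.ofReal (q.2 - dist q.1.1 q.1.2)
      * ENNReal.ofReal (1 / q.2 ^ 2)) := by fun_prop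
  have hm2 : Measurable (fun p : ℝ × ℝ => ∫⁻ s in Ioc 0 T, ENNReal.ofReal (s - dist p.1 p.2)
      * ENNReal.ofReal (1 / s ^ 2)) := by
    exact Measurable.lintegral_prod_right hmj
  rw [h1]
  have h2 : ∀ x, ∫⁻ y, ((∫⁻ s in Ioc 0 T, ENNReal.ofReal (s - dist x y)
      * ENNReal.ofReal (1 / s ^ 2)) + ENNReal.ofReal (T - dist x y) * ENNReal.ofReal (1 / T)) ∂ν
      = (∫⁻ s in Ioc 0 T, (∫⁻ y, ENNReal.ofReal (s - dist x y) ∂ν) * ENNReal.ofReal (1 / s ^ 2))
        + (∫⁻ y, ENNReal.ofReal (T - dist x y) ∂ν) * ENNReal.ofReal (1 / T) := by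
    intro x
    have hm2x : Measurable (fun y : ℝ => ∫⁻ s in Ioc 0 T, ENNReal.ofReal (s - dist x y)
      * ENNReal.ofReal (1 / s ^ 2)) := by
      have := hm2.comp (measurable_prodMk_left (x := x))
      exact this
    rw [lintegral_add_left hm2x]
    congr 1
    · rw [lintegral_lintegral_swap]
      · congr 1; funext s
        rw [lintegral_mul_const]
        fun_prop
      · apply Measurable.aemeasurable
        fun_prop
    · rw [lintegral_mul_const]
      fun_prop
  simp_rw [h2]
  have hm3 : Measurable (fun p : ℝ × ℝ => ∫⁻ y, ENNReal.ofReal (p.2 - dist p.1 y) ∂ν) := by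
    apply Measurable.lintegral_prod_right' (f := fun q : (ℝ × ℝ) × ℝ => ENNReal.ofReal (q.1.2 - dist q.1.1 q.2))
    fun_prop
  rw [lintegral_add_right]
  · congr 1
    · rw [lintegral_lintegral_swap]
      · congr 1; funext s
        rw [lintegral_mul_const, lintegral_tri]
        exact hm3.comp (measurable_id.prodMk measurable_const)
      · apply Measurable.aemeasurable
        apply Measurable.mul
        · exact hm3
        · fun_prop
    · rw [lintegral_mul_const, lintegral_tri]
      exact hm3.comp (measurable_id.prodMk measurable_const)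
  · apply Measurable.mul_const
    exact hm3.comp (measurable_id.prodMk measurable_const)

theorem two_mul_le_sq (a b : ENNReal) : 2 * (a * b) ≤ a * a + b * b := by
  rcases le_total a b with h | h
  · obtain ⟨c, rfl⟩ := exists_add_of_le h
    calc 2 * (a * (a + c)) ≤ 2 * (a * (a + c)) + c * c := le_self_add
      _ = a * a + (a + c) * (a + c) := by ring
  · obtain ⟨c, rfl⟩ := exists_add_of_le h
    calc 2 * ((b + c) * b) ≤ 2 * ((b + c) * b) + c * c := le_self_add
      _ = (b + c) * (b + c) + b * b := by ring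

theorem measurable_Ioc (μ : Measure ℝ) [SFinite μ] (s : ℝ) :
    Measurable (fun z : ℝ => μ (Ioc (z - s) z)) := by
  have h2 : (fun z : ℝ => μ (Ioc (z - s) z)) =
    fun z => ∫⁻ y, (Ioc (z - s) z).indicator (fun _ => (1 : ENNReal)) y ∂μ := by
    funext z
    rw [lintegral_indicator measurableSet_Ioc]
    simp
  rw [h2]
  exact Measurable.lintegral_prod_right ((measurable_slab s).comp (measurable_snd.prodMk measurable_fst))

theorem Qf_pd (μ ν : Measure ℝ) [SFinite μ] [SFinite ν] (s : ℝ) :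
    2 * Qf μ ν s ≤ Qf μ μ s + Qf ν ν s := by
  unfold Qf
  rw [← lintegral_const_mul]
  · rw [← lintegral_add_left]
    · apply lintegral_mono
      intro z
      exact two_mul_le_sq _ _
    · exact (measurable_Ioc μ s).mul (measurable_Ioc μ s)
  · exact (measurable_Ioc μ s).mul (measurable_Ioc ν s)

theorem en_pd {T : ℝ} (hT : 0 < T) (μ ν : Measure ℝ) [SFinite μ] [SFinite ν]
    (h1 : ∀ᵐ x ∂μ, ∀ᵐ y ∂μ, dist x y ≤ T) (h2 : ∀ᵐ x ∂ν, ∀ᵐ y ∂ν, dist x y ≤ T)
    (h : ∀ᵐ x ∂μ, ∀ᵐ y ∂ν, dist x y ≤ T) :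
    2 * en T μ ν ≤ en T μ μ + en T ν ν := by
  rw [en_rep hT μ ν h, en_rep hT μ μ h1, en_rep hT ν ν h2]
  have hm : ∀ (μ ν : Measure ℝ) [SFinite μ] [SFinite ν],
      Measurable (fun s => Qf μ ν s * ENNReal.ofReal (1 / s ^ 2)) := by
    intro μ ν _ _
    apply Measurable.mul _ (by fun_prop)
    have h3 : (fun s => Qf μ ν s) = fun s => ∫⁻ x, ∫⁻ y, ENNReal.ofReal (s - dist x y) ∂ν ∂μ := by
      funext s; exact (lintegral_tri μ ν s).symm
    show Measurable (fun s => Qf μ ν s)
    rw [h3]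
    apply Measurable.lintegral_prod_right' (f := fun q : ℝ × ℝ => ∫⁻ y, ENNReal.ofReal (q.1 - dist q.2 y) ∂ν)
    apply Measurable.lintegral_prod_right' (f := fun q : (ℝ × ℝ) × ℝ => ENNReal.ofReal (q.1.1 - dist q.1.2 q.2))
    fun_prop
  calc 2 * ((∫⁻ s in Ioc 0 T, Qf μ ν s * ENNReal.ofReal (1 / s ^ 2))
      + Qf μ ν T * ENNReal.ofReal (1 / T))
      = (∫⁻ s in Ioc 0 T, (2 * Qf μ ν s) * ENNReal.ofReal (1 / s ^ 2))
      + (2 * Qf μ ν T) * ENNReal.ofReal (1 / T) := by
        rw [mul_add, ← lintegral_const_mul _ (hm μ ν), mul_assoc]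
        simp_rw [mul_assoc]
    _ ≤ (∫⁻ s in Ioc 0 T, (Qf μ μ s + Qf ν ν s) * ENNReal.ofReal (1 / s ^ 2))
      + (Qf μ μ T + Qf ν ν T) * ENNReal.ofReal (1 / T) := by
        gcongr <;> exact Qf_pd μ ν _
    _ = _ := by
        simp_rw [add_mul]
        rw [lintegral_add_left (hm μ μ)]
        ring

theorem measurable_ker (T : ℝ) : Measurable (fun p : ℝ × ℝ => ker T p.1 p.2) := by
  unfold ker
  apply Measurable.ite (measurableSet_eq_fun measurable_fst measurable_snd) measurable_const
  fun_prop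

theorem en_eq_prod (T : ℝ) (μ ν : Measure ℝ) [SFinite μ] [SFinite ν] :
    en T μ ν = ∫⁻ p, ker T p.1 p.2 ∂(μ.prod ν) := by
  unfold en
  rw [lintegral_prod _ (measurable_ker T).aemeasurable]

/-- truncated kernel -/
noncomputable def kerTrunc (T : ℝ) (n : ℕ) (p : ℝ × ℝ) : NNReal :=
  Real.toNNReal (Real.log T - Real.log (max (dist p.1 p.2) (1 / ((n : ℝ) + 1))))

theorem kerTrunc_continuous (T : ℝ) (n : ℕ) : Continuous (kerTrunc T n) := by
  unfold kerTrunc
  apply continuous_real_toNNReal.comp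
  apply Continuous.sub continuous_const
  apply Continuous.log (by fun_prop)
  intro p
  have : (0:ℝ) < 1 / ((n:ℝ) + 1) := by positivity
  exact (lt_of_lt_of_le this (le_max_right _ _)).ne'

theorem kerTrunc_le (T : ℝ) (n : ℕ) (p : ℝ × ℝ) :
    kerTrunc T n p ≤ Real.toNNReal (Real.log T - Real.log (1 / ((n : ℝ) + 1))) := by
  unfold kerTrunc
  apply Real.toNNReal_le_toNNReal
  have : (0:ℝ) < 1 / ((n:ℝ) + 1) := by positivity
  have := Real.log_le_log this (le_max_right (dist p.1 p.2) _)
  linarith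

theorem kerTrunc_mono (T : ℝ) : Monotone (fun n p => (kerTrunc T n p : ENNReal)) := by
  intro m n hmn p
  simp only [kerTrunc]
  apply ENNReal.coe_le_coe.mpr
  apply Real.toNNReal_le_toNNReal
  have h1 : (0:ℝ) < 1 / ((n:ℝ) + 1) := by positivity
  have h2 : (1:ℝ) / ((n:ℝ) + 1) ≤ 1 / ((m:ℝ) + 1) := by
    apply one_div_le_one_div_of_le (by positivity)
    have : (m:ℝ) ≤ n := by exact_mod_cast hmn
    linarith
  have h3 : max (dist p.1 p.2) (1 / ((n : ℝ) + 1)) ≤ max (dist p.1 p.2) (1 / ((m : ℝ) + 1)) :=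
    max_le_max le_rfl h2
  have h4 := Real.log_le_log (lt_of_lt_of_le h1 (le_max_right (dist p.1 p.2) _)) h3
  linarith

theorem kerTrunc_iSup (T : ℝ) (p : ℝ × ℝ) : ⨆ n, (kerTrunc T n p : ENNReal) = ker T p.1 p.2 := by
  have hlim : Tendsto (fun n : ℕ => (1:ℝ) / ((n:ℝ) + 1)) atTop (𝓝 0) :=
    tendsto_one_div_add_atTop_nhds_zero_nat
  unfold ker
  split_ifs with h
  · rw [iSup_eq_top]
    intro b hb
    have h1 : Tendsto (fun n : ℕ => Real.log T - Real.log (1 / ((n:ℝ) + 1))) atTop atTop := by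
      have h2 : Tendsto (fun n : ℕ => Real.log (1 / ((n:ℝ) + 1))) atTop atBot := by
        apply Real.tendsto_log_nhdsGT_zero.comp
        rw [tendsto_nhdsWithin_iff]
        refine ⟨hlim, Eventually.of_forall fun n => ?_⟩
        show (0:ℝ) < 1 / ((n:ℝ) + 1)
        positivity
      exact tendsto_atTop_add_const_left _ _ (tendsto_neg_atBot_atTop.comp h2)
    obtain ⟨n, hn⟩ := (h1.eventually_gt_atTop b.toReal).exists
    refine ⟨n, ?_⟩
    have h3 : kerTrunc T n p = Real.toNNReal (Real.log T - Real.log (1 / ((n:ℝ) + 1))) := by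
      unfold kerTrunc
      rw [h, dist_self, max_eq_right (by positivity)]
    rw [h3]
    rw [← ENNReal.ofReal_toReal hb.ne]
    exact (ENNReal.ofReal_lt_ofReal_iff_of_nonneg ENNReal.toReal_nonneg).mpr hn
  · apply le_antisymm
    · apply iSup_le
      intro n
      apply ENNReal.ofReal_le_ofReal
      have := Real.log_le_log (dist_pos.mpr h) (le_max_left (dist p.1 p.2) (1 / ((n : ℝ) + 1)))
      linarith
    · obtain ⟨n, hn⟩ := (hlim.eventually (gt_mem_nhds (dist_pos.mpr h))).exists
      refine le_iSup_of_le n ?_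
      apply ENNReal.ofReal_le_ofReal
      rw [max_eq_left hn.le]

theorem en_le_of_tendsto {T : ℝ} {F : Filter ℕ} [F.NeBot] {ω : ℕ → ProbabilityMeasure ℝ}
    {ν : ProbabilityMeasure ℝ} (h : Tendsto ω F (𝓝 ν)) {c : ENNReal}
    (hc : ∀ᶠ k in F, en T (ω k : Measure ℝ) (ω k : Measure ℝ) ≤ c) :
    en T (ν : Measure ℝ) (ν : Measure ℝ) ≤ c := by
  have h2 : Tendsto (fun k => (ω k).prod (ω k)) F (𝓝 (ν.prod ν)) := by
    have := (ProbabilityMeasure.continuous_prod (α := ℝ) (β := ℝ)).tendsto (ν, ν)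
    exact this.comp (h.prodMk_nhds h)
  rw [en_eq_prod]
  have h3 : ∀ n, ∫⁻ p, (kerTrunc T n p : ENNReal) ∂((ν : Measure ℝ).prod (ν : Measure ℝ)) ≤ c := by
    intro n
    let g : BoundedContinuousFunction (ℝ × ℝ) NNReal :=
      BoundedContinuousFunction.mkOfBound ⟨kerTrunc T n, kerTrunc_continuous T n⟩
        (Real.toNNReal (Real.log T - Real.log (1 / ((n : ℝ) + 1)))) (by
          intro x y
          simp only [ContinuousMap.coe_mk]
          rw [NNReal.dist_eq, abs_le]
          have h1 := kerTrunc_le T n x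
          have h2 := kerTrunc_le T n y
          have h3 : (0:ℝ) ≤ kerTrunc T n x := NNReal.coe_nonneg _
          have h4 : (0:ℝ) ≤ kerTrunc T n y := NNReal.coe_nonneg _
          have h5 : ((kerTrunc T n x : NNReal) : ℝ) ≤ (Real.toNNReal (Real.log T - Real.log (1 / ((n : ℝ) + 1))) : NNReal) :=
            NNReal.coe_le_coe.mpr h1
          have h6 : ((kerTrunc T n y : NNReal) : ℝ) ≤ (Real.toNNReal (Real.log T - Real.log (1 / ((n : ℝ) + 1))) : NNReal) :=
            NNReal.coe_le_coe.mpr h2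
          constructor <;> linarith)
    have h4 := (ProbabilityMeasure.tendsto_iff_forall_lintegral_tendsto.mp h2) g
    refine le_of_tendsto h4 ?_
    filter_upwards [hc] with k hk
    refine le_trans ?_ hk
    rw [en_eq_prod]
    apply lintegral_mono
    intro p
    show (kerTrunc T n p : ENNReal) ≤ ker T p.1 p.2
    rw [← kerTrunc_iSup]
    exact le_iSup (fun n => (kerTrunc T n p : ENNReal)) n
  have h5 : ∫⁻ p, ker T p.1 p.2 ∂((ν : Measure ℝ).prod (ν : Measure ℝ))
      = ⨆ n, ∫⁻ p, (kerTrunc T n p : ENNReal) ∂((ν : Measure ℝ).prod (ν : Measure ℝ)) := by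
    rw [← lintegral_iSup]
    · simp_rw [kerTrunc_iSup]
    · intro n
      exact (kerTrunc_continuous T n).measurable.coe_nnreal_ennreal
    · exact kerTrunc_mono T
  rw [h5]
  exact iSup_le h3

end Pool.Agent.Helper368
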