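import Mathlib
import Pool.Agent.Helper368.Energy
import Pool.Agent.Helper368.A1

set_option autoImplicit false
set_option maxHeartbeats 4000000

open MeasureTheory Set Filter Topology ENNReal

namespace Pool.Agent.Helper368.AP

/-- nonnegative inverse branch of `ff g` -/
noncomputable def br (g w : ℝ) : ℝ := Real.sqrt (1 - 2 * g * (1 - w))

/-- pull back of a measure under `ff g` -/
noncomputable def P (g : ℝ) (σ : Measure ℝ) : Measure ℝ :=
  (2 : ENNReal)⁻¹ • (σ.map (br g)) + (2 : ENNReal)⁻¹ • (σ.map (fun w => - br g w))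

/-- shift of a sequence -/
def shift (γ : ℕ → ℝ) : ℕ → ℝ := fun i => γ (i + 1)

/-- iterated pull back -/
noncomputable def pull : (ℕ → ℝ) → ℕ → Measure ℝ → Measure ℝ
  | _, 0, ρ => ρ
  | γ, k + 1, ρ => P (γ 0) (pull (shift γ) k ρ)

/-- iterated quadratic maps -/
noncomputable def TT : (ℕ → ℝ) → ℕ → ℝ → ℝ
  | _, 0, x => x
  | γ, k + 1, x => TT (shift γ) k (ff (γ 0) x)

theorem TT_succ (γ : ℕ → ℝ) (k : ℕ) (x : ℝ) : TT γ (k + 1) x = ff (γ k) (TT γ k x) := by
  induction k generalizing γ x with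
  | zero => rfl
  | succ k ih =>
    show TT (shift γ) (k + 1) (ff (γ 0) x) = ff (γ (k + 1)) (TT (shift γ) k (ff (γ 0) x))
    rw [ih]
    rfl

theorem ff_continuous (g : ℝ) : Continuous (ff g) := by
  unfold ff; fun_prop

theorem TT_continuous (γ : ℕ → ℝ) (k : ℕ) : Continuous (TT γ k) := by
  induction k with
  | zero => exact continuous_id
  | succ k ih =>
    have : TT γ (k + 1) = fun x => ff (γ k) (TT γ k x) := by
      funext x; exact TT_succ γ k x
    rw [this]
    exact (ff_continuous _).comp ih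

theorem br_continuous (g : ℝ) : Continuous (br g) := by
  unfold br; fun_prop

theorem br_measurable (g : ℝ) : Measurable (br g) := (br_continuous g).measurable

theorem nbr_measurable (g : ℝ) : Measurable (fun w => - br g w) := (br_measurable g).neg

theorem br_nonneg (g w : ℝ) : 0 ≤ br g w := Real.sqrt_nonneg _

/-- good parameter -/
def Gd (g : ℝ) : Prop := 0 < g ∧ g < 1 / 4

theorem br_arg {g w : ℝ} (hg : Gd g) (hw : |w| ≤ 1) : 0 ≤ 1 - 2 * g * (1 - w) := by
  have := abs_le.mp hw
  have := hg.1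
  have := hg.2
  nlinarith

theorem br_sq {g w : ℝ} (hg : Gd g) (hw : |w| ≤ 1) : br g w ^ 2 = 1 - 2 * g * (1 - w) := by
  unfold br
  rw [Real.sq_sqrt]
  exact br_arg hg hw

theorem br_le_one {g w : ℝ} (hg : Gd g) (hw : |w| ≤ 1) : br g w ≤ 1 := by
  unfold br
  rw [Real.sqrt_le_one]
  have := abs_le.mp hw
  have := hg.1
  nlinarith

theorem ff_br {g w : ℝ} (hg : Gd g) (hw : |w| ≤ 1) : ff g (br g w) = w := by
  unfold ff
  rw [br_sq hg hw]
  have := hg.1
  field_simp
  ring

theorem ff_neg (g x : ℝ) : ff g (-x) = ff g x := by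
  unfold ff; ring

theorem ff_nbr {g w : ℝ} (hg : Gd g) (hw : |w| ≤ 1) : ff g (-br g w) = w := by
  rw [ff_neg, ff_br hg hw]

theorem abs_ff_gt {g x : ℝ} (hg : Gd g) (hx : 1 < |x|) : 1 < ff g x := by
  unfold ff
  have h1 : 1 < x ^ 2 := by
    rw [← sq_abs]; nlinarith
  have h2 := hg.1
  have : 0 < (x ^ 2 - 1) / (2 * g) := by
    apply div_pos (by linarith) (by positivity)
  linarith

theorem TT_le_one_of_le {γ : ℕ → ℝ} (hγ : Adm γ) {k l : ℕ} (hkl : k ≤ l) {x : ℝ}
    (h : |TT γ l x| ≤ 1) : |TT γ k x| ≤ 1 := by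
  induction l, hkl using Nat.le_induction with
  | base => exact h
  | succ l hl ih =>
    apply ih
    by_contra hcon
    rw [not_le] at hcon
    rw [TT_succ] at h
    have := abs_ff_gt (hγ l) hcon
    linarith [le_abs_self (ff (γ l) (TT γ l x))]

theorem shift_adm {γ : ℕ → ℝ} (hγ : Adm γ) : Adm (shift γ) :=
  fun i => hγ (i + 1)

theorem P_apply (g : ℝ) (σ : Measure ℝ) (A : Set ℝ) (hA : MeasurableSet A) :
    P g σ A = (2 : ENNReal)⁻¹ * σ (br g ⁻¹' A) + (2 : ENNReal)⁻¹ * σ ((fun w => - br g w) ⁻¹' A) := by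
  unfold P
  rw [Measure.add_apply, Measure.smul_apply, Measure.smul_apply,
    Measure.map_apply (br_measurable g) hA, Measure.map_apply (nbr_measurable g) hA]
  rfl

instance P_prob (g : ℝ) (σ : Measure ℝ) [IsProbabilityMeasure σ] : IsProbabilityMeasure (P g σ) := by
  constructor
  rw [P_apply g σ _ MeasurableSet.univ]
  simp only [preimage_univ, measure_univ, mul_one]
  exact ENNReal.inv_two_add_inv_two

instance pull_prob (γ : ℕ → ℝ) (k : ℕ) (ρ : Measure ℝ) [IsProbabilityMeasure ρ] :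
    IsProbabilityMeasure (pull γ k ρ) := by
  induction k generalizing γ with
  | zero => unfold pull; infer_instance
  | succ k ih =>
    unfold pull
    have := ih (shift γ)
    infer_instance

theorem measurableSet_E (γ : ℕ → ℝ) (k : ℕ) : MeasurableSet {x | |TT γ k x| ≤ 1} :=
  (isClosed_le ((TT_continuous γ k).abs) continuous_const).measurableSet

theorem pull_support (ρ : Measure ℝ) (hρ : ∀ᵐ x ∂ρ, |x| ≤ 1) (k : ℕ) (γ : ℕ → ℝ)
    (hγ : Adm γ) : ∀ᵐ x ∂(pull γ k ρ), |TT γ k x| ≤ 1 := by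
  induction k generalizing γ with
  | zero => exact hρ
  | succ k ih =>
    have h1 := ih (shift γ) (shift_adm hγ)
    have h1' : ∀ᵐ x ∂(pull (shift γ) k ρ), |TT (shift γ) k x| ≤ 1 := h1
    rw [ae_iff] at h1 ⊢
    unfold pull
    rw [P_apply]
    · have h2 : pull (shift γ) k ρ (br (γ 0) ⁻¹' {a | ¬|TT γ (k + 1) a| ≤ 1}) = 0 := by
        apply measure_mono_null _ h1
        intro w hw hw'
        have hw1 : |w| ≤ 1 := TT_le_one_of_le (shift_adm hγ) (Nat.zero_le k) hw'
        apply hw
        show |TT (shift γ) k (ff (γ 0) (br (γ 0) w))| ≤ 1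
        rw [ff_br (hγ 0) hw1]
        exact hw'
      have h3 : pull (shift γ) k ρ ((fun w => -br (γ 0) w) ⁻¹' {a | ¬|TT γ (k + 1) a| ≤ 1}) = 0 := by
        apply measure_mono_null _ h1
        intro w hw hw'
        have hw1 : |w| ≤ 1 := TT_le_one_of_le (shift_adm hγ) (Nat.zero_le k) hw'
        apply hw
        show |TT (shift γ) k (ff (γ 0) (-br (γ 0) w))| ≤ 1
        rw [ff_nbr (hγ 0) hw1]
        exact hw'
      rw [h2, h3]
      simp
    · exact (measurableSet_E γ (k + 1)).compl

/-- product identity for the kernel -/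
theorem ker_add {T g x w : ℝ} (hT : 2 ≤ T) (hg : Gd g) (hx : |x| ≤ 1) (hfx : |ff g x| ≤ 1)
    (hw : |w| ≤ 1) :
    ker T x (br g w) + ker T x (-br g w) = ker T (ff g x) w
      + ENNReal.ofReal (Real.log T + Real.log (1 / (2 * g))) := by
  have hT0 : 0 < T := by linarith
  have hg0 : 0 < g := hg.1
  have hs0 := br_nonneg g w
  have hs1 := br_le_one hg hw
  have hs2 := br_sq hg hw
  set s := br g w with hs
  have hx' := abs_le.mp hx
  have hfx' := abs_le.mp hfx
  have hw' := abs_le.mp hw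
  have hfe : ff g x = (x ^ 2 - 1) / (2 * g) + 1 := rfl
  by_cases h : ff g x = w
  · have h1 : x ^ 2 = s ^ 2 := by
      rw [hs2]
      rw [hfe] at h
      have : (x ^ 2 - 1) / (2 * g) = w - 1 := by linarith
      rw [div_eq_iff (by positivity)] at this
      linarith
    have h2 : ker T (ff g x) w = ⊤ := by
      unfold ker; rw [if_pos h]
    rw [h2, top_add]
    rcases sq_eq_sq_iff_eq_or_eq_neg.mp h1 with h3 | h3
    · have : ker T x s = ⊤ := by unfold ker; rw [if_pos h3]
      rw [this, top_add]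
    · have : ker T x (-s) = ⊤ := by unfold ker; rw [if_pos h3]
      rw [this, add_top]
  · have h1 : x ≠ s := by
      rintro rfl
      exact h (by rw [hs]; exact ff_br hg hw)
    have h2 : x ≠ -s := by
      intro h3
      apply h
      rw [h3, hs]; exact ff_nbr hg hw
    have e1 : (x - s) * (x + s) = (ff g x - w) * (2 * g) := by
      have : (x - s) * (x + s) = x ^ 2 - s ^ 2 := by ring
      rw [this, hs2, hfe]
      field_simp
      ring
    have h1' : x - s ≠ 0 := sub_ne_zero.mpr h1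
    have h2' : x + s ≠ 0 := by
      intro h3; exact h2 (by linarith)
    have h3' : ff g x - w ≠ 0 := sub_ne_zero.mpr h
    have h4' : (2 * g) ≠ 0 := by positivity
    have e2 : Real.log (dist x s) + Real.log (dist x (-s)) = Real.log (dist (ff g x) w) - Real.log (1 / (2 * g)) := by
      simp only [Real.dist_eq, Real.log_abs, sub_neg_eq_add]
      rw [← Real.log_mul h1' h2', e1, Real.log_mul h3' h4', one_div, Real.log_inv]
      ring
    have h5 : 1 ≤ 1 / (2 * g) := by
      rw [le_div_iff₀ (by positivity)]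
      linarith [hg.2]
    unfold ker
    rw [if_neg h1, if_neg h2, if_neg h]
    have p1 : 0 ≤ Real.log T - Real.log (dist x s) := by
      rw [sub_nonneg]
      apply Real.log_le_log (dist_pos.mpr h1)
      rw [Real.dist_eq, abs_le]
      constructor <;> linarith
    have p2 : 0 ≤ Real.log T - Real.log (dist x (-s)) := by
      rw [sub_nonneg]
      apply Real.log_le_log (dist_pos.mpr h2)
      rw [Real.dist_eq, abs_le]
      constructor <;> linarith
    have p3 : 0 ≤ Real.log T - Real.log (dist (ff g x) w) := by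
      rw [sub_nonneg]
      apply Real.log_le_log (dist_pos.mpr h)
      rw [Real.dist_eq, abs_le]
      constructor <;> linarith
    have p4 : 0 ≤ Real.log T + Real.log (1 / (2 * g)) := by
      have := Real.log_nonneg (show (1:ℝ) ≤ T by linarith)
      have := Real.log_nonneg h5
      linarith
    rw [← ENNReal.ofReal_add p1 p2, ← ENNReal.ofReal_add p3 p4]
    congr 1
    linarith

/-- energy constants -/
noncomputable def VV (T : ℝ) : (ℕ → ℝ) → ℕ → ENNReal
  | _, 0 => 0
  | γ, k + 1 => (2 : ENNReal)⁻¹ * (VV T (shift γ) k + ENNReal.ofReal (Real.log T + Real.log (1 / (2 * γ 0))))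

theorem measurable_ker_left (T x : ℝ) : Measurable (fun y => ker T x y) :=
  (measurable_ker T).comp (measurable_prodMk_left (x := x))

theorem pot {T : ℝ} (hT : 2 ≤ T) (ρ : Measure ℝ) [IsProbabilityMeasure ρ] (hρ : ∀ᵐ x ∂ρ, |x| ≤ 1)
    (k : ℕ) (γ : ℕ → ℝ) (hγ : Adm γ) (x : ℝ) (hx : |TT γ k x| ≤ 1) :
    ∫⁻ y, ker T x y ∂(pull γ k ρ) = VV T γ k + (2 : ENNReal)⁻¹ ^ k * ∫⁻ w, ker T (TT γ k x) w ∂ρ := by
  induction k generalizing γ x with
  | zero => simp [pull, TT, VV]
  | succ k ih =>
    have hx0 : |x| ≤ 1 := TT_le_one_of_le hγ (Nat.zero_le (k + 1)) hx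
    have hx1 : |ff (γ 0) x| ≤ 1 := TT_le_one_of_le hγ (show 1 ≤ k + 1 by omega) hx
    have hsup := pull_support ρ hρ k (shift γ) (shift_adm hγ)
    have ih' := ih (shift γ) (shift_adm hγ) (ff (γ 0) x) hx
    have hm := measurable_ker_left T x
    have h1 : ∫⁻ y, ker T x y ∂(pull γ (k + 1) ρ)
        = (2 : ENNReal)⁻¹ * ∫⁻ w, (ker T x (br (γ 0) w) + ker T x (-br (γ 0) w)) ∂(pull (shift γ) k ρ) := by
      show ∫⁻ y, ker T x y ∂(P (γ 0) (pull (shift γ) k ρ)) = _
      have hmb : Measurable (fun w => ker T x (br (γ 0) w)) := hm.comp (br_measurable _)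
      unfold P
      rw [lintegral_add_measure, lintegral_smul_measure, lintegral_smul_measure,
        lintegral_map hm (br_measurable _), lintegral_map hm (nbr_measurable _),
        lintegral_add_left hmb, mul_add]
      rfl
    have h2 : ∫⁻ w, (ker T x (br (γ 0) w) + ker T x (-br (γ 0) w)) ∂(pull (shift γ) k ρ)
        = ∫⁻ w, (ker T (ff (γ 0) x) w + ENNReal.ofReal (Real.log T + Real.log (1 / (2 * γ 0)))) ∂(pull (shift γ) k ρ) := by
      apply lintegral_congr_ae
      filter_upwards [hsup] with w hw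
      exact ker_add hT (hγ 0) hx0 hx1 (TT_le_one_of_le (shift_adm hγ) (Nat.zero_le k) hw)
    rw [h1, h2, lintegral_add_left (measurable_ker_left T _), ih']
    simp only [lintegral_const, measure_univ, mul_one]
    show _ = (2 : ENNReal)⁻¹ * (VV T (shift γ) k + ENNReal.ofReal (Real.log T + Real.log (1 / (2 * γ 0))))
      + (2 : ENNReal)⁻¹ ^ (k + 1) * ∫⁻ w, ker T (TT (shift γ) k (ff (γ 0) x)) w ∂ρ
    rw [pow_succ]
    ring

end Pool.Agent.Helper368.AP
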