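import Mathlib
import Pool.Agent.Helper368.B1

set_option autoImplicit false
set_option maxHeartbeats 4000000

open MeasureTheory Set Filter Topology ENNReal

namespace Pool.Agent.Helper368.AP

/-- uniform measure on `[-1,1]` -/
noncomputable def uu : Measure ℝ := (2 : ENNReal)⁻¹ • volume.restrict (Icc (-1) 1)

instance uu_prob : IsProbabilityMeasure uu := by
  constructor
  unfold uu
  rw [Measure.smul_apply, Measure.restrict_apply MeasurableSet.univ, univ_inter, Real.volume_Icc]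
  norm_num
  exact ENNReal.inv_mul_cancel (by norm_num) (by norm_num)

theorem uu_support : ∀ᵐ x ∂uu, |x| ≤ 1 := by
  unfold uu
  apply Measure.ae_smul_measure
  rw [ae_restrict_iff' measurableSet_Icc]
  filter_upwards with x hx
  exact abs_le.mpr hx

/-- bound for the potential of `uu` -/
noncomputable def CT (T : ℝ) : ENNReal := ∫⁻ v in Icc (-2 : ℝ) 2, ENNReal.ofReal (Real.log T - Real.log v)

theorem CT_lt_top (T : ℝ) : CT T < ⊤ := by
  unfold CT
  have h1 : IntegrableOn (fun v => Real.log T - Real.log v) (Icc (-2 : ℝ) 2) := by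
    apply Integrable.sub
    · exact integrableOn_const (by rw [Real.volume_Icc]; exact ofReal_ne_top)
    · rw [← IntegrableOn, ← intervalIntegrable_iff_integrableOn_Icc_of_le (by norm_num)]
      exact intervalIntegral.intervalIntegrable_log'
  have h2 : ∫⁻ v in Icc (-2 : ℝ) 2, ENNReal.ofReal (Real.log T - Real.log v)
      ≤ ∫⁻ v in Icc (-2 : ℝ) 2, ‖Real.log T - Real.log v‖ₑ := by
    apply lintegral_mono
    intro v
    exact Real.ofReal_le_enorm _
  exact lt_of_le_of_lt h2 h1.2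

theorem pot_uu {T t : ℝ} (ht : |t| ≤ 1) : ∫⁻ w, ker T t w ∂uu ≤ CT T := by
  unfold uu CT
  rw [lintegral_smul_measure]
  have ht' := abs_le.mp ht
  have h1 : ∫⁻ w in Icc (-1:ℝ) 1, ker T t w
      = ∫⁻ w in Icc (-1:ℝ) 1, ENNReal.ofReal (Real.log T - Real.log (t - w)) := by
    apply lintegral_congr_ae
    have : ∀ᵐ w ∂(volume.restrict (Icc (-1:ℝ) 1)), w ≠ t :=
      (ae_restrict_of_ae (Measure.ae_ne volume t))
    filter_upwards [this] with w hw
    unfold ker
    rw [if_neg (Ne.symm hw), Real.dist_eq, Real.log_abs]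
  have h2 : ∫⁻ w in Icc (-1:ℝ) 1, ENNReal.ofReal (Real.log T - Real.log (t - w))
      ≤ ∫⁻ v in Icc (-2 : ℝ) 2, ENNReal.ofReal (Real.log T - Real.log v) := by
    rw [← lintegral_indicator measurableSet_Icc, ← lintegral_indicator measurableSet_Icc]
    rw [← lintegral_sub_left_eq_self (fun v => (Icc (-2:ℝ) 2).indicator (fun v => ENNReal.ofReal (Real.log T - Real.log v)) v) t]
    apply lintegral_mono
    intro w
    by_cases hw : w ∈ Icc (-1:ℝ) 1
    · have hw2 : t - w ∈ Icc (-2:ℝ) 2 := by constructor <;> linarith [hw.1, hw.2]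
      show _ ≤ (Icc (-2:ℝ) 2).indicator (fun v => ENNReal.ofReal (Real.log T - Real.log v)) (t - w)
      rw [indicator_of_mem hw, indicator_of_mem hw2]
    · rw [indicator_of_notMem hw]
      exact zero_le
  rw [h1]
  calc (2 : ENNReal)⁻¹ • ∫⁻ w in Icc (-1:ℝ) 1, ENNReal.ofReal (Real.log T - Real.log (t - w))
      ≤ 1 * ∫⁻ w in Icc (-1:ℝ) 1, ENNReal.ofReal (Real.log T - Real.log (t - w)) := by
        rw [smul_eq_mul]
        gcongr
        exact ENNReal.inv_le_one.mpr (by norm_num)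
    _ ≤ _ := by rw [one_mul]; exact h2

theorem VV_eq_sum (T : ℝ) (γ : ℕ → ℝ) (k : ℕ) :
    VV T γ k = ∑ i ∈ Finset.range k, (2 : ENNReal)⁻¹ ^ (i + 1) *
      ENNReal.ofReal (Real.log T + Real.log (1 / (2 * γ i))) := by
  induction k generalizing γ with
  | zero => simp [VV]
  | succ k ih =>
    rw [Finset.sum_range_succ']
    show (2 : ENNReal)⁻¹ * (VV T (shift γ) k + ENNReal.ofReal (Real.log T + Real.log (1 / (2 * γ 0)))) = _
    rw [ih (shift γ), mul_add, Finset.mul_sum]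
    congr 1
    · apply Finset.sum_congr rfl
      intro i _
      unfold shift
      rw [pow_succ _ (i + 1)]
      ring
    · simp

theorem VV_mono (T : ℝ) (γ : ℕ → ℝ) : Monotone (VV T γ) := by
  intro a b hab
  rw [VV_eq_sum, VV_eq_sum]
  exact Finset.sum_le_sum_of_subset (Finset.range_mono hab)

theorem VV_bdd {T : ℝ} (hT : 2 ≤ T) {γ : ℕ → ℝ} (h1 : Adm γ)
    (h2 : ∀ i, 1 / (4 * γ i) ≤ 2 ^ (i + 7)) : ⨆ k, VV T γ k < ⊤ := by
  have hs : Summable (fun i : ℕ => (1/2 : ℝ) ^ (i + 1) * (Real.log T + (i + 8))) := by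
    have e : (fun i : ℕ => (1/2 : ℝ) ^ (i + 1) * (Real.log T + (i + 8)))
       = fun i : ℕ => (1/2) * (Real.log T + 8) * (1/2:ℝ)^i + (1/2) * ((i:ℝ)^1 * (1/2:ℝ)^i) := by
      funext i; rw [pow_succ]; ring
    rw [e]
    apply Summable.add
    · apply Summable.mul_left
      exact summable_geometric_two
    · apply Summable.mul_left
      exact summable_pow_mul_geometric_of_norm_lt_one 1 (by norm_num)
  have hlT : 0 ≤ Real.log T := Real.log_nonneg (by linarith)
  have h3 : ∀ k, VV T γ k ≤ ENNReal.ofReal (∑' i : ℕ, (1/2 : ℝ) ^ (i + 1) * (Real.log T + (i + 8))) := by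
    intro k
    rw [VV_eq_sum]
    have h4 : ∀ i, (2 : ENNReal)⁻¹ ^ (i + 1) * ENNReal.ofReal (Real.log T + Real.log (1 / (2 * γ i)))
        ≤ ENNReal.ofReal ((1/2 : ℝ) ^ (i + 1) * (Real.log T + (i + 8))) := by
      intro i
      rw [ENNReal.ofReal_mul (by positivity)]
      have e1 : ENNReal.ofReal ((1/2 : ℝ) ^ (i + 1)) = (2 : ENNReal)⁻¹ ^ (i + 1) := by
        rw [ENNReal.ofReal_pow (by norm_num), one_div, ENNReal.ofReal_inv_of_pos (by norm_num)]
        simp
      rw [e1]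
      gcongr
      have hl0 : 0 < γ i := (h1 i).1
      calc Real.log (1 / (2 * γ i)) ≤ Real.log (2 ^ (i + 8)) := by
            apply Real.log_le_log (by positivity)
            have e : 1 / (2 * γ i) = 2 * (1 / (4 * γ i)) := by field_simp; norm_num
            rw [e]
            calc 2 * (1 / (4 * γ i)) ≤ 2 * 2 ^ (i + 7) := by linarith [h2 i]
              _ = 2 ^ (i + 8) := by rw [pow_succ 2 (i+7)]; ring
        _ = (i + 8) * Real.log 2 := by
            rw [Real.log_pow]; push_cast; ring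
        _ ≤ (i + 8) * 1 := by
            gcongr
            linarith [Real.log_two_lt_d9]
        _ = i + 8 := mul_one _
    calc _ ≤ ∑ i ∈ Finset.range k, ENNReal.ofReal ((1/2 : ℝ) ^ (i + 1) * (Real.log T + (i + 8))) :=
          Finset.sum_le_sum fun i _ => h4 i
      _ = ENNReal.ofReal (∑ i ∈ Finset.range k, (1/2 : ℝ) ^ (i + 1) * (Real.log T + (i + 8))) := by
          rw [ENNReal.ofReal_sum_of_nonneg]
          intro i _; positivity
      _ ≤ _ := by
          apply ENNReal.ofReal_le_ofReal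
          apply hs.sum_le_tsum
          intro i _; positivity
  exact lt_of_le_of_lt (iSup_le h3) ofReal_lt_top

/-- the approximating measures -/
noncomputable def om (γ : ℕ → ℝ) (k : ℕ) : ProbabilityMeasure ℝ :=
  ⟨pull γ k uu, inferInstance⟩

theorem om_coe (γ : ℕ → ℝ) (k : ℕ) : (om γ k : Measure ℝ) = pull γ k uu := rfl

theorem en_om {T : ℝ} (hT : 2 ≤ T) {γ : ℕ → ℝ} (hγ : Adm γ) (k : ℕ) :
    en T (om γ k : Measure ℝ) (om γ k : Measure ℝ) ≤ VV T γ k + (2 : ENNReal)⁻¹ ^ k * CT T := by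
  rw [om_coe]
  unfold en
  have h1 : ∀ᵐ x ∂(pull γ k uu), ∫⁻ y, ker T x y ∂(pull γ k uu)
      ≤ VV T γ k + (2 : ENNReal)⁻¹ ^ k * CT T := by
    filter_upwards [pull_support uu uu_support k γ hγ] with x hx
    rw [pot hT uu uu_support k γ hγ x hx]
    gcongr
    exact pot_uu hx
  calc _ ≤ ∫⁻ x, (VV T γ k + (2 : ENNReal)⁻¹ ^ k * CT T) ∂(pull γ k uu) := lintegral_mono_ae h1
    _ = _ := by simp

/-- the limit set -/
def KK (γ : ℕ → ℝ) : Set ℝ := {x | ∀ k, |TT γ k x| ≤ 1}

theorem KK_closed (γ : ℕ → ℝ) : IsClosed (KK γ) := by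
  have : KK γ = ⋂ k, {x | |TT γ k x| ≤ 1} := by
    ext x; simp [KK]
  rw [this]
  exact isClosed_iInter fun k => isClosed_le ((TT_continuous γ k).abs) continuous_const

theorem cross_ge {T : ℝ} (hT : 2 ≤ T) {γ : ℕ → ℝ} (hγ : Adm γ) (k : ℕ)
    (μ : Measure ℝ) [IsProbabilityMeasure μ] (hμ : μ (KK γ)ᶜ = 0) :
    VV T γ k ≤ en T μ (om γ k : Measure ℝ) := by
  rw [om_coe]
  unfold en
  have h1 : ∀ᵐ x ∂μ, VV T γ k ≤ ∫⁻ y, ker T x y ∂(pull γ k uu) := by
    have : ∀ᵐ x ∂μ, x ∈ KK γ := by rw [ae_iff]; exact hμ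
    filter_upwards [this] with x hx
    rw [pot hT uu uu_support k γ hγ x (hx k)]
    exact le_self_add
  calc VV T γ k = ∫⁻ x, VV T γ k ∂μ := by simp
    _ ≤ _ := lintegral_mono_ae h1

theorem ae_dist {T : ℝ} (hT : 2 ≤ T) {μ ν : Measure ℝ} (hμ : ∀ᵐ x ∂μ, |x| ≤ 1)
    (hν : ∀ᵐ x ∂ν, |x| ≤ 1) : ∀ᵐ x ∂μ, ∀ᵐ y ∂ν, dist x y ≤ T := by
  filter_upwards [hμ] with x hx
  filter_upwards [hν] with y hy
  rw [Real.dist_eq, abs_le]
  have := abs_le.mp hx
  have := abs_le.mp hy
  constructor <;> linarith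

theorem pull_support_one {γ : ℕ → ℝ} (hγ : Adm γ) (k : ℕ) :
    ∀ᵐ x ∂(om γ k : Measure ℝ), |x| ≤ 1 := by
  rw [om_coe]
  filter_upwards [pull_support uu uu_support k γ hγ] with x hx
  exact TT_le_one_of_le hγ (Nat.zero_le k) hx

theorem lower_bound {T : ℝ} (hT : 2 ≤ T) {γ : ℕ → ℝ} (hγ : Adm γ)
    (hV : ⨆ k, VV T γ k < ⊤)
    (μ : Measure ℝ) [IsProbabilityMeasure μ] (hμ : μ (KK γ)ᶜ = 0) :
    ⨆ k, VV T γ k ≤ en T μ μ := by
  have hμ1 : ∀ᵐ x ∂μ, |x| ≤ 1 := by
    have : ∀ᵐ x ∂μ, x ∈ KK γ := by rw [ae_iff]; exact hμ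
    filter_upwards [this] with x hx using hx 0
  have hT0 : 0 < T := by linarith
  have hk : ∀ k, VV T γ k ≤ en T μ μ + (2 : ENNReal)⁻¹ ^ k * CT T := by
    intro k
    have h1 := cross_ge hT hγ k μ hμ
    have h2 := en_pd hT0 μ (om γ k : Measure ℝ) (ae_dist hT hμ1 hμ1)
      (ae_dist hT (pull_support_one hγ k) (pull_support_one hγ k))
      (ae_dist hT hμ1 (pull_support_one hγ k))
    have h3 := en_om hT hγ k
    have hfin : VV T γ k ≠ ⊤ := (lt_of_le_of_lt (le_iSup (VV T γ) k) hV).ne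
    have h4 : VV T γ k + VV T γ k ≤ (en T μ μ + (2 : ENNReal)⁻¹ ^ k * CT T) + VV T γ k := by
      calc VV T γ k + VV T γ k = 2 * VV T γ k := by ring
        _ ≤ 2 * en T μ (om γ k : Measure ℝ) := by gcongr
        _ ≤ en T μ μ + en T (om γ k : Measure ℝ) (om γ k : Measure ℝ) := h2
        _ ≤ en T μ μ + (VV T γ k + (2 : ENNReal)⁻¹ ^ k * CT T) := by gcongr
        _ = _ := by ring
    exact (ENNReal.add_le_add_iff_right hfin).mp h4
  apply iSup_le
  intro j
  have hlim : Tendsto (fun k : ℕ => en T μ μ + (2 : ENNReal)⁻¹ ^ k * CT T) atTop (𝓝 (en T μ μ)) := by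
    have h0 : Tendsto (fun k : ℕ => (2 : ENNReal)⁻¹ ^ k * CT T) atTop (𝓝 0) := by
      have := ENNReal.Tendsto.mul_const (b := CT T)
        (ENNReal.tendsto_pow_atTop_nhds_zero_of_lt_one (r := (2 : ENNReal)⁻¹) (by
          exact ENNReal.inv_lt_one.mpr (by norm_num))) (Or.inr (CT_lt_top T).ne)
      simpa using this
    simpa using tendsto_const_nhds.add h0
  apply ge_of_tendsto hlim
  filter_upwards [eventually_ge_atTop j] with k hjk
  exact le_trans (VV_mono T γ hjk) (hk k)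

theorem om_tight {γ : ℕ → ℝ} (hγ : Adm γ) : IsCompact (closure (range (om γ))) := by
  have htight : IsTightMeasureSet {((μ : ProbabilityMeasure ℝ) : Measure ℝ) | μ ∈ range (om γ)} := by
    rw [isTightMeasureSet_iff_exists_isCompact_measure_compl_le]
    intro ε hε
    refine ⟨Icc (-1) 1, isCompact_Icc, ?_⟩
    rintro _ ⟨_, ⟨k, rfl⟩, rfl⟩
    have : (om γ k : Measure ℝ) (Icc (-1) 1)ᶜ = 0 := by
      have h := pull_support_one hγ k
      rw [ae_iff] at h
      apply measure_mono_null _ h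
      intro x hx hx'
      exact hx (abs_le.mp hx')
    rw [this]
    exact hε.le
  exact isCompact_closure_of_isTightMeasureSet htight

/-- limits along any ultrafilter -/
theorem exists_limit {γ : ℕ → ℝ} (hγ : Adm γ) (U : Ultrafilter ℕ) :
    ∃ ν : ProbabilityMeasure ℝ, Tendsto (om γ) U (𝓝 ν) := by
  obtain ⟨ν, -, hν⟩ := (om_tight hγ).ultrafilter_le_nhds (U.map (om γ)) (by
    rw [Filter.le_principal_iff]
    exact Filter.mem_map.mpr (Filter.univ_mem' fun k => subset_closure (mem_range_self k)))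
  exact ⟨ν, hν⟩

theorem limit_energy {T : ℝ} (hT : 2 ≤ T) {γ : ℕ → ℝ} (hγ : Adm γ)
    {ν : ProbabilityMeasure ℝ} {U : Ultrafilter ℕ} (hU : (U : Filter ℕ) ≤ atTop)
    (h : Tendsto (om γ) U (𝓝 ν)) :
    en T (ν : Measure ℝ) (ν : Measure ℝ) ≤ ⨆ k, VV T γ k := by
  apply ENNReal.le_of_forall_pos_le_add
  intro ε hε _
  apply en_le_of_tendsto h
  apply hU
  have h0 : Tendsto (fun k : ℕ => (2 : ENNReal)⁻¹ ^ k * CT T) atTop (𝓝 0) := by
    have := ENNReal.Tendsto.mul_const (b := CT T)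
      (ENNReal.tendsto_pow_atTop_nhds_zero_of_lt_one (r := (2 : ENNReal)⁻¹) (by
        exact ENNReal.inv_lt_one.mpr (by norm_num))) (Or.inr (CT_lt_top T).ne)
    simpa using this
  have h1 := h0.eventually (Iio_mem_nhds (show (0 : ENNReal) < ε by exact_mod_cast hε))
  filter_upwards [h1] with k hk
  refine le_trans (en_om hT hγ k) ?_
  exact add_le_add (le_iSup (VV T γ) k) (le_of_lt hk)

theorem limit_support {γ : ℕ → ℝ} (hγ : Adm γ)
    {ν : ProbabilityMeasure ℝ} {U : Ultrafilter ℕ} (hU : (U : Filter ℕ) ≤ atTop)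
    (h : Tendsto (om γ) U (𝓝 ν)) : (ν : Measure ℝ) (KK γ)ᶜ = 0 := by
  have hE : ∀ k, (ν : Measure ℝ) {x | |TT γ k x| ≤ 1}ᶜ = 0 := by
    intro k
    have hopen : IsOpen {x | |TT γ k x| ≤ 1}ᶜ :=
      (isClosed_le ((TT_continuous γ k).abs) continuous_const).isOpen_compl
    have h1 := ProbabilityMeasure.le_liminf_measure_open_of_tendsto h hopen
    have h2 : ∀ᶠ l in (U : Filter ℕ), (om γ l : Measure ℝ) {x | |TT γ k x| ≤ 1}ᶜ = 0 := by
      apply hU
      filter_upwards [eventually_ge_atTop k] with l hl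
      have h3 := pull_support uu uu_support l γ hγ
      rw [ae_iff] at h3
      rw [om_coe]
      apply measure_mono_null _ h3
      intro x hx hx'
      exact hx (TT_le_one_of_le hγ hl hx')
    have h4 : liminf (fun l => (om γ l : Measure ℝ) {x | |TT γ k x| ≤ 1}ᶜ) (U : Filter ℕ) = 0 := by
      rw [Filter.liminf_congr h2]
      simp
    rw [h4] at h1
    exact le_antisymm h1 zero_le
  have : (KK γ)ᶜ = ⋃ k, {x | |TT γ k x| ≤ 1}ᶜ := by
    ext x; simp [KK]
  rw [this]
  exact measure_iUnion_null hE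

/-- shifted sequences -/
def shk (γ : ℕ → ℝ) (k : ℕ) : ℕ → ℝ := fun i => γ (k + i)

theorem shift_shk (γ : ℕ → ℝ) (k : ℕ) : shift (shk γ k) = shk γ (k + 1) := by
  funext i
  unfold shift shk
  congr 1
  ring

theorem shk_adm {γ : ℕ → ℝ} (hγ : Adm γ) (k : ℕ) : Adm (shk γ k) := fun i => hγ (k + i)

theorem integral_P (g : ℝ) (σ : Measure ℝ) [IsFiniteMeasure σ] {f : ℝ → ℝ} (hf : Continuous f)
    (h1 : Integrable (fun w => f (br g w)) σ) (h2 : Integrable (fun w => f (- br g w)) σ) :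
    ∫ x, f x ∂(P g σ) = 1/2 * ((∫ w, f (br g w) ∂σ) + ∫ w, f (- br g w) ∂σ) := by
  unfold P
  have hm1 : AEMeasurable (br g) σ := (br_measurable g).aemeasurable
  have hm2 : AEMeasurable (fun w => - br g w) σ := (nbr_measurable g).aemeasurable
  rw [integral_add_measure, integral_smul_measure, integral_smul_measure,
    integral_map hm1 hf.aestronglyMeasurable, integral_map hm2 hf.aestronglyMeasurable]
  · simp only [ENNReal.toReal_inv, ENNReal.toReal_ofNat, smul_eq_mul]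
    ring
  · apply Integrable.smul_measure _ (by simp)
    rw [integrable_map_measure hf.aestronglyMeasurable hm1]
    exact h1
  · apply Integrable.smul_measure _ (by simp)
    rw [integrable_map_measure hf.aestronglyMeasurable hm2]
    exact h2

/-- pull back as a probability measure -/
noncomputable def PP (g : ℝ) (σ : ProbabilityMeasure ℝ) : ProbabilityMeasure ℝ :=
  ⟨P g (σ : Measure ℝ), inferInstance⟩

theorem P_tendsto (g : ℝ) {σ : ℕ → ProbabilityMeasure ℝ} {ρ : ProbabilityMeasure ℝ} {F : Filter ℕ}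
    (h : Tendsto σ F (𝓝 ρ)) :
    Tendsto (fun n => PP g (σ n)) F (𝓝 (PP g ρ)) := by
  rw [ProbabilityMeasure.tendsto_iff_forall_integral_tendsto] at h ⊢
  intro f
  have hi1 : ∀ (τ : ProbabilityMeasure ℝ), Integrable (fun w => f (br g w)) (τ : Measure ℝ) := by
    intro τ
    exact (f.compContinuous ⟨br g, br_continuous g⟩).integrable _
  have hi2 : ∀ (τ : ProbabilityMeasure ℝ), Integrable (fun w => f (- br g w)) (τ : Measure ℝ) := by
    intro τ
    exact (f.compContinuous ⟨fun w => - br g w, (br_continuous g).neg⟩).integrable _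
  have e : ∀ τ : ProbabilityMeasure ℝ, ∫ x, f x ∂(P g (τ : Measure ℝ)) =
      1/2 * ((∫ w, f (br g w) ∂(τ : Measure ℝ)) + ∫ w, f (- br g w) ∂(τ : Measure ℝ)) := fun τ =>
    integral_P g _ f.continuous (hi1 τ) (hi2 τ)
  have h1 := h (f.compContinuous ⟨br g, br_continuous g⟩)
  have h2 := h (f.compContinuous ⟨fun w => - br g w, (br_continuous g).neg⟩)
  have h3 := (h1.add h2).const_mul (1/2)
  show Tendsto (fun n => ∫ x, f x ∂(P g (σ n : Measure ℝ))) F (𝓝 (∫ x, f x ∂(P g (ρ : Measure ℝ))))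
  rw [e ρ]
  refine h3.congr ?_
  intro n
  rw [e (σ n)]
  rfl

/-- the family of equilibrium measures -/
theorem exists_family {γ : ℕ → ℝ} (hγ : Adm γ) :
    ∃ ν : ℕ → ProbabilityMeasure ℝ,
      (∀ k, (ν k : Measure ℝ) = P (γ k) (ν (k + 1) : Measure ℝ)) ∧
      (∀ k, ∃ U : Ultrafilter ℕ, (U : Filter ℕ) ≤ atTop ∧ Tendsto (om (shk γ k)) U (𝓝 (ν k))) := by
  set U0 : Ultrafilter ℕ := Filter.hyperfilter ℕ
  have hU0 : (U0 : Filter ℕ) ≤ atTop := Nat.hyperfilter_le_atTop
  have hex : ∀ k, ∃ ν : ProbabilityMeasure ℝ, Tendsto (om (shk γ k)) (U0.map (fun n => n - k)) (𝓝 ν) :=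
    fun k => exists_limit (shk_adm hγ k) _
  choose ν hν using hex
  refine ⟨ν, ?_, ?_⟩
  · intro k
    have h1 : Tendsto (fun n => om (shk γ k) (n - k)) U0 (𝓝 (ν k)) := hν k
    have h2 : Tendsto (fun n => om (shk γ (k + 1)) (n - (k + 1))) U0 (𝓝 (ν (k + 1))) := hν (k + 1)
    have h3 := P_tendsto (γ k) h2
    have h4 : (fun n => PP (γ k) (om (shk γ (k + 1)) (n - (k + 1))))
        =ᶠ[(U0 : Filter ℕ)] (fun n => om (shk γ k) (n - k)) := by
      apply hU0
      filter_upwards [eventually_ge_atTop (k + 1)] with n hn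
      apply Subtype.ext
      show P (γ k) (pull (shk γ (k + 1)) (n - (k + 1)) uu) = pull (shk γ k) (n - k) uu
      have e : n - k = (n - (k + 1)) + 1 := by omega
      rw [e]
      show _ = P (shk γ k 0) (pull (shift (shk γ k)) (n - (k + 1)) uu)
      rw [shift_shk]
      rfl
    have h5 := h3.congr' h4
    have h6 := tendsto_nhds_unique h1 h5
    rw [h6]
    rfl
  · intro k
    refine ⟨U0.map (fun n => n - k), ?_, hν k⟩
    rw [Ultrafilter.coe_map]
    exact le_trans (Filter.map_mono hU0) (tendsto_sub_atTop_nat k)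

end Pool.Agent.Helper368.AP
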