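import Mathlib
import Pool.Agent.Helper368.B2

set_option autoImplicit false
set_option maxHeartbeats 4000000

open MeasureTheory Set Filter Topology ENNReal

namespace Pool.Agent.Helper368.AP

variable {γ : ℕ → ℝ}

/-- orthogonal polynomials (as functions) given by the three term recurrence -/
noncomputable def qv (γ : ℕ → ℝ) (k : ℕ) : ℕ → ℝ → ℝ
  | 0, _ => 1
  | 1, x => x
  | n + 2, x => x * qv γ k (n + 1) x - yy γ (n + 1) k * qv γ k n x

/-- squared norms -/
noncomputable def hh (γ : ℕ → ℝ) (k n : ℕ) : ℝ := ∏ i ∈ Finset.range n, yy γ (i + 1) k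

theorem hh_succ (k n : ℕ) : hh γ k (n + 1) = hh γ k n * yy γ (n + 1) k := by
  unfold hh; rw [Finset.prod_range_succ]

theorem hh_pos (hγ : Adm γ) (k n : ℕ) : 0 < hh γ k n :=
  Finset.prod_pos fun i _ => yy_pos hγ i k

theorem qv_rec (k n : ℕ) (x : ℝ) :
    x * qv γ k (n + 1) x = qv γ k (n + 2) x + yy γ (n + 1) k * qv γ k n x := by
  show _ = (x * qv γ k (n + 1) x - yy γ (n + 1) k * qv γ k n x) + _
  ring

theorem qv_even (hγ : Adm γ) (k n : ℕ) (x : ℝ) :
    qv γ k (2 * n) x = (2 * γ k) ^ n * qv γ (k + 1) n (ff (γ k) x) := by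
  induction n using Nat.strong_induction_on with
  | _ n ih =>
    have h0 := (hγ k).1
    have hf : 2 * γ k * ff (γ k) x = x ^ 2 - 1 + 2 * γ k := by
      unfold ff; field_simp
    rcases n with _ | _ | n
    · simp [qv]
    · show x * qv γ k 1 x - yy γ 1 k * qv γ k 0 x = _
      have h1 := yy_sum hγ 0 k
      rw [mul_zero, yy_zero, zero_add, zero_add] at h1
      rw [h1]
      simp only [qv]
      rw [zero_add, pow_one, hf]
      ring
    · have i1 := ih (n + 1) (by omega)
      have i0 := ih n (by omega)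
      have e1 : 2 * (n + 1 + 1) = 2 * n + 2 + 2 := by ring
      have e2 : 2 * (n + 1) = 2 * n + 2 := by ring
      rw [e2] at i1
      rw [e1]
      have r1 := qv_rec (γ := γ) k (2 * n + 2) x
      have r2 := qv_rec (γ := γ) k (2 * n + 1) x
      have r3 := qv_rec (γ := γ) k (2 * n) x
      have s1 := yy_sum hγ (n + 1) k
      have s2 := yy_prod hγ n k
      rw [e2] at s1
      have r4 : qv γ (k + 1) (n + 1 + 1) (ff (γ k) x) = ff (γ k) x * qv γ (k + 1) (n + 1) (ff (γ k) x)
        - yy γ (n + 1) (k + 1) * qv γ (k + 1) n (ff (γ k) x) := rfl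
      rw [r4]
      set A := qv γ (k + 1) (n + 1) (ff (γ k) x)
      set B := qv γ (k + 1) n (ff (γ k) x)
      have e3 : 2 * n + 2 + 1 = 2 * n + 3 := rfl
      have e4 : 2 * n + 1 + 1 = 2 * n + 2 := rfl
      have e5 : 2 * n + 1 + 2 = 2 * n + 3 := rfl
      have key : qv γ k (2 * n + 2 + 2) x = (x ^ 2 - (yy γ (2 * n + 2) k + yy γ (2 * n + 2 + 1) k)) * qv γ k (2 * n + 2) x
          - (yy γ (2 * n + 2) k * yy γ (2 * n + 1) k) * qv γ k (2 * n) x := by
        have r1' : qv γ k (2 * n + 2 + 2) x = x * qv γ k (2 * n + 2 + 1) x - yy γ (2 * n + 2 + 1) k * qv γ k (2 * n + 2) x := by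
          linarith
        have r2' : qv γ k (2 * n + 2 + 1) x = x * qv γ k (2 * n + 2) x - yy γ (2 * n + 2) k * qv γ k (2 * n + 1) x := by
          have : qv γ k (2 * n + 1 + 2) x = x * qv γ k (2 * n + 1 + 1) x - yy γ (2 * n + 1 + 1) k * qv γ k (2 * n + 1) x := by
            linarith
          exact this
        rw [r1', r2']
        have r3' : x * qv γ k (2 * n + 1) x = qv γ k (2 * n + 2) x + yy γ (2 * n + 1) k * qv γ k (2 * n) x := r3
        linear_combination (-(yy γ (2 * n + 2) k)) * r3'
      rw [key, s1, s2, i1, i0]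
      have e6 : (2 * γ k) ^ (n + 1 + 1) = (2 * γ k) ^ (n + 1) * (2 * γ k) := pow_succ _ _
      have e7 : (2 * γ k) ^ (n + 1) = (2 * γ k) ^ n * (2 * γ k) := pow_succ _ _
      rw [e6]
      have : x ^ 2 - (1 - 2 * γ k) = 2 * γ k * ff (γ k) x := by rw [hf]; ring
      rw [this, e7]
      ring

theorem qv_neg (k n : ℕ) (x : ℝ) : qv γ k n (-x) = (-1) ^ n * qv γ k n x := by
  induction n using Nat.strong_induction_on with
  | _ n ih =>
    rcases n with _ | _ | n
    · simp [qv]
    · simp [qv]
    · have i1 := ih (n + 1) (by omega)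
      have i0 := ih n (by omega)
      show (-x) * qv γ k (n + 1) (-x) - yy γ (n + 1) k * qv γ k n (-x) =
        (-1) ^ (n + 2) * (x * qv γ k (n + 1) x - yy γ (n + 1) k * qv γ k n x)
      rw [i1, i0, pow_succ, pow_succ]
      ring

theorem qv_continuous (k n : ℕ) : Continuous (qv γ k n) := by
  induction n using Nat.strong_induction_on with
  | _ n ih =>
    rcases n with _ | _ | n
    · exact continuous_const
    · exact continuous_id
    · have i1 := ih (n + 1) (by omega)
      have i0 := ih n (by omega)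
      exact (continuous_id.mul i1).sub (continuous_const.mul i0)

/-- self-similar family of measures -/
structure Fam (γ : ℕ → ℝ) (ν : ℕ → ProbabilityMeasure ℝ) : Prop where
  self : ∀ k, (ν k : Measure ℝ) = P (γ k) (ν (k + 1) : Measure ℝ)
  supp : ∀ k, ∀ᵐ x ∂(ν k : Measure ℝ), |x| ≤ 1

theorem integrable_of_cont {ν : ProbabilityMeasure ℝ} (h : ∀ᵐ x ∂(ν : Measure ℝ), |x| ≤ 1)
    {f : ℝ → ℝ} (hf : Continuous f) : Integrable f (ν : Measure ℝ) := by
  have h1 : IntegrableOn f (Icc (-1) 1) (ν : Measure ℝ) :=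
    hf.continuousOn.integrableOn_compact isCompact_Icc
  have h2 : (ν : Measure ℝ).restrict (Icc (-1) 1) = (ν : Measure ℝ) := by
    apply Measure.restrict_eq_self_of_ae_mem
    filter_upwards [h] with x hx
    exact abs_le.mp hx
  rw [IntegrableOn, h2] at h1
  exact h1

variable {ν : ℕ → ProbabilityMeasure ℝ}

theorem int_split (hF : Fam γ ν) (k : ℕ) {f : ℝ → ℝ} (hf : Continuous f) :
    ∫ x, f x ∂(ν k : Measure ℝ) = 1/2 * ((∫ w, f (br (γ k) w) ∂(ν (k+1) : Measure ℝ)) +
      ∫ w, f (- br (γ k) w) ∂(ν (k+1) : Measure ℝ)) := by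
  rw [hF.self k]
  apply integral_P (γ k) _ hf
  · exact integrable_of_cont (hF.supp (k+1)) (hf.comp (br_continuous _))
  · exact integrable_of_cont (hF.supp (k+1)) (hf.comp (br_continuous _).neg)

theorem int_comp (hγ : Adm γ) (hF : Fam γ ν) (k : ℕ) {f : ℝ → ℝ} (hf : Continuous f) :
    ∫ x, f (ff (γ k) x) ∂(ν k : Measure ℝ) = ∫ x, f x ∂(ν (k+1) : Measure ℝ) := by
  rw [int_split hF k (f := fun x => f (ff (γ k) x)) (hf.comp (ff_continuous _))]
  have h1 : ∫ w, f (ff (γ k) (br (γ k) w)) ∂(ν (k+1) : Measure ℝ) = ∫ x, f x ∂(ν (k+1) : Measure ℝ) := by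
    apply integral_congr_ae
    filter_upwards [hF.supp (k+1)] with w hw
    rw [ff_br (hγ k) hw]
  have h2 : ∫ w, f (ff (γ k) (-br (γ k) w)) ∂(ν (k+1) : Measure ℝ) = ∫ x, f x ∂(ν (k+1) : Measure ℝ) := by
    apply integral_congr_ae
    filter_upwards [hF.supp (k+1)] with w hw
    rw [ff_nbr (hγ k) hw]
  rw [h1, h2]
  ring

theorem int_odd (hF : Fam γ ν) (k : ℕ) {f : ℝ → ℝ} (hf : Continuous f) (ho : ∀ x, f (-x) = - f x) :
    ∫ x, f x ∂(ν k : Measure ℝ) = 0 := by
  rw [int_split hF k hf]
  have h2 : ∫ w, f (-br (γ k) w) ∂(ν (k+1) : Measure ℝ) = - ∫ w, f (br (γ k) w) ∂(ν (k+1) : Measure ℝ) := by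
    rw [← integral_neg]
    congr 1
    funext w
    exact ho _
  rw [h2]
  ring

theorem hh_even (hγ : Adm γ) (k n : ℕ) : hh γ k (2 * n) = (2 * γ k) ^ (2 * n) * hh γ (k + 1) n := by
  induction n with
  | zero => simp [hh]
  | succ n ih =>
    have e : 2 * (n + 1) = 2 * n + 1 + 1 := by ring
    rw [e, hh_succ, hh_succ, ih, hh_succ]
    have := yy_prod hγ n k
    have e2 : 2 * n + 1 + 1 = 2 * n + 2 := rfl
    rw [e2]
    have e3 : (2 * γ k) ^ (2 * n + 2) = (2 * γ k) ^ (2 * n) * (2 * γ k) ^ 2 := pow_add _ _ _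
    rw [e3]
    linear_combination ((2 * γ k) ^ (2 * n) * hh γ (k + 1) n) * this

theorem orth (hγ : Adm γ) (hF : Fam γ ν) (N : ℕ) : ∀ (k n m : ℕ), n + m = N →
    ∫ x, qv γ k n x * qv γ k m x ∂(ν k : Measure ℝ) = if n = m then hh γ k n else 0 := by
  induction N using Nat.strong_induction_on with
  | _ N ih =>
    have hee : ∀ (k a b : ℕ), 2 * a + 2 * b ≤ N →
        ∫ x, qv γ k (2 * a) x * qv γ k (2 * b) x ∂(ν k : Measure ℝ) = if a = b then hh γ k (2 * a) else 0 := by
      intro k a b hab
      by_cases h0 : a + b = 0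
      · obtain ⟨rfl, rfl⟩ : a = 0 ∧ b = 0 := by omega
        simp [qv, hh]
      · have h1 := ih (a + b) (by omega) (k + 1) a b rfl
        have h2 : (fun x => qv γ k (2 * a) x * qv γ k (2 * b) x) =
            fun x => (2 * γ k) ^ (a + b) * (qv γ (k+1) a (ff (γ k) x) * qv γ (k+1) b (ff (γ k) x)) := by
          funext x
          rw [qv_even hγ, qv_even hγ, pow_add]
          ring
        rw [h2, integral_const_mul]
        rw [int_comp hγ hF k (f := fun w => qv γ (k+1) a w * qv γ (k+1) b w)
          ((qv_continuous _ _).mul (qv_continuous _ _)), h1]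
        by_cases hab' : a = b
        · subst hab'
          rw [if_pos rfl, if_pos rfl, hh_even hγ, two_mul a]
        · rw [if_neg hab', if_neg hab', mul_zero]
    have hodd : ∀ (k n m : ℕ), (n + m) % 2 = 1 →
        ∫ x, qv γ k n x * qv γ k m x ∂(ν k : Measure ℝ) = 0 := by
      intro k n m hnm
      apply int_odd hF k (f := fun x => qv γ k n x * qv γ k m x) ((qv_continuous _ _).mul (qv_continuous _ _))
      intro x
      rw [qv_neg, qv_neg]
      have : ((-1:ℝ)) ^ n * (-1) ^ m = -1 := by
        rw [← pow_add]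
        exact Odd.neg_one_pow (Nat.odd_iff.mpr hnm)
      linear_combination (qv γ k n x * qv γ k m x) * this
    intro k n m hnm
    rcases Nat.even_or_odd' n with ⟨a, rfl | rfl⟩
    · rcases Nat.even_or_odd' m with ⟨b, rfl | rfl⟩
      · rw [hee k a b (by omega)]
        by_cases h : a = b
        · subst h; rw [if_pos rfl, if_pos rfl]
        · rw [if_neg h, if_neg (by omega)]
      · rw [hodd k _ _ (by omega), if_neg (by omega)]
    · rcases Nat.even_or_odd' m with ⟨b, rfl | rfl⟩
      · rw [hodd k _ _ (by omega), if_neg (by omega)]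
      · -- odd odd
        have A := hee k (a + 1) b (by omega)
        have B := hee k a b (by omega)
        have eA : 2 * (a + 1) = 2 * a + 2 := by ring
        rw [eA] at A
        have icA : Integrable (fun x => qv γ k (2 * a + 2) x * qv γ k (2 * b) x) (ν k : Measure ℝ) :=
          integrable_of_cont (hF.supp k) ((qv_continuous _ _).mul (qv_continuous _ _))
        have icB : Integrable (fun x => yy γ (2 * a + 1) k * (qv γ k (2 * a) x * qv γ k (2 * b) x)) (ν k : Measure ℝ) :=
          integrable_of_cont (hF.supp k) (continuous_const.mul ((qv_continuous _ _).mul (qv_continuous _ _)))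
        rcases b with _ | b
        · have e1 : (fun x => qv γ k (2 * a + 1) x * qv γ k (2 * 0 + 1) x) =
              fun x => qv γ k (2 * a + 2) x * qv γ k (2 * 0) x + yy γ (2 * a + 1) k * (qv γ k (2 * a) x * qv γ k (2 * 0) x) := by
            funext x
            have r := qv_rec (γ := γ) k (2 * a) x
            have q1 : qv γ k (2 * 0 + 1) x = x := rfl
            have q0 : qv γ k (2 * 0) x = 1 := rfl
            rw [q1, q0]
            linear_combination r
          rw [e1, integral_add icA icB, integral_const_mul, A, B]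
          by_cases h : a = 0
          · subst h
            rw [if_neg (by omega), if_pos rfl, if_pos rfl, hh_succ]
            ring
          · rw [if_neg (by omega), if_neg h, if_neg (by omega)]
            ring
        · have Cc := ih (2 * a + 1 + (2 * b + 1)) (by omega) k (2 * a + 1) (2 * b + 1) rfl
          have icC : Integrable (fun x => yy γ (2 * b + 1 + 1) k * (qv γ k (2 * a + 1) x * qv γ k (2 * b + 1) x)) (ν k : Measure ℝ) :=
            integrable_of_cont (hF.supp k) (continuous_const.mul ((qv_continuous _ _).mul (qv_continuous _ _)))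
          have e1 : (fun x => qv γ k (2 * a + 1) x * qv γ k (2 * (b + 1) + 1) x) =
              fun x => (qv γ k (2 * a + 2) x * qv γ k (2 * (b + 1)) x + yy γ (2 * a + 1) k * (qv γ k (2 * a) x * qv γ k (2 * (b + 1)) x))
                - yy γ (2 * b + 1 + 1) k * (qv γ k (2 * a + 1) x * qv γ k (2 * b + 1) x) := by
            funext x
            have r := qv_rec (γ := γ) k (2 * a) x
            have r' := qv_rec (γ := γ) k (2 * b + 1) x
            have e2 : 2 * (b + 1) + 1 = 2 * b + 1 + 2 := by ring
            have e3 : 2 * (b + 1) = 2 * b + 1 + 1 := by ring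
            rw [e2, e3]
            linear_combination (qv γ k (2 * b + 1 + 1) x) * r - (qv γ k (2 * a + 1) x) * r'
          have icAB : Integrable (fun x => qv γ k (2 * a + 2) x * qv γ k (2 * (b + 1)) x + yy γ (2 * a + 1) k * (qv γ k (2 * a) x * qv γ k (2 * (b + 1)) x)) (ν k : Measure ℝ) := icA.add icB
          rw [e1, integral_sub icAB icC, integral_add icA icB, integral_const_mul, integral_const_mul, A, B, Cc]
          by_cases h1 : a = b + 1
          · subst h1
            rw [if_neg (by omega), if_pos rfl, if_neg (by omega), if_pos rfl, hh_succ]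
            ring
          · by_cases h2 : a = b
            · subst h2
              rw [if_pos rfl, if_neg (by omega), if_pos rfl, if_neg (by omega)]
              have e4 : 2 * a + 2 = 2 * a + 1 + 1 := rfl
              rw [e4, hh_succ k (2 * a + 1)]
              ring
            · rw [if_neg (by omega), if_neg h1, if_neg (by omega), if_neg (by omega)]
              ring

theorem int_x (hγ : Adm γ) (hF : Fam γ ν) (k n : ℕ) :
    ∫ x, x * (qv γ k n x * qv γ k (n + 1) x) ∂(ν k : Measure ℝ) = hh γ k (n + 1) := by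
  rcases n with _ | n
  · have e : (fun x => x * (qv γ k 0 x * qv γ k (0 + 1) x)) = fun x => qv γ k 1 x * qv γ k 1 x := by
      funext x
      simp only [qv]
      ring
    rw [e, orth hγ hF _ k 1 1 rfl, if_pos rfl]
  · have e : (fun x => x * (qv γ k (n + 1) x * qv γ k (n + 1 + 1) x)) =
        fun x => qv γ k (n + 2) x * qv γ k (n + 2) x + yy γ (n + 1) k * (qv γ k n x * qv γ k (n + 2) x) := by
      funext x
      have r := qv_rec (γ := γ) k n x
      linear_combination (qv γ k (n + 2) x) * r
    rw [e, integral_add, integral_const_mul, orth hγ hF _ k (n+2) (n+2) rfl, orth hγ hF _ k n (n+2) rfl,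
      if_pos rfl, if_neg (by omega)]
    · ring
    · exact integrable_of_cont (hF.supp k) ((qv_continuous _ _).mul (qv_continuous _ _))
    · exact integrable_of_cont (hF.supp k) (continuous_const.mul ((qv_continuous _ _).mul (qv_continuous _ _)))

end Pool.Agent.Helper368.AP
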