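import Pool.Agent.Helper368.M3

set_option autoImplicit false

open Polynomial Finset Filter Topology

namespace Pool.Agent.Helper368.BC
namespace Sys

variable {σ : Sys}


/-! ### reg_lo -/
section reg_lo_sec

theorem reg_lo (σ : Sys) : ∃ c : ℝ, 0 < c ∧ ∀ z ∈ σ.Z, z ≠ σ.A → z ≠ σ.B → c ≤ σ.dl z := by
  have hfin := Z_fin (σ := σ) 1
  classical
  set F : Finset ℝ := hfin.toFinset.filter (fun z => z ≠ σ.A ∧ z ≠ σ.B) with hF
  have hmem : ∀ z, z ∈ F ↔ (z ∈ σ.Z ∧ σ.dl z ≤ 1) ∧ (z ≠ σ.A ∧ z ≠ σ.B) := by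
    intro z
    rw [hF, Finset.mem_filter, Set.Finite.mem_toFinset]
    rfl
  by_cases hne : F.Nonempty
  · obtain ⟨w, hw, hmin⟩ := Finset.exists_min_image F (fun z => σ.dl z) hne
    have hw' := (hmem w).1 hw
    refine ⟨min 1 (σ.dl w), lt_min one_pos (dl_pos (X_Z hw'.1.1) hw'.2.1 hw'.2.2), ?_⟩
    intro z hz h1 h2
    by_cases h : σ.dl z ≤ 1
    · exact (min_le_right _ _).trans (hmin z ((hmem z).2 ⟨⟨hz, h⟩, h1, h2⟩))
    · exact (min_le_left _ _).trans (not_le.1 h).le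
  · refine ⟨1, one_pos, ?_⟩
    intro z hz h1 h2
    by_contra h
    exact hne ⟨z, (hmem z).2 ⟨⟨hz, (not_le.1 h).le⟩, h1, h2⟩⟩

end reg_lo_sec

/-! ### child_om -/
section child_om_sec

/-- order of magnitude of the children -/
theorem child_om (σ : Sys) {x : ℝ} (hx : σ.X x) (i : ℕ) (hi : i < σ.d) : ∃ c K : ℝ, 0 < c ∧ 0 < K ∧ ∀ n : ℕ,
    (∀ T ⊆ insert x σ.C, i + 1 ≤ T.card → ∀ t : ℝ, 0 ≤ t → (∀ s ∈ T, t ≤ σ.u n (σ.f s)) →
      c * t ≤ σ.u (σ.d * n + i) x * σ.gg n i) ∧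
    (∀ T ⊆ insert x σ.C, T.card ≤ i → ∀ t : ℝ, 0 ≤ t → (∀ s ∈ insert x σ.C, s ∉ T → σ.u n (σ.f s) ≤ t) →
      σ.u (σ.d * n + i) x * σ.gg n i ≤ K * t) := by
  classical
  obtain ⟨c1, hc1, h1⟩ := os_low (insert x σ.C) i
  obtain ⟨c2, hc2, h2⟩ := os_up (insert x σ.C) i
  set w : ℝ → ℝ := fun s => if s = x then σ.al / |(nod σ.C).eval x|
    else σ.al / |(nod (σ.C.erase s)).eval s| / |x - s| with hw
  have hXs : ∀ s ∈ insert x σ.C, σ.X (σ.f s) := by
    intro s hs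
    rcases Finset.mem_insert.mp hs with rfl | hs
    · exact X_f hx
    · exact X_crit hs
  have hkap : ∀ n : ℕ, ∀ s ∈ insert x σ.C, σ.kap n x s = w s * σ.u n (σ.f s) := by
    intro n s hs
    rcases Finset.mem_insert.mp hs with rfl | hsC
    · rw [kap_self]
      simp [hw]
    · have hne : s ≠ x := by
        rintro rfl
        exact not_mem_C hx hsC
      rw [kap_crit n hx hsC]
      simp only [hw, if_neg hne, Sys.om]
      ring
  have hwpos : ∀ s ∈ insert x σ.C, 0 < w s := by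
    intro s hs
    rcases Finset.mem_insert.mp hs with rfl | hsC
    · simp only [hw, if_true]
      exact gm_pos hx
    · have hne : s ≠ x := by
        rintro rfl
        exact not_mem_C hx hsC
      simp only [hw, if_neg hne]
      exact div_pos (wt_pos s) (abs_sub_pos hx hsC)
  have hne : (insert x σ.C).Nonempty := ⟨x, Finset.mem_insert_self _ _⟩
  obtain ⟨sa, hsa, hmin⟩ := Finset.exists_min_image (insert x σ.C) w hne
  obtain ⟨sb, hsb, hmax⟩ := Finset.exists_max_image (insert x σ.C) w hne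
  have ha := hwpos sa hsa
  have hb := hwpos sb hsb
  refine ⟨c1 * w sa, c2 * w sb, mul_pos hc1 ha, mul_pos hc2 hb, ?_⟩
  intro n
  have hnn : ∀ s ∈ insert x σ.C, 0 ≤ σ.kap n x s := fun s hs => (kap_pos n hx s hs).le
  rw [renorm n hi hx]
  constructor
  · intro T hT hTc t ht hTt
    have := h1 (σ.kap n x) hnn (w sa * t) (mul_nonneg ha.le ht) T hT hTc (by
      intro s hs
      rw [hkap n s (hT hs)]
      exact mul_le_mul (hmin s (hT hs)) (hTt s hs) ht (hwpos s (hT hs)).le)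
    calc c1 * w sa * t = c1 * (w sa * t) := by ring
      _ ≤ _ := this
  · intro T hT hTc t ht hTt
    have := h2 (σ.kap n x) hnn (w sb * t) (mul_nonneg hb.le ht) T hT hTc (by
      intro s hs hsT
      rw [hkap n s hs]
      exact mul_le_mul (hmax s hs) (hTt s hs hsT) (u_pos' n (hXs s hs)).le hb.le)
    calc _ ≤ c2 * (w sb * t) := this
      _ = c2 * w sb * t := by ring

end child_om_sec

/-! ### gg_om -/
section gg_om_sec

/-- order of magnitude of the normalising constants -/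
theorem gg_om (σ : Sys) (i : ℕ) : ∃ c K : ℝ, 0 < c ∧ 0 < K ∧ ∀ n : ℕ,
    (∀ T ⊆ σ.C, i + 1 ≤ T.card → ∀ t : ℝ, 0 ≤ t → (∀ s ∈ T, t ≤ σ.u n (σ.f s)) → c * t ≤ σ.gg n (i + 1)) ∧
    (∀ T ⊆ σ.C, T.card ≤ i → ∀ t : ℝ, 0 ≤ t → (∀ s ∈ σ.C, s ∉ T → σ.u n (σ.f s) ≤ t) →
      σ.gg n (i + 1) ≤ K * t) := by
  obtain ⟨c0, hc0, hlow⟩ := os_low σ.C i
  obtain ⟨K0, hK0, hup⟩ := os_up σ.C i
  obtain ⟨a, ha, hal⟩ : ∃ a : ℝ, 0 < a ∧
      ∀ c ∈ σ.C, a ≤ σ.al / |(nod (σ.C.erase c)).eval c| := by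
    rcases σ.C.eq_empty_or_nonempty with h | h
    · exact ⟨1, one_pos, fun c hc => by rw [h] at hc; exact absurd hc (Finset.notMem_empty c)⟩
    · obtain ⟨m, _, hm⟩ := σ.C.exists_min_image
        (fun c => σ.al / |(nod (σ.C.erase c)).eval c|) h
      exact ⟨_, wt_pos m, hm⟩
  obtain ⟨b, hb, hbu⟩ : ∃ b : ℝ, 0 < b ∧
      ∀ c ∈ σ.C, σ.al / |(nod (σ.C.erase c)).eval c| ≤ b := by
    rcases σ.C.eq_empty_or_nonempty with h | h
    · exact ⟨1, one_pos, fun c hc => by rw [h] at hc; exact absurd hc (Finset.notMem_empty c)⟩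
    · obtain ⟨m, _, hm⟩ := σ.C.exists_max_image
        (fun c => σ.al / |(nod (σ.C.erase c)).eval c|) h
      exact ⟨_, wt_pos m, hm⟩
  have hgg : ∀ n, σ.gg n (i + 1) = hh σ.C (σ.om n) i := fun n => rfl
  have hom : ∀ n c, σ.om n c = σ.al / |(nod (σ.C.erase c)).eval c| * σ.u n (σ.f c) :=
    fun n c => rfl
  refine ⟨c0 * a, K0 * b, mul_pos hc0 ha, mul_pos hK0 hb, fun n => ⟨?_, ?_⟩⟩
  · intro T hT hcard t ht hts
    rw [hgg, mul_assoc]
    apply hlow (σ.om n) (fun s hs => (om_pos n hs).le) (a * t) (mul_nonneg ha.le ht) T hT hcard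
    intro s hs
    rw [hom]
    exact mul_le_mul (hal s (hT hs)) (hts s hs) ht (wt_pos s).le
  · intro T hT hcard t ht hts
    rw [hgg, mul_assoc]
    apply hup (σ.om n) (fun s hs => (om_pos n hs).le) (b * t) (mul_nonneg hb.le ht) T hT hcard
    intro s hs hsT
    rw [hom]
    exact mul_le_mul (hbu s hs) (hts s hs hsT) (u_pos' n (X_crit hs)).le hb.le

end gg_om_sec

/-! ### top_sel -/
section top_sel_sec

theorem top_sel (S : Finset ℝ) (φ : ℝ → ℝ) (i : ℕ) (hi : i < S.card) :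
    ∃ T ⊆ S, T.card = i ∧ ∃ s ∈ S, s ∉ T ∧ (∀ a ∈ T, φ s ≤ φ a) ∧ ∀ a ∈ S, a ∉ T → φ a ≤ φ s := by
  induction i generalizing S with
  | zero =>
    obtain ⟨s, hs, hmax⟩ := Finset.exists_max_image S φ (Finset.card_pos.1 hi)
    exact ⟨∅, Finset.empty_subset _, rfl, s, hs, Finset.notMem_empty _, fun a ha => absurd ha (Finset.notMem_empty _),
      fun a ha _ => hmax a ha⟩
  | succ i ih =>
    obtain ⟨m, hm, hmax⟩ := Finset.exists_max_image S φ (Finset.card_pos.1 (by omega))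
    have hc : (S.erase m).card = S.card - 1 := Finset.card_erase_of_mem hm
    obtain ⟨T, hT, hTc, s, hs, hsT, h1, h2⟩ := ih (S.erase m) (by omega)
    have hmT : m ∉ T := fun h => (Finset.mem_erase.1 (hT h)).1 rfl
    have hsm : s ≠ m := (Finset.mem_erase.1 hs).1
    have hsS : s ∈ S := (Finset.mem_erase.1 hs).2
    refine ⟨insert m T, ?_, ?_, s, hsS, ?_, ?_, ?_⟩
    · intro a ha
      rcases Finset.mem_insert.1 ha with rfl | ha
      · exact hm
      · exact (Finset.mem_erase.1 (hT ha)).2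
    · rw [Finset.card_insert_of_notMem hmT, hTc]
    · intro h
      rcases Finset.mem_insert.1 h with h | h
      · exact hsm h
      · exact hsT h
    · intro a ha
      rcases Finset.mem_insert.1 ha with rfl | ha
      · exact hmax s hsS
      · exact h1 a ha
    · intro a ha haT
      have h3 : a ≠ m := fun h => haT (h ▸ Finset.mem_insert_self _ _)
      exact h2 a (Finset.mem_erase.2 ⟨h3, ha⟩) (fun h => haT (Finset.mem_insert_of_mem h))

end top_sel_sec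

/-! ### cmpC -/
section cmpC_sec

theorem cmp_child (σ : Sys) {x y : ℝ} (hx : σ.X x) (hy : σ.X y) (hf : σ.f x = σ.f y)
    (i : ℕ) (hi : i < σ.d) : ∃ K : ℝ, 0 < K ∧ ∀ n : ℕ,
    σ.u (σ.d * n + i) x ≤ K * σ.u (σ.d * n + i) y := by
  obtain ⟨c1, K1, hc1, hK1, h1⟩ := child_om σ hx i hi
  obtain ⟨c2, K2, hc2, hK2, h2⟩ := child_om σ hy i hi
  refine ⟨K1 / c2, div_pos hK1 hc2, fun n => ?_⟩
  have hcard : i < (insert x σ.C).card := by rw [card_ins hx]; exact hi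
  obtain ⟨T, hTS, hTc, s, hsS, hsT, hlo, hup⟩ :=
    top_sel (insert x σ.C) (fun t => σ.u n (σ.f t)) i hcard
  have hXf : ∀ a ∈ insert x σ.C, σ.X (σ.f a) := by
    intro a ha
    rcases Finset.mem_insert.1 ha with rfl | ha
    · exact X_f hx
    · exact X_crit ha
  have ht : 0 ≤ σ.u n (σ.f s) := (u_pos' n (hXf s hsS)).le
  have hU := (h1 n).2 T hTS hTc.le (σ.u n (σ.f s)) ht hup
  have hxC := not_mem_C hx
  have hyC := not_mem_C hy
  let g : ℝ → ℝ := fun a => if a = x then y else a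
  have hgf : ∀ a, σ.f (g a) = σ.f a := by
    intro a
    by_cases h : a = x
    · simp only [g, if_pos h]; rw [h, hf]
    · simp only [g, if_neg h]
  have hgm : ∀ a ∈ insert x σ.C, g a ∈ insert y σ.C := by
    intro a ha
    by_cases h : a = x
    · simp only [g, if_pos h]; exact Finset.mem_insert_self _ _
    · simp only [g, if_neg h]
      exact Finset.mem_insert_of_mem ((Finset.mem_insert.1 ha).resolve_left h)
  have hinj : Set.InjOn g (insert x σ.C : Finset ℝ) := by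
    intro a ha b hb hab
    have ha' := Finset.mem_insert.1 (Finset.mem_coe.1 ha)
    have hb' := Finset.mem_insert.1 (Finset.mem_coe.1 hb)
    by_cases h : a = x
    · by_cases h' : b = x
      · rw [h, h']
      · simp only [g, if_pos h, if_neg h'] at hab
        exact absurd (hab ▸ (hb'.resolve_left h')) hyC
    · by_cases h' : b = x
      · simp only [g, if_neg h, if_pos h'] at hab
        exact absurd (hab ▸ (ha'.resolve_left h)) hyC
      · simpa only [g, if_neg h, if_neg h'] using hab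
  have hsub : insert s T ⊆ insert x σ.C := Finset.insert_subset hsS hTS
  have hT'sub : (insert s T).image g ⊆ insert y σ.C := by
    intro b hb
    obtain ⟨a, ha, rfl⟩ := Finset.mem_image.1 hb
    exact hgm a (hsub ha)
  have hT'card : ((insert s T).image g).card = i + 1 := by
    rw [Finset.card_image_of_injOn (hinj.mono (by exact_mod_cast hsub)),
      Finset.card_insert_of_notMem hsT, hTc]
  have hL := (h2 n).1 ((insert s T).image g) hT'sub hT'card.ge (σ.u n (σ.f s)) ht (by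
    intro b hb
    obtain ⟨a, ha, rfl⟩ := Finset.mem_image.1 hb
    rw [hgf a]
    rcases Finset.mem_insert.1 ha with rfl | ha
    · exact le_rfl
    · exact hlo a ha)
  have hg := gg_pos (σ := σ) n hi
  have h3 : σ.u (σ.d * n + i) x * σ.gg n i ≤ (K1 / c2 * σ.u (σ.d * n + i) y) * σ.gg n i := by
    calc σ.u (σ.d * n + i) x * σ.gg n i ≤ K1 * σ.u n (σ.f s) := hU
      _ = K1 / c2 * (c2 * σ.u n (σ.f s)) := by field_simp
      _ ≤ K1 / c2 * (σ.u (σ.d * n + i) y * σ.gg n i) :=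
          mul_le_mul_of_nonneg_left hL (div_pos hK1 hc2).le
      _ = _ := by ring
  exact le_of_mul_le_mul_right h3 hg

theorem cmp_one (σ : Sys) {x y : ℝ} (hx : σ.X x) (hy : σ.X y) (hf : σ.f x = σ.f y) :
    ∃ K : ℝ, 0 < K ∧ ∀ n : ℕ, σ.u n x ≤ K * σ.u n y := by
  have h : ∀ i : ℕ, ∃ K : ℝ, 0 < K ∧ (i < σ.d → ∀ n : ℕ,
      σ.u (σ.d * n + i) x ≤ K * σ.u (σ.d * n + i) y) := by
    intro i
    by_cases hi : i < σ.d
    · obtain ⟨K, hK, h⟩ := cmp_child σ hx hy hf i hi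
      exact ⟨K, hK, fun _ => h⟩
    · exact ⟨1, one_pos, fun h => absurd h hi⟩
  choose K hK h using h
  refine ⟨∑ i ∈ Finset.range σ.d, K i, ?_, fun n => ?_⟩
  · refine Finset.sum_pos (fun i _ => hK i) ⟨0, Finset.mem_range.2 ?_⟩
    have := σ.hd
    omega
  · have hd : 0 < σ.d := by
      have := σ.hd
      omega
    have h1 := h (n % σ.d) (Nat.mod_lt _ hd) (n / σ.d)
    rw [Nat.div_add_mod] at h1
    refine h1.trans (mul_le_mul_of_nonneg_right ?_ (u_pos' n hy).le)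
    exact Finset.single_le_sum (f := K) (fun i _ => (hK i).le) (Finset.mem_range.2 (Nat.mod_lt _ hd))

/-- both end points have the same image -/
theorem cmpC (σ : Sys) (hf : σ.f σ.A = σ.f σ.B) : ∃ K : ℝ, 0 < K ∧ ∀ n : ℕ,
    σ.u n σ.A ≤ K * σ.u n σ.B ∧ σ.u n σ.B ≤ K * σ.u n σ.A := by
  obtain ⟨K1, hK1, h1⟩ := cmp_one σ X_A X_B hf
  obtain ⟨K2, hK2, h2⟩ := cmp_one σ X_B X_A hf.symm
  refine ⟨max K1 K2, lt_max_of_lt_left hK1, fun n => ⟨?_, ?_⟩⟩
  · exact (h1 n).trans (mul_le_mul_of_nonneg_right (le_max_left _ _) (u_pos' n X_B).le)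
  · exact (h2 n).trans (mul_le_mul_of_nonneg_right (le_max_right _ _) (u_pos' n X_A).le)

end cmpC_sec

section cmpA17

theorem A_notin17 : σ.A ∉ σ.C := fun h => lt_irrefl _ (σ.hCA _ h)

theorem B_notin17 : σ.B ∉ σ.C := fun h => lt_irrefl _ (σ.hCB _ h)

/-- critical points whose values are not end points -/
noncomputable def SS17 (σ : Sys) : Finset ℝ := σ.C.filter (fun s => σ.f s ≠ σ.A ∧ σ.f s ≠ σ.B)

theorem SS17_sub : σ.SS17 ⊆ σ.C := filter_subset _ _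

theorem lowS17 (σ : Sys) : ∃ c1 : ℝ, 0 < c1 ∧ ∀ n, ∀ s ∈ σ.SS17, c1 ≤ σ.u n (σ.f s) := by
  obtain ⟨c, hc, h⟩ := reg_lo σ
  refine ⟨c, hc, fun n s hs => ?_⟩
  rw [SS17, mem_filter] at hs
  exact (h _ (crit_Z hs.1) hs.2.1 hs.2.2).trans (u_lo' n (X_crit hs.1))

theorem upC17 (σ : Sys) : ∃ K1 : ℝ, 0 < K1 ∧ ∀ n, ∀ s ∈ σ.C, σ.u n (σ.f s) ≤ K1 := by
  have h0 : ∀ s ∈ σ.C, 0 ≤ σ.dl (σ.f s) := fun s hs => dl_nonneg (X_crit hs)
  refine ⟨(σ.B - σ.A) + ∑ s ∈ σ.C, σ.dl (σ.f s), ?_, fun n s hs => ?_⟩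
  · have := w_pos (σ := σ)
    have := sum_nonneg h0
    linarith
  · have h1 := u_hi' n (X_crit hs)
    have h2 := single_le_sum h0 hs
    linarith

theorem gg_bd17 (σ : Sys) (i : ℕ) : ∃ G : ℝ, 0 < G ∧ ∀ n, σ.gg n i ≤ G := by
  cases i with
  | zero => exact ⟨1, one_pos, fun n => le_of_eq rfl⟩
  | succ i =>
    obtain ⟨c, K, hc, hK, h⟩ := gg_om σ i
    obtain ⟨K1, hK1, h1⟩ := upC17 σ
    refine ⟨K * K1, mul_pos hK hK1, fun n => ?_⟩
    exact (h n).2 ∅ (empty_subset _) (by simp) K1 hK1.le fun s hs _ => h1 n s hs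

theorem y_le17 (n : ℕ) {e : ℝ} (he : e = σ.A ∨ e = σ.B) : σ.u n e ≤ σ.B - σ.A := by
  rcases he with rfl | rfl
  · have := u_hi' n (X_A (σ := σ))
    rw [dl_A] at this
    linarith
  · have := u_hi' n (X_B (σ := σ))
    rw [dl_B] at this
    linarith

theorem X_e17 {e : ℝ} (he : e = σ.A ∨ e = σ.B) : σ.X e := by
  rcases he with rfl | rfl
  · exact X_A
  · exact X_B

theorem e_notin17 {e : ℝ} (he : e = σ.A ∨ e = σ.B) : e ∉ σ.C := by
  rcases he with rfl | rfl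
  · exact A_notin17
  · exact B_notin17

/-- case `i < k` -/
theorem case_lt17 (σ : Sys) {i : ℕ} (hi : i < σ.d) (hk : i < σ.SS17.card) :
    ∃ c : ℝ, 0 < c ∧ ∀ n, c ≤ σ.u (σ.d * n + i) σ.A := by
  obtain ⟨G, hG, hg⟩ := gg_bd17 σ i
  obtain ⟨c1, hc1, h1⟩ := lowS17 σ
  obtain ⟨c, K, hc, hK, h⟩ := child_om σ (X_A (σ := σ)) i hi
  refine ⟨c * c1 / G, div_pos (mul_pos hc hc1) hG, fun n => ?_⟩
  have h2 := (h n).1 σ.SS17 (SS17_sub.trans (subset_insert _ _)) hk c1 hc1.le (h1 n)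
  have h3 : 0 < σ.u (σ.d * n + i) σ.A := u_pos' _ X_A
  rw [div_le_iff₀ hG]
  exact h2.trans (mul_le_mul_of_nonneg_left (hg n) h3.le)

/-- comparison constant -/
theorem c2_17 (σ : Sys) {c1 : ℝ} (hc1 : 0 < c1) : ∃ c2 : ℝ, 0 < c2 ∧ c2 ≤ 1 ∧
    ∀ y : ℝ, 0 ≤ y → y ≤ σ.B - σ.A → c2 * y ≤ c1 := by
  have hw := w_pos (σ := σ)
  refine ⟨min (c1 / (σ.B - σ.A)) 1, lt_min (div_pos hc1 hw) one_pos, min_le_right _ _, ?_⟩
  intro y hy0 hy
  calc min (c1 / (σ.B - σ.A)) 1 * y ≤ c1 / (σ.B - σ.A) * y :=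
        mul_le_mul_of_nonneg_right (min_le_left _ _) hy0
    _ ≤ c1 / (σ.B - σ.A) * (σ.B - σ.A) := mul_le_mul_of_nonneg_left hy (div_pos hc1 hw).le
    _ = c1 := div_mul_cancel₀ _ hw.ne'

/-- case `i = k` -/
theorem case_eq17 (σ : Sys) (hA : σ.f σ.A = σ.A) (hB : σ.f σ.B = σ.B)
    (tA : ∃ c ∈ σ.C, σ.f c = σ.A) (tB : ∃ c ∈ σ.C, σ.f c = σ.B) {e e' : ℝ}
    (he : e = σ.A ∨ e = σ.B) (he' : e' = σ.A ∨ e' = σ.B) (hk : σ.SS17.card < σ.d) :
    ∃ K : ℝ, 0 < K ∧ ∀ n, σ.u (σ.d * n + σ.SS17.card) e ≤ K * σ.u (σ.d * n + σ.SS17.card) e' := by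
  obtain ⟨c1, hc1, h1⟩ := lowS17 σ
  obtain ⟨c2, hc2, hc21, h2⟩ := c2_17 σ hc1
  obtain ⟨c, K, hc, hK, h⟩ := child_om σ (X_e17 he) σ.SS17.card hk
  obtain ⟨c', K', hc', hK', h'⟩ := child_om σ (X_e17 he') σ.SS17.card hk
  refine ⟨K / (c' * c2), div_pos hK (mul_pos hc' hc2), fun n => ?_⟩
  set y1 : ℝ := max (σ.u n σ.A) (σ.u n σ.B) with hy1
  have hy1pos : 0 < y1 := lt_of_lt_of_le (u_pos' n X_A) (le_max_left _ _)
  have hy1w : y1 ≤ σ.B - σ.A := max_le (y_le17 n (Or.inl rfl)) (y_le17 n (Or.inr rfl))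
  have hgg := gg_pos n hk
  -- upper bound
  have up : σ.u (σ.d * n + σ.SS17.card) e * σ.gg n σ.SS17.card ≤ K * y1 := by
    refine (h n).2 σ.SS17 (SS17_sub.trans (subset_insert _ _)) le_rfl y1 hy1pos.le ?_
    intro s hs hsS
    have hfs : σ.f s = σ.A ∨ σ.f s = σ.B := by
      rcases mem_insert.1 hs with rfl | hs
      · rcases he with rfl | rfl
        · exact Or.inl hA
        · exact Or.inr hB
      · by_contra hcon
        rw [not_or] at hcon
        exact hsS (mem_filter.2 ⟨hs, hcon⟩)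
    rcases hfs with h3 | h3
    · rw [h3]; exact le_max_left _ _
    · rw [h3]; exact le_max_right _ _
  -- lower bound
  have low : c' * (c2 * y1) ≤ σ.u (σ.d * n + σ.SS17.card) e' * σ.gg n σ.SS17.card := by
    obtain ⟨s', hs', hfs'⟩ : ∃ s' ∈ σ.C, (σ.f s' = σ.A ∨ σ.f s' = σ.B) ∧ σ.u n (σ.f s') = y1 := by
      rcases max_choice (σ.u n σ.A) (σ.u n σ.B) with h3 | h3
      · obtain ⟨s', hs', h4⟩ := tA
        exact ⟨s', hs', Or.inl h4, by rw [h4, hy1, h3]⟩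
      · obtain ⟨s', hs', h4⟩ := tB
        exact ⟨s', hs', Or.inr h4, by rw [h4, hy1, h3]⟩
    have hnot : s' ∉ σ.SS17 := by
      intro h3
      rw [SS17, mem_filter] at h3
      rcases hfs'.1 with h4 | h4
      · exact h3.2.1 h4
      · exact h3.2.2 h4
    refine (h' n).1 (insert s' σ.SS17) ?_ ?_ (c2 * y1) (by positivity) ?_
    · intro s hs
      rcases mem_insert.1 hs with rfl | hs
      · exact mem_insert_of_mem hs'
      · exact mem_insert_of_mem (SS17_sub hs)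
    · rw [card_insert_of_notMem hnot]
    · intro s hs
      rcases mem_insert.1 hs with rfl | hs
      · rw [hfs'.2]
        nlinarith
      · exact (h2 y1 hy1pos.le hy1w).trans (h1 n s hs)
  rw [div_mul_eq_mul_div, le_div_iff₀ (mul_pos hc' hc2)]
  have h5 : (σ.u (σ.d * n + σ.SS17.card) e * (c' * c2)) * σ.gg n σ.SS17.card ≤
      (K * σ.u (σ.d * n + σ.SS17.card) e') * σ.gg n σ.SS17.card := by
    calc (σ.u (σ.d * n + σ.SS17.card) e * (c' * c2)) * σ.gg n σ.SS17.card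
        = (σ.u (σ.d * n + σ.SS17.card) e * σ.gg n σ.SS17.card) * (c' * c2) := by ring
      _ ≤ (K * y1) * (c' * c2) := mul_le_mul_of_nonneg_right up (mul_pos hc' hc2).le
      _ = K * (c' * (c2 * y1)) := by ring
      _ ≤ K * (σ.u (σ.d * n + σ.SS17.card) e' * σ.gg n σ.SS17.card) :=
          mul_le_mul_of_nonneg_left low hK.le
      _ = _ := by ring
  exact le_of_mul_le_mul_right h5 hgg

/-- case `k < i` -/
theorem case_gt17 (σ : Sys) {e e' : ℝ}
    (he : (e = σ.A ∧ e' = σ.B) ∨ (e = σ.B ∧ e' = σ.A)) (hfe : σ.f e = e)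
    {i : ℕ} (hi : i < σ.d) (hk : σ.SS17.card < i) :
    ∃ c : ℝ, 0 < c ∧ ∀ n, σ.u n e' ≤ σ.u n e → c ≤ σ.u (σ.d * n + i) e := by
  classical
  have he1 : e = σ.A ∨ e = σ.B := he.imp And.left And.left
  have he2 : e' = σ.A ∨ e' = σ.B := by
    rcases he with h | h
    · exact Or.inr h.2
    · exact Or.inl h.2
  obtain ⟨i', rfl⟩ : ∃ i', i = i' + 1 := ⟨i - 1, by omega⟩
  obtain ⟨c1, hc1, h1⟩ := lowS17 σ
  obtain ⟨c2, hc2, hc21, h2⟩ := c2_17 σ hc1
  obtain ⟨c, K, hc, hK, h⟩ := child_om σ (X_e17 he1) (i' + 1) hi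
  obtain ⟨cg, Kg, hcg, hKg, hg⟩ := gg_om σ i'
  set TE : Finset ℝ := σ.C.filter (fun s => σ.f s = e) with hTE
  have hdisj : Disjoint σ.SS17 TE := by
    rw [Finset.disjoint_left]
    intro s hs hs'
    rw [SS17, mem_filter] at hs
    rw [hTE, mem_filter] at hs'
    rcases he1 with h3 | h3
    · exact hs.2.1 (hs'.2.trans h3)
    · exact hs.2.2 (hs'.2.trans h3)
  have hval : ∀ s ∈ σ.C, s ∉ σ.SS17 → σ.f s = e ∨ σ.f s = e' := by
    intro s hs hsS
    have h3 : σ.f s = σ.A ∨ σ.f s = σ.B := by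
      by_contra hcon
      rw [not_or] at hcon
      exact hsS (mem_filter.2 ⟨hs, hcon⟩)
    rcases he with ⟨h4, h5⟩ | ⟨h4, h5⟩
    · rw [h4, h5]; exact h3
    · rw [h4, h5]; exact h3.symm
  refine ⟨c * c2 / Kg, div_pos (mul_pos hc hc2) hKg, fun n hn => ?_⟩
  have hye : 0 < σ.u n e := u_pos' n (X_e17 he1)
  have hye' : 0 < σ.u n e' := u_pos' n (X_e17 he2)
  have hyw : σ.u n e ≤ σ.B - σ.A := y_le17 n he1
  have hyw' : σ.u n e' ≤ σ.B - σ.A := y_le17 n he2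
  have hu : 0 < σ.u (σ.d * n + (i' + 1)) e := u_pos' _ (X_e17 he1)
  -- final step
  have fin : ∀ y : ℝ, 0 < y → σ.gg n (i' + 1) ≤ Kg * y →
      c * (c2 * y) ≤ σ.u (σ.d * n + (i' + 1)) e * σ.gg n (i' + 1) →
      c * c2 / Kg ≤ σ.u (σ.d * n + (i' + 1)) e := by
    intro y hy h3 h4
    rw [div_le_iff₀ hKg]
    have h5 : (c * c2) * y ≤ (σ.u (σ.d * n + (i' + 1)) e * Kg) * y := by
      calc (c * c2) * y = c * (c2 * y) := by ring
        _ ≤ σ.u (σ.d * n + (i' + 1)) e * σ.gg n (i' + 1) := h4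
        _ ≤ σ.u (σ.d * n + (i' + 1)) e * (Kg * y) := mul_le_mul_of_nonneg_left h3 hu.le
        _ = _ := by ring
    exact le_of_mul_le_mul_right h5 hy
  by_cases hcase : i' + 1 ≤ σ.SS17.card + TE.card
  · refine fin (σ.u n e) hye ?_ ?_
    · refine (hg n).2 σ.SS17 SS17_sub (by omega) _ hye.le ?_
      intro s hs hsS
      rcases hval s hs hsS with h3 | h3
      · rw [h3]
      · rw [h3]; exact hn
    · refine (h n).1 (insert e (σ.SS17 ∪ TE)) ?_ ?_ _ (by positivity) ?_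
      · refine insert_subset_insert _ (union_subset SS17_sub (filter_subset _ _))
      · rw [card_insert_of_notMem, card_union_of_disjoint hdisj]
        · omega
        · intro h3
          exact e_notin17 he1 ((union_subset SS17_sub (filter_subset _ _)) h3)
      · intro s hs
        rcases mem_insert.1 hs with rfl | hs
        · rw [hfe]; nlinarith
        · rcases mem_union.1 hs with hs | hs
          · exact (h2 _ hye.le hyw).trans (h1 n s hs)
          · rw [hTE, mem_filter] at hs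
            rw [hs.2]; nlinarith
  · refine fin (σ.u n e') hye' ?_ ?_
    · refine (hg n).2 (σ.SS17 ∪ TE) (union_subset SS17_sub (filter_subset _ _))
        (by rw [card_union_of_disjoint hdisj]; omega) _ hye'.le ?_
      intro s hs hsS
      rw [mem_union, not_or] at hsS
      rcases hval s hs hsS.1 with h3 | h3
      · exact absurd (mem_filter.2 ⟨hs, h3⟩) hsS.2
      · rw [h3]
    · refine (h n).1 (insert e σ.C) (Finset.Subset.refl _) ?_ _ (by positivity) ?_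
      · rw [card_insert_of_notMem (e_notin17 he1)]
        have := σ.hC
        omega
      · intro s hs
        rcases mem_insert.1 hs with rfl | hs
        · rw [hfe]; nlinarith
        · by_cases hsS : s ∈ σ.SS17
          · exact (h2 _ hye'.le hyw').trans (h1 n s hsS)
          · rcases hval s hs hsS with h3 | h3
            · rw [h3]; nlinarith
            · rw [h3]; nlinarith

theorem unif_lo17 (d : ℕ) (c : ℕ → ℝ) (hc : ∀ i, 0 < c i) : ∃ c0 : ℝ, 0 < c0 ∧ ∀ i < d, c0 ≤ c i := by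
  induction d with
  | zero => exact ⟨1, one_pos, fun i hi => absurd hi (Nat.not_lt_zero _)⟩
  | succ d ih =>
    obtain ⟨c0, h0, h⟩ := ih
    refine ⟨min c0 (c d), lt_min h0 (hc d), fun i hi => ?_⟩
    rcases Nat.lt_succ_iff_lt_or_eq.1 hi with h1 | rfl
    · exact (min_le_left _ _).trans (h i h1)
    · exact min_le_right _ _

end cmpA17


/-- both end points fixed -/
theorem cmpA (σ : Sys) (hA : σ.f σ.A = σ.A) (hB : σ.f σ.B = σ.B) (zA : σ.A ∈ σ.Z) (zB : σ.B ∈ σ.Z) :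
    ∃ c K : ℝ, 0 < c ∧ 0 < K ∧ ∀ n i : ℕ, i < σ.d →
      (i ≠ (σ.C.filter (fun s => σ.f s ≠ σ.A ∧ σ.f s ≠ σ.B)).card →
        c ≤ σ.u (σ.d * n + i) σ.A ∨ c ≤ σ.u (σ.d * n + i) σ.B) ∧
      (i = (σ.C.filter (fun s => σ.f s ≠ σ.A ∧ σ.f s ≠ σ.B)).card →
        σ.u (σ.d * n + i) σ.A ≤ K * σ.u (σ.d * n + i) σ.B ∧
        σ.u (σ.d * n + i) σ.B ≤ K * σ.u (σ.d * n + i) σ.A) := by
  have hAB := σ.hAB
  have tA : ∃ c ∈ σ.C, σ.f c = σ.A := by
    rcases end_Z zA (Or.inl rfl) with h | ⟨c, hc, h1 | h1, h2⟩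
    · exact h
    · exact ⟨c, hc, h1⟩
    · rw [h1, hB] at h2
      exact absurd h2 hAB.ne'
  have tB : ∃ c ∈ σ.C, σ.f c = σ.B := by
    rcases end_Z zB (Or.inr rfl) with h | ⟨c, hc, h1 | h1, h2⟩
    · exact h
    · rw [h1, hA] at h2
      exact absurd h2 hAB.ne
    · exact ⟨c, hc, h1⟩
  have hkd : σ.SS17.card < σ.d := by
    have h1 := card_le_card (SS17_sub (σ := σ))
    have h2 := σ.hC
    omega
  obtain ⟨K1, hK1, h1⟩ := case_eq17 σ hA hB tA tB (Or.inl rfl) (Or.inr rfl) hkd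
  obtain ⟨K2, hK2, h2⟩ := case_eq17 σ hA hB tA tB (Or.inr rfl) (Or.inl rfl) hkd
  have h3 : ∀ i : ℕ, ∃ c : ℝ, 0 < c ∧ (i < σ.d → i ≠ σ.SS17.card → ∀ n,
      c ≤ σ.u (σ.d * n + i) σ.A ∨ c ≤ σ.u (σ.d * n + i) σ.B) := by
    intro i
    by_cases hi : i < σ.d
    · rcases lt_trichotomy i σ.SS17.card with h | h | h
      · obtain ⟨c, hc, h4⟩ := case_lt17 σ hi h
        exact ⟨c, hc, fun _ _ n => Or.inl (h4 n)⟩
      · exact ⟨1, one_pos, fun _ h' => absurd h h'⟩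
      · obtain ⟨c, hc, h4⟩ := case_gt17 σ (Or.inl ⟨rfl, rfl⟩) hA hi h
        obtain ⟨c', hc', h4'⟩ := case_gt17 σ (Or.inr ⟨rfl, rfl⟩) hB hi h
        refine ⟨min c c', lt_min hc hc', fun _ _ n => ?_⟩
        rcases le_total (σ.u n σ.B) (σ.u n σ.A) with h5 | h5
        · exact Or.inl ((min_le_left _ _).trans (h4 n h5))
        · exact Or.inr ((min_le_right _ _).trans (h4' n h5))
    · exact ⟨1, one_pos, fun h' => absurd h' hi⟩
  choose cc hcc hcc' using h3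
  obtain ⟨c0, hc0, h0⟩ := unif_lo17 σ.d cc hcc
  refine ⟨c0, max K1 K2, hc0, lt_of_lt_of_le hK1 (le_max_left _ _), fun n i hi => ⟨fun hne => ?_, fun heq => ?_⟩⟩
  · rcases hcc' i hi hne n with h | h
    · exact Or.inl ((h0 i hi).trans h)
    · exact Or.inr ((h0 i hi).trans h)
  · have heq' : i = σ.SS17.card := heq
    rw [heq']
    have p1 : 0 < σ.u (σ.d * n + σ.SS17.card) σ.A := u_pos' _ X_A
    have p2 : 0 < σ.u (σ.d * n + σ.SS17.card) σ.B := u_pos' _ X_B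
    exact ⟨(h1 n).trans (mul_le_mul_of_nonneg_right (le_max_left _ _) p2.le),
      (h2 n).trans (mul_le_mul_of_nonneg_right (le_max_right _ _) p1.le)⟩


/-! ### light_cmp -/
section light_cmp_sec

/-- light end points are comparable -/
theorem light_cmp (σ : Sys) : ∃ K : ℝ, 0 < K ∧ ∀ (U : Ultrafilter ℕ) (n : ℕ → ℕ), ∀ e ∈ σ.Z, ∀ e' ∈ σ.Z,
    σ.Li U n e → σ.Li U n e' → ∀ᶠ k in (U : Filter ℕ), σ.u (n k) e ≤ K * σ.u (n k) e' := by
  have key : ∃ K : ℝ, 0 < K ∧ ∀ (U : Ultrafilter ℕ) (n : ℕ → ℕ), σ.A ∈ σ.Z → σ.B ∈ σ.Z →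
      σ.Li U n σ.A → σ.Li U n σ.B → ∀ᶠ k in (U : Filter ℕ),
        σ.u (n k) σ.A ≤ K * σ.u (n k) σ.B ∧ σ.u (n k) σ.B ≤ K * σ.u (n k) σ.A := by
    by_cases h1 : σ.f σ.A = σ.f σ.B
    · obtain ⟨K, hK, hK'⟩ := cmpC σ h1
      exact ⟨K, hK, fun U n _ _ _ _ => Eventually.of_forall (fun k => hK' (n k))⟩
    · have h2 : σ.f σ.A = σ.A ∧ σ.f σ.B = σ.B := by
        rcases σ.fA with ha | ha <;> rcases σ.fB with hb | hb
        · exact absurd (ha.trans hb.symm) h1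
        · exact ⟨ha, hb⟩
        · exfalso
          have h3 := σ.idA
          rw [ha, hb] at h3
          exact absurd h3 σ.hAB.ne
        · exact absurd (ha.trans hb.symm) h1
      by_cases h3 : σ.A ∈ σ.Z ∧ σ.B ∈ σ.Z
      · obtain ⟨c, K, hc, hK, hcK⟩ := cmpA σ h2.1 h2.2 h3.1 h3.2
        refine ⟨K, hK, ?_⟩
        intro U n _ _ lA lB
        have eA : ∀ᶠ k in (U : Filter ℕ), σ.u (n k) σ.A < c := lA.eventually_lt_const hc
        have eB : ∀ᶠ k in (U : Filter ℕ), σ.u (n k) σ.B < c := lB.eventually_lt_const hc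
        filter_upwards [eA, eB] with k kA kB
        have hd : 0 < σ.d := lt_of_lt_of_le (by norm_num) σ.hd
        have h4 := hcK (n k / σ.d) (n k % σ.d) (Nat.mod_lt _ hd)
        rw [Nat.div_add_mod] at h4
        apply h4.2
        by_contra h5
        rcases h4.1 h5 with h6 | h6
        · exact absurd kA (not_lt.2 h6)
        · exact absurd kB (not_lt.2 h6)
      · refine ⟨1, one_pos, ?_⟩
        intro U n zA zB
        exact absurd ⟨zA, zB⟩ h3
  obtain ⟨K, hK, hk⟩ := key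
  refine ⟨max 1 K, lt_of_lt_of_le one_pos (le_max_left _ _), ?_⟩
  intro U n e he e' he' hl hl'
  have pA : ∀ k, 0 < σ.u (n k) σ.A := fun k => u_pos' (n k) X_A
  have pB : ∀ k, 0 < σ.u (n k) σ.B := fun k => u_pos' (n k) X_B
  rcases li_end he hl with rfl | rfl
  · rcases li_end he' hl' with rfl | rfl
    · refine Eventually.of_forall (fun k => ?_)
      have := pA k
      nlinarith [le_max_left 1 K]
    · filter_upwards [hk U n he he' hl hl'] with k h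
      exact h.1.trans (mul_le_mul_of_nonneg_right (le_max_right _ _) (pB k).le)
  · rcases li_end he' hl' with rfl | rfl
    · filter_upwards [hk U n he' he hl' hl] with k h
      exact h.2.trans (mul_le_mul_of_nonneg_right (le_max_right _ _) (pA k).le)
    · refine Eventually.of_forall (fun k => ?_)
      have := pB k
      nlinarith [le_max_left 1 K]

end light_cmp_sec

/-! ### no_light -/
section no_light_sec

/-- digits larger than the number of heavy critical points create no light end point -/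
theorem no_light {U : Ultrafilter ℕ} {n : ℕ → ℕ} {V : ℝ → ℝ} (h : LimF σ U n V) {i : ℕ} (hid : i < σ.d)
    (hi : (σ.TV V).card < i) {x : ℝ} (hx : x ∈ σ.Z) : ¬ σ.Li U (fun k => σ.d * n k + i) x := by
  intro hli
  have hXx : σ.X x := X_Z hx
  obtain ⟨i', rfl⟩ : ∃ i', i = i' + 1 := ⟨i - 1, by omega⟩
  have hTV : σ.TV V ⊆ σ.C := filter_subset _ _
  have hCc := σ.hC
  obtain ⟨c1, hc1, hc1'⟩ : ∃ c1 ∈ σ.C, c1 ∉ σ.TV V := by
    apply exists_mem_notMem_of_card_lt_card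
    omega
  have hzero : ∀ s ∈ σ.C, s ∉ σ.TV V → V (σ.f s) = 0 := by
    intro s hs hs'
    by_contra hne
    exact hs' (mem_filter.2 ⟨hs, hne⟩)
  have hV1 : V (σ.f c1) = 0 := hzero c1 hc1 hc1'
  have hz0 : σ.f c1 ∈ σ.Z := crit_Z hc1
  have hli0 : σ.Li U n (σ.f c1) := (h.li_iff hz0).2 hV1
  obtain ⟨K0, hK0, hcmp⟩ := light_cmp σ
  obtain ⟨K1, hK1, hK01⟩ : ∃ K1 : ℝ, 1 ≤ K1 ∧ K0 ≤ K1 := ⟨max K0 1, le_max_right _ _, le_max_left _ _⟩
  have hK1pos : 0 < K1 := lt_of_lt_of_le one_pos hK1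
  have tpos : ∀ k, 0 < σ.u (n k) (σ.f c1) := fun k => u_pos' (n k) (X_Z hz0)
  -- lower bounds
  have ha : ∀ᶠ k in (U : Filter ℕ), ∀ s ∈ insert x σ.C,
      σ.u (n k) (σ.f c1) ≤ K1 * σ.u (n k) (σ.f s) := by
    rw [Finset.eventually_all]
    intro s hs
    have hsZ : σ.f s ∈ σ.Z := f_Z' hx hs
    by_cases hV : V (σ.f s) = 0
    · have hls : σ.Li U n (σ.f s) := (h.li_iff hsZ).2 hV
      filter_upwards [hcmp U n _ hz0 _ hsZ hli0 hls] with k hk
      refine hk.trans ?_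
      exact mul_le_mul_of_nonneg_right hK01 (u_pos' (n k) (X_Z hsZ)).le
    · have hVp : 0 < V (σ.f s) := h.pos_of hsZ hV
      have hlt : ∀ᶠ k in (U : Filter ℕ), σ.u (n k) (σ.f c1) < σ.u (n k) (σ.f s) :=
        Tendsto.eventually_lt hli0 (h.lim _ hsZ) hVp
      filter_upwards [hlt] with k hk
      have hp := (u_pos' (n k) (X_Z hsZ) : 0 < σ.u (n k) (σ.f s))
      nlinarith
  -- upper bounds
  have hb : ∀ᶠ k in (U : Filter ℕ), ∀ s ∈ σ.C, s ∉ σ.TV V →
      σ.u (n k) (σ.f s) ≤ K1 * σ.u (n k) (σ.f c1) := by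
    rw [Finset.eventually_all]
    intro s hs
    by_cases hs' : s ∈ σ.TV V
    · exact Eventually.of_forall fun k hk => absurd hs' hk
    · have hsZ : σ.f s ∈ σ.Z := crit_Z hs
      have hls : σ.Li U n (σ.f s) := (h.li_iff hsZ).2 (hzero s hs hs')
      filter_upwards [hcmp U n _ hsZ _ hz0 hls hli0] with k hk _
      refine hk.trans ?_
      exact mul_le_mul_of_nonneg_right hK01 (tpos k).le
  obtain ⟨c, K, hc, hK, hchild⟩ := child_om σ hXx (i' + 1) hid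
  obtain ⟨c', K', hc', hK', hgg⟩ := gg_om σ i'
  have hcpos : 0 < c / (K1 * (K' * K1)) := by positivity
  have hlow : ∀ᶠ k in (U : Filter ℕ), c / (K1 * (K' * K1)) ≤ σ.u (σ.d * n k + (i' + 1)) x := by
    filter_upwards [ha, hb] with k hak hbk
    have h1 := (hchild (n k)).1 (insert x σ.C) (Subset.refl _) (by rw [card_ins hXx]; omega)
      (σ.u (n k) (σ.f c1) / K1) (div_nonneg (tpos k).le hK1pos.le)
      (fun s hs => by
        rw [div_le_iff₀ hK1pos, mul_comm]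
        exact hak s hs)
    have h2 := (hgg (n k)).2 (σ.TV V) hTV (by omega) (K1 * σ.u (n k) (σ.f c1))
      (mul_nonneg hK1pos.le (tpos k).le) hbk
    have h3 : 0 < σ.u (σ.d * n k + (i' + 1)) x := u_pos' _ hXx
    have h4 : c * (σ.u (n k) (σ.f c1) / K1) ≤
        σ.u (σ.d * n k + (i' + 1)) x * (K' * (K1 * σ.u (n k) (σ.f c1))) :=
      h1.trans (mul_le_mul_of_nonneg_left h2 h3.le)
    have ht := tpos k
    rw [div_le_iff₀ (by positivity)]
    have h5 : c * (σ.u (n k) (σ.f c1) / K1) * K1 ≤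
        σ.u (σ.d * n k + (i' + 1)) x * (K' * (K1 * σ.u (n k) (σ.f c1))) * K1 :=
      mul_le_mul_of_nonneg_right h4 hK1pos.le
    have h6 : c * (σ.u (n k) (σ.f c1) / K1) * K1 = c * σ.u (n k) (σ.f c1) := by
      field_simp
    rw [h6] at h5
    have h7 : c * σ.u (n k) (σ.f c1) ≤
        (σ.u (σ.d * n k + (i' + 1)) x * (K1 * (K' * K1))) * σ.u (n k) (σ.f c1) := by
      calc c * σ.u (n k) (σ.f c1) ≤ _ := h5
        _ = _ := by ring
    exact le_of_mul_le_mul_right h7 ht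
  have hlt : ∀ᶠ k in (U : Filter ℕ), σ.u (σ.d * n k + (i' + 1)) x < c / (K1 * (K' * K1)) :=
    (tendsto_order.1 hli).2 _ hcpos
  obtain ⟨k, hk1, hk2⟩ := (hlow.and hlt).exists
  exact absurd hk1 (not_le.2 hk2)

end no_light_sec

/-! ### transfer -/
section transfer_sec

theorem transfer {U : Ultrafilter ℕ} {n : ℕ → ℕ} {V : ℝ → ℝ} (h : LimF σ U n V) {i : ℕ} (hid : i < σ.d)
    {x : ℝ} (hx : x ∈ σ.Z) :
    σ.Li U (fun k => σ.d * n k + i) x ↔ i = (σ.TV V).card ∧ V (σ.f x) = 0 := by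
  by_cases hi : i ≤ (σ.TV V).card
  · exact slb h hid hi hx
  · rw [not_le] at hi
    constructor
    · intro hL
      exact absurd hL (no_light h hid hi hx)
    · rintro ⟨h1, _⟩
      omega

end transfer_sec

/-! ### zs -/
section zs_sec

theorem TV_eq_of_light {U : Ultrafilter ℕ} {n m : ℕ → ℕ} {V W : ℝ → ℝ} (hV : LimF σ U n V)
    (hW : LimF σ U m W) (h : ∀ x ∈ σ.Z, (σ.Li U n x ↔ σ.Li U m x)) : σ.TV V = σ.TV W := by
  unfold TV
  refine Finset.filter_congr ?_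
  intro c hc
  have hz := crit_Z (σ := σ) hc
  rw [not_iff_not, ← hV.li_iff hz, ← hW.li_iff hz]
  exact h _ hz

theorem zs_star (U : Ultrafilter ℕ) (N : ℕ → ℕ) : ∃ (V1 : ℝ → ℝ) (i : ℕ), LimF σ U (fun k => N k / σ.d) V1 ∧
    i < σ.d ∧ (∀ᶠ k in (U : Filter ℕ), N k % σ.d = i) ∧
    ∀ x ∈ σ.Z, (σ.Li U N x ↔ i = (σ.TV V1).card ∧ V1 (σ.f x) = 0) := by
  obtain ⟨V1, hV1⟩ := exists_limF (σ := σ) U (fun k => N k / σ.d)
  obtain ⟨i, hi, hdig⟩ := udigit U (dpos (σ := σ)) N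
  refine ⟨V1, i, hV1, hi, hdig, ?_⟩
  intro x hx
  rw [← transfer hV1 hi hx]
  unfold Li
  refine Filter.tendsto_congr' ?_
  filter_upwards [hdig] with k hk
  have : σ.d * (N k / σ.d) + i = N k := by rw [← hk]; exact Nat.div_add_mod _ _
  show σ.u (N k) x = σ.u (σ.d * (N k / σ.d) + i) x
  rw [this]

theorem zs_step {U : Ultrafilter ℕ} {N : ℕ → ℕ} {x0 : ℝ} (hx0 : x0 ∈ σ.Z) (h0 : σ.Li U N x0) :
    (∀ x ∈ σ.Z, (σ.Li U (fun k => N k / σ.d) x ↔ σ.Li U N x)) ∧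
    ∀ V, LimF σ U N V → ∀ᶠ k in (U : Filter ℕ), N k % σ.d = (σ.TV V).card := by
  obtain ⟨V1, i, hV1, hi, hdig, hst⟩ := zs_star (σ := σ) U N
  have hiV := ((hst x0 hx0).1 h0).1
  have hN : ∀ x ∈ σ.Z, (σ.Li U N x ↔ σ.Li U (fun k => N k / σ.d) (σ.f x)) := by
    intro x hx
    rw [hst x hx, hV1.li_iff (f_Z hx)]
    exact ⟨fun h => h.2, fun h => ⟨hiV, h⟩⟩
  have h1 : σ.Li U (fun k => N k / σ.d) (σ.f x0) := (hN x0 hx0).1 h0
  obtain ⟨V2, i2, hV2, hi2, hdig2, hst2⟩ := zs_star (σ := σ) U (fun k => N k / σ.d)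
  have hiV2 := ((hst2 _ (f_Z hx0)).1 h1).1
  have hM : ∀ x ∈ σ.Z, (σ.Li U (fun k => N k / σ.d) x ↔
      σ.Li U (fun k => N k / σ.d / σ.d) (σ.f x)) := by
    intro x hx
    rw [hst2 x hx, hV2.li_iff (f_Z hx)]
    exact ⟨fun h => h.2, fun h => ⟨hiV2, h⟩⟩
  have hmain : ∀ x ∈ σ.Z, (σ.Li U (fun k => N k / σ.d) x ↔ σ.Li U N x) := by
    intro x hx
    by_cases hend : x = σ.A ∨ x = σ.B
    · have hff : σ.f (σ.f x) = σ.f x := by
        rcases hend with rfl | rfl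
        · exact σ.idA
        · exact σ.idB
      rw [hN x hx, hM _ (f_Z hx), hff, hM x hx]
    · constructor
      · intro h; exact absurd (li_end hx h) hend
      · intro h; exact absurd (li_end hx h) hend
  refine ⟨hmain, ?_⟩
  intro V hV
  have hTV : σ.TV V = σ.TV V1 := TV_eq_of_light hV hV1 (fun x hx => (hmain x hx).symm)
  rw [hTV, ← hiV]
  exact hdig

/-- the set of light points is constant along the parents, and all digits are equal -/
theorem zs {U : Ultrafilter ℕ} {n : ℕ → ℕ} {x0 : ℝ} (hx0 : x0 ∈ σ.Z) (h0 : σ.Li U n x0) :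
    ∀ j : ℕ, (∃ V, LimF σ U n V ∧ ∀ᶠ k in (U : Filter ℕ), (n k / σ.d ^ j) % σ.d = (σ.TV V).card) ∧
      ∀ x ∈ σ.Z, (σ.Li U (fun k => n k / σ.d ^ j) x ↔ σ.Li U n x) := by
  have hP : ∀ j : ℕ, ∀ x ∈ σ.Z, (σ.Li U (fun k => n k / σ.d ^ j) x ↔ σ.Li U n x) := by
    intro j
    induction j with
    | zero => intro x _; simp only [pow_zero, Nat.div_one]
    | succ j ih =>
      intro x hx
      have hl : σ.Li U (fun k => n k / σ.d ^ j) x0 := (ih x0 hx0).2 h0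
      have := (zs_step hx0 hl).1 x hx
      rw [← ih x hx, ← this]
      have he : (fun k => n k / σ.d ^ (j + 1)) = (fun k => n k / σ.d ^ j / σ.d) := by
        funext k
        rw [Nat.div_div_eq_div_mul, pow_succ]
      rw [he]
  intro j
  refine ⟨?_, hP j⟩
  obtain ⟨V, hV⟩ := exists_limF (σ := σ) U n
  refine ⟨V, hV, ?_⟩
  obtain ⟨W, hW⟩ := exists_limF (σ := σ) U (fun k => n k / σ.d ^ j)
  have hl : σ.Li U (fun k => n k / σ.d ^ j) x0 := (hP j x0 hx0).2 h0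
  have h2 := (zs_step hx0 hl).2 W hW
  have hTV : σ.TV W = σ.TV V := TV_eq_of_light hW hV (hP j)
  rw [← hTV]
  exact h2

end zs_sec

/-! ### digit_change -/
section digit_change_sec

theorem digit_change (σ : Sys) : ∃ c : ℝ, 0 < c ∧ ∀ m s : ℕ, s < σ.d → m % σ.d ≠ s → σ.Good c (σ.d * m + s) := by
  by_contra hcon
  push Not at hcon
  have hex : ∀ k : ℕ, ∃ (m s : ℕ) (z : ℝ), s < σ.d ∧ m % σ.d ≠ s ∧ z ∈ σ.Z ∧
      σ.u (σ.d * m + s) z < 1 / ((k : ℝ) + 1) := by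
    intro k
    obtain ⟨m, s, hs, hm, hg⟩ := hcon (1 / ((k : ℝ) + 1)) (by positivity)
    unfold Good at hg
    push Not at hg
    obtain ⟨z, hz, hlt⟩ := hg
    exact ⟨m, s, z, hs, hm, hz, hlt⟩
  choose m s z hs hm hz hlt using hex
  set U : Ultrafilter ℕ := Filter.hyperfilter ℕ with hU
  have hUtop : (U : Filter ℕ) ≤ atTop := by
    rw [← Nat.cofinite_eq_atTop]
    exact Filter.hyperfilter_le_cofinite
  obtain ⟨c0, hc0, hreg⟩ := reg_lo σ
  have hsmall : Tendsto (fun k : ℕ => 1 / ((k : ℝ) + 1)) atTop (𝓝 0) :=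
    tendsto_one_div_add_atTop_nhds_zero_nat
  have hev : ∀ᶠ k in (U : Filter ℕ), z k = σ.A ∨ z k = σ.B := by
    have h1 : ∀ᶠ k : ℕ in atTop, 1 / ((k : ℝ) + 1) < c0 := hsmall.eventually_lt_const hc0
    filter_upwards [hUtop h1] with k hk
    by_contra hne
    push Not at hne
    have h2 := hreg (z k) (hz k) hne.1 hne.2
    have h3 := u_lo' (σ := σ) (σ.d * m k + s k) (X_Z (hz k))
    have h4 := hlt k
    linarith
  obtain ⟨e, he⟩ : ∃ e, ∀ᶠ k in (U : Filter ℕ), z k = e := by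
    rcases Ultrafilter.eventually_or.1 hev with h | h
    · exact ⟨_, h⟩
    · exact ⟨_, h⟩
  have heZ : e ∈ σ.Z := by
    obtain ⟨k, hk⟩ := he.exists
    rw [← hk]; exact hz k
  set n : ℕ → ℕ := fun k => σ.d * m k + s k with hn
  have hLi : σ.Li U n e := by
    unfold Li
    refine squeeze_zero' (g := fun k : ℕ => 1 / ((k : ℝ) + 1)) ?_ ?_ (hsmall.mono_left hUtop)
    · exact Eventually.of_forall fun k => (u_pos' (n k) (X_Z heZ)).le
    · filter_upwards [he] with k hk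
      have := hlt k
      rw [hk] at this
      exact this.le
  obtain ⟨V, hV, h0⟩ := (zs heZ hLi 0).1
  obtain ⟨V', hV', h1⟩ := (zs heZ hLi 1).1
  have hVV : ∀ x ∈ σ.Z, V x = V' x := fun x hx => tendsto_nhds_unique (hV.lim x hx) (hV'.lim x hx)
  have hTV : σ.TV V = σ.TV V' := by
    unfold TV
    apply Finset.filter_congr
    intro c hc
    rw [hVV _ (crit_Z hc)]
  rw [hTV] at h0
  have hd : 0 < σ.d := dpos
  obtain ⟨k, hk0, hk1⟩ := (h0.and h1).exists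
  have e0 : n k / σ.d ^ 0 % σ.d = s k := by
    rw [pow_zero, Nat.div_one, hn]
    simp only
    rw [Nat.mul_add_mod, Nat.mod_eq_of_lt (hs k)]
  have e1 : n k / σ.d ^ 1 % σ.d = m k % σ.d := by
    rw [pow_one, hn]
    simp only
    rw [Nat.mul_add_div hd, Nat.div_eq_of_lt (hs k), add_zero]
  rw [e0] at hk0
  rw [e1] at hk1
  exact hm k (hk1.trans hk0.symm)

end digit_change_sec

/-- reference runs -/
def rn (σ : Sys) (s m : ℕ) : ℕ → ℕ
  | 0 => m
  | r + 1 => σ.d * rn σ s m r + s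

/-- degenerate digits -/
def Deg (σ : Sys) (s : ℕ) : Prop := ∀ c : ℝ, 0 < c → ∀ᶠ r in atTop, ¬ σ.Good c (σ.rn s 0 r)

/-! ### calka -/
section calka_sec

theorem calka_iter (σ : Sys) {s : ℕ} (hs : s < σ.d) (a b : ℕ) : ∀ k : ℕ,
    σ.Th (σ.rn s 0 (a + k)) (σ.rn s 0 (b + k)) ≤ σ.Th (σ.rn s 0 a) (σ.rn s 0 b)
  | 0 => le_rfl
  | k + 1 => by
    have h := σ.calka_iter hs a b k
    have e1 : σ.rn s 0 (a + (k + 1)) = σ.d * σ.rn s 0 (a + k) + s := rfl
    have e2 : σ.rn s 0 (b + (k + 1)) = σ.d * σ.rn s 0 (b + k) + s := rfl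
    rw [e1, e2]
    exact (Th_step _ _ hs).trans h

theorem calka_gap (σ : Sys) {s : ℕ} (hs : s < σ.d) (a : ℕ) : ∀ q : ℕ,
    σ.Th (σ.rn s 0 (a + q)) (σ.rn s 0 a) ≤ (σ.Th (σ.rn s 0 1) (σ.rn s 0 0)) ^ q
  | 0 => by
    rw [pow_zero, Nat.add_zero]
    unfold Th
    rw [Sp_self]; norm_num
  | q + 1 => by
    have h := σ.calka_gap hs a q
    have h1 := calka_iter σ hs 1 0 (a + q)
    rw [show 1 + (a + q) = a + (q + 1) by ring, show 0 + (a + q) = a + q by ring] at h1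
    calc σ.Th (σ.rn s 0 (a + (q + 1))) (σ.rn s 0 a)
        ≤ σ.Th (σ.rn s 0 (a + (q + 1))) (σ.rn s 0 (a + q)) *
            σ.Th (σ.rn s 0 (a + q)) (σ.rn s 0 a) := Th_tri _ _ _
      _ ≤ σ.Th (σ.rn s 0 1) (σ.rn s 0 0) * (σ.Th (σ.rn s 0 1) (σ.rn s 0 0)) ^ q :=
          mul_le_mul h1 h (Th_pos _ _).le (Th_pos _ _).le
      _ = _ := by rw [pow_succ]; ring

theorem calka_good0 (σ : Sys) : ∃ c0 : ℝ, 0 < c0 ∧ σ.Good c0 0 := by
  obtain ⟨c, hc, h⟩ := σ.reg_lo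
  have hA := u_pos' (σ := σ) 0 X_A
  have hB := u_pos' (σ := σ) 0 X_B
  refine ⟨min c (min (σ.u 0 σ.A) (σ.u 0 σ.B)), lt_min hc (lt_min hA hB), fun z hz => ?_⟩
  by_cases h1 : z = σ.A
  · rw [h1]; exact (min_le_right _ _).trans (min_le_left _ _)
  by_cases h2 : z = σ.B
  · rw [h2]; exact (min_le_right _ _).trans (min_le_right _ _)
  exact (min_le_left _ _).trans ((h z hz h1 h2).trans (u_lo' 0 (X_Z hz)))

theorem calka (σ : Sys) {s : ℕ} (hs : s < σ.d) : (∃ c : ℝ, 0 < c ∧ ∀ r, σ.Good c (σ.rn s 0 r)) ∨ σ.Deg s := by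
  classical
  by_cases hdeg : σ.Deg s
  · exact Or.inr hdeg
  left
  unfold Deg at hdeg
  push Not at hdeg
  obtain ⟨c, hc, hfreq0⟩ := hdeg
  have hfreq : ∀ a : ℕ, ∃ r, a < r ∧ σ.Good c (σ.rn s 0 r) := by
    intro a
    by_contra hcon
    push Not at hcon
    apply hfreq0
    rw [eventually_atTop]
    exact ⟨a + 1, fun r hr => hcon r (by omega)⟩
  obtain ⟨c0, hc0, hg0⟩ := σ.calka_good0
  have hw := w_pos (σ := σ)
  obtain ⟨x, hx⟩ : ∃ x : ℕ → ℕ, x = fun r => σ.rn s 0 r := ⟨_, rfl⟩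
  have hxr : ∀ r, σ.rn s 0 r = x r := fun r => by rw [hx]
  obtain ⟨c1, hc1⟩ : ∃ c1, c1 = min c c0 := ⟨_, rfl⟩
  have hc1pos : 0 < c1 := by rw [hc1]; exact lt_min hc hc0
  have hmonoG : ∀ {n : ℕ} {a b : ℝ}, a ≤ b → σ.Good b n → σ.Good a n :=
    fun hab hg z hz => hab.trans (hg z hz)
  obtain ⟨R0, hR0⟩ : ∃ R0, R0 = (1 + (σ.B - σ.A) / c1) ^ 2 := ⟨_, rfl⟩
  have hR01 : 1 ≤ R0 := by
    rw [hR0]
    apply one_le_pow₀
    have : 0 < (σ.B - σ.A) / c1 := div_pos hw hc1pos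
    linarith
  have hgoodTh : ∀ n, σ.Good c n → σ.Th n 0 ≤ R0 := by
    intro n hn
    rw [hR0]
    exact Th_good hc1pos (hmonoG (by rw [hc1]; exact min_le_left _ _) hn)
      (hmonoG (by rw [hc1]; exact min_le_right _ _) hg0)
  obtain ⟨Bs, hBs⟩ : ∃ Bs : Set ℕ, Bs = {r | σ.Th (x r) 0 ≤ 2 * R0} := ⟨_, rfl⟩
  have hx0 : x 0 = 0 := by rw [hx]; rfl
  have h0B : 0 ∈ Bs := by
    rw [hBs]
    show σ.Th (x 0) 0 ≤ 2 * R0
    rw [hx0]
    unfold Th
    rw [Sp_self]; linarith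
  -- lower bound on Bs
  obtain ⟨δ, hδ⟩ : ∃ δ, δ = c0 / (2 * R0) := ⟨_, rfl⟩
  have hδpos : 0 < δ := by rw [hδ]; positivity
  have hlow : ∀ r ∈ Bs, ∀ z ∈ σ.Z, δ ≤ σ.u (x r) z := by
    intro r hr z hz
    rw [hBs] at hr
    have h1 : σ.Sp (x r) 0 ≤ 2 * R0 := (Sp_le_Th _ _).trans hr
    have h2 := le_Sp (σ := σ) (x r) 0 hz
    have h3 := hg0 z hz
    have hu := u_pos' (σ := σ) (x r) (X_Z hz)
    rw [hδ, div_le_iff₀ (by positivity)]
    calc c0 ≤ σ.u 0 z := h3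
      _ ≤ σ.Sp (x r) 0 * σ.u (x r) z := h2
      _ ≤ 2 * R0 * σ.u (x r) z := mul_le_mul_of_nonneg_right h1 hu.le
      _ = σ.u (x r) z * (2 * R0) := by ring
  -- near points
  obtain ⟨R, hR⟩ : ∃ R, R = (5 / 2) * (σ.B - σ.A) := ⟨_, rfl⟩
  have hRpos : 0 < R := by rw [hR]; positivity
  have hRw : 1 + (σ.B - σ.A) / R = 1.4 := by rw [hR]; field_simp; norm_num
  have hNfin := Z_fin (σ := σ) R
  obtain ⟨N, hN⟩ : ∃ N : Set ℝ, N = {z | z ∈ σ.Z ∧ σ.dl z ≤ R} := ⟨_, rfl⟩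
  rw [← hN] at hNfin
  have hNF : Finite N := hNfin.to_subtype
  obtain ⟨g, hg⟩ : ∃ g, g = Real.log 1.4 := ⟨_, rfl⟩
  have hgpos : 0 < g := by rw [hg]; exact Real.log_pos (by norm_num)
  obtain ⟨Φ, hΦ⟩ : ∃ Φ : ℕ → N → ℤ, Φ = fun r (z : N) => ⌊Real.log (σ.u (x r) (z : ℝ)) / g⌋ := ⟨_, rfl⟩
  have hΦfin : (Φ '' Bs).Finite := by
    refine (Set.Finite.pi (fun _ : N => Set.finite_Icc ⌊Real.log δ / g⌋
      ⌊Real.log (R + (σ.B - σ.A)) / g⌋)).subset ?_
    rintro _ ⟨r, hr, rfl⟩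
    rw [Set.mem_univ_pi]
    intro z
    have hzN : (z : ℝ) ∈ {z | z ∈ σ.Z ∧ σ.dl z ≤ R} := by
      have h0 := z.2
      exact hN ▸ h0
    have hu := u_pos' (σ := σ) (x r) (X_Z hzN.1)
    rw [hΦ, Set.mem_Icc]
    constructor
    · apply Int.floor_le_floor
      apply div_le_div_of_nonneg_right _ hgpos.le
      exact Real.log_le_log hδpos (hlow r hr z hzN.1)
    · apply Int.floor_le_floor
      apply div_le_div_of_nonneg_right _ hgpos.le
      apply Real.log_le_log hu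
      have := u_hi' (σ := σ) (x r) (X_Z hzN.1)
      linarith [hzN.2]
  have hΦclose : ∀ r ∈ Bs, ∀ a ∈ Bs, Φ r = Φ a → σ.Sp (x r) (x a) ≤ 1.4 := by
    intro r _ a _ hra
    apply Sp_le
    intro z hz
    have hur := u_pos' (σ := σ) (x r) (X_Z hz)
    have hua := u_pos' (σ := σ) (x a) (X_Z hz)
    by_cases hzR : σ.dl z ≤ R
    · have hzN : z ∈ N := by rw [hN]; exact ⟨hz, hzR⟩
      have h1 := congrFun hra ⟨z, hzN⟩
      rw [hΦ] at h1
      have h2 := Int.abs_sub_lt_one_of_floor_eq_floor h1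
      simp only at h2
      rw [abs_lt] at h2
      have h3 := h2.1
      have h4 : Real.log (σ.u (x a) z) / g < Real.log (σ.u (x r) z) / g + 1 := by linarith
      have h5 : Real.log (σ.u (x a) z) < Real.log (σ.u (x r) z) + g := by
        have := mul_lt_mul_of_pos_right h4 hgpos
        rw [div_mul_cancel₀ _ hgpos.ne', add_mul, div_mul_cancel₀ _ hgpos.ne', one_mul] at this
        exact this
      have h6 : Real.log (σ.u (x r) z) + g = Real.log (1.4 * σ.u (x r) z) := by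
        rw [hg, Real.log_mul (by norm_num) hur.ne']; ring
      rw [h6] at h5
      exact ((Real.log_lt_log_iff hua (by positivity)).1 h5).le
    · push Not at hzR
      have h1 := ratio_far (σ := σ) (x r) (x a) (X_Z hz) hRpos hzR.le
      rw [hRw, div_le_iff₀ hur] at h1
      exact h1
  -- returns
  have hret : ∀ v : N → ℤ, ∃ b : ℕ, 1 ≤ b ∧ ∀ r ∈ Bs, Φ r = v → r + b ∈ Bs := by
    intro v
    by_cases hv : ∃ a ∈ Bs, Φ a = v
    · obtain ⟨a, ha, hav⟩ := hv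
      obtain ⟨r1, hr1, hgr1⟩ := hfreq a
      refine ⟨r1 - a, by omega, fun r hr hrv => ?_⟩
      have hThle : σ.Th (x r) (x a) ≤ 2 := by
        unfold Th
        have e1 := hΦclose r hr a ha (hrv.trans hav.symm)
        have e2 := hΦclose a ha r hr (hav.trans hrv.symm)
        calc σ.Sp (x r) (x a) * σ.Sp (x a) (x r) ≤ 1.4 * 1.4 :=
              mul_le_mul e1 e2 (Sp_pos _ _).le (by norm_num)
          _ ≤ 2 := by norm_num
      have hit := calka_iter σ hs r a (r1 - a)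
      rw [hxr, hxr, hxr, hxr, show a + (r1 - a) = r1 by omega] at hit
      rw [hxr] at hgr1
      rw [hBs]
      show σ.Th (x (r + (r1 - a))) 0 ≤ 2 * R0
      calc σ.Th (x (r + (r1 - a))) 0 ≤ σ.Th (x (r + (r1 - a))) (x r1) * σ.Th (x r1) 0 := Th_tri _ _ _
        _ ≤ 2 * R0 := mul_le_mul (hit.trans hThle) (hgoodTh _ hgr1) (Th_pos _ _).le (by norm_num)
    · exact ⟨1, le_rfl, fun r hr hrv => absurd ⟨r, hr, hrv⟩ hv⟩
  choose bf hbf1 hbf using hret
  obtain ⟨b, hb⟩ : ∃ b, b = hΦfin.toFinset.sup bf := ⟨_, rfl⟩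
  have hbnd : ∀ r ∈ Bs, ∃ b', 1 ≤ b' ∧ b' ≤ b ∧ r + b' ∈ Bs := by
    intro r hr
    refine ⟨bf (Φ r), hbf1 _, ?_, hbf _ r hr rfl⟩
    rw [hb]
    exact Finset.le_sup (f := bf) (hΦfin.mem_toFinset.2 ⟨r, hr, rfl⟩)
  have hsynd : ∀ r : ℕ, ∃ r' ∈ Bs, r' ≤ r ∧ r ≤ r' + b := by
    intro r
    induction r with
    | zero => exact ⟨0, h0B, le_rfl, Nat.zero_le _⟩
    | succ r ih =>
      obtain ⟨r', hr', h1, h2⟩ := ih
      by_cases h3 : r + 1 ≤ r' + b
      · exact ⟨r', hr', by omega, h3⟩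
      · obtain ⟨b', hb1, hb2, hb3⟩ := hbnd r' hr'
        exact ⟨r' + b', hb3, by omega, by omega⟩
  obtain ⟨D, hD⟩ : ∃ D, D = σ.Th (σ.rn s 0 1) (σ.rn s 0 0) := ⟨_, rfl⟩
  have hD1 : 1 ≤ D := by rw [hD]; exact one_le_Th _ _
  have hall : ∀ r, σ.Th (x r) 0 ≤ D ^ b * (2 * R0) := by
    intro r
    obtain ⟨r', hr', h1, h2⟩ := hsynd r
    have h3 := calka_gap σ hs r' (r - r')
    rw [← hD, hxr, hxr, show r' + (r - r') = r by omega] at h3
    have h4 : D ^ (r - r') ≤ D ^ b := pow_le_pow_right₀ hD1 (by omega)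
    have h5 : σ.Th (x r') 0 ≤ 2 * R0 := by rw [hBs] at hr'; exact hr'
    calc σ.Th (x r) 0 ≤ σ.Th (x r) (x r') * σ.Th (x r') 0 := Th_tri _ _ _
      _ ≤ D ^ b * (2 * R0) := mul_le_mul (h3.trans h4) h5 (Th_pos _ _).le (by positivity)
  have hDpos : 0 < D ^ b * (2 * R0) := by positivity
  refine ⟨c0 / (D ^ b * (2 * R0)), by positivity, fun r z hz => ?_⟩
  rw [hxr]
  have h1 : σ.Sp (x r) 0 ≤ D ^ b * (2 * R0) := (Sp_le_Th _ _).trans (hall r)
  have h2 := le_Sp (σ := σ) (x r) 0 hz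
  have h3 := hg0 z hz
  have hu := u_pos' (σ := σ) (x r) (X_Z hz)
  rw [div_le_iff₀ hDpos]
  calc c0 ≤ σ.u 0 z := h3
    _ ≤ σ.Sp (x r) 0 * σ.u (x r) z := h2
    _ ≤ (D ^ b * (2 * R0)) * σ.u (x r) z := mul_le_mul_of_nonneg_right h1 hu.le
    _ = σ.u (x r) z * (D ^ b * (2 * R0)) := by ring

end calka_sec

/-! ### run_cmp -/
section run_cmp_sec

theorem run_cmp (σ : Sys) : ∃ K : ℝ, 1 ≤ K ∧ ∀ s m r : ℕ, 1 ≤ s → s < σ.d → m % σ.d ≠ s → 1 ≤ r →
    σ.Th (σ.rn s m r) (σ.rn s 0 r) ≤ K := by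
  obtain ⟨c, hc, h⟩ := digit_change σ
  have hw : 0 < σ.B - σ.A := w_pos
  refine ⟨(1 + (σ.B - σ.A) / c) ^ 2, ?_, ?_⟩
  · have : 0 < (σ.B - σ.A) / c := div_pos hw hc
    nlinarith
  · intro s m r hs hsd hm hr
    induction r, hr using Nat.le_induction with
    | base =>
      have h1 : σ.Good c (σ.rn s m 1) := by
        show σ.Good c (σ.d * m + s)
        exact h m s hsd hm
      have h2 : σ.Good c (σ.rn s 0 1) := by
        show σ.Good c (σ.d * 0 + s)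
        refine h 0 s hsd ?_
        rw [Nat.zero_mod]
        omega
      exact Th_good hc h1 h2
    | succ r hr ih =>
      have h1 : σ.Th (σ.d * σ.rn s m r + s) (σ.d * σ.rn s 0 r + s) ≤ σ.Th (σ.rn s m r) (σ.rn s 0 r) :=
        Th_step _ _ hsd
      exact h1.trans ih

end run_cmp_sec

/-! ### exists_run -/
section exists_run_sec

theorem exists_run (σ : Sys) {s : ℕ} (hs1 : 1 ≤ s) (hs : s < σ.d) (n : ℕ) : ∃ m r : ℕ, n = σ.rn s m r ∧
    m % σ.d ≠ s ∧ ∀ W : ℕ, (∀ j < W, (n / σ.d ^ j) % σ.d = s) → W ≤ r := by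
  have hd := σ.hd
  induction n using Nat.strong_induction_on with
  | _ n ih =>
    by_cases h : n % σ.d = s
    · have hn : 0 < n := by
        rcases Nat.eq_zero_or_pos n with h0 | h0
        · subst h0
          rw [Nat.zero_mod] at h
          omega
        · exact h0
      obtain ⟨m, r, h1, h2, h3⟩ := ih (n / σ.d) (Nat.div_lt_self hn (by omega))
      refine ⟨m, r + 1, ?_, h2, ?_⟩
      · show n = σ.d * σ.rn s m r + s
        rw [← h1]
        have := Nat.div_add_mod n σ.d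
        omega
      · intro W hW
        rcases W with _ | W
        · omega
        · have := h3 W (fun j hj => by
            have h4 := hW (j + 1) (by omega)
            rw [Nat.div_div_eq_div_mul, ← pow_succ']
            exact h4)
          omega
    · refine ⟨n, 0, rfl, h, ?_⟩
      intro W hW
      rcases W with _ | W
      · omega
      · exfalso
        apply h
        have := hW 0 (by omega)
        simpa using this

end exists_run_sec

/-! ### small_run -/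
section small_run_sec

theorem small_run_card {U : Ultrafilter ℕ} {n : ℕ → ℕ} {V V' : ℝ → ℝ} (h : LimF σ U n V)
    (h' : LimF σ U n V') : (σ.TV V).card = (σ.TV V').card := by
  have e : σ.TV V = σ.TV V' := by
    unfold TV
    refine Finset.filter_congr fun c hc => ?_
    rw [tendsto_nhds_unique (h.lim _ (crit_Z hc)) (h'.lim _ (crit_Z hc))]
  rw [e]

theorem small_run (σ : Sys) (W : ℕ) : ∃ c : ℝ, 0 < c ∧ ∀ n : ℕ, ¬ σ.Good c n →
    ∃ s : ℕ, 1 ≤ s ∧ s < σ.d ∧ σ.Deg s ∧ ∀ j < W, (n / σ.d ^ j) % σ.d = s := by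
  by_contra hcon
  push Not at hcon
  have h1 : ∀ k : ℕ, ∃ n : ℕ, ¬ σ.Good (1 / ((k:ℝ) + 1)) n ∧ ∀ s, 1 ≤ s → s < σ.d → σ.Deg s →
      ∃ j < W, (n / σ.d ^ j) % σ.d ≠ s := fun k => hcon (1 / ((k:ℝ) + 1)) (by positivity)
  choose n hn1 hn2 using h1
  have h2 : ∀ k, ∃ z ∈ σ.Z, σ.u (n k) z < 1 / ((k:ℝ) + 1) := by
    intro k
    have := hn1 k
    unfold Good at this
    push Not at this
    exact this
  choose z hz hzu using h2
  obtain ⟨c0, hc0, hreg⟩ := reg_lo σ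
  obtain ⟨U, hU⟩ : ∃ U : Ultrafilter ℕ, (U : Filter ℕ) ≤ atTop :=
    ⟨Filter.hyperfilter ℕ, Nat.hyperfilter_le_atTop⟩
  have hlim0 : Tendsto (fun k : ℕ => 1 / ((k:ℝ) + 1)) (U : Filter ℕ) (𝓝 0) :=
    tendsto_one_div_add_atTop_nhds_zero_nat.mono_left hU
  have hend : ∀ᶠ k in (U : Filter ℕ), z k = σ.A ∨ z k = σ.B := by
    filter_upwards [hlim0.eventually_lt_const hc0] with k hk
    by_contra hne
    push Not at hne
    have h3 := hreg (z k) (hz k) hne.1 hne.2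
    have h4 := u_lo' (n k) (X_Z (hz k))
    linarith [hzu k]
  have hex : ∃ x0 ∈ σ.Z, ∀ᶠ k in (U : Filter ℕ), z k = x0 := by
    rcases Ultrafilter.eventually_or.mp hend with h | h
    · obtain ⟨k, hk⟩ := h.exists
      exact ⟨σ.A, hk ▸ hz k, h⟩
    · obtain ⟨k, hk⟩ := h.exists
      exact ⟨σ.B, hk ▸ hz k, h⟩
  obtain ⟨x0, hx0, hzx⟩ := hex
  have hLi : σ.Li U n x0 := by
    unfold Li
    refine squeeze_zero' (Eventually.of_forall fun k => (u_pos' (n k) (X_Z hx0)).le) ?_ hlim0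
    filter_upwards [hzx] with k hk
    rw [← hk]
    exact (hzu k).le
  have hzs := zs hx0 hLi
  obtain ⟨V, hV, hdig0⟩ := (hzs 0).1
  set s := (σ.TV V).card with hs
  have hdig : ∀ j : ℕ, ∀ᶠ k in (U : Filter ℕ), (n k / σ.d ^ j) % σ.d = s := by
    intro j
    obtain ⟨V', hV', hd'⟩ := (hzs j).1
    rw [small_run_card hV' hV] at hd'
    exact hd'
  have hsd : s < σ.d := by
    obtain ⟨k, hk⟩ := (hdig 0).exists
    rw [← hk]
    exact Nat.mod_lt _ dpos
  have hs1 : 1 ≤ s := by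
    obtain ⟨c, hc, hcA, hcB⟩ := σ.hyp
    rw [hs, Nat.one_le_iff_ne_zero, Finset.card_ne_zero]
    refine ⟨c, Finset.mem_filter.mpr ⟨hc, ?_⟩⟩
    have h3 := hV.lo _ (crit_Z hc)
    have h4 := dl_pos (X_crit hc) hcA hcB
    exact ne_of_gt (lt_of_lt_of_le h4 h3)
  have hall : ∀ᶠ k in (U : Filter ℕ), ∀ j ∈ Finset.range W, (n k / σ.d ^ j) % σ.d = s :=
    (Filter.eventually_all_finset _).mpr fun j _ => hdig j
  have hnd : ¬ σ.Deg s := by
    intro hdeg
    obtain ⟨k, hk⟩ := hall.exists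
    obtain ⟨j, hj, hne⟩ := hn2 k s hs1 hsd hdeg
    exact hne (hk j (Finset.mem_range.mpr hj))
  obtain ⟨c1, hc1, hgood⟩ := (calka σ hsd).resolve_right hnd
  obtain ⟨K, hK, hrun⟩ := run_cmp σ
  have hK0 : 0 < K := by linarith
  have hlow : ∀ᶠ k in (U : Filter ℕ), c1 / K ≤ σ.u (n k) x0 := by
    filter_upwards [hdig 0] with k hk
    obtain ⟨m, r, hnr, hm, hW⟩ := exists_run σ hs1 hsd (n k)
    have hr : 1 ≤ r := by
      refine hW 1 fun j hj => ?_
      have : j = 0 := by omega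
      rw [this]; exact hk
    have h3 := hrun s m r hs1 hsd hm hr
    rw [← hnr] at h3
    have h4 := le_Sp (σ := σ) (n k) (σ.rn s 0 r) hx0
    have h5 := Sp_le_Th (σ := σ) (n k) (σ.rn s 0 r)
    have h6 := hgood r x0 hx0
    have h7 := (u_pos' (n k) (X_Z hx0) : 0 < σ.u (n k) x0)
    rw [div_le_iff₀ hK0]
    have h8 : σ.Sp (n k) (σ.rn s 0 r) * σ.u (n k) x0 ≤ K * σ.u (n k) x0 :=
      mul_le_mul_of_nonneg_right (h5.trans h3) h7.le
    linarith
  have hfin := ge_of_tendsto hLi hlow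
  have : 0 < c1 / K := div_pos hc1 hK0
  linarith

end small_run_sec

/-! ### heavy_lo -/
section heavy_lo_sec

theorem bm663_min {α : Type*} (F : Finset α) (g : α → ℝ) (h : ∀ a ∈ F, 0 < g a) :
    ∃ m : ℝ, 0 < m ∧ ∀ a ∈ F, m ≤ g a := by
  classical
  induction F using Finset.induction_on with
  | empty => exact ⟨1, one_pos, by simp⟩
  | insert a F ha ih =>
    obtain ⟨m, hm, hle⟩ := ih (fun b hb => h b (Finset.mem_insert_of_mem hb))
    refine ⟨min m (g a), lt_min hm (h a (Finset.mem_insert_self _ _)), ?_⟩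
    intro b hb
    rcases Finset.mem_insert.1 hb with rfl | hb
    · exact min_le_right _ _
    · exact (min_le_left _ _).trans (hle b hb)

theorem bm663_max {α : Type*} (F : Finset α) (g : α → ℝ) :
    ∃ m : ℝ, 0 < m ∧ ∀ a ∈ F, g a ≤ m := by
  classical
  induction F using Finset.induction_on with
  | empty => exact ⟨1, one_pos, by simp⟩
  | insert a F ha ih =>
    obtain ⟨m, hm, hle⟩ := ih
    refine ⟨max m (g a), lt_max_of_lt_left hm, ?_⟩
    intro b hb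
    rcases Finset.mem_insert.1 hb with rfl | hb
    · exact le_max_right _ _
    · exact (hle b hb).trans (le_max_left _ _)

theorem bm663_om (V : ℝ → ℝ) (c : ℝ) : σ.omF V c = σ.omF (fun _ => 1) c * V (σ.f c) := by
  unfold omF; ring

theorem bm663_kap (V : ℝ → ℝ) (x t : ℝ) : σ.kapF V x t = σ.kapF (fun _ => 1) x t * V (σ.f t) := by
  unfold kapF
  by_cases h : t = x
  · rw [if_pos h, if_pos h, h]; ring
  · rw [if_neg h, if_neg h, bm663_om V t]; ring

theorem bm663_key (σ : Sys) (c0 : ℝ) (hc0 : 0 < c0) (z : ℝ) (hz : z ∈ σ.Z) (i : ℕ) :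
    ∃ c : ℝ, 0 < c ∧ ∀ (V1 : ℝ → ℝ), (∀ y ∈ σ.Z, 0 ≤ V1 y) → V1 z ≤ σ.B - σ.A → 0 < V1 z →
      i = (σ.TV V1).card → σ.f z = z →
      (∀ s ∈ σ.C, V1 (σ.f s) ≠ 0 → σ.f s = z ∨ c0 ≤ V1 (σ.f s)) → (∃ s ∈ σ.C, σ.f s = z) →
      c ≤ hh (insert z σ.C) (σ.kapF V1 z) i / σ.ggF V1 i := by
  classical
  have hone : ∀ y ∈ σ.Z, (0:ℝ) < (fun _ => (1:ℝ)) y := fun _ _ => one_pos
  obtain ⟨w, hw, hwle⟩ := bm663_min (insert z σ.C) (σ.kapF (fun _ => 1) z) (kapF_pos hone hz)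
  obtain ⟨om, hom, homle⟩ := bm663_max σ.C (σ.omF (fun _ => 1))
  obtain ⟨cL, hcL, hlow⟩ := os_low (insert z σ.C) i
  obtain ⟨cU, hcU, hup⟩ := os_up σ.C (i - 1)
  have hBA : 0 < σ.B - σ.A := w_pos
  set c1 : ℝ := min 1 (c0 / (σ.B - σ.A)) with hc1
  have hc1pos : 0 < c1 := lt_min one_pos (div_pos hc0 hBA)
  refine ⟨cL * (w * c1) / (cU * om), by positivity, ?_⟩
  intro V1 hV hVz hVpos hi hfz hs hex
  have hgg : 0 < σ.ggF V1 i := ggF_pos' hV hi.le
  have hVf : ∀ s ∈ insert z (σ.TV V1), c1 * V1 z ≤ V1 (σ.f s) := by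
    intro s hsm
    have hle1 : c1 * V1 z ≤ V1 z := by
      have : c1 ≤ 1 := min_le_left _ _
      nlinarith
    rcases Finset.mem_insert.1 hsm with rfl | hsT
    · rw [hfz]; exact hle1
    · have h1 : s ∈ σ.C ∧ V1 (σ.f s) ≠ 0 := Finset.mem_filter.1 hsT
      rcases hs s h1.1 h1.2 with h2 | h2
      · rw [h2]; exact hle1
      · have h3 : c1 ≤ c0 / (σ.B - σ.A) := min_le_right _ _
        calc c1 * V1 z ≤ c0 / (σ.B - σ.A) * (σ.B - σ.A) := by
              apply mul_le_mul h3 hVz hVpos.le (by positivity)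
          _ = c0 := by field_simp
          _ ≤ _ := h2
  have hnum : cL * (w * (c1 * V1 z)) ≤ hh (insert z σ.C) (σ.kapF V1 z) i := by
    refine hlow _ (kapF_nn hV hz) _ (by positivity) (insert z (σ.TV V1)) ?_ ?_ ?_
    · exact Finset.insert_subset_insert _ (Finset.filter_subset _ _)
    · rw [Finset.card_insert_of_notMem]
      · rw [← hi]
      · intro hmem
        exact not_mem_C (X_Z hz) (Finset.filter_subset _ _ hmem)
    · intro s hsm
      rw [bm663_kap V1 z s]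
      have hs' : s ∈ insert z σ.C :=
        (Finset.insert_subset_insert _ (Finset.filter_subset _ _)) hsm
      exact mul_le_mul (hwle s hs') (hVf s hsm) (by positivity) (hw.le.trans (hwle s hs'))
  have hipos : 1 ≤ i := by
    obtain ⟨s, hsC, hsz⟩ := hex
    rw [hi]
    apply Finset.card_pos.2
    refine ⟨s, Finset.mem_filter.2 ⟨hsC, ?_⟩⟩
    rw [hsz]; exact hVpos.ne'
  have hden : σ.ggF V1 i ≤ cU * (om * V1 z) := by
    obtain ⟨j, rfl⟩ : ∃ j, i = j + 1 := ⟨i - 1, by omega⟩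
    have e : σ.ggF V1 (j + 1) = hh σ.C (σ.omF V1) j := rfl
    rw [e]
    have hj : j + 1 - 1 = j := by omega
    rw [hj] at hup
    refine hup _ (omF_nn hV) _ (by positivity) ((σ.TV V1).filter (fun s => σ.f s ≠ z)) ?_ ?_ ?_
    · exact (Finset.filter_subset _ _).trans (Finset.filter_subset _ _)
    · obtain ⟨s, hsC, hsz⟩ := hex
      have hlt : ((σ.TV V1).filter (fun s => σ.f s ≠ z)).card < (σ.TV V1).card := by
        apply Finset.card_lt_card
        rw [Finset.filter_ssubset]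
        refine ⟨s, Finset.mem_filter.2 ⟨hsC, ?_⟩, ?_⟩
        · rw [hsz]; exact hVpos.ne'
        · simp [hsz]
      omega
    · intro s hsC hsT
      rw [bm663_om V1 s]
      have homs : 0 < σ.omF (fun _ => 1) s := omF_pos hone s hsC
      by_cases h0 : V1 (σ.f s) = 0
      · rw [h0, mul_zero]; positivity
      · have h1 : σ.f s = z := by
          by_contra hne
          exact hsT (Finset.mem_filter.2 ⟨Finset.mem_filter.2 ⟨hsC, h0⟩, hne⟩)
        rw [h1]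
        exact mul_le_mul_of_nonneg_right (homle s hsC) hVpos.le
  rw [le_div_iff₀ hgg]
  calc cL * (w * c1) / (cU * om) * σ.ggF V1 i ≤ cL * (w * c1) / (cU * om) * (cU * (om * V1 z)) := by
        apply mul_le_mul_of_nonneg_left hden (by positivity)
    _ = cL * (w * (c1 * V1 z)) := by field_simp
    _ ≤ _ := hnum

/-- heavy points are uniformly heavy when there is a light point -/
theorem heavy_lo (σ : Sys) : ∃ c : ℝ, 0 < c ∧ ∀ (U : Ultrafilter ℕ) (n : ℕ → ℕ) (V : ℝ → ℝ), LimF σ U n V →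
    (∃ z ∈ σ.Z, V z = 0) → ∀ z ∈ σ.Z, V z ≠ 0 → c ≤ V z := by
  classical
  obtain ⟨c0, hc0, hreg⟩ := reg_lo σ
  -- constants at an end point
  have hend : ∀ z : ℝ, ∃ c : ℝ, 0 < c ∧ (z ∈ σ.Z → ∀ i < σ.d, ∀ (V1 : ℝ → ℝ),
      (∀ y ∈ σ.Z, 0 ≤ V1 y) → V1 z ≤ σ.B - σ.A → 0 < V1 z →
      i = (σ.TV V1).card → σ.f z = z →
      (∀ s ∈ σ.C, V1 (σ.f s) ≠ 0 → σ.f s = z ∨ c0 ≤ V1 (σ.f s)) → (∃ s ∈ σ.C, σ.f s = z) →
      c ≤ hh (insert z σ.C) (σ.kapF V1 z) i / σ.ggF V1 i) := by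
    intro z
    by_cases hz : z ∈ σ.Z
    · choose g hg hg2 using fun i => bm663_key σ c0 hc0 z hz i
      obtain ⟨m, hm, hmle⟩ := bm663_min (Finset.range σ.d) g (fun i _ => hg i)
      refine ⟨m, hm, fun _ i hi V1 h1 h2 h3 h4 h5 h6 h7 => ?_⟩
      exact (hmle i (Finset.mem_range.2 hi)).trans (hg2 i V1 h1 h2 h3 h4 h5 h6 h7)
    · exact ⟨1, one_pos, fun h => absurd h hz⟩
  obtain ⟨cA, hcA, hA⟩ := hend σ.A
  obtain ⟨cB, hcB, hB⟩ := hend σ.B
  have hAB := σ.hAB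
  refine ⟨min c0 (min cA cB), lt_min hc0 (lt_min hcA hcB), ?_⟩
  intro U n V h ⟨z', hz', hz'0⟩ z hz hz0
  by_cases hze : z = σ.A ∨ z = σ.B
  swap
  · push Not at hze
    exact (min_le_left _ _).trans ((hreg z hz hze.1 hze.2).trans (h.lo z hz))
  have hz'e := h.end_of_zero hz' hz'0
  have hne : z ≠ z' := by
    rintro rfl
    exact hz0 hz'0
  obtain ⟨i, hid, hmod⟩ := udigit U σ.dpos n
  obtain ⟨V1, h1⟩ := exists_limF (σ := σ) U (fun k => n k / σ.d)
  have hev : ∀ᶠ k in (U : Filter ℕ), n k = σ.d * (n k / σ.d) + i := by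
    filter_upwards [hmod] with k hk
    have := Nat.div_add_mod (n k) σ.d
    omega
  have hLi : ∀ e, σ.Li U n e ↔ σ.Li U (fun k => σ.d * (n k / σ.d) + i) e := by
    intro e
    unfold Li
    refine tendsto_congr' ?_
    filter_upwards [hev] with k hk
    rw [← hk]
  have ht' := (transfer h1 hid hz').1 ((hLi z').1 ((h.li_iff hz').2 hz'0))
  have ht : V1 (σ.f z) ≠ 0 := by
    intro hc
    exact hz0 ((h.li_iff hz).1 ((hLi z).2 ((transfer h1 hid hz).2 ⟨ht'.1, hc⟩)))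
  have hff : σ.f z ≠ σ.f z' := by
    intro he
    rw [he] at ht
    exact ht ht'.2
  have hfid : σ.f z = z ∧ σ.f z' = z' := by
    have fA := σ.fA
    have fB := σ.fB
    have idA := σ.idA
    have idB := σ.idB
    have key : σ.f σ.A ≠ σ.f σ.B → σ.f σ.A = σ.A ∧ σ.f σ.B = σ.B := by
      intro hn
      rcases fA with a | a <;> rcases fB with b | b
      · exact absurd (a.trans b.symm) hn
      · exact ⟨a, b⟩
      · rw [a, b] at idA
        exact absurd idA hAB.ne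
      · exact absurd (a.trans b.symm) hn
    rcases hze with rfl | rfl <;> rcases hz'e with rfl | rfl
    · exact absurd rfl hne
    · exact key hff
    · have := key hff.symm
      exact ⟨this.2, this.1⟩
    · exact absurd rfl hne
  have hVz1 : V1 z ≠ 0 := by rw [hfid.1] at ht; exact ht
  have hVz'1 : V1 z' = 0 := by rw [← hfid.2]; exact ht'.2
  have hVpos : 0 < V1 z := h1.pos_of hz hVz1
  have hdlz : σ.dl z = 0 := by
    rcases hze with rfl | rfl
    · exact dl_A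
    · exact dl_B
  have hVz1le : V1 z ≤ σ.B - σ.A := by
    have := h1.hi z hz
    rw [hdlz] at this
    linarith
  have hcase : ∀ y, (y = σ.A ∨ y = σ.B) → y = z ∨ y = z' := by
    intro y hy
    rcases hze with rfl | rfl <;> rcases hz'e with rfl | rfl <;> tauto
  have hs : ∀ s ∈ σ.C, V1 (σ.f s) ≠ 0 → σ.f s = z ∨ c0 ≤ V1 (σ.f s) := by
    intro s hs hVs
    by_cases he : σ.f s = σ.A ∨ σ.f s = σ.B
    · rcases hcase _ he with h2 | h2
      · exact Or.inl h2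
      · exact absurd (by rw [h2]; exact hVz'1) hVs
    · push Not at he
      exact Or.inr ((hreg _ (crit_Z hs) he.1 he.2).trans (h1.lo _ (crit_Z hs)))
  have hex : ∃ s ∈ σ.C, σ.f s = z := by
    rcases end_Z hz hze with h2 | ⟨s, hsC, h2, h3⟩
    · exact h2
    · refine ⟨s, hsC, ?_⟩
      rcases hcase _ h2 with h4 | h4
      · exact h4
      · rw [h4, hfid.2] at h3
        exact absurd h3.symm hne
  have hlim := child_lim h1 hid ht'.1.le hz
  have hlim2 : Tendsto (fun k => σ.u (n k) z) (U : Filter ℕ)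
      (𝓝 (hh (insert z σ.C) (σ.kapF V1 z) i / σ.ggF V1 i)) := by
    refine (tendsto_congr' ?_).1 hlim
    filter_upwards [hev] with k hk
    rw [← hk]
  have hVeq : V z = hh (insert z σ.C) (σ.kapF V1 z) i / σ.ggF V1 i :=
    tendsto_nhds_unique (h.lim z hz) hlim2
  rw [hVeq]
  rcases hze with rfl | rfl
  · exact ((min_le_right _ _).trans (min_le_left _ _)).trans
      (hA hz i hid V1 h1.nn hVz1le hVpos ht'.1 hfid.1 hs hex)
  · exact ((min_le_right _ _).trans (min_le_right _ _)).trans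
      (hB hz i hid V1 h1.nn hVz1le hVpos ht'.1 hfid.1 hs hex)

end heavy_lo_sec

/-! ### deg_lim -/
section deg_lim_sec

theorem dgl_good (F : Filter ℕ) (n : ℕ → ℕ)
    (h : ∀ e ∈ σ.Z, (e = σ.A ∨ e = σ.B) → ∃ c : ℝ, 0 < c ∧ ∀ᶠ k in F, c ≤ σ.u (n k) e) :
    ∃ δ : ℝ, 0 < δ ∧ ∀ᶠ k in F, σ.Good δ (n k) := by
  obtain ⟨c1, hc1, hreg⟩ := reg_lo σ
  have key : ∀ e : ℝ, (e = σ.A ∨ e = σ.B) → ∃ c : ℝ, 0 < c ∧ ∀ᶠ k in F, e ∈ σ.Z → c ≤ σ.u (n k) e := by
    intro e he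
    by_cases hz : e ∈ σ.Z
    · obtain ⟨c, hc, h1⟩ := h e hz he
      exact ⟨c, hc, h1.mono (fun k hk _ => hk)⟩
    · exact ⟨1, one_pos, Filter.Eventually.of_forall (fun k hk => absurd hk hz)⟩
  obtain ⟨cA, hcA, hA⟩ := key σ.A (Or.inl rfl)
  obtain ⟨cB, hcB, hB⟩ := key σ.B (Or.inr rfl)
  refine ⟨min c1 (min cA cB), lt_min hc1 (lt_min hcA hcB), ?_⟩
  filter_upwards [hA, hB] with k h1 h2
  intro z hz
  by_cases hzA : z = σ.A
  · subst hzA
    exact ((min_le_right _ _).trans (min_le_left _ _)).trans (h1 hz)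
  · by_cases hzB : z = σ.B
    · subst hzB
      exact ((min_le_right _ _).trans (min_le_right _ _)).trans (h2 hz)
    · exact (min_le_left _ _).trans ((hreg z hz hzA hzB).trans (u_lo' _ (X_Z hz)))

theorem dgl_light (U : Ultrafilter ℕ) (n : ℕ → ℕ)
    (h : ∀ δ : ℝ, 0 < δ → ∀ᶠ k in (U : Filter ℕ), ¬ σ.Good δ (n k)) :
    ∃ z ∈ σ.Z, σ.Li U n z := by
  by_contra hcon
  push Not at hcon
  obtain ⟨V, hV⟩ := exists_limF (σ := σ) U n
  obtain ⟨δ, hδ, hG⟩ := dgl_good (σ := σ) (U : Filter ℕ) n (by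
    intro e he _
    have h1 : V e ≠ 0 := fun h0 => hcon e he ((hV.li_iff he).2 h0)
    have h2 := hV.pos_of he h1
    refine ⟨V e / 2, by positivity, ?_⟩
    have h3 := (hV.lim e he).eventually (lt_mem_nhds (by linarith : V e / 2 < V e))
    exact h3.mono (fun k hk => le_of_lt hk))
  obtain ⟨k, hk1, hk2⟩ := (hG.and (h δ hδ)).exists
  exact hk2 hk1

theorem deg_lim (σ : Sys) {s : ℕ} (hs1 : 1 ≤ s) (hs : s < σ.d) (hD : σ.Deg s) :
    (∃ z ∈ σ.Z, Tendsto (fun r => σ.u (σ.rn s 0 r) z) atTop (𝓝 0)) ∧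
    ∀ z ∈ σ.Z, Tendsto (fun r => σ.u (σ.rn s 0 r) z) atTop (𝓝 0) ∨
      ∃ c : ℝ, 0 < c ∧ ∀ᶠ r in atTop, c ≤ σ.u (σ.rn s 0 r) z := by
  obtain ⟨c0, hc0, hheavy⟩ := heavy_lo σ
  obtain ⟨x, hx⟩ : ∃ x : ℕ → ℕ, x = fun r => σ.rn s 0 r := ⟨_, rfl⟩
  have hxs : ∀ r, x (r + 1) = σ.d * x r + s := by intro r; rw [hx]; rfl
  have hxdiv : ∀ r, x (r + 1) / σ.d = x r := by
    intro r
    rw [hxs, Nat.mul_add_div dpos, Nat.div_eq_of_lt hs, Nat.add_zero]
  have hDx : ∀ c : ℝ, 0 < c → ∀ᶠ r in atTop, ¬ σ.Good c (x r) := by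
    rw [hx]; exact hD
  have hlight : ∀ U : Ultrafilter ℕ, (U : Filter ℕ) ≤ atTop → ∃ z ∈ σ.Z, σ.Li U x z := by
    intro U hU
    exact dgl_light U x (fun δ hδ => (hDx δ hδ).filter_mono hU)
  have hlight1 : ∀ U : Ultrafilter ℕ, (U : Filter ℕ) ≤ atTop →
      ∃ z ∈ σ.Z, σ.Li U (fun r => x (r + 1)) z := by
    intro U hU
    refine dgl_light U (fun r => x (r + 1)) (fun δ hδ => ?_)
    have h1 : ∀ᶠ r in atTop, ¬ σ.Good δ (x (r + 1)) := (tendsto_add_atTop_nat 1).eventually (hDx δ hδ)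
    exact h1.filter_mono hU
  -- ultrafilters from frequently
  have hfreq : ∀ P : ℕ → Prop, (∃ᶠ r in atTop, P r) → ∃ U : Ultrafilter ℕ, (U : Filter ℕ) ≤ atTop ∧
      ∀ᶠ r in (U : Filter ℕ), P r := by
    intro P hP
    have hne : (atTop ⊓ 𝓟 {r | P r}).NeBot := by
      rw [Filter.inf_principal_neBot_iff] 
      intro t ht
      obtain ⟨r, hr1, hr2⟩ := (hP.and_eventually ht).exists
      exact ⟨r, hr2, hr1⟩
    refine ⟨Ultrafilter.of (atTop ⊓ 𝓟 {r | P r}), ?_, ?_⟩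
    · exact (Ultrafilter.of_le _).trans inf_le_left
    · have h1 : (Ultrafilter.of (atTop ⊓ 𝓟 {r | P r}) : Filter ℕ) ≤ 𝓟 {r | P r} :=
        (Ultrafilter.of_le _).trans inf_le_right
      exact h1 (Filter.mem_principal_self _)
  -- Fact 2
  have fact2 : ∀ z ∈ σ.Z, ∀ δ : ℝ, 0 < δ →
      ∀ᶠ r in atTop, ¬ (δ ≤ σ.u (x r) z ∧ σ.u (x r) z ≤ c0 / 2) := by
    intro z hz δ hδ
    by_contra hcon
    rw [Filter.not_eventually] at hcon
    have hcon' : ∃ᶠ r in atTop, (δ ≤ σ.u (x r) z ∧ σ.u (x r) z ≤ c0 / 2) :=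
      hcon.mono (fun r hr => not_not.1 hr)
    obtain ⟨U, hU, hP⟩ := hfreq _ hcon'
    obtain ⟨V, hV⟩ := exists_limF (σ := σ) U x
    obtain ⟨z0, hz0, hl⟩ := hlight U hU
    have hV0 := (hV.li_iff hz0).1 hl
    have h1 : δ ≤ V z := ge_of_tendsto (hV.lim z hz) (hP.mono (fun r hr => hr.1))
    have h2 : V z ≤ c0 / 2 := le_of_tendsto (hV.lim z hz) (hP.mono (fun r hr => hr.2))
    have h3 := hheavy U x V hV ⟨z0, hz0, hV0⟩ z hz (by linarith)
    linarith
  have fact3 : ∀ z ∈ σ.Z, ∀ᶠ r in atTop, ¬ (σ.u (x r) z ≤ c0 / 2 ∧ c0 / 2 < σ.u (x (r + 1)) z) := by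
    intro z hz
    by_contra hcon
    rw [Filter.not_eventually] at hcon
    have hcon' : ∃ᶠ r in atTop, (σ.u (x r) z ≤ c0 / 2 ∧ c0 / 2 < σ.u (x (r + 1)) z) :=
      hcon.mono (fun r hr => not_not.1 hr)
    obtain ⟨U, hU, hP⟩ := hfreq _ hcon'
    obtain ⟨V, hV⟩ := exists_limF (σ := σ) U (fun r => x (r + 1))
    obtain ⟨V1, hV1⟩ := exists_limF (σ := σ) U x
    obtain ⟨z0, hz0, hl⟩ := hlight U hU
    obtain ⟨z1, hz1, hl1⟩ := hlight1 U hU
    have hV10 := (hV1.li_iff hz0).1 hl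
    have h1 : V1 z ≤ c0 / 2 := le_of_tendsto (hV1.lim z hz) (hP.mono (fun r hr => hr.1))
    have h2 : c0 / 2 ≤ V z := ge_of_tendsto (hV.lim z hz) (hP.mono (fun r hr => hr.2.le))
    have h3 : V1 z = 0 := by
      by_contra h0
      have := hheavy U x V1 hV1 ⟨z0, hz0, hV10⟩ z hz h0
      linarith
    have h4 : σ.Li U x z := (hV1.li_iff hz).2 h3
    have h5 := (zs hz1 hl1 1).2 z hz
    have h6 : (fun k => x (k + 1) / σ.d ^ 1) = x := by
      funext k
      rw [pow_one, hxdiv]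
    rw [h6] at h5
    have h7 := (hV.li_iff hz).1 (h5.1 h4)
    linarith
  have second : ∀ z ∈ σ.Z, Tendsto (fun r => σ.u (x r) z) atTop (𝓝 0) ∨
      ∃ c : ℝ, 0 < c ∧ ∀ᶠ r in atTop, c ≤ σ.u (x r) z := by
    intro z hz
    obtain ⟨r1, hr1⟩ := eventually_atTop.1 (fact3 z hz)
    by_cases h : ∃ r, r1 ≤ r ∧ σ.u (x r) z ≤ c0 / 2
    · left
      obtain ⟨r, hr, hur⟩ := h
      have hall : ∀ j, σ.u (x (r + j)) z ≤ c0 / 2 := by
        intro j
        induction j with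
        | zero => exact hur
        | succ j ih =>
          have h1 := hr1 (r + j) (by omega)
          by_contra h2
          exact h1 ⟨ih, not_le.1 h2⟩
      rw [Metric.tendsto_atTop]
      intro ε hε
      obtain ⟨r2, hr2⟩ := eventually_atTop.1 (fact2 z hz ε hε)
      refine ⟨max r r2, fun k hk => ?_⟩
      have h1 := hr2 k (le_trans (le_max_right _ _) hk)
      have h2 : σ.u (x k) z ≤ c0 / 2 := by
        have h3 := hall (k - r)
        have h4 : r + (k - r) = k := by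
          have := le_trans (le_max_left r r2) hk
          omega
        rwa [h4] at h3
      have h5 : σ.u (x k) z < ε := by
        by_contra h6
        exact h1 ⟨not_lt.1 h6, h2⟩
      have h7 := u_pos' (σ := σ) (x k) (X_Z hz)
      rw [Real.dist_eq, sub_zero, abs_of_pos h7]
      exact h5
    · right
      push Not at h
      refine ⟨c0 / 2, by positivity, ?_⟩
      filter_upwards [eventually_ge_atTop r1] with r hr
      exact (h r hr).le
  refine ⟨?_, ?_⟩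
  · by_contra hcon
    push Not at hcon
    have hcon' : ∀ z ∈ σ.Z, ¬ Tendsto (fun r => σ.u (x r) z) atTop (𝓝 0) := by
      rw [hx]; exact hcon
    obtain ⟨δ, hδ, hG⟩ := dgl_good (σ := σ) atTop x (fun e he _ => (second e he).resolve_left (hcon' e he))
    obtain ⟨k, hk1, hk2⟩ := (hG.and (hDx δ hδ)).exists
    exact hk2 hk1
  · intro z hz
    have := second z hz
    rw [hx] at this
    exact this

end deg_lim_sec

/-! ### deg_li -/
section deg_li_sec

/-- light points along long runs of a degenerate digit -/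
theorem deg_li (σ : Sys) {s : ℕ} (hs1 : 1 ≤ s) (hs : s < σ.d) (hD : σ.Deg s) {U : Ultrafilter ℕ}
    {n : ℕ → ℕ} (hn : ∀ j : ℕ, ∀ᶠ k in (U : Filter ℕ), (n k / σ.d ^ j) % σ.d = s) (j : ℕ) :
    ∀ z ∈ σ.Z, (σ.Li U (fun k => n k / σ.d ^ j) z ↔
      Tendsto (fun r => σ.u (σ.rn s 0 r) z) atTop (𝓝 0)) := by
  intro z hz
  obtain ⟨K, hK1, hK⟩ := run_cmp σ
  choose m r hmr hm hW using fun k => exists_run σ hs1 hs (n k / σ.d ^ j)
  have hr : Tendsto r (U : Filter ℕ) atTop := by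
    rw [tendsto_atTop]
    intro W
    have h1 : ∀ᶠ k in (U : Filter ℕ), ∀ i ∈ Finset.range W, (n k / σ.d ^ (j + i)) % σ.d = s := by
      rw [Filter.eventually_all_finset]
      intro i _
      exact hn (j + i)
    filter_upwards [h1] with k hk
    apply hW k W
    intro i hi
    rw [Nat.div_div_eq_div_mul, ← pow_add]
    exact hk i (Finset.mem_range.2 hi)
  have hX : σ.X z := X_Z hz
  have hcmp : ∀ᶠ k in (U : Filter ℕ), σ.u (n k / σ.d ^ j) z ≤ K * σ.u (σ.rn s 0 (r k)) z ∧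
      σ.u (σ.rn s 0 (r k)) z ≤ K * σ.u (n k / σ.d ^ j) z := by
    filter_upwards [hr.eventually_ge_atTop 1] with k hk
    have hTh := hK s (m k) (r k) hs1 hs (hm k) hk
    rw [← hmr k] at hTh
    constructor
    · have h1 := le_Sp (σ := σ) (σ.rn s 0 (r k)) (n k / σ.d ^ j) hz
      have h2 := Sp_le_Th' (σ := σ) (n k / σ.d ^ j) (σ.rn s 0 (r k))
      exact h1.trans (mul_le_mul_of_nonneg_right (h2.trans hTh) (u_pos' _ hX).le)
    · have h1 := le_Sp (σ := σ) (n k / σ.d ^ j) (σ.rn s 0 (r k)) hz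
      have h2 := Sp_le_Th (σ := σ) (n k / σ.d ^ j) (σ.rn s 0 (r k))
      exact h1.trans (mul_le_mul_of_nonneg_right (h2.trans hTh) (u_pos' _ hX).le)
  constructor
  · intro hLi
    rcases (deg_lim σ hs1 hs hD).2 z hz with h | ⟨c, hc, h⟩
    · exact h
    · exfalso
      have h1 : ∀ᶠ k in (U : Filter ℕ), c ≤ σ.u (σ.rn s 0 (r k)) z := hr.eventually h
      have h2 : Tendsto (fun k => K * σ.u (n k / σ.d ^ j) z) (U : Filter ℕ) (𝓝 (K * 0)) :=
        Tendsto.const_mul K hLi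
      rw [mul_zero] at h2
      have h3 : ∀ᶠ k in (U : Filter ℕ), K * σ.u (n k / σ.d ^ j) z < c :=
        h2.eventually (gt_mem_nhds hc)
      obtain ⟨k, hk1, hk2, hk3⟩ := (h1.and (h3.and hcmp)).exists
      linarith [hk3.2]
  · intro h
    have h1 : Tendsto (fun k => K * σ.u (σ.rn s 0 (r k)) z) (U : Filter ℕ) (𝓝 (K * 0)) :=
      Tendsto.const_mul K (h.comp hr)
    rw [mul_zero] at h1
    show Tendsto (fun k => σ.u (n k / σ.d ^ j) z) (U : Filter ℕ) (𝓝 0)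
    refine tendsto_of_tendsto_of_tendsto_of_le_of_le' tendsto_const_nhds h1 ?_ ?_
    · exact Filter.Eventually.of_forall (fun k => (u_pos' _ hX).le)
    · filter_upwards [hcmp] with k hk
      exact hk.1

end deg_li_sec

/-- constants of the nodes -/
noncomputable def k0 (σ : Sys) (x u : ℝ) : ℝ :=
  if u = x then σ.al / |(nod σ.C).eval x| else σ.al / |(nod (σ.C.erase u)).eval u| / |x - u|

/-- linear coefficients in the reciprocals -/
noncomputable def be (σ : Sys) (T : Finset ℝ) (x u : ℝ) : ℝ :=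
  (σ.k0 x u * ((nod ((insert x T).erase u)).eval u) ^ 2)⁻¹

/-! ### mob -/
section mob_sec

/-- contraction of a positive Moebius map -/
theorem mob {a b c d K : ℝ} (ha : 0 < a) (hb : 0 < b) (hc : 0 < c) (hd : 0 < d) (hK : 1 ≤ K) {ρ ρ' : ℕ → ℝ}
    (h : ∀ j, 1 / K ≤ ρ j ∧ ρ j ≤ K) (h' : ∀ j, 1 / K ≤ ρ' j ∧ ρ' j ≤ K)
    (hr : ∀ j, ρ j = (a * ρ (j + 1) + b) / (c * ρ (j + 1) + d))
    (hr' : ∀ j, ρ' j = (a * ρ' (j + 1) + b) / (c * ρ' (j + 1) + d)) : ρ 0 = ρ' 0 := by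
  have hK0 : 0 < K := by linarith
  have hKi : 0 < 1 / K := by positivity
  have p1 : ∀ j, 0 < ρ j := fun j => lt_of_lt_of_le hKi (h j).1
  have p2 : ∀ j, 0 < ρ' j := fun j => lt_of_lt_of_le hKi (h' j).1
  set F : ℕ → ℝ := fun j => (ρ j - ρ' j) ^ 2 / (ρ j * ρ' j) with hF
  set θ : ℝ := (a * d - b * c) ^ 2 / (a * d + b * c) ^ 2 with hθ
  have hS : 0 < a * d + b * c := by positivity
  have hθ0 : 0 ≤ θ := by positivity
  have hθ1 : θ < 1 := by
    rw [hθ, div_lt_one (by positivity)]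
    nlinarith [mul_pos (mul_pos ha hd) (mul_pos hb hc)]
  have hF0 : ∀ j, 0 ≤ F j := fun j => div_nonneg (sq_nonneg _) (mul_pos (p1 j) (p2 j)).le
  have step : ∀ j, F j ≤ θ * F (j + 1) := by
    intro j
    have hx := p1 (j+1)
    have hy := p2 (j+1)
    simp only [hF]
    rw [hr j, hr' j]
    generalize ρ (j+1) = x at hx ⊢
    generalize ρ' (j+1) = y at hy ⊢
    have e1 : 0 < a * x + b := by positivity
    have e2 : 0 < c * x + d := by positivity
    have e3 : 0 < a * y + b := by positivity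
    have e4 : 0 < c * y + d := by positivity
    have q1 : ((a * x + b) / (c * x + d) - (a * y + b) / (c * y + d)) ^ 2 /
        ((a * x + b) / (c * x + d) * ((a * y + b) / (c * y + d))) =
        (a * d - b * c) ^ 2 * (x - y) ^ 2 / (((a * x + b) * (c * x + d)) * ((a * y + b) * (c * y + d))) := by
      field_simp
      ring
    rw [q1, hθ, div_mul_div_comm]
    have b1 : x * (a * d + b * c) ≤ (a * x + b) * (c * x + d) := by
      nlinarith [mul_pos (mul_pos ha hc) (mul_pos hx hx), mul_pos hb hd]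
    have b2 : y * (a * d + b * c) ≤ (a * y + b) * (c * y + d) := by
      nlinarith [mul_pos (mul_pos ha hc) (mul_pos hy hy), mul_pos hb hd]
    apply div_le_div_of_nonneg_left (by positivity) (by positivity)
    calc (a * d + b * c) ^ 2 * (x * y) = (x * (a * d + b * c)) * (y * (a * d + b * c)) := by ring
      _ ≤ _ := mul_le_mul b1 b2 (by positivity) (by positivity)
  have hbd : ∀ j, F j ≤ K ^ 4 := by
    intro j
    simp only [hF]
    have n1 : (ρ j - ρ' j) ^ 2 ≤ K ^ 2 := by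
      have := (h j).2; have := (h' j).2; have := p1 j; have := p2 j
      nlinarith
    have n2 : 1 ≤ ρ j * ρ' j * K ^ 2 := by
      have m1 : 1 ≤ ρ j * K := by
        have := mul_le_mul_of_nonneg_right (h j).1 hK0.le
        rwa [one_div, inv_mul_cancel₀ hK0.ne'] at this
      have m2 : 1 ≤ ρ' j * K := by
        have := mul_le_mul_of_nonneg_right (h' j).1 hK0.le
        rwa [one_div, inv_mul_cancel₀ hK0.ne'] at this
      nlinarith
    rw [div_le_iff₀ (mul_pos (p1 j) (p2 j))]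
    calc (ρ j - ρ' j) ^ 2 ≤ K ^ 2 * 1 := by linarith
      _ ≤ K ^ 2 * (ρ j * ρ' j * K ^ 2) := mul_le_mul_of_nonneg_left n2 (by positivity)
      _ = _ := by ring
  have hit : ∀ n, F 0 ≤ θ ^ n * K ^ 4 := by
    have : ∀ n, F 0 ≤ θ ^ n * F n := by
      intro n
      induction n with
      | zero => simp
      | succ n ih =>
        calc F 0 ≤ θ ^ n * F n := ih
          _ ≤ θ ^ n * (θ * F (n+1)) := mul_le_mul_of_nonneg_left (step n) (by positivity)
          _ = _ := by ring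
    intro n
    exact (this n).trans (mul_le_mul_of_nonneg_left (hbd n) (by positivity))
  have hlim : Tendsto (fun n : ℕ => θ ^ n * K ^ 4) atTop (𝓝 0) := by
    simpa using (tendsto_pow_atTop_nhds_zero_of_lt_one hθ0 hθ1).mul_const (K ^ 4)
  have hz : F 0 ≤ 0 := ge_of_tendsto' hlim hit
  have hz' : F 0 = 0 := le_antisymm hz (hF0 0)
  simp only [hF] at hz'
  rw [div_eq_zero_iff] at hz'
  rcases hz' with hz' | hz'
  · have := pow_eq_zero_iff (two_ne_zero) |>.1 hz'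
    linarith
  · exact absurd hz' (mul_pos (p1 0) (p2 0)).ne'

end mob_sec

/-! ### light_rec -/
section light_rec_sec

theorem lr_deg0 (S : Finset ℝ) (κ : ℝ → ℝ) : hh S κ 0 = ∑ s ∈ S, κ s := by
  unfold hh
  have h : sq S κ '' {R | MD 0 R} = {∑ s ∈ S, κ s} := by
    ext y
    constructor
    · rintro ⟨R, ⟨hm, hd⟩, rfl⟩
      have hR : R = 1 := (Polynomial.Monic.natDegree_eq_zero hm).mp hd
      subst hR
      simp [sq]
    · intro hy
      rw [Set.mem_singleton_iff] at hy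
      subst hy
      exact ⟨1, ⟨monic_one, natDegree_one⟩, by simp [sq]⟩
  rw [h, csInf_singleton]

theorem lr_lb (T : Finset ℝ) (g : ℝ → ℝ) (hg : ∀ t ∈ T, 0 < g t) : ∃ c : ℝ, 0 < c ∧ ∀ t ∈ T, c ≤ g t := by
  rcases T.eq_empty_or_nonempty with h | h
  · exact ⟨1, one_pos, by simp [h]⟩
  · obtain ⟨m, hm, hmin⟩ := T.exists_min_image g h
    exact ⟨g m, hg m hm, hmin⟩

/-- heavy critical points when both ends are light -/
noncomputable def Tt (σ : Sys) : Finset ℝ := σ.C.filter (fun s => σ.f s ≠ σ.A ∧ σ.f s ≠ σ.B)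

theorem lr_TV {U : Ultrafilter ℕ} {n : ℕ → ℕ} {V : ℝ → ℝ} (h : LimF σ U n V) (hA : V σ.A = 0)
    (hB : V σ.B = 0) : σ.TV V = Tt σ := by
  unfold TV Tt
  apply Finset.filter_congr
  intro c hc
  constructor
  · intro h1
    constructor
    · intro h2; rw [h2] at h1; exact h1 hA
    · intro h2; rw [h2] at h1; exact h1 hB
  · rintro ⟨h1, h2⟩
    have h3 := dl_pos (X_crit hc) h1 h2
    have h4 := h.lo _ (crit_Z hc)
    linarith

theorem lr_k0_pos {x : ℝ} (hx : σ.X x) {t : ℝ} (ht : t ∈ insert x σ.C) : 0 < σ.k0 x t := by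
  unfold k0
  split_ifs with h
  · have := nodC_ne hx
    have := σ.hal
    positivity
  · have htC : t ∈ σ.C := by
      rcases Finset.mem_insert.mp ht with h' | h'
      · exact absurd h' h
      · exact h'
    have h1 := node_ne (σ := σ) t
    have h2 := abs_sub_pos hx htC
    have := σ.hal
    positivity

theorem lr_kap (n : ℕ) (x t : ℝ) : σ.kap n x t = σ.k0 x t * σ.u n (σ.f t) := by
  unfold kap k0 om
  split_ifs with h
  · rw [h]
  · ring

/-- coefficients -/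
noncomputable def cf (σ : Sys) (x e : ℝ) : ℝ :=
  ∑ t ∈ (insert x σ.C).filter (fun t => σ.f t = e), σ.k0 x t * (nod (Tt σ)).eval t ^ 2

theorem lr_ends (zA : σ.A ∈ σ.Z) (zB : σ.B ∈ σ.Z) {x : ℝ} (hx : x = σ.A ∨ x = σ.B) :
    (∃ t ∈ insert x σ.C, σ.f t = σ.A) ∧ (∃ t ∈ insert x σ.C, σ.f t = σ.B) := by
  have hAB : σ.A ≠ σ.B := σ.hAB.ne
  have hA : (∃ c ∈ σ.C, σ.f c = σ.A) ∨ (σ.f σ.A = σ.A ∧ σ.f σ.B = σ.A) := by
    rcases end_Z zA (Or.inl rfl) with h | ⟨c, hc, hc1 | hc1, hc2⟩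
    · exact Or.inl h
    · exact Or.inl ⟨c, hc, hc1⟩
    · rw [hc1] at hc2
      right
      refine ⟨?_, hc2⟩
      have := σ.idB
      rwa [hc2] at this
  have hB : (∃ c ∈ σ.C, σ.f c = σ.B) ∨ (σ.f σ.A = σ.B ∧ σ.f σ.B = σ.B) := by
    rcases end_Z zB (Or.inr rfl) with h | ⟨c, hc, hc1 | hc1, hc2⟩
    · exact Or.inl h
    · rw [hc1] at hc2
      right
      refine ⟨hc2, ?_⟩
      have := σ.idA
      rwa [hc2] at this
    · exact Or.inl ⟨c, hc, hc1⟩
  constructor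
  · rcases hA with ⟨c, hc, hc1⟩ | ⟨h1, h2⟩
    · exact ⟨c, Finset.mem_insert_of_mem hc, hc1⟩
    · refine ⟨x, Finset.mem_insert_self _ _, ?_⟩
      rcases hx with rfl | rfl
      · exact h1
      · exact h2
  · rcases hB with ⟨c, hc, hc1⟩ | ⟨h1, h2⟩
    · exact ⟨c, Finset.mem_insert_of_mem hc, hc1⟩
    · refine ⟨x, Finset.mem_insert_self _ _, ?_⟩
      rcases hx with rfl | rfl
      · exact h1
      · exact h2

theorem lr_X {x : ℝ} (hx : x = σ.A ∨ x = σ.B) : σ.X x := by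
  rcases hx with rfl | rfl
  · exact X_A
  · exact X_B

theorem lr_cf_pos {x : ℝ} (hx : x = σ.A ∨ x = σ.B) {e : ℝ} (he : e = σ.A ∨ e = σ.B)
    (h : ∃ t ∈ insert x σ.C, σ.f t = e) : 0 < σ.cf x e := by
  unfold cf
  apply Finset.sum_pos
  · intro t ht
    rw [Finset.mem_filter] at ht
    have h1 := lr_k0_pos (lr_X hx) ht.1
    have h2 : t ∉ Tt σ := by
      unfold Tt
      rw [Finset.mem_filter]
      rintro ⟨-, h3, h4⟩
      rcases he with rfl | rfl
      · exact h3 ht.2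
      · exact h4 ht.2
    have h3 := nod_eval_ne h2
    positivity
  · obtain ⟨t, ht, hte⟩ := h
    exact ⟨t, Finset.mem_filter.mpr ⟨ht, hte⟩⟩

theorem lr_sub (x : ℝ) : Tt σ ⊆ insert x σ.C :=
  (Finset.filter_subset _ _).trans (Finset.subset_insert _ _)

theorem lr_sdiff {x : ℝ} (hx : x = σ.A ∨ x = σ.B) :
    insert x σ.C \ Tt σ = (insert x σ.C).filter (fun t => σ.f t = σ.A ∨ σ.f t = σ.B) := by
  ext t
  rw [Finset.mem_sdiff, Finset.mem_filter]
  constructor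
  · rintro ⟨h1, h2⟩
    refine ⟨h1, ?_⟩
    rcases Finset.mem_insert.mp h1 with h3 | h3
    · rw [h3]
      exact end_f hx
    · by_contra hcon
      push Not at hcon
      apply h2
      unfold Tt
      rw [Finset.mem_filter]
      exact ⟨h3, hcon⟩
  · rintro ⟨h1, h2⟩
    refine ⟨h1, ?_⟩
    unfold Tt
    rw [Finset.mem_filter]
    rintro ⟨-, h3, h4⟩
    exact h2.elim h3 h4

theorem lr_hL (n : ℕ) {x : ℝ} (hx : x = σ.A ∨ x = σ.B) :
    hL (insert x σ.C) (Tt σ) (σ.kap n x) (Tt σ).card =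
      σ.cf x σ.A * σ.u n σ.A + σ.cf x σ.B * σ.u n σ.B := by
  unfold hL
  rw [Nat.sub_self, lr_deg0, lr_sdiff hx, Finset.filter_or, Finset.sum_union]
  · unfold cf
    rw [Finset.sum_mul, Finset.sum_mul]
    congr 1
    · apply Finset.sum_congr rfl
      intro t ht
      rw [Finset.mem_filter] at ht
      rw [lr_kap, ht.2]; ring
    · apply Finset.sum_congr rfl
      intro t ht
      rw [Finset.mem_filter] at ht
      rw [lr_kap, ht.2]; ring
  · rw [Finset.disjoint_left]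
    intro t h1 h2
    rw [Finset.mem_filter] at h1 h2
    exact σ.hAB.ne (h1.2.symm.trans h2.2)

theorem lr_ratio_one {U : Ultrafilter ℕ} {n : ℕ → ℕ} {V : ℝ → ℝ} (h : LimF σ U n V)
    (zA : σ.A ∈ σ.Z) (zB : σ.B ∈ σ.Z) (hA : V σ.A = 0)
    (hB : V σ.B = 0) {x : ℝ} (hx : x = σ.A ∨ x = σ.B) (hd : (Tt σ).card < σ.d) :
    Tendsto (fun k => (σ.cf x σ.A * σ.u (n k) σ.A + σ.cf x σ.B * σ.u (n k) σ.B) /
      hh (insert x σ.C) (σ.kap (n k) x) (Tt σ).card) (U : Filter ℕ) (𝓝 1) := by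
  have hX := lr_X hx
  obtain ⟨c, hc, hcT⟩ := lr_lb (Tt σ) (fun t => σ.k0 x t * σ.dl (σ.f t)) (by
    intro t ht
    have h1 := lr_k0_pos hX (lr_sub x ht)
    unfold Tt at ht
    rw [Finset.mem_filter] at ht
    have h2 := dl_pos (X_crit ht.1) ht.2.1 ht.2.2
    positivity)
  obtain ⟨K, hK, hKle⟩ := hL_le (insert x σ.C) (Tt σ) (lr_sub x) hc
  set M : ℝ := ∑ t ∈ insert x σ.C, σ.k0 x t with hM
  have hM0 : 0 ≤ M := Finset.sum_nonneg (fun t ht => (lr_k0_pos hX ht).le)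
  have hMle : ∀ t ∈ insert x σ.C, σ.k0 x t ≤ M := fun t ht =>
    Finset.single_le_sum (f := fun t => σ.k0 x t) (fun t ht => (lr_k0_pos hX ht).le) ht
  set tt : ℕ → ℝ := fun k => M * (σ.u (n k) σ.A + σ.u (n k) σ.B) with htt
  have htt0 : Tendsto tt (U : Filter ℕ) (𝓝 0) := by
    have h1 := ((h.lim _ zA).add (h.lim _ zB)).const_mul M
    rw [hA, hB, add_zero, mul_zero] at h1
    exact h1
  have hpos : ∀ k, 0 < hh (insert x σ.C) (σ.kap (n k) x) (Tt σ).card := fun k =>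
    hh_pos (kap_pos (n k) hX) (by rw [card_ins hX]; exact hd)
  have hlow : ∀ k, 1 ≤ (σ.cf x σ.A * σ.u (n k) σ.A + σ.cf x σ.B * σ.u (n k) σ.B) /
      hh (insert x σ.C) (σ.kap (n k) x) (Tt σ).card := by
    intro k
    rw [one_le_div (hpos k), ← lr_hL (n k) hx]
    exact hh_le_hL (lr_sub x) (fun s hs => (kap_pos (n k) hX s hs).le) le_rfl
  have hup : ∀ k, (σ.cf x σ.A * σ.u (n k) σ.A + σ.cf x σ.B * σ.u (n k) σ.B) /
      hh (insert x σ.C) (σ.kap (n k) x) (Tt σ).card ≤ 1 + K * tt k * (1 + K * tt k) := by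
    intro k
    have hA0 := u_pos' (σ := σ) (n k) X_A
    have hB0 := u_pos' (σ := σ) (n k) X_B
    rw [div_le_iff₀ (hpos k), ← lr_hL (n k) hx]
    apply hKle _ le_rfl (by rw [card_ins hX]; exact hd.le) _ (kap_pos (n k) hX)
    · intro s hs
      rw [lr_kap]
      refine (hcT s hs).trans ?_
      have h1 := lr_k0_pos hX (lr_sub x hs)
      unfold Tt at hs
      rw [Finset.mem_filter] at hs
      exact mul_le_mul_of_nonneg_left (u_lo' (n k) (X_crit hs.1)) h1.le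
    · simp only [htt]; positivity
    · intro s hs hsT
      rw [lr_kap]
      have h1 : s ∈ insert x σ.C \ Tt σ := Finset.mem_sdiff.mpr ⟨hs, hsT⟩
      rw [lr_sdiff hx, Finset.mem_filter] at h1
      have h2 := hMle s hs
      have h3 := lr_k0_pos hX hs
      simp only [htt]
      rcases h1.2 with h4 | h4
      · rw [h4]
        calc σ.k0 x s * σ.u (n k) σ.A ≤ M * σ.u (n k) σ.A := by gcongr
          _ ≤ M * (σ.u (n k) σ.A + σ.u (n k) σ.B) := by
              apply mul_le_mul_of_nonneg_left _ hM0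
              linarith
      · rw [h4]
        calc σ.k0 x s * σ.u (n k) σ.B ≤ M * σ.u (n k) σ.B := by gcongr
          _ ≤ M * (σ.u (n k) σ.A + σ.u (n k) σ.B) := by
              apply mul_le_mul_of_nonneg_left _ hM0
              linarith
  have hlim : Tendsto (fun k => 1 + K * tt k * (1 + K * tt k)) (U : Filter ℕ) (𝓝 1) := by
    have h1 : Tendsto (fun k => 1 + K * tt k * (1 + K * tt k)) (U : Filter ℕ)
        (𝓝 (1 + K * 0 * (1 + K * 0))) := by
      have h2 := htt0.const_mul K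
      exact (h2.mul (h2.const_add 1)).const_add 1
    simpa using h1
  exact tendsto_of_tendsto_of_tendsto_of_le_of_le tendsto_const_nhds hlim hlow hup

/-- evolution of the ratio of two light end points -/
theorem light_rec (σ : Sys) (zA : σ.A ∈ σ.Z) (zB : σ.B ∈ σ.Z) : ∃ a b c d : ℝ, 0 < a ∧ 0 < b ∧ 0 < c ∧ 0 < d ∧
    ∀ (U : Ultrafilter ℕ) (n : ℕ → ℕ) (V : ℝ → ℝ), LimF σ U n V → V σ.A = 0 → V σ.B = 0 → (σ.TV V).card < σ.d →
    ∀ ρ : ℝ, 0 < ρ → Tendsto (fun k => σ.u (n k) σ.A / σ.u (n k) σ.B) (U : Filter ℕ) (𝓝 ρ) →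
      Tendsto (fun k => σ.u (σ.d * n k + (σ.TV V).card) σ.A / σ.u (σ.d * n k + (σ.TV V).card) σ.B)
        (U : Filter ℕ) (𝓝 ((a * ρ + b) / (c * ρ + d))) := by
  refine ⟨σ.cf σ.A σ.A, σ.cf σ.A σ.B, σ.cf σ.B σ.A, σ.cf σ.B σ.B,
    lr_cf_pos (Or.inl rfl) (Or.inl rfl) (lr_ends zA zB (Or.inl rfl)).1,
    lr_cf_pos (Or.inl rfl) (Or.inr rfl) (lr_ends zA zB (Or.inl rfl)).2,
    lr_cf_pos (Or.inr rfl) (Or.inl rfl) (lr_ends zA zB (Or.inr rfl)).1,
    lr_cf_pos (Or.inr rfl) (Or.inr rfl) (lr_ends zA zB (Or.inr rfl)).2, ?_⟩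
  intro U n V h hA hB hd ρ hρ hlim
  rw [lr_TV h hA hB] at hd ⊢
  have pAA := lr_cf_pos (σ := σ) (Or.inl rfl) (Or.inl rfl) (lr_ends zA zB (Or.inl rfl)).1
  have pAB := lr_cf_pos (σ := σ) (Or.inl rfl) (Or.inr rfl) (lr_ends zA zB (Or.inl rfl)).2
  have pBA := lr_cf_pos (σ := σ) (Or.inr rfl) (Or.inl rfl) (lr_ends zA zB (Or.inr rfl)).1
  have pBB := lr_cf_pos (σ := σ) (Or.inr rfl) (Or.inr rfl) (lr_ends zA zB (Or.inr rfl)).2
  have tA := lr_ratio_one h zA zB hA hB (Or.inl rfl) hd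
  have tB := lr_ratio_one h zA zB hA hB (Or.inr rfl) hd
  have tM : Tendsto (fun k => (σ.cf σ.A σ.A * (σ.u (n k) σ.A / σ.u (n k) σ.B) + σ.cf σ.A σ.B) /
      (σ.cf σ.B σ.A * (σ.u (n k) σ.A / σ.u (n k) σ.B) + σ.cf σ.B σ.B)) (U : Filter ℕ)
      (𝓝 ((σ.cf σ.A σ.A * ρ + σ.cf σ.A σ.B) / (σ.cf σ.B σ.A * ρ + σ.cf σ.B σ.B))) := by
    apply Tendsto.div
    · exact (hlim.const_mul _).add_const _
    · exact (hlim.const_mul _).add_const _
    · positivity
  have tT := (tA.inv₀ one_ne_zero).mul (tM.mul tB)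
  rw [inv_one, one_mul, mul_one] at tT
  refine tT.congr (fun k => ?_)
  have hA0 := u_pos' (σ := σ) (n k) X_A
  have hB0 := u_pos' (σ := σ) (n k) X_B
  have hposA : 0 < hh (insert σ.A σ.C) (σ.kap (n k) σ.A) (Tt σ).card :=
    hh_pos (kap_pos (n k) X_A) (by rw [card_ins X_A]; exact hd)
  have hposB : 0 < hh (insert σ.B σ.C) (σ.kap (n k) σ.B) (Tt σ).card :=
    hh_pos (kap_pos (n k) X_B) (by rw [card_ins X_B]; exact hd)
  have hg := gg_pos (σ := σ) (n k) hd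
  rw [u_eq (n k) hd X_A, u_eq (n k) hd X_B]
  have h1 : 0 < σ.cf σ.A σ.A * σ.u (n k) σ.A + σ.cf σ.A σ.B * σ.u (n k) σ.B := by positivity
  have h2 : 0 < σ.cf σ.B σ.A * σ.u (n k) σ.A + σ.cf σ.B σ.B * σ.u (n k) σ.B := by positivity
  have e1 : (σ.cf σ.A σ.A * (σ.u (n k) σ.A / σ.u (n k) σ.B) + σ.cf σ.A σ.B) =
      (σ.cf σ.A σ.A * σ.u (n k) σ.A + σ.cf σ.A σ.B * σ.u (n k) σ.B) / σ.u (n k) σ.B := by
    field_simp
  have e2 : (σ.cf σ.B σ.A * (σ.u (n k) σ.A / σ.u (n k) σ.B) + σ.cf σ.B σ.B) =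
      (σ.cf σ.B σ.A * σ.u (n k) σ.A + σ.cf σ.B σ.B * σ.u (n k) σ.B) / σ.u (n k) σ.B := by
    field_simp
  rw [e1, e2]
  generalize σ.cf σ.A σ.A * σ.u (n k) σ.A + σ.cf σ.A σ.B * σ.u (n k) σ.B = p at h1 ⊢
  generalize σ.cf σ.B σ.A * σ.u (n k) σ.A + σ.cf σ.B σ.B * σ.u (n k) σ.B = q at h2 ⊢
  field_simp

end light_rec_sec

/-! ### reset -/
section reset_sec

theorem reset_lb (T : Finset ℝ) (κ0 : ℝ → ℝ) (h : ∀ s ∈ T, 0 < κ0 s) :
    ∃ c : ℝ, 0 < c ∧ ∀ s ∈ T, c < κ0 s := by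
  rcases T.eq_empty_or_nonempty with hT | hT
  · exact ⟨1, one_pos, by simp [hT]⟩
  · obtain ⟨s0, hs0, hmin⟩ := T.exists_min_image κ0 hT
    refine ⟨κ0 s0 / 2, by linarith [h s0 hs0], fun s hs => ?_⟩
    have h1 := hmin s hs
    have h2 := h s0 hs0
    linarith

theorem reset_ev {ι : Type*} {F : Filter ι} {T : Finset ℝ} {κ : ι → ℝ → ℝ} {κ0 : ℝ → ℝ} {c : ℝ}
    (hc : ∀ s ∈ T, c < κ0 s) (h : ∀ s ∈ T, Tendsto (fun k => κ k s) F (𝓝 (κ0 s))) :
    ∀ᶠ k in F, ∀ s ∈ T, c ≤ κ k s := by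
  rw [Filter.eventually_all_finset]
  intro s hs
  exact ((h s hs).eventually (lt_mem_nhds (hc s hs))).mono fun _ h => h.le

theorem reset_kap (σ : Sys) {x : ℝ} (hx : σ.X x) {s : ℝ} (hs : s ∈ insert x σ.C) :
    ∃ w : ℝ, 0 < w ∧ ∀ n, σ.kap n x s = w * σ.u n (σ.f s) := by
  by_cases h : s = x
  · subst h
    exact ⟨σ.al / |(nod σ.C).eval s|, gm_pos hx, fun n => kap_self n s⟩
  · have hsC : s ∈ σ.C := (Finset.mem_insert.1 hs).resolve_left h
    refine ⟨σ.al / |(nod (σ.C.erase s)).eval s| / |x - s|, div_pos (wt_pos s) (abs_sub_pos hx hsC),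
      fun n => ?_⟩
    rw [kap_crit n hx hsC]
    unfold om
    ring

theorem reset_frac {w a b p q : ℝ} (hw : 0 < w) (ha : 0 < a) (hb : 0 < b) (hp : 0 < p) (hq : 0 < q) :
    (w * a) / (p / q * (w * b)) = (a * q) / (b * p) := by
  field_simp

theorem reset_ratio (σ : Sys) {U : Ultrafilter ℕ} {n m : ℕ → ℕ} {V : ℝ → ℝ} (h : LimF σ U n V)
    (h' : LimF σ U m V) {e0 : ℝ} (he0 : e0 ∈ σ.Z)
    (hr : ∀ e ∈ σ.Z, V e = 0 → Tendsto (fun k => (σ.u (m k) e * σ.u (n k) e0) / (σ.u (n k) e * σ.u (m k) e0))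
      (U : Filter ℕ) (𝓝 1)) {i : ℕ} (hid : i < σ.d) (hi : i ≠ (σ.TV V).card) {x : ℝ} (hx : x ∈ σ.Z) :
    Tendsto (fun k => σ.u (σ.d * m k + i) x / σ.u (σ.d * n k + i) x) (U : Filter ℕ) (𝓝 1) := by
  have hX : σ.X x := X_Z hx
  rcases Nat.lt_or_gt_of_ne hi with hlt | hgt
  · -- few nodes: positive limit
    have hT : i < (σ.TX V x).card := by
      rw [TX_card V hX]
      exact lt_of_lt_of_le hlt (Nat.le_add_right _ _)
    have h1 := hhk_pos' h.nn hx hT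
    have h2 := ggF_pos' (σ := σ) h.nn hlt.le
    have h3 := child_lim h hid hlt.le hx
    have h4 := child_lim h' hid hlt.le hx
    have h5 : hh (insert x σ.C) (σ.kapF V x) i / σ.ggF V i ≠ 0 := (div_pos h1 h2).ne'
    have h6 := h4.div h3 h5
    rw [div_self h5] at h6
    exact h6
  · -- many nodes
    let r : ℕ → ℝ := fun k => σ.u (m k) e0 / σ.u (n k) e0
    have hrp : ∀ k, 0 < r k := fun k => div_pos (uZ_pos (m k) e0 he0) (uZ_pos (n k) e0 he0)
    have hratio : ∀ e ∈ σ.Z, V e = 0 → ∀ w : ℝ, 0 < w →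
        Tendsto (fun k => (w * σ.u (m k) e) / (r k * (w * σ.u (n k) e))) (U : Filter ℕ) (𝓝 1) := by
      intro e he hVe w hw
      refine (hr e he hVe).congr fun k => ?_
      exact (reset_frac hw (uZ_pos (m k) e he) (uZ_pos (n k) e he) (uZ_pos (m k) e0 he0)
        (uZ_pos (n k) e0 he0)).symm
    -- first ratio
    have hA : Tendsto (fun k => hh (insert x σ.C) (σ.kap (m k) x) i /
        (r k * hh (insert x σ.C) (σ.kap (n k) x) i)) (U : Filter ℕ) (𝓝 1) := by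
      have hTS : σ.TX V x ⊆ insert x σ.C := Finset.filter_subset _ _
      have hTi : (σ.TX V x).card ≤ i := by
        rw [TX_card V hX]
        split_ifs <;> omega
      have hiS : i < (insert x σ.C).card := by rw [card_ins hX]; exact hid
      obtain ⟨c, hc, hcT⟩ := reset_lb (σ.TX V x) (σ.kapF V x) (kapF_pos' h.nn hx)
      have tn : ∀ t ∈ insert x σ.C, Tendsto (fun k => σ.kap (n k) x t) (U : Filter ℕ)
          (𝓝 (σ.kapF V x t)) := by
        intro t ht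
        have := kapF_tendsto (σ := σ) (F := (U : Filter ℕ)) (v := fun k => σ.u (n k)) h.lim hx t ht
        simpa only [kap_eq] using this
      have tm : ∀ t ∈ insert x σ.C, Tendsto (fun k => σ.kap (m k) x t) (U : Filter ℕ)
          (𝓝 (σ.kapF V x t)) := by
        intro t ht
        have := kapF_tendsto (σ := σ) (F := (U : Filter ℕ)) (v := fun k => σ.u (m k)) h'.lim hx t ht
        simpa only [kap_eq] using this
      have hV0 : ∀ s ∈ insert x σ.C, s ∉ σ.TX V x → V (σ.f s) = 0 := by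
        intro s hs hsT
        by_contra hne
        exact hsT (Finset.mem_filter.2 ⟨hs, hne⟩)
      refine hh_ratio_light (κ := fun k => σ.kap (n k) x) (κ' := fun k => σ.kap (m k) x) hTS hTi hiS hc
        (fun k => kap_pos (n k) hX) (fun k => kap_pos (m k) hX)
        (reset_ev hcT fun s hs => tn s (hTS hs)) (reset_ev hcT fun s hs => tm s (hTS hs)) ?_ ?_ hrp ?_
      · intro s hs hsT
        have := tn s hs
        rwa [kapF_zero (hV0 s hs hsT)] at this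
      · intro s hs hsT
        have := tm s hs
        rwa [kapF_zero (hV0 s hs hsT)] at this
      · intro s hs hsT
        obtain ⟨w, hw, hwk⟩ := reset_kap σ hX hs
        simp only [hwk]
        exact hratio (σ.f s) (f_Z' hx hs) (hV0 s hs hsT) w hw
    -- second ratio
    have hB : Tendsto (fun k => σ.gg (m k) i / (r k * σ.gg (n k) i)) (U : Filter ℕ) (𝓝 1) := by
      obtain ⟨j, rfl⟩ : ∃ j, i = j + 1 := ⟨i - 1, by omega⟩
      have hgg : ∀ N, σ.gg N (j + 1) = hh σ.C (σ.om N) j := fun N => rfl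
      simp only [hgg]
      have hTS : σ.TV V ⊆ σ.C := Finset.filter_subset _ _
      have hTi : (σ.TV V).card ≤ j := by omega
      have hiS : j < σ.C.card := by
        have := σ.hC
        omega
      obtain ⟨c, hc, hcT⟩ := reset_lb (σ.TV V) (σ.omF V) (omF_pos' h.nn)
      have tn : ∀ t ∈ σ.C, Tendsto (fun k => σ.om (n k) t) (U : Filter ℕ)
          (𝓝 (σ.omF V t)) := by
        intro t ht
        have := omF_tendsto (σ := σ) (F := (U : Filter ℕ)) (v := fun k => σ.u (n k)) h.lim t ht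
        simpa only [om_eq] using this
      have tm : ∀ t ∈ σ.C, Tendsto (fun k => σ.om (m k) t) (U : Filter ℕ)
          (𝓝 (σ.omF V t)) := by
        intro t ht
        have := omF_tendsto (σ := σ) (F := (U : Filter ℕ)) (v := fun k => σ.u (m k)) h'.lim t ht
        simpa only [om_eq] using this
      have hV0 : ∀ s ∈ σ.C, s ∉ σ.TV V → V (σ.f s) = 0 := by
        intro s hs hsT
        by_contra hne
        exact hsT (Finset.mem_filter.2 ⟨hs, hne⟩)
      refine hh_ratio_light (κ := fun k => σ.om (n k)) (κ' := fun k => σ.om (m k)) hTS hTi hiS hc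
        (fun k s hs => om_pos (n k) hs) (fun k s hs => om_pos (m k) hs)
        (reset_ev hcT fun s hs => tn s (hTS hs)) (reset_ev hcT fun s hs => tm s (hTS hs)) ?_ ?_ hrp ?_
      · intro s hs hsT
        have := tn s hs
        rwa [omF_zero (hV0 s hs hsT)] at this
      · intro s hs hsT
        have := tm s hs
        rwa [omF_zero (hV0 s hs hsT)] at this
      · intro s hs hsT
        exact hratio (σ.f s) (crit_Z hs) (hV0 s hs hsT) _ (wt_pos s)
    have hC := hA.div hB one_ne_zero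
    rw [div_one] at hC
    refine hC.congr fun k => ?_
    have p1 : 0 < r k := hrp k
    have p2 : 0 < σ.gg (m k) i := gg_pos (m k) hid
    have p3 : 0 < σ.gg (n k) i := gg_pos (n k) hid
    have p4 : 0 < hh (insert x σ.C) (σ.kap (n k) x) i :=
      hh_pos (kap_pos (n k) hX) (by rw [card_ins hX]; exact hid)
    simp only [Pi.div_apply]
    rw [u_eq (m k) hid hX, u_eq (n k) hid hX]
    field_simp

/-- leaving a degenerate run -/
theorem reset (σ : Sys) {U : Ultrafilter ℕ} {n m : ℕ → ℕ} {V : ℝ → ℝ} (h : LimF σ U n V) (h' : LimF σ U m V)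
    {e0 : ℝ} (he0 : e0 ∈ σ.Z) (hV0 : V e0 = 0)
    (hr : ∀ e ∈ σ.Z, V e = 0 → Tendsto (fun k => (σ.u (m k) e * σ.u (n k) e0) / (σ.u (n k) e * σ.u (m k) e0))
      (U : Filter ℕ) (𝓝 1)) {i : ℕ} (hid : i < σ.d) (hi : i ≠ (σ.TV V).card) :
    Tendsto (fun k => σ.Th (σ.d * n k + i) (σ.d * m k + i)) (U : Filter ℕ) (𝓝 1) := by
  have _ := hV0
  have hx1 : ∀ z ∈ σ.Z, Tendsto (fun k => σ.u (σ.d * m k + i) z / σ.u (σ.d * n k + i) z)
      (U : Filter ℕ) (𝓝 1) := fun z hz => reset_ratio σ h h' he0 hr hid hi hz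
  have hx2 : ∀ z ∈ σ.Z, Tendsto (fun k => σ.u (σ.d * n k + i) z / σ.u (σ.d * m k + i) z)
      (U : Filter ℕ) (𝓝 1) := by
    intro z hz
    have := (hx1 z hz).inv₀ one_ne_zero
    rw [inv_one] at this
    refine this.congr fun k => ?_
    rw [inv_div]
  have s1 : Tendsto (fun k => σ.Sp (σ.d * n k + i) (σ.d * m k + i)) (U : Filter ℕ) (𝓝 1) :=
    Sp_tendsto_one (n := fun k => σ.d * n k + i) (m := fun k => σ.d * m k + i) hx1
  have s2 : Tendsto (fun k => σ.Sp (σ.d * m k + i) (σ.d * n k + i)) (U : Filter ℕ) (𝓝 1) :=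
    Sp_tendsto_one (n := fun k => σ.d * m k + i) (m := fun k => σ.d * n k + i) hx2
  have s3 := s1.mul s2
  rw [one_mul] at s3
  exact s3

end reset_sec

/-! ### good_run -/
section good_run_sec

theorem gr_shift {d n j s : ℕ} (h : (n / d ^ j) % d = s) : n / d ^ j = d * (n / d ^ (j + 1)) + s := by
  rw [pow_succ, ← Nat.div_div_eq_div_mul, ← h]
  exact (Nat.div_add_mod _ _).symm

/-- light points of the reference run -/
def LL (σ : Sys) (s : ℕ) : Set ℝ := {z | Tendsto (fun r => σ.u (σ.rn s 0 r) z) atTop (𝓝 0)}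

theorem gr_base (σ : Sys) {s : ℕ} (hs1 : 1 ≤ s) (hs : s < σ.d) (hD : σ.Deg s) {U : Ultrafilter ℕ}
    {n : ℕ → ℕ} (hn : ∀ j : ℕ, ∀ᶠ k in (U : Filter ℕ), (n k / σ.d ^ j) % σ.d = s)
    {V : ℕ → ℝ → ℝ} (hV : ∀ j, LimF σ U (fun k => n k / σ.d ^ j) (V j)) :
    (∀ j, ∀ z ∈ σ.Z, V j z = 0 ↔ z ∈ σ.LL s) ∧
    (∀ j, ∀ x ∈ σ.Z, x ∈ σ.LL s ↔ s = (σ.TV (V (j + 1))).card ∧ σ.f x ∈ σ.LL s) ∧
    (∀ j, s = (σ.TV (V (j + 1))).card) := by
  have h1 : ∀ j, ∀ z ∈ σ.Z, V j z = 0 ↔ z ∈ σ.LL s := by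
    intro j z hz
    rw [← (hV j).li_iff hz]
    exact deg_li σ hs1 hs hD hn j z hz
  have h2 : ∀ j, ∀ x ∈ σ.Z, x ∈ σ.LL s ↔ s = (σ.TV (V (j + 1))).card ∧ σ.f x ∈ σ.LL s := by
    intro j x hx
    have h3 := transfer (hV (j + 1)) hs hx
    rw [h1 (j + 1) _ (f_Z hx)] at h3
    rw [← h3, ← h1 j x hx, ← (hV j).li_iff hx]
    unfold Li
    apply tendsto_congr'
    filter_upwards [hn j] with k hk
    rw [gr_shift hk]
  refine ⟨h1, h2, ?_⟩
  obtain ⟨e0, he0, hL⟩ := (deg_lim σ hs1 hs hD).1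
  intro j
  exact ((h2 j e0 he0).mp hL).1

theorem gr_rc (σ : Sys) {s : ℕ} (hs1 : 1 ≤ s) (hs : s < σ.d) (hD : σ.Deg s) {U : Ultrafilter ℕ}
    {n : ℕ → ℕ} (hn : ∀ j : ℕ, ∀ᶠ k in (U : Filter ℕ), (n k / σ.d ^ j) % σ.d = s)
    {V : ℕ → ℝ → ℝ} (hV : ∀ j, LimF σ U (fun k => n k / σ.d ^ j) (V j)) {c0 : ℝ}
    (hc0 : ∀ (U : Ultrafilter ℕ) (n : ℕ → ℕ) (V : ℝ → ℝ), LimF σ U n V →
      (∃ z ∈ σ.Z, V z = 0) → ∀ z ∈ σ.Z, V z ≠ 0 → c0 ≤ V z) :
    RC σ (σ.LL s) c0 V := by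
  obtain ⟨h1, h2, h3⟩ := gr_base σ hs1 hs hD hn hV
  obtain ⟨e0, he0, hL⟩ := (deg_lim σ hs1 hs hD).1
  refine ⟨?_, ?_, ?_, ?_, ?_, ?_⟩
  · intro j z hz hzL
    exact (h1 j z hz).mpr hzL
  · intro j z hz hzL
    apply hc0 U _ (V j) (hV j) ⟨e0, he0, (h1 j e0 he0).mpr hL⟩ z hz
    intro h
    exact hzL ((h1 j z hz).mp h)
  · intro j
    exact (hV j).lo
  · intro j
    exact (hV j).hi
  · intro j x hx
    have hX := X_Z hx
    have hlim := hhk_tendsto (σ := σ) (fun k => uZ_pos (n k / σ.d ^ j)) (hV j).nn (hV j).lim hx 0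
    apply ge_of_tendsto' hlim
    intro k
    have h4 := renorm (σ := σ) (n k / σ.d ^ j) (i := 0) dpos hX
    have h5 := u_lo' (σ := σ) (σ.d * (n k / σ.d ^ j) + 0) hX
    have h6 : σ.gg (n k / σ.d ^ j) 0 = 1 := rfl
    rw [h6, mul_one] at h4
    rw [h4, kap_eq] at h5
    exact h5
  · intro j x hx
    have hs' := h3 j
    rw [← hs']
    have h4 := child_lim (hV (j + 1)) hs (le_of_eq hs') hx
    have h5 : Tendsto (fun k => σ.u (σ.d * (n k / σ.d ^ (j + 1)) + s) x) (U : Filter ℕ) (𝓝 (V j x)) := by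
      refine ((hV j).lim x hx).congr' ?_
      filter_upwards [hn j] with k hk
      rw [gr_shift hk]
    have h6 := tendsto_nhds_unique h5 h4
    have h7 := ggF_pos' (hV (j + 1)).nn (le_of_eq hs')
    rw [h6, div_mul_cancel₀ _ h7.ne']

/-- ratios of the light end points -/
theorem gr_ratio (σ : Sys) (zA : σ.A ∈ σ.Z) (zB : σ.B ∈ σ.Z) {s : ℕ} (hs1 : 1 ≤ s) (hs : s < σ.d)
    (hD : σ.Deg s) {U : Ultrafilter ℕ} (hA : σ.A ∈ σ.LL s) (hB : σ.B ∈ σ.LL s) {K : ℝ} (hK : 0 < K)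
    (hcmp : ∀ (U : Ultrafilter ℕ) (n : ℕ → ℕ), ∀ e ∈ σ.Z, ∀ e' ∈ σ.Z,
      σ.Li U n e → σ.Li U n e' → ∀ᶠ k in (U : Filter ℕ), σ.u (n k) e ≤ K * σ.u (n k) e')
    {a b c d : ℝ} (hrec : ∀ (U : Ultrafilter ℕ) (n : ℕ → ℕ) (V : ℝ → ℝ), LimF σ U n V →
      V σ.A = 0 → V σ.B = 0 → (σ.TV V).card < σ.d →
    ∀ ρ : ℝ, 0 < ρ → Tendsto (fun k => σ.u (n k) σ.A / σ.u (n k) σ.B) (U : Filter ℕ) (𝓝 ρ) →
      Tendsto (fun k => σ.u (σ.d * n k + (σ.TV V).card) σ.A / σ.u (σ.d * n k + (σ.TV V).card) σ.B)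
        (U : Filter ℕ) (𝓝 ((a * ρ + b) / (c * ρ + d))))
    {n : ℕ → ℕ} (hn : ∀ j : ℕ, ∀ᶠ k in (U : Filter ℕ), (n k / σ.d ^ j) % σ.d = s)
    {V : ℕ → ℝ → ℝ} (hV : ∀ j, LimF σ U (fun k => n k / σ.d ^ j) (V j)) :
    ∃ ρ : ℕ → ℝ, (∀ j, 1 / max K 1 ≤ ρ j ∧ ρ j ≤ max K 1) ∧
      (∀ j, Tendsto (fun k => σ.u (n k / σ.d ^ j) σ.A / σ.u (n k / σ.d ^ j) σ.B) (U : Filter ℕ)
        (𝓝 (ρ j))) ∧
      ∀ j, ρ j = (a * ρ (j + 1) + b) / (c * ρ (j + 1) + d) := by
  obtain ⟨h1, h2, h3⟩ := gr_base σ hs1 hs hD hn hV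
  have hKp : 0 < max K 1 := lt_of_lt_of_le one_pos (le_max_right _ _)
  have hliA : ∀ j, σ.Li U (fun k => n k / σ.d ^ j) σ.A := fun j =>
    ((hV j).li_iff zA).mpr ((h1 j _ zA).mpr hA)
  have hliB : ∀ j, σ.Li U (fun k => n k / σ.d ^ j) σ.B := fun j =>
    ((hV j).li_iff zB).mpr ((h1 j _ zB).mpr hB)
  have hex : ∀ j, ∃ l, 1 / max K 1 ≤ l ∧ l ≤ max K 1 ∧
      Tendsto (fun k => σ.u (n k / σ.d ^ j) σ.A / σ.u (n k / σ.d ^ j) σ.B) (U : Filter ℕ) (𝓝 l) := by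
    intro j
    apply ulim_exists
    filter_upwards [hcmp U _ σ.A zA σ.B zB (hliA j) (hliB j),
      hcmp U _ σ.B zB σ.A zA (hliB j) (hliA j)] with k hk1 hk2
    have pA := u_pos' (σ := σ) (n k / σ.d ^ j) X_A
    have pB := u_pos' (σ := σ) (n k / σ.d ^ j) X_B
    constructor
    · rw [div_le_div_iff₀ hKp pB, one_mul]
      refine hk2.trans ?_
      rw [mul_comm]
      exact mul_le_mul_of_nonneg_left (le_max_left _ _) pA.le
    · rw [div_le_iff₀ pB]
      exact hk1.trans (mul_le_mul_of_nonneg_right (le_max_left _ _) pB.le)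
  choose ρ hρ1 hρ2 hρ3 using hex
  refine ⟨ρ, fun j => ⟨hρ1 j, hρ2 j⟩, hρ3, ?_⟩
  intro j
  have hρpos : 0 < ρ (j + 1) := lt_of_lt_of_le (by positivity) (hρ1 (j + 1))
  have h4 := hrec U _ (V (j + 1)) (hV (j + 1)) ((h1 (j + 1) _ zA).mpr hA)
    ((h1 (j + 1) _ zB).mpr hB) (by rw [← h3 j]; exact hs) (ρ (j + 1)) hρpos (hρ3 (j + 1))
  rw [← h3 j] at h4
  have h5 : Tendsto (fun k => σ.u (σ.d * (n k / σ.d ^ (j + 1)) + s) σ.A /
      σ.u (σ.d * (n k / σ.d ^ (j + 1)) + s) σ.B) (U : Filter ℕ) (𝓝 (ρ j)) := by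
    refine (hρ3 j).congr' ?_
    filter_upwards [hn j] with k hk
    rw [gr_shift hk]
  exact tendsto_nhds_unique h5 h4

theorem gr_tendsto_div {U : Ultrafilter ℕ} {a b : ℕ → ℝ} {v : ℝ} (hv : 0 < v)
    (ha : Tendsto a (U : Filter ℕ) (𝓝 v)) (hb : Tendsto b (U : Filter ℕ) (𝓝 v)) :
    Tendsto (fun k => a k / b k) (U : Filter ℕ) (𝓝 1) := by
  have := ha.div hb hv.ne'
  rwa [div_self hv.ne'] at this

/-- after a long run of a degenerate digit the state is almost determined -/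
theorem good_run (σ : Sys) {ε : ℝ} (hε : 0 < ε) : ∃ W : ℕ, ∀ n m s : ℕ, 1 ≤ s → s < σ.d → σ.Deg s →
    (∀ j < W, (n / σ.d ^ j) % σ.d = s ∧ (m / σ.d ^ j) % σ.d = s) →
    (|σ.u n (σ.B + 1) / σ.u m (σ.B + 1) - 1| ≤ ε ∧ |σ.u n (σ.A - 1) / σ.u m (σ.A - 1) - 1| ≤ ε) ∧
    ∀ i < σ.d, i ≠ s → σ.Th (σ.d * n + i) (σ.d * m + i) ≤ 1 + ε := by
  classical
  by_contra hcon
  push Not at hcon
  choose n m s' hs1' hs' hD' hdig hbad using hcon
  set U : Ultrafilter ℕ := hyperfilter ℕ with hU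
  have hUtop : (U : Filter ℕ) ≤ atTop := Nat.hyperfilter_le_atTop
  obtain ⟨s, hsd, hsU⟩ := udigit U dpos s'
  have hsU' : ∀ᶠ k in (U : Filter ℕ), s' k = s := by
    filter_upwards [hsU] with k hk
    rw [← hk, Nat.mod_eq_of_lt (hs' k)]
  obtain ⟨k0, hk0⟩ := hsU'.exists
  have hs1 : 1 ≤ s := by
    rw [← hk0]
    exact hs1' k0
  have hD : σ.Deg s := by
    rw [← hk0]
    exact hD' k0
  have hdn : ∀ j : ℕ, ∀ᶠ k in (U : Filter ℕ), (n k / σ.d ^ j) % σ.d = s := by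
    intro j
    filter_upwards [hsU', hUtop (eventually_gt_atTop j)] with k hk1 hk2
    rw [(hdig k j hk2).1, hk1]
  have hdm : ∀ j : ℕ, ∀ᶠ k in (U : Filter ℕ), (m k / σ.d ^ j) % σ.d = s := by
    intro j
    filter_upwards [hsU', hUtop (eventually_gt_atTop j)] with k hk1 hk2
    rw [(hdig k j hk2).2, hk1]
  choose V hV using fun j : ℕ => exists_limF (σ := σ) U (fun k => n k / σ.d ^ j)
  choose V' hV' using fun j : ℕ => exists_limF (σ := σ) U (fun k => m k / σ.d ^ j)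
  obtain ⟨c0, hc0, hheavy⟩ := heavy_lo σ
  obtain ⟨a1, a2, a3⟩ := gr_base σ hs1 hsd hD hdn hV
  have hRC := gr_rc σ hs1 hsd hD hdn hV hheavy
  have hRC' := gr_rc σ hs1 hsd hD hdm hV' hheavy
  have hfL : ∀ x ∈ σ.Z, x ∉ σ.LL s → σ.f x ∉ σ.LL s := by
    intro x hx hxL hfx
    exact hxL ((a2 0 x hx).mpr ⟨a3 0, hfx⟩)
  have hVV := rc_unique σ hc0 hfL hRC hRC'
  have hV0 : LimF σ U n (V 0) := by
    have := hV 0
    simpa using this
  have hV0' : LimF σ U m (V 0) := by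
    have h := hV' 0
    simp only [pow_zero, Nat.div_one] at h
    refine ⟨hV0.nn, hV0.lo, hV0.hi, ?_⟩
    intro z hz
    rw [hVV z hz]
    exact h.lim z hz
  -- the ratios at the outer points
  have hdlB : σ.dl (σ.B + 1) = 1 := by
    unfold dl
    have := w_pos (σ := σ)
    rw [max_eq_left (by linarith)]
    ring
  have hdlA : σ.dl (σ.A - 1) = 1 := by
    unfold dl
    have := w_pos (σ := σ)
    rw [max_eq_right (by linarith)]
    ring
  have hclose : ∀ z ∈ σ.Z, σ.dl z = 1 →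
      ∀ᶠ k in (U : Filter ℕ), |σ.u (n k) z / σ.u (m k) z - 1| ≤ ε := by
    intro z hz hdl
    have hvp : 0 < V 0 z := by
      have := hV0.lo z hz
      rw [hdl] at this
      linarith
    have h1 := gr_tendsto_div hvp (hV0.lim z hz) (hV0'.lim z hz)
    have h2 : ∀ᶠ k in (U : Filter ℕ), dist (σ.u (n k) z / σ.u (m k) z) 1 < ε :=
      (Metric.tendsto_nhds.mp h1) ε hε
    filter_upwards [h2] with k hk
    rw [Real.dist_eq] at hk
    exact hk.le
  have hex : ∀ᶠ k in (U : Filter ℕ), ∃ i, i < σ.d ∧ i ≠ s ∧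
      1 + ε < σ.Th (σ.d * n k + i) (σ.d * m k + i) := by
    filter_upwards [hclose _ B1_Z hdlB, hclose _ A1_Z hdlA, hsU'] with k hk1 hk2 hk3
    obtain ⟨i, hi1, hi2, hi3⟩ := hbad k ⟨hk1, hk2⟩
    exact ⟨i, hi1, by rw [← hk3]; exact hi2, hi3⟩
  let iF : ℕ → ℕ := fun k => if h : ∃ i, i < σ.d ∧ i ≠ s ∧
      1 + ε < σ.Th (σ.d * n k + i) (σ.d * m k + i) then h.choose else 0
  obtain ⟨i0, hi0d, hi0U⟩ := udigit U (dpos (σ := σ)) iF
  have hi0 : ∀ᶠ k in (U : Filter ℕ), i0 ≠ s ∧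
      1 + ε < σ.Th (σ.d * n k + i0) (σ.d * m k + i0) := by
    filter_upwards [hex, hi0U] with k hk1 hk2
    have h1 : iF k = hk1.choose := dif_pos hk1
    obtain ⟨b1, b2, b3⟩ := hk1.choose_spec
    rw [← h1] at b1 b2 b3
    rw [Nat.mod_eq_of_lt b1] at hk2
    rw [hk2] at b2 b3
    exact ⟨b2, b3⟩
  obtain ⟨k1, hk1⟩ := hi0.exists
  have hi0s : i0 ≠ s := hk1.1
  have hTV : (σ.TV (V 0)).card = s := by
    have e : σ.TV (V 0) = σ.TV (V 1) := by
      unfold TV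
      apply Finset.filter_congr
      intro c hc
      rw [Ne, Ne, a1 0 _ (crit_Z hc), a1 1 _ (crit_Z hc)]
    rw [e]
    exact (a3 0).symm
  obtain ⟨e0, he0, hL0⟩ := (deg_lim σ hs1 hsd hD).1
  have hV00 : V 0 e0 = 0 := (a1 0 e0 he0).mpr hL0
  have hratio : σ.A ∈ σ.Z → σ.B ∈ σ.Z → V 0 σ.A = 0 → V 0 σ.B = 0 →
      ∃ ρ : ℝ, 0 < ρ ∧
        Tendsto (fun k => σ.u (n k) σ.A / σ.u (n k) σ.B) (U : Filter ℕ) (𝓝 ρ) ∧
        Tendsto (fun k => σ.u (m k) σ.A / σ.u (m k) σ.B) (U : Filter ℕ) (𝓝 ρ) := by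
    intro zA zB vA vB
    obtain ⟨K, hK, hcmp⟩ := light_cmp σ
    obtain ⟨a, b, c, d, ha, hb, hc, hd, hrec⟩ := light_rec σ zA zB
    have hAL : σ.A ∈ σ.LL s := (a1 0 _ zA).mp vA
    have hBL : σ.B ∈ σ.LL s := (a1 0 _ zB).mp vB
    obtain ⟨ρ, r1, r2, r3⟩ := gr_ratio σ zA zB hs1 hsd hD hAL hBL hK hcmp hrec hdn hV
    obtain ⟨ρ', r1', r2', r3'⟩ := gr_ratio σ zA zB hs1 hsd hD hAL hBL hK hcmp hrec hdm hV'
    have hKp : 0 < max K 1 := lt_of_lt_of_le one_pos (le_max_right _ _)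
    have h0 : ρ 0 = ρ' 0 := mob ha hb hc hd (le_max_right K 1) r1 r1' r3 r3'
    refine ⟨ρ 0, lt_of_lt_of_le (by positivity) (r1 0).1, ?_, ?_⟩
    · have := r2 0
      simpa using this
    · rw [h0]
      have := r2' 0
      simpa using this
  have hr : ∀ e ∈ σ.Z, V 0 e = 0 → Tendsto (fun k => (σ.u (m k) e * σ.u (n k) e0) /
      (σ.u (n k) e * σ.u (m k) e0)) (U : Filter ℕ) (𝓝 1) := by
    intro e he hVe
    by_cases hee : e = e0
    · subst hee
      have : ∀ k, (σ.u (m k) e * σ.u (n k) e) / (σ.u (n k) e * σ.u (m k) e) = 1 := by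
        intro k
        have p1 := uZ_pos (σ := σ) (n k) e he
        have p2 := uZ_pos (σ := σ) (m k) e he
        rw [mul_comm, div_self (mul_pos p1 p2).ne']
      simp only [this]
      exact tendsto_const_nhds
    · have hend : e = σ.A ∨ e = σ.B := hV0.end_of_zero he hVe
      have hend0 : e0 = σ.A ∨ e0 = σ.B := hV0.end_of_zero he0 hV00
      rcases hend with h | h
      · rcases hend0 with h0 | h0
        · exact absurd (h.trans h0.symm) hee
        · subst h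
          subst h0
          obtain ⟨ρ, hρ, t1, t2⟩ := hratio he he0 hVe hV00
          have h5 := gr_tendsto_div hρ t2 t1
          refine h5.congr ?_
          intro k
          have p1 := uZ_pos (σ := σ) (n k) _ he
          have p2 := uZ_pos (σ := σ) (m k) _ he
          have p3 := uZ_pos (σ := σ) (n k) _ he0
          have p4 := uZ_pos (σ := σ) (m k) _ he0
          field_simp
      · rcases hend0 with h0 | h0
        · subst h
          subst h0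
          obtain ⟨ρ, hρ, t1, t2⟩ := hratio he0 he hV00 hVe
          have h5 := gr_tendsto_div hρ t1 t2
          refine h5.congr ?_
          intro k
          have p1 := uZ_pos (σ := σ) (n k) _ he
          have p2 := uZ_pos (σ := σ) (m k) _ he
          have p3 := uZ_pos (σ := σ) (n k) _ he0
          have p4 := uZ_pos (σ := σ) (m k) _ he0
          field_simp
        · exact absurd (h.trans h0.symm) hee
  have hfin := reset σ hV0 hV0' he0 hV00 hr hi0d (by rw [hTV]; exact hi0s)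
  have hlt : ∀ᶠ k in (U : Filter ℕ), σ.Th (σ.d * n k + i0) (σ.d * m k + i0) < 1 + ε :=
    hfin.eventually_lt_const (by linarith)
  obtain ⟨k2, hk2, hk3⟩ := (hlt.and hi0).exists
  exact absurd hk2 (not_lt.mpr hk3.2.le)

end good_run_sec

/-! ### main_lp -/
section main_lp_sec

theorem ml_close {ε : ℝ} (hε : 0 < ε) {n m : ℕ} (h : σ.Th n m ≤ 1 + ε) {z : ℝ}
    (hz : z ∈ σ.Z) : |σ.u n z / σ.u m z - 1| ≤ ε := by
  have hX := X_Z hz
  have hn := u_pos' (σ := σ) n hX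
  have hm := u_pos' (σ := σ) m hX
  have h1 : σ.u n z ≤ σ.Sp m n * σ.u m z := le_Sp m n hz
  have h2 : σ.u m z ≤ σ.Sp n m * σ.u n z := le_Sp n m hz
  have h3 := Sp_le_Th (σ := σ) n m
  have h4 := Sp_le_Th' (σ := σ) n m
  have h5 : σ.u n z ≤ (1 + ε) * σ.u m z :=
    h1.trans (mul_le_mul_of_nonneg_right (h4.trans h) hm.le)
  have h6 : σ.u m z ≤ (1 + ε) * σ.u n z :=
    h2.trans (mul_le_mul_of_nonneg_right (h3.trans h) hn.le)
  rw [abs_le]
  constructor
  · have h7 : 1 - ε ≤ σ.u n z / σ.u m z := by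
      rw [le_div_iff₀ hm]
      rcases le_total 1 ε with h8 | h8
      · have : (1 - ε) * σ.u m z ≤ 0 := mul_nonpos_of_nonpos_of_nonneg (by linarith) hm.le
        linarith
      · have h9 : (1 - ε) * σ.u m z ≤ (1 - ε) * ((1 + ε) * σ.u n z) :=
          mul_le_mul_of_nonneg_left h6 (by linarith)
        have h10 : (1 - ε) * ((1 + ε) * σ.u n z) = σ.u n z - ε ^ 2 * σ.u n z := by ring
        have h11 : 0 ≤ ε ^ 2 * σ.u n z := by positivity
        linarith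
    linarith
  · have h7 : σ.u n z / σ.u m z ≤ 1 + ε := by
      rw [div_le_iff₀ hm]; exact h5
    linarith

theorem ml_digit {d n m s : ℕ} (h : n % d ^ s = m % d ^ s) {j : ℕ} (hj : j < s) :
    (n / d ^ j) % d = (m / d ^ j) % d := by
  have hdvd : d ^ (j + 1) ∣ d ^ s := pow_dvd_pow d hj
  have h1 : n % d ^ (j + 1) = m % d ^ (j + 1) := by
    rw [← Nat.mod_mod_of_dvd n hdvd, h, Nat.mod_mod_of_dvd m hdvd]
  rw [pow_succ] at h1
  rw [← Nat.mod_mul_right_div_self n, ← Nat.mod_mul_right_div_self m, h1]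

theorem ml_mod {d n m s : ℕ} (h : n % d ^ s = m % d ^ s) {j : ℕ} (hj : j ≤ s) :
    n % d ^ j = m % d ^ j := by
  have hdvd : d ^ j ∣ d ^ s := pow_dvd_pow d hj
  rw [← Nat.mod_mod_of_dvd n hdvd, h, Nat.mod_mod_of_dvd m hdvd]

theorem main_lp (σ : Sys) : ∀ ε : ℝ, 0 < ε → ∃ s : ℕ, ∀ n m : ℕ, n % σ.d ^ s = m % σ.d ^ s →
    |σ.u n (σ.B + 1) / σ.u m (σ.B + 1) - 1| ≤ ε ∧ |σ.u n (σ.A - 1) / σ.u m (σ.A - 1) - 1| ≤ ε := by
  intro ε hε
  obtain ⟨W, hW⟩ := good_run σ hε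
  obtain ⟨c, hc, hsr⟩ := small_run σ W
  obtain ⟨k, hk⟩ := contraction (σ := σ) hc hε
  refine ⟨k + W, fun n m hnm => ?_⟩
  have hfin : σ.Th n m ≤ 1 + ε → |σ.u n (σ.B + 1) / σ.u m (σ.B + 1) - 1| ≤ ε ∧
      |σ.u n (σ.A - 1) / σ.u m (σ.A - 1) - 1| ≤ ε := fun h =>
    ⟨ml_close hε h B1_Z, ml_close hε h A1_Z⟩
  have hdig : ∀ j < k + W, (n / σ.d ^ j) % σ.d = (m / σ.d ^ j) % σ.d := fun j hj =>
    ml_digit hnm hj
  have hdig2 : ∀ j i, j ≤ k → i < W →
      ((n / σ.d ^ j) / σ.d ^ i) % σ.d = ((m / σ.d ^ j) / σ.d ^ i) % σ.d := by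
    intro j i hj hi
    rw [Nat.div_div_eq_div_mul, Nat.div_div_eq_div_mul, ← pow_add]
    exact hdig (j + i) (by omega)
  by_cases hQ : ∃ j, j ≤ k ∧ ∃ t, 1 ≤ t ∧ t < σ.d ∧ σ.Deg t ∧
      ∀ i < W, ((n / σ.d ^ j) / σ.d ^ i) % σ.d = t
  · classical
    obtain ⟨hjk, t, ht1, htd, hDt, hdt⟩ := Nat.find_spec hQ
    have hmin : ∀ j' < Nat.find hQ, ¬ (j' ≤ k ∧ ∃ t, 1 ≤ t ∧ t < σ.d ∧ σ.Deg t ∧
      ∀ i < W, ((n / σ.d ^ j') / σ.d ^ i) % σ.d = t) := fun j' hj' => Nat.find_min hQ hj'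
    generalize Nat.find hQ = j at hjk hdt hmin
    rcases j with _ | j'
    · refine (hW n m t ht1 htd hDt ?_).1
      intro i hi
      have h1 := hdt i hi
      rw [pow_zero, Nat.div_one] at h1
      exact ⟨h1, by rw [← hdig i (by omega)]; exact h1⟩
    · apply hfin
      have hne : (n / σ.d ^ j') % σ.d ≠ t := by
        intro heq
        refine hmin j' (by omega) ⟨by omega, t, ht1, htd, hDt, ?_⟩
        intro i hi
        rcases i with _ | i
        · rw [pow_zero, Nat.div_one]; exact heq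
        · have h1 := hdt i (by omega)
          rw [Nat.div_div_eq_div_mul, ← pow_add] at h1 ⊢
          rw [show j' + (i + 1) = j' + 1 + i by ring]
          exact h1
      have h2 := (hW (n / σ.d ^ (j' + 1)) (m / σ.d ^ (j' + 1)) t ht1 htd hDt (by
        intro i hi
        exact ⟨hdt i hi, by rw [← hdig2 (j' + 1) i hjk hi]; exact hdt i hi⟩)).2
        ((n / σ.d ^ j') % σ.d) (Nat.mod_lt _ dpos) hne
      have h3 : σ.d * (n / σ.d ^ (j' + 1)) + (n / σ.d ^ j') % σ.d = n / σ.d ^ j' := by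
        rw [pow_succ, ← Nat.div_div_eq_div_mul]
        exact Nat.div_add_mod _ _
      have h4 : σ.d * (m / σ.d ^ (j' + 1)) + (n / σ.d ^ j') % σ.d = m / σ.d ^ j' := by
        rw [hdig j' (by omega), pow_succ, ← Nat.div_div_eq_div_mul]
        exact Nat.div_add_mod _ _
      rw [h3, h4] at h2
      exact (Th_div (ml_mod hnm (by omega))).trans h2
  · push Not at hQ
    have hQ' : ∀ j ≤ k, ¬ ∃ t, 1 ≤ t ∧ t < σ.d ∧ σ.Deg t ∧
        ∀ i < W, ((n / σ.d ^ j) / σ.d ^ i) % σ.d = t := by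
      intro j hj ⟨t, h1, h2, h3, h4⟩
      obtain ⟨i, hi, hne⟩ := hQ j hj t h1 h2 h3
      exact hne (h4 i hi)
    apply hfin
    refine hk n m (ml_mod hnm (by omega)) ?_
    intro j hj
    constructor
    · by_contra hcon
      exact hQ' j hj (hsr _ hcon)
    · by_contra hcon
      obtain ⟨t, h1, h2, h3, h4⟩ := hsr _ hcon
      exact hQ' j hj ⟨t, h1, h2, h3, fun i hi => by rw [hdig2 j i hj hi]; exact h4 i hi⟩

end main_lp_sec


end Sys

end Pool.Agent.Helper368.BC
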