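import Mathlib
import Pool.Agent.Helper368.B3
import Pool.Agent.Helper368.A7

set_option autoImplicit false
set_option maxHeartbeats 4000000

open MeasureTheory Set Filter Topology ENNReal

namespace Pool.Agent.Helper368.AP

variable {γ : ℕ → ℝ}

/-- affine homeomorphism `[-1,1] → [0,1]` -/
noncomputable def aff : ℝ ≃ₜ ℝ := affineHomeomorph (1/2 : ℝ) (1/2) (by norm_num)

theorem aff_apply (t : ℝ) : aff t = (1 + t) / 2 := by
  show 1/2 * t + 1/2 = _
  ring

/-- step function of the problem -/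
noncomputable def stepf (γ : ℕ → ℝ) (y : ℝ) (k : ℕ) : ℝ :=
  if k = 0 then 2 * y * (y - 1) / γ 0 + 1 else (y ^ 2 - 1) / (2 * γ k) + 1

theorem foldl_eq (hγ : Adm γ) (s : ℕ) (t : ℝ) :
    List.foldl (fun (y : ℝ) (k : ℕ) => if k = 0 then 2 * y * (y - 1) / γ 0 + 1
      else (y ^ 2 - 1) / (2 * γ k) + 1) ((1 + t) / 2) (List.range (s + 1)) = TT γ (s + 1) t := by
  induction s with
  | zero =>
    have h0 := (hγ 0).1
    rw [TT_succ]
    show (if (0:ℕ) = 0 then 2 * ((1 + t) / 2) * ((1 + t) / 2 - 1) / γ 0 + 1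
      else (((1 + t) / 2) ^ 2 - 1) / (2 * γ 0) + 1) = _
    rw [if_pos rfl]
    unfold ff
    show _ = (t ^ 2 - 1) / (2 * γ 0) + 1
    field_simp
    ring
  | succ s ih =>
    rw [List.range_succ, List.foldl_append, ih, TT_succ γ (s + 1)]
    simp only [List.foldl_cons, List.foldl_nil]
    rw [if_neg (by omega)]
    rfl

/-- complement set of the problem -/
def bad (γ : ℕ → ℝ) : Set ℝ := {x : ℝ | ∃ s : ℕ, 1 < |List.foldl (fun (y : ℝ) (k : ℕ) => if k = 0 then 2 * y * (y - 1) / γ 0 + 1 else (y ^ 2 - 1) / (2 * γ k) + 1) x (List.range s)|}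

theorem bad_iff (hγ : Adm γ) (t : ℝ) : aff t ∈ bad γ ↔ t ∈ (KK γ)ᶜ := by
  rw [aff_apply]
  constructor
  · rintro ⟨s, hs⟩ hK
    rcases s with _ | s
    · have h0 : |t| ≤ 1 := hK 0
      have h1 : 1 < |(1 + t) / 2| := hs
      rw [abs_le] at h0
      have : |(1 + t) / 2| ≤ 1 := by
        rw [abs_le]; constructor <;> linarith
      linarith
    · rw [foldl_eq hγ] at hs
      have := hK (s + 1)
      linarith
  · intro h
    simp only [KK, mem_compl_iff, mem_setOf_eq, not_forall, not_le] at h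
    obtain ⟨k, hk⟩ := h
    refine ⟨k + 1, ?_⟩
    rw [foldl_eq hγ, TT_succ]
    have := abs_ff_gt (hγ k) hk
    exact lt_of_lt_of_le this (le_abs_self _)

theorem aff_pre (hγ : Adm γ) : aff ⁻¹' (bad γ) = (KK γ)ᶜ := by
  ext t; exact bad_iff hγ t

/-- energy of the problem -/
noncomputable def energy (m : Measure ℝ) : ENNReal :=
  ∫⁻ x, ∫⁻ y, (if x = y then (⊤ : ENNReal) else ENNReal.ofReal (-Real.log |x - y|)) ∂m ∂m

theorem ker_aff (t s : ℝ) :
    (if aff t = aff s then (⊤ : ENNReal) else ENNReal.ofReal (-Real.log |aff t - aff s|)) = ker 2 t s := by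
  unfold ker
  by_cases h : t = s
  · subst h; rw [if_pos rfl, if_pos rfl]
  · have h' : aff t ≠ aff s := fun h2 => h (aff.injective h2)
    rw [if_neg h, if_neg h']
    congr 1
    rw [aff_apply, aff_apply, Real.dist_eq]
    have e : (1 + t) / 2 - (1 + s) / 2 = (t - s) / 2 := by ring
    have h1 : |t - s| ≠ 0 := abs_ne_zero.mpr (sub_ne_zero.mpr h)
    rw [e, abs_div, Real.log_div h1 (by norm_num)]
    have : |(2:ℝ)| = 2 := by norm_num
    rw [this]
    ring

theorem energy_map (ρ : Measure ℝ) : energy (ρ.map aff) = en 2 ρ ρ := by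
  unfold energy en
  have hemb : MeasurableEmbedding aff := aff.measurableEmbedding
  rw [hemb.lintegral_map]
  congr 1
  funext t
  rw [hemb.lintegral_map]
  congr 1
  funext s
  exact ker_aff t s

theorem map_map_symm (m : Measure ℝ) : (m.map aff.symm).map aff = m := by
  rw [Measure.map_map aff.continuous.measurable aff.symm.continuous.measurable]
  simp

/-- polynomials -/
noncomputable def QP (γ : ℕ → ℝ) : ℕ → Polynomial ℝ
  | 0 => 1
  | 1 => Polynomial.X
  | n + 2 => Polynomial.X * QP γ (n + 1) - Polynomial.C (yy γ (n + 1) 0) * QP γ n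

theorem QP_eval (n : ℕ) (x : ℝ) : (QP γ n).eval x = qv γ 0 n x := by
  induction n using Nat.strong_induction_on with
  | _ n ih =>
    rcases n with _ | _ | n
    · simp [QP, qv]
    · simp [QP, qv]
    · have i1 := ih (n + 1) (by omega)
      have i0 := ih n (by omega)
      simp only [QP, qv, Polynomial.eval_sub, Polynomial.eval_mul, Polynomial.eval_X, Polynomial.eval_C]
      rw [i1, i0]

theorem QP_monic (n : ℕ) : (QP γ n).Monic ∧ (QP γ n).natDegree = n := by
  induction n using Nat.strong_induction_on with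
  | _ n ih =>
    rcases n with _ | _ | n
    · exact ⟨Polynomial.monic_one, Polynomial.natDegree_one⟩
    · exact ⟨Polynomial.monic_X, Polynomial.natDegree_X⟩
    · obtain ⟨m1, d1⟩ := ih (n + 1) (by omega)
      obtain ⟨m0, d0⟩ := ih n (by omega)
      have hm : (Polynomial.X * QP γ (n + 1)).Monic := Polynomial.monic_X.mul m1
      have hd : (Polynomial.X * QP γ (n + 1)).natDegree = n + 2 := by
        rw [Polynomial.Monic.natDegree_mul Polynomial.monic_X m1, d1, Polynomial.natDegree_X]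
        ring
      have hd0 : (Polynomial.C (yy γ (n + 1) 0) * QP γ n).natDegree ≤ n := by
        refine le_trans (Polynomial.natDegree_C_mul_le _ _) (le_of_eq d0)
      have hlt : (Polynomial.C (yy γ (n + 1) 0) * QP γ n).degree < (Polynomial.X * QP γ (n + 1)).degree := by
        apply Polynomial.degree_lt_degree
        rw [hd]
        omega
      refine ⟨hm.sub_of_left hlt, ?_⟩
      show (Polynomial.X * QP γ (n + 1) - Polynomial.C (yy γ (n + 1) 0) * QP γ n).natDegree = n + 2
      rw [Polynomial.natDegree_sub_eq_left_of_natDegree_lt (by rw [hd]; omega), hd]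

/-- orthonormal polynomials on `[0,1]` -/
noncomputable def pp (γ : ℕ → ℝ) (n : ℕ) : Polynomial ℝ :=
  Polynomial.C (1 / Real.sqrt (hh γ 0 n)) * (QP γ n).comp (Polynomial.C 2 * Polynomial.X + Polynomial.C (-1))

theorem lin_natDegree : (Polynomial.C (2:ℝ) * Polynomial.X + Polynomial.C (-1)).natDegree = 1 :=
  Polynomial.natDegree_linear (by norm_num)

theorem lin_leadingCoeff : (Polynomial.C (2:ℝ) * Polynomial.X + Polynomial.C (-1)).leadingCoeff = 2 :=
  Polynomial.leadingCoeff_linear (by norm_num)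

theorem pp_prop (hγ : Adm γ) (n : ℕ) : (pp γ n).natDegree = n ∧ 0 < (pp γ n).leadingCoeff := by
  have hs : 0 < 1 / Real.sqrt (hh γ 0 n) := one_div_pos.mpr (Real.sqrt_pos.mpr (hh_pos hγ 0 n))
  obtain ⟨m, d⟩ := QP_monic (γ := γ) n
  constructor
  · unfold pp
    rw [Polynomial.natDegree_C_mul hs.ne', Polynomial.natDegree_comp, lin_natDegree, d, mul_one]
  · unfold pp
    rw [Polynomial.leadingCoeff_mul, Polynomial.leadingCoeff_C, Polynomial.leadingCoeff_comp
      (by rw [lin_natDegree]; norm_num), m.leadingCoeff, lin_leadingCoeff]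
    positivity

theorem pp_eval (n : ℕ) (t : ℝ) : (pp γ n).eval (aff t) = 1 / Real.sqrt (hh γ 0 n) * qv γ 0 n t := by
  unfold pp
  rw [Polynomial.eval_mul, Polynomial.eval_C, Polynomial.eval_comp, QP_eval]
  congr 2
  rw [aff_apply]
  simp
  ring

theorem int_pp (hγ : Adm γ) {ν : ℕ → ProbabilityMeasure ℝ} (hF : Fam γ ν) (m n : ℕ) :
    ∫ x, (pp γ m).eval x * (pp γ n).eval x ∂((ν 0 : Measure ℝ).map aff) = if m = n then 1 else 0 := by
  rw [aff.measurableEmbedding.integral_map]
  have e : (fun t => (pp γ m).eval (aff t) * (pp γ n).eval (aff t)) =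
      fun t => (1 / Real.sqrt (hh γ 0 m) * (1 / Real.sqrt (hh γ 0 n))) * (qv γ 0 m t * qv γ 0 n t) := by
    funext t
    rw [pp_eval, pp_eval]
    ring
  rw [e, integral_const_mul, orth hγ hF _ 0 m n rfl]
  by_cases h : m = n
  · subst h
    rw [if_pos rfl, if_pos rfl]
    have h1 := hh_pos hγ 0 m
    have h2 := Real.sqrt_pos.mpr h1
    have h3 := Real.mul_self_sqrt h1.le
    field_simp
    linarith
  · rw [if_neg h, if_neg h, mul_zero]

theorem int_xpp (hγ : Adm γ) {ν : ℕ → ProbabilityMeasure ℝ} (hF : Fam γ ν) (n : ℕ) :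
    ∫ x, x * (pp γ n).eval x * (pp γ (n + 1)).eval x ∂((ν 0 : Measure ℝ).map aff)
      = 1 / 2 * Real.sqrt (yy γ (n + 1) 0) := by
  rw [aff.measurableEmbedding.integral_map]
  have e : (fun t => aff t * (pp γ n).eval (aff t) * (pp γ (n + 1)).eval (aff t)) =
      fun t => (1 / Real.sqrt (hh γ 0 n) * (1 / Real.sqrt (hh γ 0 (n + 1))) * (1 / 2)) *
        (qv γ 0 n t * qv γ 0 (n + 1) t + t * (qv γ 0 n t * qv γ 0 (n + 1) t)) := by
    funext t
    rw [pp_eval, pp_eval, aff_apply]
    ring
  have i1 : Integrable (fun t => qv γ 0 n t * qv γ 0 (n + 1) t) (ν 0 : Measure ℝ) :=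
    integrable_of_cont (hF.supp 0) ((qv_continuous _ _).mul (qv_continuous _ _))
  have i2 : Integrable (fun t => t * (qv γ 0 n t * qv γ 0 (n + 1) t)) (ν 0 : Measure ℝ) :=
    integrable_of_cont (hF.supp 0) (continuous_id.mul ((qv_continuous _ _).mul (qv_continuous _ _)))
  rw [e, integral_const_mul, integral_add i1 i2, orth hγ hF _ 0 n (n + 1) rfl, if_neg (by omega),
    int_x hγ hF, zero_add]
  have h1 := hh_pos hγ 0 n
  have h2 := hh_pos hγ 0 (n + 1)
  have h3 : Real.sqrt (yy γ (n + 1) 0) = Real.sqrt (hh γ 0 (n + 1)) / Real.sqrt (hh γ 0 n) := by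
    rw [← Real.sqrt_div h2.le, hh_succ]
    congr 1
    field_simp
  rw [h3]
  have h4 := Real.sqrt_pos.mpr h1
  have h5 := Real.sqrt_pos.mpr h2
  have h6 := Real.mul_self_sqrt h2.le
  field_simp
  rw [sq]
  exact h6.symm

/-- existence of the data -/
theorem exists_data : ∃ (μ : Measure ℝ), IsProbabilityMeasure μ ∧ μ (bad gam) = 0 ∧ energy μ < ⊤ ∧
    (∀ ν : Measure ℝ, IsProbabilityMeasure ν → ν (bad gam) = 0 → energy μ ≤ energy ν) ∧
    (∀ m n, ∫ x, (pp gam m).eval x * (pp gam n).eval x ∂μ = if m = n then 1 else 0) ∧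
    (∀ n, ∫ x, x * (pp gam n).eval x * (pp gam (n + 1)).eval x ∂μ = 1 / 2 * Real.sqrt (yy gam (n + 1) 0)) := by
  have hγ := gam_adm
  obtain ⟨ν, hself, hlim⟩ := exists_family hγ
  have hF : Fam gam ν := by
    refine ⟨hself, ?_⟩
    intro k
    obtain ⟨U, hU, hT⟩ := hlim k
    have h1 := limit_support (shk_adm hγ k) hU hT
    have h2 : ∀ᵐ x ∂(ν k : Measure ℝ), x ∈ KK (shk gam k) := by
      rw [ae_iff]; exact h1
    filter_upwards [h2] with x hx using hx 0
  obtain ⟨U, hU, hT⟩ := hlim 0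
  have e0 : shk gam 0 = gam := by
    funext i; unfold shk; rw [zero_add]
  rw [e0] at hT
  have hVb := VV_bdd (T := 2) (le_refl _) hγ gam_inv_le
  have hen := limit_energy (T := 2) (le_refl _) hγ hU hT
  have hsupp := limit_support hγ hU hT
  refine ⟨(ν 0 : Measure ℝ).map aff, ?_, ?_, ?_, ?_, int_pp hγ hF, int_xpp hγ hF⟩
  · exact Measure.isProbabilityMeasure_map aff.continuous.measurable.aemeasurable
  · rw [aff.measurableEmbedding.map_apply, aff_pre hγ]
    exact hsupp
  · rw [energy_map]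
    exact lt_of_le_of_lt hen hVb
  · intro m hm hm0
    have h1 : energy m = en 2 (m.map aff.symm) (m.map aff.symm) := by
      rw [← energy_map, map_map_symm]
    rw [energy_map, h1]
    have hp : IsProbabilityMeasure (m.map aff.symm) :=
      Measure.isProbabilityMeasure_map aff.symm.continuous.measurable.aemeasurable
    refine le_trans hen (lower_bound (le_refl _) hγ hVb (m.map aff.symm) ?_)
    rw [aff.symm.measurableEmbedding.map_apply]
    have : aff.symm ⁻¹' (KK gam)ᶜ = bad gam := by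
      rw [← aff_pre hγ]
      ext x
      simp
    rw [this]
    exact hm0

end Pool.Agent.Helper368.AP
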