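import Mathlib
import Pool.Agent.Helper368.Energy

open MeasureTheory Set Filter Topology ENNReal

namespace Pool.Agent.Helper368

/-- the quadratic map `x ↦ c (2 x² - 1)` -/
def fq (c x : ℝ) : ℝ := c * (2 * x ^ 2 - 1)

/-- nonnegative inverse branch of `fq c` -/
noncomputable def br (c w : ℝ) : ℝ := Real.sqrt ((1 + w / c) / 2)

/-- pull back of a measure under `fq c` -/
noncomputable def P (c : ℝ) (σ : Measure ℝ) : Measure ℝ :=
  (2 : ENNReal)⁻¹ • (σ.map (br c)) + (2 : ENNReal)⁻¹ • (σ.map (fun w => - br c w))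

/-- shift of a sequence -/
def shift (lam : ℕ → ℝ) : ℕ → ℝ := fun i => lam (i + 1)

/-- iterated pull back -/
noncomputable def pull : (ℕ → ℝ) → ℕ → Measure ℝ → Measure ℝ
  | _, 0, ρ => ρ
  | lam, k + 1, ρ => P (lam 0) (pull (shift lam) k ρ)

/-- iterated quadratic maps -/
def TT : (ℕ → ℝ) → ℕ → ℝ → ℝ
  | _, 0, x => x
  | lam, k + 1, x => TT (shift lam) k (fq (lam 0) x)

theorem TT_succ (lam : ℕ → ℝ) (k : ℕ) (x : ℝ) : TT lam (k + 1) x = fq (lam k) (TT lam k x) := by
  induction k generalizing lam x with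
  | zero => rfl
  | succ k ih =>
    show TT (shift lam) (k + 1) (fq (lam 0) x) = fq (lam (k + 1)) (TT (shift lam) k (fq (lam 0) x))
    rw [ih]
    rfl

theorem TT_continuous (lam : ℕ → ℝ) (k : ℕ) : Continuous (TT lam k) := by
  induction k with
  | zero => exact continuous_id
  | succ k ih =>
    have : TT lam (k + 1) = fun x => fq (lam k) (TT lam k x) := by
      funext x; exact TT_succ lam k x
    rw [this]
    unfold fq
    fun_prop

theorem br_continuous (c : ℝ) : Continuous (br c) := by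
  unfold br; fun_prop

theorem br_measurable (c : ℝ) : Measurable (br c) := (br_continuous c).measurable

theorem nbr_measurable (c : ℝ) : Measurable (fun w => - br c w) := (br_measurable c).neg

theorem br_nonneg (c w : ℝ) : 0 ≤ br c w := Real.sqrt_nonneg _

theorem one_add_div_nonneg {c w : ℝ} (hc : 1 ≤ c) (hw : |w| ≤ 1) : 0 ≤ 1 + w / c := by
  have h0 : 0 < c := by linarith
  have := abs_le.mp hw
  have h1 : -1 ≤ w / c := by
    rw [le_div_iff₀ h0]; nlinarith
  linarith

theorem br_sq {c w : ℝ} (hc : 1 ≤ c) (hw : |w| ≤ 1) : br c w ^ 2 = (1 + w / c) / 2 := by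
  unfold br
  rw [Real.sq_sqrt]
  have := one_add_div_nonneg hc hw
  linarith

theorem br_le_one {c w : ℝ} (hc : 1 ≤ c) (hw : |w| ≤ 1) : br c w ≤ 1 := by
  unfold br
  rw [Real.sqrt_le_one]
  have h0 : 0 < c := by linarith
  have := abs_le.mp hw
  have h1 : w / c ≤ 1 := by
    rw [div_le_iff₀ h0]; nlinarith
  linarith

theorem fq_br {c w : ℝ} (hc : 1 ≤ c) (hw : |w| ≤ 1) : fq c (br c w) = w := by
  unfold fq
  rw [br_sq hc hw]
  field_simp
  ring

theorem fq_neg (c x : ℝ) : fq c (-x) = fq c x := by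
  unfold fq; ring

theorem fq_nbr {c w : ℝ} (hc : 1 ≤ c) (hw : |w| ≤ 1) : fq c (-br c w) = w := by
  rw [fq_neg, fq_br hc hw]

theorem abs_fq_gt {c x : ℝ} (hc : 1 ≤ c) (hx : 1 < |x|) : 1 < fq c x := by
  unfold fq
  have : 1 < x ^ 2 := by
    rw [← sq_abs]; nlinarith
  nlinarith

/-- `E` sets are nested -/
theorem TT_le_one_of_le {lam : ℕ → ℝ} (hlam : ∀ i, 1 ≤ lam i) {k l : ℕ} (hkl : k ≤ l) {x : ℝ}
    (h : |TT lam l x| ≤ 1) : |TT lam k x| ≤ 1 := by
  induction l, hkl using Nat.le_induction with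
  | base => exact h
  | succ l hl ih =>
    apply ih
    by_contra hcon
    rw [not_le] at hcon
    rw [TT_succ] at h
    have := abs_fq_gt (hlam l) hcon
    linarith [le_abs_self (fq (lam l) (TT lam l x))]

theorem shift_ge {lam : ℕ → ℝ} {b : ℝ} (hlam : ∀ i, b ≤ lam i) : ∀ i, b ≤ shift lam i :=
  fun i => hlam (i + 1)

/-- measure lives on `[-1,1]`-type level set -/
theorem P_apply (c : ℝ) (σ : Measure ℝ) (A : Set ℝ) (hA : MeasurableSet A) :
    P c σ A = (2 : ENNReal)⁻¹ * σ (br c ⁻¹' A) + (2 : ENNReal)⁻¹ * σ ((fun w => - br c w) ⁻¹' A) := by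
  unfold P
  rw [Measure.add_apply, Measure.smul_apply, Measure.smul_apply,
    Measure.map_apply (br_measurable c) hA, Measure.map_apply (nbr_measurable c) hA]
  rfl

instance P_prob (c : ℝ) (σ : Measure ℝ) [IsProbabilityMeasure σ] : IsProbabilityMeasure (P c σ) := by
  constructor
  rw [P_apply c σ _ MeasurableSet.univ]
  simp only [preimage_univ, measure_univ, mul_one]
  exact ENNReal.inv_two_add_inv_two

instance pull_prob (lam : ℕ → ℝ) (k : ℕ) (ρ : Measure ℝ) [IsProbabilityMeasure ρ] :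
    IsProbabilityMeasure (pull lam k ρ) := by
  induction k generalizing lam with
  | zero => unfold pull; infer_instance
  | succ k ih =>
    unfold pull
    have := ih (shift lam)
    infer_instance

theorem measurableSet_E (lam : ℕ → ℝ) (k : ℕ) : MeasurableSet {x | |TT lam k x| ≤ 1} :=
  (isClosed_le ((TT_continuous lam k).abs) continuous_const).measurableSet

theorem pull_support (ρ : Measure ℝ) (hρ : ∀ᵐ x ∂ρ, |x| ≤ 1) (k : ℕ) (lam : ℕ → ℝ)
    (hlam : ∀ i, 1 ≤ lam i) : ∀ᵐ x ∂(pull lam k ρ), |TT lam k x| ≤ 1 := by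
  induction k generalizing lam with
  | zero => exact hρ
  | succ k ih =>
    have h1 := ih (shift lam) (shift_ge hlam)
    have h1' : ∀ᵐ x ∂(pull (shift lam) k ρ), |TT (shift lam) k x| ≤ 1 := h1
    rw [ae_iff] at h1 ⊢
    unfold pull
    rw [P_apply]
    · have h2 : pull (shift lam) k ρ (br (lam 0) ⁻¹' {a | ¬|TT lam (k + 1) a| ≤ 1}) = 0 := by
        apply measure_mono_null _ h1
        intro w hw hw'
        have hw1 : |w| ≤ 1 := TT_le_one_of_le (shift_ge hlam) (Nat.zero_le k) hw'
        apply hw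
        show |TT (shift lam) k (fq (lam 0) (br (lam 0) w))| ≤ 1
        rw [fq_br (hlam 0) hw1]
        exact hw'
      have h3 : pull (shift lam) k ρ ((fun w => -br (lam 0) w) ⁻¹' {a | ¬|TT lam (k + 1) a| ≤ 1}) = 0 := by
        apply measure_mono_null _ h1
        intro w hw hw'
        have hw1 : |w| ≤ 1 := TT_le_one_of_le (shift_ge hlam) (Nat.zero_le k) hw'
        apply hw
        show |TT (shift lam) k (fq (lam 0) (-br (lam 0) w))| ≤ 1
        rw [fq_nbr (hlam 0) hw1]
        exact hw'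
      rw [h2, h3]
      simp
    · exact (measurableSet_E lam (k + 1)).compl

/-- product identity for the kernel -/
theorem ker_add {T c x w : ℝ} (hT : 2 ≤ T) (hc : 1 ≤ c) (hx : |x| ≤ 1) (hfx : |fq c x| ≤ 1)
    (hw : |w| ≤ 1) :
    ker T x (br c w) + ker T x (-br c w) = ker T (fq c x) w
      + ENNReal.ofReal (Real.log T + Real.log (2 * c)) := by
  have hT0 : 0 < T := by linarith
  have hc0 : 0 < c := by linarith
  have hs0 := br_nonneg c w
  have hs1 := br_le_one hc hw
  have hs2 := br_sq hc hw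
  set s := br c w with hs
  have hx' := abs_le.mp hx
  have hfx' := abs_le.mp hfx
  have hw' := abs_le.mp hw
  by_cases h : fq c x = w
  · have h1 : x ^ 2 = s ^ 2 := by
      rw [hs2]
      unfold fq at h
      field_simp
      linarith
    have h2 : ker T (fq c x) w = ⊤ := by
      unfold ker; rw [if_pos h]
    rw [h2, top_add]
    rcases sq_eq_sq_iff_eq_or_eq_neg.mp h1 with h3 | h3
    · have : ker T x s = ⊤ := by unfold ker; rw [if_pos h3]
      rw [this, top_add]
    · have : ker T x (-s) = ⊤ := by unfold ker; rw [if_pos h3]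
      rw [this, add_top]
  · have h1 : x ≠ s := by
      rintro rfl
      exact h (by rw [hs]; exact fq_br hc hw)
    have h2 : x ≠ -s := by
      intro h3
      apply h
      rw [h3, hs]; exact fq_nbr hc hw
    have e1 : (x - s) * (x + s) = (fq c x - w) / (2 * c) := by
      have : (x - s) * (x + s) = x ^ 2 - s ^ 2 := by ring
      rw [this, hs2]
      unfold fq
      field_simp
      ring
    have h1' : x - s ≠ 0 := sub_ne_zero.mpr h1
    have h2' : x + s ≠ 0 := by
      intro h3; exact h2 (by linarith)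
    have h3' : fq c x - w ≠ 0 := sub_ne_zero.mpr h
    have e2 : Real.log (dist x s) + Real.log (dist x (-s)) = Real.log (dist (fq c x) w) - Real.log (2 * c) := by
      simp only [Real.dist_eq, Real.log_abs, sub_neg_eq_add]
      rw [← Real.log_mul h1' h2', e1, Real.log_div h3' (by positivity)]
    unfold ker
    rw [if_neg h1, if_neg h2, if_neg h]
    have p1 : 0 ≤ Real.log T - Real.log (dist x s) := by
      rw [sub_nonneg]
      apply Real.log_le_log (dist_pos.mpr h1)
      rw [Real.dist_eq, abs_le]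
      constructor <;> linarith
    have p2 : 0 ≤ Real.log T - Real.log (dist x (-s)) := by
      rw [sub_nonneg]
      apply Real.log_le_log (dist_pos.mpr h2)
      rw [Real.dist_eq, abs_le]
      constructor <;> linarith
    have p3 : 0 ≤ Real.log T - Real.log (dist (fq c x) w) := by
      rw [sub_nonneg]
      apply Real.log_le_log (dist_pos.mpr h)
      rw [Real.dist_eq, abs_le]
      constructor <;> linarith
    have p4 : 0 ≤ Real.log T + Real.log (2 * c) := by
      have := Real.log_nonneg (show (1:ℝ) ≤ T by linarith)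
      have := Real.log_nonneg (show (1:ℝ) ≤ 2 * c by linarith)
      linarith
    rw [← ENNReal.ofReal_add p1 p2, ← ENNReal.ofReal_add p3 p4]
    congr 1
    linarith

/-- energy constants -/
noncomputable def VV (T : ℝ) : (ℕ → ℝ) → ℕ → ENNReal
  | _, 0 => 0
  | lam, k + 1 => (2 : ENNReal)⁻¹ * (VV T (shift lam) k + ENNReal.ofReal (Real.log T + Real.log (2 * lam 0)))

theorem measurable_ker_left (T x : ℝ) : Measurable (fun y => ker T x y) :=
  (measurable_ker T).comp (measurable_prodMk_left (x := x))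

theorem pot {T : ℝ} (hT : 2 ≤ T) (ρ : Measure ℝ) [IsProbabilityMeasure ρ] (hρ : ∀ᵐ x ∂ρ, |x| ≤ 1)
    (k : ℕ) (lam : ℕ → ℝ) (hlam : ∀ i, 1 ≤ lam i) (x : ℝ) (hx : |TT lam k x| ≤ 1) :
    ∫⁻ y, ker T x y ∂(pull lam k ρ) = VV T lam k + (2 : ENNReal)⁻¹ ^ k * ∫⁻ w, ker T (TT lam k x) w ∂ρ := by
  induction k generalizing lam x with
  | zero => simp [pull, TT, VV]
  | succ k ih =>
    have hx0 : |x| ≤ 1 := TT_le_one_of_le hlam (Nat.zero_le (k + 1)) hx
    have hx1 : |fq (lam 0) x| ≤ 1 := TT_le_one_of_le hlam (show 1 ≤ k + 1 by omega) hx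
    have hsup := pull_support ρ hρ k (shift lam) (shift_ge hlam)
    have ih' := ih (shift lam) (shift_ge hlam) (fq (lam 0) x) hx
    have hm := measurable_ker_left T x
    have h1 : ∫⁻ y, ker T x y ∂(pull lam (k + 1) ρ)
        = (2 : ENNReal)⁻¹ * ∫⁻ w, (ker T x (br (lam 0) w) + ker T x (-br (lam 0) w)) ∂(pull (shift lam) k ρ) := by
      show ∫⁻ y, ker T x y ∂(P (lam 0) (pull (shift lam) k ρ)) = _
      have hmb : Measurable (fun w => ker T x (br (lam 0) w)) := hm.comp (br_measurable _)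
      unfold P
      rw [lintegral_add_measure, lintegral_smul_measure, lintegral_smul_measure,
        lintegral_map hm (br_measurable _), lintegral_map hm (nbr_measurable _),
        lintegral_add_left hmb, mul_add]
      rfl
    have h2 : ∫⁻ w, (ker T x (br (lam 0) w) + ker T x (-br (lam 0) w)) ∂(pull (shift lam) k ρ)
        = ∫⁻ w, (ker T (fq (lam 0) x) w + ENNReal.ofReal (Real.log T + Real.log (2 * lam 0))) ∂(pull (shift lam) k ρ) := by
      apply lintegral_congr_ae
      filter_upwards [hsup] with w hw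
      exact ker_add hT (hlam 0) hx0 hx1 (TT_le_one_of_le (shift_ge hlam) (Nat.zero_le k) hw)
    rw [h1, h2, lintegral_add_left (measurable_ker_left T _), ih']
    simp only [lintegral_const, measure_univ, mul_one]
    show _ = (2 : ENNReal)⁻¹ * (VV T (shift lam) k + ENNReal.ofReal (Real.log T + Real.log (2 * lam 0)))
      + (2 : ENNReal)⁻¹ ^ (k + 1) * ∫⁻ w, ker T (TT (shift lam) k (fq (lam 0) x)) w ∂ρ
    rw [pow_succ]
    ring

/-- itineraries and masses -/
theorem pull_mass (ρ : Measure ℝ) [IsProbabilityMeasure ρ] (hρ : ∀ᵐ x ∂ρ, |x| ≤ 1) (k m : ℕ)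
    (lam : ℕ → ℝ) (hlam : ∀ i, 2 ≤ lam i) (A : Set ℝ) (hA : MeasurableSet A)
    (hsame : ∀ x ∈ A, ∀ y ∈ A, |TT lam k x| ≤ 1 → |TT lam k y| ≤ 1 →
      ∀ i < k, (0 ≤ TT lam i x ↔ 0 ≤ TT lam i y)) :
    pull lam (k + m) ρ A ≤ (2 : ENNReal)⁻¹ ^ k := by
  induction k generalizing lam A with
  | zero => simpa using prob_le_one
  | succ k ih =>
    have hlam1 : ∀ i, 1 ≤ lam i := fun i => by linarith [hlam i]
    have hsup : ∀ᵐ x ∂(pull (shift lam) (k + m) ρ), |TT (shift lam) k x| ≤ 1 := by
      filter_upwards [pull_support ρ hρ (k + m) (shift lam) (shift_ge hlam1)] with x hx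
      exact TT_le_one_of_le (shift_ge hlam1) (Nat.le_add_right k m) hx
    have hsup' := hsup
    rw [ae_iff] at hsup'
    have e : k + 1 + m = (k + m) + 1 := by ring
    rw [e]
    show P (lam 0) (pull (shift lam) (k + m) ρ) A ≤ _
    rw [P_apply _ _ _ hA]
    set σ := pull (shift lam) (k + m) ρ with hσ
    have hin : ∀ w, |TT (shift lam) k w| ≤ 1 → |w| ≤ 1 := fun w hw =>
      TT_le_one_of_le (shift_ge hlam1) (Nat.zero_le k) hw
    have hpos : ∀ w, |TT (shift lam) k w| ≤ 1 → |TT lam (k + 1) (br (lam 0) w)| ≤ 1 := by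
      intro w hw
      show |TT (shift lam) k (fq (lam 0) (br (lam 0) w))| ≤ 1
      rw [fq_br (hlam1 0) (hin w hw)]; exact hw
    have hneg : ∀ w, |TT (shift lam) k w| ≤ 1 → |TT lam (k + 1) (-br (lam 0) w)| ≤ 1 := by
      intro w hw
      show |TT (shift lam) k (fq (lam 0) (-br (lam 0) w))| ≤ 1
      rw [fq_nbr (hlam1 0) (hin w hw)]; exact hw
    have hmp : MeasurableSet (br (lam 0) ⁻¹' A) := br_measurable _ hA
    have hmn : MeasurableSet ((fun w => -br (lam 0) w) ⁻¹' A) := nbr_measurable _ hA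
    have hboundp : σ (br (lam 0) ⁻¹' A) ≤ (2 : ENNReal)⁻¹ ^ k := by
      apply ih (shift lam) (shift_ge hlam) _ hmp
      intro x hx y hy hx1 hy1 i hi
      have := hsame _ hx _ hy (hpos x hx1) (hpos y hy1) (i + 1) (by omega)
      simpa only [TT, fq_br (hlam1 0) (hin x hx1), fq_br (hlam1 0) (hin y hy1)] using this
    have hboundn : σ ((fun w => -br (lam 0) w) ⁻¹' A) ≤ (2 : ENNReal)⁻¹ ^ k := by
      apply ih (shift lam) (shift_ge hlam) _ hmn
      intro x hx y hy hx1 hy1 i hi
      have := hsame _ hx _ hy (hneg x hx1) (hneg y hy1) (i + 1) (by omega)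
      simpa only [TT, fq_nbr (hlam1 0) (hin x hx1), fq_nbr (hlam1 0) (hin y hy1)] using this
    by_cases hex : ∃ w, w ∈ br (lam 0) ⁻¹' A ∧ |TT (shift lam) k w| ≤ 1
    · obtain ⟨w, hwA, hw1⟩ := hex
      have hz : σ ((fun w => -br (lam 0) w) ⁻¹' A) = 0 := by
        apply measure_mono_null _ hsup'
        intro w' hw'A hw'1
        have h0 := (hsame _ hwA _ hw'A (hpos w hw1) (hneg w' hw'1) 0 (by omega)).mp (br_nonneg _ _)
        have h1 : br (lam 0) w' = 0 := by
          have h2 : 0 ≤ -br (lam 0) w' := h0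
          have := br_nonneg (lam 0) w'
          linarith
        have h3 := fq_br (hlam1 0) (hin w' hw'1)
        rw [h1] at h3
        unfold fq at h3
        have h4 := abs_le.mp (hin w' hw'1)
        have h5 := hlam 0
        nlinarith
      rw [hz, mul_zero, add_zero, pow_succ, mul_comm]
      gcongr
    · have hz : σ (br (lam 0) ⁻¹' A) = 0 := by
        apply measure_mono_null _ hsup'
        intro w' hw'A hw'1
        exact hex ⟨w', hw'A, hw'1⟩
      rw [hz, mul_zero, zero_add, pow_succ, mul_comm]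
      gcongr

end Pool.Agent.Helper368
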