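import Mathlib
import Pool.Agent.Helper368.Pull

open MeasureTheory Set Filter Topology ENNReal

namespace Pool.Agent.Helper368

/-- uniform measure on `[-1,1]` -/
noncomputable def uu : Measure ℝ := (2 : ENNReal)⁻¹ • volume.restrict (Icc (-1) 1)

instance uu_prob : IsProbabilityMeasure uu := by
  constructor
  unfold uu
  rw [Measure.smul_apply, Measure.restrict_apply MeasurableSet.univ, univ_inter, Real.volume_Icc]
  norm_num
  exact ENNReal.inv_mul_cancel (by norm_num) (by norm_num)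

theorem uu_support : ∀ᵐ x ∂uu, |x| ≤ 1 := by
  unfold uu
  apply Measure.ae_smul_measure
  rw [ae_restrict_iff' measurableSet_Icc]
  filter_upwards with x hx
  exact abs_le.mpr hx

/-- bound for the potential of `uu` -/
noncomputable def CT (T : ℝ) : ENNReal := ∫⁻ v in Icc (-2 : ℝ) 2, ENNReal.ofReal (Real.log T - Real.log v)

theorem CT_lt_top (T : ℝ) : CT T < ⊤ := by
  unfold CT
  have h1 : IntegrableOn (fun v => Real.log T - Real.log v) (Icc (-2 : ℝ) 2) := by
    apply Integrable.sub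
    · exact integrableOn_const (by rw [Real.volume_Icc]; exact ofReal_ne_top)
    · rw [← IntegrableOn, ← intervalIntegrable_iff_integrableOn_Icc_of_le (by norm_num)]
      exact intervalIntegral.intervalIntegrable_log'
  have h2 : ∫⁻ v in Icc (-2 : ℝ) 2, ENNReal.ofReal (Real.log T - Real.log v)
      ≤ ∫⁻ v in Icc (-2 : ℝ) 2, ‖Real.log T - Real.log v‖ₑ := by
    apply lintegral_mono
    intro v
    exact Real.ofReal_le_enorm _
  exact lt_of_le_of_lt h2 h1.2

theorem pot_uu {T t : ℝ} (ht : |t| ≤ 1) : ∫⁻ w, ker T t w ∂uu ≤ CT T := by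
  unfold uu CT
  rw [lintegral_smul_measure]
  have ht' := abs_le.mp ht
  have h1 : ∫⁻ w in Icc (-1:ℝ) 1, ker T t w
      = ∫⁻ w in Icc (-1:ℝ) 1, ENNReal.ofReal (Real.log T - Real.log (t - w)) := by
    apply lintegral_congr_ae
    have : ∀ᵐ w ∂(volume.restrict (Icc (-1:ℝ) 1)), w ≠ t :=
      (ae_restrict_of_ae (Measure.ae_ne volume t))
    filter_upwards [this] with w hw
    unfold ker
    rw [if_neg (Ne.symm hw), Real.dist_eq, Real.log_abs]
  have h2 : ∫⁻ w in Icc (-1:ℝ) 1, ENNReal.ofReal (Real.log T - Real.log (t - w))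
      ≤ ∫⁻ v in Icc (-2 : ℝ) 2, ENNReal.ofReal (Real.log T - Real.log v) := by
    rw [← lintegral_indicator measurableSet_Icc, ← lintegral_indicator measurableSet_Icc]
    rw [← lintegral_sub_left_eq_self (fun v => (Icc (-2:ℝ) 2).indicator (fun v => ENNReal.ofReal (Real.log T - Real.log v)) v) t]
    apply lintegral_mono
    intro w
    by_cases hw : w ∈ Icc (-1:ℝ) 1
    · have hw2 : t - w ∈ Icc (-2:ℝ) 2 := by constructor <;> linarith [hw.1, hw.2]
      show _ ≤ (Icc (-2:ℝ) 2).indicator (fun v => ENNReal.ofReal (Real.log T - Real.log v)) (t - w)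
      rw [indicator_of_mem hw, indicator_of_mem hw2]
    · rw [indicator_of_notMem hw]
      exact zero_le
  rw [h1]
  calc (2 : ENNReal)⁻¹ • ∫⁻ w in Icc (-1:ℝ) 1, ENNReal.ofReal (Real.log T - Real.log (t - w))
      ≤ 1 * ∫⁻ w in Icc (-1:ℝ) 1, ENNReal.ofReal (Real.log T - Real.log (t - w)) := by
        rw [smul_eq_mul]
        gcongr
        exact ENNReal.inv_le_one.mpr (by norm_num)
    _ ≤ _ := by rw [one_mul]; exact h2

theorem VV_eq_sum (T : ℝ) (lam : ℕ → ℝ) (k : ℕ) :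
    VV T lam k = ∑ i ∈ Finset.range k, (2 : ENNReal)⁻¹ ^ (i + 1) *
      ENNReal.ofReal (Real.log T + Real.log (2 * lam i)) := by
  induction k generalizing lam with
  | zero => simp [VV]
  | succ k ih =>
    rw [Finset.sum_range_succ']
    show (2 : ENNReal)⁻¹ * (VV T (shift lam) k + ENNReal.ofReal (Real.log T + Real.log (2 * lam 0))) = _
    rw [ih (shift lam), mul_add, Finset.mul_sum]
    congr 1
    · apply Finset.sum_congr rfl
      intro i _
      unfold shift
      rw [pow_succ _ (i + 1)]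
      ring
    · simp

theorem VV_mono (T : ℝ) (lam : ℕ → ℝ) : Monotone (VV T lam) := by
  intro a b hab
  rw [VV_eq_sum, VV_eq_sum]
  exact Finset.sum_le_sum_of_subset (Finset.range_mono hab)

theorem VV_bdd {T : ℝ} (hT : 2 ≤ T) {lam : ℕ → ℝ} (h1 : ∀ i, 1 ≤ lam i)
    (h2 : ∀ i, lam i ≤ 2 ^ (i + 1)) : ⨆ k, VV T lam k < ⊤ := by
  have hs : Summable (fun i : ℕ => (1/2 : ℝ) ^ (i + 1) * (Real.log T + (i + 2))) := by
    have e : (fun i : ℕ => (1/2 : ℝ) ^ (i + 1) * (Real.log T + (i + 2)))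
       = fun i : ℕ => (1/2) * (Real.log T + 2) * (1/2:ℝ)^i + (1/2) * ((i:ℝ)^1 * (1/2:ℝ)^i) := by
      funext i; rw [pow_succ]; ring
    rw [e]
    apply Summable.add
    · apply Summable.mul_left
      exact summable_geometric_two
    · apply Summable.mul_left
      exact summable_pow_mul_geometric_of_norm_lt_one 1 (by norm_num)
  have hlT : 0 ≤ Real.log T := Real.log_nonneg (by linarith)
  have h3 : ∀ k, VV T lam k ≤ ENNReal.ofReal (∑' i : ℕ, (1/2 : ℝ) ^ (i + 1) * (Real.log T + (i + 2))) := by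
    intro k
    rw [VV_eq_sum]
    have h4 : ∀ i, (2 : ENNReal)⁻¹ ^ (i + 1) * ENNReal.ofReal (Real.log T + Real.log (2 * lam i))
        ≤ ENNReal.ofReal ((1/2 : ℝ) ^ (i + 1) * (Real.log T + (i + 2))) := by
      intro i
      rw [ENNReal.ofReal_mul (by positivity)]
      have e1 : ENNReal.ofReal ((1/2 : ℝ) ^ (i + 1)) = (2 : ENNReal)⁻¹ ^ (i + 1) := by
        rw [ENNReal.ofReal_pow (by norm_num), one_div, ENNReal.ofReal_inv_of_pos (by norm_num)]
        simp
      rw [e1]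
      gcongr
      have hl0 : 0 < lam i := by linarith [h1 i]
      calc Real.log (2 * lam i) ≤ Real.log (2 ^ (i + 2)) := by
            apply Real.log_le_log (by positivity)
            rw [pow_succ]
            linarith [h2 i]
        _ = (i + 2) * Real.log 2 := by
            rw [Real.log_pow]; push_cast; ring
        _ ≤ (i + 2) * 1 := by
            gcongr
            linarith [Real.log_two_lt_d9]
        _ = i + 2 := mul_one _
    calc _ ≤ ∑ i ∈ Finset.range k, ENNReal.ofReal ((1/2 : ℝ) ^ (i + 1) * (Real.log T + (i + 2))) :=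
          Finset.sum_le_sum fun i _ => h4 i
      _ = ENNReal.ofReal (∑ i ∈ Finset.range k, (1/2 : ℝ) ^ (i + 1) * (Real.log T + (i + 2))) := by
          rw [ENNReal.ofReal_sum_of_nonneg]
          intro i _; positivity
      _ ≤ _ := by
          apply ENNReal.ofReal_le_ofReal
          apply hs.sum_le_tsum
          intro i _; positivity
  exact lt_of_le_of_lt (iSup_le h3) ofReal_lt_top

/-- the approximating measures -/
noncomputable def om (lam : ℕ → ℝ) (k : ℕ) : ProbabilityMeasure ℝ :=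
  ⟨pull lam k uu, inferInstance⟩

theorem om_coe (lam : ℕ → ℝ) (k : ℕ) : (om lam k : Measure ℝ) = pull lam k uu := rfl

theorem en_om {T : ℝ} (hT : 2 ≤ T) {lam : ℕ → ℝ} (hlam : ∀ i, 1 ≤ lam i) (k : ℕ) :
    en T (om lam k : Measure ℝ) (om lam k : Measure ℝ) ≤ VV T lam k + (2 : ENNReal)⁻¹ ^ k * CT T := by
  rw [om_coe]
  unfold en
  have h1 : ∀ᵐ x ∂(pull lam k uu), ∫⁻ y, ker T x y ∂(pull lam k uu)
      ≤ VV T lam k + (2 : ENNReal)⁻¹ ^ k * CT T := by
    filter_upwards [pull_support uu uu_support k lam hlam] with x hx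
    rw [pot hT uu uu_support k lam hlam x hx]
    gcongr
    exact pot_uu hx
  calc _ ≤ ∫⁻ x, (VV T lam k + (2 : ENNReal)⁻¹ ^ k * CT T) ∂(pull lam k uu) := lintegral_mono_ae h1
    _ = _ := by simp

/-- the limit set -/
def KK (lam : ℕ → ℝ) : Set ℝ := {x | ∀ k, |TT lam k x| ≤ 1}

theorem KK_closed (lam : ℕ → ℝ) : IsClosed (KK lam) := by
  have : KK lam = ⋂ k, {x | |TT lam k x| ≤ 1} := by
    ext x; simp [KK]
  rw [this]
  exact isClosed_iInter fun k => isClosed_le ((TT_continuous lam k).abs) continuous_const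

theorem KK_sub (lam : ℕ → ℝ) : KK lam ⊆ Icc (-1) 1 := by
  intro x hx
  exact abs_le.mp (hx 0)

theorem KK_compact (lam : ℕ → ℝ) : IsCompact (KK lam) :=
  isCompact_Icc.of_isClosed_subset (KK_closed lam) (KK_sub lam)

theorem cross_ge {T : ℝ} (hT : 2 ≤ T) {lam : ℕ → ℝ} (hlam : ∀ i, 1 ≤ lam i) (k : ℕ)
    (μ : Measure ℝ) [IsProbabilityMeasure μ] (hμ : μ (KK lam)ᶜ = 0) :
    VV T lam k ≤ en T μ (om lam k : Measure ℝ) := by
  rw [om_coe]
  unfold en
  have h1 : ∀ᵐ x ∂μ, VV T lam k ≤ ∫⁻ y, ker T x y ∂(pull lam k uu) := by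
    have : ∀ᵐ x ∂μ, x ∈ KK lam := by rw [ae_iff]; exact hμ
    filter_upwards [this] with x hx
    rw [pot hT uu uu_support k lam hlam x (hx k)]
    exact le_self_add
  calc VV T lam k = ∫⁻ x, VV T lam k ∂μ := by simp
    _ ≤ _ := lintegral_mono_ae h1

theorem ae_dist {T : ℝ} (hT : 2 ≤ T) {μ ν : Measure ℝ} (hμ : ∀ᵐ x ∂μ, |x| ≤ 1)
    (hν : ∀ᵐ x ∂ν, |x| ≤ 1) : ∀ᵐ x ∂μ, ∀ᵐ y ∂ν, dist x y ≤ T := by
  filter_upwards [hμ] with x hx
  filter_upwards [hν] with y hy
  rw [Real.dist_eq, abs_le]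
  have := abs_le.mp hx
  have := abs_le.mp hy
  constructor <;> linarith

theorem pull_support_one {lam : ℕ → ℝ} (hlam : ∀ i, 1 ≤ lam i) (k : ℕ) :
    ∀ᵐ x ∂(om lam k : Measure ℝ), |x| ≤ 1 := by
  rw [om_coe]
  filter_upwards [pull_support uu uu_support k lam hlam] with x hx
  exact TT_le_one_of_le hlam (Nat.zero_le k) hx

theorem lower_bound {T : ℝ} (hT : 2 ≤ T) {lam : ℕ → ℝ} (hlam : ∀ i, 1 ≤ lam i)
    (hV : ⨆ k, VV T lam k < ⊤)
    (μ : Measure ℝ) [IsProbabilityMeasure μ] (hμ : μ (KK lam)ᶜ = 0) :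
    ⨆ k, VV T lam k ≤ en T μ μ := by
  have hμ1 : ∀ᵐ x ∂μ, |x| ≤ 1 := by
    have : ∀ᵐ x ∂μ, x ∈ KK lam := by rw [ae_iff]; exact hμ
    filter_upwards [this] with x hx using hx 0
  have hT0 : 0 < T := by linarith
  have hk : ∀ k, VV T lam k ≤ en T μ μ + (2 : ENNReal)⁻¹ ^ k * CT T := by
    intro k
    have h1 := cross_ge hT hlam k μ hμ
    have h2 := en_pd hT0 μ (om lam k : Measure ℝ) (ae_dist hT hμ1 hμ1)
      (ae_dist hT (pull_support_one hlam k) (pull_support_one hlam k))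
      (ae_dist hT hμ1 (pull_support_one hlam k))
    have h3 := en_om hT hlam k
    have hfin : VV T lam k ≠ ⊤ := (lt_of_le_of_lt (le_iSup (VV T lam) k) hV).ne
    have h4 : VV T lam k + VV T lam k ≤ (en T μ μ + (2 : ENNReal)⁻¹ ^ k * CT T) + VV T lam k := by
      calc VV T lam k + VV T lam k = 2 * VV T lam k := by ring
        _ ≤ 2 * en T μ (om lam k : Measure ℝ) := by gcongr
        _ ≤ en T μ μ + en T (om lam k : Measure ℝ) (om lam k : Measure ℝ) := h2
        _ ≤ en T μ μ + (VV T lam k + (2 : ENNReal)⁻¹ ^ k * CT T) := by gcongr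
        _ = _ := by ring
    exact (ENNReal.add_le_add_iff_right hfin).mp h4
  apply iSup_le
  intro j
  have hlim : Tendsto (fun k : ℕ => en T μ μ + (2 : ENNReal)⁻¹ ^ k * CT T) atTop (𝓝 (en T μ μ)) := by
    have h0 : Tendsto (fun k : ℕ => (2 : ENNReal)⁻¹ ^ k * CT T) atTop (𝓝 0) := by
      have := ENNReal.Tendsto.mul_const (b := CT T)
        (ENNReal.tendsto_pow_atTop_nhds_zero_of_lt_one (r := (2 : ENNReal)⁻¹) (by
          exact ENNReal.inv_lt_one.mpr (by norm_num))) (Or.inr (CT_lt_top T).ne)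
      simpa using this
    simpa using tendsto_const_nhds.add h0
  apply ge_of_tendsto hlim
  filter_upwards [eventually_ge_atTop j] with k hjk
  exact le_trans (VV_mono T lam hjk) (hk k)

/-- existence of a limit measure -/
theorem exists_limit {lam : ℕ → ℝ} (hlam : ∀ i, 1 ≤ lam i) :
    ∃ (ν : ProbabilityMeasure ℝ) (U : Ultrafilter ℕ), (U : Filter ℕ) ≤ atTop ∧
      Tendsto (om lam) U (𝓝 ν) := by
  have htight : IsTightMeasureSet {((μ : ProbabilityMeasure ℝ) : Measure ℝ) | μ ∈ range (om lam)} := by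
    rw [isTightMeasureSet_iff_exists_isCompact_measure_compl_le]
    intro ε hε
    refine ⟨Icc (-1) 1, isCompact_Icc, ?_⟩
    rintro _ ⟨_, ⟨k, rfl⟩, rfl⟩
    have : (om lam k : Measure ℝ) (Icc (-1) 1)ᶜ = 0 := by
      have h := pull_support_one hlam k
      rw [ae_iff] at h
      apply measure_mono_null _ h
      intro x hx hx'
      exact hx (abs_le.mp hx')
    rw [this]
    exact hε.le
  have hc := isCompact_closure_of_isTightMeasureSet htight
  obtain ⟨ν, -, hν⟩ := hc.exists_mapClusterPt (f := atTop) (u := om lam) (by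
    rw [Filter.le_principal_iff]
    exact Filter.mem_map.mpr (Filter.univ_mem' fun k => subset_closure (mem_range_self k)))
  rw [mapClusterPt_iff_ultrafilter] at hν
  obtain ⟨U, hU, hT⟩ := hν
  exact ⟨ν, U, hU, hT⟩

theorem limit_energy {T : ℝ} (hT : 2 ≤ T) {lam : ℕ → ℝ} (hlam : ∀ i, 1 ≤ lam i)
    {ν : ProbabilityMeasure ℝ} {U : Ultrafilter ℕ} (hU : (U : Filter ℕ) ≤ atTop)
    (h : Tendsto (om lam) U (𝓝 ν)) :
    en T (ν : Measure ℝ) (ν : Measure ℝ) ≤ ⨆ k, VV T lam k := by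
  apply ENNReal.le_of_forall_pos_le_add
  intro ε hε _
  apply en_le_of_tendsto h
  apply hU
  have h0 : Tendsto (fun k : ℕ => (2 : ENNReal)⁻¹ ^ k * CT T) atTop (𝓝 0) := by
    have := ENNReal.Tendsto.mul_const (b := CT T)
      (ENNReal.tendsto_pow_atTop_nhds_zero_of_lt_one (r := (2 : ENNReal)⁻¹) (by
        exact ENNReal.inv_lt_one.mpr (by norm_num))) (Or.inr (CT_lt_top T).ne)
    simpa using this
  have h1 := h0.eventually (Iio_mem_nhds (show (0 : ENNReal) < ε by exact_mod_cast hε))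
  filter_upwards [h1] with k hk
  refine le_trans (en_om hT hlam k) ?_
  exact add_le_add (le_iSup (VV T lam) k) (le_of_lt hk)

theorem limit_support {lam : ℕ → ℝ} (hlam : ∀ i, 1 ≤ lam i)
    {ν : ProbabilityMeasure ℝ} {U : Ultrafilter ℕ} (hU : (U : Filter ℕ) ≤ atTop)
    (h : Tendsto (om lam) U (𝓝 ν)) : (ν : Measure ℝ) (KK lam)ᶜ = 0 := by
  have hE : ∀ k, (ν : Measure ℝ) {x | |TT lam k x| ≤ 1}ᶜ = 0 := by
    intro k
    have hopen : IsOpen {x | |TT lam k x| ≤ 1}ᶜ :=
      (isClosed_le ((TT_continuous lam k).abs) continuous_const).isOpen_compl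
    have h1 := ProbabilityMeasure.le_liminf_measure_open_of_tendsto h hopen
    have h2 : ∀ᶠ l in (U : Filter ℕ), (om lam l : Measure ℝ) {x | |TT lam k x| ≤ 1}ᶜ = 0 := by
      apply hU
      filter_upwards [eventually_ge_atTop k] with l hl
      have h3 := pull_support uu uu_support l lam hlam
      rw [ae_iff] at h3
      rw [om_coe]
      apply measure_mono_null _ h3
      intro x hx hx'
      exact hx (TT_le_one_of_le hlam hl hx')
    have h4 : liminf (fun l => (om lam l : Measure ℝ) {x | |TT lam k x| ≤ 1}ᶜ) (U : Filter ℕ) = 0 := by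
      rw [Filter.liminf_congr h2]
      simp
    rw [h4] at h1
    exact le_antisymm h1 zero_le
  have : (KK lam)ᶜ = ⋃ k, {x | |TT lam k x| ≤ 1}ᶜ := by
    ext x; simp [KK]
  rw [this]
  exact measure_iUnion_null hE

theorem limit_mass {lam : ℕ → ℝ} (hlam : ∀ i, 2 ≤ lam i)
    {ν : ProbabilityMeasure ℝ} {U : Ultrafilter ℕ} (hU : (U : Filter ℕ) ≤ atTop)
    (h : Tendsto (om lam) U (𝓝 ν)) (k : ℕ) (A : Set ℝ) (hA : IsOpen A)
    (hsame : ∀ x ∈ A, ∀ y ∈ A, |TT lam k x| ≤ 1 → |TT lam k y| ≤ 1 →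
      ∀ i < k, (0 ≤ TT lam i x ↔ 0 ≤ TT lam i y)) :
    (ν : Measure ℝ) A ≤ (2 : ENNReal)⁻¹ ^ k := by
  refine le_trans (ProbabilityMeasure.le_liminf_measure_open_of_tendsto h hA) ?_
  have h2 : ∀ᶠ l in (U : Filter ℕ), (om lam l : Measure ℝ) A ≤ (2 : ENNReal)⁻¹ ^ k := by
    apply hU
    filter_upwards [eventually_ge_atTop k] with l hl
    obtain ⟨m, rfl⟩ := Nat.exists_eq_add_of_le hl
    rw [om_coe]
    exact pull_mass uu uu_support k m lam hlam A hA.measurableSet hsame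
  calc liminf (fun l => (om lam l : Measure ℝ) A) (U : Filter ℕ)
      ≤ liminf (fun _ => (2 : ENNReal)⁻¹ ^ k) (U : Filter ℕ) := Filter.liminf_le_liminf h2
    _ = _ := by simp

end Pool.Agent.Helper368
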