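import Mathlib
import Pool.Agent.Helper368.Equil

open MeasureTheory Set Filter Topology ENNReal

namespace Pool.Agent.Helper368

/-- product of upper Lipschitz constants -/
noncomputable def DD (lam : ℕ → ℝ) (k : ℕ) : ℝ := ∏ i ∈ Finset.range k, (4 * lam i)

/-- product of lower Lipschitz constants -/
noncomputable def LL (lam : ℕ → ℝ) (k : ℕ) : ℝ := ∏ i ∈ Finset.range k, (2 * lam i)

theorem DD_pos {lam : ℕ → ℝ} (hlam : ∀ i, 2 ≤ lam i) (k : ℕ) : 0 < DD lam k :=
  Finset.prod_pos fun i _ => by linarith [hlam i]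

theorem LL_pos {lam : ℕ → ℝ} (hlam : ∀ i, 2 ≤ lam i) (k : ℕ) : 0 < LL lam k :=
  Finset.prod_pos fun i _ => by linarith [hlam i]

theorem DD_mono {lam : ℕ → ℝ} (hlam : ∀ i, 2 ≤ lam i) : Monotone (DD lam) := by
  apply monotone_nat_of_le_succ
  intro k
  unfold DD
  rw [Finset.prod_range_succ]
  have := DD_pos hlam k
  unfold DD at this
  have := hlam k
  nlinarith

theorem lip_upper {lam : ℕ → ℝ} (hlam : ∀ i, 2 ≤ lam i) (j : ℕ) (x y : ℝ)
    (hx : |TT lam j x| ≤ 1) (hy : |TT lam j y| ≤ 1) :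
    |TT lam j x - TT lam j y| ≤ DD lam j * |x - y| := by
  have hlam1 : ∀ i, 1 ≤ lam i := fun i => by linarith [hlam i]
  induction j with
  | zero => simp [DD, TT]
  | succ j ih =>
    have hx' := TT_le_one_of_le hlam1 (Nat.le_succ j) hx
    have hy' := TT_le_one_of_le hlam1 (Nat.le_succ j) hy
    have ih' := ih hx' hy'
    rw [TT_succ, TT_succ]
    set a := TT lam j x
    set b := TT lam j y
    have e : fq (lam j) a - fq (lam j) b = (2 * lam j) * ((a - b) * (a + b)) := by
      unfold fq; ring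
    have hab : |a + b| ≤ 2 := by
      calc |a + b| ≤ |a| + |b| := abs_add_le a b
        _ ≤ 2 := by linarith
    have hl : 0 < lam j := by linarith [hlam j]
    rw [e, abs_mul (2 * lam j), abs_mul (a - b), abs_of_pos (by linarith : (0:ℝ) < 2 * lam j)]
    have e2 : DD lam (j + 1) = DD lam j * (4 * lam j) := by
      unfold DD; rw [Finset.prod_range_succ]
    rw [e2]
    calc 2 * lam j * (|a - b| * |a + b|) ≤ 2 * lam j * (|a - b| * 2) := by gcongr
      _ = 4 * lam j * |a - b| := by ring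
      _ ≤ 4 * lam j * (DD lam j * |x - y|) := by gcongr
      _ = _ := by ring

theorem half_le {lam : ℕ → ℝ} (hlam : ∀ i, 2 ≤ lam i) (i : ℕ) (x : ℝ)
    (hx : |TT lam (i + 1) x| ≤ 1) : 1 / 2 ≤ |TT lam i x| := by
  rw [TT_succ] at hx
  set a := TT lam i x
  have h1 := (abs_le.mp hx).1
  unfold fq at h1
  by_contra hcon
  rw [not_le] at hcon
  have h2 : a ^ 2 < 1 / 4 := by
    rw [← sq_abs]
    have := abs_nonneg a
    nlinarith
  have := hlam i
  nlinarith

theorem sep {lam : ℕ → ℝ} (hlam : ∀ i, 2 ≤ lam i) (k : ℕ) (x y : ℝ)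
    (hx : |TT lam (k + 1) x| ≤ 1) (hy : |TT lam (k + 1) y| ≤ 1) (hxy : DD lam k * |x - y| < 1)
    (i : ℕ) (hi : i < k + 1) : 0 ≤ TT lam i x ↔ 0 ≤ TT lam i y := by
  have hlam1 : ∀ i, 1 ≤ lam i := fun i => by linarith [hlam i]
  have hx1 := half_le hlam i x (TT_le_one_of_le hlam1 hi hx)
  have hy1 := half_le hlam i y (TT_le_one_of_le hlam1 hi hy)
  have h1 := lip_upper hlam i x y (TT_le_one_of_le hlam1 hi.le hx) (TT_le_one_of_le hlam1 hi.le hy)
  have h2 : DD lam i * |x - y| ≤ DD lam k * |x - y| := by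
    have := DD_mono hlam (Nat.lt_succ_iff.mp hi)
    gcongr
  have h3 : |TT lam i x - TT lam i y| < 1 := by linarith
  rw [abs_lt] at h3
  constructor
  · intro h
    rw [abs_of_nonneg h] at hx1
    by_contra hcon
    rw [not_le] at hcon
    rw [abs_of_neg hcon] at hy1
    linarith
  · intro h
    rw [abs_of_nonneg h] at hy1
    by_contra hcon
    rw [not_le] at hcon
    rw [abs_of_neg hcon] at hx1
    linarith

theorem lip_lower {lam : ℕ → ℝ} (hlam : ∀ i, 2 ≤ lam i) (k : ℕ) (x y : ℝ)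
    (hx : |TT lam k x| ≤ 1) (hy : |TT lam k y| ≤ 1)
    (hs : ∀ i < k, (0 ≤ TT lam i x ↔ 0 ≤ TT lam i y)) :
    LL lam k * |x - y| ≤ |TT lam k x - TT lam k y| := by
  have hlam1 : ∀ i, 1 ≤ lam i := fun i => by linarith [hlam i]
  induction k with
  | zero => simp [LL, TT]
  | succ j ih =>
    have hx' := TT_le_one_of_le hlam1 (Nat.le_succ j) hx
    have hy' := TT_le_one_of_le hlam1 (Nat.le_succ j) hy
    have ih' := ih hx' hy' (fun i hi => hs i (by omega))
    have hx1 := half_le hlam j x hx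
    have hy1 := half_le hlam j y hy
    have hsj := hs j (by omega)
    rw [TT_succ, TT_succ]
    set a := TT lam j x
    set b := TT lam j y
    have e : fq (lam j) a - fq (lam j) b = (2 * lam j) * ((a - b) * (a + b)) := by
      unfold fq; ring
    have hab : 1 ≤ |a + b| := by
      by_cases h : 0 ≤ a
      · have h' := hsj.mp h
        rw [abs_of_nonneg h] at hx1
        rw [abs_of_nonneg h'] at hy1
        rw [abs_of_nonneg (by linarith)]
        linarith
      · have h' : ¬ (0 ≤ b) := fun h2 => h (hsj.mpr h2)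
        rw [not_le] at h h'
        rw [abs_of_neg h] at hx1
        rw [abs_of_neg h'] at hy1
        rw [abs_of_neg (by linarith)]
        linarith
    have hl : 0 < lam j := by linarith [hlam j]
    rw [e, abs_mul (2 * lam j), abs_mul (a - b), abs_of_pos (by linarith : (0:ℝ) < 2 * lam j)]
    have e2 : LL lam (j + 1) = LL lam j * (2 * lam j) := by
      unfold LL; rw [Finset.prod_range_succ]
    rw [e2]
    calc LL lam j * (2 * lam j) * |x - y| = 2 * lam j * (LL lam j * |x - y|) := by ring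
      _ ≤ 2 * lam j * |a - b| := by gcongr
      _ = 2 * lam j * (|a - b| * 1) := by ring
      _ ≤ 2 * lam j * (|a - b| * |a + b|) := by gcongr

section measure
variable {lam : ℕ → ℝ} (hlam : ∀ i, 2 ≤ lam i) {ν : ProbabilityMeasure ℝ} {U : Ultrafilter ℕ}
  (hU : (U : Filter ℕ) ≤ atTop) (h : Tendsto (om lam) U (𝓝 ν))
include hlam hU h

theorem mass_Icc (k : ℕ) (x r : ℝ) (hr : DD lam k * r < 1) :
    (ν : Measure ℝ) (Icc x (x + r)) ≤ (2 : ENNReal)⁻¹ ^ (k + 1) := by
  have hD := DD_pos hlam k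
  -- enlarge the interval
  obtain ⟨ε, hε, hε2⟩ : ∃ ε > 0, DD lam k * (r + 2 * ε) < 1 := by
    refine ⟨(1 - DD lam k * r) / (4 * DD lam k), by apply div_pos <;> linarith, ?_⟩
    have : DD lam k * (r + 2 * ((1 - DD lam k * r) / (4 * DD lam k))) = (1 + DD lam k * r) / 2 := by
      field_simp; ring
    rw [this]; linarith
  refine le_trans (measure_mono (t := Ioo (x - ε) (x + r + ε)) ?_) ?_
  · intro z hz
    constructor <;> linarith [hz.1, hz.2]
  · apply limit_mass hlam hU h (k + 1) _ isOpen_Ioo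
    intro a ha b hb ha1 hb1 i hi
    apply sep hlam k a b ha1 hb1 _ i hi
    have : |a - b| < r + 2 * ε := by
      rw [abs_lt]; constructor <;> linarith [ha.1, ha.2, hb.1, hb.2]
    calc DD lam k * |a - b| ≤ DD lam k * (r + 2 * ε) := by gcongr
      _ < 1 := hε2

end measure

/-- concentration function -/
noncomputable def cc (ν : Measure ℝ) (r : NNReal) : ENNReal := ⨆ x : ℝ, ν (Icc x (x + r))

theorem cc_le_one (ν : Measure ℝ) [IsProbabilityMeasure ν] (r : NNReal) : cc ν r ≤ 1 :=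
  iSup_le fun _ => prob_le_one

theorem cc_mono (ν : Measure ℝ) : Monotone (cc ν) := by
  intro r s hrs
  apply iSup_mono
  intro x
  apply measure_mono
  apply Icc_subset_Icc_right
  have : (r : ℝ) ≤ s := by exact_mod_cast hrs
  linarith

theorem cc_sub (ν : Measure ℝ) (r s : NNReal) : cc ν (r + s) ≤ cc ν r + cc ν s := by
  apply iSup_le
  intro x
  have h1 : Icc x (x + ((r + s : NNReal) : ℝ)) ⊆ Icc x (x + r) ∪ Icc (x + r) ((x + r) + s) := by
    intro z hz
    rw [NNReal.coe_add, ← add_assoc] at hz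
    rcases le_total z (x + r) with h | h
    · left; exact ⟨hz.1, h⟩
    · right; exact ⟨h, hz.2⟩
  refine le_trans (measure_mono h1) (le_trans (measure_union_le _ _) ?_)
  exact add_le_add (le_iSup (fun x : ℝ => ν (Icc x (x + r))) x)
    (le_iSup (fun x : ℝ => ν (Icc x (x + s))) (x + r))

/-- the gauge function -/
noncomputable def hh (ν : Measure ℝ) (r : NNReal) : NNReal := (cc ν r).toNNReal

theorem hh_coe (ν : Measure ℝ) [IsProbabilityMeasure ν] (r : NNReal) :
    ((hh ν r : NNReal) : ENNReal) = cc ν r :=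
  ENNReal.coe_toNNReal (lt_of_le_of_lt (cc_le_one ν r) one_lt_top).ne

theorem hh_mono (ν : Measure ℝ) [IsProbabilityMeasure ν] : Monotone (hh ν) := by
  intro r s hrs
  rw [← ENNReal.coe_le_coe, hh_coe, hh_coe]
  exact cc_mono ν hrs

theorem hh_continuous (ν : Measure ℝ) [IsProbabilityMeasure ν]
    (hsmall : ∀ ε : NNReal, 0 < ε → ∃ δ : NNReal, 0 < δ ∧ cc ν δ ≤ ε) : Continuous (hh ν) := by
  rw [Metric.continuous_iff]
  intro r ε hε
  have hε2 : 0 < ε / 2 := by positivity
  obtain ⟨δ, hδ, hδ2⟩ := hsmall (Real.toNNReal (ε / 2)) (Real.toNNReal_pos.mpr hε2)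
  refine ⟨δ, by exact_mod_cast hδ, ?_⟩
  have key : ∀ a b : NNReal, a ≤ b → dist a b < δ → (hh ν b : ℝ) ≤ hh ν a + ε / 2 ∧ (hh ν a : ℝ) ≤ hh ν b := by
    intro a b hab hd
    refine ⟨?_, by exact_mod_cast hh_mono ν hab⟩
    obtain ⟨c, rfl⟩ := exists_add_of_le hab
    have hc : c ≤ δ := by
      rw [NNReal.dist_eq] at hd
      have : |(a : ℝ) - ((a + c : NNReal) : ℝ)| = c := by
        rw [NNReal.coe_add, sub_add_cancel_left, abs_neg, abs_of_nonneg c.coe_nonneg]
      rw [this] at hd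
      exact_mod_cast hd.le
    have h1 : cc ν (a + c) ≤ cc ν a + cc ν δ := le_trans (cc_sub ν a c) (by gcongr; exact cc_mono ν hc)
    have h2 : cc ν (a + c) ≤ cc ν a + ((Real.toNNReal (ε / 2) : NNReal) : ENNReal) :=
      le_trans h1 (by gcongr)
    rw [← hh_coe ν (a + c), ← hh_coe ν a, ← ENNReal.coe_add, ENNReal.coe_le_coe] at h2
    have h3 : ((hh ν (a + c) : NNReal) : ℝ) ≤ ((hh ν a + Real.toNNReal (ε / 2) : NNReal) : ℝ) :=
      NNReal.coe_le_coe.mpr h2
    rw [NNReal.coe_add, Real.coe_toNNReal _ hε2.le] at h3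
    exact h3
  intro b hb
  rcases le_total r b with hrb | hrb
  · have := key r b hrb (by rw [dist_comm]; exact hb)
    rw [NNReal.dist_eq, abs_lt]
    constructor <;> linarith [this.1, this.2]
  · have := key b r hrb hb
    rw [NNReal.dist_eq, abs_lt]
    constructor <;> linarith [this.1, this.2]

theorem le_cc (ν : Measure ℝ) (s : Set ℝ) (hs : s.Nonempty) (hb : Metric.ediam s ≤ 1) :
    ν s ≤ cc ν (Metric.ediam s).toNNReal := by
  have hne : Metric.ediam s ≠ ⊤ := (lt_of_le_of_lt hb one_lt_top).ne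
  have hbd : Bornology.IsBounded s := Metric.isBounded_iff_ediam_ne_top.mpr hne
  have hr : (((Metric.ediam s).toNNReal : NNReal) : ℝ) = Metric.diam s := rfl
  have hsub : s ⊆ Icc (sInf s) (sInf s + ((Metric.ediam s).toNNReal : ℝ)) := by
    intro x hx
    rw [hr]
    refine ⟨csInf_le hbd.bddBelow hx, ?_⟩
    have : x - Metric.diam s ≤ sInf s := by
      apply le_csInf hs
      intro y hy
      have := Metric.dist_le_diam_of_mem hbd hx hy
      rw [Real.dist_eq] at this
      linarith [le_abs_self (x - y)]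
    linarith
  exact le_trans (measure_mono hsub) (le_iSup (fun x : ℝ => ν (Icc x (x + ((Metric.ediam s).toNNReal : ℝ)))) (sInf s))

end Pool.Agent.Helper368
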