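import Mathlib
import Pool.Agent.Helper368.Geom

open MeasureTheory Set Filter Topology ENNReal

namespace Pool.Agent.Helper368

/-- exponents of the sequence -/
def ex (i : ℕ) : ℕ := if i + 1 = 2 ^ (Nat.log 2 (i + 1)) then i + 1 else 1

/-- the sequence of expansion factors -/
noncomputable def lamS (i : ℕ) : ℝ := 2 ^ (ex i)

theorem one_le_ex (i : ℕ) : 1 ≤ ex i := by
  unfold ex; split_ifs <;> omega

theorem ex_le (i : ℕ) : ex i ≤ i + 1 := by
  unfold ex; split_ifs <;> omega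

theorem two_le_lamS (i : ℕ) : 2 ≤ lamS i := by
  unfold lamS
  calc (2:ℝ) = 2 ^ 1 := by norm_num
    _ ≤ 2 ^ ex i := pow_le_pow_right₀ (by norm_num) (one_le_ex i)

theorem lamS_le (i : ℕ) : lamS i ≤ 2 ^ (i + 1) := by
  unfold lamS
  exact pow_le_pow_right₀ (by norm_num) (ex_le i)

theorem sum_ex (k : ℕ) (hk : 1 ≤ k) : ∑ i ∈ Finset.range k, ex i ≤ k + 2 ^ (Nat.log 2 k + 1) := by
  induction k, hk using Nat.le_induction with
  | base => simp [ex]
  | succ k hk ih =>
    rw [Finset.sum_range_succ]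
    by_cases h : k + 1 = 2 ^ (Nat.log 2 (k + 1))
    · have h1 : Nat.log 2 k + 1 ≤ Nat.log 2 (k + 1) := by
        apply Nat.log_lt_of_lt_pow (by omega)
        rw [← h]; omega
      have h2 : 2 ^ (Nat.log 2 k + 1) ≤ 2 ^ (Nat.log 2 (k + 1)) := Nat.pow_le_pow_right (by norm_num) h1
      have h3 : 2 ^ (Nat.log 2 (k + 1) + 1) = 2 * 2 ^ (Nat.log 2 (k + 1)) := by rw [pow_succ]; ring
      have h4 := ex_le k
      omega
    · have h1 : ex k = 1 := by unfold ex; rw [if_neg h]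
      have h2 : 2 ^ (Nat.log 2 k + 1) ≤ 2 ^ (Nat.log 2 (k + 1) + 1) :=
        Nat.pow_le_pow_right (by norm_num) (by
          have := Nat.log_mono_right (b := 2) (Nat.le_succ k)
          exact Nat.succ_le_succ this)
      omega

theorem sum_ex' (k : ℕ) : ∑ i ∈ Finset.range k, ex i ≤ 3 * k := by
  rcases Nat.eq_zero_or_pos k with rfl | hk
  · simp
  · have h1 := sum_ex k hk
    have h2 : 2 ^ (Nat.log 2 k + 1) = 2 * 2 ^ (Nat.log 2 k) := by rw [pow_succ]; ring
    have h3 := Nat.pow_log_le_self 2 (show k ≠ 0 by omega)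
    omega

theorem DD_le (k : ℕ) : DD lamS k ≤ 32 ^ k := by
  unfold DD lamS
  rw [Finset.prod_mul_distrib, Finset.prod_pow_eq_pow_sum]
  simp only [Finset.prod_const, Finset.card_range]
  calc (4:ℝ) ^ k * 2 ^ (∑ i ∈ Finset.range k, ex i) ≤ 4 ^ k * 2 ^ (3 * k) := by
        gcongr
        · norm_num
        · exact sum_ex' k
    _ = 32 ^ k := by
        rw [pow_mul, ← mul_pow]; norm_num

/-- good levels -/
theorem good (n : ℕ) : 2 * DD lamS (2 ^ n - 1) < LL lamS (2 ^ n) := by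
  obtain ⟨j, hj⟩ : ∃ j, 2 ^ n = j + 1 := ⟨2 ^ n - 1, by have := Nat.one_le_two_pow (n := n); omega⟩
  have e1 : 2 ^ n - 1 = j := by omega
  rw [e1, hj]
  have e2 : LL lamS (j + 1) = LL lamS j * (2 * lamS j) := by
    unfold LL; rw [Finset.prod_range_succ]
  have e3 : lamS j = 2 ^ (j + 1) := by
    unfold lamS
    congr 1
    unfold ex
    rw [if_pos]
    rw [← hj, Nat.log_pow (by norm_num)]
  have e4 : DD lamS j = 2 ^ j * LL lamS j := by
    unfold DD LL
    rw [← Finset.card_range j, ← Finset.prod_const, Finset.card_range, ← Finset.prod_mul_distrib]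
    apply Finset.prod_congr rfl
    intro i _; ring
  rw [e2, e3, e4]
  have hL := LL_pos two_le_lamS j
  have h2 : (0:ℝ) < 2 ^ j := by positivity
  rw [pow_succ]
  nlinarith [mul_pos h2 hL]

theorem TT_neg (lam : ℕ → ℝ) (k : ℕ) (x : ℝ) : TT lam (k + 1) (-x) = TT lam (k + 1) x := by
  show TT (shift lam) k (fq (lam 0) (-x)) = TT (shift lam) k (fq (lam 0) x)
  rw [fq_neg]

theorem KK_neg {lam : ℕ → ℝ} {x : ℝ} (hx : x ∈ KK lam) : -x ∈ KK lam := by
  intro k
  cases k with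
  | zero =>
    have := hx 0
    simpa [TT] using this
  | succ k => rw [TT_neg]; exact hx (k + 1)

theorem diam_KK {lam : ℕ → ℝ} (hlam : ∀ i, 2 ≤ lam i) (hne : (KK lam).Nonempty) :
    1 ≤ Metric.diam (KK lam) := by
  obtain ⟨x, hx⟩ := hne
  have h1 := half_le hlam 0 x (hx 1)
  have h2 : |x| ≥ 1 / 2 := h1
  have h3 := Metric.dist_le_diam_of_mem (KK_compact lam).isBounded hx (KK_neg hx)
  rw [Real.dist_eq] at h3
  have h4 : |x - -x| = 2 * |x| := by
    rw [sub_neg_eq_add, ← two_mul, abs_mul, abs_two]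
  linarith

section main
variable {ν : ProbabilityMeasure ℝ} {U : Ultrafilter ℕ}
  (hU : (U : Filter ℕ) ≤ atTop) (h : Tendsto (om lamS) U (𝓝 ν))
include hU h

theorem cc_bound (k : ℕ) (r : NNReal) (hr : DD lamS k * r < 1) :
    cc (ν : Measure ℝ) r ≤ (2 : ENNReal)⁻¹ ^ (k + 1) :=
  iSup_le fun x => mass_Icc two_le_lamS hU h k x r hr

theorem cc_small (ε : NNReal) (hε : 0 < ε) : ∃ δ : NNReal, 0 < δ ∧ cc (ν : Measure ℝ) δ ≤ ε := by
  have h0 : Tendsto (fun k : ℕ => (2 : ENNReal)⁻¹ ^ k) atTop (𝓝 0) :=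
    ENNReal.tendsto_pow_atTop_nhds_zero_of_lt_one (ENNReal.inv_lt_one.mpr (by norm_num))
  have h1 : ∀ᶠ k in atTop, (2 : ENNReal)⁻¹ ^ k < ε :=
    h0.eventually (Iio_mem_nhds (by exact_mod_cast hε))
  obtain ⟨k, hk⟩ := h1.exists
  have hD := DD_pos two_le_lamS k
  refine ⟨Real.toNNReal (1 / (2 * DD lamS k)), Real.toNNReal_pos.mpr (by positivity), ?_⟩
  refine le_trans (cc_bound hU h k _ ?_) ?_
  · rw [Real.coe_toNNReal _ (by positivity)]
    have : DD lamS k * (1 / (2 * DD lamS k)) = 1 / 2 := by field_simp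
    rw [this]; norm_num
  · refine le_trans ?_ hk.le
    rw [pow_succ]
    calc (2 : ENNReal)⁻¹ ^ k * 2⁻¹ ≤ (2 : ENNReal)⁻¹ ^ k * 1 := by
          gcongr
          exact ENNReal.inv_le_one.mpr (by norm_num)
      _ = _ := mul_one _

theorem cc_zero : cc (ν : Measure ℝ) 0 = 0 := by
  apply le_antisymm _ zero_le
  apply ENNReal.le_of_forall_pos_le_add
  intro ε hε _
  obtain ⟨δ, hδ, h2⟩ := cc_small hU h ε hε
  rw [zero_add]
  exact le_trans (cc_mono _ zero_le) h2

/-- polynomial decay of the concentration function -/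
theorem cc_pow (r : NNReal) (hr : r ≤ 1) : cc (ν : Measure ℝ) r ≤ 2 * (r : ENNReal) ^ (1 / 5 : ℝ) := by
  rcases eq_or_ne r 0 with rfl | hr0
  · rw [cc_zero hU h]; exact zero_le
  have hr0' : 0 < r := pos_iff_ne_zero.mpr hr0
  obtain ⟨n, hn1, hn2⟩ := exists_nat_pow_near_of_lt_one hr0' hr (show (0:NNReal) < 1/32 by norm_num)
    (by rw [div_lt_one (by norm_num)]; norm_num)
  have h1 : cc (ν : Measure ℝ) r ≤ (2 : ENNReal)⁻¹ ^ n := by
    rcases Nat.eq_zero_or_pos n with rfl | hn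
    · simpa using cc_le_one _ r
    · obtain ⟨m, rfl⟩ : ∃ m, n = m + 1 := ⟨n - 1, by omega⟩
      apply cc_bound hU h m
      have hD := DD_pos two_le_lamS m
      have hD2 := DD_le m
      have hr2 : (r : ℝ) ≤ (1 / 32) ^ (m + 1) := by exact_mod_cast hn2
      have hr3 : (0:ℝ) ≤ r := r.coe_nonneg
      calc DD lamS m * r ≤ 32 ^ m * (1 / 32) ^ (m + 1) := by gcongr
        _ = 1 / 32 := by
          rw [pow_succ, ← mul_assoc, ← mul_pow]; norm_num
        _ < 1 := by norm_num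
  refine le_trans h1 ?_
  have h2 : (2 : ENNReal)⁻¹ ^ (n + 1) ≤ (r : ENNReal) ^ (1 / 5 : ℝ) := by
    have h3 : ((2:NNReal)⁻¹ ^ (n + 1)) = (((1:NNReal) / 32) ^ (n + 1)) ^ (1 / 5 : ℝ) := by
      rw [← NNReal.rpow_natCast, ← NNReal.rpow_natCast, ← NNReal.rpow_mul, mul_comm, NNReal.rpow_mul]
      congr 1
      have : (1:NNReal) / 32 = (2⁻¹) ^ (5:ℝ) := by
        have : (2⁻¹ : NNReal) ^ (5:ℝ) = 2⁻¹ ^ (5:ℕ) := by
          rw [← NNReal.rpow_natCast]; norm_num
        rw [this]; norm_num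
      rw [this, ← NNReal.rpow_mul]; norm_num
    have h4 : ((2:NNReal)⁻¹ ^ (n + 1)) ≤ r ^ (1 / 5 : ℝ) := by
      rw [h3]
      exact NNReal.rpow_le_rpow hn1.le (by norm_num)
    have h5 : (2 : ENNReal)⁻¹ ^ (n + 1) = (((2:NNReal)⁻¹ ^ (n + 1) : NNReal) : ENNReal) := by
      rw [ENNReal.coe_pow, ENNReal.coe_inv (by norm_num)]; rfl
    rw [h5, ← ENNReal.coe_rpow_of_nonneg _ (by norm_num)]
    exact ENNReal.coe_le_coe.mpr h4
  calc (2 : ENNReal)⁻¹ ^ n = 2 * (2 : ENNReal)⁻¹ ^ (n + 1) := by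
        rw [pow_succ, mul_comm, mul_assoc, ENNReal.inv_mul_cancel (by norm_num) (by norm_num), mul_one]
    _ ≤ _ := by gcongr

/-- the limit set has positive dimension -/
theorem dim_ne_zero (hK : (ν : Measure ℝ) (KK lamS)ᶜ = 0) : dimH (KK lamS) ≠ 0 := by
  intro hd
  have h0 : (Measure.hausdorffMeasure (((1 / 5 : NNReal) : NNReal) : ℝ) : Measure ℝ) (KK lamS) = 0 := by
    apply hausdorffMeasure_of_dimH_lt
    rw [hd]
    have : (0:NNReal) < 1 / 5 := by norm_num
    exact_mod_cast this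
  have h1 : (2 : ENNReal)⁻¹ • (ν : Measure ℝ) ≤ Measure.hausdorffMeasure (((1 / 5 : NNReal) : NNReal) : ℝ) := by
    apply Measure.le_hausdorffMeasure _ _ 1 (by norm_num)
    intro s hs
    rcases s.eq_empty_or_nonempty with rfl | hne
    · simp
    have hne' : Metric.ediam s ≠ ⊤ := (lt_of_le_of_lt hs one_lt_top).ne
    rw [Measure.smul_apply, smul_eq_mul]
    have h2 := le_cc (ν : Measure ℝ) s hne hs
    have h3 := cc_pow hU h (Metric.ediam s).toNNReal (by
      rw [← ENNReal.coe_le_coe, ENNReal.coe_toNNReal hne']; exact_mod_cast hs)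
    rw [ENNReal.coe_toNNReal hne'] at h3
    have e : (((1 / 5 : NNReal) : NNReal) : ℝ) = 1 / 5 := by norm_num
    rw [e]
    calc (2 : ENNReal)⁻¹ * (ν : Measure ℝ) s ≤ 2⁻¹ * (2 * (Metric.ediam s) ^ (1 / 5 : ℝ)) := by
          gcongr
          exact le_trans h2 h3
      _ = _ := by rw [← mul_assoc, ENNReal.inv_mul_cancel (by norm_num) (by norm_num), one_mul]
  have h2 := h1 (KK lamS)
  rw [h0, Measure.smul_apply, smul_eq_mul] at h2
  have h3 : (ν : Measure ℝ) (KK lamS) = 1 := by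
    rw [← prob_compl_eq_zero_iff (KK_closed lamS).measurableSet]; exact hK
  rw [h3] at h2
  simp at h2

/-- pieces of the covering -/
def piece (lam : ℕ → ℝ) (k : ℕ) (e : Fin k → Bool) : Set ℝ :=
  {x | |TT lam k x| ≤ 1 ∧ ∀ i : Fin k, (0 ≤ TT lam i x ↔ e i = true)}

omit hU h in
theorem piece_cover (lam : ℕ → ℝ) (k : ℕ) : KK lam ⊆ ⋃ e, piece lam k e := by
  classical
  intro x hx
  rw [mem_iUnion]
  refine ⟨fun i => decide (0 ≤ TT lam i x), hx k, ?_⟩
  intro i
  simp

omit hU h in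
theorem piece_ediam {lam : ℕ → ℝ} (hlam : ∀ i, 2 ≤ lam i) (k : ℕ) (e : Fin k → Bool) :
    Metric.ediam (piece lam k e) ≤ ENNReal.ofReal (2 / LL lam k) := by
  apply Metric.ediam_le
  intro x hx y hy
  rw [edist_dist]
  apply ENNReal.ofReal_le_ofReal
  have h1 := lip_lower hlam k x y hx.1 hy.1 (fun i hi => by
    rw [hx.2 ⟨i, hi⟩, hy.2 ⟨i, hi⟩])
  have h2 : |TT lam k x - TT lam k y| ≤ 2 := by
    have a1 := abs_le.mp hx.1
    have a2 := abs_le.mp hy.1
    rw [abs_le]; constructor <;> linarith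
  rw [Real.dist_eq, le_div_iff₀ (LL_pos hlam k)]
  linarith

theorem mk_le_one : Measure.mkMetric (fun r : ENNReal => ((hh (ν : Measure ℝ) r.toNNReal : NNReal) : ENNReal))
    (KK lamS) ≤ 1 := by
  have hLL : ∀ k, (4:ℝ) ^ k ≤ LL lamS k := by
    intro k
    unfold LL
    calc (4:ℝ) ^ k = ∏ i ∈ Finset.range k, (4:ℝ) := by simp
      _ ≤ _ := by
        apply Finset.prod_le_prod
        · intro i _; norm_num
        · intro i _; linarith [two_le_lamS i]
  have hr : Tendsto (fun n : ℕ => ENNReal.ofReal (2 / LL lamS (2 ^ n))) atTop (𝓝 0) := by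
    have h1 : Tendsto (fun n : ℕ => (2:ℝ) / LL lamS (2 ^ n)) atTop (𝓝 0) := by
      apply squeeze_zero (g := fun n : ℕ => 2 * (1/2 : ℝ) ^ n)
      · intro n
        have := LL_pos two_le_lamS (2 ^ n)
        positivity
      · intro n
        have hp : (2:ℝ) ^ n ≤ LL lamS (2 ^ n) := by
          calc (2:ℝ) ^ n ≤ 4 ^ n := by gcongr; norm_num
            _ ≤ 4 ^ (2 ^ n) := by
              apply pow_le_pow_right₀ (by norm_num)
              exact Nat.lt_two_pow_self.le
            _ ≤ _ := hLL _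
        have : (2:ℝ) / LL lamS (2 ^ n) ≤ 2 / 2 ^ n := by gcongr
        refine le_trans this (le_of_eq ?_)
        rw [div_pow, one_pow]; ring
      · have := (tendsto_pow_atTop_nhds_zero_of_lt_one (show (0:ℝ) ≤ 1/2 by norm_num) (by norm_num)).const_mul 2
        simpa using this
    have := ENNReal.tendsto_ofReal h1
    simpa using this
  refine le_trans (Measure.mkMetric_le_liminf_sum (KK lamS) (fun n : ℕ => ENNReal.ofReal (2 / LL lamS (2 ^ n))) hr
    (fun n : ℕ => piece lamS (2 ^ n)) (Eventually.of_forall fun n e => piece_ediam two_le_lamS _ e)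
    (Eventually.of_forall fun n => piece_cover lamS _) _) ?_
  have hterm : ∀ n : ℕ, ∑ e : Fin (2 ^ n) → Bool,
      ((hh (ν : Measure ℝ) (Metric.ediam (piece lamS (2 ^ n) e)).toNNReal : NNReal) : ENNReal) ≤ 1 := by
    intro n
    have hb : ∀ e : Fin (2 ^ n) → Bool,
      ((hh (ν : Measure ℝ) (Metric.ediam (piece lamS (2 ^ n) e)).toNNReal : NNReal) : ENNReal)
        ≤ (2 : ENNReal)⁻¹ ^ (2 ^ n) := by
      intro e
      rw [hh_coe]
      have h1 := piece_ediam two_le_lamS (2 ^ n) e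
      have hp := LL_pos two_le_lamS (2 ^ n)
      obtain ⟨j, hj⟩ : ∃ j, 2 ^ n = j + 1 := ⟨2 ^ n - 1, by have := Nat.one_le_two_pow (n := n); omega⟩
      have e1 : 2 ^ n - 1 = j := by omega
      have hg := good n
      rw [e1] at hg
      have h2 : cc (ν : Measure ℝ) (Metric.ediam (piece lamS (2 ^ n) e)).toNNReal ≤ (2 : ENNReal)⁻¹ ^ (j + 1) := by
        apply cc_bound hU h j
        have h3 : (((Metric.ediam (piece lamS (2 ^ n) e)).toNNReal : NNReal) : ℝ) ≤ 2 / LL lamS (2 ^ n) := by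
          have := ENNReal.toNNReal_mono ofReal_ne_top h1
          have h4 : (((Metric.ediam (piece lamS (2 ^ n) e)).toNNReal : NNReal) : ℝ) ≤ ((ENNReal.ofReal (2 / LL lamS (2 ^ n))).toNNReal : ℝ) := by
            exact_mod_cast this
          refine le_trans h4 (le_of_eq ?_)
          exact Real.coe_toNNReal _ (by positivity)
        have hD := DD_pos two_le_lamS j
        calc DD lamS j * (((Metric.ediam (piece lamS (2 ^ n) e)).toNNReal : NNReal) : ℝ)
            ≤ DD lamS j * (2 / LL lamS (2 ^ n)) := by gcongr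
          _ = (2 * DD lamS j) / LL lamS (2 ^ n) := by ring
          _ < 1 := by rw [div_lt_one hp]; exact hg
      rw [← hj] at h2
      exact h2
    calc _ ≤ ∑ e : Fin (2 ^ n) → Bool, (2 : ENNReal)⁻¹ ^ (2 ^ n) := Finset.sum_le_sum fun e _ => hb e
      _ = 1 := by
        rw [Finset.sum_const, Finset.card_univ, Fintype.card_fun, Fintype.card_bool, Fintype.card_fin,
          nsmul_eq_mul]
        push_cast
        rw [← mul_pow, ENNReal.mul_inv_cancel (by norm_num) (by norm_num), one_pow]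
  calc _ ≤ liminf (fun _ : ℕ => (1 : ENNReal)) atTop := Filter.liminf_le_liminf (Eventually.of_forall hterm)
    _ = 1 := by simp

theorem nu_eq (hK : (ν : Measure ℝ) (KK lamS)ᶜ = 0) :
    (ν : Measure ℝ) = (Measure.mkMetric (fun r : ENNReal =>
      ((hh (ν : Measure ℝ) r.toNNReal : NNReal) : ENNReal))).restrict (KK lamS) := by
  set Λ : Measure ℝ := Measure.mkMetric (fun r : ENNReal =>
      ((hh (ν : Measure ℝ) r.toNNReal : NNReal) : ENNReal)) with hΛ
  have hle : (ν : Measure ℝ) ≤ Λ := by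
    apply Measure.le_mkMetric _ _ 1 (by norm_num)
    intro s hs
    rcases s.eq_empty_or_nonempty with rfl | hne
    · simp
    rw [hh_coe]
    exact le_cc _ s hne hs
  have hone : Λ (KK lamS) ≤ 1 := mk_le_one hU h
  have hKm := (KK_closed lamS).measurableSet
  have hν1 : (ν : Measure ℝ) (KK lamS) = 1 := by
    rw [← prob_compl_eq_zero_iff hKm]; exact hK
  ext s hs
  rw [Measure.restrict_apply hs]
  have h1 : (ν : Measure ℝ) s = (ν : Measure ℝ) (s ∩ KK lamS) := by
    apply le_antisymm _ (measure_mono inter_subset_left)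
    calc (ν : Measure ℝ) s ≤ (ν : Measure ℝ) ((s ∩ KK lamS) ∪ (KK lamS)ᶜ) := by
          apply measure_mono
          intro x hx
          by_cases hxK : x ∈ KK lamS
          · left; exact ⟨hx, hxK⟩
          · right; exact hxK
      _ ≤ _ := measure_union_le _ _
      _ = _ := by rw [hK, add_zero]
  rw [h1]
  apply le_antisymm (hle _)
  have h2 : Λ (KK lamS) = Λ (s ∩ KK lamS) + Λ (KK lamS \ s) := by
    rw [inter_comm]; exact (measure_inter_add_sdiff (KK lamS) hs).symm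
  have h3 : (ν : Measure ℝ) (KK lamS) = (ν : Measure ℝ) (s ∩ KK lamS) + (ν : Measure ℝ) (KK lamS \ s) := by
    rw [inter_comm]; exact (measure_inter_add_sdiff (KK lamS) hs).symm
  have h4 : Λ (KK lamS \ s) ≠ ⊤ := by
    have : Λ (KK lamS \ s) ≤ Λ (KK lamS) := measure_mono sdiff_subset
    exact (lt_of_le_of_lt (le_trans this hone) one_lt_top).ne
  have h5 : Λ (s ∩ KK lamS) + Λ (KK lamS \ s) ≤ (ν : Measure ℝ) (s ∩ KK lamS) + Λ (KK lamS \ s) := by
    calc Λ (s ∩ KK lamS) + Λ (KK lamS \ s) = Λ (KK lamS) := h2.symm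
      _ ≤ 1 := hone
      _ = (ν : Measure ℝ) (s ∩ KK lamS) + (ν : Measure ℝ) (KK lamS \ s) := by rw [← h3, hν1]
      _ ≤ _ := by gcongr
  exact (ENNReal.add_le_add_iff_right h4).mp h5

end main

end Pool.Agent.Helper368
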