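import Mathlib

open Set Filter Topology

namespace Pool.Agent.Helper368.Gap

/-- the growing coefficients -/
def lam (n : ℕ) : ℕ := 16 ^ (n ^ 2 + 1)

theorem lam_ge (n : ℕ) : 16 ≤ lam n := by
  unfold lam
  calc 16 = 16 ^ 1 := by norm_num
    _ ≤ 16 ^ (n ^ 2 + 1) := Nat.pow_le_pow_right (by norm_num) (by omega)

theorem lam_geR (n : ℕ) : (16:ℝ) ≤ (lam n : ℝ) := by exact_mod_cast lam_ge n

/-- the recursion `T₀ = x`, `T_{n+1} = lam n T_n² - 4 + x` -/
def Tq {R : Type*} [CommRing R] (x : R) : ℕ → R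
  | 0 => x
  | n + 1 => (lam n : R) * (Tq x n) ^ 2 - 4 + x

theorem Tq_zero {R : Type*} [CommRing R] (x : R) : Tq x 0 = x := rfl

theorem Tq_succ {R : Type*} [CommRing R] (x : R) (n : ℕ) :
    Tq x (n + 1) = (lam n : R) * (Tq x n) ^ 2 - 4 + x := rfl

theorem Tq_map {R S : Type*} [CommRing R] [CommRing S] (φ : R →+* S) (x : R) (n : ℕ) :
    φ (Tq x n) = Tq (φ x) n := by
  induction n with
  | zero => rfl
  | succ n ih =>
    rw [Tq_succ, Tq_succ, ← ih]
    rw [map_add, map_sub, map_mul, map_pow, map_natCast, map_ofNat]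

theorem Tq_ofReal (x : ℝ) (n : ℕ) : ((Tq x n : ℝ) : ℂ) = Tq (x : ℂ) n :=
  Tq_map Complex.ofRealHom x n

theorem Tq_continuous (n : ℕ) : Continuous (fun x : ℝ => Tq x n) := by
  induction n with
  | zero => exact continuous_id
  | succ n ih =>
    simp only [Tq_succ]
    fun_prop

theorem Tq_continuousC (n : ℕ) : Continuous (fun x : ℂ => Tq x n) := by
  induction n with
  | zero => exact continuous_id
  | succ n ih =>
    simp only [Tq_succ]
    fun_prop

/-- real limit set -/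
def KR : Set ℝ := {x | ∀ n, |Tq x n| ≤ 1}

/-- complex limit set -/
def KC : Set ℂ := {z | ∀ n, ‖Tq z n‖ ≤ 1}

/-- max of 1 and modulus -/
noncomputable def Mx (z : ℂ) (n : ℕ) : ℝ := max 1 ‖Tq z n‖

theorem Mx_one_le (z : ℂ) (n : ℕ) : 1 ≤ Mx z n := le_max_left _ _

theorem norm_le_Mx (z : ℂ) (n : ℕ) : ‖Tq z n‖ ≤ Mx z n := le_max_right _ _

theorem norm_lamC (n : ℕ) : ‖(lam n : ℂ)‖ = (lam n : ℝ) := by
  simp

theorem Mx_sq_le (z : ℂ) (n : ℕ) : ‖z‖ ≤ Mx z n ∧ Mx z n ^ 2 ≤ Mx z (n + 1) := by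
  have key : ∀ n, ‖z‖ ≤ Mx z n → Mx z n ^ 2 ≤ Mx z (n + 1) := by
    intro n hz
    rcases le_or_gt ‖Tq z n‖ 1 with h | h
    · have : Mx z n = 1 := max_eq_left h
      rw [this, one_pow]; exact Mx_one_le z (n + 1)
    · have hM : Mx z n = ‖Tq z n‖ := max_eq_right h.le
      rw [hM] at hz ⊢
      refine le_trans ?_ (norm_le_Mx z (n + 1))
      rw [Tq_succ]
      have h1 : ‖(lam n : ℂ) * (Tq z n) ^ 2‖ = lam n * ‖Tq z n‖ ^ 2 := by
        rw [norm_mul, norm_pow, norm_lamC]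
      have h2 : ‖(lam n : ℂ) * (Tq z n) ^ 2‖ - ‖(4 : ℂ) - z‖ ≤ ‖(lam n : ℂ) * (Tq z n) ^ 2 - 4 + z‖ := by
        have := norm_sub_norm_le ((lam n : ℂ) * (Tq z n) ^ 2) (4 - z)
        have e : (lam n : ℂ) * (Tq z n) ^ 2 - (4 - z) = (lam n : ℂ) * (Tq z n) ^ 2 - 4 + z := by ring
        rw [e] at this; exact this
      have h3 : ‖(4 : ℂ) - z‖ ≤ 4 + ‖z‖ := by
        have := norm_sub_le (4 : ℂ) z
        simpa using this
      rw [h1] at h2
      have h5 := lam_geR n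
      have h6 : 16 * ‖Tq z n‖ ^ 2 ≤ lam n * ‖Tq z n‖ ^ 2 := by gcongr
      nlinarith
  induction n with
  | zero =>
    have : ‖z‖ ≤ Mx z 0 := le_max_right _ _
    exact ⟨this, key 0 this⟩
  | succ n ih =>
    have h1 := ih.2
    have h2 := Mx_one_le z n
    have : ‖z‖ ≤ Mx z (n + 1) := by nlinarith [ih.1]
    exact ⟨this, key (n + 1) this⟩

theorem Mx_mono (z : ℂ) : Monotone (Mx z) := by
  apply monotone_nat_of_le_succ
  intro n
  have h1 := (Mx_sq_le z n).2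
  have h2 := Mx_one_le z n
  nlinarith

theorem Mx_upper (z : ℂ) (n : ℕ) : Mx z (n + 1) ≤ (lam n + 4 + ‖z‖) * Mx z n ^ 2 := by
  have h1 := Mx_one_le z n
  have h0 := norm_nonneg z
  have h5 := lam_geR n
  have hM : 1 ≤ Mx z n ^ 2 := one_le_pow₀ h1
  apply max_le
  · nlinarith
  · rw [Tq_succ]
    have h2 : ‖(lam n : ℂ) * (Tq z n) ^ 2 - 4 + z‖ ≤ lam n * ‖Tq z n‖ ^ 2 + 4 + ‖z‖ := by
      calc ‖(lam n : ℂ) * (Tq z n) ^ 2 - 4 + z‖ ≤ ‖(lam n : ℂ) * (Tq z n) ^ 2 - 4‖ + ‖z‖ := norm_add_le _ _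
        _ ≤ ‖(lam n : ℂ) * (Tq z n) ^ 2‖ + ‖(4:ℂ)‖ + ‖z‖ := by gcongr; exact norm_sub_le _ _
        _ = _ := by rw [norm_mul, norm_pow, norm_lamC]; norm_num
    have h3 := norm_le_Mx z n
    have h4 : ‖Tq z n‖ ^ 2 ≤ Mx z n ^ 2 := by gcongr
    have h6 : (lam n : ℝ) * ‖Tq z n‖ ^ 2 ≤ lam n * Mx z n ^ 2 := by gcongr
    nlinarith

theorem norm_le_one_of_le {z : ℂ} {k n : ℕ} (hkn : k ≤ n) (h : ‖Tq z n‖ ≤ 1) : ‖Tq z k‖ ≤ 1 := by
  have h1 : Mx z n = 1 := max_eq_left h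
  have h2 := Mx_mono z hkn
  rw [h1] at h2
  exact le_trans (norm_le_Mx z k) h2

theorem abs_le_one_of_le {x : ℝ} {k n : ℕ} (hkn : k ≤ n) (h : |Tq x n| ≤ 1) : |Tq x k| ≤ 1 := by
  have h1 : ‖Tq (x : ℂ) n‖ ≤ 1 := by rw [← Tq_ofReal, Complex.norm_real]; exact h
  have h2 := norm_le_one_of_le hkn h1
  rwa [← Tq_ofReal, Complex.norm_real] at h2

theorem four_le_of_sq {n : ℕ} {a : ℝ} (h : 2 ≤ (lam n : ℝ) * a ^ 2) : 4 ≤ (lam n : ℝ) * |a| := by
  have h5 := lam_geR n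
  by_contra hcon
  rw [not_le] at hcon
  have h0 : 0 ≤ (lam n : ℝ) * |a| := by positivity
  have h1 : ((lam n : ℝ) * |a|) ^ 2 < 16 := by nlinarith
  rw [mul_pow, sq_abs] at h1
  nlinarith

/-- imaginary parts grow -/
theorem im_growth {z : ℂ} {n : ℕ} (h : ‖Tq z n‖ ≤ 1) : 7 ^ n * |z.im| ≤ |(Tq z n).im| := by
  induction n with
  | zero => simp [Tq_zero]
  | succ n ih =>
    have hz0 : ‖z‖ ≤ 1 := norm_le_one_of_le (Nat.zero_le _) h
    have ih := ih (norm_le_one_of_le (Nat.le_succ n) h)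
    have hre : 4 ≤ (lam n : ℝ) * |(Tq z n).re| := by
      apply four_le_of_sq
      have h1 := h
      rw [Tq_succ] at h1
      have h2 : |((lam n : ℂ) * (Tq z n) ^ 2 - 4 + z).re| ≤ 1 := le_trans (Complex.abs_re_le_norm _) h1
      have h3 : |z.re| ≤ 1 := le_trans (Complex.abs_re_le_norm _) hz0
      have h4 : ((lam n : ℂ) * (Tq z n) ^ 2 - 4 + z).re
          = lam n * ((Tq z n).re ^ 2 - (Tq z n).im ^ 2) - 4 + z.re := by
        simp [pow_two]
      rw [h4] at h2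
      have h5 := abs_le.mp h2
      have h6 := abs_le.mp h3
      have h7 : 0 ≤ (lam n : ℝ) * (Tq z n).im ^ 2 := by positivity
      nlinarith
    have h1 : (Tq z (n + 1)).im = 2 * lam n * (Tq z n).re * (Tq z n).im + z.im := by
      rw [Tq_succ]; simp [pow_two]; ring
    rw [h1]
    have h2 : |2 * lam n * (Tq z n).re * (Tq z n).im| - |z.im|
        ≤ |2 * lam n * (Tq z n).re * (Tq z n).im + z.im| := by
      have := abs_sub_abs_le_abs_sub (2 * lam n * (Tq z n).re * (Tq z n).im) (-z.im)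
      rw [abs_neg, sub_neg_eq_add] at this
      exact this
    have h3 : 8 * |(Tq z n).im| ≤ |2 * lam n * (Tq z n).re * (Tq z n).im| := by
      rw [abs_mul, abs_mul, abs_mul, abs_of_pos (by norm_num : (0:ℝ) < 2), Nat.abs_cast]
      nlinarith [abs_nonneg (Tq z n).im]
    have h4 : (1:ℝ) ≤ 7 ^ n := one_le_pow₀ (by norm_num)
    rw [pow_succ]
    nlinarith [abs_nonneg z.im]

theorem KC_real {z : ℂ} (hz : z ∈ KC) : z.im = 0 := by
  by_contra hne
  have hpos : 0 < |z.im| := abs_pos.mpr hne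
  obtain ⟨n, hn⟩ := pow_unbounded_of_one_lt (1 / |z.im|) (show (1:ℝ) < 7 by norm_num)
  rw [div_lt_iff₀ hpos] at hn
  have h1 := im_growth (hz n)
  have h2 : |(Tq z n).im| ≤ 1 := le_trans (Complex.abs_im_le_norm _) (hz n)
  linarith

theorem root_real {z : ℂ} {n : ℕ} (h : Tq z n = 0) : z.im = 0 := by
  have h1 := im_growth (z := z) (n := n) (by rw [h]; simp)
  rw [h] at h1
  simp only [Complex.zero_im, abs_zero] at h1
  have h4 : (0:ℝ) < 7 ^ n := by positivity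
  have h5 : |z.im| ≤ 0 := by nlinarith [abs_nonneg z.im]
  exact abs_eq_zero.mp (le_antisymm h5 (abs_nonneg _))

theorem mem_KC_ofReal {x : ℝ} : (x : ℂ) ∈ KC ↔ x ∈ KR := by
  constructor
  · intro h n
    have := h n
    rwa [← Tq_ofReal, Complex.norm_real] at this
  · intro h n
    rw [← Tq_ofReal, Complex.norm_real]; exact h n

theorem mem_KC_iff {z : ℂ} : z ∈ KC ↔ ∃ x ∈ KR, (x : ℂ) = z := by
  constructor
  · intro h
    have h1 := KC_real h
    refine ⟨z.re, ?_, Complex.ext rfl (by simp [h1])⟩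
    rw [← mem_KC_ofReal]
    have : ((z.re : ℝ) : ℂ) = z := Complex.ext rfl (by simp [h1])
    rw [this]; exact h
  · rintro ⟨x, hx, rfl⟩
    exact mem_KC_ofReal.mpr hx

theorem sq_bounds {x : ℝ} {n k : ℕ} (hkn : k < n) (h : |Tq x n| ≤ 1) :
    2 ≤ (lam k : ℝ) * (Tq x k) ^ 2 ∧ (lam k : ℝ) * (Tq x k) ^ 2 ≤ 6 := by
  have h1 := abs_le.mp (abs_le_one_of_le (Nat.succ_le_of_lt hkn) h)
  have h0 := abs_le.mp (abs_le_one_of_le (Nat.zero_le n) h)
  rw [Nat.succ_eq_add_one, Tq_succ] at h1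
  rw [Tq_zero] at h0
  constructor <;> linarith

/-- lower bound -/
theorem half_real {x : ℝ} {n k : ℕ} (hkn : k < n) (h : |Tq x n| ≤ 1) : 4 ≤ (lam k : ℝ) * |Tq x k| :=
  four_le_of_sq (sq_bounds hkn h).1

/-- expansion and monotonicity -/
theorem mono_key (k : ℕ) {x y : ℝ}
    (h : ∀ i < k, 4 ≤ (lam i : ℝ) * |Tq x i| ∧ 4 ≤ (lam i : ℝ) * |Tq y i| ∧ (0 < Tq x i ↔ 0 < Tq y i)) :
    ∃ o : ℝ, (o = 1 ∨ o = -1) ∧ ∀ a b, x ≤ a → a ≤ b → b ≤ y →
      7 ^ k * (b - a) ≤ o * (Tq b k - Tq a k) := by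
  induction k with
  | zero => exact ⟨1, Or.inl rfl, fun a b _ _ _ => by simp [Tq_zero]⟩
  | succ k ih =>
    obtain ⟨o, ho, hmon⟩ := ih (fun i hi => h i (by omega))
    obtain ⟨hx, hy, hs⟩ := h k (by omega)
    have hl := lam_geR k
    obtain ⟨σ, hσ, hσx, hσy⟩ : ∃ σ : ℝ, (σ = 1 ∨ σ = -1) ∧ 4 ≤ lam k * (σ * Tq x k)
        ∧ 4 ≤ lam k * (σ * Tq y k) := by
      by_cases hpos : 0 < Tq x k
      · refine ⟨1, Or.inl rfl, ?_, ?_⟩
        · rwa [one_mul, ← abs_of_pos hpos]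
        · rwa [one_mul, ← abs_of_pos (hs.mp hpos)]
      · have hpos' : ¬ 0 < Tq y k := fun h => hpos (hs.mpr h)
        rw [not_lt] at hpos hpos'
        refine ⟨-1, Or.inr rfl, ?_, ?_⟩
        · rw [abs_of_nonpos hpos] at hx; linarith
        · rw [abs_of_nonpos hpos'] at hy; linarith
    have h7 : (1:ℝ) ≤ 7 ^ k := one_le_pow₀ (by norm_num)
    have hin : ∀ a, x ≤ a → a ≤ y → 4 ≤ lam k * (σ * Tq a k) := by
      intro a hxa hay
      have h1 := hmon x a le_rfl hxa hay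
      have h2 := hmon a y hxa hay le_rfl
      have h3 : 0 ≤ 7 ^ k * (a - x) := by nlinarith
      have h4 : 0 ≤ 7 ^ k * (y - a) := by nlinarith
      rcases ho with rfl | rfl <;> rcases hσ with rfl | rfl <;> nlinarith
    refine ⟨σ * o, ?_, ?_⟩
    · rcases ho with rfl | rfl <;> rcases hσ with rfl | rfl <;> norm_num
    · intro a b hxa hab hby
      have h1 := hmon a b hxa hab hby
      have h2 : 8 ≤ lam k * (σ * (Tq b k + Tq a k)) := by
        have := hin a hxa (le_trans hab hby)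
        have := hin b (le_trans hxa hab) hby
        linarith
      have h3 : 0 ≤ 7 ^ k * (b - a) := by nlinarith
      have e : σ * o * (Tq b (k + 1) - Tq a (k + 1))
          = (o * (Tq b k - Tq a k)) * (lam k * (σ * (Tq b k + Tq a k))) + σ * o * (b - a) := by
        rw [Tq_succ, Tq_succ]; ring
      rw [e, pow_succ]
      have h4 : 8 * (7 ^ k * (b - a)) ≤ (o * (Tq b k - Tq a k)) * (lam k * (σ * (Tq b k + Tq a k))) := by
        nlinarith
      have h5 : -(b - a) ≤ σ * o * (b - a) := by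
        rcases ho with rfl | rfl <;> rcases hσ with rfl | rfl <;> nlinarith
      nlinarith

theorem KR_closed : IsClosed KR := by
  have : KR = ⋂ n, {x | |Tq x n| ≤ 1} := by ext x; simp [KR]
  rw [this]
  exact isClosed_iInter fun n => isClosed_le ((Tq_continuous n).abs) continuous_const

theorem KR_sub : KR ⊆ Icc (-1) 1 := fun x hx => abs_le.mp (hx 0)

theorem KR_compact : IsCompact KR := isCompact_Icc.of_isClosed_subset KR_closed KR_sub

theorem half_KR {x : ℝ} (hx : x ∈ KR) (k : ℕ) : 4 ≤ (lam k : ℝ) * |Tq x k| :=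
  half_real (Nat.lt_succ_self k) (hx (k + 1))

/-- points of the limit set with the same itinerary coincide -/
theorem KR_unique {x y : ℝ} (hx : x ∈ KR) (hy : y ∈ KR) (h : ∀ i, (0 < Tq x i ↔ 0 < Tq y i)) : x = y := by
  wlog hxy : x ≤ y generalizing x y
  · exact (this hy hx (fun i => (h i).symm) (le_of_not_ge hxy)).symm
  by_contra hne
  have hpos : 0 < y - x := sub_pos.mpr (lt_of_le_of_ne hxy hne)
  obtain ⟨n, hn⟩ := pow_unbounded_of_one_lt (2 / (y - x)) (show (1:ℝ) < 7 by norm_num)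
  rw [div_lt_iff₀ hpos] at hn
  obtain ⟨o, ho, hmon⟩ := mono_key n (x := x) (y := y) (fun i _ => ⟨half_KR hx i, half_KR hy i, h i⟩)
  have h1 := hmon x y le_rfl hxy le_rfl
  have h2 := abs_le.mp (hx n)
  have h3 := abs_le.mp (hy n)
  rcases ho with rfl | rfl <;> linarith

/-- intermediate values: existence of points of the limit set -/
theorem exists_KR {k : ℕ} {a b : ℝ} (ha : -1 ≤ a) (hb : b ≤ 1) {z0 z1 : ℝ}
    (h0 : z0 ∈ Icc a b) (h1 : z1 ∈ Icc a b) (hz0 : Tq z0 k = 0) (hz1 : |Tq z1 k| = 1) :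
    ∃ w ∈ Icc a b, w ∈ KR := by
  have key : ∀ j, k ≤ j → ∃ p ∈ Icc a b, ∃ q ∈ Icc a b, Tq p j = 0 ∧ |Tq q j| = 1 := by
    intro j hj
    induction j, hj using Nat.le_induction with
    | base => exact ⟨z0, h0, z1, h1, hz0, hz1⟩
    | succ j hj ih =>
      obtain ⟨p, hp, q, hq, hp0, hq1⟩ := ih
      have e1 : Tq p (j + 1) ≤ -3 := by
        rw [Tq_succ, hp0]; linarith [hp.2]
      have e2 : 3 ≤ Tq q (j + 1) := by
        rw [Tq_succ]
        have : Tq q j ^ 2 = 1 := by rw [← sq_abs, hq1, one_pow]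
        rw [this]; linarith [hq.1, lam_geR j]
      have hconv : uIcc p q ⊆ Icc a b := by
        intro t ht
        rw [mem_uIcc] at ht
        rcases ht with ht | ht
        · exact ⟨le_trans hp.1 ht.1, le_trans ht.2 hq.2⟩
        · exact ⟨le_trans hq.1 ht.1, le_trans ht.2 hp.2⟩
      have hivt := intermediate_value_uIcc ((Tq_continuous (j + 1)).continuousOn (s := uIcc p q))
      have m0 : (0:ℝ) ∈ uIcc (Tq p (j + 1)) (Tq q (j + 1)) := by
        rw [mem_uIcc]; left; constructor <;> linarith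
      have m1 : (1:ℝ) ∈ uIcc (Tq p (j + 1)) (Tq q (j + 1)) := by
        rw [mem_uIcc]; left; constructor <;> linarith
      obtain ⟨p', hp', hp'0⟩ := hivt m0
      obtain ⟨q', hq', hq'1⟩ := hivt m1
      exact ⟨p', hconv hp', q', hconv hq', hp'0, by simp only at hq'1; rw [hq'1]; simp⟩
  have hne : (⋂ j : ℕ, (Icc a b ∩ {x | |Tq x (k + j)| ≤ 1})).Nonempty := by
    apply IsCompact.nonempty_iInter_of_sequence_nonempty_isCompact_isClosed
    · intro j x hx
      exact ⟨hx.1, abs_le_one_of_le (by omega) hx.2⟩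
    · intro j
      obtain ⟨p, hp, -, -, hp0, -⟩ := key (k + j) (by omega)
      exact ⟨p, hp, by simp [hp0]⟩
    · exact isCompact_Icc.inter_right (isClosed_le ((Tq_continuous _).abs) continuous_const)
    · intro j
      exact isClosed_Icc.inter (isClosed_le ((Tq_continuous _).abs) continuous_const)
  obtain ⟨w, hw⟩ := hne
  rw [mem_iInter] at hw
  refine ⟨w, (hw 0).1, ?_⟩
  intro n
  exact abs_le_one_of_le (Nat.le_add_left n k) (hw n).2

/-- bands -/
def IsBand (n : ℕ) (e : ℕ → Bool) (l r : ℝ) : Prop :=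
  l < r ∧ -1 ≤ l ∧ r ≤ 1 ∧ (∃ o : ℝ, (o = 1 ∨ o = -1) ∧ Tq l n = -o ∧ Tq r n = o) ∧
    ∀ x ∈ Icc l r, ∀ i < n, Tq x i ≠ 0 ∧ (0 < Tq x i ↔ e i = true)

theorem IsBand.mono {n : ℕ} {e : ℕ → Bool} {l r : ℝ} (h : IsBand n e l r) :
    ∃ o : ℝ, (o = 1 ∨ o = -1) ∧ ∀ a b, l ≤ a → a ≤ b → b ≤ r → 7 ^ n * (b - a) ≤ o * (Tq b n - Tq a n) := by
  obtain ⟨hlr, hl, hr, ⟨o, ho, hol, hor⟩, hs⟩ := h
  have habsl : |Tq l n| ≤ 1 := by rcases ho with rfl | rfl <;> rw [hol] <;> simp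
  have habsr : |Tq r n| ≤ 1 := by rcases ho with rfl | rfl <;> rw [hor] <;> simp
  apply mono_key n
  intro i hi
  refine ⟨half_real hi habsl, half_real hi habsr, ?_⟩
  rw [(hs l (left_mem_Icc.mpr hlr.le) i hi).2, (hs r (right_mem_Icc.mpr hlr.le) i hi).2]

theorem exists_band (n : ℕ) (e : ℕ → Bool) : ∃ l r, IsBand n e l r := by
  induction n with
  | zero =>
    refine ⟨-1, 1, by norm_num, le_rfl, le_rfl, ⟨1, Or.inl rfl, by simp [Tq_zero], by simp [Tq_zero]⟩, ?_⟩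
    intro x _ i hi; omega
  | succ n ih =>
    obtain ⟨l, r, hb⟩ := ih
    obtain ⟨o', ho', hmon⟩ := hb.mono
    obtain ⟨hlr, hl, hr, ⟨o, ho, hol, hor⟩, hs⟩ := hb
    have hlmem : l ∈ Icc l r := left_mem_Icc.mpr hlr.le
    have hrmem : r ∈ Icc l r := right_mem_Icc.mpr hlr.le
    have hivt := intermediate_value_uIcc ((Tq_continuous n).continuousOn (s := uIcc l r))
    have m0 : (0:ℝ) ∈ uIcc (Tq l n) (Tq r n) := by
      rw [hol, hor, mem_uIcc]
      rcases ho with rfl | rfl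
      · left; constructor <;> norm_num
      · right; constructor <;> norm_num
    obtain ⟨z, hz, hz0⟩ := hivt m0
    simp only at hz0
    rw [uIcc_of_le hlr.le] at hz
    obtain ⟨σ, hσ, hσe⟩ : ∃ σ : ℝ, (σ = 1 ∨ σ = -1) ∧ (0 < σ ↔ e n = true) := by
      cases he : e n
      · exact ⟨-1, Or.inr rfl, by norm_num⟩
      · exact ⟨1, Or.inl rfl, by norm_num⟩
    obtain ⟨p, hp, hpσ⟩ : ∃ p ∈ Icc l r, Tq p n = σ := by
      rcases ho with rfl | rfl <;> rcases hσ with rfl | rfl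
      · exact ⟨r, hrmem, hor⟩
      · exact ⟨l, hlmem, hol⟩
      · exact ⟨l, hlmem, by rw [hol]; norm_num⟩
      · exact ⟨r, hrmem, hor⟩
    have e1 : Tq z (n + 1) ≤ -3 := by rw [Tq_succ, hz0]; linarith [hz.2]
    have e2 : 3 ≤ Tq p (n + 1) := by
      rw [Tq_succ, hpσ]
      have : σ ^ 2 = 1 := by rcases hσ with rfl | rfl <;> norm_num
      rw [this]; linarith [hp.1, lam_geR n]
    have hivt2 := intermediate_value_uIcc ((Tq_continuous (n + 1)).continuousOn (s := uIcc z p))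
    obtain ⟨q1, hq1, hq1v⟩ := hivt2 (show (-1:ℝ) ∈ uIcc (Tq z (n + 1)) (Tq p (n + 1)) by
      rw [mem_uIcc]; left; constructor <;> linarith)
    obtain ⟨q2, hq2, hq2v⟩ := hivt2 (show (1:ℝ) ∈ uIcc (Tq z (n + 1)) (Tq p (n + 1)) by
      rw [mem_uIcc]; left; constructor <;> linarith)
    simp only at hq1v hq2v
    have hzp : uIcc z p ⊆ Icc l r := by
      intro t ht
      rw [mem_uIcc] at ht
      rcases ht with ht | ht
      · exact ⟨le_trans hz.1 ht.1, le_trans ht.2 hp.2⟩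
      · exact ⟨le_trans hp.1 ht.1, le_trans ht.2 hz.2⟩
    have hsign : ∀ t ∈ uIcc z p, t ≠ z → 0 < σ * Tq t n := by
      intro t ht htz
      have h7 : (1:ℝ) ≤ 7 ^ n := one_le_pow₀ (by norm_num)
      rw [mem_uIcc] at ht
      rcases ht with ht | ht
      · have h1 := hmon z t hz.1 ht.1 (le_trans ht.2 hp.2)
        have h2 := hmon t p (le_trans hz.1 ht.1) ht.2 hp.2
        have hlt : z < t := lt_of_le_of_ne ht.1 (Ne.symm htz)
        have h3 : 0 < 7 ^ n * (t - z) := by nlinarith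
        have h4 : 0 ≤ 7 ^ n * (p - t) := by nlinarith [ht.2]
        have h5 := hmon z p hz.1 (le_trans ht.1 ht.2) hp.2
        have h6 : 0 < 7 ^ n * (p - z) := by nlinarith
        rw [hz0] at h1 h5
        rw [hpσ] at h2 h5
        rcases ho' with rfl | rfl <;> rcases hσ with rfl | rfl <;> linarith
      · have h1 := hmon t z (le_trans hp.1 ht.1) ht.2 hz.2
        have h2 := hmon p t hp.1 ht.1 (le_trans ht.2 hz.2)
        have hlt : t < z := lt_of_le_of_ne ht.2 htz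
        have h3 : 0 < 7 ^ n * (z - t) := by nlinarith
        have h4 : 0 ≤ 7 ^ n * (t - p) := by nlinarith [ht.1]
        have h5 := hmon p z hp.1 (le_trans ht.1 ht.2) hz.2
        have h6 : 0 < 7 ^ n * (z - p) := by nlinarith
        rw [hz0] at h1 h5
        rw [hpσ] at h2 h5
        rcases ho' with rfl | rfl <;> rcases hσ with rfl | rfl <;> linarith
    have hq1z : q1 ≠ z := by rintro rfl; linarith
    have hq2z : q2 ≠ z := by rintro rfl; linarith
    have hne : q1 ≠ q2 := by rintro rfl; linarith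
    have hseg : ∀ t ∈ uIcc q1 q2, t ∈ uIcc z p ∧ t ≠ z := by
      intro t ht
      rw [mem_uIcc] at hq1 hq2 ht
      rcases hq1 with hq1 | hq1 <;> rcases hq2 with hq2 | hq2
      · have a1 : z < q1 := lt_of_le_of_ne hq1.1 (Ne.symm hq1z)
        have a2 : z < q2 := lt_of_le_of_ne hq2.1 (Ne.symm hq2z)
        rcases ht with ht | ht
        · exact ⟨by rw [mem_uIcc]; left; exact ⟨by linarith, by linarith⟩, by rintro rfl; linarith⟩
        · exact ⟨by rw [mem_uIcc]; left; exact ⟨by linarith, by linarith⟩, by rintro rfl; linarith⟩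
      · exfalso; have a1 : z < q1 := lt_of_le_of_ne hq1.1 (Ne.symm hq1z)
        have a2 : q2 < z := lt_of_le_of_ne hq2.2 hq2z
        linarith
      · exfalso; have a1 : q1 < z := lt_of_le_of_ne hq1.2 hq1z
        have a2 : z < q2 := lt_of_le_of_ne hq2.1 (Ne.symm hq2z)
        linarith
      · have a1 : q1 < z := lt_of_le_of_ne hq1.2 hq1z
        have a2 : q2 < z := lt_of_le_of_ne hq2.2 hq2z
        rcases ht with ht | ht
        · exact ⟨by rw [mem_uIcc]; right; exact ⟨by linarith, by linarith⟩, by rintro rfl; linarith⟩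
        · exact ⟨by rw [mem_uIcc]; right; exact ⟨by linarith, by linarith⟩, by rintro rfl; linarith⟩
    have hfin : ∀ x ∈ uIcc q1 q2, ∀ i < n + 1, Tq x i ≠ 0 ∧ (0 < Tq x i ↔ e i = true) := by
      intro x hx i hi
      obtain ⟨hx1, hx2⟩ := hseg x hx
      rcases Nat.lt_succ_iff_lt_or_eq.mp hi with hi | rfl
      · exact hs x (hzp hx1) i hi
      · have h1 := hsign x hx1 hx2
        rw [← hσe]
        rcases hσ with rfl | rfl
        · rw [one_mul] at h1
          exact ⟨h1.ne', by simp [h1]⟩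
        · have h2 : Tq x i < 0 := by linarith
          exact ⟨h2.ne, by constructor <;> intro h <;> linarith⟩
    rcases lt_or_gt_of_ne hne with hlt | hlt
    · refine ⟨q1, q2, hlt, ?_, ?_, ⟨1, Or.inl rfl, hq1v, hq2v⟩, ?_⟩
      · exact le_trans hl (hzp hq1).1
      · exact le_trans (hzp hq2).2 hr
      · intro x hx; exact hfin x (by rw [uIcc_of_le hlt.le]; exact hx)
    · refine ⟨q2, q1, hlt, ?_, ?_, ⟨-1, Or.inr rfl, by rw [hq2v]; norm_num, hq1v⟩, ?_⟩
      · exact le_trans hl (hzp hq2).1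
      · exact le_trans (hzp hq1).2 hr
      · intro x hx; exact hfin x (by rw [uIcc_comm, uIcc_of_le hlt.le]; exact hx)

end Pool.Agent.Helper368.Gap
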