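import Mathlib
import Pool.Agent.Helper368.G1

open Set Filter Topology

namespace Pool.Agent.Helper368.Gap

/-- square roots of the coefficients -/
noncomputable def sg (n : ℕ) : ℝ := 4 ^ (n ^ 2 + 1)

theorem sg_sq (n : ℕ) : sg n ^ 2 = (lam n : ℝ) := by
  unfold sg lam
  push_cast
  rw [← pow_mul, mul_comm, pow_mul]
  norm_num

theorem sg_one (n : ℕ) : 1 ≤ sg n := by
  unfold sg
  exact one_le_pow₀ (by norm_num)

theorem sg_pos (n : ℕ) : 0 < sg n := lt_of_lt_of_le one_pos (sg_one n)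

theorem sg_ge (n : ℕ) : (4:ℝ) ^ (n + 1) ≤ sg n := by
  unfold sg
  apply pow_le_pow_right₀ (by norm_num)
  nlinarith [Nat.le_self_pow (two_ne_zero) n]

/-- normalised size -/
noncomputable def Sz (x : ℝ) (k : ℕ) : ℝ := sg k * |Tq x k|

theorem Sz_sq {x : ℝ} (k : ℕ) : Sz x k ^ 2 = 4 - x + Tq x (k + 1) := by
  unfold Sz
  rw [mul_pow, sg_sq, sq_abs, Tq_succ]
  ring

theorem Sz_nonneg (x : ℝ) (k : ℕ) : 0 ≤ Sz x k := mul_nonneg (sg_pos k).le (abs_nonneg _)

theorem Sz_bounds {x : ℝ} (hx : x ∈ KR) (k : ℕ) : 7 / 5 ≤ Sz x k ∧ Sz x k ≤ 5 / 2 := by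
  have h1 := Sz_sq (x := x) k
  have h2 := abs_le.mp (hx (k + 1))
  have h3 := KR_sub hx
  have h0 := Sz_nonneg x k
  constructor
  · by_contra hcon
    rw [not_le] at hcon
    have : Sz x k ^ 2 < (7/5) ^ 2 := by gcongr
    nlinarith [h3.1, h3.2]
  · by_contra hcon
    rw [not_le] at hcon
    have : (5/2) ^ 2 < Sz x k ^ 2 := by gcongr
    nlinarith [h3.1, h3.2]

theorem Tq_small {x : ℝ} (hx : x ∈ KR) (k : ℕ) : |Tq x (k + 1)| ≤ (1 / 4) ^ k := by
  have h1 := (Sz_bounds hx (k + 1)).2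
  have h2 := sg_ge (k + 1)
  unfold Sz at h1
  have h3 : (4:ℝ) ^ (k + 1 + 1) * |Tq x (k + 1)| ≤ 5 / 2 := by
    refine le_trans ?_ h1
    gcongr
  have h4 : (4:ℝ) ^ k * |Tq x (k + 1)| ≤ 1 := by
    rw [pow_succ, pow_succ] at h3
    nlinarith [abs_nonneg (Tq x (k + 1))]
  rw [one_div_pow, le_div_iff₀ (by positivity)]
  linarith

theorem same_pos {x y : ℝ} (hx : x ∈ KR) (hy : y ∈ KR) {k : ℕ}
    (h : ∀ i < k, (0 < Tq x i ↔ 0 < Tq y i)) : 7 ^ k * |x - y| ≤ |Tq x k - Tq y k| := by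
  wlog hxy : x ≤ y generalizing x y
  · rw [abs_sub_comm, abs_sub_comm (Tq x k)]
    exact this hy hx (fun i hi => (h i hi).symm) (le_of_not_ge hxy)
  obtain ⟨o, ho, hmon⟩ := mono_key k (x := x) (y := y) (fun i hi => ⟨half_KR hx i, half_KR hy i, h i hi⟩)
  have h1 := hmon x y le_rfl hxy le_rfl
  rw [abs_sub_comm, abs_sub_comm (Tq x k), abs_of_nonneg (by linarith : 0 ≤ y - x)]
  refine le_trans h1 ?_
  rcases ho with rfl | rfl
  · rw [one_mul]; exact le_abs_self _
  · rw [neg_one_mul]; exact neg_le_abs _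

theorem ne_zero_KR {x : ℝ} (hx : x ∈ KR) (k : ℕ) : Tq x k ≠ 0 := by
  intro h
  have := half_KR hx k
  rw [h] at this
  simp at this
  linarith

/-- one step of the difference recursion -/
theorem diff_step {x y : ℝ} (hx : x ∈ KR) (hy : y ∈ KR) {k : ℕ}
    (h : ∀ i < k + 1, (0 < Tq x i ↔ 0 < Tq y i)) :
    |Tq x (k + 1) - Tq y (k + 1)| ≤ sg k * (Sz x k + Sz y k + (1 / 7) ^ k) * |Tq x k - Tq y k| ∧
    sg k * (Sz x k + Sz y k - (1 / 7) ^ k) * |Tq x k - Tq y k| ≤ |Tq x (k + 1) - Tq y (k + 1)| := by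
  have h1 := same_pos hx hy (k := k) (fun i hi => h i (by omega))
  have h2 : |x - y| ≤ sg k * (1 / 7) ^ k * |Tq x k - Tq y k| := by
    have h7 : (0:ℝ) < 7 ^ k := by positivity
    have e : |x - y| = (1/7) ^ k * (7 ^ k * |x - y|) := by
      rw [one_div, inv_pow]; field_simp
    rw [e]
    have h3 : (1/7 : ℝ) ^ k * (7 ^ k * |x - y|) ≤ (1/7 : ℝ) ^ k * |Tq x k - Tq y k| := by gcongr
    have h4 := sg_one k
    have h5 : 0 ≤ (1/7 : ℝ) ^ k * |Tq x k - Tq y k| := by positivity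
    nlinarith
  have h3 : |(lam k : ℝ) * (Tq x k - Tq y k) * (Tq x k + Tq y k)|
      = sg k * (Sz x k + Sz y k) * |Tq x k - Tq y k| := by
    rw [abs_mul, abs_mul, Nat.abs_cast]
    have h4 : |Tq x k + Tq y k| = |Tq x k| + |Tq y k| := by
      have hs := h k (by omega)
      by_cases hp : 0 < Tq x k
      · rw [abs_of_pos hp, abs_of_pos (hs.mp hp), abs_of_pos (add_pos hp (hs.mp hp))]
      · have hp' : ¬ 0 < Tq y k := fun h => hp (hs.mpr h)
        rw [not_lt] at hp hp'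
        rw [abs_of_nonpos hp, abs_of_nonpos hp', abs_of_nonpos (add_nonpos hp hp')]
        ring
    rw [h4, ← sg_sq]
    unfold Sz
    ring
  have e : Tq x (k + 1) - Tq y (k + 1)
      = (lam k : ℝ) * (Tq x k - Tq y k) * (Tq x k + Tq y k) + (x - y) := by
    rw [Tq_succ, Tq_succ]; ring
  constructor
  · rw [e]
    refine le_trans (abs_add_le _ _) ?_
    rw [h3]
    nlinarith
  · rw [e]
    have h5 := abs_sub_abs_le_abs_sub ((lam k : ℝ) * (Tq x k - Tq y k) * (Tq x k + Tq y k)) (-(x - y))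
    rw [abs_neg, sub_neg_eq_add, h3] at h5
    refine le_trans ?_ h5
    nlinarith

/-- product of the coefficients -/
noncomputable def Pi1 (m : ℕ) : ℝ := ∏ k ∈ Finset.range m, sg k

theorem Pi1_pos (m : ℕ) : 0 < Pi1 m := Finset.prod_pos fun k _ => sg_pos k

theorem Pi1_succ (m : ℕ) : Pi1 (m + 1) = Pi1 m * sg m := Finset.prod_range_succ _ _

theorem Pi1_mono : Monotone Pi1 := by
  apply monotone_nat_of_le_succ
  intro n
  rw [Pi1_succ]
  nlinarith [Pi1_pos n, sg_one n]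

theorem chain_lower {x y : ℝ} (hx : x ∈ KR) (hy : y ∈ KR) {m k0 : ℕ} {a : ℝ} (ha : 0 ≤ a)
    (hk0 : k0 ≤ m) (h : ∀ i < m, (0 < Tq x i ↔ 0 < Tq y i))
    (hr : ∀ k, k0 ≤ k → a ≤ Sz x k + Sz y k - (1 / 7) ^ k) :
    |x - y| * Pi1 m * a ^ m ≤ |Tq x m - Tq y m| * a ^ k0 := by
  have base : ∀ j ≤ m, |x - y| * Pi1 j ≤ |Tq x j - Tq y j| := by
    intro j hj
    induction j with
    | zero => simp [Pi1, Tq_zero]
    | succ j ih =>
      have h1 := (diff_step hx hy (k := j) (fun i hi => h i (by omega))).2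
      have h2 := ih (by omega)
      rw [Pi1_succ]
      refine le_trans ?_ h1
      have h3 : 1 ≤ Sz x j + Sz y j - (1/7) ^ j := by
        have := (Sz_bounds hx j).1
        have := (Sz_bounds hy j).1
        have : (1/7:ℝ) ^ j ≤ 1 := pow_le_one₀ (by norm_num) (by norm_num)
        linarith
      have h4 := sg_pos j
      calc |x - y| * (Pi1 j * sg j) = sg j * (|x - y| * Pi1 j) := by ring
        _ ≤ sg j * |Tq x j - Tq y j| := by gcongr
        _ ≤ sg j * (Sz x j + Sz y j - (1/7) ^ j) * |Tq x j - Tq y j| := by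
            nlinarith [mul_nonneg h4.le (abs_nonneg (Tq x j - Tq y j))]
  have key : ∀ j, k0 ≤ j → j ≤ m → |x - y| * Pi1 j * a ^ j ≤ |Tq x j - Tq y j| * a ^ k0 := by
    intro j hj
    induction j, hj using Nat.le_induction with
    | base =>
      intro hm
      have := base k0 hm
      gcongr
    | succ j hj ih =>
      intro hm
      have h1 := (diff_step hx hy (k := j) (fun i hi => h i (by omega))).2
      have h2 := ih (by omega)
      have h3 := hr j hj
      have h4 := sg_pos j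
      rw [Pi1_succ, pow_succ]
      calc |x - y| * (Pi1 j * sg j) * (a ^ j * a) = (sg j * a) * (|x - y| * Pi1 j * a ^ j) := by ring
        _ ≤ (sg j * a) * (|Tq x j - Tq y j| * a ^ k0) := by gcongr
        _ = (sg j * a * |Tq x j - Tq y j|) * a ^ k0 := by ring
        _ ≤ (sg j * (Sz x j + Sz y j - (1/7) ^ j) * |Tq x j - Tq y j|) * a ^ k0 := by gcongr
        _ ≤ |Tq x (j + 1) - Tq y (j + 1)| * a ^ k0 := by gcongr
  exact key m hk0 le_rfl

theorem chain_upper {x y : ℝ} (hx : x ∈ KR) (hy : y ∈ KR) {m k0 : ℕ} {b : ℝ} (hb : 0 ≤ b)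
    (hk0 : k0 ≤ m) (h : ∀ i < m, (0 < Tq x i ↔ 0 < Tq y i))
    (hr : ∀ k, k0 ≤ k → Sz x k + Sz y k + (1 / 7) ^ k ≤ b) :
    |Tq x m - Tq y m| * b ^ k0 ≤ |x - y| * Pi1 m * b ^ m * 6 ^ k0 := by
  have base : ∀ j ≤ m, |Tq x j - Tq y j| ≤ |x - y| * Pi1 j * 6 ^ j := by
    intro j hj
    induction j with
    | zero => simp [Pi1, Tq_zero]
    | succ j ih =>
      have h1 := (diff_step hx hy (k := j) (fun i hi => h i (by omega))).1
      have h2 := ih (by omega)
      rw [Pi1_succ, pow_succ]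
      refine le_trans h1 ?_
      have h3 : Sz x j + Sz y j + (1/7) ^ j ≤ 6 := by
        have := (Sz_bounds hx j).2
        have := (Sz_bounds hy j).2
        have : (1/7:ℝ) ^ j ≤ 1 := pow_le_one₀ (by norm_num) (by norm_num)
        linarith
      have h4 := sg_pos j
      calc sg j * (Sz x j + Sz y j + (1/7) ^ j) * |Tq x j - Tq y j|
          ≤ sg j * 6 * |Tq x j - Tq y j| := by gcongr
        _ ≤ sg j * 6 * (|x - y| * Pi1 j * 6 ^ j) := by gcongr
        _ = |x - y| * (Pi1 j * sg j) * (6 ^ j * 6) := by ring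
  have key : ∀ j, k0 ≤ j → j ≤ m → |Tq x j - Tq y j| * b ^ k0 ≤ |x - y| * Pi1 j * b ^ j * 6 ^ k0 := by
    intro j hj
    induction j, hj using Nat.le_induction with
    | base =>
      intro hm
      have := base k0 hm
      calc |Tq x k0 - Tq y k0| * b ^ k0 ≤ (|x - y| * Pi1 k0 * 6 ^ k0) * b ^ k0 := by gcongr
        _ = _ := by ring
    | succ j hj ih =>
      intro hm
      have h1 := (diff_step hx hy (k := j) (fun i hi => h i (by omega))).1
      have h2 := ih (by omega)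
      have h3 := hr j hj
      have h4 := sg_pos j
      rw [Pi1_succ, pow_succ]
      calc |Tq x (j + 1) - Tq y (j + 1)| * b ^ k0
          ≤ (sg j * (Sz x j + Sz y j + (1/7) ^ j) * |Tq x j - Tq y j|) * b ^ k0 := by gcongr
        _ ≤ (sg j * b * |Tq x j - Tq y j|) * b ^ k0 := by gcongr
        _ = (sg j * b) * (|Tq x j - Tq y j| * b ^ k0) := by ring
        _ ≤ (sg j * b) * (|x - y| * Pi1 j * b ^ j * 6 ^ k0) := by gcongr
        _ = |x - y| * (Pi1 j * sg j) * (b ^ j * b) * 6 ^ k0 := by ring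
  exact key m hk0 le_rfl

theorem opp_level {x y : ℝ} (hx : x ∈ KR) (hy : y ∈ KR) {m : ℕ}
    (h : ¬ (0 < Tq x m ↔ 0 < Tq y m)) :
    14 / 5 ≤ |Tq x m - Tq y m| * sg m ∧ |Tq x m - Tq y m| * sg m ≤ 5 := by
  have e : |Tq x m - Tq y m| * sg m = Sz x m + Sz y m := by
    unfold Sz
    have h1 := ne_zero_KR hx m
    have h2 := ne_zero_KR hy m
    have : |Tq x m - Tq y m| = |Tq x m| + |Tq y m| := by
      by_cases hp : 0 < Tq x m
      · have hp' : ¬ 0 < Tq y m := fun h' => h ⟨fun _ => h', fun _ => hp⟩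
        rw [not_lt] at hp'
        rw [abs_of_pos hp, abs_of_nonpos hp', abs_of_nonneg (by linarith)]
        ring
      · have hp' : 0 < Tq y m := by
          by_contra h'
          exact h ⟨fun h => absurd h hp, fun h => absurd h h'⟩
        rw [not_lt] at hp
        rw [abs_of_pos hp', abs_of_nonpos hp, abs_of_nonpos (by linarith)]
        ring
    rw [this]; ring
  rw [e]
  have := Sz_bounds hx m
  have := Sz_bounds hy m
  constructor <;> linarith

end Pool.Agent.Helper368.Gap
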