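import Mathlib
import Pool.Agent.Helper368.G2

open Set Filter Topology

namespace Pool.Agent.Helper368.Gap

theorem near_lower {x0 : ℝ} (hx0 : x0 ∈ KR) {p : ℝ} (hp2 : p ^ 2 < 4 - x0) :
    ∃ δ > 0, ∃ k0 : ℕ, ∀ x ∈ KR, |x - x0| < δ → ∀ k, k0 ≤ k →
      2 * p ≤ Sz x0 k + Sz x k - (1 / 7) ^ k := by
  obtain ⟨p1, hp1, hp12⟩ : ∃ p1, p < p1 ∧ p1 ^ 2 < 4 - x0 := by
    refine ⟨Real.sqrt ((p ^ 2 + (4 - x0)) / 2), ?_, ?_⟩
    · apply Real.lt_sqrt_of_sq_lt; linarith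
    · rw [Real.sq_sqrt (by nlinarith [sq_nonneg p])]; linarith
  have ha : ∀ᶠ k : ℕ in atTop, (1/4 : ℝ) ^ k < (4 - x0 - p1 ^ 2) / 2 :=
    (tendsto_pow_atTop_nhds_zero_of_lt_one (by norm_num) (by norm_num)).eventually
      (gt_mem_nhds (by linarith))
  have hb : ∀ᶠ k : ℕ in atTop, (1/7 : ℝ) ^ k < 2 * (p1 - p) :=
    (tendsto_pow_atTop_nhds_zero_of_lt_one (by norm_num) (by norm_num)).eventually
      (gt_mem_nhds (by linarith))
  obtain ⟨k0, hk0⟩ := eventually_atTop.mp (ha.and hb)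
  refine ⟨(4 - x0 - p1 ^ 2) / 2, by linarith, k0, ?_⟩
  have key : ∀ x ∈ KR, |x - x0| < (4 - x0 - p1 ^ 2) / 2 → ∀ k, k0 ≤ k → p1 ≤ Sz x k := by
    intro x hx hxx k hk
    have h1 := Sz_sq (x := x) k
    have h2 := abs_le.mp (Tq_small hx k)
    have h3 := abs_lt.mp hxx
    have h4 := (hk0 k hk).1
    have h5 := Sz_nonneg x k
    by_contra hcon
    rw [not_le] at hcon
    have : Sz x k ^ 2 < p1 ^ 2 := by gcongr
    linarith
  intro x hx hxx k hk
  have h1 := key x hx hxx k hk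
  have h2 := key x0 hx0 (by simp; linarith) k hk
  have h3 := (hk0 k hk).2
  linarith

theorem near_upper {x0 : ℝ} (hx0 : x0 ∈ KR) {q : ℝ} (hq : 0 < q) (hq2 : 4 - x0 < q ^ 2) :
    ∃ δ > 0, ∃ k0 : ℕ, ∀ x ∈ KR, |x - x0| < δ → ∀ k, k0 ≤ k →
      Sz x0 k + Sz x k + (1 / 7) ^ k ≤ 2 * q := by
  have h40 : 0 < 4 - x0 := by linarith [(KR_sub hx0).2]
  obtain ⟨q1, hq10, hq1, hq12⟩ : ∃ q1, 0 < q1 ∧ q1 < q ∧ 4 - x0 < q1 ^ 2 := by
    refine ⟨Real.sqrt ((q ^ 2 + (4 - x0)) / 2), ?_, ?_, ?_⟩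
    · apply Real.sqrt_pos_of_pos; positivity
    · rw [Real.sqrt_lt' hq]; linarith
    · rw [Real.sq_sqrt (by positivity)]; linarith
  have ha : ∀ᶠ k : ℕ in atTop, (1/4 : ℝ) ^ k < (q1 ^ 2 - (4 - x0)) / 2 :=
    (tendsto_pow_atTop_nhds_zero_of_lt_one (by norm_num) (by norm_num)).eventually
      (gt_mem_nhds (by linarith))
  have hb : ∀ᶠ k : ℕ in atTop, (1/7 : ℝ) ^ k < 2 * (q - q1) :=
    (tendsto_pow_atTop_nhds_zero_of_lt_one (by norm_num) (by norm_num)).eventually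
      (gt_mem_nhds (by linarith))
  obtain ⟨k0, hk0⟩ := eventually_atTop.mp (ha.and hb)
  refine ⟨(q1 ^ 2 - (4 - x0)) / 2, by linarith, k0, ?_⟩
  have key : ∀ x ∈ KR, |x - x0| < (q1 ^ 2 - (4 - x0)) / 2 → ∀ k, k0 ≤ k → Sz x k ≤ q1 := by
    intro x hx hxx k hk
    have h1 := Sz_sq (x := x) k
    have h2 := abs_le.mp (Tq_small hx k)
    have h3 := abs_lt.mp hxx
    have h4 := (hk0 k hk).1
    have h5 := Sz_nonneg x k
    by_contra hcon
    rw [not_le] at hcon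
    have : q1 ^ 2 < Sz x k ^ 2 := by gcongr
    linarith
  intro x hx hxx k hk
  have h1 := key x hx hxx k hk
  have h2 := key x0 hx0 (by simp; linarith) k hk
  have h3 := (hk0 k hk).2
  linarith

theorem band_KR {n : ℕ} {e : ℕ → Bool} {l r : ℝ} (h : IsBand n e l r) : ∃ w ∈ Icc l r, w ∈ KR := by
  obtain ⟨hlr, hl, hr, ⟨o, ho, hol, hor⟩, hs⟩ := h
  have hivt := intermediate_value_uIcc ((Tq_continuous n).continuousOn (s := uIcc l r))
  have m0 : (0:ℝ) ∈ uIcc (Tq l n) (Tq r n) := by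
    rw [hol, hor, mem_uIcc]
    rcases ho with rfl | rfl
    · left; constructor <;> norm_num
    · right; constructor <;> norm_num
  obtain ⟨z, hz, hz0⟩ := hivt m0
  simp only at hz0
  rw [uIcc_of_le hlr.le] at hz
  apply exists_KR hl hr hz (left_mem_Icc.mpr hlr.le) hz0
  rw [hol]
  rcases ho with rfl | rfl <;> simp

/-- realisation of finite itineraries -/
theorem exists_itin (n : ℕ) (e : ℕ → Bool) : ∃ w ∈ KR, ∀ i < n, (0 < Tq w i ↔ e i = true) := by
  obtain ⟨l, r, hb⟩ := exists_band n e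
  obtain ⟨w, hw, hwK⟩ := band_KR hb
  exact ⟨w, hwK, fun i hi => (hb.2.2.2.2 w hw i hi).2⟩

theorem exists_approx (x0 : ℝ) (m : ℕ) : ∃ x ∈ KR, (∀ i < m, (0 < Tq x0 i ↔ 0 < Tq x i)) ∧
    ¬ (0 < Tq x0 m ↔ 0 < Tq x m) := by
  classical
  obtain ⟨w, hw, hwe⟩ := exists_itin (m + 1) (fun i => if i = m then !decide (0 < Tq x0 i)
    else decide (0 < Tq x0 i))
  refine ⟨w, hw, ?_, ?_⟩
  · intro i hi
    have := hwe i (by omega)
    rw [this, if_neg (by omega)]
    simp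
  · have := hwe m (by omega)
    rw [this, if_pos rfl]
    by_cases h : 0 < Tq x0 m <;> simp [h]

theorem first_diff {x y : ℝ} (hx : x ∈ KR) (hy : y ∈ KR) (hne : x ≠ y) :
    ∃ m, (∀ i < m, (0 < Tq x i ↔ 0 < Tq y i)) ∧ ¬ (0 < Tq x m ↔ 0 < Tq y m) := by
  classical
  have : ∃ m, ¬ (0 < Tq x m ↔ 0 < Tq y m) := by
    by_contra hcon
    push Not at hcon
    exact hne (KR_unique hx hy hcon)
  refine ⟨Nat.find this, ?_, Nat.find_spec this⟩
  intro i hi
  have := Nat.find_min this hi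
  rwa [not_not] at this

theorem sign_nhds {y : ℝ} (hy : y ∈ KR) (K : ℕ) :
    ∀ᶠ y' in 𝓝 y, ∀ i < K, (0 < Tq y i ↔ 0 < Tq y' i) := by
  have h1 : ∀ i ∈ Finset.range K, ∀ᶠ y' in 𝓝 y, (0 < Tq y i ↔ 0 < Tq y' i) := by
    intro i _
    have hc : Tendsto (fun y' : ℝ => Tq y' i) (𝓝 y) (𝓝 (Tq y i)) := (Tq_continuous i).tendsto y
    rcases lt_or_gt_of_ne (ne_zero_KR hy i) with h | h
    · filter_upwards [hc.eventually (gt_mem_nhds h)] with y' hy'
      constructor <;> intro h' <;> linarith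
    · filter_upwards [hc.eventually (lt_mem_nhds h)] with y' hy'
      exact ⟨fun _ => hy', fun _ => h⟩
  have h2 := (Filter.eventually_all_finset (Finset.range K)).mpr h1
  filter_upwards [h2] with y' hy' i hi
  exact hy' i (Finset.mem_range.mpr hi)

/-- the local structures of the limit set at two different points are never bi-Lipschitz
equivalent -/
theorem no_pair {x0 y : ℝ} (hx0 : x0 ∈ KR) (hy : y ∈ KR) (hxy : x0 < y) {D δ : ℝ} (hD : 0 < D)
    (hδ : 0 < δ) (hpair : ∀ x ∈ KR, |x - x0| < δ → ∃ y' ∈ KR, |y' - y| ≤ D * |x - x0| ∧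
      |x - x0| ≤ D * |y' - y|) : False := by
  have hy1 := KR_sub hy
  have hx1 := KR_sub hx0
  -- the two rates
  obtain ⟨p, q, hq1, hqp, hp2, hq2⟩ : ∃ p q : ℝ, 1 ≤ q ∧ q < p ∧ p ^ 2 < 4 - x0 ∧ 4 - y < q ^ 2 := by
    refine ⟨Real.sqrt (4 - x0 - (y - x0) / 3), Real.sqrt (4 - y + (y - x0) / 3), ?_, ?_, ?_, ?_⟩
    · apply Real.le_sqrt_of_sq_le; linarith [hy1.2]
    · apply Real.sqrt_lt_sqrt <;> linarith [hy1.2]
    · rw [Real.sq_sqrt (by linarith [hy1.2])]; linarith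
    · rw [Real.sq_sqrt (by linarith [hy1.2])]; linarith
  have hq0 : 0 < q := by linarith
  have hp0 : 0 < p := by linarith
  obtain ⟨δ1, hδ1, k1, hnear1⟩ := near_lower hx0 hp2
  obtain ⟨δ2, hδ2, k2, hnear2⟩ := near_upper hy hq0 hq2
  obtain ⟨δ3, hδ3, hsign⟩ := Metric.eventually_nhds_iff.mp (sign_nhds hy k2)
  choose x hxK hxs hxo using exists_approx x0
  have hxd : ∀ m, |x m - x0| ≤ 2 * (1 / 7) ^ m := by
    intro m
    have h1 := same_pos hx0 (hxK m) (hxs m)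
    have h2 := abs_le.mp (hx0 m)
    have h3 := abs_le.mp (hxK m m)
    have h4 : |Tq x0 m - Tq (x m) m| ≤ 2 := by rw [abs_le]; constructor <;> linarith
    rw [abs_sub_comm, one_div_pow, mul_one_div, le_div_iff₀ (by positivity)]
    linarith
  have hlim : Tendsto (fun m : ℕ => 2 * (1/7 : ℝ) ^ m) atTop (𝓝 0) := by
    have := (tendsto_pow_atTop_nhds_zero_of_lt_one (r := (1/7:ℝ)) (by norm_num) (by norm_num)).const_mul 2
    simpa using this
  have hsmall : ∀ ε > 0, ∀ᶠ m : ℕ in atTop, |x m - x0| < ε := by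
    intro ε hε
    filter_upwards [hlim.eventually (gt_mem_nhds hε)] with m hm
    exact lt_of_le_of_lt (hxd m) hm
  -- constants
  have hc1 : ∀ᶠ m : ℕ in atTop, D * 6 ^ k2 * (5 * (2 * p) ^ k1) < (14 / 5 * (2 * q) ^ k2) * (p / q) ^ m := by
    have h1 : Tendsto (fun m : ℕ => (14 / 5 * (2 * q) ^ k2) * (p / q) ^ m) atTop atTop := by
      apply Tendsto.const_mul_atTop (by positivity)
      apply tendsto_pow_atTop_atTop_of_one_lt
      rw [one_lt_div hq0]; exact hqp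
    exact h1.eventually_gt_atTop _
  have hc2 : ∀ᶠ m : ℕ in atTop, 5 * D < 14 / 5 * (16 / 6) ^ m := by
    have h1 : Tendsto (fun m : ℕ => (14 / 5 : ℝ) * (16 / 6) ^ m) atTop atTop := by
      apply Tendsto.const_mul_atTop (by norm_num)
      apply tendsto_pow_atTop_atTop_of_one_lt
      norm_num
    exact h1.eventually_gt_atTop _
  obtain ⟨m, hm1, hm2, hm3, hm4, hm5, hmk⟩ := ((hsmall δ hδ).and ((hsmall δ1 hδ1).and
    ((hsmall (min δ2 δ3 / D) (by positivity)).and (hc1.and (hc2.and (eventually_ge_atTop k1)))))).exists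
  obtain ⟨y', hy'K, hy1', hy2'⟩ := hpair (x m) (hxK m) hm1
  have hclose : |y' - y| < min δ2 δ3 := by
    refine lt_of_le_of_lt hy1' ?_
    rw [lt_div_iff₀ hD] at hm3
    linarith
  have hxne : 0 < |x m - x0| := by
    rw [abs_pos, sub_ne_zero]
    intro h
    apply hxo m
    rw [h]
  have hyne : y ≠ y' := by
    rintro rfl
    simp at hy2'
    rw [sub_eq_zero] at hy2'
    rw [hy2'] at hxne
    simp at hxne
  obtain ⟨m', hm's, hm'o⟩ := first_diff hy hy'K hyne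
  have hk2 : k2 ≤ m' := by
    by_contra hcon
    rw [not_le] at hcon
    exact hm'o (hsign (lt_of_lt_of_le hclose (min_le_right _ _)) m' hcon)
  -- the four estimates
  have hΔ : |x0 - x m| = |x m - x0| := abs_sub_comm _ _
  have hΔ' : |y - y'| = |y' - y| := abs_sub_comm _ _
  have oppx := opp_level hx0 (hxK m) (hxo m)
  have oppy := opp_level hy hy'K hm'o
  have hA : |x m - x0| * Pi1 (m + 1) * (2 * p) ^ m ≤ 5 * (2 * p) ^ k1 := by
    have h1 := chain_lower hx0 (hxK m) (a := 2 * p) (by positivity) hmk (hxs m)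
      (hnear1 (x m) (hxK m) hm2)
    rw [hΔ] at h1
    rw [Pi1_succ]
    calc |x m - x0| * (Pi1 m * sg m) * (2 * p) ^ m = sg m * (|x m - x0| * Pi1 m * (2 * p) ^ m) := by ring
      _ ≤ sg m * (|Tq x0 m - Tq (x m) m| * (2 * p) ^ k1) := by
        have := sg_pos m; gcongr
      _ = (|Tq x0 m - Tq (x m) m| * sg m) * (2 * p) ^ k1 := by ring
      _ ≤ 5 * (2 * p) ^ k1 := by gcongr; exact oppx.2
  have hB : 14 / 5 ≤ |x m - x0| * Pi1 (m + 1) * 6 ^ m := by
    have h1 := chain_upper hx0 (hxK m) (b := 6) (by norm_num) (Nat.zero_le m) (hxs m) (by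
      intro k _
      have := (Sz_bounds hx0 k).2
      have := (Sz_bounds (hxK m) k).2
      have : (1/7:ℝ) ^ k ≤ 1 := pow_le_one₀ (by norm_num) (by norm_num)
      linarith)
    rw [hΔ, pow_zero, mul_one, mul_one] at h1
    rw [Pi1_succ]
    calc 14 / 5 ≤ |Tq x0 m - Tq (x m) m| * sg m := oppx.1
      _ ≤ (|x m - x0| * Pi1 m * 6 ^ m) * sg m := by
        have := sg_pos m; gcongr
      _ = _ := by ring
  have hC : 14 / 5 * (2 * q) ^ k2 ≤ |y' - y| * Pi1 (m' + 1) * (2 * q) ^ m' * 6 ^ k2 := by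
    have h1 := chain_upper hy hy'K (b := 2 * q) (by positivity) hk2 hm's
      (hnear2 y' hy'K (lt_of_lt_of_le hclose (min_le_left _ _)))
    rw [hΔ'] at h1
    rw [Pi1_succ]
    calc 14 / 5 * (2 * q) ^ k2 ≤ (|Tq y m' - Tq y' m'| * sg m') * (2 * q) ^ k2 := by
          gcongr; exact oppy.1
      _ = sg m' * (|Tq y m' - Tq y' m'| * (2 * q) ^ k2) := by ring
      _ ≤ sg m' * (|y' - y| * Pi1 m' * (2 * q) ^ m' * 6 ^ k2) := by
        have := sg_pos m'; gcongr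
      _ = _ := by ring
  have hDD : |y' - y| * Pi1 (m' + 1) ≤ 5 := by
    have h1 := chain_lower hy hy'K (a := 1) (by norm_num) (Nat.zero_le m') hm's (by
      intro k _
      have := (Sz_bounds hy k).1
      have := (Sz_bounds hy'K k).1
      have : (1/7:ℝ) ^ k ≤ 1 := pow_le_one₀ (by norm_num) (by norm_num)
      linarith)
    rw [hΔ', one_pow, one_pow, mul_one, mul_one] at h1
    rw [Pi1_succ]
    calc |y' - y| * (Pi1 m' * sg m') = (|y' - y| * Pi1 m') * sg m' := by ring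
      _ ≤ |Tq y m' - Tq y' m'| * sg m' := by
        have := sg_pos m'; gcongr
      _ ≤ 5 := oppy.2
  rcases le_or_gt m' m with hmm | hmm
  · have h1 : 14 / 5 * (2 * q) ^ k2 ≤ (D * |x m - x0|) * Pi1 (m + 1) * (2 * q) ^ m * 6 ^ k2 := by
      refine le_trans hC ?_
      have hP := Pi1_mono (show m' + 1 ≤ m + 1 by omega)
      have hpow : (2 * q) ^ m' ≤ (2 * q) ^ m := pow_le_pow_right₀ (by linarith) hmm
      have := Pi1_pos (m' + 1)
      have := Pi1_pos (m + 1)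
      gcongr
    have h2 : (14 / 5 * (2 * q) ^ k2) * (p / q) ^ m ≤ D * 6 ^ k2 * (5 * (2 * p) ^ k1) := by
      calc (14 / 5 * (2 * q) ^ k2) * (p / q) ^ m
          ≤ ((D * |x m - x0|) * Pi1 (m + 1) * (2 * q) ^ m * 6 ^ k2) * (p / q) ^ m := by gcongr
        _ = D * 6 ^ k2 * (|x m - x0| * Pi1 (m + 1) * (2 * p) ^ m) := by
            have e : (2 * q) ^ m * (p / q) ^ m = (2 * p) ^ m := by
              rw [← mul_pow]; congr 1; field_simp
            rw [← e]; ring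
        _ ≤ D * 6 ^ k2 * (5 * (2 * p) ^ k1) := by gcongr
    linarith
  · have h1 : (14 / 5) * sg (m + 1) ≤ 5 * D * 6 ^ m := by
      have hP := Pi1_mono (show m + 2 ≤ m' + 1 by omega)
      have hs := sg_pos (m + 1)
      have hP1 := Pi1_pos (m + 1)
      calc (14 / 5) * sg (m + 1) ≤ (|x m - x0| * Pi1 (m + 1) * 6 ^ m) * sg (m + 1) := by gcongr
        _ ≤ ((D * |y' - y|) * Pi1 (m + 1) * 6 ^ m) * sg (m + 1) := by gcongr
        _ = D * 6 ^ m * (|y' - y| * Pi1 (m + 2)) := by rw [Pi1_succ (m + 1)]; ring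
        _ ≤ D * 6 ^ m * (|y' - y| * Pi1 (m' + 1)) := by gcongr
        _ ≤ D * 6 ^ m * 5 := by gcongr
        _ = _ := by ring
    have h2 : (16:ℝ) ^ m ≤ sg (m + 1) := by
      unfold sg
      have : (16:ℝ) ^ m = 4 ^ (2 * m) := by rw [pow_mul]; norm_num
      rw [this]
      apply pow_le_pow_right₀ (by norm_num)
      nlinarith
    have h3 : 14 / 5 * (16 / 6 : ℝ) ^ m ≤ 5 * D := by
      rw [div_pow]
      rw [mul_div_assoc', div_le_iff₀ (by positivity)]
      linarith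
    linarith

end Pool.Agent.Helper368.Gap
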