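import Mathlib
import Pool.Agent.Helper368.G3

open Set Filter Topology Polynomial

namespace Pool.Agent.Helper368.Gap

theorem pair_exists (F : ℂ[X]) {x0 y : ℂ} (h : F.eval y = F.eval x0)
    (hx : F.derivative.eval x0 ≠ 0) (hy : F.derivative.eval y ≠ 0) :
    ∃ D > 0, ∃ δ > 0, ∀ x : ℂ, ‖x - x0‖ < δ → ∃ z : ℂ, F.eval z = F.eval x ∧
      ‖z - y‖ ≤ D * ‖x - x0‖ ∧ ‖x - x0‖ ≤ D * ‖z - y‖ := by
  have hsy : HasStrictDerivAt (fun z => F.eval z) (F.derivative.eval y) y := F.hasStrictDerivAt y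
  have hsx : HasStrictDerivAt (fun z => F.eval z) (F.derivative.eval x0) x0 := F.hasStrictDerivAt x0
  set ψ := hsy.localInverse _ _ _ hy with hψ
  have h1 : HasStrictDerivAt ψ (F.derivative.eval y)⁻¹ (F.eval y) := hsy.to_localInverse hy
  have h2 : ∀ᶠ w in 𝓝 (F.eval y), F.eval (ψ w) = w := hsy.eventually_right_inverse hy
  have h3 : ψ (F.eval y) = y := HasStrictFDerivAt.localInverse_apply_image ..
  rw [h] at h1 h2 h3
  have h4 : HasDerivAt (fun x => ψ (F.eval x)) ((F.derivative.eval y)⁻¹ * F.derivative.eval x0) x0 :=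
    h1.hasDerivAt.comp x0 hsx.hasDerivAt
  have hne : (F.derivative.eval y)⁻¹ * F.derivative.eval x0 ≠ 0 := mul_ne_zero (inv_ne_zero hy) hx
  have h5 : (fun x => ψ (F.eval x) - ψ (F.eval x0)) =O[𝓝 x0] fun x => x - x0 := h4.hasFDerivAt.isBigO_sub
  have ht : Tendsto (fun x : ℂ => (x, x0)) (𝓝 x0) (𝓝 x0 ×ˢ pure x0) :=
    tendsto_id.prodMk (tendsto_pure.mpr (Eventually.of_forall fun _ => rfl))
  have h6 : (fun x => x - x0) =O[𝓝 x0] fun x => ψ (F.eval x) - ψ (F.eval x0) :=
    (HasDerivAtFilter.isTheta_sub h4 hne).isBigO_symm.comp_tendsto ht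
  obtain ⟨C1, hC1, hb1⟩ := h5.exists_pos
  obtain ⟨C2, hC2, hb2⟩ := h6.exists_pos
  rw [Asymptotics.isBigOWith_iff] at hb1 hb2
  have hcont : Tendsto (fun x => F.eval x) (𝓝 x0) (𝓝 (F.eval x0)) := F.continuous.tendsto x0
  have h7 := (hb1.and (hb2.and (hcont.eventually h2)))
  obtain ⟨δ, hδ, hball⟩ := Metric.eventually_nhds_iff.mp h7
  refine ⟨max C1 C2, lt_max_of_lt_left hC1, δ, hδ, ?_⟩
  intro x hxx
  obtain ⟨a1, a2, a3⟩ := hball (show dist x x0 < δ by rwa [dist_eq_norm])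
  refine ⟨ψ (F.eval x), a3, ?_, ?_⟩
  · rw [h3] at a1
    refine le_trans a1 ?_
    gcongr
    exact le_max_left _ _
  · rw [h3] at a2
    refine le_trans a2 ?_
    gcongr
    exact le_max_right _ _

theorem KR_infinite : KR.Infinite := by
  obtain ⟨x0, hx0, -⟩ := exists_itin 0 (fun _ => true)
  choose x hxK hxs hxo using exists_approx x0
  have hinj : Function.Injective x := by
    intro m m' hmm
    by_contra hne
    rcases lt_or_gt_of_ne hne with h | h
    · apply hxo m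
      rw [hmm]
      exact hxs m' m h
    · apply hxo m'
      rw [← hmm]
      exact hxs m m' h
  exact Set.infinite_of_injective_forall_mem hinj hxK

theorem exists_noncritical (F : ℂ[X]) (hF : 2 ≤ F.natDegree) :
    ∃ x ∈ KR, ∀ z : ℂ, F.eval z = F.eval (x : ℂ) → F.derivative.eval z ≠ 0 := by
  classical
  by_contra hcon
  push Not at hcon
  have hd : F.derivative ≠ 0 := by
    intro h
    have := derivative_eq_zero.mp h
    omega
  set P : ℂ[X] := (F.derivative.roots.map (fun c => F - C (F.eval c))).prod with hP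
  have hne : ∀ c, F - C (F.eval c) ≠ 0 := by
    intro c h
    have h1 : F = C (F.eval c) := sub_eq_zero.mp h
    have h2 : F.natDegree = 0 := by rw [h1]; exact natDegree_C _
    omega
  have hP0 : P ≠ 0 := by
    rw [hP, Ne, Multiset.prod_eq_zero_iff]
    intro h
    rw [Multiset.mem_map] at h
    obtain ⟨c, -, hc⟩ := h
    exact hne c hc
  apply hP0
  apply Polynomial.eq_zero_of_infinite_isRoot
  have himg : ((fun x : ℝ => (x : ℂ)) '' KR).Infinite :=
    KR_infinite.image (fun a _ b _ hab => Complex.ofReal_injective hab)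
  apply himg.mono
  rintro _ ⟨x, hx, rfl⟩
  obtain ⟨z, hz, hz0⟩ := hcon x hx
  show P.eval (x : ℂ) = 0
  rw [hP, eval_multiset_prod, Multiset.map_map, Multiset.prod_eq_zero_iff, Multiset.mem_map]
  refine ⟨z, ?_, ?_⟩
  · rw [mem_roots hd]; exact hz0
  · simp [hz]

/-- main rigidity statement -/
theorem rigid (F : ℂ[X]) (hF : 2 ≤ F.natDegree)
    (h : ∀ x ∈ KR, ∀ z : ℂ, F.eval z = F.eval (x : ℂ) → ∃ y ∈ KR, (y : ℂ) = z) : False := by
  obtain ⟨x0, hx0, hcrit⟩ := exists_noncritical F hF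
  obtain ⟨y, hy, hyx, hFy⟩ : ∃ y ∈ KR, y ≠ x0 ∧ F.eval (y : ℂ) = F.eval (x0 : ℂ) := by
    have hroot : (F - C (F.eval (x0 : ℂ))).IsRoot (x0 : ℂ) := by simp
    obtain ⟨Q, hQ⟩ := dvd_iff_isRoot.mpr hroot
    have hdeg : (F - C (F.eval (x0 : ℂ))).natDegree = F.natDegree := natDegree_sub_C
    have hne : F - C (F.eval (x0 : ℂ)) ≠ 0 := by
      intro h0
      rw [h0, natDegree_zero] at hdeg
      omega
    have hQ0 : Q ≠ 0 := by
      rintro rfl
      rw [mul_zero] at hQ
      exact hne hQ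
    have hQd : 1 ≤ Q.natDegree := by
      rw [hQ, natDegree_mul (X_sub_C_ne_zero _) hQ0, natDegree_X_sub_C] at hdeg
      omega
    obtain ⟨z, hz⟩ := IsAlgClosed.exists_root Q (by
      rw [degree_eq_natDegree hQ0]
      exact_mod_cast (by omega : Q.natDegree ≠ 0))
    have hFz : F.eval z = F.eval (x0 : ℂ) := by
      have : (F - C (F.eval (x0 : ℂ))).eval z = 0 := by
        rw [hQ, eval_mul, hz.eq_zero, mul_zero]
      rw [eval_sub, eval_C, sub_eq_zero] at this
      exact this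
    obtain ⟨y, hy, hyz⟩ := h x0 hx0 z hFz
    refine ⟨y, hy, ?_, by rw [hyz]; exact hFz⟩
    rintro rfl
    have h1 : F.derivative = derivative (F - C (F.eval (y : ℂ))) := by simp
    apply hcrit (y : ℂ) rfl
    rw [h1, hQ, derivative_mul, derivative_X_sub_C, one_mul, eval_add, eval_mul, eval_sub, eval_X, eval_C,
      sub_self, zero_mul, add_zero]
    rw [hyz]; exact hz
  have main : ∀ a ∈ KR, ∀ b ∈ KR, F.eval (b : ℂ) = F.eval (a : ℂ) → F.eval (a : ℂ) = F.eval (x0 : ℂ) →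
      a < b → False := by
    intro a ha b hb hab hax hlt
    obtain ⟨D, hD, δ, hδ, hp⟩ := pair_exists F hab (hcrit _ hax) (hcrit _ (hab.trans hax))
    apply no_pair ha hb hlt hD hδ
    intro x hx hxx
    obtain ⟨z, hz, h1, h2⟩ := hp (x : ℂ) (by rw [← Complex.ofReal_sub, Complex.norm_real]; exact hxx)
    obtain ⟨y', hy', rfl⟩ := h x hx z hz
    refine ⟨y', hy', ?_, ?_⟩
    · rw [← Complex.ofReal_sub, ← Complex.ofReal_sub, Complex.norm_real, Complex.norm_real] at h1
      exact h1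
    · rw [← Complex.ofReal_sub, ← Complex.ofReal_sub, Complex.norm_real, Complex.norm_real] at h2
      exact h2
  rcases lt_or_gt_of_ne hyx with h1 | h1
  · exact main y hy x0 hx0 hFy.symm hFy h1
  · exact main x0 hx0 y hy hFy rfl h1

/-- the limit set is not a full preimage under a polynomial of degree at least two -/
theorem not_preimage (F : ℂ[X]) (hF : 2 ≤ F.natDegree) (L : Set ℂ) :
    ((fun x : ℝ => (x : ℂ)) '' KR) ≠ {z | F.eval z ∈ L} := by
  intro heq
  apply rigid F hF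
  intro x hx z hz
  have h1 : (x : ℂ) ∈ {z | F.eval z ∈ L} := by rw [← heq]; exact ⟨x, hx, rfl⟩
  have h2 : z ∈ {z | F.eval z ∈ L} := by
    show F.eval z ∈ L
    rw [hz]; exact h1
  rw [← heq] at h2
  exact h2

end Pool.Agent.Helper368.Gap
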