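import Mathlib
import Pool.Agent.Helper368.G4

open Set Filter Topology Polynomial

namespace Pool.Agent.Helper368.Gap

/-- extension of a finite sign vector -/
def ext (n : ℕ) (e : Fin n → Bool) (i : ℕ) : Bool := if h : i < n then e ⟨i, h⟩ else true

theorem exists_root (n : ℕ) (e : Fin n → Bool) :
    ∃ x : ℝ, Tq x n = 0 ∧ ∀ i : Fin n, (0 < Tq x i ↔ e i = true) := by
  obtain ⟨l, r, hb⟩ := exists_band n (ext n e)
  obtain ⟨hlr, hl, hr, ⟨o, ho, hol, hor⟩, hs⟩ := hb
  have hivt := intermediate_value_uIcc ((Tq_continuous n).continuousOn (s := uIcc l r))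
  have m0 : (0:ℝ) ∈ uIcc (Tq l n) (Tq r n) := by
    rw [hol, hor, mem_uIcc]
    rcases ho with rfl | rfl
    · left; constructor <;> norm_num
    · right; constructor <;> norm_num
  obtain ⟨z, hz, hz0⟩ := hivt m0
  simp only at hz0
  rw [uIcc_of_le hlr.le] at hz
  refine ⟨z, hz0, fun i => ?_⟩
  have := (hs z hz i i.2).2
  rw [this, ext, dif_pos i.2]

/-- the chosen roots -/
noncomputable def xr (n : ℕ) (e : Fin n → Bool) : ℝ := Classical.choose (exists_root n e)

theorem xr_root (n : ℕ) (e : Fin n → Bool) : Tq (xr n e) n = 0 :=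
  (Classical.choose_spec (exists_root n e)).1

theorem xr_sign (n : ℕ) (e : Fin n → Bool) (i : Fin n) : 0 < Tq (xr n e) i ↔ e i = true :=
  (Classical.choose_spec (exists_root n e)).2 i

theorem xr_inj (n : ℕ) : Function.Injective (xr n) := by
  intro e e' h
  funext i
  have h1 := xr_sign n e i
  have h2 := xr_sign n e' i
  rw [h] at h1
  have h3 : e i = true ↔ e' i = true := h1.symm.trans h2
  exact Bool.eq_iff_iff.mpr h3

theorem xr_le_one (n : ℕ) (e : Fin n → Bool) {k : ℕ} (hk : k ≤ n) : |Tq (xr n e) k| ≤ 1 :=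
  abs_le_one_of_le hk (by rw [xr_root]; simp)

theorem xr_abs (n : ℕ) (e : Fin n → Bool) : |xr n e| ≤ 1 := xr_le_one n e (Nat.zero_le n)

/-- leading coefficients -/
noncomputable def ac : ℕ → ℝ
  | 0 => 1
  | n + 1 => (lam n : ℝ) * (ac n) ^ 2

theorem ac_pos (n : ℕ) : 0 < ac n := by
  induction n with
  | zero => simp [ac]
  | succ n ih =>
    have := lam_geR n
    simp only [ac]
    positivity

/-- the polynomials -/
noncomputable def TP (n : ℕ) : ℝ[X] := Tq (X : ℝ[X]) n

theorem TP_succ (n : ℕ) : TP (n + 1) = C (lam n : ℝ) * (TP n) ^ 2 + (X - C 4) := by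
  unfold TP
  rw [Tq_succ]
  have : ((4 : ℝ[X])) = C (4:ℝ) := (map_ofNat C 4).symm
  rw [← this]
  simp
  ring

theorem TP_deg (n : ℕ) : (TP n).natDegree = 2 ^ n ∧ (TP n).leadingCoeff = ac n := by
  induction n with
  | zero => simp [TP, Tq_zero, ac]
  | succ n ih =>
    obtain ⟨h1, h2⟩ := ih
    have hl : (lam n : ℝ) ≠ 0 := by
      have := lam_geR n
      linarith
    have hne : TP n ≠ 0 := by
      intro h
      rw [h, leadingCoeff_zero] at h2
      exact (ac_pos n).ne h2
    have hd : (C (lam n : ℝ) * (TP n) ^ 2).natDegree = 2 ^ (n + 1) := by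
      rw [natDegree_C_mul hl, natDegree_pow, h1, pow_succ]; ring
    have hlc : (C (lam n : ℝ) * (TP n) ^ 2).leadingCoeff = ac (n + 1) := by
      rw [leadingCoeff_mul, leadingCoeff_pow, leadingCoeff_C, h2]; rfl
    have hx : (X - C (4:ℝ)).natDegree = 1 := natDegree_X_sub_C 4
    have hlt : (X - C (4:ℝ)).natDegree < (C (lam n : ℝ) * (TP n) ^ 2).natDegree := by
      rw [hd, hx]
      exact Nat.one_lt_two_pow (by omega)
    rw [TP_succ]
    refine ⟨?_, ?_⟩
    · rw [natDegree_add_eq_left_of_natDegree_lt hlt, hd]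
    · rw [leadingCoeff_add_of_degree_lt', hlc]
      exact degree_lt_degree hlt

theorem TP_roots (n : ℕ) : (TP n).roots = (Finset.univ.image (xr n)).val := by
  classical
  symm
  have hne : TP n ≠ 0 := by
    intro h
    have := (TP_deg n).2
    rw [h, leadingCoeff_zero] at this
    exact (ac_pos n).ne this
  apply Multiset.eq_of_le_of_card_le
  · rw [Finset.val_le_iff_val_subset]
    intro x hx
    rw [Finset.mem_val, Finset.mem_image] at hx
    obtain ⟨e, -, rfl⟩ := hx
    rw [mem_roots hne]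
    show eval (xr n e) (TP n) = 0
    have := Tq_map (evalRingHom (xr n e)) (X : ℝ[X]) n
    rw [coe_evalRingHom, eval_X, xr_root] at this
    exact this
  · rw [Finset.card_val, Finset.card_image_of_injective _ (xr_inj n)]
    refine le_trans (card_roots' _) ?_
    rw [(TP_deg n).1]
    simp

theorem TP_prod (n : ℕ) : TP n = C (ac n) * ∏ e : Fin n → Bool, (X - C (xr n e)) := by
  classical
  have h1 : Multiset.card (TP n).roots = (TP n).natDegree := by
    rw [TP_roots, Finset.card_val, Finset.card_image_of_injective _ (xr_inj n), (TP_deg n).1]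
    simp
  have h2 := C_leadingCoeff_mul_prod_multiset_X_sub_C h1
  rw [(TP_deg n).2, TP_roots] at h2
  rw [← h2]
  congr 1
  have h3 : (Multiset.map (fun a => X - C a) (Finset.univ.image (xr n)).val).prod
    = ∏ a ∈ Finset.univ.image (xr n), (X - C a) := rfl
  rw [h3, Finset.prod_image (fun a _ b _ h => xr_inj n h)]

theorem Tq_prod (z : ℂ) (n : ℕ) : Tq z n = (ac n : ℂ) * ∏ e : Fin n → Bool, (z - (xr n e : ℂ)) := by
  have h1 := Tq_map (aeval (R := ℝ) z).toRingHom (X : ℝ[X]) n
  have h2 : (aeval (R := ℝ) z) (TP n) = Tq z n := by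
    have h3 : (aeval (R := ℝ) z).toRingHom X = z := by
      show (aeval (R := ℝ) z) X = z
      exact aeval_X z
    rw [h3] at h1
    exact h1
  rw [← h2, TP_prod]
  simp [map_prod]

/-- number of roots to the left -/
noncomputable def NL (n : ℕ) (c : ℝ) : ℕ := (Finset.univ.filter (fun e : Fin n → Bool => xr n e ≤ c)).card

theorem side_iff {n : ℕ} {c : ℝ} (hc : 1 < |Tq c n|) {x y : ℝ} (hx : |Tq x n| ≤ 1) (hy : |Tq y n| ≤ 1)
    (h : ∀ i < n, (0 < Tq x i ↔ 0 < Tq y i)) : x ≤ c → y ≤ c := by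
  intro hxc
  by_contra hcy
  rw [not_le] at hcy
  obtain ⟨o, ho, hmon⟩ := mono_key n (x := x) (y := y) (fun i hi => ⟨half_real hi hx, half_real hi hy, h i hi⟩)
  have h1 := hmon x c le_rfl hxc hcy.le
  have h2 := hmon c y hxc hcy.le le_rfl
  have h3 : 0 ≤ 7 ^ n * (c - x) := by have : 0 ≤ c - x := by linarith
                                      positivity
  have h4 : 0 ≤ 7 ^ n * (y - c) := by have : 0 ≤ y - c := by linarith
                                      positivity
  have h5 := abs_le.mp hx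
  have h6 := abs_le.mp hy
  have : |Tq c n| ≤ 1 := by
    rw [abs_le]
    rcases ho with rfl | rfl <;> constructor <;> linarith
  linarith

theorem NL_succ {n : ℕ} {c : ℝ} (hc : 1 < |Tq c n|) : NL (n + 1) c = 2 * NL n c := by
  classical
  have h1 : ∀ (e : Fin n → Bool) (b : Bool), xr (n + 1) (Fin.snoc e b) ≤ c ↔ xr n e ≤ c := by
    intro e b
    have hx : |Tq (xr (n + 1) (Fin.snoc e b : Fin (n + 1) → Bool)) n| ≤ 1 := xr_le_one _ _ (Nat.le_succ n)
    have hy : |Tq (xr n e) n| ≤ 1 := xr_le_one _ _ le_rfl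
    have hs : ∀ i < n, (0 < Tq (xr (n + 1) (Fin.snoc e b : Fin (n + 1) → Bool)) i ↔ 0 < Tq (xr n e) i) := by
      intro i hi
      have a1 := xr_sign (n + 1) (Fin.snoc e b : Fin (n + 1) → Bool) (Fin.castSucc ⟨i, hi⟩)
      have a2 := xr_sign n e ⟨i, hi⟩
      rw [Fin.snoc_castSucc] at a1
      exact a1.trans a2.symm
    exact ⟨side_iff hc hx hy hs, side_iff hc hy hx (fun i hi => (hs i hi).symm)⟩
  unfold NL
  rw [Finset.card_filter, Finset.card_filter]
  have h2 := Equiv.sum_comp (Fin.snocEquiv (fun _ : Fin (n + 1) => Bool))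
    (fun e : Fin (n + 1) → Bool => if xr (n + 1) e ≤ c then 1 else 0)
  rw [← h2, Fintype.sum_prod_type]
  have h3 : ∀ (b : Bool) (e : Fin n → Bool),
      (if xr (n + 1) ((Fin.snocEquiv (fun _ : Fin (n + 1) => Bool)) (b, e)) ≤ c then 1 else 0)
      = if xr n e ≤ c then 1 else 0 := by
    intro b e
    exact if_congr (h1 e b) rfl rfl
  simp_rw [h3]
  simp

theorem NL_add {k : ℕ} {c : ℝ} (hc : 1 < |Tq c k|) (m : ℕ) : NL (k + m) c = 2 ^ m * NL k c := by
  induction m with
  | zero => simp
  | succ m ih =>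
    have h1 : 1 < |Tq c (k + m)| := by
      by_contra hcon
      rw [not_lt] at hcon
      have := abs_le_one_of_le (Nat.le_add_right k m) hcon
      linarith
    rw [← add_assoc, NL_succ h1, ih, pow_succ]
    ring

end Pool.Agent.Helper368.Gap
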