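import Mathlib
import Pool.Agent.Helper368.G5

open Set Filter Topology

namespace Pool.Agent.Helper368.Gap

/-- approximations of the Green function -/
noncomputable def gn (z : ℂ) (n : ℕ) : ℝ := Real.log (Mx z n) / 2 ^ n

theorem gn_nonneg (z : ℂ) (n : ℕ) : 0 ≤ gn z n :=
  div_nonneg (Real.log_nonneg (Mx_one_le z n)) (by positivity)

theorem gn_step_nonneg (z : ℂ) (n : ℕ) : 0 ≤ gn z (n + 1) - gn z n := by
  unfold gn
  have h1 := (Mx_sq_le z n).2
  have h2 := Mx_one_le z n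
  have h3 := Real.log_le_log (by positivity) h1
  rw [Real.log_pow] at h3
  push_cast at h3
  rw [sub_nonneg, div_le_div_iff₀ (by positivity) (by positivity), pow_succ]
  have : (0:ℝ) < 2 ^ n := by positivity
  nlinarith

theorem gn_mono (z : ℂ) : Monotone (gn z) := by
  apply monotone_nat_of_le_succ
  intro n
  linarith [gn_step_nonneg z n]

theorem gn_step_le (z : ℂ) (n : ℕ) :
    gn z (n + 1) - gn z n ≤ Real.log (lam n + 4 + ‖z‖) / 2 ^ (n + 1) := by
  unfold gn
  have h1 := Mx_upper z n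
  have h2 := Mx_one_le z n
  have h3 := Mx_one_le z (n + 1)
  have h5 := lam_geR n
  have h6 := norm_nonneg z
  have h4 := Real.log_le_log (by positivity) h1
  rw [Real.log_mul (by positivity) (by positivity), Real.log_pow] at h4
  push_cast at h4
  rw [sub_le_iff_le_add]
  have h7 : (0:ℝ) < 2 ^ n := by positivity
  have e : Real.log (lam n + 4 + ‖z‖) / 2 ^ (n + 1) + Real.log (Mx z n) / 2 ^ n
      = (Real.log (lam n + 4 + ‖z‖) + 2 * Real.log (Mx z n)) / 2 ^ (n + 1) := by
    rw [pow_succ]; field_simp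
  rw [e]
  gcongr

/-- summable majorant -/
noncomputable def ub (R : ℝ) (n : ℕ) : ℝ := Real.log (lam n + 4 + R) / 2 ^ (n + 1)

theorem log_lam (n : ℕ) : Real.log (lam n : ℝ) = ((n:ℝ) ^ 2 + 1) * Real.log 16 := by
  unfold lam
  push_cast
  rw [Real.log_pow]
  push_cast
  ring

theorem summable_lam (c : ℝ) : Summable (fun n : ℕ => (Real.log (lam n) + c) / 2 ^ (n + 1)) := by
  have h1 : Summable (fun n : ℕ => ((n:ℝ) ^ 2) * (1/2:ℝ) ^ n) :=
    summable_pow_mul_geometric_of_norm_lt_one 2 (by norm_num)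
  have h2 : Summable (fun n : ℕ => (1/2:ℝ) ^ n) := summable_geometric_two
  have e : (fun n : ℕ => (Real.log (lam n) + c) / 2 ^ (n + 1))
      = fun n : ℕ => (Real.log 16 / 2) * (((n:ℝ) ^ 2) * (1/2:ℝ) ^ n) + ((Real.log 16 + c) / 2) * (1/2:ℝ) ^ n := by
    funext n
    rw [log_lam, pow_succ, one_div, inv_pow]
    field_simp
    ring
  rw [e]
  exact (h1.mul_left _).add (h2.mul_left _)

theorem ub_le {R : ℝ} (hR : 0 ≤ R) (n : ℕ) :
    ub R n ≤ (Real.log (lam n) + Real.log (5 + R)) / 2 ^ (n + 1) := by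
  unfold ub
  have h5 := lam_geR n
  rw [← Real.log_mul (by positivity) (by positivity)]
  gcongr
  nlinarith

theorem ub_nonneg {R : ℝ} (hR : 0 ≤ R) (n : ℕ) : 0 ≤ ub R n := by
  unfold ub
  have h5 := lam_geR n
  apply div_nonneg (Real.log_nonneg (by linarith)) (by positivity)

theorem ub_summable {R : ℝ} (hR : 0 ≤ R) : Summable (ub R) :=
  Summable.of_nonneg_of_le (ub_nonneg hR) (ub_le hR) (summable_lam _)

theorem step_le_ub {z : ℂ} {R : ℝ} (hz : ‖z‖ ≤ R) (n : ℕ) : gn z (n + 1) - gn z n ≤ ub R n := by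
  refine le_trans (gn_step_le z n) ?_
  unfold ub
  have h5 := lam_geR n
  have h6 := norm_nonneg z
  gcongr

theorem step_summable (z : ℂ) : Summable (fun n => gn z (n + 1) - gn z n) :=
  Summable.of_nonneg_of_le (gn_step_nonneg z) (step_le_ub le_rfl) (ub_summable (norm_nonneg z))

/-- the Green function -/
noncomputable def Gr (z : ℂ) : ℝ := (∑' n, (gn z (n + 1) - gn z n)) + gn z 0

theorem gn_tendsto (z : ℂ) : Tendsto (gn z) atTop (𝓝 (Gr z)) := by
  have h1 := (step_summable z).hasSum.tendsto_sum_nat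
  have h2 : ∀ N, ∑ n ∈ Finset.range N, (gn z (n + 1) - gn z n) = gn z N - gn z 0 := by
    intro N
    exact Finset.sum_range_sub (gn z) N
  simp_rw [h2] at h1
  have h3 := h1.add_const (gn z 0)
  simpa [Gr] using h3

theorem gn_le_Gr (z : ℂ) (n : ℕ) : gn z n ≤ Gr z := (gn_mono z).ge_of_tendsto (gn_tendsto z) n

theorem gn_continuous (n : ℕ) : Continuous (fun z => gn z n) := by
  unfold gn Mx
  apply Continuous.div_const
  apply Continuous.log
  · exact continuous_const.max (Tq_continuousC n).norm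
  · intro z
    have := Mx_one_le z n
    unfold Mx at this
    linarith

theorem Gr_continuous : Continuous Gr := by
  rw [continuous_iff_continuousAt]
  intro z0
  have h1 : ContinuousOn Gr (Metric.ball 0 (‖z0‖ + 1)) := by
    unfold Gr
    apply ContinuousOn.add _ (gn_continuous 0).continuousOn
    apply continuousOn_tsum (u := ub (‖z0‖ + 1))
    · intro n
      exact ((gn_continuous (n + 1)).sub (gn_continuous n)).continuousOn
    · exact ub_summable (by positivity)
    · intro n z hz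
      rw [Real.norm_of_nonneg (gn_step_nonneg z n)]
      apply step_le_ub
      rw [mem_ball_zero_iff] at hz
      exact hz.le
  apply h1.continuousAt
  apply Metric.isOpen_ball.mem_nhds
  rw [mem_ball_zero_iff]
  linarith

theorem Gr_zero {z : ℂ} (hz : z ∈ KC) : Gr z = 0 := by
  have h1 : ∀ n, gn z n = 0 := by
    intro n
    unfold gn Mx
    rw [max_eq_left (hz n), Real.log_one, zero_div]
  have h2 := gn_tendsto z
  have h3 : gn z = fun _ => 0 := funext h1
  rw [h3] at h2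
  exact tendsto_nhds_unique h2 tendsto_const_nhds

theorem Gr_pos {z : ℂ} (hz : z ∉ KC) : 0 < Gr z := by
  simp only [KC, mem_ofPred_eq, not_forall, not_le] at hz
  obtain ⟨n, hn⟩ := hz
  refine lt_of_lt_of_le ?_ (gn_le_Gr z n)
  unfold gn Mx
  rw [max_eq_right hn.le]
  exact div_pos (Real.log_pos hn) (by positivity)

theorem Mx_eq {z : ℂ} {k n : ℕ} (hk : 1 < ‖Tq z k‖) (hkn : k ≤ n) :
    Mx z n = ‖Tq z n‖ ∧ 1 < ‖Tq z n‖ := by
  have h1 := Mx_mono z hkn
  have h2 : 1 < Mx z k := lt_of_lt_of_le hk (norm_le_Mx z k)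
  have h3 : 1 < Mx z n := lt_of_lt_of_le h2 h1
  have h4 : Mx z n = ‖Tq z n‖ := by
    rcases max_choice 1 ‖Tq z n‖ with h | h
    · exfalso
      have : Mx z n = 1 := h
      linarith
    · exact h
  exact ⟨h4, by rw [← h4]; exact h3⟩

theorem log_tendsto {z : ℂ} (hz : z ∉ KC) :
    Tendsto (fun n => Real.log ‖Tq z n‖ / 2 ^ n) atTop (𝓝 (Gr z)) := by
  simp only [KC, mem_ofPred_eq, not_forall, not_le] at hz
  obtain ⟨k, hk⟩ := hz
  refine (gn_tendsto z).congr' ?_
  filter_upwards [eventually_ge_atTop k] with n hn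
  unfold gn
  rw [(Mx_eq hk hn).1]

/-- the factor in one step -/
noncomputable def fac (z : ℂ) (n : ℕ) : ℂ := (lam n : ℂ) + (z - 4) / (Tq z n) ^ 2

theorem fac_mul {z : ℂ} {n : ℕ} (h : 1 < ‖Tq z n‖) : Tq z (n + 1) = (Tq z n) ^ 2 * fac z n := by
  have : Tq z n ≠ 0 := by
    intro h0; rw [h0] at h; simp at h; linarith
  rw [Tq_succ, fac]
  field_simp
  ring

theorem fac_small {z : ℂ} {k n : ℕ} (hk : 1 < ‖Tq z k‖) (hkn : k ≤ n) :
    ‖(z - 4) / (Tq z n) ^ 2‖ ≤ 5 := by
  obtain ⟨h1, h2⟩ := Mx_eq hk hkn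
  have h3 := (Mx_sq_le z n).1
  rw [h1] at h3
  rw [norm_div, norm_pow, div_le_iff₀ (by positivity)]
  have h4 : ‖z - 4‖ ≤ ‖z‖ + 4 := by
    have := norm_sub_le z 4
    simpa using this
  nlinarith

theorem fac_re {z : ℂ} {k n : ℕ} (hk : 1 < ‖Tq z k‖) (hkn : k ≤ n) : 11 ≤ (fac z n).re := by
  have h1 := fac_small hk hkn
  have h2 := lam_geR n
  have h3 := abs_le.mp (Complex.abs_re_le_norm ((z - 4) / (Tq z n) ^ 2))
  unfold fac
  rw [Complex.add_re, Complex.natCast_re]
  linarith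

theorem fac_norm {z : ℂ} {k n : ℕ} (hk : 1 < ‖Tq z k‖) (hkn : k ≤ n) : ‖fac z n‖ ≤ lam n + 5 := by
  have h1 := fac_small hk hkn
  unfold fac
  refine le_trans (norm_add_le _ _) ?_
  rw [norm_lamC]
  linarith

theorem fac_log {z : ℂ} {k n : ℕ} (hk : 1 < ‖Tq z k‖) (hkn : k ≤ n) :
    Real.log ‖fac z n‖ / 2 ^ (n + 1) = gn z (n + 1) - gn z n := by
  obtain ⟨h1, h2⟩ := Mx_eq hk hkn
  obtain ⟨h3, h4⟩ := Mx_eq hk (Nat.le_succ_of_le hkn)
  have hf : 0 < ‖fac z n‖ := by
    have := fac_re hk hkn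
    have := Complex.re_le_norm (fac z n)
    linarith
  unfold gn
  rw [h1, h3, Nat.succ_eq_add_one, fac_mul h2, norm_mul, norm_pow, Real.log_mul (by positivity) hf.ne', Real.log_pow,
    pow_succ]
  have : (0:ℝ) < 2 ^ n := by positivity
  field_simp
  push_cast
  ring

theorem fac_analytic {z : ℂ} {n : ℕ} (h : 1 < ‖Tq z n‖) : DifferentiableAt ℂ (fun w => fac w n) z := by
  have hT : Differentiable ℂ (fun w : ℂ => Tq w n) := by
    clear h
    induction n with
    | zero => exact differentiable_id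
    | succ n ih => simp only [Tq_succ]; fun_prop
  have h0 : Tq z n ≠ 0 := by
    intro h0; rw [h0] at h; simp at h; linarith
  unfold fac
  have := hT z
  apply DifferentiableAt.add (by fun_prop)
  apply DifferentiableAt.div (by fun_prop) (by fun_prop)
  exact pow_ne_zero 2 h0

theorem Tq_differentiable (n : ℕ) : Differentiable ℂ (fun w : ℂ => Tq w n) := by
  induction n with
  | zero => exact differentiable_id
  | succ n ih => simp only [Tq_succ]; fun_prop

/-- terms of the holomorphic series -/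
noncomputable def Fk (k n : ℕ) (z : ℂ) : ℂ := Complex.log (fac z (n + k)) / ((2 ^ (n + k + 1) : ℝ) : ℂ)

/-- majorants -/
noncomputable def uk (k n : ℕ) : ℝ := (Real.log (lam (n + k)) + (Real.log 2 + Real.pi)) / 2 ^ (n + k + 1)

theorem uk_summable (k : ℕ) : Summable (uk k) :=
  (summable_nat_add_iff k).mpr (summable_lam (Real.log 2 + Real.pi))

theorem clog_bound {w : ℂ} {L : ℝ} (hL : 16 ≤ L) (h1 : 11 ≤ w.re) (h2 : ‖w‖ ≤ L + 5) :
    ‖Complex.log w‖ ≤ Real.log L + (Real.log 2 + Real.pi) := by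
  have h4 : 11 ≤ ‖w‖ := le_trans h1 (Complex.re_le_norm _)
  have h6 : Real.log ‖w‖ ≤ Real.log (L * 2) := Real.log_le_log (by linarith) (by linarith)
  have h7 := Complex.norm_le_abs_re_add_abs_im (Complex.log w)
  rw [Complex.log_re, Complex.log_im, abs_of_nonneg (Real.log_nonneg (by linarith))] at h7
  have h8 := Complex.abs_arg_le_pi w
  rw [Real.log_mul (by linarith) (by norm_num)] at h6
  linarith

theorem Fk_bound {k : ℕ} {z : ℂ} (hz : 1 < ‖Tq z k‖) (n : ℕ) : ‖Fk k n z‖ ≤ uk k n := by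
  unfold Fk uk
  rw [norm_div, Complex.norm_real, Real.norm_of_nonneg (by positivity)]
  apply div_le_div_of_nonneg_right _ (by positivity)
  exact clog_bound (lam_geR _) (fac_re hz (Nat.le_add_left k n)) (fac_norm hz (Nat.le_add_left k n))

theorem Fk_re {k : ℕ} {z : ℂ} (hz : 1 < ‖Tq z k‖) (n : ℕ) :
    (Fk k n z).re = gn z (n + 1 + k) - gn z (n + k) := by
  unfold Fk
  rw [Complex.div_ofReal_re, Complex.log_re, fac_log hz (Nat.le_add_left k n)]
  rw [show n + k + 1 = n + 1 + k by ring]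

theorem Fk_diff {k : ℕ} {z : ℂ} (hz : 1 < ‖Tq z k‖) (n : ℕ) : DifferentiableAt ℂ (Fk k n) z := by
  have h1 : 1 < ‖Tq z (n + k)‖ := (Mx_eq hz (Nat.le_add_left k n)).2
  have h2 : fac z (n + k) ∈ Complex.slitPlane := by
    left
    have := fac_re (n := n + k) hz (Nat.le_add_left k n)
    linarith
  unfold Fk
  apply DifferentiableAt.div_const
  exact (fac_analytic h1).clog h2

theorem Gr_eq {k : ℕ} {z : ℂ} (hz : 1 < ‖Tq z k‖) :
    Gr z = (∑' n : ℕ, Fk k n z).re + (2 ^ k : ℝ)⁻¹ * Real.log ‖Tq z k‖ := by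
  have hsum : Summable (fun n => Fk k n z) := Summable.of_norm_bounded (uk_summable k) (Fk_bound hz)
  have h1 := (Complex.hasSum_re hsum.hasSum).tendsto_sum_nat
  have h2 : ∀ N, ∑ n ∈ Finset.range N, (Fk k n z).re = gn z (N + k) - gn z k := by
    intro N
    simp_rw [Fk_re hz]
    have := Finset.sum_range_sub (fun n => gn z (n + k)) N
    simp only [zero_add] at this
    exact this
  simp_rw [h2] at h1
  have h3 : Tendsto (fun N => gn z (N + k) - gn z k) atTop (𝓝 (Gr z - gn z k)) :=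
    ((tendsto_add_atTop_iff_nat k).mpr (gn_tendsto z)).sub_const _
  have h4 := tendsto_nhds_unique h1 h3
  have h5 : gn z k = (2 ^ k : ℝ)⁻¹ * Real.log ‖Tq z k‖ := by
    unfold gn
    rw [(Mx_eq hz le_rfl).1]
    ring
  rw [h4, ← h5]; ring

theorem Gr_harmonic {z0 : ℂ} (hz0 : z0 ∉ KC) : InnerProductSpace.HarmonicAt Gr z0 := by
  simp only [KC, mem_ofPred_eq, not_forall, not_le] at hz0
  obtain ⟨k, hk⟩ := hz0
  have hUo : IsOpen {z : ℂ | 1 < ‖Tq z k‖} := isOpen_lt continuous_const (Tq_continuousC k).norm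
  have hmem : {z : ℂ | 1 < ‖Tq z k‖} ∈ 𝓝 z0 := hUo.mem_nhds hk
  have hdiff : DifferentiableOn ℂ (fun w : ℂ => ∑' n : ℕ, Fk k n w) {z : ℂ | 1 < ‖Tq z k‖} :=
    Complex.differentiableOn_tsum_of_summable_norm (uk_summable k)
      (fun n z hz => (Fk_diff hz n).differentiableWithinAt) hUo (fun n z hz => Fk_bound hz n)
  have hev : Gr =ᶠ[𝓝 z0] ((fun z => (∑' n : ℕ, Fk k n z).re) +
      ((2 ^ k : ℝ)⁻¹ • fun z => Real.log ‖Tq z k‖)) := by
    filter_upwards [hmem] with z hz
    rw [Gr_eq hz]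
    rfl
  rw [InnerProductSpace.harmonicAt_congr_nhds hev]
  have h0 : Tq z0 k ≠ 0 := by
    intro h0
    have : (1:ℝ) < ‖Tq z0 k‖ := hk
    rw [h0] at this; simp at this; linarith
  have h1 : AnalyticAt ℂ (fun w : ℂ => Tq w k) z0 := (Tq_differentiable k).analyticAt z0
  have h2 := AnalyticAt.harmonicAt_log_norm h1 h0
  exact (AnalyticAt.harmonicAt_re (hdiff.analyticAt hmem)).add h2.const_smul

/-- Robin constant -/
noncomputable def Vc : ℝ := ∑' n : ℕ, Real.log (lam n) / 2 ^ (n + 1)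

theorem Vc_hasSum : HasSum (fun n : ℕ => Real.log (lam n) / 2 ^ (n + 1)) Vc := by
  have := summable_lam 0
  simp only [add_zero] at this
  exact this.hasSum

theorem ac_log (n : ℕ) : Real.log (ac n) / 2 ^ n = ∑ k ∈ Finset.range n, Real.log (lam k) / 2 ^ (k + 1) := by
  induction n with
  | zero => simp [ac]
  | succ n ih =>
    rw [Finset.sum_range_succ, ← ih]
    have h1 := ac_pos n
    have h2 := lam_geR n
    simp only [ac]
    rw [Real.log_mul (by positivity) (by positivity), Real.log_pow, pow_succ]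
    have : (0:ℝ) < 2 ^ n := by positivity
    field_simp
    push_cast
    ring

theorem ac_tendsto : Tendsto (fun n => Real.log (ac n) / 2 ^ n) atTop (𝓝 Vc) := by
  simp_rw [ac_log]
  exact Vc_hasSum.tendsto_sum_nat

theorem Gr_infty {z : ℂ} (hz : 10 ≤ ‖z‖) : |Gr z - Real.log ‖z‖ - Vc| ≤ 10 / ‖z‖ := by
  have hk : 1 < ‖Tq z 0‖ := by rw [Tq_zero]; linarith
  have hb : ∀ n, |(gn z (n + 1) - gn z n) - Real.log (lam n) / 2 ^ (n + 1)| ≤ (10 / ‖z‖) / 2 ^ (n + 1) := by
    intro n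
    rw [← fac_log hk (Nat.zero_le n), ← sub_div, abs_div, abs_of_pos (by positivity : (0:ℝ) < 2 ^ (n + 1))]
    gcongr
    have h5 := lam_geR n
    obtain ⟨h1, h2⟩ := Mx_eq hk (Nat.zero_le n)
    have h3 := (Mx_sq_le z n).1
    rw [h1] at h3
    have hzp : 0 < ‖z‖ := by linarith
    have hw : ‖(z - 4) / (Tq z n) ^ 2‖ ≤ 2 / ‖z‖ := by
      rw [norm_div, norm_pow]
      have h4 : ‖z - 4‖ ≤ ‖z‖ + 4 := by
        have := norm_sub_le z 4
        simpa using this
      have h6 : ‖z‖ ^ 2 ≤ ‖Tq z n‖ ^ 2 := by gcongr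
      calc ‖z - 4‖ / ‖Tq z n‖ ^ 2 ≤ (2 * ‖z‖) / ‖z‖ ^ 2 := by
            gcongr; linarith
        _ = 2 / ‖z‖ := by field_simp
    set w := (z - 4) / (Tq z n) ^ 2 with hwdef
    have hw1 : ‖w‖ ≤ 1 := by
      refine le_trans hw ?_
      rw [div_le_one hzp]; linarith
    have hf : fac z n = (lam n : ℂ) + w := rfl
    have hup : ‖fac z n‖ ≤ lam n + ‖w‖ := by
      rw [hf]; refine le_trans (norm_add_le _ _) ?_
      rw [norm_lamC]
    have hlo : lam n - ‖w‖ ≤ ‖fac z n‖ := by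
      rw [hf]
      have := norm_sub_norm_le (lam n : ℂ) (-w)
      rw [norm_neg, norm_lamC, sub_neg_eq_add] at this
      exact this
    have hl : (0:ℝ) < lam n := by linarith
    have hfp : 0 < ‖fac z n‖ := by linarith
    have hw0 := norm_nonneg w
    have h10 : 2 / ‖z‖ ≤ 10 / ‖z‖ := by gcongr; norm_num
    rw [← Real.log_div hfp.ne' hl.ne', abs_le]
    constructor
    · have a1 : 1 - (‖fac z n‖ / lam n)⁻¹ ≤ Real.log (‖fac z n‖ / lam n) := by
        exact Real.one_sub_inv_le_log_of_pos (by positivity)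
      have a2 : (‖fac z n‖ / lam n)⁻¹ ≤ 1 + ‖w‖ := by
        rw [inv_div, div_le_iff₀ hfp]
        nlinarith
      linarith
    · have a1 : Real.log (‖fac z n‖ / lam n) ≤ ‖fac z n‖ / lam n - 1 :=
        Real.log_le_sub_one_of_pos (by positivity)
      have a2 : ‖fac z n‖ / lam n ≤ 1 + ‖w‖ := by
        rw [div_le_iff₀ hl]
        nlinarith
      linarith
  have hs1 : HasSum (fun n => gn z (n + 1) - gn z n) (Gr z - Real.log ‖z‖) := by
    have h1 : Gr z - Real.log ‖z‖ = ∑' n, (gn z (n + 1) - gn z n) := by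
      have : gn z 0 = Real.log ‖z‖ := by
        unfold gn
        rw [(Mx_eq hk le_rfl).1, Tq_zero]; simp
      unfold Gr
      rw [this]; ring
    rw [h1]
    exact (step_summable z).hasSum
  have hs2 := hs1.sub Vc_hasSum
  have hs3 : HasSum (fun n : ℕ => (10 / ‖z‖) / 2 ^ (n + 1)) (10 / ‖z‖) := by
    have := hasSum_geometric_two' (10 / ‖z‖)
    have e : (fun n : ℕ => (10 / ‖z‖) / 2 ^ (n + 1)) = fun n : ℕ => 10 / ‖z‖ / 2 / 2 ^ n := by
      funext n; rw [pow_succ]; field_simp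
    rw [e]
    exact this
  have h1 := hs2.norm_le_of_bounded hs3 (fun n => by rw [Real.norm_eq_abs]; exact hb n)
  rw [Real.norm_eq_abs] at h1
  exact h1

theorem Gr_tendsto : Tendsto (fun z => Gr z - Real.log ‖z‖) (Bornology.cobounded ℂ) (𝓝 Vc) := by
  have h1 : Tendsto (fun z : ℂ => 10 / ‖z‖) (Bornology.cobounded ℂ) (𝓝 0) :=
    tendsto_const_nhds.div_atTop tendsto_norm_cobounded_atTop
  have h2 : Tendsto (fun z => Gr z - Real.log ‖z‖ - Vc) (Bornology.cobounded ℂ) (𝓝 0) := by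
    apply squeeze_zero_norm' _ h1
    have : ∀ᶠ z : ℂ in Bornology.cobounded ℂ, 10 ≤ ‖z‖ :=
      tendsto_norm_cobounded_atTop.eventually_ge_atTop 10
    filter_upwards [this] with z hz
    rw [Real.norm_eq_abs]
    exact Gr_infty hz
  have h3 := h2.add_const Vc
  simpa using h3

end Pool.Agent.Helper368.Gap
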