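import Mathlib
import Pool.Agent.Helper368.G6
import Pool.Agent.Helper368.Energy

open MeasureTheory Set Filter Topology ENNReal

namespace Pool.Agent.Helper368.Gap

/-- zero counting measures -/
noncomputable def nu (n : ℕ) : Measure ℝ :=
  ∑ e : Fin n → Bool, ((2 : ENNReal)⁻¹ ^ n) • Measure.dirac (xr n e)

theorem two_inv_pow (n : ℕ) : (2 ^ n : ℕ) • ((2 : ENNReal)⁻¹ ^ n) = 1 := by
  rw [nsmul_eq_mul]
  push_cast
  rw [← mul_pow, ENNReal.mul_inv_cancel (by norm_num) (by norm_num), one_pow]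

theorem nu_apply (n : ℕ) (s : Set ℝ) (hs : MeasurableSet s) :
    nu n s = ∑ e : Fin n → Bool, ((2 : ENNReal)⁻¹ ^ n) * s.indicator 1 (xr n e) := by
  unfold nu
  rw [Measure.coe_finsetSum, Finset.sum_apply]
  apply Finset.sum_congr rfl
  intro e _
  rw [Measure.smul_apply, Measure.dirac_apply' _ hs, smul_eq_mul]

instance nu_prob (n : ℕ) : IsProbabilityMeasure (nu n) := by
  constructor
  rw [nu_apply n univ MeasurableSet.univ]
  simp only [indicator_univ, Pi.one_apply, mul_one, Finset.sum_const, Finset.card_univ]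
  rw [show Fintype.card (Fin n → Bool) = 2 ^ n by simp]
  exact two_inv_pow n

theorem nu_Iic (n : ℕ) (c : ℝ) : nu n (Iic c) = (NL n c : ENNReal) * (2 : ENNReal)⁻¹ ^ n := by
  classical
  rw [nu_apply n _ measurableSet_Iic]
  have h1 : ∀ e : Fin n → Bool, ((2 : ENNReal)⁻¹ ^ n) * (Iic c).indicator 1 (xr n e)
      = if xr n e ≤ c then (2 : ENNReal)⁻¹ ^ n else 0 := by
    intro e
    by_cases h : xr n e ≤ c
    · rw [indicator_of_mem (show xr n e ∈ Iic c from h), if_pos h]; simp
    · rw [indicator_of_notMem (show xr n e ∉ Iic c from h), if_neg h, mul_zero]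
  simp_rw [h1]
  rw [← Finset.sum_filter, Finset.sum_const, nsmul_eq_mul, NL]

theorem nu_ae (n : ℕ) {p : ℝ → Prop} (hp : MeasurableSet {x | p x}) (h : ∀ e, p (xr n e)) :
    ∀ᵐ x ∂(nu n), p x := by
  have hc : {a | ¬ p a} = {x | p x}ᶜ := rfl
  rw [ae_iff, hc, nu_apply n _ hp.compl]
  apply Finset.sum_eq_zero
  intro e _
  rw [indicator_of_notMem, mul_zero]
  intro h'
  exact h' (h e)

theorem nu_support (n : ℕ) : ∀ᵐ x ∂(nu n), |x| ≤ 1 := by
  apply nu_ae n
  · exact (isClosed_le continuous_abs continuous_const).measurableSet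
  · exact fun e => xr_abs n e

/-- as probability measures -/
noncomputable def nuP (n : ℕ) : ProbabilityMeasure ℝ := ⟨nu n, inferInstance⟩

theorem nuP_coe (n : ℕ) : (nuP n : Measure ℝ) = nu n := rfl

theorem exists_limit' : ∃ (ν : ProbabilityMeasure ℝ) (U : Ultrafilter ℕ), (U : Filter ℕ) ≤ atTop ∧
      Tendsto nuP U (𝓝 ν) := by
  have htight : IsTightMeasureSet {((μ : ProbabilityMeasure ℝ) : Measure ℝ) | μ ∈ range nuP} := by
    rw [isTightMeasureSet_iff_exists_isCompact_measure_compl_le]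
    intro ε hε
    refine ⟨Icc (-1) 1, isCompact_Icc, ?_⟩
    rintro _ ⟨_, ⟨k, rfl⟩, rfl⟩
    have : (nuP k : Measure ℝ) (Icc (-1) 1)ᶜ = 0 := by
      have h := nu_support k
      rw [ae_iff] at h
      apply measure_mono_null _ h
      intro x hx hx'
      exact hx (abs_le.mp hx')
    rw [this]
    exact hε.le
  have hc := isCompact_closure_of_isTightMeasureSet htight
  obtain ⟨ν, -, hν⟩ := hc.exists_mapClusterPt (f := atTop) (u := nuP) (by
    rw [Filter.le_principal_iff]
    exact Filter.mem_map.mpr (Filter.univ_mem' fun k => subset_closure (mem_range_self k)))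
  rw [mapClusterPt_iff_ultrafilter] at hν
  obtain ⟨U, hU, hT⟩ := hν
  exact ⟨ν, U, hU, hT⟩

section limit

variable {ν : ProbabilityMeasure ℝ} {U : Ultrafilter ℕ} (hU : (U : Filter ℕ) ≤ atTop)
  (h : Tendsto nuP U (𝓝 ν))

include hU h

theorem lim_support : (ν : Measure ℝ) KRᶜ = 0 := by
  have hE : ∀ k, (ν : Measure ℝ) {x | |Tq x k| ≤ 1}ᶜ = 0 := by
    intro k
    have hopen : IsOpen {x : ℝ | |Tq x k| ≤ 1}ᶜ :=
      (isClosed_le ((Tq_continuous k).abs) continuous_const).isOpen_compl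
    have h1 := ProbabilityMeasure.le_liminf_measure_open_of_tendsto h hopen
    have h2 : ∀ᶠ l in (U : Filter ℕ), (nuP l : Measure ℝ) {x | |Tq x k| ≤ 1}ᶜ = 0 := by
      apply hU
      filter_upwards [eventually_ge_atTop k] with l hl
      have h3 := nu_ae l (p := fun x => |Tq x k| ≤ 1)
        (isClosed_le ((Tq_continuous k).abs) continuous_const).measurableSet (fun e => xr_le_one l e hl)
      rw [ae_iff] at h3
      rw [nuP_coe]
      exact h3
    have h4 : liminf (fun l => (nuP l : Measure ℝ) {x | |Tq x k| ≤ 1}ᶜ) (U : Filter ℕ) = 0 := by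
      rw [Filter.liminf_congr h2]
      simp
    rw [h4] at h1
    exact le_antisymm h1 zero_le
  have : KRᶜ = ⋃ k, {x : ℝ | |Tq x k| ≤ 1}ᶜ := by
    ext x; simp [KR]
  rw [this]
  exact measure_iUnion_null hE

theorem lim_ae : ∀ᵐ x ∂(ν : Measure ℝ), x ∈ KR := by
  rw [ae_iff]; exact lim_support hU h

theorem lim_mass {c : ℝ} (hc : c ∉ KR) : ∃ q : ℚ, (ν : Measure ℝ) (Iic c) = ENNReal.ofReal (q : ℝ) := by
  have hfr : (ν : Measure ℝ) (frontier (Iic c)) = 0 := by
    rw [frontier_Iic]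
    apply measure_mono_null _ (lim_support hU h)
    rintro x rfl
    exact hc
  have h1 := ProbabilityMeasure.tendsto_measure_of_null_frontier_of_tendsto' h hfr
  simp only [KR, mem_ofPred_eq, not_forall, not_le] at hc
  obtain ⟨k, hk⟩ := hc
  refine ⟨(NL k c : ℚ) / 2 ^ k, ?_⟩
  have h2 : ∀ᶠ l in (U : Filter ℕ), (nuP l : Measure ℝ) (Iic c) = ENNReal.ofReal (((NL k c : ℚ) / 2 ^ k : ℚ) : ℝ) := by
    apply hU
    filter_upwards [eventually_ge_atTop k] with l hl
    obtain ⟨m, rfl⟩ := Nat.exists_eq_add_of_le hl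
    rw [nuP_coe, nu_Iic, NL_add hk]
    push_cast
    rw [ENNReal.ofReal_div_of_pos (by positivity), ENNReal.ofReal_natCast, ENNReal.ofReal_pow (by norm_num)]
    rw [pow_add, div_eq_mul_inv, ← ENNReal.inv_pow]
    have e : ENNReal.ofReal 2 = 2 := by norm_num
    rw [e]
    calc 2 ^ m * (NL k c : ENNReal) * ((2 ^ k)⁻¹ * 2⁻¹ ^ m)
        = (2 ^ m * 2⁻¹ ^ m) * ((NL k c : ENNReal) * (2 ^ k)⁻¹) := by ring
      _ = _ := by
        rw [← mul_pow, ENNReal.mul_inv_cancel (by norm_num) (by norm_num), one_pow, one_mul]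
  exact tendsto_nhds_unique h1 ((tendsto_congr' h2).mpr tendsto_const_nhds)

theorem lim_potential {z : ℂ} (hz : z.im ≠ 0) :
    ∫ t, Real.log ‖z - (t : ℂ)‖ ∂(ν : Measure ℝ) = Gr z - Vc := by
  have hzt : ∀ t : ℝ, 0 < ‖z - (t : ℂ)‖ := by
    intro t
    rw [norm_pos_iff, sub_ne_zero]
    rintro rfl
    simp at hz
  have hzK : z ∉ KC := fun hz' => hz (KC_real hz')
  -- clamp
  set cl : ℝ → ℝ := fun t => max (-1) (min 1 t) with hcl
  have hclc : Continuous cl := by fun_prop
  have hcl1 : ∀ t, |t| ≤ 1 → cl t = t := by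
    intro t ht
    rw [abs_le] at ht
    simp only [hcl]
    rw [min_eq_right ht.2, max_eq_right ht.1]
  have hclb : ∀ t, |cl t| ≤ 1 := by
    intro t
    rw [abs_le]
    exact ⟨le_max_left _ _, max_le (by norm_num) (min_le_left _ _)⟩
  have hfc : Continuous (fun t : ℝ => Real.log ‖z - ((cl t : ℝ) : ℂ)‖) := by
    apply Continuous.log
    · fun_prop
    · intro t; exact (hzt _).ne'
  have hcomp : IsCompact (Icc (-1:ℝ) 1) := isCompact_Icc
  have hgc : Continuous (fun t : ℝ => Real.log ‖z - (t : ℂ)‖) := by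
    apply Continuous.log
    · fun_prop
    · intro t; exact (hzt _).ne'
  obtain ⟨C, hC⟩ := hcomp.exists_bound_of_continuousOn hgc.continuousOn
  have hfb : ∀ t : ℝ, ‖Real.log ‖z - ((cl t : ℝ) : ℂ)‖‖ ≤ C := by
    intro t
    exact hC (cl t) (abs_le.mp (hclb t))
  let f : BoundedContinuousFunction ℝ ℝ := BoundedContinuousFunction.ofNormedAddCommGroup
    (fun t : ℝ => Real.log ‖z - ((cl t : ℝ) : ℂ)‖) hfc C hfb
  have h1 := (ProbabilityMeasure.tendsto_iff_forall_integral_tendsto.mp h) f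
  have h2 : ∀ n, ∫ t, f t ∂(nuP n : Measure ℝ) = Real.log ‖Tq z n‖ / 2 ^ n - Real.log (ac n) / 2 ^ n := by
    intro n
    rw [nuP_coe]
    unfold nu
    rw [integral_finsetSum_measure]
    · have h3 : ∀ e : Fin n → Bool, ∫ t, f t ∂(((2 : ENNReal)⁻¹ ^ n) • Measure.dirac (xr n e))
          = (1 / 2 ^ n) * Real.log ‖z - ((xr n e : ℝ) : ℂ)‖ := by
        intro e
        rw [integral_smul_measure, integral_dirac]
        have : ((2 : ENNReal)⁻¹ ^ n).toReal = 1 / 2 ^ n := by
          rw [ENNReal.toReal_pow, ENNReal.toReal_inv]; simp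
        rw [this, smul_eq_mul]
        congr 1
        show Real.log ‖z - ((cl (xr n e) : ℝ) : ℂ)‖ = _
        rw [hcl1 _ (xr_abs n e)]
      simp_rw [h3]
      rw [← Finset.mul_sum, Tq_prod, norm_mul, norm_prod, Real.log_mul, Real.log_prod]
      · rw [Complex.norm_real, Real.norm_of_nonneg (ac_pos n).le]
        ring
      · intro e _; exact (hzt _).ne'
      · rw [Complex.norm_real, Real.norm_of_nonneg (ac_pos n).le]; exact (ac_pos n).ne'
      · rw [Finset.prod_ne_zero_iff]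
        intro e _; exact (hzt _).ne'
    · intro e _
      apply Integrable.smul_measure _ (by finiteness)
      exact integrable_dirac (by simp)
  simp_rw [h2] at h1
  have h4 : Tendsto (fun n => Real.log ‖Tq z n‖ / 2 ^ n - Real.log (ac n) / 2 ^ n) (U : Filter ℕ)
      (𝓝 (Gr z - Vc)) := ((log_tendsto hzK).sub ac_tendsto).mono_left hU
  have h5 := tendsto_nhds_unique h1 h4
  rw [← h5]
  apply integral_congr_ae
  filter_upwards [lim_ae hU h] with t ht
  show _ = Real.log ‖z - ((cl t : ℝ) : ℂ)‖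
  rw [hcl1 t (ht 0)]

theorem lim_pot_real {x : ℝ} (hx : |x| ≤ 1) :
    ∫⁻ t, ker 3 x t ∂(ν : Measure ℝ) = ENNReal.ofReal (Real.log 3 + Vc - Gr (x : ℂ)) := by
  set zz : ℕ → ℂ := fun n => (⟨x, 1 / ((n:ℝ) + 1)⟩ : ℂ) with hzz
  have hy : ∀ n : ℕ, 0 < 1 / ((n:ℝ) + 1) := fun n => by positivity
  have hy1 : ∀ n : ℕ, 1 / ((n:ℝ) + 1) ≤ 1 := fun n => by
    rw [div_le_one (by positivity)]
    have : (0:ℝ) ≤ n := Nat.cast_nonneg n
    linarith
  have him : ∀ n, (zz n).im = 1 / ((n:ℝ) + 1) := fun n => rfl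
  have hre : ∀ n, (zz n).re = x := fun n => rfl
  have hsq : ∀ n (t : ℝ), ‖zz n - (t : ℂ)‖ ^ 2 = (x - t) ^ 2 + (1 / ((n:ℝ) + 1)) ^ 2 := by
    intro n t
    rw [← Complex.normSq_eq_norm_sq, Complex.normSq_apply, Complex.sub_re, Complex.sub_im, hre, him,
      Complex.ofReal_re, Complex.ofReal_im]
    ring
  have hpos : ∀ n (t : ℝ), 0 < ‖zz n - (t : ℂ)‖ := by
    intro n t
    have h1 := hsq n t
    have h2 := hy n
    have h3 : 0 < ‖zz n - (t : ℂ)‖ ^ 2 := by rw [h1]; positivity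
    by_contra hcon
    rw [not_lt] at hcon
    have h4 := le_antisymm hcon (norm_nonneg _)
    rw [h4] at h3
    norm_num at h3
  have hlog : ∀ n (t : ℝ), Real.log ‖zz n - (t : ℂ)‖ = (1/2) * Real.log ((x - t) ^ 2 + (1 / ((n:ℝ) + 1)) ^ 2) := by
    intro n t
    rw [← hsq, Real.log_pow]
    push_cast
    ring
  -- limits
  have hylim : Tendsto (fun n : ℕ => (1:ℝ) / ((n:ℝ) + 1)) atTop (𝓝 0) :=
    tendsto_one_div_add_atTop_nhds_zero_nat
  have hzlim : Tendsto zz atTop (𝓝 (x : ℂ)) := by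
    have h4 : Tendsto (fun n : ℕ => ((1 / ((n:ℝ) + 1) : ℝ) : ℂ)) atTop (𝓝 ((0:ℝ) : ℂ)) :=
      (Complex.continuous_ofReal.tendsto 0).comp hylim
    have h5 := (h4.mul_const Complex.I).const_add (x : ℂ)
    have h6 : ∀ n, zz n = (x : ℂ) + ((1 / ((n:ℝ) + 1) : ℝ) : ℂ) * Complex.I := fun n =>
      Complex.mk_eq_add_mul_I _ _
    rw [Complex.ofReal_zero, zero_mul, add_zero] at h5
    exact h5.congr (fun n => (h6 n).symm)
  have hmono : ∀ t : ℝ, Monotone (fun n : ℕ => ENNReal.ofReal (Real.log 3 - Real.log ‖zz n - (t : ℂ)‖)) := by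
    intro t m n hmn
    apply ENNReal.ofReal_le_ofReal
    have h1 : ‖zz n - (t : ℂ)‖ ≤ ‖zz m - (t : ℂ)‖ := by
      apply le_of_sq_le_sq _ (norm_nonneg _)
      rw [hsq, hsq]
      have h2 : (1:ℝ) / ((n:ℝ) + 1) ≤ 1 / ((m:ℝ) + 1) := by
        apply one_div_le_one_div_of_le (by positivity)
        have : (m:ℝ) ≤ n := by exact_mod_cast hmn
        linarith
      have h3 := hy n
      have : (1 / ((n:ℝ) + 1)) ^ 2 ≤ (1 / ((m:ℝ) + 1)) ^ 2 := by gcongr
      linarith
    have := Real.log_le_log (hpos n t) h1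
    linarith
  have hlim : ∀ t : ℝ, Tendsto (fun n : ℕ => ENNReal.ofReal (Real.log 3 - Real.log ‖zz n - (t : ℂ)‖)) atTop
      (𝓝 (ker 3 x t)) := by
    intro t
    unfold ker
    split_ifs with hxt
    · subst hxt
      have h1 : ∀ n, Real.log ‖zz n - (x : ℂ)‖ = Real.log (1 / ((n:ℝ) + 1)) := by
        intro n
        rw [hlog, sub_self]
        have : (0:ℝ) ^ 2 + (1 / ((n:ℝ) + 1)) ^ 2 = (1 / ((n:ℝ) + 1)) ^ 2 := by ring
        rw [this, Real.log_pow]
        push_cast; ring
      simp_rw [h1]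
      apply ENNReal.tendsto_ofReal_atTop.comp
      apply tendsto_atTop_add_const_left
      apply tendsto_neg_atBot_atTop.comp
      apply Real.tendsto_log_nhdsGT_zero.comp
      rw [tendsto_nhdsWithin_iff]
      exact ⟨hylim, Eventually.of_forall hy⟩
    · apply ENNReal.tendsto_ofReal
      apply Tendsto.const_sub
      have h2 : Real.log (dist x t) = Real.log ‖(x : ℂ) - (t : ℂ)‖ := by
        rw [← Complex.ofReal_sub, Complex.norm_real, Real.dist_eq, Real.norm_eq_abs]
      rw [h2]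
      have h3 : Tendsto (fun n => ‖zz n - (t : ℂ)‖) atTop (𝓝 ‖(x : ℂ) - (t : ℂ)‖) := by
        apply Tendsto.norm
        exact hzlim.sub_const _
      apply (Real.continuousAt_log _).tendsto.comp h3
      rw [norm_ne_zero_iff, sub_ne_zero]
      exact fun h => hxt (Complex.ofReal_injective h)
  have hmeas : ∀ n, Continuous (fun t : ℝ => Real.log 3 - Real.log ‖zz n - (t : ℂ)‖) := by
    intro n
    apply Continuous.sub continuous_const
    apply Continuous.log (by fun_prop)
    intro t; exact (hpos n t).ne'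
  have hmct := lintegral_tendsto_of_tendsto_of_monotone (μ := (ν : Measure ℝ))
    (f := fun n (t : ℝ) => ENNReal.ofReal (Real.log 3 - Real.log ‖zz n - (t : ℂ)‖))
    (F := fun t => ker 3 x t)
    (fun n => (hmeas n).measurable.ennreal_ofReal.aemeasurable)
    (Eventually.of_forall hmono) (Eventually.of_forall hlim)
  have hint : ∀ n, ∫⁻ t, ENNReal.ofReal (Real.log 3 - Real.log ‖zz n - (t : ℂ)‖) ∂(ν : Measure ℝ)
      = ENNReal.ofReal (Real.log 3 + Vc - Gr (zz n)) := by
    intro n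
    have hI : Integrable (fun t : ℝ => Real.log 3 - Real.log ‖zz n - (t : ℂ)‖) (ν : Measure ℝ) := by
      obtain ⟨C, hC⟩ := (isCompact_Icc (a := (-1:ℝ)) (b := 1)).exists_bound_of_continuousOn (hmeas n).continuousOn
      apply Integrable.of_bound (C := C) (hmeas n).aestronglyMeasurable
      filter_upwards [lim_ae hU h] with t ht
      exact hC t (KR_sub ht)
    rw [← ofReal_integral_eq_lintegral_ofReal hI]
    · congr 1
      have hI2 : Integrable (fun t : ℝ => Real.log ‖zz n - (t : ℂ)‖) (ν : Measure ℝ) := by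
        have := (integrable_const (μ := (ν : Measure ℝ)) (Real.log 3)).sub hI
        refine this.congr (Eventually.of_forall fun t => ?_)
        simp
      rw [integral_sub (integrable_const _) hI2, lim_potential hU h (by rw [him]; exact (hy n).ne')]
      simp
      ring
    · filter_upwards [lim_ae hU h] with t ht
      simp only [Pi.zero_apply, sub_nonneg]
      apply Real.log_le_log (hpos n t)
      have ht1 := abs_le.mp (ht 0)
      have hx1 := abs_le.mp hx
      rw [Tq_zero] at ht1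
      apply le_of_sq_le_sq _ (by norm_num)
      rw [hsq]
      have h2 := hy1 n
      have h3 := hy n
      nlinarith
  simp_rw [hint] at hmct
  have hGlim : Tendsto (fun n => ENNReal.ofReal (Real.log 3 + Vc - Gr (zz n))) atTop
      (𝓝 (ENNReal.ofReal (Real.log 3 + Vc - Gr (x : ℂ)))) := by
    apply ENNReal.tendsto_ofReal
    apply Tendsto.const_sub
    exact (Gr_continuous.tendsto (x : ℂ)).comp hzlim
  exact tendsto_nhds_unique hmct hGlim

end limit

end Pool.Agent.Helper368.Gap
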