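import Mathlib
import Pool.Agent.Helper368.G7

open MeasureTheory Set Filter Topology ENNReal

namespace Pool.Agent.Helper368.Gap

/-- the minimal energy, shifted by `log 3` -/
noncomputable def E0 : ENNReal := ENNReal.ofReal (Real.log 3 + Vc)

theorem E0_ne_top : E0 ≠ ⊤ := ofReal_ne_top

theorem Qf_measurable (μ ν : Measure ℝ) [SFinite μ] [SFinite ν] : Measurable (fun s => Qf μ ν s) := by
  have h3 : (fun s => Qf μ ν s) = fun s => ∫⁻ x, ∫⁻ y, ENNReal.ofReal (s - dist x y) ∂ν ∂μ := by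
    funext s; exact (lintegral_tri μ ν s).symm
  rw [h3]
  apply Measurable.lintegral_prod_right' (f := fun q : ℝ × ℝ => ∫⁻ y, ENNReal.ofReal (q.1 - dist q.2 y) ∂ν)
  apply Measurable.lintegral_prod_right' (f := fun q : (ℝ × ℝ) × ℝ => ENNReal.ofReal (q.1.1 - dist q.1.2 q.2))
  fun_prop

/-- equality case of positive definiteness -/
theorem en_eq_case {T : ℝ} (hT : 0 < T) (μ ν : Measure ℝ) [SFinite μ] [SFinite ν]
    (h1 : ∀ᵐ x ∂μ, ∀ᵐ y ∂μ, dist x y ≤ T) (h2 : ∀ᵐ x ∂ν, ∀ᵐ y ∂ν, dist x y ≤ T)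
    (h : ∀ᵐ x ∂μ, ∀ᵐ y ∂ν, dist x y ≤ T)
    (hle : en T μ μ + en T ν ν ≤ 2 * en T μ ν) (hfin : en T μ ν ≠ ⊤) :
    Qf μ μ T + Qf ν ν T ≤ 2 * Qf μ ν T ∧ Qf μ ν T ≠ ⊤ := by
  rw [en_rep hT μ ν h, en_rep hT μ μ h1, en_rep hT ν ν h2] at hle
  rw [en_rep hT μ ν h] at hfin
  have hm : ∀ (μ ν : Measure ℝ) [SFinite μ] [SFinite ν],
      Measurable (fun s => Qf μ ν s * ENNReal.ofReal (1 / s ^ 2)) := by
    intro μ ν _ _
    exact (Qf_measurable μ ν).mul (by fun_prop)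
  have hA : 2 * ∫⁻ s in Ioc 0 T, Qf μ ν s * ENNReal.ofReal (1 / s ^ 2)
      ≤ (∫⁻ s in Ioc 0 T, Qf μ μ s * ENNReal.ofReal (1 / s ^ 2))
        + ∫⁻ s in Ioc 0 T, Qf ν ν s * ENNReal.ofReal (1 / s ^ 2) := by
    rw [← lintegral_const_mul _ (hm μ ν), ← lintegral_add_left (hm μ μ)]
    apply lintegral_mono
    intro s
    show 2 * (Qf μ ν s * ENNReal.ofReal (1 / s ^ 2)) ≤ Qf μ μ s * ENNReal.ofReal (1 / s ^ 2)
      + Qf ν ν s * ENNReal.ofReal (1 / s ^ 2)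
    rw [← add_mul, ← mul_assoc]
    gcongr
    exact Qf_pd μ ν s
  set A := ∫⁻ s in Ioc 0 T, Qf μ ν s * ENNReal.ofReal (1 / s ^ 2) with hAdef
  set B := ∫⁻ s in Ioc 0 T, Qf μ μ s * ENNReal.ofReal (1 / s ^ 2) with hBdef
  set C := ∫⁻ s in Ioc 0 T, Qf ν ν s * ENNReal.ofReal (1 / s ^ 2) with hCdef
  rw [ENNReal.add_ne_top] at hfin
  obtain ⟨hAtop, hQtop⟩ := hfin
  have hT' : ENNReal.ofReal (1 / T) ≠ 0 := by
    rw [Ne, ENNReal.ofReal_eq_zero, not_le]; positivity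
  have hQ : Qf μ ν T ≠ ⊤ := by
    intro htop
    rw [htop, ENNReal.top_mul hT'] at hQtop
    exact hQtop rfl
  refine ⟨?_, hQ⟩
  have h5 : 2 * A + (Qf μ μ T + Qf ν ν T) * ENNReal.ofReal (1 / T)
      ≤ 2 * A + (2 * Qf μ ν T) * ENNReal.ofReal (1 / T) := by
    calc 2 * A + (Qf μ μ T + Qf ν ν T) * ENNReal.ofReal (1 / T)
        ≤ (B + C) + (Qf μ μ T + Qf ν ν T) * ENNReal.ofReal (1 / T) := by gcongr
      _ = B + Qf μ μ T * ENNReal.ofReal (1 / T) + (C + Qf ν ν T * ENNReal.ofReal (1 / T)) := by ring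
      _ ≤ 2 * (A + Qf μ ν T * ENNReal.ofReal (1 / T)) := hle
      _ = _ := by ring
  have h2A : 2 * A ≠ ⊤ := ENNReal.mul_ne_top (by norm_num) hAtop
  have h6 := (ENNReal.add_le_add_iff_left h2A).mp h5
  exact (ENNReal.mul_le_mul_iff_left hT' ofReal_ne_top).mp h6

theorem sq_eq_case {a b : ENNReal} (ha : a ≠ ⊤) (hb : b ≠ ⊤) (h : a * a + b * b = 2 * (a * b)) : a = b := by
  have h1 := congrArg ENNReal.toReal h
  rw [ENNReal.toReal_add (ENNReal.mul_ne_top ha ha) (ENNReal.mul_ne_top hb hb), ENNReal.toReal_mul,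
    ENNReal.toReal_mul, ENNReal.toReal_mul, ENNReal.toReal_mul] at h1
  simp only [ENNReal.toReal_ofNat] at h1
  have h2 : (a.toReal - b.toReal) ^ 2 = 0 := by nlinarith
  have h3 : a.toReal = b.toReal := by
    have := pow_eq_zero_iff (two_ne_zero) |>.mp h2
    linarith
  exact (ENNReal.toReal_eq_toReal_iff' ha hb).mp h3

theorem Qf_eq_case {T : ℝ} (μ ν : Measure ℝ) [IsProbabilityMeasure μ] [IsProbabilityMeasure ν]
    (h : Qf μ μ T + Qf ν ν T ≤ 2 * Qf μ ν T) (hfin : Qf μ ν T ≠ ⊤) :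
    ∀ᵐ z ∂(volume : Measure ℝ), μ (Ioc (z - T) z) = ν (Ioc (z - T) z) := by
  unfold Qf at h hfin
  have hmμ := measurable_Ioc μ T
  have hmν := measurable_Ioc ν T
  have m1 : Measurable (fun z => μ (Ioc (z - T) z) * ν (Ioc (z - T) z)) := hmμ.mul hmν
  have m2 : Measurable (fun z => μ (Ioc (z - T) z) * μ (Ioc (z - T) z)) := hmμ.mul hmμ
  have m3 : Measurable (fun z => ν (Ioc (z - T) z) * ν (Ioc (z - T) z)) := hmν.mul hmν
  rw [← lintegral_const_mul _ m1, ← lintegral_add_left m2] at h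
  have h1 : (fun z => 2 * (μ (Ioc (z - T) z) * ν (Ioc (z - T) z)))
      =ᵐ[volume] fun z => μ (Ioc (z - T) z) * μ (Ioc (z - T) z) + ν (Ioc (z - T) z) * ν (Ioc (z - T) z) := by
    apply ae_eq_of_ae_le_of_lintegral_le
    · exact Eventually.of_forall fun z => two_mul_le_sq _ _
    · rw [lintegral_const_mul _ m1]
      exact ENNReal.mul_ne_top (by norm_num) hfin
    · exact (m2.add m3).aemeasurable
    · exact h
  filter_upwards [h1] with z hz
  exact sq_eq_case (measure_ne_top _ _) (measure_ne_top _ _) hz.symm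

section limit

variable {ν : ProbabilityMeasure ℝ} {U : Ultrafilter ℕ} (hU : (U : Filter ℕ) ≤ atTop)
  (h : Tendsto nuP U (𝓝 ν))

include hU h

theorem pot_KR {x : ℝ} (hx : x ∈ KR) : ∫⁻ t, ker 3 x t ∂(ν : Measure ℝ) = E0 := by
  rw [lim_pot_real hU h (x := x) (hx 0), Gr_zero (mem_KC_ofReal.mpr hx), sub_zero]
  rfl

theorem cross_eq (μ : Measure ℝ) [IsProbabilityMeasure μ] (hμ : μ KRᶜ = 0) :
    en 3 μ (ν : Measure ℝ) = E0 := by
  unfold en
  have h1 : ∀ᵐ x ∂μ, ∫⁻ t, ker 3 x t ∂(ν : Measure ℝ) = E0 := by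
    have : ∀ᵐ x ∂μ, x ∈ KR := by rw [ae_iff]; exact hμ
    filter_upwards [this] with x hx
    exact pot_KR hU h hx
  rw [lintegral_congr_ae h1]
  simp

theorem self_eq : en 3 (ν : Measure ℝ) (ν : Measure ℝ) = E0 :=
  cross_eq hU h (ν : Measure ℝ) (lim_support hU h)

omit hU h in
theorem ae_dist' {μ ν : Measure ℝ} (hμ : μ KRᶜ = 0) (hν : ν KRᶜ = 0) :
    ∀ᵐ x ∂μ, ∀ᵐ y ∂ν, dist x y ≤ 3 := by
  have h1 : ∀ᵐ x ∂μ, x ∈ KR := by rw [ae_iff]; exact hμ
  have h2 : ∀ᵐ x ∂ν, x ∈ KR := by rw [ae_iff]; exact hν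
  filter_upwards [h1] with x hx
  filter_upwards [h2] with y hy
  have := KR_sub hx
  have := KR_sub hy
  rw [Real.dist_eq, abs_le]
  constructor <;> linarith [this.1, this.2, (KR_sub hx).1, (KR_sub hx).2]

theorem lower_E0 (μ : Measure ℝ) [IsProbabilityMeasure μ] (hμ : μ KRᶜ = 0) : E0 ≤ en 3 μ μ := by
  have h1 := en_pd (T := 3) (by norm_num) μ (ν : Measure ℝ) (ae_dist' hμ hμ)
    (ae_dist' (lim_support hU h) (lim_support hU h)) (ae_dist' hμ (lim_support hU h))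
  rw [cross_eq hU h μ hμ, self_eq hU h, two_mul] at h1
  exact (ENNReal.add_le_add_iff_right E0_ne_top).mp h1

theorem mass_eq (μ : Measure ℝ) [IsProbabilityMeasure μ] (hμ : μ KRᶜ = 0) (hle : en 3 μ μ ≤ E0)
    {c : ℝ} (hc : c ∉ KR) : μ (Iic c) = (ν : Measure ℝ) (Iic c) := by
  obtain ⟨h1, h2⟩ := en_eq_case (T := 3) (by norm_num) μ (ν : Measure ℝ) (ae_dist' hμ hμ)
    (ae_dist' (lim_support hU h) (lim_support hU h)) (ae_dist' hμ (lim_support hU h))
    (by rw [cross_eq hU h μ hμ, self_eq hU h, two_mul]; gcongr) (by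
      rw [cross_eq hU h μ hμ]; exact E0_ne_top)
  have h3 := Qf_eq_case μ (ν : Measure ℝ) h1 h2
  have hν := lim_support hU h
  -- extreme positions of c
  rcases lt_or_ge c (-1) with hc1 | hc1
  · have hsub : Iic c ⊆ KRᶜ := by
      intro x hx hx'
      have := (KR_sub hx').1
      have : x ≤ c := hx
      linarith
    rw [measure_mono_null hsub hμ, measure_mono_null hsub hν]
  rcases lt_or_ge 1 c with hc2 | hc2
  · have hsub : (Iic c)ᶜ ⊆ KRᶜ := by
      intro x hx hx'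
      have h4 := (KR_sub hx').2
      apply hx
      show x ≤ c
      linarith
    have e1 := measure_mono_null hsub hμ
    have e2 := measure_mono_null hsub hν
    rw [prob_compl_eq_zero_iff measurableSet_Iic] at e1 e2
    rw [e1, e2]
  -- middle
  obtain ⟨ε, hε, hball⟩ := Metric.isOpen_iff.mp KR_closed.isOpen_compl c hc
  have hvol : 0 < (volume : Measure ℝ) (Ioo c (min (c + ε) 2)) := by
    rw [Real.volume_Ioo, ENNReal.ofReal_pos, sub_pos]
    apply lt_min <;> linarith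
  obtain ⟨z, hz, hzeq⟩ : ∃ z ∈ Ioo c (min (c + ε) 2), μ (Ioc (z - 3) z) = (ν : Measure ℝ) (Ioc (z - 3) z) := by
    by_contra hcon
    push Not at hcon
    have : (volume : Measure ℝ) (Ioo c (min (c + ε) 2)) = 0 := by
      rw [ae_iff] at h3
      apply measure_mono_null _ h3
      intro z hz
      exact hcon z hz
    rw [this] at hvol
    exact lt_irrefl _ hvol
  have hz2 := lt_min_iff.mp hz.2
  have key : ∀ (ρ : Measure ℝ), ρ KRᶜ = 0 → ρ (Ioc (z - 3) z) = ρ (Iic c) := by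
    intro ρ hρ
    apply measure_congr
    rw [Filter.eventuallyEq_set]
    have : ∀ᵐ x ∂ρ, x ∈ KR := by rw [ae_iff]; exact hρ
    filter_upwards [this] with x hx
    have hx1 := KR_sub hx
    constructor
    · intro hx2
      show x ≤ c
      by_contra hcon
      rw [not_le] at hcon
      have : x ∈ Metric.ball c ε := by
        rw [Metric.mem_ball, Real.dist_eq, abs_lt]
        constructor <;> linarith [hx2.2]
      exact hball this hx
    · intro hx2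
      have : x ≤ c := hx2
      exact ⟨by linarith [hx1.1], by linarith [hz.1]⟩
  rw [← key μ hμ, ← key _ hν, hzeq]

end limit

/-- summary of the potential theory -/
theorem summary : ∃ ν : Measure ℝ, IsProbabilityMeasure ν ∧ ν KRᶜ = 0 ∧ en 3 ν ν = E0 ∧
    (∀ μ : Measure ℝ, IsProbabilityMeasure μ → μ KRᶜ = 0 → E0 ≤ en 3 μ μ) ∧
    (∀ μ : Measure ℝ, IsProbabilityMeasure μ → μ KRᶜ = 0 → en 3 μ μ ≤ E0 → ∀ c ∉ KR,
      ∃ q : ℚ, μ (Iic c) = ENNReal.ofReal (q : ℝ)) := by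
  obtain ⟨ν, U, hU, h⟩ := exists_limit'
  refine ⟨(ν : Measure ℝ), inferInstance, lim_support hU h, self_eq hU h, ?_, ?_⟩
  · intro μ _ hμ
    exact lower_E0 hU h μ hμ
  · intro μ _ hμ hle c hc
    obtain ⟨q, hq⟩ := lim_mass hU h hc
    exact ⟨q, by rw [mass_eq hU h μ hμ hle hc, hq]⟩

end Pool.Agent.Helper368.Gap
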