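import Mathlib

open Set Filter Topology Polynomial

namespace Pool.Agent.Helper368.Gap

section adm

variable {T : ℝ[X]}

theorem adm_splits (hr : T.roots.toFinset.card = T.natDegree) :
    T.Splits ∧ T.roots.Nodup := by
  have h1 : T.roots.toFinset.card ≤ Multiset.card T.roots := Multiset.toFinset_card_le _
  have h2 : Multiset.card T.roots ≤ T.natDegree := card_roots' T
  have h3 : Multiset.card T.roots = T.natDegree := by omega
  refine ⟨splits_iff_card_roots.mpr h3, ?_⟩
  rw [← Multiset.toFinset_card_eq_card_iff_nodup, hr, h3]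

theorem adm_crit (hN : 2 ≤ T.natDegree) (hr : T.roots.toFinset.card = T.natDegree) :
    T.derivative.roots.toFinset.card = T.natDegree - 1 := by
  have h1 := card_roots_toFinset_le_card_roots_derivative_sdiff_roots_succ T
  have h2 : (T.derivative.roots.toFinset \ T.roots.toFinset).card ≤ T.derivative.roots.toFinset.card :=
    Finset.card_le_card Finset.sdiff_subset
  have h3 : T.derivative.roots.toFinset.card ≤ Multiset.card T.derivative.roots := Multiset.toFinset_card_le _
  have h4 : Multiset.card T.derivative.roots ≤ T.derivative.natDegree := card_roots' _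
  have h5 : T.derivative.natDegree = T.natDegree - 1 := natDegree_derivative T
  omega

theorem adm_sign (hN : 2 ≤ T.natDegree) (hr : T.roots.toFinset.card = T.natDegree) {y : ℝ}
    (hy : T.derivative.eval y = 0) (hTy : T.eval y ≠ 0) :
    T.derivative.derivative.eval y / T.eval y < 0 := by
  classical
  obtain ⟨hs, hnd⟩ := adm_splits hr
  have hT0 : T ≠ 0 := by rintro rfl; simp at hN
  have hval : T.roots = T.roots.toFinset.val := by
    rw [Multiset.toFinset_val, hnd.dedup]
  have h1 : ∀ᶠ x in 𝓝 y, T.derivative.eval x / T.eval x = ∑ z ∈ T.roots.toFinset, 1 / (x - z) := by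
    have hc : ∀ᶠ x in 𝓝 y, T.eval x ≠ 0 := T.continuous.continuousAt.eventually_ne hTy
    filter_upwards [hc] with x hx
    rw [hs.eval_derivative_div_eval_of_ne_zero hx]
    conv_lhs => rw [hval]
    rfl
  have hyz : ∀ z ∈ T.roots.toFinset, y - z ≠ 0 := by
    intro z hz h0
    rw [Multiset.mem_toFinset, mem_roots hT0] at hz
    have : y = z := by linarith
    rw [this] at hTy
    exact hTy hz
  have h2 : HasDerivAt (fun x => ∑ z ∈ T.roots.toFinset, 1 / (x - z))
      (∑ z ∈ T.roots.toFinset, -(1 / (y - z) ^ 2)) y := by
    apply HasDerivAt.fun_sum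
    intro z hz
    have h3 : HasDerivAt (fun x : ℝ => x - z) 1 y := (hasDerivAt_id y).sub_const z
    have h4 := h3.inv (hyz z hz)
    have e1 : (fun x : ℝ => 1 / (x - z)) = fun x : ℝ => (x - z)⁻¹ := by funext x; rw [one_div]
    rw [e1]
    have e2 : -(1 / (y - z) ^ 2) = -1 / (y - z) ^ 2 := by ring
    rw [e2]
    exact h4
  have h3 : HasDerivAt (fun x => T.derivative.eval x / T.eval x)
      ((T.derivative.derivative.eval y * T.eval y - T.derivative.eval y * T.derivative.eval y) / (T.eval y) ^ 2) y :=
    (T.derivative.hasDerivAt y).div (T.hasDerivAt y) hTy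
  have h4 := h3.unique (h2.congr_of_eventuallyEq h1)
  rw [hy] at h4
  have h5 : T.derivative.derivative.eval y / T.eval y
      = (T.derivative.derivative.eval y * T.eval y - 0 * 0) / (T.eval y) ^ 2 := by
    field_simp
    ring
  rw [h5, h4]
  have hne : T.roots.toFinset.Nonempty := by
    rw [← Finset.card_pos, hr]; omega
  rw [Finset.sum_neg_distrib, neg_lt_zero]
  apply Finset.sum_pos _ hne
  intro z hz
  have := hyz z hz
  positivity

/-- an admissible polynomial takes values in `[-1,1]` only on the real line -/
theorem adm_real (hN : 2 ≤ T.natDegree) (hr : T.roots.toFinset.card = T.natDegree)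
    (hc : ∀ y : ℝ, T.derivative.eval y = 0 → 1 ≤ |T.eval y|) {t : ℝ} (ht : |t| ≤ 1) {z : ℂ}
    (hz : aeval z T = (t : ℂ)) : z.im = 0 := by
  classical
  by_contra him
  set Y := T.derivative.roots.toFinset with hY
  have hYc : Y.card = T.natDegree - 1 := adm_crit hN hr
  have hT0 : T ≠ 0 := by rintro rfl; simp at hN
  have hd5 : T.derivative.natDegree = T.natDegree - 1 := natDegree_derivative T
  have hD0 : T.derivative ≠ 0 := by
    intro h
    have h' := derivative_eq_zero.mp h
    omega
  -- factorisation of the derivative over the reals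
  have hDroots : Multiset.card T.derivative.roots = T.derivative.natDegree := by
    have h3 : T.derivative.roots.toFinset.card ≤ Multiset.card T.derivative.roots := Multiset.toFinset_card_le _
    have h4 : Multiset.card T.derivative.roots ≤ T.derivative.natDegree := card_roots' _
    rw [← hY] at h3
    omega
  have hDnd : T.derivative.roots.Nodup := by
    rw [← Multiset.toFinset_card_eq_card_iff_nodup, ← hY, hYc, hDroots, hd5]
  have hDval : T.derivative.roots = Y.val := by
    rw [hY, Multiset.toFinset_val, hDnd.dedup]
  set L := T.derivative.leadingCoeff with hL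
  have hL0 : L ≠ 0 := leadingCoeff_ne_zero.mpr hD0
  have hfac : T.derivative = C L * Lagrange.nodal Y id := by
    have h1 := C_leadingCoeff_mul_prod_multiset_X_sub_C hDroots
    rw [← h1, hDval, Lagrange.nodal_eq]
    rfl
  -- division
  set R := T - C t with hR
  have hRd : R.natDegree = T.natDegree := natDegree_sub_C
  have hR0 : R ≠ 0 := by
    intro h; rw [h, natDegree_zero] at hRd; omega
  have hRlc : R.leadingCoeff = T.leadingCoeff := by
    unfold leadingCoeff
    rw [hRd, hR, coeff_sub, coeff_C, if_neg (by omega), sub_zero]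
  have hle : T.derivative.degree ≤ R.degree := by
    rw [degree_eq_natDegree hD0, degree_eq_natDegree hR0, hd5, hRd]
    exact_mod_cast (by omega : T.natDegree - 1 ≤ T.natDegree)
  set q := R / T.derivative with hq
  set r := R % T.derivative with hrr
  have hdiv : T.derivative * q + r = R := EuclideanDomain.div_add_mod R T.derivative
  have hqd : T.derivative.degree + q.degree = R.degree := degree_add_div hD0 hle
  have hq0 : q ≠ 0 := by
    intro h
    rw [h, degree_zero, WithBot.add_bot] at hqd
    rw [eq_comm, degree_eq_bot] at hqd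
    exact hR0 hqd
  have hqn : q.natDegree = 1 := by
    rw [degree_eq_natDegree hD0, degree_eq_natDegree hR0, degree_eq_natDegree hq0, hd5, hRd] at hqd
    have : T.natDegree - 1 + q.natDegree = T.natDegree := by exact_mod_cast hqd
    omega
  have hqlc : q.coeff 1 = R.leadingCoeff / T.derivative.leadingCoeff := by
    rw [← leadingCoeff_div hle, leadingCoeff, hqn]
  have hapos : 0 < q.coeff 1 := by
    rw [hqlc, hRlc]
    have h1 : T.derivative.leadingCoeff = T.natDegree * T.leadingCoeff := by
      unfold leadingCoeff
      rw [hd5, coeff_derivative, show T.natDegree - 1 + 1 = T.natDegree by omega]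
      have : ((T.natDegree - 1 : ℕ) : ℝ) + 1 = T.natDegree := by
        have : 1 ≤ T.natDegree := by omega
        push_cast [Nat.cast_sub this]; ring
      rw [this, mul_comm]
    have h2 : T.leadingCoeff ≠ 0 := leadingCoeff_ne_zero.mpr hT0
    have h3 : (0:ℝ) < T.natDegree := by exact_mod_cast (by omega : 0 < T.natDegree)
    rw [h1]
    have : T.leadingCoeff / (T.natDegree * T.leadingCoeff) = 1 / T.natDegree := by field_simp
    rw [this]; positivity
  have hqeq : q = C (q.coeff 1) * X + C (q.coeff 0) := eq_X_add_C_of_natDegree_le_one hqn.le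
  have hrd : r.degree < (Y.card : WithBot ℕ) := by
    have h1 := EuclideanDomain.mod_lt R hD0
    have h2 : r.degree < T.derivative.degree := h1
    rw [degree_eq_natDegree hD0, hd5, ← hYc] at h2
    exact h2
  -- pass to complex numbers
  have hmapr : (r.map Complex.ofRealHom).degree < (Y.card : WithBot ℕ) := lt_of_le_of_lt degree_map_le hrd
  set v : ℝ → ℂ := fun y => (y : ℂ) with hv
  have hvinj : Set.InjOn v Y := fun a _ b _ hab => Complex.ofReal_injective hab
  have hint := Lagrange.eq_interpolate hvinj hmapr
  have hznode : ∀ y ∈ Y, z ≠ v y := by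
    rintro y - rfl
    simp [hv] at him
  have hnodal : Lagrange.nodal Y v = (Lagrange.nodal Y id).map Complex.ofRealHom := by
    rw [Lagrange.nodal_eq, Lagrange.nodal_eq, Polynomial.map_prod]
    apply Finset.prod_congr rfl
    intro y _
    simp [hv]
  have hzr : (r.map Complex.ofRealHom).eval z = (Lagrange.nodal Y v).eval z *
      ∑ y ∈ Y, Lagrange.nodalWeight Y v y * (z - v y)⁻¹ * (r.map Complex.ofRealHom).eval (v y) := by
    conv_lhs => rw [hint]
    rw [Lagrange.eval_interpolate_not_at_node _ hznode]
  have hevalC : ∀ (P : ℝ[X]) (y : ℝ), (P.map Complex.ofRealHom).eval ((y : ℝ) : ℂ) = ((P.eval y : ℝ) : ℂ) := by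
    intro P y
    rw [eval_map, show ((y : ℝ) : ℂ) = Complex.ofRealHom y from rfl, Polynomial.eval₂_at_apply]
    rfl
  have hDz : (T.derivative.map Complex.ofRealHom).eval z = (L : ℂ) * (Lagrange.nodal Y v).eval z := by
    conv_lhs => rw [hfac]
    rw [Polynomial.map_mul, eval_mul, hnodal]
    simp
  have hnz : (Lagrange.nodal Y v).eval z ≠ 0 := by
    rw [Lagrange.eval_nodal, Finset.prod_ne_zero_iff]
    intro y hy
    exact sub_ne_zero.mpr (hznode y hy)
  -- weights
  have hcoef : ∀ y ∈ Y, Lagrange.nodalWeight Y v y * (r.map Complex.ofRealHom).eval (v y)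
      = (L : ℂ) * (((R.eval y / T.derivative.derivative.eval y : ℝ)) : ℂ) := by
    intro y hy
    rw [Lagrange.nodalWeight_eq_eval_derivative_nodal hy, hnodal, derivative_map, hevalC, hevalC]
    have h1 : r.eval y = R.eval y := by
      rw [← hdiv, eval_add, eval_mul]
      have : T.derivative.eval y = 0 := by
        rw [hY, Multiset.mem_toFinset, mem_roots hD0] at hy
        exact hy
      rw [this]; ring
    have h2 : T.derivative.derivative.eval y = L * (Lagrange.nodal Y id).derivative.eval y := by
      conv_lhs => rw [hfac]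
      rw [derivative_C_mul, eval_C_mul]
    rw [h1, h2]
    push_cast
    by_cases h0 : (Lagrange.nodal Y id).derivative.eval y = 0
    · rw [h0]; simp
    · have hLc : (L : ℂ) ≠ 0 := by exact_mod_cast hL0
      have h0c : (((Lagrange.nodal Y id).derivative.eval y : ℝ) : ℂ) ≠ 0 := by exact_mod_cast h0
      field_simp
  have hneg : ∀ y ∈ Y, R.eval y / T.derivative.derivative.eval y ≤ 0 := by
    intro y hy
    have hy0 : T.derivative.eval y = 0 := by
      rw [hY, Multiset.mem_toFinset, mem_roots hD0] at hy
      exact hy
    have h1 := hc y hy0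
    have hTy : T.eval y ≠ 0 := by
      intro h; rw [h] at h1; simp at h1; linarith
    have h2 := adm_sign hN hr hy0 hTy
    have ht' := abs_le.mp ht
    rw [hR, eval_sub, eval_C]
    rcases lt_or_gt_of_ne hTy with h3 | h3
    · rw [abs_of_neg h3] at h1
      have h4 : 0 < T.derivative.derivative.eval y := by
        rcases div_neg_iff.mp h2 with h | h
        · exact h.1
        · linarith [h.2]
      apply div_nonpos_of_nonpos_of_nonneg _ h4.le
      linarith
    · rw [abs_of_pos h3] at h1
      have h4 : T.derivative.derivative.eval y < 0 := by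
        rcases div_neg_iff.mp h2 with h | h
        · linarith [h.2]
        · exact h.1
      apply div_nonpos_of_nonneg_of_nonpos _ h4.le
      linarith
  -- conclusion
  have hRz : (R.map Complex.ofRealHom).eval z = 0 := by
    rw [hR, Polynomial.map_sub, eval_sub, Polynomial.map_C, eval_C, eval_map]
    have : eval₂ Complex.ofRealHom z T = aeval z T := rfl
    rw [this, hz]
    simp
  have hkey : (R.map Complex.ofRealHom).eval z = ((L : ℂ) * (Lagrange.nodal Y v).eval z) *
      (((q.coeff 1 : ℝ) : ℂ) * z + ((q.coeff 0 : ℝ) : ℂ) +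
        ∑ y ∈ Y, (((R.eval y / T.derivative.derivative.eval y : ℝ)) : ℂ) * (z - v y)⁻¹) := by
    conv_lhs => rw [← hdiv]
    rw [Polynomial.map_add, Polynomial.map_mul, eval_add, eval_mul, hDz, hzr]
    have hqz : (q.map Complex.ofRealHom).eval z = ((q.coeff 1 : ℝ) : ℂ) * z + ((q.coeff 0 : ℝ) : ℂ) := by
      conv_lhs => rw [hqeq]
      simp
    have hsum : ∑ y ∈ Y, Lagrange.nodalWeight Y v y * (z - v y)⁻¹ * (r.map Complex.ofRealHom).eval (v y)
        = (L : ℂ) * ∑ y ∈ Y, (((R.eval y / T.derivative.derivative.eval y : ℝ)) : ℂ) * (z - v y)⁻¹ := by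
      rw [Finset.mul_sum]
      apply Finset.sum_congr rfl
      intro y hy
      have := hcoef y hy
      calc Lagrange.nodalWeight Y v y * (z - v y)⁻¹ * (r.map Complex.ofRealHom).eval (v y)
          = (Lagrange.nodalWeight Y v y * (r.map Complex.ofRealHom).eval (v y)) * (z - v y)⁻¹ := by ring
        _ = _ := by rw [this]; ring
    rw [hqz, hsum]
    ring
  rw [hRz] at hkey
  have hLc : (L : ℂ) ≠ 0 := by exact_mod_cast hL0
  have hzero := (mul_eq_zero.mp hkey.symm).resolve_left (mul_ne_zero hLc hnz)
  have himz := congrArg Complex.im hzero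
  rw [Complex.add_im, Complex.add_im, Complex.im_ofReal_mul, Complex.ofReal_im, add_zero, Complex.zero_im,
    Complex.im_sum] at himz
  have hterm : ∀ y ∈ Y, ((((R.eval y / T.derivative.derivative.eval y : ℝ)) : ℂ) * (z - v y)⁻¹).im
      = z.im * (-(R.eval y / T.derivative.derivative.eval y) / Complex.normSq (z - v y)) := by
    intro y _
    rw [Complex.im_ofReal_mul, Complex.inv_im, Complex.sub_im]
    simp only [hv, Complex.ofReal_im, sub_zero]
    ring
  rw [Finset.sum_congr rfl hterm, ← Finset.mul_sum, mul_comm (q.coeff 1), ← mul_add] at himz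
  have hpos : 0 < q.coeff 1 + ∑ y ∈ Y, -(R.eval y / T.derivative.derivative.eval y) / Complex.normSq (z - v y) := by
    apply add_pos_of_pos_of_nonneg hapos
    apply Finset.sum_nonneg
    intro y hy
    apply div_nonneg _ (Complex.normSq_nonneg _)
    linarith [hneg y hy]
  rcases mul_eq_zero.mp himz with h | h
  · exact him h
  · linarith

end adm

end Pool.Agent.Helper368.Gap
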