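import Mathlib
import Pool.Agent.Helper368.G8
import Pool.Agent.Helper368.G9

open MeasureTheory Set Filter Topology ENNReal

namespace Pool.Agent.Helper368.Gap

theorem diam_KR : Metric.diam KR ≤ 2 := by
  have h1 := Metric.diam_mono KR_sub (Metric.isBounded_Icc (-1:ℝ) 1)
  rw [Real.diam_Icc (by norm_num)] at h1
  linarith

theorem dist_le_diam {x y : ℝ} (hx : x ∈ KR) (hy : y ∈ KR) : dist x y ≤ Metric.diam KR + 1 := by
  have := Metric.dist_le_diam_of_mem KR_compact.isBounded hx hy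
  linarith

theorem ker_shift {x y : ℝ} (hx : x ∈ KR) (hy : y ∈ KR) :
    ker 3 x y = ker (Metric.diam KR + 1) x y
      + ENNReal.ofReal (Real.log 3 - Real.log (Metric.diam KR + 1)) := by
  have h0 : 0 ≤ Metric.diam KR := Metric.diam_nonneg
  unfold ker
  split_ifs with hxy
  · simp
  · have h1 := dist_le_diam hx hy
    have h2 : 0 < dist x y := dist_pos.mpr hxy
    have h3 := Real.log_le_log h2 h1
    have h4 := Real.log_le_log (by linarith) (show Metric.diam KR + 1 ≤ 3 by linarith [diam_KR])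
    rw [← ENNReal.ofReal_add (by linarith) (by linarith)]
    congr 1; ring

theorem en_shift (μ : Measure ℝ) [IsProbabilityMeasure μ] (hμ : μ KRᶜ = 0) :
    en 3 μ μ = en (Metric.diam KR + 1) μ μ
      + ENNReal.ofReal (Real.log 3 - Real.log (Metric.diam KR + 1)) := by
  have h1 : ∀ᵐ x ∂μ, x ∈ KR := by rw [ae_iff]; exact hμ
  set c := ENNReal.ofReal (Real.log 3 - Real.log (Metric.diam KR + 1)) with hc
  have h2 : ∀ᵐ x ∂μ, ∫⁻ y, ker 3 x y ∂μ = ∫⁻ y, ker (Metric.diam KR + 1) x y ∂μ + c := by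
    filter_upwards [h1] with x hx
    have h3 : ∀ᵐ y ∂μ, ker 3 x y = ker (Metric.diam KR + 1) x y + c := by
      filter_upwards [h1] with y hy
      exact ker_shift hx hy
    rw [lintegral_congr_ae h3, lintegral_add_right _ measurable_const]
    simp
  unfold en
  rw [lintegral_congr_ae h2, lintegral_add_right _ measurable_const]
  simp

/-- potential theory of the limit set, normalised by the diameter -/
theorem summary' : ∃ ν : Measure ℝ, IsProbabilityMeasure ν ∧ ν KRᶜ = 0 ∧
    en (Metric.diam KR + 1) ν ν < ⊤ ∧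
    (∀ μ : Measure ℝ, IsProbabilityMeasure μ → μ KRᶜ = 0 →
      en (Metric.diam KR + 1) ν ν ≤ en (Metric.diam KR + 1) μ μ) ∧
    (∀ μ : Measure ℝ, IsProbabilityMeasure μ → μ KRᶜ = 0 →
      en (Metric.diam KR + 1) μ μ ≤ en (Metric.diam KR + 1) ν ν → ∀ c ∉ KR,
      ∃ q : ℚ, μ (Icc (sInf KR) c) = ENNReal.ofReal (q : ℝ)) := by
  obtain ⟨ν, hν, hs, he, hmin, hmass⟩ := summary
  have hν' := en_shift ν hs
  refine ⟨ν, hν, hs, ?_, ?_, ?_⟩
  · rw [he] at hν'
    have : en (Metric.diam KR + 1) ν ν ≤ E0 := by rw [hν']; exact le_self_add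
    exact lt_of_le_of_lt this (lt_top_iff_ne_top.mpr E0_ne_top)
  · intro μ hμ hμs
    have h1 := hmin μ hμ hμs
    rw [← he, hν', en_shift μ hμs] at h1
    exact (ENNReal.add_le_add_iff_right ofReal_ne_top).mp h1
  · intro μ hμ hμs hle c hc
    have h1 : en 3 μ μ ≤ E0 := by
      rw [← he, hν', en_shift μ hμs]
      gcongr
    obtain ⟨q, hq⟩ := hmass μ hμ hμs h1 c hc
    refine ⟨q, ?_⟩
    rw [← hq]
    apply measure_congr
    rw [Filter.eventuallyEq_set]
    have : ∀ᵐ x ∂μ, x ∈ KR := by rw [ae_iff]; exact hμs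
    filter_upwards [this] with x hx
    constructor
    · exact fun h => h.2
    · exact fun h => ⟨csInf_le KR_compact.isBounded.bddBelow hx, h⟩

end Pool.Agent.Helper368.Gap
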