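import Mathlib

open Polynomial Finset Filter Topology

namespace Pool.Agent.Helper368.BC

/-- weighted sum of squares of the values of a polynomial -/
noncomputable def sq (S : Finset ℝ) (κ : ℝ → ℝ) (R : ℝ[X]) : ℝ := ∑ s ∈ S, κ s * R.eval s ^ 2

/-- monic of degree `i` -/
def MD (i : ℕ) (R : ℝ[X]) : Prop := R.Monic ∧ R.natDegree = i

/-- minimum of the weighted sum of squares over monic polynomials of degree `i` -/
noncomputable def hh (S : Finset ℝ) (κ : ℝ → ℝ) (i : ℕ) : ℝ := sInf (sq S κ '' {R | MD i R})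

/-- orthogonality to lower degree -/
def Orth (S : Finset ℝ) (κ : ℝ → ℝ) (i : ℕ) (R : ℝ[X]) : Prop :=
  ∀ q : ℝ[X], q.degree < (i : WithBot ℕ) → ∑ s ∈ S, κ s * (R.eval s * q.eval s) = 0

/-- nodal polynomial -/
noncomputable def nod (S : Finset ℝ) : ℝ[X] := ∏ s ∈ S, (X - C s)

theorem nod_monic (S : Finset ℝ) : (nod S).Monic := monic_prod_X_sub_C _ _

theorem nod_natDegree (S : Finset ℝ) : (nod S).natDegree = S.card := by
  unfold nod
  rw [natDegree_prod_of_monic _ _ (fun s _ => monic_X_sub_C s)]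
  simp

theorem nod_degree (S : Finset ℝ) : (nod S).degree = (S.card : WithBot ℕ) := by
  rw [degree_eq_natDegree (nod_monic S).ne_zero, nod_natDegree]

theorem nod_eval (S : Finset ℝ) (x : ℝ) : (nod S).eval x = ∏ s ∈ S, (x - s) := by
  unfold nod
  rw [eval_prod]
  simp

theorem nod_eval_mem {S : Finset ℝ} {x : ℝ} (h : x ∈ S) : (nod S).eval x = 0 := by
  rw [nod_eval]
  exact Finset.prod_eq_zero h (sub_self x)

theorem nod_eval_ne {S : Finset ℝ} {x : ℝ} (h : x ∉ S) : (nod S).eval x ≠ 0 := by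
  rw [nod_eval, Finset.prod_ne_zero_iff]
  intro s hs he
  have : x = s := by linarith
  exact h (this ▸ hs)

theorem MD_X_pow (i : ℕ) : MD i (X ^ i) := ⟨monic_X_pow i, natDegree_X_pow i⟩

theorem sq_nonneg' {S : Finset ℝ} {κ : ℝ → ℝ} (hκ : ∀ s ∈ S, 0 ≤ κ s) (R : ℝ[X]) : 0 ≤ sq S κ R :=
  Finset.sum_nonneg fun s hs => mul_nonneg (hκ s hs) (sq_nonneg _)

theorem hh_bdd {S : Finset ℝ} {κ : ℝ → ℝ} (hκ : ∀ s ∈ S, 0 ≤ κ s) (i : ℕ) :
    BddBelow (sq S κ '' {R | MD i R}) := by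
  refine ⟨0, ?_⟩
  rintro y ⟨R, _, rfl⟩
  exact sq_nonneg' hκ R

theorem hh_ne (S : Finset ℝ) (κ : ℝ → ℝ) (i : ℕ) : (sq S κ '' {R | MD i R}).Nonempty :=
  ⟨_, X ^ i, MD_X_pow i, rfl⟩

theorem hh_le {S : Finset ℝ} {κ : ℝ → ℝ} (hκ : ∀ s ∈ S, 0 ≤ κ s) {i : ℕ} {R : ℝ[X]} (hR : MD i R) :
    hh S κ i ≤ sq S κ R := csInf_le (hh_bdd hκ i) ⟨R, hR, rfl⟩

theorem le_hh {S : Finset ℝ} {κ : ℝ → ℝ} {i : ℕ} {c : ℝ} (h : ∀ R, MD i R → c ≤ sq S κ R) :
    c ≤ hh S κ i := by
  apply le_csInf (hh_ne S κ i)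
  rintro y ⟨R, hR, rfl⟩
  exact h R hR

theorem hh_nonneg {S : Finset ℝ} {κ : ℝ → ℝ} (hκ : ∀ s ∈ S, 0 ≤ κ s) (i : ℕ) : 0 ≤ hh S κ i :=
  le_hh fun R _ => sq_nonneg' hκ R

theorem MD_sub_degree {i : ℕ} {R R' : ℝ[X]} (h : MD i R) (h' : MD i R') :
    (R' - R).degree < (i : WithBot ℕ) := by
  have h1 : R'.degree = (i : WithBot ℕ) := by rw [degree_eq_natDegree h'.1.ne_zero, h'.2]
  have h2 : R.degree = (i : WithBot ℕ) := by rw [degree_eq_natDegree h.1.ne_zero, h.2]
  rw [← h1]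
  apply degree_sub_lt_left (by rw [h1, h2]) h'.1.ne_zero
  rw [h.1.leadingCoeff, h'.1.leadingCoeff]

theorem MD_add {i : ℕ} {R q : ℝ[X]} (h : MD i R) (hq : q.degree < (i : WithBot ℕ)) : MD i (R + q) := by
  have h2 : R.degree = (i : WithBot ℕ) := by rw [degree_eq_natDegree h.1.ne_zero, h.2]
  refine ⟨h.1.add_of_left (by rw [h2]; exact hq), ?_⟩
  rw [natDegree_add_eq_left_of_degree_lt (by rw [h2]; exact hq), h.2]

theorem sq_pyth {S : Finset ℝ} {κ : ℝ → ℝ} {i : ℕ} {R q : ℝ[X]}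
    (ho : Orth S κ i R) (hq : q.degree < (i : WithBot ℕ)) : sq S κ (R + q) = sq S κ R + sq S κ q := by
  have h1 := ho q hq
  have h2 : sq S κ (R + q) = sq S κ R + sq S κ q + 2 * ∑ s ∈ S, κ s * (R.eval s * q.eval s) := by
    unfold sq
    rw [Finset.mul_sum, ← Finset.sum_add_distrib, ← Finset.sum_add_distrib]
    apply Finset.sum_congr rfl
    intro s _
    rw [eval_add]
    ring
  rw [h2, h1]
  ring

theorem hh_eq {S : Finset ℝ} {κ : ℝ → ℝ} (hκ : ∀ s ∈ S, 0 ≤ κ s) {i : ℕ} {R : ℝ[X]} (hR : MD i R)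
    (ho : Orth S κ i R) : hh S κ i = sq S κ R := by
  apply le_antisymm (hh_le hκ hR)
  apply le_hh
  intro R' hR'
  have h1 := sq_pyth ho (MD_sub_degree hR hR')
  rw [add_sub_cancel] at h1
  rw [h1]
  linarith [sq_nonneg' hκ (R' - R)]

theorem hh_mono {S : Finset ℝ} {κ κ' : ℝ → ℝ} (hκ : ∀ s ∈ S, 0 ≤ κ s) (h : ∀ s ∈ S, κ s ≤ κ' s) (i : ℕ) :
    hh S κ i ≤ hh S κ' i := by
  apply le_hh
  intro R hR
  refine (hh_le hκ hR).trans ?_
  exact Finset.sum_le_sum fun s hs => mul_le_mul_of_nonneg_right (h s hs) (sq_nonneg _)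

theorem hh_smul {S : Finset ℝ} {κ : ℝ → ℝ} {M : ℝ} (hM : 0 ≤ M) (i : ℕ) :
    hh S (fun s => M * κ s) i = M * hh S κ i := by
  unfold hh
  have h1 : sq S (fun s => M * κ s) = fun R => M * sq S κ R := by
    funext R
    unfold sq
    rw [Finset.mul_sum]
    apply Finset.sum_congr rfl
    intro s _
    ring
  rw [h1, ← smul_eq_mul, ← Real.sInf_smul_of_nonneg hM]
  congr 1
  ext y
  simp only [Set.mem_image, Set.mem_smul_set, smul_eq_mul]
  constructor
  · rintro ⟨R, hR, rfl⟩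
    exact ⟨sq S κ R, ⟨R, hR, rfl⟩, rfl⟩
  · rintro ⟨_, ⟨R, hR, rfl⟩, rfl⟩
    exact ⟨R, hR, rfl⟩

theorem hh_comp {S : Finset ℝ} {κ κ' : ℝ → ℝ} {M : ℝ} (hM : 0 ≤ M) (hκ' : ∀ s ∈ S, 0 ≤ κ' s)
    (h : ∀ s ∈ S, κ' s ≤ M * κ s) (i : ℕ) : hh S κ' i ≤ M * hh S κ i := by
  rw [← hh_smul hM]
  exact hh_mono hκ' h i

theorem hh_congr {S : Finset ℝ} {κ κ' : ℝ → ℝ} (h : ∀ s ∈ S, κ s = κ' s) (i : ℕ) :
    hh S κ i = hh S κ' i := by
  unfold hh
  have : sq S κ = sq S κ' := by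
    funext R
    unfold sq
    apply Finset.sum_congr rfl
    intro s hs
    rw [h s hs]
  rw [this]

theorem sq_pos_of {S : Finset ℝ} {κ : ℝ → ℝ} (hκ : ∀ s ∈ S, 0 < κ s) {q : ℝ[X]} (hq : q ≠ 0)
    (hd : q.degree < (S.card : WithBot ℕ)) : 0 < sq S κ q := by
  by_contra hcon
  apply hq
  apply Polynomial.eq_zero_of_degree_lt_of_eval_finset_eq_zero S hd
  intro s hs
  have h0 : sq S κ q = 0 := le_antisymm (not_lt.mp hcon) (sq_nonneg' (fun s hs => (hκ s hs).le) q)
  have h1 := (Finset.sum_eq_zero_iff_of_nonneg (fun s hs => mul_nonneg (hκ s hs).le (sq_nonneg _))).mp h0 s hs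
  have h2 := (mul_eq_zero.mp h1).resolve_left (hκ s hs).ne'
  exact pow_eq_zero_iff (two_ne_zero) |>.mp h2

theorem exists_op {S : Finset ℝ} {κ : ℝ → ℝ} (hκ : ∀ s ∈ S, 0 < κ s) {i : ℕ} (hi : i ≤ S.card) :
    ∃ R : ℝ[X], MD i R ∧ Orth S κ i R := by
  -- coefficients
  let pol : (Fin i → ℝ) → ℝ[X] := fun a => ∑ k : Fin i, C (a k) * X ^ (k : ℕ)
  have pol_deg : ∀ a, (pol a).degree < (i : WithBot ℕ) := by
    intro a
    apply lt_of_le_of_lt (degree_sum_le _ _)
    refine (Finset.sup_lt_iff (WithBot.bot_lt_coe i)).mpr ?_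
    intro k _
    apply lt_of_le_of_lt (degree_C_mul_X_pow_le _ _)
    exact WithBot.coe_lt_coe.mpr k.2
  have pol_eval : ∀ a s, (pol a).eval s = ∑ k : Fin i, a k * s ^ (k : ℕ) := by
    intro a s
    simp [pol, eval_finsetSum]
  have pol_coeff : ∀ a (k : Fin i), (pol a).coeff k = a k := by
    intro a k
    simp only [pol, finsetSum_coeff, coeff_C_mul, coeff_X_pow]
    rw [Finset.sum_eq_single k]
    · simp
    · intro b _ hb
      have : (k : ℕ) ≠ (b : ℕ) := fun h => hb (Fin.ext h.symm)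
      simp [this]
    · simp
  let Φ : (Fin i → ℝ) →ₗ[ℝ] (Fin i → ℝ) :=
    { toFun := fun a j => ∑ s ∈ S, κ s * ((pol a).eval s * s ^ (j : ℕ))
      map_add' := by
        intro a b
        funext j
        simp only [Pi.add_apply]
        rw [← Finset.sum_add_distrib]
        apply Finset.sum_congr rfl
        intro s _
        rw [pol_eval, pol_eval, pol_eval]
        simp only [Pi.add_apply, add_mul, Finset.sum_add_distrib]
        ring
      map_smul' := by
        intro m a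
        funext j
        simp only [Pi.smul_apply, smul_eq_mul, RingHom.id_apply]
        rw [Finset.mul_sum]
        apply Finset.sum_congr rfl
        intro s _
        rw [pol_eval, pol_eval]
        simp only [Pi.smul_apply, smul_eq_mul, mul_assoc]
        rw [← Finset.mul_sum]
        ring }
  have hinj : Function.Injective Φ := by
    rw [injective_iff_map_eq_zero]
    intro a ha
    have h1 : sq S κ (pol a) = ∑ j : Fin i, a j * Φ a j := by
      show sq S κ (pol a) = ∑ j : Fin i, a j * ∑ s ∈ S, κ s * ((pol a).eval s * s ^ (j : ℕ))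
      simp_rw [Finset.mul_sum]
      rw [Finset.sum_comm]
      unfold sq
      apply Finset.sum_congr rfl
      intro s _
      have : (pol a).eval s ^ 2 = (pol a).eval s * ∑ k : Fin i, a k * s ^ (k : ℕ) := by
        rw [← pol_eval]; ring
      rw [this, Finset.mul_sum, Finset.mul_sum]
      apply Finset.sum_congr rfl
      intro k _
      ring
    rw [ha] at h1
    simp only [Pi.zero_apply, mul_zero, Finset.sum_const_zero] at h1
    by_contra hne
    have hp : pol a ≠ 0 := by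
      intro hp
      apply hne
      funext k
      rw [← pol_coeff a k, hp]
      simp
    have := sq_pos_of hκ hp (lt_of_lt_of_le (pol_deg a) (by exact_mod_cast hi))
    linarith
  have hsurj : Function.Surjective Φ := LinearMap.injective_iff_surjective.mp hinj
  obtain ⟨a, ha⟩ := hsurj (fun j => - ∑ s ∈ S, κ s * (s ^ i * s ^ (j : ℕ)))
  refine ⟨X ^ i + pol a, MD_add (MD_X_pow i) (pol_deg a), ?_⟩
  have key : ∀ j : Fin i, ∑ s ∈ S, κ s * ((X ^ i + pol a).eval s * s ^ (j : ℕ)) = 0 := by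
    intro j
    have h1 := congrFun ha j
    have h2 : Φ a j = ∑ s ∈ S, κ s * ((pol a).eval s * s ^ (j : ℕ)) := rfl
    rw [h2] at h1
    have h3 : ∑ s ∈ S, κ s * ((X ^ i + pol a).eval s * s ^ (j : ℕ))
        = ∑ s ∈ S, κ s * (s ^ i * s ^ (j : ℕ)) + ∑ s ∈ S, κ s * ((pol a).eval s * s ^ (j : ℕ)) := by
      rw [← Finset.sum_add_distrib]
      apply Finset.sum_congr rfl
      intro s _
      rw [eval_add, eval_pow, eval_X]
      ring
    rw [h3, h1]
    ring
  intro q hq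
  have hq2 : ∀ s, q.eval s = ∑ k ∈ Finset.range i, q.coeff k * s ^ k := by
    intro s
    rcases Nat.eq_zero_or_pos i with h0 | h0
    · subst h0
      have : q = 0 := by
        rw [← degree_eq_bot]
        by_contra hne
        have := (degree_eq_natDegree (fun h => hne (by rw [h, degree_zero])) : q.degree = _)
        rw [this] at hq
        exact absurd hq (not_lt.mpr (by exact_mod_cast Nat.zero_le _))
      simp [this]
    · rw [eval_eq_sum_range' (n := i)]
      by_cases hq0 : q = 0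
      · rw [hq0]; simpa using h0
      · exact (natDegree_lt_iff_degree_lt hq0).mpr hq
  have h4 : ∀ s, (X ^ i + pol a).eval s * q.eval s
      = ∑ k ∈ Finset.range i, q.coeff k * ((X ^ i + pol a).eval s * s ^ k) := by
    intro s
    rw [hq2, Finset.mul_sum]
    apply Finset.sum_congr rfl
    intro k _
    ring
  simp_rw [h4, Finset.mul_sum]
  rw [Finset.sum_comm]
  apply Finset.sum_eq_zero
  intro k hk
  have := key ⟨k, Finset.mem_range.mp hk⟩
  simp only at this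
  calc ∑ s ∈ S, κ s * (q.coeff k * ((X ^ i + pol a).eval s * s ^ k))
      = q.coeff k * ∑ s ∈ S, κ s * ((X ^ i + pol a).eval s * s ^ k) := by
        rw [Finset.mul_sum]
        apply Finset.sum_congr rfl
        intro s _
        ring
    _ = 0 := by rw [this, mul_zero]

theorem hh_pos {S : Finset ℝ} {κ : ℝ → ℝ} (hκ : ∀ s ∈ S, 0 < κ s) {i : ℕ} (hi : i < S.card) :
    0 < hh S κ i := by
  obtain ⟨R, hR, ho⟩ := exists_op hκ hi.le
  rw [hh_eq (fun s hs => (hκ s hs).le) hR ho]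
  apply sq_pos_of hκ hR.1.ne_zero
  rw [degree_eq_natDegree hR.1.ne_zero, hR.2]
  exact_mod_cast hi

end Pool.Agent.Helper368.BC
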