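import Mathlib
import Pool.Agent.Helper368.N1

open Polynomial Finset Filter Topology

namespace Pool.Agent.Helper368.BC

theorem hh_subset {S T : Finset ℝ} {κ : ℝ → ℝ} (hκ : ∀ s ∈ S, 0 ≤ κ s) (hT : T ⊆ S) (i : ℕ) :
    hh T κ i ≤ hh S κ i := by
  apply le_hh
  intro R hR
  refine (hh_le (fun s hs => hκ s (hT hs)) hR).trans ?_
  exact Finset.sum_le_sum_of_subset_of_nonneg hT (fun s hs _ => mul_nonneg (hκ s hs) (sq_nonneg _))

theorem os_low (S : Finset ℝ) (i : ℕ) : ∃ c : ℝ, 0 < c ∧ ∀ κ : ℝ → ℝ, (∀ s ∈ S, 0 ≤ κ s) →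
    ∀ t : ℝ, 0 ≤ t → ∀ T ⊆ S, i + 1 ≤ T.card → (∀ s ∈ T, t ≤ κ s) → c * t ≤ hh S κ i := by
  have hpos : ∀ T ∈ S.powersetCard (i + 1), 0 < hh T (fun _ => 1) i := by
    intro T hT
    apply hh_pos (fun _ _ => one_pos)
    rw [(Finset.mem_powersetCard.mp hT).2]
    exact Nat.lt_succ_self i
  obtain ⟨c, hc, hc2⟩ : ∃ c : ℝ, 0 < c ∧ ∀ T ∈ S.powersetCard (i + 1), c ≤ hh T (fun _ => 1) i := by
    rcases (S.powersetCard (i + 1)).eq_empty_or_nonempty with h | h
    · refine ⟨1, one_pos, ?_⟩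
      rw [h]
      simp
    · obtain ⟨T, hT, hmin⟩ := Finset.exists_min_image _ (fun T => hh T (fun _ => 1) i) h
      exact ⟨_, hpos T hT, hmin⟩
  refine ⟨c, hc, ?_⟩
  intro κ hκ t ht T hT hcard hle
  obtain ⟨T', hT', hcard'⟩ := Finset.exists_subset_card_eq hcard
  have h1 := hc2 T' (Finset.mem_powersetCard.mpr ⟨hT'.trans hT, hcard'⟩)
  have h2 : t * hh T' (fun _ => 1) i ≤ hh T' κ i := by
    rw [← hh_smul ht]
    apply hh_mono (fun s _ => by simpa using ht)
    intro s hs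
    simpa using hle s (hT' hs)
  calc c * t ≤ hh T' (fun _ => 1) i * t := mul_le_mul_of_nonneg_right h1 ht
    _ = t * hh T' (fun _ => 1) i := by ring
    _ ≤ hh T' κ i := h2
    _ ≤ hh S κ i := hh_subset hκ (hT'.trans hT) i

theorem os_up (S : Finset ℝ) (i : ℕ) : ∃ c : ℝ, 0 < c ∧ ∀ κ : ℝ → ℝ, (∀ s ∈ S, 0 ≤ κ s) →
    ∀ t : ℝ, 0 ≤ t → ∀ T ⊆ S, T.card ≤ i → (∀ s ∈ S, s ∉ T → κ s ≤ t) → hh S κ i ≤ c * t := by
  refine ⟨1 + ∑ T ∈ S.powerset, ∑ s ∈ S, (nod T * X ^ (i - T.card)).eval s ^ 2, ?_, ?_⟩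
  · have : 0 ≤ ∑ T ∈ S.powerset, ∑ s ∈ S, (nod T * X ^ (i - T.card)).eval s ^ 2 :=
      Finset.sum_nonneg fun T _ => Finset.sum_nonneg fun s _ => sq_nonneg _
    linarith
  · intro κ hκ t ht T hT hcard hle
    have hMD : MD i (nod T * X ^ (i - T.card)) := by
      refine ⟨(nod_monic T).mul (monic_X_pow _), ?_⟩
      rw [(nod_monic T).natDegree_mul (monic_X_pow _), nod_natDegree, natDegree_X_pow]
      omega
    refine (hh_le hκ hMD).trans ?_
    have h1 : sq S κ (nod T * X ^ (i - T.card)) ≤ ∑ s ∈ S, t * (nod T * X ^ (i - T.card)).eval s ^ 2 := by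
      apply Finset.sum_le_sum
      intro s hs
      by_cases hsT : s ∈ T
      · have : (nod T * X ^ (i - T.card)).eval s = 0 := by
          rw [eval_mul, nod_eval_mem hsT, zero_mul]
        rw [this]
        simp
      · exact mul_le_mul_of_nonneg_right (hle s hs hsT) (sq_nonneg _)
    refine h1.trans ?_
    rw [← Finset.mul_sum]
    have h2 : ∑ s ∈ S, (nod T * X ^ (i - T.card)).eval s ^ 2 ≤
        ∑ T ∈ S.powerset, ∑ s ∈ S, (nod T * X ^ (i - T.card)).eval s ^ 2 :=
      Finset.single_le_sum (f := fun T => ∑ s ∈ S, (nod T * X ^ (i - T.card)).eval s ^ 2)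
        (fun T _ => Finset.sum_nonneg fun s _ => sq_nonneg _) (Finset.mem_powerset.mpr hT)
    nlinarith

theorem hh_tendsto {ι : Type*} {F : Filter ι} {S : Finset ℝ} {κ : ι → ℝ → ℝ} {κ0 : ℝ → ℝ}
    (hκ : ∀ᶠ k in F, ∀ s ∈ S, 0 ≤ κ k s) (hκ0 : ∀ s ∈ S, 0 ≤ κ0 s)
    (h : ∀ s ∈ S, Tendsto (fun k => κ k s) F (𝓝 (κ0 s))) (i : ℕ) :
    Tendsto (fun k => hh S (κ k) i) F (𝓝 (hh S κ0 i)) := by
  rw [tendsto_order]
  constructor
  · intro a ha
    rcases lt_or_ge a 0 with ha0 | ha0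
    · filter_upwards [hκ] with k hk
      exact lt_of_lt_of_le ha0 (hh_nonneg hk i)
    have hpos : 0 < hh S κ0 i := lt_of_le_of_lt ha0 ha
    obtain ⟨m, hm1, hm2⟩ : ∃ m : ℝ, a / hh S κ0 i < m ∧ m < 1 := exists_between ((div_lt_one hpos).mpr ha)
    have hm0 : 0 ≤ m := (div_nonneg ha0 hpos.le).trans hm1.le
    have h1 : ∀ᶠ k in F, ∀ s ∈ S, m * κ0 s ≤ κ k s := by
      rw [Filter.eventually_all_finset]
      intro s hs
      rcases (hκ0 s hs).eq_or_lt with h0 | h0
      · filter_upwards [hκ] with k hk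
        rw [← h0, mul_zero]
        exact hk s hs
      · have : m * κ0 s < κ0 s := by nlinarith
        filter_upwards [(h s hs).eventually (lt_mem_nhds this)] with k hk
        exact hk.le
    filter_upwards [h1] with k hk
    have h2 : m * hh S κ0 i ≤ hh S (κ k) i := by
      rw [← hh_smul hm0]
      exact hh_mono (fun s hs => mul_nonneg hm0 (hκ0 s hs)) hk i
    have h3 : a < m * hh S κ0 i := by
      rw [div_lt_iff₀ hpos] at hm1
      linarith
    linarith
  · intro a ha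
    obtain ⟨y, ⟨R, hR, rfl⟩, hy⟩ := exists_lt_of_csInf_lt (hh_ne S κ0 i) ha
    have h1 : Tendsto (fun k => sq S (κ k) R) F (𝓝 (sq S κ0 R)) := by
      unfold sq
      apply tendsto_finsetSum
      intro s hs
      exact (h s hs).mul_const _
    filter_upwards [h1.eventually (gt_mem_nhds hy), hκ] with k hk hk2
    exact lt_of_le_of_lt (hh_le hk2 hR) hk

theorem hh_restrict {S T : Finset ℝ} {κ : ℝ → ℝ} (hT : T ⊆ S) (h : ∀ s ∈ S, s ∉ T → κ s = 0) (i : ℕ) :
    hh S κ i = hh T κ i := by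
  unfold hh
  have : sq S κ = sq T κ := by
    funext R
    unfold sq
    symm
    apply Finset.sum_subset hT
    intro s hs hsT
    rw [h s hs hsT, zero_mul]
  rw [this]

/-- all values of the last orthogonal polynomial are nonzero -/
theorem op_ne_zero {S : Finset ℝ} {κ : ℝ → ℝ} (hκ : ∀ s ∈ S, 0 < κ s) {i : ℕ} (hi : S.card = i + 1)
    {R : ℝ[X]} (hR : MD i R) (ho : Orth S κ i R) : ∀ s ∈ S, R.eval s ≠ 0 := by
  intro s0 hs0 h0
  apply hR.1.ne_zero
  apply Polynomial.eq_zero_of_degree_lt_of_eval_finset_eq_zero S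
  · rw [degree_eq_natDegree hR.1.ne_zero, hR.2, hi]
    exact_mod_cast Nat.lt_succ_self i
  intro s1 hs1
  by_cases h01 : s1 = s0
  · rw [h01, h0]
  have hs1' : s1 ∈ S.erase s0 := Finset.mem_erase.mpr ⟨h01, hs1⟩
  have hcard : ((S.erase s0).erase s1).card = i - 1 := by
    rw [Finset.card_erase_of_mem hs1', Finset.card_erase_of_mem hs0, hi]
    omega
  have hi1 : 1 ≤ i := by
    have : 0 < (S.erase s0).card := Finset.card_pos.mpr ⟨s1, hs1'⟩
    rw [Finset.card_erase_of_mem hs0, hi] at this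
    omega
  have h1 := ho (nod ((S.erase s0).erase s1)) (by
    rw [nod_degree, hcard]
    exact_mod_cast (by omega : i - 1 < i))
  rw [Finset.sum_eq_single s1] at h1
  · have h2 : (nod ((S.erase s0).erase s1)).eval s1 ≠ 0 := nod_eval_ne (by simp)
    have h3 := (mul_eq_zero.mp h1).resolve_left (hκ s1 hs1).ne'
    exact (mul_eq_zero.mp h3).resolve_right h2
  · intro b hb hb1
    by_cases hb0 : b = s0
    · rw [hb0, h0]; ring
    · rw [nod_eval_mem (S := (S.erase s0).erase s1) (by simp [hb, hb1, hb0])]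
      ring
  · intro h; exact absurd hs1 h

/-- the value at an outer support point is nonzero -/
theorem op_outer {C : Finset ℝ} {x : ℝ} (hx : (∀ c ∈ C, c < x) ∨ (∀ c ∈ C, x < c)) {κ : ℝ → ℝ}
    (hκ : ∀ s ∈ insert x C, 0 < κ s) {i : ℕ} (hi : i ≤ C.card)
    {R : ℝ[X]} (hR : MD i R) (ho : Orth (insert x C) κ i R) : R.eval x ≠ 0 := by
  intro h0
  have hxC : x ∉ C := by
    intro hxC
    rcases hx with hx | hx <;> exact lt_irrefl _ (hx x hxC)
  obtain ⟨q, hq⟩ := dvd_iff_isRoot.mpr h0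
  have hqm : q.Monic := by
    have := hR.1
    rw [hq] at this
    exact (monic_X_sub_C x).of_mul_monic_left this
  have hdeg : q.natDegree + 1 = i := by
    have h1 := hR.2
    rw [hq, (monic_X_sub_C x).natDegree_mul hqm, natDegree_X_sub_C] at h1
    omega
  have h1 := ho q (by
    rw [degree_eq_natDegree hqm.ne_zero]
    exact_mod_cast (by omega : q.natDegree < i))
  rw [Finset.sum_insert hxC] at h1
  rw [h0] at h1
  simp only [zero_mul, mul_zero, zero_add] at h1
  have h2 : ∀ c ∈ C, q.eval c = 0 := by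
    have h3 : ∀ c, κ c * (R.eval c * q.eval c) = κ c * (c - x) * q.eval c ^ 2 := by
      intro c
      rw [hq, eval_mul, eval_sub, eval_X, eval_C]
      ring
    simp_rw [h3] at h1
    intro c hc
    have hκc := hκ c (Finset.mem_insert_of_mem hc)
    rcases hx with hx | hx
    · have h4 : ∀ s ∈ C, κ s * (s - x) * q.eval s ^ 2 ≤ 0 := by
        intro s hs
        have := hx s hs
        have := hκ s (Finset.mem_insert_of_mem hs)
        have h5 : κ s * (s - x) ≤ 0 := by nlinarith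
        exact mul_nonpos_of_nonpos_of_nonneg h5 (sq_nonneg _)
      have h5 := (Finset.sum_eq_zero_iff_of_nonpos h4).mp h1 c hc
      have h6 : κ c * (c - x) ≠ 0 := by
        have := hx c hc
        exact mul_ne_zero hκc.ne' (by linarith)
      have h7 := (mul_eq_zero.mp h5).resolve_left h6
      exact pow_eq_zero_iff (two_ne_zero) |>.mp h7
    · have h4 : ∀ s ∈ C, 0 ≤ κ s * (s - x) * q.eval s ^ 2 := by
        intro s hs
        have := hx s hs
        have := hκ s (Finset.mem_insert_of_mem hs)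
        have h5 : 0 ≤ κ s * (s - x) := by nlinarith
        exact mul_nonneg h5 (sq_nonneg _)
      have h5 := (Finset.sum_eq_zero_iff_of_nonneg h4).mp h1 c hc
      have h6 : κ c * (c - x) ≠ 0 := by
        have := hx c hc
        exact mul_ne_zero hκc.ne' (by linarith)
      have h7 := (mul_eq_zero.mp h5).resolve_left h6
      exact pow_eq_zero_iff (two_ne_zero) |>.mp h7
  apply hqm.ne_zero
  apply Polynomial.eq_zero_of_degree_lt_of_eval_finset_eq_zero C _ h2
  rw [degree_eq_natDegree hqm.ne_zero]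
  exact_mod_cast (by omega : q.natDegree < C.card)

theorem card_zeros_le {C : Finset ℝ} {i : ℕ} {R : ℝ[X]} (hR : MD i R) :
    (C.filter (fun c => R.eval c = 0)).card ≤ i := by
  have h1 : (C.filter (fun c => R.eval c = 0)) ⊆ R.roots.toFinset := by
    intro c hc
    rw [Multiset.mem_toFinset, mem_roots hR.1.ne_zero]
    exact (Finset.mem_filter.mp hc).2
  refine (Finset.card_le_card h1).trans ?_
  refine (Multiset.toFinset_card_le _).trans ?_
  rw [← hR.2]
  exact card_roots' R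

/-- at least `i` critical points carry weight -/
theorem card_nonzeros_ge {C : Finset ℝ} {x : ℝ} (hx : (∀ c ∈ C, c < x) ∨ (∀ c ∈ C, x < c)) {κ : ℝ → ℝ}
    (hκ : ∀ s ∈ insert x C, 0 < κ s) {i : ℕ} (hi : i ≤ C.card)
    {R : ℝ[X]} (hR : MD i R) (ho : Orth (insert x C) κ i R) :
    i ≤ (C.filter (fun c => R.eval c ≠ 0)).card := by
  by_contra hcon
  rw [not_le] at hcon
  have hxC : x ∉ C := by
    intro hxC
    rcases hx with hx | hx <;> exact lt_irrefl _ (hx x hxC)
  have h1 := ho (nod (C.filter (fun c => R.eval c ≠ 0))) (by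
    rw [nod_degree]
    exact_mod_cast hcon)
  rw [Finset.sum_insert hxC] at h1
  have h2 : ∑ s ∈ C, κ s * (R.eval s * (nod (C.filter (fun c => R.eval c ≠ 0))).eval s) = 0 := by
    apply Finset.sum_eq_zero
    intro s hs
    by_cases h : R.eval s = 0
    · rw [h]; ring
    · rw [nod_eval_mem (S := C.filter (fun c => R.eval c ≠ 0)) (Finset.mem_filter.mpr ⟨hs, h⟩)]
      ring
  rw [h2, add_zero] at h1
  have h3 := (mul_eq_zero.mp h1).resolve_left (hκ x (Finset.mem_insert_self _ _)).ne'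
  rcases mul_eq_zero.mp h3 with h4 | h4
  · exact op_outer hx hκ hi hR ho h4
  · exact nod_eval_ne (S := C.filter (fun c => R.eval c ≠ 0)) (x := x)
      (fun h => hxC (Finset.mem_filter.mp h).1) h4

end Pool.Agent.Helper368.BC
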