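import Mathlib
import Pool.Agent.Helper368.N2

open Polynomial Finset Filter Topology

namespace Pool.Agent.Helper368.BC

/-- reduced minimum: monic polynomials vanishing on `T` -/
noncomputable def hL (S T : Finset ℝ) (κ : ℝ → ℝ) (i : ℕ) : ℝ :=
  hh (S \ T) (fun s => κ s * (nod T).eval s ^ 2) (i - T.card)

theorem sq_nod_mul {S T : Finset ℝ} (hT : T ⊆ S) (κ : ℝ → ℝ) (R : ℝ[X]) :
    sq S κ (nod T * R) = sq (S \ T) (fun s => κ s * (nod T).eval s ^ 2) R := by
  unfold sq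
  rw [← Finset.sum_sdiff hT]
  have h1 : ∑ s ∈ T, κ s * eval s (nod T * R) ^ 2 = 0 := by
    apply Finset.sum_eq_zero
    intro s hs
    rw [eval_mul, nod_eval_mem hs]
    ring
  rw [h1, add_zero]
  apply Finset.sum_congr rfl
  intro s _
  rw [eval_mul]
  ring

theorem hh_le_hL {S T : Finset ℝ} (hT : T ⊆ S) {κ : ℝ → ℝ} (hκ : ∀ s ∈ S, 0 ≤ κ s) {i : ℕ} (hi : T.card ≤ i) :
    hh S κ i ≤ hL S T κ i := by
  apply le_hh
  intro R hR
  rw [← sq_nod_mul hT]
  apply hh_le hκ
  refine ⟨(nod_monic T).mul hR.1, ?_⟩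
  rw [(nod_monic T).natDegree_mul hR.1, nod_natDegree, hR.2]
  omega

theorem hL_le (S T : Finset ℝ) (hT : T ⊆ S) {c : ℝ} (hc : 0 < c) : ∃ K : ℝ, 0 ≤ K ∧
    ∀ i : ℕ, T.card ≤ i → i ≤ S.card → ∀ κ : ℝ → ℝ, (∀ s ∈ S, 0 < κ s) → (∀ s ∈ T, c ≤ κ s) →
    ∀ t : ℝ, 0 ≤ t → (∀ s ∈ S, s ∉ T → κ s ≤ t) →
    hL S T κ i ≤ (1 + K * t * (1 + K * t)) * hh S κ i := by
  have hinj : Set.InjOn (id : ℝ → ℝ) (T : Set ℝ) := Function.injective_id.injOn
  set K0 : ℝ := ∑ l ∈ S, ∑ s ∈ T, (Lagrange.basis T id s).eval l ^ 2 with hK0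
  have hK0n : 0 ≤ K0 := Finset.sum_nonneg fun l _ => Finset.sum_nonneg fun s _ => sq_nonneg _
  refine ⟨K0 / c, div_nonneg hK0n hc.le, ?_⟩
  intro i hi hiS κ hκ hκc t ht hκt
  obtain ⟨R, hR, ho⟩ := exists_op hκ hiS
  have hhR := hh_eq (fun s hs => (hκ s hs).le) hR ho
  set q : ℝ[X] := Lagrange.interpolate T id (fun s => R.eval s) with hq
  have hqdeg : q.degree < (i : WithBot ℕ) := by
    refine lt_of_lt_of_le (Lagrange.degree_interpolate_lt _ hinj) ?_
    exact_mod_cast hi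
  have hqT : ∀ s ∈ T, q.eval s = R.eval s := by
    intro s hs
    exact Lagrange.eval_interpolate_at_node (fun s => R.eval s) hinj hs
  -- bound of q outside T
  have hql : ∀ l, q.eval l ^ 2 ≤ (∑ s ∈ T, R.eval s ^ 2) * ∑ s ∈ T, (Lagrange.basis T id s).eval l ^ 2 := by
    intro l
    have h1 : q.eval l = ∑ s ∈ T, R.eval s * (Lagrange.basis T id s).eval l := by
      rw [hq, Lagrange.interpolate_apply, eval_finsetSum]
      simp
    rw [h1]
    exact Finset.sum_mul_sq_le_sq_mul_sq _ _ _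
  set a2 : ℝ := ∑ s ∈ T, κ s * R.eval s ^ 2 with ha2
  set b2 : ℝ := ∑ s ∈ S \ T, κ s * R.eval s ^ 2 with hb2
  have hab : hh S κ i = b2 + a2 := by
    rw [hhR, hb2, ha2]
    unfold sq
    rw [Finset.sum_sdiff hT]
  have ha2n : 0 ≤ a2 := Finset.sum_nonneg fun s hs => mul_nonneg (hκ s (hT hs)).le (sq_nonneg _)
  have hb2n : 0 ≤ b2 := Finset.sum_nonneg fun s hs => mul_nonneg (hκ s (Finset.mem_sdiff.mp hs).1).le (sq_nonneg _)
  have hTa : ∑ s ∈ T, R.eval s ^ 2 ≤ a2 / c := by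
    rw [le_div_iff₀ hc, ha2, Finset.sum_mul]
    apply Finset.sum_le_sum
    intro s hs
    have := hκc s hs
    nlinarith [sq_nonneg (R.eval s)]
  set e2 : ℝ := ∑ s ∈ S \ T, κ s * q.eval s ^ 2 with he2
  have he2n : 0 ≤ e2 := Finset.sum_nonneg fun s hs => mul_nonneg (hκ s (Finset.mem_sdiff.mp hs).1).le (sq_nonneg _)
  have he2a : e2 ≤ K0 / c * t * a2 := by
    have h1 : e2 ≤ ∑ l ∈ S \ T, t * ((a2 / c) * ∑ s ∈ T, (Lagrange.basis T id s).eval l ^ 2) := by
      apply Finset.sum_le_sum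
      intro l hl
      have hl' := Finset.mem_sdiff.mp hl
      have h2 := hκt l hl'.1 hl'.2
      have h3 : q.eval l ^ 2 ≤ (a2 / c) * ∑ s ∈ T, (Lagrange.basis T id s).eval l ^ 2 := by
        refine (hql l).trans ?_
        exact mul_le_mul_of_nonneg_right hTa (Finset.sum_nonneg fun s _ => sq_nonneg _)
      exact mul_le_mul h2 h3 (sq_nonneg _) ht
    have h4 : ∑ l ∈ S \ T, t * ((a2 / c) * ∑ s ∈ T, (Lagrange.basis T id s).eval l ^ 2)
        = t * (a2 / c) * ∑ l ∈ S \ T, ∑ s ∈ T, (Lagrange.basis T id s).eval l ^ 2 := by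
      rw [Finset.mul_sum]
      apply Finset.sum_congr rfl
      intro l _
      ring
    have h5 : ∑ l ∈ S \ T, ∑ s ∈ T, (Lagrange.basis T id s).eval l ^ 2 ≤ K0 :=
      Finset.sum_le_sum_of_subset_of_nonneg Finset.sdiff_subset
        (fun l _ _ => Finset.sum_nonneg fun s _ => sq_nonneg _)
    have h6 : 0 ≤ t * (a2 / c) := mul_nonneg ht (div_nonneg ha2n hc.le)
    calc e2 ≤ t * (a2 / c) * ∑ l ∈ S \ T, ∑ s ∈ T, (Lagrange.basis T id s).eval l ^ 2 := h1.trans_eq h4
      _ ≤ t * (a2 / c) * K0 := mul_le_mul_of_nonneg_left h5 h6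
      _ = K0 / c * t * a2 := by ring
  -- orthogonality
  have hor := ho q hqdeg
  have hor2 : a2 + ∑ s ∈ S \ T, κ s * (R.eval s * q.eval s) = 0 := by
    rw [← hor, ← Finset.sum_sdiff hT, add_comm]
    congr 1
    apply Finset.sum_congr rfl
    intro s hs
    rw [hqT s hs]
    ring
  have hCS : (∑ s ∈ S \ T, κ s * (R.eval s * q.eval s)) ^ 2 ≤ b2 * e2 := by
    have h1 : ∀ s ∈ S \ T, κ s * (R.eval s * q.eval s)
        = (Real.sqrt (κ s) * R.eval s) * (Real.sqrt (κ s) * q.eval s) := by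
      intro s hs
      have := Real.mul_self_sqrt (hκ s (Finset.mem_sdiff.mp hs).1).le
      linear_combination (-(R.eval s * q.eval s)) * this
    rw [Finset.sum_congr rfl h1]
    refine (Finset.sum_mul_sq_le_sq_mul_sq _ _ _).trans_eq ?_
    rw [hb2, he2]
    congr 1 <;>
    · apply Finset.sum_congr rfl
      intro s hs
      rw [mul_pow, Real.sq_sqrt (hκ s (Finset.mem_sdiff.mp hs).1).le]
  have hsq : a2 ^ 2 ≤ b2 * e2 := by
    have : ∑ s ∈ S \ T, κ s * (R.eval s * q.eval s) = -a2 := by linarith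
    rw [this] at hCS
    linarith [hCS, neg_sq a2]
  set Kt : ℝ := K0 / c * t with hKt
  have hKtn : 0 ≤ Kt := mul_nonneg (div_nonneg hK0n hc.le) ht
  have ha2b : a2 ≤ Kt * b2 := by
    rcases ha2n.eq_or_lt with h0 | h0
    · rw [← h0]; positivity
    · have h1 : a2 * a2 ≤ (Kt * b2) * a2 := by nlinarith [mul_le_mul_of_nonneg_left he2a hb2n]
      exact le_of_mul_le_mul_right h1 h0
  -- sq of q
  have hsqq : sq S κ q ≤ Kt * (1 + Kt) * hh S κ i := by
    have h1 : sq S κ q = e2 + a2 := by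
      unfold sq
      rw [← Finset.sum_sdiff hT, he2, ha2]
      congr 1
      apply Finset.sum_congr rfl
      intro s hs
      rw [hqT s hs]
    rw [h1, hab]
    have h2 : Kt * b2 ≤ Kt * (b2 + a2) := by nlinarith
    nlinarith
  -- the modified polynomial
  have hMD' : MD i (R + -q) := MD_add hR (by rw [degree_neg]; exact hqdeg)
  have hpy := sq_pyth (q := -q) ho (by rw [degree_neg]; exact hqdeg)
  have hneg : sq S κ (-q) = sq S κ q := by
    unfold sq
    apply Finset.sum_congr rfl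
    intro s _
    rw [eval_neg, neg_sq]
  have hdvd : nod T ∣ R + -q := by
    unfold nod
    apply Finset.prod_dvd_of_coprime
    · intro a _ b _ hab
      exact (isCoprime_X_sub_C_of_isUnit_sub (sub_ne_zero.mpr hab).isUnit)
    · intro s hs
      rw [dvd_iff_isRoot, IsRoot.def, eval_add, eval_neg, hqT s hs]
      ring
  obtain ⟨R2, hR2⟩ := hdvd
  have hR2m : R2.Monic := by
    have := hMD'.1
    rw [hR2] at this
    exact (nod_monic T).of_mul_monic_left this
  have hR2d : R2.natDegree = i - T.card := by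
    have h1 := hMD'.2
    rw [hR2, (nod_monic T).natDegree_mul hR2m, nod_natDegree] at h1
    omega
  have h1 : hL S T κ i ≤ sq S κ (R + -q) := by
    rw [hR2, sq_nod_mul hT]
    apply hh_le _ ⟨hR2m, hR2d⟩
    intro s hs
    exact mul_nonneg (hκ s (Finset.mem_sdiff.mp hs).1).le (sq_nonneg _)
  rw [hpy, hneg, ← hhR] at h1
  have h2 : (1 + K0 / c * t * (1 + K0 / c * t)) * hh S κ i = hh S κ i + Kt * (1 + Kt) * hh S κ i := by
    rw [hKt]; ring
  rw [h2]
  linarith

theorem tendsto_one_of {ι : Type*} {F : Filter ι} {x : ι → ℝ}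
    (h : ∀ ε : ℝ, 0 < ε → ∀ᶠ k in F, x k ≤ 1 + ε ∧ 1 ≤ (1 + ε) * x k) : Tendsto x F (𝓝 1) := by
  rw [Metric.tendsto_nhds]
  intro ε hε
  set e : ℝ := min (ε / 3) (1 / 2) with he
  have he0 : 0 < e := lt_min (by linarith) (by norm_num)
  have he1 : e ≤ ε / 3 := min_le_left _ _
  have he2 : e ≤ 1 / 2 := min_le_right _ _
  filter_upwards [h e he0] with k hk
  rw [Real.dist_eq, abs_lt]
  constructor <;> nlinarith [hk.1, hk.2]

/-- in the degenerate regime the minima scale like the light part -/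
theorem hh_ratio_light {ι : Type*} {F : Filter ι} {S T : Finset ℝ} (hT : T ⊆ S) {i : ℕ} (hi : T.card ≤ i)
    (hiS : i < S.card) {κ κ' : ι → ℝ → ℝ} {c : ℝ} (hc : 0 < c)
    (hκ : ∀ k, ∀ s ∈ S, 0 < κ k s) (hκ' : ∀ k, ∀ s ∈ S, 0 < κ' k s)
    (hκc : ∀ᶠ k in F, ∀ s ∈ T, c ≤ κ k s) (hκc' : ∀ᶠ k in F, ∀ s ∈ T, c ≤ κ' k s)
    (hl : ∀ s ∈ S, s ∉ T → Tendsto (fun k => κ k s) F (𝓝 0))
    (hl' : ∀ s ∈ S, s ∉ T → Tendsto (fun k => κ' k s) F (𝓝 0))
    {r : ι → ℝ} (hr : ∀ k, 0 < r k)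
    (hrat : ∀ s ∈ S, s ∉ T → Tendsto (fun k => κ' k s / (r k * κ k s)) F (𝓝 1)) :
    Tendsto (fun k => hh S (κ' k) i / (r k * hh S (κ k) i)) F (𝓝 1) := by
  -- hh / hL → 1
  have step1 : ∀ (κ : ι → ℝ → ℝ), (∀ k, ∀ s ∈ S, 0 < κ k s) → (∀ᶠ k in F, ∀ s ∈ T, c ≤ κ k s) →
      (∀ s ∈ S, s ∉ T → Tendsto (fun k => κ k s) F (𝓝 0)) →
      Tendsto (fun k => hL S T (κ k) i / hh S (κ k) i) F (𝓝 1) := by
    intro κ hκ hκc hl
    obtain ⟨K, hK, hK2⟩ := hL_le S T hT hc
    set t : ι → ℝ := fun k => ∑ s ∈ S \ T, κ k s with ht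
    have httend : Tendsto t F (𝓝 0) := by
      have : Tendsto t F (𝓝 (∑ s ∈ S \ T, (0:ℝ))) := by
        apply tendsto_finsetSum
        intro s hs
        exact hl s (Finset.mem_sdiff.mp hs).1 (Finset.mem_sdiff.mp hs).2
      simpa using this
    have hup : Tendsto (fun k => 1 + K * t k * (1 + K * t k)) F (𝓝 1) := by
      have h1 := httend.const_mul K
      have h2 := (h1.mul (h1.const_add 1)).const_add 1
      simpa using h2
    refine tendsto_of_tendsto_of_tendsto_of_le_of_le' tendsto_const_nhds hup ?_ ?_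
    · refine Eventually.of_forall fun k => ?_
      have hp : 0 < hh S (κ k) i := hh_pos (hκ k) hiS
      show 1 ≤ hL S T (κ k) i / hh S (κ k) i
      rw [one_le_div hp]
      exact hh_le_hL hT (fun s hs => (hκ k s hs).le) hi
    · filter_upwards [hκc] with k hk
      have hp : 0 < hh S (κ k) i := hh_pos (hκ k) hiS
      rw [div_le_iff₀ hp]
      apply hK2 i hi hiS.le (κ k) (hκ k) hk (t k)
      · exact Finset.sum_nonneg fun s hs => (hκ k s (Finset.mem_sdiff.mp hs).1).le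
      · intro s hs hsT
        exact Finset.single_le_sum (f := fun s => κ k s)
          (fun s hs => (hκ k s (Finset.mem_sdiff.mp hs).1).le) (Finset.mem_sdiff.mpr ⟨hs, hsT⟩)
  have s1 := step1 κ hκ hκc hl
  have s2 := step1 κ' hκ' hκc' hl'
  -- hL ratio
  have s3 : Tendsto (fun k => hL S T (κ' k) i / (r k * hL S T (κ k) i)) F (𝓝 1) := by
    have hLpos : ∀ (κ : ℝ → ℝ), (∀ s ∈ S, 0 < κ s) → 0 < hL S T κ i := by
      intro κ hκ
      exact lt_of_lt_of_le (hh_pos hκ hiS) (hh_le_hL hT (fun s hs => (hκ s hs).le) hi)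
    have hrat2 : ∀ s ∈ S, s ∉ T → Tendsto (fun k => (r k * κ k s) / κ' k s) F (𝓝 1) := by
      intro s hs hsT
      have := (hrat s hs hsT).inv₀ one_ne_zero
      simp only [inv_one] at this
      refine this.congr fun k => ?_
      rw [inv_div]
    apply tendsto_one_of
    intro ε hε
    have h1 : ∀ᶠ k in F, ∀ s ∈ S \ T, κ' k s / (r k * κ k s) < 1 + ε := by
      rw [Filter.eventually_all_finset]
      intro s hs
      exact (hrat s (Finset.mem_sdiff.mp hs).1 (Finset.mem_sdiff.mp hs).2).eventually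
        (gt_mem_nhds (by linarith))
    have h2 : ∀ᶠ k in F, ∀ s ∈ S \ T, (r k * κ k s) / κ' k s < 1 + ε := by
      rw [Filter.eventually_all_finset]
      intro s hs
      exact (hrat2 s (Finset.mem_sdiff.mp hs).1 (Finset.mem_sdiff.mp hs).2).eventually
        (gt_mem_nhds (by linarith))
    filter_upwards [h1, h2] with k hk hk'
    have hp := hLpos (κ k) (hκ k)
    have hp' := hLpos (κ' k) (hκ' k)
    have hrk := hr k
    have hup : hL S T (κ' k) i ≤ (r k * (1 + ε)) * hL S T (κ k) i := by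
      apply hh_comp
      · positivity
      · intro s hs
        exact mul_nonneg (hκ' k s (Finset.mem_sdiff.mp hs).1).le (sq_nonneg _)
      · intro s hs
        have h3 : 0 < r k * κ k s := mul_pos (hr k) (hκ k s (Finset.mem_sdiff.mp hs).1)
        have h4 : κ' k s ≤ (1 + ε) * (r k * κ k s) := by
          rw [← div_le_iff₀ h3]; exact (hk s hs).le
        nlinarith [sq_nonneg ((nod T).eval s)]
    have hlo : hL S T (κ k) i ≤ ((1 + ε) / r k) * hL S T (κ' k) i := by
      apply hh_comp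
      · positivity
      · intro s hs
        exact mul_nonneg (hκ k s (Finset.mem_sdiff.mp hs).1).le (sq_nonneg _)
      · intro s hs
        have h3 : 0 < κ' k s := hκ' k s (Finset.mem_sdiff.mp hs).1
        have h4 : r k * κ k s ≤ (1 + ε) * κ' k s := by
          rw [← div_le_iff₀ h3]; exact (hk' s hs).le
        have h5 : κ k s ≤ (1 + ε) / r k * κ' k s := by
          rw [div_mul_eq_mul_div, le_div_iff₀ hrk]; linarith
        have := mul_le_mul_of_nonneg_right h5 (sq_nonneg ((nod T).eval s))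
        linarith
    constructor
    · rw [div_le_iff₀ (by positivity)]
      linarith
    · rw [← mul_div_assoc, le_div_iff₀ (by positivity)]
      rw [div_mul_eq_mul_div, le_div_iff₀ hrk] at hlo
      linarith
  have hne : ∀ k, 0 < hh S (κ k) i := fun k => hh_pos (hκ k) hiS
  have hne' : ∀ k, 0 < hh S (κ' k) i := fun k => hh_pos (hκ' k) hiS
  have hLne : ∀ k, 0 < hL S T (κ k) i := fun k =>
    lt_of_lt_of_le (hne k) (hh_le_hL hT (fun s hs => (hκ k s hs).le) hi)
  have hLne' : ∀ k, 0 < hL S T (κ' k) i := fun k =>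
    lt_of_lt_of_le (hne' k) (hh_le_hL hT (fun s hs => (hκ' k s hs).le) hi)
  have h4 := (s3.mul s1).div s2 one_ne_zero
  simp only [mul_one, div_one] at h4
  refine h4.congr fun k => ?_
  have := hne k; have := hne' k; have := hLne k; have := hLne' k; have := hr k
  simp only [Pi.div_apply]
  field_simp

end Pool.Agent.Helper368.BC
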