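import Mathlib
import Pool.Agent.Helper368.N3

open Polynomial Finset Filter Topology

namespace Pool.Agent.Helper368.BC

/-- abstract renormalisation system -/
structure Sys where
  d : ℕ
  hd : 2 ≤ d
  A : ℝ
  B : ℝ
  hAB : A < B
  f : ℝ → ℝ
  C : Finset ℝ
  hC : C.card + 1 = d
  hCA : ∀ c ∈ C, A < c
  hCB : ∀ c ∈ C, c < B
  al : ℝ
  hal : 0 < al
  sg : ℝ
  side_crit : ∀ c ∈ C, (0 < sg * (nod (C.erase c)).eval c ∧ f c ≤ A) ∨
    (sg * (nod (C.erase c)).eval c < 0 ∧ B ≤ f c)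
  side_B : ∀ x, B ≤ x → (0 < sg * (nod C).eval x ∧ B ≤ f x) ∨ (sg * (nod C).eval x < 0 ∧ f x ≤ A)
  side_A : ∀ x, x ≤ A → (0 < sg * (nod C).eval x ∧ f x ≤ A) ∨ (sg * (nod C).eval x < 0 ∧ B ≤ f x)
  expand : ∀ x, (x ≤ A ∨ B ≤ x) → 2 * max (x - B) (A - x) ≤ max (f x - B) (A - f x)
  fA : f A = A ∨ f A = B
  fB : f B = A ∨ f B = B
  idA : f (f A) = f A
  idB : f (f B) = f B
  hyp : ∃ c ∈ C, f c ≠ A ∧ f c ≠ B
  u : ℕ → ℝ → ℝ
  u_pos : ∀ n x, (x ≤ A ∨ B ≤ x) → 0 < u n x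
  u_lo : ∀ n x, (x ≤ A ∨ B ≤ x) → max (x - B) (A - x) ≤ u n x
  u_hi : ∀ n x, (x ≤ A ∨ B ≤ x) → u n x ≤ max (x - B) (A - x) + (B - A)
  u_B : ∀ n x y, B ≤ x → x ≤ y → y - x ≤ u n y - u n x
  u_A : ∀ n x y, y ≤ x → x ≤ A → x - y ≤ u n y - u n x
  renorm0 : ∀ n x, (x ≤ A ∨ B ≤ x) → u (d * n) x =
    hh (insert x C) (fun t => if t = x then al / |(nod C).eval x| * u n (f x)
      else al / |(nod (C.erase t)).eval t| * u n (f t) / |x - t|) 0
  renorm1 : ∀ n i x, i + 1 < d → (x ≤ A ∨ B ≤ x) →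
    u (d * n + (i + 1)) x * hh C (fun c => al / |(nod (C.erase c)).eval c| * u n (f c)) i =
    hh (insert x C) (fun t => if t = x then al / |(nod C).eval x| * u n (f x)
      else al / |(nod (C.erase t)).eval t| * u n (f t) / |x - t|) (i + 1)

namespace Sys

variable (σ : Sys)

/-- outside the hull -/
def X (x : ℝ) : Prop := x ≤ σ.A ∨ σ.B ≤ x

/-- distance to the hull -/
noncomputable def dl (x : ℝ) : ℝ := max (x - σ.B) (σ.A - x)

/-- weights at the critical points -/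
noncomputable def om (n : ℕ) (c : ℝ) : ℝ := σ.al / |(nod (σ.C.erase c)).eval c| * σ.u n (σ.f c)

/-- weights for the probe `x` -/
noncomputable def kap (n : ℕ) (x t : ℝ) : ℝ :=
  if t = x then σ.al / |(nod σ.C).eval x| * σ.u n (σ.f x) else σ.om n t / |x - t|

/-- normalising constants -/
noncomputable def gg (n : ℕ) : ℕ → ℝ
  | 0 => 1
  | i + 1 => hh σ.C (σ.om n) i

variable {σ}

theorem dl_nonneg {x : ℝ} (hx : σ.X x) : 0 ≤ σ.dl x := by
  rcases hx with h | h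
  · exact le_trans (by linarith) (le_max_right _ _)
  · exact le_trans (by linarith) (le_max_left _ _)

theorem dl_eq_zero {x : ℝ} (hx : σ.X x) (h : σ.dl x = 0) : x = σ.A ∨ x = σ.B := by
  rcases hx with h1 | h1
  · left
    have := le_max_right (x - σ.B) (σ.A - x)
    unfold dl at h
    linarith
  · right
    have := le_max_left (x - σ.B) (σ.A - x)
    unfold dl at h
    linarith

theorem dl_pos {x : ℝ} (hx : σ.X x) (h1 : x ≠ σ.A) (h2 : x ≠ σ.B) : 0 < σ.dl x := by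
  rcases (dl_nonneg hx).eq_or_lt with h | h
  · rcases dl_eq_zero hx h.symm with h | h
    · exact absurd h h1
    · exact absurd h h2
  · exact h

theorem X_A : σ.X σ.A := Or.inl le_rfl
theorem X_B : σ.X σ.B := Or.inr le_rfl

theorem dl_A : σ.dl σ.A = 0 := by
  unfold dl
  rw [sub_self]
  exact max_eq_right (by linarith [σ.hAB])

theorem dl_B : σ.dl σ.B = 0 := by
  unfold dl
  rw [sub_self]
  exact max_eq_left (by linarith [σ.hAB])

theorem X_crit {c : ℝ} (hc : c ∈ σ.C) : σ.X (σ.f c) := by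
  rcases σ.side_crit c hc with h | h
  · exact Or.inl h.2
  · exact Or.inr h.2

theorem X_f {x : ℝ} (hx : σ.X x) : σ.X (σ.f x) := by
  rcases hx with h | h
  · rcases σ.side_A x h with h | h
    · exact Or.inl h.2
    · exact Or.inr h.2
  · rcases σ.side_B x h with h | h
    · exact Or.inr h.2
    · exact Or.inl h.2

theorem expand' {x : ℝ} (hx : σ.X x) : 2 * σ.dl x ≤ σ.dl (σ.f x) := σ.expand x hx

theorem outer {x : ℝ} (hx : σ.X x) : (∀ c ∈ σ.C, c < x) ∨ (∀ c ∈ σ.C, x < c) := by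
  rcases hx with h | h
  · right; intro c hc; exact lt_of_le_of_lt h (σ.hCA c hc)
  · left; intro c hc; exact lt_of_lt_of_le (σ.hCB c hc) h

theorem not_mem_C {x : ℝ} (hx : σ.X x) : x ∉ σ.C := by
  intro hxC
  rcases outer hx with h | h <;> exact lt_irrefl _ (h x hxC)

theorem nodC_ne {x : ℝ} (hx : σ.X x) : (nod σ.C).eval x ≠ 0 := nod_eval_ne (not_mem_C hx)

theorem node_ne (c : ℝ) : (nod (σ.C.erase c)).eval c ≠ 0 := nod_eval_ne (by simp)

theorem om_pos (n : ℕ) {c : ℝ} (hc : c ∈ σ.C) : 0 < σ.om n c := by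
  unfold om
  have := σ.u_pos n _ (X_crit hc)
  have := σ.hal
  have := abs_pos.mpr (node_ne (σ := σ) c)
  positivity

theorem kap_self (n : ℕ) (x : ℝ) : σ.kap n x x = σ.al / |(nod σ.C).eval x| * σ.u n (σ.f x) := by
  unfold kap; rw [if_pos rfl]

theorem kap_crit (n : ℕ) {x c : ℝ} (hx : σ.X x) (hc : c ∈ σ.C) : σ.kap n x c = σ.om n c / |x - c| := by
  unfold kap
  rw [if_neg]
  intro h
  exact not_mem_C hx (h ▸ hc)

theorem abs_sub_pos {x c : ℝ} (hx : σ.X x) (hc : c ∈ σ.C) : 0 < |x - c| := by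
  rw [abs_pos]
  intro h
  have : x = c := by linarith
  exact not_mem_C hx (this ▸ hc)

theorem kap_self_pos (n : ℕ) {x : ℝ} (hx : σ.X x) : 0 < σ.kap n x x := by
  rw [kap_self]
  have := σ.u_pos n _ (X_f hx)
  have := σ.hal
  have := abs_pos.mpr (nodC_ne hx)
  positivity

theorem kap_pos (n : ℕ) {x : ℝ} (hx : σ.X x) : ∀ t ∈ insert x σ.C, 0 < σ.kap n x t := by
  intro t ht
  rcases Finset.mem_insert.mp ht with h | h
  · rw [h]; exact kap_self_pos n hx
  · rw [kap_crit n hx h]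
    exact div_pos (om_pos n h) (abs_sub_pos hx h)

theorem card_ins {x : ℝ} (hx : σ.X x) : (insert x σ.C).card = σ.d := by
  rw [Finset.card_insert_of_notMem (not_mem_C hx), σ.hC]

theorem gg_pos (n : ℕ) {i : ℕ} (hi : i < σ.d) : 0 < σ.gg n i := by
  cases i with
  | zero => exact one_pos
  | succ i =>
    apply hh_pos (fun s hs => om_pos n hs)
    have := σ.hC
    omega

theorem renorm (n : ℕ) {i : ℕ} (hi : i < σ.d) {x : ℝ} (hx : σ.X x) :
    σ.u (σ.d * n + i) x * σ.gg n i = hh (insert x σ.C) (σ.kap n x) i := by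
  cases i with
  | zero =>
    show σ.u (σ.d * n + 0) x * 1 = _
    rw [mul_one, add_zero, σ.renorm0 n x hx]
    rfl
  | succ i => exact σ.renorm1 n i x hi hx

theorem u_eq (n : ℕ) {i : ℕ} (hi : i < σ.d) {x : ℝ} (hx : σ.X x) :
    σ.u (σ.d * n + i) x = hh (insert x σ.C) (σ.kap n x) i / σ.gg n i := by
  rw [eq_div_iff (gg_pos n hi).ne', renorm n hi hx]

/-- initial points -/
noncomputable def S0 (σ : Sys) : Finset ℝ := σ.C.image σ.f ∪ {σ.A - 1, σ.B + 1}

/-- the orbits that matter -/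
def Z (σ : Sys) : Set ℝ := {z | ∃ s ∈ σ.S0, ∃ k : ℕ, σ.f^[k] s = z}

theorem X_S0 {s : ℝ} (hs : s ∈ σ.S0) : σ.X s := by
  unfold S0 at hs
  rcases Finset.mem_union.mp hs with h | h
  · obtain ⟨c, hc, rfl⟩ := Finset.mem_image.mp h
    exact X_crit hc
  · simp only [Finset.mem_insert, Finset.mem_singleton] at h
    rcases h with rfl | rfl
    · exact Or.inl (by linarith)
    · exact Or.inr (by linarith)

theorem X_iter {s : ℝ} (hs : σ.X s) (k : ℕ) : σ.X (σ.f^[k] s) := by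
  induction k with
  | zero => exact hs
  | succ k ih => rw [Function.iterate_succ_apply']; exact X_f ih

theorem X_Z {z : ℝ} (hz : z ∈ σ.Z) : σ.X z := by
  obtain ⟨s, hs, k, rfl⟩ := hz
  exact X_iter (X_S0 hs) k

theorem f_Z {z : ℝ} (hz : z ∈ σ.Z) : σ.f z ∈ σ.Z := by
  obtain ⟨s, hs, k, rfl⟩ := hz
  exact ⟨s, hs, k + 1, Function.iterate_succ_apply' _ _ _⟩

theorem crit_Z {c : ℝ} (hc : c ∈ σ.C) : σ.f c ∈ σ.Z :=
  ⟨σ.f c, Finset.mem_union_left _ (Finset.mem_image_of_mem _ hc), 0, rfl⟩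

theorem A1_Z : σ.A - 1 ∈ σ.Z := ⟨σ.A - 1, Finset.mem_union_right _ (by simp), 0, rfl⟩
theorem B1_Z : σ.B + 1 ∈ σ.Z := ⟨σ.B + 1, Finset.mem_union_right _ (by simp), 0, rfl⟩

theorem dl_iter {s : ℝ} (hs : σ.X s) (k : ℕ) : 2 ^ k * σ.dl s ≤ σ.dl (σ.f^[k] s) := by
  induction k with
  | zero => simp
  | succ k ih =>
    rw [Function.iterate_succ_apply']
    have := expand' (X_iter hs k)
    rw [pow_succ]
    nlinarith

theorem end_f {x : ℝ} (hx : x = σ.A ∨ x = σ.B) : σ.f x = σ.A ∨ σ.f x = σ.B := by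
  rcases hx with rfl | rfl
  · exact σ.fA
  · exact σ.fB

theorem end_iter {x : ℝ} (hx : x = σ.A ∨ x = σ.B) (k : ℕ) : σ.f^[k] x = σ.A ∨ σ.f^[k] x = σ.B := by
  induction k with
  | zero => exact hx
  | succ k ih => rw [Function.iterate_succ_apply']; exact end_f ih

theorem Z_fin (R : ℝ) : {z | z ∈ σ.Z ∧ σ.dl z ≤ R}.Finite := by
  have h1 : ∀ s ∈ σ.S0, ∃ K : ℕ, ∀ k : ℕ, σ.dl (σ.f^[k] s) ≤ R →
      (k < K ∨ σ.f^[k] s = σ.A ∨ σ.f^[k] s = σ.B) := by
    intro s hs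
    have hX := X_S0 hs
    rcases (dl_nonneg hX).eq_or_lt with h | h
    · refine ⟨0, fun k _ => Or.inr (end_iter (dl_eq_zero hX h.symm) k)⟩
    · obtain ⟨K, hK⟩ := pow_unbounded_of_one_lt (R / σ.dl s) (one_lt_two)
      refine ⟨K, fun k hk => Or.inl ?_⟩
      by_contra hcon
      rw [not_lt] at hcon
      have h2 := dl_iter hX k
      have h3 : (2:ℝ) ^ K ≤ 2 ^ k := pow_le_pow_right₀ (by norm_num) hcon
      rw [div_lt_iff₀ h] at hK
      nlinarith
  choose! K hK using h1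
  apply Set.Finite.subset (((σ.S0 ×ˢ Finset.range (σ.S0.sup K)).image (fun p => σ.f^[p.2] p.1) ∪ {σ.A, σ.B} : Finset ℝ).finite_toSet)
  rintro z ⟨⟨s, hs, k, rfl⟩, hz⟩
  rw [Finset.mem_coe, Finset.mem_union]
  rcases hK s hs k hz with h | h
  · left
    rw [Finset.mem_image]
    exact ⟨(s, k), Finset.mem_product.mpr ⟨hs, Finset.mem_range.mpr (lt_of_lt_of_le h (Finset.le_sup hs))⟩, rfl⟩
  · right
    simpa using h

theorem Z_unb (R : ℝ) : ∃ z ∈ σ.Z, R < σ.dl z := by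
  obtain ⟨K, hK⟩ := pow_unbounded_of_one_lt R (one_lt_two)
  refine ⟨σ.f^[K] (σ.B + 1), ⟨σ.B + 1, Finset.mem_union_right _ (by simp), K, rfl⟩, ?_⟩
  have h2 := dl_iter (σ := σ) (s := σ.B + 1) (Or.inr (by linarith)) K
  have h3 : σ.dl (σ.B + 1) = 1 := by
    unfold dl
    rw [max_eq_left] <;> linarith [σ.hAB]
  rw [h3, mul_one] at h2
  exact lt_of_lt_of_le hK h2

/-- an end point in `Z` is a critical value or the image of one -/
theorem end_Z {z : ℝ} (hz : z ∈ σ.Z) (h : z = σ.A ∨ z = σ.B) :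
    (∃ c ∈ σ.C, σ.f c = z) ∨ (∃ c ∈ σ.C, (σ.f c = σ.A ∨ σ.f c = σ.B) ∧ σ.f (σ.f c) = z) := by
  obtain ⟨s, hs, k, hk⟩ := hz
  have hX := X_S0 hs
  have h0 : σ.dl s = 0 := by
    have h1 := dl_iter hX k
    have h2 : σ.dl (σ.f^[k] s) = 0 := by
      rw [hk]
      rcases h with rfl | rfl
      · exact dl_A
      · exact dl_B
    rw [h2] at h1
    have h3 : (0:ℝ) < 2 ^ k := by positivity
    have := dl_nonneg hX
    nlinarith
  have hend := dl_eq_zero hX h0
  -- s is a critical value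
  have hcrit : ∃ c ∈ σ.C, σ.f c = s := by
    unfold S0 at hs
    rcases Finset.mem_union.mp hs with h | h
    · obtain ⟨c, hc, rfl⟩ := Finset.mem_image.mp h
      exact ⟨c, hc, rfl⟩
    · exfalso
      simp only [Finset.mem_insert, Finset.mem_singleton] at h
      have := σ.hAB
      rcases h with rfl | rfl <;> rcases hend with h | h <;> linarith
  obtain ⟨c, hc, hcs⟩ := hcrit
  have hid : σ.f (σ.f s) = σ.f s := by
    rcases hend with h | h <;> rw [h]
    · exact σ.idA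
    · exact σ.idB
  cases k with
  | zero => left; exact ⟨c, hc, by rw [hcs]; exact hk⟩
  | succ k =>
    right
    have hit : ∀ j : ℕ, σ.f^[j + 1] s = σ.f s := by
      intro j
      induction j with
      | zero => rfl
      | succ j ih => rw [Function.iterate_succ_apply', ih, hid]
    refine ⟨c, hc, ?_, ?_⟩
    · rw [hcs]; exact hend
    · rw [hcs, ← hit k, hk]

end Sys

end Pool.Agent.Helper368.BC
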