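import Mathlib
import Pool.Agent.Helper368.N4

open Polynomial Finset Filter Topology

namespace Pool.Agent.Helper368.BC
namespace Sys

variable {σ : Sys}

/-- supremum of the ratio over `Z` -/
noncomputable def Sp (σ : Sys) (n m : ℕ) : ℝ := sSup ((fun z => σ.u m z / σ.u n z) '' σ.Z)

/-- multiplicative Hilbert distance -/
noncomputable def Th (σ : Sys) (n m : ℕ) : ℝ := σ.Sp n m * σ.Sp m n

theorem w_pos : 0 < σ.B - σ.A := by linarith [σ.hAB]

theorem u_lo' (n : ℕ) {x : ℝ} (hx : σ.X x) : σ.dl x ≤ σ.u n x := σ.u_lo n x hx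
theorem u_hi' (n : ℕ) {x : ℝ} (hx : σ.X x) : σ.u n x ≤ σ.dl x + (σ.B - σ.A) := σ.u_hi n x hx
theorem u_pos' (n : ℕ) {x : ℝ} (hx : σ.X x) : 0 < σ.u n x := σ.u_pos n x hx

theorem ratio_far (n m : ℕ) {x R : ℝ} (hx : σ.X x) (hR : 0 < R) (h : R ≤ σ.dl x) :
    σ.u m x / σ.u n x ≤ 1 + (σ.B - σ.A) / R := by
  have h1 := u_lo' n hx
  have h2 := u_hi' m hx
  have h3 := w_pos (σ := σ)
  have hd : 0 < σ.dl x := lt_of_lt_of_le hR h
  rw [div_le_iff₀ (u_pos' n hx)]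
  have h4 : (σ.B - σ.A) ≤ (σ.B - σ.A) / R * σ.u n x := by
    rw [div_mul_eq_mul_div, le_div_iff₀ hR]
    nlinarith
  nlinarith

theorem Sp_bdd (n m : ℕ) : BddAbove ((fun z => σ.u m z / σ.u n z) '' σ.Z) := by
  have h1 : BddAbove ((fun z => σ.u m z / σ.u n z) '' {z | z ∈ σ.Z ∧ σ.dl z ≤ 1}) :=
    ((Z_fin 1).image _).bddAbove
  obtain ⟨M, hM⟩ := h1
  refine ⟨max M (1 + (σ.B - σ.A) / 1), ?_⟩
  rintro y ⟨z, hz, rfl⟩
  rcases le_or_gt (σ.dl z) 1 with h | h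
  · exact le_trans (hM ⟨z, ⟨hz, h⟩, rfl⟩) (le_max_left _ _)
  · exact le_trans (ratio_far n m (X_Z hz) one_pos h.le) (le_max_right _ _)

theorem ratio_le_Sp (n m : ℕ) {z : ℝ} (hz : z ∈ σ.Z) : σ.u m z / σ.u n z ≤ σ.Sp n m :=
  le_csSup (Sp_bdd n m) ⟨z, hz, rfl⟩

theorem le_Sp (n m : ℕ) {z : ℝ} (hz : z ∈ σ.Z) : σ.u m z ≤ σ.Sp n m * σ.u n z := by
  have := ratio_le_Sp n m hz
  rwa [div_le_iff₀ (u_pos' n (X_Z hz))] at this

theorem Sp_le {n m : ℕ} {M : ℝ} (h : ∀ z ∈ σ.Z, σ.u m z ≤ M * σ.u n z) : σ.Sp n m ≤ M := by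
  refine csSup_le (Set.Nonempty.image _ ⟨σ.A - 1, A1_Z⟩) ?_
  rintro y ⟨z, hz, rfl⟩
  show σ.u m z / σ.u n z ≤ M
  rw [div_le_iff₀ (u_pos' n (X_Z hz))]
  exact h z hz

theorem one_le_Sp (n m : ℕ) : 1 ≤ σ.Sp n m := by
  by_contra hcon
  rw [not_le] at hcon
  set ε := 1 - σ.Sp n m with hε
  have hε0 : 0 < ε := by linarith
  obtain ⟨z, hz, hz2⟩ := Z_unb (σ := σ) ((σ.B - σ.A) / ε)
  have h1 := le_Sp n m hz
  have h2 := u_lo' m (X_Z hz)
  have h3 := u_hi' n (X_Z hz)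
  have h4 := w_pos (σ := σ)
  rw [div_lt_iff₀ hε0] at hz2
  have h5 : 0 < σ.dl z := by
    by_contra hc
    have := dl_nonneg (X_Z hz)
    have : σ.dl z = 0 := le_antisymm (not_lt.mp hc) this
    rw [this] at hz2
    linarith
  have h6 : 0 ≤ σ.Sp n m := by
    have := div_pos (u_pos' m (X_Z hz)) (u_pos' n (X_Z hz))
    exact this.le.trans (ratio_le_Sp n m hz)
  have h7 : σ.Sp n m = 1 - ε := by rw [hε]; ring
  rw [h7] at h1 h6
  nlinarith

theorem Sp_pos (n m : ℕ) : 0 < σ.Sp n m := lt_of_lt_of_le one_pos (one_le_Sp n m)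

theorem Sp_self (n : ℕ) : σ.Sp n n = 1 := by
  apply le_antisymm
  · apply Sp_le
    intro z _
    linarith
  · exact one_le_Sp n n

theorem Sp_tri (n m l : ℕ) : σ.Sp n l ≤ σ.Sp n m * σ.Sp m l := by
  apply Sp_le
  intro z hz
  have h1 := le_Sp m l hz
  have h2 := le_Sp n m hz
  have h3 := Sp_pos (σ := σ) m l
  calc σ.u l z ≤ σ.Sp m l * σ.u m z := h1
    _ ≤ σ.Sp m l * (σ.Sp n m * σ.u n z) := mul_le_mul_of_nonneg_left h2 h3.le
    _ = _ := by ring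

theorem Th_comm (n m : ℕ) : σ.Th n m = σ.Th m n := mul_comm _ _

theorem one_le_Th (n m : ℕ) : 1 ≤ σ.Th n m := by
  unfold Th
  have := one_le_Sp (σ := σ) n m
  have := one_le_Sp (σ := σ) m n
  nlinarith

theorem Th_pos (n m : ℕ) : 0 < σ.Th n m := lt_of_lt_of_le one_pos (one_le_Th n m)

theorem Th_tri (n m l : ℕ) : σ.Th n l ≤ σ.Th n m * σ.Th m l := by
  unfold Th
  have h1 := Sp_tri (σ := σ) n m l
  have h2 := Sp_tri (σ := σ) l m n
  calc σ.Sp n l * σ.Sp l n ≤ (σ.Sp n m * σ.Sp m l) * (σ.Sp l m * σ.Sp m n) :=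
        mul_le_mul h1 h2 (Sp_pos _ _).le (mul_pos (Sp_pos _ _) (Sp_pos _ _)).le
    _ = _ := by ring

theorem Sp_le_Th (n m : ℕ) : σ.Sp n m ≤ σ.Th n m := by
  unfold Th
  have := one_le_Sp (σ := σ) m n
  have := Sp_pos (σ := σ) n m
  nlinarith

theorem Sp_le_Th' (n m : ℕ) : σ.Sp m n ≤ σ.Th n m := by rw [Th_comm]; exact Sp_le_Th m n

/-- comparison of the weights -/
theorem kap_le {n m : ℕ} {M : ℝ} {x : ℝ} (hx : σ.X x)
    (h1 : ∀ c ∈ σ.C, σ.u m (σ.f c) ≤ M * σ.u n (σ.f c)) (h2 : σ.u m (σ.f x) ≤ M * σ.u n (σ.f x)) :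
    ∀ t ∈ insert x σ.C, σ.kap m x t ≤ M * σ.kap n x t := by
  intro t ht
  rcases Finset.mem_insert.mp ht with h | h
  · rw [h, kap_self, kap_self]
    have h3 : 0 ≤ σ.al / |(nod σ.C).eval x| := by have := σ.hal; positivity
    have := mul_le_mul_of_nonneg_left h2 h3
    linarith
  · rw [kap_crit m hx h, kap_crit n hx h]
    have h3 : 0 ≤ σ.al / |(nod (σ.C.erase t)).eval t| := by have := σ.hal; positivity
    have h4 := mul_le_mul_of_nonneg_left (h1 t h) h3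
    have h5 := abs_sub_pos hx h
    rw [← mul_div_assoc, div_le_div_iff_of_pos_right h5]
    unfold om
    linarith

theorem om_le {n m : ℕ} {M : ℝ}
    (h1 : ∀ c ∈ σ.C, σ.u m (σ.f c) ≤ M * σ.u n (σ.f c)) :
    ∀ t ∈ σ.C, σ.om m t ≤ M * σ.om n t := by
  intro t ht
  have h3 : 0 ≤ σ.al / |(nod (σ.C.erase t)).eval t| := by have := σ.hal; positivity
  have h4 := mul_le_mul_of_nonneg_left (h1 t ht) h3
  unfold om
  linarith

theorem hhk_le (n m i : ℕ) {z : ℝ} (hz : z ∈ σ.Z) :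
    hh (insert z σ.C) (σ.kap m z) i ≤ σ.Sp n m * hh (insert z σ.C) (σ.kap n z) i := by
  apply hh_comp (Sp_pos n m).le (fun s hs => (kap_pos m (X_Z hz) s hs).le)
  exact kap_le (X_Z hz) (fun c hc => le_Sp n m (crit_Z hc)) (le_Sp n m (f_Z hz))

theorem gg_le (n m i : ℕ) : σ.gg m i ≤ σ.Sp n m * σ.gg n i := by
  cases i with
  | zero =>
    show (1:ℝ) ≤ σ.Sp n m * 1
    rw [mul_one]; exact one_le_Sp n m
  | succ i =>
    apply hh_comp (Sp_pos n m).le (fun s hs => (om_pos m hs).le)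
    exact om_le (fun c hc => le_Sp n m (crit_Z hc))

theorem Sp_step (n m : ℕ) {i : ℕ} (hi : i < σ.d) :
    σ.Sp (σ.d * n + i) (σ.d * m + i) ≤ σ.Sp n m * (σ.gg n i / σ.gg m i) := by
  apply Sp_le
  intro z hz
  have h1 := hhk_le n m i hz
  rw [← renorm n hi (X_Z hz), ← renorm m hi (X_Z hz)] at h1
  have h2 := gg_pos (σ := σ) m hi
  calc σ.u (σ.d * m + i) z ≤ (σ.Sp n m * (σ.u (σ.d * n + i) z * σ.gg n i)) / σ.gg m i := by
        rw [le_div_iff₀ h2]; exact h1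
    _ = _ := by ring

theorem Th_step (n m : ℕ) {i : ℕ} (hi : i < σ.d) :
    σ.Th (σ.d * n + i) (σ.d * m + i) ≤ σ.Th n m := by
  have h1 := Sp_step n m hi
  have h2 := Sp_step m n hi
  have hg1 := gg_pos (σ := σ) m hi
  have hg2 := gg_pos (σ := σ) n hi
  unfold Th
  calc σ.Sp (σ.d * n + i) (σ.d * m + i) * σ.Sp (σ.d * m + i) (σ.d * n + i)
      ≤ (σ.Sp n m * (σ.gg n i / σ.gg m i)) * (σ.Sp m n * (σ.gg m i / σ.gg n i)) :=
        mul_le_mul h1 h2 (Sp_pos _ _).le (mul_pos (Sp_pos _ _) (div_pos hg2 hg1)).le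
    _ = _ := by field_simp

theorem dpos : 0 < σ.d := by have := σ.hd; omega

theorem Th_div_one {n m : ℕ} (h : n % σ.d = m % σ.d) : σ.Th n m ≤ σ.Th (n / σ.d) (m / σ.d) := by
  have h1 := Th_step (σ := σ) (n / σ.d) (m / σ.d) (Nat.mod_lt n dpos)
  rw [Nat.div_add_mod] at h1
  rw [h, Nat.div_add_mod] at h1
  exact h1

theorem mod_div {n m d k : ℕ} (h : n % d ^ (k + 1) = m % d ^ (k + 1)) :
    (n / d) % d ^ k = (m / d) % d ^ k ∧ n % d = m % d := by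
  constructor
  · have h1 : n / d % d ^ k = n % (d * d ^ k) / d := (Nat.mod_mul_right_div_self n d (d ^ k)).symm
    have h2 : m / d % d ^ k = m % (d * d ^ k) / d := (Nat.mod_mul_right_div_self m d (d ^ k)).symm
    rw [h1, h2]
    rw [pow_succ, mul_comm] at h
    rw [h]
  · have h1 : d ∣ d ^ (k + 1) := dvd_pow_self d (Nat.succ_ne_zero k)
    rw [← Nat.mod_mod_of_dvd n h1, ← Nat.mod_mod_of_dvd m h1, h]

theorem Th_div {k : ℕ} : ∀ {n m : ℕ}, n % σ.d ^ k = m % σ.d ^ k →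
    σ.Th n m ≤ σ.Th (n / σ.d ^ k) (m / σ.d ^ k) := by
  induction k with
  | zero => intro n m _; simp
  | succ k ih =>
    intro n m h
    obtain ⟨h1, h2⟩ := mod_div h
    refine (Th_div_one h2).trans ?_
    refine (ih h1).trans_eq ?_
    rw [Nat.div_div_eq_div_mul, Nat.div_div_eq_div_mul, ← pow_succ']

/-- convergence of suprema -/
theorem Sp_lim {ι : Type*} {F : Filter ι} [F.NeBot] {n m : ι → ℕ} {r : ℝ → ℝ} {S : ℝ}
    (hr : ∀ z ∈ σ.Z, Tendsto (fun k => σ.u (m k) z / σ.u (n k) z) F (𝓝 (r z)))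
    (hS : Tendsto (fun k => σ.Sp (n k) (m k)) F (𝓝 S)) :
    1 ≤ S ∧ (∀ z ∈ σ.Z, r z ≤ S) ∧ (1 < S → ∃ z ∈ σ.Z, r z = S) := by
  have h1 : 1 ≤ S := ge_of_tendsto' hS (fun k => one_le_Sp _ _)
  have h2 : ∀ z ∈ σ.Z, r z ≤ S := fun z hz => le_of_tendsto_of_tendsto' (hr z hz) hS
    (fun k => ratio_le_Sp _ _ hz)
  refine ⟨h1, h2, ?_⟩
  intro hS1
  -- choose R with 1 + w / R < S
  set R : ℝ := 2 * (σ.B - σ.A) / (S - 1) with hR
  have hw := w_pos (σ := σ)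
  have hR0 : 0 < R := div_pos (by linarith) (by linarith)
  have hRS : 1 + (σ.B - σ.A) / R < S := by
    rw [hR, div_div_eq_mul_div]
    have h3 : (σ.B - σ.A) * (S - 1) / (2 * (σ.B - σ.A)) = (S - 1) / 2 := by
      field_simp
    rw [h3]; linarith
  have hfin := Z_fin (σ := σ) R
  by_contra hcon
  push Not at hcon
  have h3 : ∀ z ∈ σ.Z, r z < S := fun z hz => lt_of_le_of_ne (h2 z hz) (hcon z hz)
  obtain ⟨M, hM1, hM2⟩ : ∃ M : ℝ, M < S ∧ ∀ z ∈ hfin.toFinset, r z < M := by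
    have : ∃ M : ℝ, M < S ∧ ∀ z ∈ hfin.toFinset, r z ≤ M := by
      rcases hfin.toFinset.eq_empty_or_nonempty with h | h
      · refine ⟨S - 1, by linarith, ?_⟩
        rw [h]; simp
      · obtain ⟨z, hz, hmax⟩ := Finset.exists_max_image _ r h
        have hz' := (Set.Finite.mem_toFinset hfin).mp hz
        exact ⟨r z, h3 z hz'.1, hmax⟩
    obtain ⟨M, hM1, hM2⟩ := this
    refine ⟨(M + S) / 2, by linarith, fun z hz => ?_⟩
    have := hM2 z hz
    linarith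
  have h4 : ∀ᶠ k in F, ∀ z ∈ hfin.toFinset, σ.u (m k) z / σ.u (n k) z < M := by
    rw [Filter.eventually_all_finset]
    intro z hz
    exact (hr z ((Set.Finite.mem_toFinset hfin).mp hz).1).eventually (gt_mem_nhds (hM2 z hz))
  have h5 : ∀ᶠ k in F, σ.Sp (n k) (m k) ≤ max M (1 + (σ.B - σ.A) / R) := by
    filter_upwards [h4] with k hk
    refine csSup_le (Set.Nonempty.image _ ⟨σ.A - 1, A1_Z⟩) ?_
    rintro y ⟨z, hz, rfl⟩
    rcases le_or_gt (σ.dl z) R with h | h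
    · exact le_trans (hk z ((Set.Finite.mem_toFinset hfin).mpr ⟨hz, h⟩)).le (le_max_left _ _)
    · exact le_trans (ratio_far _ _ (X_Z hz) hR0 h.le) (le_max_right _ _)
  have h6 := le_of_tendsto hS h5
  rcases max_choice M (1 + (σ.B - σ.A) / R) with h | h <;> rw [h] at h6 <;> linarith

/-- if all ratios tend to values at most one, the supremum tends to one -/
theorem Sp_tendsto_one {ι : Type*} {F : Filter ι} {n m : ι → ℕ}
    (hr : ∀ z ∈ σ.Z, Tendsto (fun k => σ.u (m k) z / σ.u (n k) z) F (𝓝 1)) :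
    Tendsto (fun k => σ.Sp (n k) (m k)) F (𝓝 1) := by
  apply tendsto_one_of
  intro ε hε
  set R : ℝ := (σ.B - σ.A) / ε with hR
  have hw := w_pos (σ := σ)
  have hR0 : 0 < R := div_pos hw hε
  have hfin := Z_fin (σ := σ) R
  have h4 : ∀ᶠ k in F, ∀ z ∈ hfin.toFinset, σ.u (m k) z / σ.u (n k) z < 1 + ε := by
    rw [Filter.eventually_all_finset]
    intro z hz
    exact (hr z ((Set.Finite.mem_toFinset hfin).mp hz).1).eventually (gt_mem_nhds (by linarith))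
  filter_upwards [h4] with k hk
  constructor
  · refine csSup_le (Set.Nonempty.image _ ⟨σ.A - 1, A1_Z⟩) ?_
    rintro y ⟨z, hz, rfl⟩
    rcases le_or_gt (σ.dl z) R with h | h
    · exact (hk z ((Set.Finite.mem_toFinset hfin).mpr ⟨hz, h⟩)).le
    · have := ratio_far (n k) (m k) (X_Z hz) hR0 h.le
      rw [hR, div_div_eq_mul_div, mul_comm, mul_div_assoc, div_self hw.ne', mul_one] at this
      exact this
  · have := one_le_Sp (σ := σ) (n k) (m k)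
    nlinarith

end Sys

end Pool.Agent.Helper368.BC
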