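import Mathlib
import Pool.Agent.Helper368.N5

open Polynomial Finset Filter Topology

namespace Pool.Agent.Helper368.BC

/-- equality case of the comparison -/
theorem eq_case {S : Finset ℝ} {κ κ' : ℝ → ℝ} {M : ℝ} {i : ℕ} {R : ℝ[X]} (hκ : ∀ s ∈ S, 0 ≤ κ s)
    (hκ' : ∀ s ∈ S, 0 ≤ κ' s) (hle : ∀ s ∈ S, κ' s ≤ M * κ s)
    (hR : MD i R) (ho : Orth S κ i R) (heq : M * hh S κ i ≤ hh S κ' i) :
    ∀ s ∈ S, R.eval s ≠ 0 → κ' s = M * κ s := by
  have h1 := hh_eq hκ hR ho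
  have h2 := hh_le hκ' hR
  have h3 : ∑ s ∈ S, (M * κ s - κ' s) * R.eval s ^ 2 = M * sq S κ R - sq S κ' R := by
    unfold sq
    rw [Finset.mul_sum, ← Finset.sum_sub_distrib]
    apply Finset.sum_congr rfl
    intro s _
    ring
  have h4 : ∑ s ∈ S, (M * κ s - κ' s) * R.eval s ^ 2 = 0 := by
    apply le_antisymm
    · rw [h3, ← h1]; linarith
    · apply Finset.sum_nonneg
      intro s hs
      exact mul_nonneg (by linarith [hle s hs]) (sq_nonneg _)
  intro s hs hne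
  have h5 := (Finset.sum_eq_zero_iff_of_nonneg (fun s hs =>
    mul_nonneg (by linarith [hle s hs]) (sq_nonneg _))).mp h4 s hs
  have h6 := (mul_eq_zero.mp h5).resolve_right (pow_ne_zero 2 hne)
  linarith

namespace Sys

variable {σ : Sys}

/-- weights attached to a function -/
noncomputable def omF (σ : Sys) (V : ℝ → ℝ) (c : ℝ) : ℝ := σ.al / |(nod (σ.C.erase c)).eval c| * V (σ.f c)

noncomputable def kapF (σ : Sys) (V : ℝ → ℝ) (x t : ℝ) : ℝ :=
  if t = x then σ.al / |(nod σ.C).eval x| * V (σ.f x) else σ.omF V t / |x - t|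

noncomputable def ggF (σ : Sys) (V : ℝ → ℝ) : ℕ → ℝ
  | 0 => 1
  | i + 1 => hh σ.C (σ.omF V) i

theorem om_eq (n : ℕ) : σ.om n = σ.omF (σ.u n) := rfl
theorem kap_eq (n : ℕ) : σ.kap n = σ.kapF (σ.u n) := rfl
theorem gg_eq (n i : ℕ) : σ.gg n i = σ.ggF (σ.u n) i := by cases i <;> rfl

theorem wt_pos (c : ℝ) : 0 < σ.al / |(nod (σ.C.erase c)).eval c| := by
  have := σ.hal
  have := abs_pos.mpr (node_ne (σ := σ) c)
  positivity

theorem gm_pos {x : ℝ} (hx : σ.X x) : 0 < σ.al / |(nod σ.C).eval x| := by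
  have := σ.hal
  have := abs_pos.mpr (nodC_ne hx)
  positivity

theorem omF_pos {V : ℝ → ℝ} (hV : ∀ z ∈ σ.Z, 0 < V z) : ∀ c ∈ σ.C, 0 < σ.omF V c :=
  fun c hc => mul_pos (wt_pos c) (hV _ (crit_Z hc))

theorem kapF_self (V : ℝ → ℝ) (x : ℝ) : σ.kapF V x x = σ.al / |(nod σ.C).eval x| * V (σ.f x) := by
  unfold kapF; rw [if_pos rfl]

theorem kapF_crit (V : ℝ → ℝ) {x c : ℝ} (hx : σ.X x) (hc : c ∈ σ.C) :
    σ.kapF V x c = σ.omF V c / |x - c| := by
  unfold kapF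
  rw [if_neg]
  intro h
  exact not_mem_C hx (h ▸ hc)

theorem kapF_pos {V : ℝ → ℝ} (hV : ∀ z ∈ σ.Z, 0 < V z) {x : ℝ} (hx : x ∈ σ.Z) :
    ∀ t ∈ insert x σ.C, 0 < σ.kapF V x t := by
  intro t ht
  rcases Finset.mem_insert.mp ht with h | h
  · rw [h, kapF_self]; exact mul_pos (gm_pos (X_Z hx)) (hV _ (f_Z hx))
  · rw [kapF_crit V (X_Z hx) h]
    exact div_pos (omF_pos hV t h) (abs_sub_pos (X_Z hx) h)

theorem ggF_pos {V : ℝ → ℝ} (hV : ∀ z ∈ σ.Z, 0 < V z) {i : ℕ} (hi : i < σ.d) : 0 < σ.ggF V i := by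
  cases i with
  | zero => exact one_pos
  | succ i =>
    apply hh_pos (omF_pos hV)
    have := σ.hC
    omega

theorem omF_le {V V' : ℝ → ℝ} {M : ℝ} (h : ∀ z ∈ σ.Z, V' z ≤ M * V z) :
    ∀ c ∈ σ.C, σ.omF V' c ≤ M * σ.omF V c := by
  intro c hc
  have := mul_le_mul_of_nonneg_left (h _ (crit_Z hc)) (wt_pos (σ := σ) c).le
  unfold omF
  linarith

theorem kapF_le {V V' : ℝ → ℝ} {M : ℝ} (h : ∀ z ∈ σ.Z, V' z ≤ M * V z) {x : ℝ} (hx : x ∈ σ.Z) :
    ∀ t ∈ insert x σ.C, σ.kapF V' x t ≤ M * σ.kapF V x t := by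
  intro t ht
  rcases Finset.mem_insert.mp ht with h1 | h1
  · rw [h1, kapF_self, kapF_self]
    have := mul_le_mul_of_nonneg_left (h _ (f_Z hx)) (gm_pos (σ := σ) (X_Z hx)).le
    linarith
  · rw [kapF_crit V' (X_Z hx) h1, kapF_crit V (X_Z hx) h1, ← mul_div_assoc,
      div_le_div_iff_of_pos_right (abs_sub_pos (X_Z hx) h1)]
    exact omF_le h t h1

/-- exact chains -/
structure Chain (σ : Sys) (i : ℕ → ℕ) (V : ℕ → ℝ → ℝ) : Prop where
  dig : ∀ j, i j < σ.d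
  pos : ∀ j, ∀ z ∈ σ.Z, 0 < V j z
  lo : ∀ j, ∀ z ∈ σ.Z, σ.dl z ≤ V j z
  hi : ∀ j, ∀ z ∈ σ.Z, V j z ≤ σ.dl z + (σ.B - σ.A)
  monoB : ∀ j, ∀ x ∈ σ.Z, ∀ y ∈ σ.Z, σ.B ≤ x → x ≤ y → y - x ≤ V j y - V j x
  monoA : ∀ j, ∀ x ∈ σ.Z, ∀ y ∈ σ.Z, y ≤ x → x ≤ σ.A → x - y ≤ V j y - V j x
  ren : ∀ j, ∀ x ∈ σ.Z, V j x * σ.ggF (V (j + 1)) (i j) = hh (insert x σ.C) (σ.kapF (V (j + 1)) x) (i j)

theorem Chain.inj {i : ℕ → ℕ} {V : ℕ → ℝ → ℝ} (h : Chain σ i V) (j : ℕ) {x y : ℝ} (hx : x ∈ σ.Z) (hy : y ∈ σ.Z)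
    (hside : (x ≤ σ.A ∧ y ≤ σ.A) ∨ (σ.B ≤ x ∧ σ.B ≤ y)) (he : V j x = V j y) : x = y := by
  rcases hside with ⟨h1, h2⟩ | ⟨h1, h2⟩
  · rcases le_total x y with h3 | h3
    · have := h.monoA j y hy x hx h3 h2
      linarith
    · have := h.monoA j x hx y hy h3 h1
      linarith
  · rcases le_total x y with h3 | h3
    · have := h.monoB j x hx y hy h1 h3
      linarith
    · have := h.monoB j y hy x hx h2 h3
      linarith

/-- a monic polynomial of degree `i` vanishing on `i` points is the nodal polynomial -/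
theorem eq_nod {T : Finset ℝ} {R : ℝ[X]} (hR : MD T.card R) (h : ∀ s ∈ T, R.eval s = 0) : R = nod T := by
  have h1 : (R - nod T).degree < (T.card : WithBot ℕ) := MD_sub_degree ⟨nod_monic T, nod_natDegree T⟩ hR
  have h2 := Polynomial.eq_zero_of_degree_lt_of_eval_finset_eq_zero T h1 (by
    intro s hs
    rw [eval_sub, h s hs, nod_eval_mem hs, sub_zero])
  exact sub_eq_zero.mp h2

/-- balanced case: critical values coincide with the image of the probe -/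
theorem alt {V : ℝ → ℝ} (hV : ∀ z ∈ σ.Z, 0 < V z)
    (hinj : ∀ x ∈ σ.Z, ∀ y ∈ σ.Z, ((x ≤ σ.A ∧ y ≤ σ.A) ∨ (σ.B ≤ x ∧ σ.B ≤ y)) → V x = V y → x = y)
    {x : ℝ} (hx : x ∈ σ.Z) {i : ℕ} {R : ℝ[X]} (hR : MD i R)
    (ho : Orth (insert x σ.C) (σ.kapF V x) i R)
    (hz : (σ.C.filter (fun c => R.eval c = 0)).card = i)
    (hn : (σ.C.filter (fun c => R.eval c ≠ 0)).card = i) :
    ∀ c ∈ σ.C, R.eval c ≠ 0 → σ.f c = σ.f x := by
  intro c hc hRc
  set Zx := σ.C.filter (fun c => R.eval c = 0) with hZx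
  set N := σ.C.filter (fun c => R.eval c ≠ 0) with hN
  have hRnod : R = nod Zx := by
    apply eq_nod
    · rw [hz]; exact hR
    · intro s hs; exact (Finset.mem_filter.mp hs).2
  have hcN : c ∈ N := Finset.mem_filter.mpr ⟨hc, hRc⟩
  have hi1 : 1 ≤ i := by rw [← hn]; exact Finset.card_pos.mpr ⟨c, hcN⟩
  have h1 := ho (nod (N.erase c)) (by
    rw [nod_degree, Finset.card_erase_of_mem hcN, hn]
    exact_mod_cast (by omega : i - 1 < i))
  have hxC := not_mem_C (X_Z hx)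
  have hunion : Zx ∪ N.erase c = σ.C.erase c := by
    ext t
    simp only [hZx, hN, Finset.mem_union, Finset.mem_filter, Finset.mem_erase]
    constructor
    · rintro (⟨h, h0⟩ | ⟨h1, h2, _⟩)
      · exact ⟨fun h3 => hRc (h3 ▸ h0), h⟩
      · exact ⟨h1, h2⟩
    · rintro ⟨h, h2⟩
      by_cases h0 : R.eval t = 0
      · exact Or.inl ⟨h2, h0⟩
      · exact Or.inr ⟨h, h2, h0⟩
  have hdisj : Disjoint Zx (N.erase c) := by
    rw [Finset.disjoint_left]
    intro t ht ht2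
    exact (Finset.mem_filter.mp (Finset.mem_erase.mp ht2).2).2 (Finset.mem_filter.mp ht).2
  have hprod : R * nod (N.erase c) = nod (σ.C.erase c) := by
    rw [hRnod, ← hunion]
    unfold nod
    rw [Finset.prod_union hdisj]
  have hval : ∀ t, R.eval t * (nod (N.erase c)).eval t = (nod (σ.C.erase c)).eval t := by
    intro t; rw [← eval_mul, hprod]
  simp_rw [hval] at h1
  rw [Finset.sum_insert hxC, Finset.sum_eq_single c] at h1
  rotate_left
  · intro b hb hbc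
    rw [nod_eval_mem (S := σ.C.erase c) (Finset.mem_erase.mpr ⟨hbc, hb⟩), mul_zero]
  · intro h; exact absurd hc h
  rw [kapF_self, kapF_crit V (X_Z hx) hc] at h1
  unfold omF at h1
  set a := (nod (σ.C.erase c)).eval c with ha
  set b := (nod (σ.C.erase c)).eval x with hb
  have ha0 : a ≠ 0 := node_ne c
  have hb0 : b ≠ 0 := nod_eval_ne (fun h => hxC (Finset.mem_erase.mp h).2)
  have hnodC : (nod σ.C).eval x = (x - c) * b := by
    rw [hb, nod_eval, nod_eval, Finset.mul_prod_erase σ.C (fun s => x - s) hc]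
  have hxc := abs_sub_pos (X_Z hx) hc
  have hVc := hV _ (crit_Z hc)
  have hVx := hV _ (f_Z hx)
  have hal := σ.hal
  rw [hnodC, abs_mul] at h1
  -- V (f x) * b / |b| + V (f c) * a / |a| = 0
  have h2 : V (σ.f x) * b * |a| + V (σ.f c) * a * |b| = 0 := by
    have hA := abs_pos.mpr ha0
    have hB := abs_pos.mpr hb0
    field_simp at h1
    have h1' := (mul_eq_zero.mp (h1.trans (mul_zero _))).resolve_left hal.ne'
    linarith
  have hsgn : a * b < 0 := by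
    rcases lt_or_gt_of_ne ha0 with h3 | h3 <;> rcases lt_or_gt_of_ne hb0 with h4 | h4
    · exfalso
      rw [abs_of_neg h3, abs_of_neg h4] at h2
      nlinarith [mul_pos hVc (mul_pos_of_neg_of_neg h3 h4), mul_pos hVx (mul_pos_of_neg_of_neg h3 h4)]
    · exact mul_neg_of_neg_of_pos h3 h4
    · exact mul_neg_of_pos_of_neg h3 h4
    · exfalso
      rw [abs_of_pos h3, abs_of_pos h4] at h2
      nlinarith [mul_pos hVc (mul_pos h3 h4), mul_pos hVx (mul_pos h3 h4)]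
  have hVeq : V (σ.f c) = V (σ.f x) := by
    rcases lt_or_gt_of_ne ha0 with h3 | h3 <;> rcases lt_or_gt_of_ne hb0 with h4 | h4
    · nlinarith
    · rw [abs_of_neg h3, abs_of_pos h4] at h2
      have h5 : (V (σ.f c) - V (σ.f x)) * (a * b) = 0 := by linarith
      have := (mul_eq_zero.mp h5).resolve_right (by linarith)
      linarith
    · rw [abs_of_pos h3, abs_of_neg h4] at h2
      have h5 : (V (σ.f c) - V (σ.f x)) * (a * b) = 0 := by linarith
      have := (mul_eq_zero.mp h5).resolve_right (by linarith)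
      linarith
    · nlinarith
  apply hinj _ (crit_Z hc) _ (f_Z hx) _ hVeq
  -- sides
  have hX := X_Z hx
  rcases hX with hxA | hxB
  · have hneg : x - c < 0 := by linarith [σ.hCA c hc]
    have hprodsgn : 0 < (nod σ.C).eval x * a := by
      rw [hnodC]
      have : (x - c) * b * a = (-(x - c)) * (-(a * b)) := by ring
      rw [this]
      apply mul_pos <;> linarith
    rcases σ.side_crit c hc with ⟨h3, h4⟩ | ⟨h3, h4⟩ <;> rcases σ.side_A x hxA with ⟨h5, h6⟩ | ⟨h5, h6⟩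
    · exact Or.inl ⟨h4, h6⟩
    · exfalso
      have : (σ.sg * a) * (σ.sg * (nod σ.C).eval x) < 0 := mul_neg_of_pos_of_neg h3 h5
      nlinarith [mul_nonneg (sq_nonneg σ.sg) hprodsgn.le]
    · exfalso
      have : (σ.sg * a) * (σ.sg * (nod σ.C).eval x) < 0 := mul_neg_of_neg_of_pos h3 h5
      nlinarith [mul_nonneg (sq_nonneg σ.sg) hprodsgn.le]
    · exact Or.inr ⟨h4, h6⟩
  · have hpos : 0 < x - c := by linarith [σ.hCB c hc]
    have hprodsgn : (nod σ.C).eval x * a < 0 := by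
      rw [hnodC]
      have : (x - c) * b * a = (x - c) * (a * b) := by ring
      rw [this]
      exact mul_neg_of_pos_of_neg hpos hsgn
    rcases σ.side_crit c hc with ⟨h3, h4⟩ | ⟨h3, h4⟩ <;> rcases σ.side_B x hxB with ⟨h5, h6⟩ | ⟨h5, h6⟩
    · exfalso
      have : 0 < (σ.sg * a) * (σ.sg * (nod σ.C).eval x) := mul_pos h3 h5
      nlinarith [mul_nonneg (sq_nonneg σ.sg) (neg_nonneg.mpr hprodsgn.le)]
    · exact Or.inl ⟨h4, h6⟩
    · exact Or.inr ⟨h4, h6⟩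
    · exfalso
      have : 0 < (σ.sg * a) * (σ.sg * (nod σ.C).eval x) := mul_pos_of_neg_of_neg h3 h5
      nlinarith [mul_nonneg (sq_nonneg σ.sg) (neg_nonneg.mpr hprodsgn.le)]

end Sys

end Pool.Agent.Helper368.BC
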