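import Mathlib
import Pool.Agent.Helper368.N6

open Polynomial Finset Filter Topology

namespace Pool.Agent.Helper368.BC
namespace Sys

variable {σ : Sys}

theorem kapF_eq {V W : ℝ → ℝ} {M x : ℝ} (hx : x ∈ σ.Z) {t : ℝ} (ht : t ∈ insert x σ.C)
    (h : σ.kapF W x t = M * σ.kapF V x t) : W (σ.f t) = M * V (σ.f t) := by
  rcases Finset.mem_insert.mp ht with h1 | h1
  · rw [h1] at h ⊢
    rw [kapF_self, kapF_self] at h
    have h2 := (gm_pos (σ := σ) (X_Z hx)).ne'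
    have h3 : σ.al / |(nod σ.C).eval x| * (W (σ.f x) - M * V (σ.f x)) = 0 := by linarith
    have := (mul_eq_zero.mp h3).resolve_left h2
    linarith
  · rw [kapF_crit W (X_Z hx) h1, kapF_crit V (X_Z hx) h1] at h
    have h2 := (abs_sub_pos (X_Z hx) h1).ne'
    have h3 : σ.omF W t = M * σ.omF V t := by
      field_simp at h
      linarith
    unfold omF at h3
    have h4 := (wt_pos (σ := σ) t).ne'
    have h5 : σ.al / |(nod (σ.C.erase t)).eval t| * (W (σ.f t) - M * V (σ.f t)) = 0 := by linarith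
    have := (mul_eq_zero.mp h5).resolve_left h4
    linarith

theorem prop_step {V W : ℝ → ℝ} (hV : ∀ z ∈ σ.Z, 0 < V z) (hW : ∀ z ∈ σ.Z, 0 < W z) {M : ℝ}
    (hle : ∀ z ∈ σ.Z, W z ≤ M * V z) {i : ℕ} (hi : i < σ.d) {x : ℝ} (hx : x ∈ σ.Z) {R : ℝ[X]} (hR : MD i R)
    (ho : Orth (insert x σ.C) (σ.kapF V x) i R)
    (heq : M * hh (insert x σ.C) (σ.kapF V x) i ≤ hh (insert x σ.C) (σ.kapF W x) i) :
    W (σ.f x) = M * V (σ.f x) ∧ ∀ c ∈ σ.C, R.eval c ≠ 0 → W (σ.f c) = M * V (σ.f c) := by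
  have h1 := eq_case (fun s hs => (kapF_pos hV hx s hs).le) (fun s hs => (kapF_pos hW hx s hs).le)
    (kapF_le hle hx) hR ho heq
  have hic : i ≤ σ.C.card := by have := σ.hC; omega
  have hRx := op_outer (outer (X_Z hx)) (kapF_pos hV hx) hic hR ho
  constructor
  · exact kapF_eq hx (Finset.mem_insert_self _ _) (h1 x (Finset.mem_insert_self _ _) hRx)
  · intro c hc hRc
    exact kapF_eq hx (Finset.mem_insert_of_mem hc) (h1 c (Finset.mem_insert_of_mem hc) hRc)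

theorem prop_inf {V W : ℝ → ℝ} (hV : ∀ z ∈ σ.Z, 0 < V z) (hW : ∀ z ∈ σ.Z, 0 < W z) {M : ℝ}
    (hle : ∀ z ∈ σ.Z, W z ≤ M * V z) {i : ℕ} (hi : i + 1 < σ.d)
    (heq : M * hh σ.C (σ.omF V) i ≤ hh σ.C (σ.omF W) i) :
    ∃ c ∈ σ.C, W (σ.f c) = M * V (σ.f c) := by
  have hic : i < σ.C.card := by have := σ.hC; omega
  obtain ⟨R, hR, ho⟩ := exists_op (omF_pos hV) hic.le
  have h1 := eq_case (fun s hs => (omF_pos hV s hs).le) (fun s hs => (omF_pos hW s hs).le)
    (omF_le hle) hR ho heq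
  have h2 := card_zeros_le (C := σ.C) hR
  obtain ⟨c, hc, hRc⟩ : ∃ c ∈ σ.C, R.eval c ≠ 0 := by
    by_contra hcon
    push Not at hcon
    rw [Finset.filter_true_of_mem hcon] at h2
    omega
  refine ⟨c, hc, ?_⟩
  have h3 := h1 c hc hRc
  unfold omF at h3
  have h4 := (wt_pos (σ := σ) c).ne'
  have h5 : σ.al / |(nod (σ.C.erase c)).eval c| * (W (σ.f c) - M * V (σ.f c)) = 0 := by linarith
  have := (mul_eq_zero.mp h5).resolve_left h4
  linarith

theorem ggF_le {V W : ℝ → ℝ} (hW : ∀ z ∈ σ.Z, 0 < W z) {M : ℝ} (hM : 1 ≤ M)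
    (hle : ∀ z ∈ σ.Z, W z ≤ M * V z) (i : ℕ) : σ.ggF W i ≤ M * σ.ggF V i := by
  cases i with
  | zero => show (1:ℝ) ≤ M * 1; linarith
  | succ i => exact hh_comp (by linarith) (fun s hs => (omF_pos hW s hs).le) (omF_le hle) i

/-- one-step inequality for the suprema in exact chains -/
theorem half_step {V0 V1 W0 W1 : ℝ → ℝ} {i : ℕ}
    (hV0 : ∀ z ∈ σ.Z, 0 < V0 z) (hW1 : ∀ z ∈ σ.Z, 0 < W1 z)
    (rV : ∀ x ∈ σ.Z, V0 x * σ.ggF V1 i = hh (insert x σ.C) (σ.kapF V1 x) i)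
    (rW : ∀ x ∈ σ.Z, W0 x * σ.ggF W1 i = hh (insert x σ.C) (σ.kapF W1 x) i)
    {S0 S1 : ℝ} (h0 : 1 ≤ S0) (h1 : 1 ≤ S1) (hle : ∀ z ∈ σ.Z, W1 z ≤ S1 * V1 z)
    (hat : 1 < S0 → ∃ z ∈ σ.Z, W0 z = S0 * V0 z) :
    S0 * σ.ggF W1 i ≤ S1 * σ.ggF V1 i := by
  rcases h0.eq_or_lt with h | h
  · rw [← h, one_mul]
    exact ggF_le hW1 h1 hle i
  · obtain ⟨z, hz, hz2⟩ := hat h
    have h2 : hh (insert z σ.C) (σ.kapF W1 z) i ≤ S1 * hh (insert z σ.C) (σ.kapF V1 z) i :=
      hh_comp (by linarith) (fun s hs => (kapF_pos hW1 hz s hs).le) (kapF_le hle hz) i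
    rw [← rV z hz, ← rW z hz, hz2] at h2
    have h3 := hV0 z hz
    nlinarith

theorem rigid {i : ℕ → ℕ} {V W : ℕ → ℝ → ℝ} (hV : Chain σ i V) (hW : Chain σ i W)
    {S S' : ℕ → ℝ} (hS1 : ∀ j, 1 ≤ S j) (hS1' : ∀ j, 1 ≤ S' j)
    (hS : ∀ j, ∀ z ∈ σ.Z, W j z ≤ S j * V j z) (hS' : ∀ j, ∀ z ∈ σ.Z, V j z ≤ S' j * W j z)
    (hat : ∀ j, 1 < S j → ∃ z ∈ σ.Z, W j z = S j * V j z)
    (hat' : ∀ j, 1 < S' j → ∃ z ∈ σ.Z, V j z = S' j * W j z)
    {T : ℝ} (hT : ∀ j, S j * S' j = T) : T ≤ 1 := by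
  by_contra hT1
  rw [not_le] at hT1
  -- general facts, in a form symmetric in the two chains
  have gen : ∀ (V W : ℕ → ℝ → ℝ) (S S' : ℕ → ℝ), Chain σ i V → Chain σ i W → (∀ j, 1 ≤ S j) → (∀ j, 1 ≤ S' j) →
      (∀ j, ∀ z ∈ σ.Z, W j z ≤ S j * V j z) → (∀ j, ∀ z ∈ σ.Z, V j z ≤ S' j * W j z) →
      (∀ j, 1 < S j → ∃ z ∈ σ.Z, W j z = S j * V j z) →
      (∀ j, 1 < S' j → ∃ z ∈ σ.Z, V j z = S' j * W j z) → (∀ j, S j * S' j = T) →
      ∀ j, S j * σ.ggF (W (j + 1)) (i j) = S (j + 1) * σ.ggF (V (j + 1)) (i j) := by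
    intro V W S S' hV hW hS1 hS1' hS hS' hat hat' hT j
    have e1 := half_step (hV.pos j) (hW.pos (j + 1)) (hV.ren j) (hW.ren j) (hS1 j) (hS1 (j + 1))
      (hS (j + 1)) (hat j)
    have e2 := half_step (hW.pos j) (hV.pos (j + 1)) (hW.ren j) (hV.ren j) (hS1' j) (hS1' (j + 1))
      (hS' (j + 1)) (hat' j)
    have g1 : 0 < σ.ggF (V (j + 1)) (i j) := ggF_pos (hV.pos (j + 1)) (hV.dig j)
    have g2 : 0 < σ.ggF (W (j + 1)) (i j) := ggF_pos (hW.pos (j + 1)) (hW.dig j)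
    set gV := σ.ggF (V (j + 1)) (i j)
    set gW := σ.ggF (W (j + 1)) (i j)
    apply le_antisymm e1
    by_contra hcon
    rw [not_le] at hcon
    have h3 : (S j * gW) * (S' j * gV) < (S (j + 1) * gV) * (S' (j + 1) * gW) := by
      have a1 : 0 < S j * gW := mul_pos (by linarith [hS1 j]) g2
      have a2 : 0 < S' j * gV := mul_pos (by linarith [hS1' j]) g1
      calc (S j * gW) * (S' j * gV) < (S (j + 1) * gV) * (S' j * gV) := mul_lt_mul_of_pos_right hcon a2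
        _ ≤ (S (j + 1) * gV) * (S' (j + 1) * gW) := mul_le_mul_of_nonneg_left e2 (by
            have := hS1 (j + 1); nlinarith)
    have h4 : (S j * gW) * (S' j * gV) = T * (gW * gV) := by rw [← hT j]; ring
    have h5 : (S (j + 1) * gV) * (S' (j + 1) * gW) = T * (gW * gV) := by rw [← hT (j + 1)]; ring
    rw [h4, h5] at h3
    exact lt_irrefl _ h3
  -- propagation
  have prop : ∀ (V W : ℕ → ℝ → ℝ) (S : ℕ → ℝ), Chain σ i V → Chain σ i W →
      (∀ j, ∀ z ∈ σ.Z, W j z ≤ S j * V j z) →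
      (∀ j, S j * σ.ggF (W (j + 1)) (i j) = S (j + 1) * σ.ggF (V (j + 1)) (i j)) →
      ∀ j, ∀ x ∈ σ.Z, W j x = S j * V j x → ∀ R : ℝ[X], MD (i j) R →
        Orth (insert x σ.C) (σ.kapF (V (j + 1)) x) (i j) R →
        W (j + 1) (σ.f x) = S (j + 1) * V (j + 1) (σ.f x) ∧
        ∀ c ∈ σ.C, R.eval c ≠ 0 → W (j + 1) (σ.f c) = S (j + 1) * V (j + 1) (σ.f c) := by
    intro V W S hV hW hS hg j x hx hxeq R hR ho
    apply prop_step (hV.pos (j + 1)) (hW.pos (j + 1)) (hS (j + 1)) (hV.dig j) hx hR ho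
    rw [← hV.ren j x hx, ← hW.ren j x hx, hxeq]
    have := hg j
    have h0 := hV.pos j x hx
    apply le_of_eq
    calc S (j + 1) * (V j x * σ.ggF (V (j + 1)) (i j)) = V j x * (S (j + 1) * σ.ggF (V (j + 1)) (i j)) := by ring
      _ = V j x * (S j * σ.ggF (W (j + 1)) (i j)) := by rw [this]
      _ = _ := by ring
  have hg := gen V W S S' hV hW hS1 hS1' hS hS' hat hat' hT
  have hg' := gen W V S' S hW hV hS1' hS1 hS' hS hat' hat (fun j => by rw [mul_comm]; exact hT j)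
  have pr := prop V W S hV hW hS hg
  have pr' := prop W V S' hW hV hS' hg'
  have hcardC : σ.C.card + 1 = σ.d := σ.hC
  have exR : ∀ (V : ℕ → ℝ → ℝ), Chain σ i V → ∀ j, ∀ x ∈ σ.Z, ∃ R : ℝ[X], MD (i j) R ∧
      Orth (insert x σ.C) (σ.kapF (V (j + 1)) x) (i j) R := by
    intro V hV j x hx
    apply exists_op (kapF_pos (hV.pos (j + 1)) hx)
    rw [card_ins (X_Z hx)]
    exact (hV.dig j).le
  -- the point where both extremal sets are nonempty
  have both : ∀ j, ∀ x ∈ σ.Z, ∀ y ∈ σ.Z, W j x = S j * V j x → V j y = S' j * W j y →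
      (∀ c ∈ σ.C, σ.f c = σ.f x ∨ σ.f c = σ.f y) ∧
      W (j + 1) (σ.f x) = S (j + 1) * V (j + 1) (σ.f x) ∧
      V (j + 1) (σ.f y) = S' (j + 1) * W (j + 1) (σ.f y) := by
    intro j x hx y hy hxe hye
    obtain ⟨R, hR, ho⟩ := exR V hV j x hx
    obtain ⟨Q, hQ, hoQ⟩ := exR W hW j y hy
    obtain ⟨p1, p2⟩ := pr j x hx hxe R hR ho
    obtain ⟨q1, q2⟩ := pr' j y hy hye Q hQ hoQ
    refine ⟨?_, p1, q1⟩
    have hnot : ∀ c ∈ σ.C, R.eval c ≠ 0 → Q.eval c = 0 := by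
      intro c hc h1
      by_contra h2
      have e1 := p2 c hc h1
      have e2 := q2 c hc h2
      have h3 := hV.pos (j + 1) _ (crit_Z hc)
      have h4 := hT (j + 1)
      rw [e1, ← mul_assoc, mul_comm (S' (j + 1)), h4] at e2
      nlinarith
    have hic : i j ≤ σ.C.card := by have := hV.dig j; omega
    have a1 := card_nonzeros_ge (outer (X_Z hx)) (kapF_pos (hV.pos (j + 1)) hx) hic hR ho
    have a2 := card_nonzeros_ge (outer (X_Z hy)) (kapF_pos (hW.pos (j + 1)) hy) hic hQ hoQ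
    have b1 := card_zeros_le (C := σ.C) hR
    have b2 := card_zeros_le (C := σ.C) hQ
    have c1 : (σ.C.filter (fun c => R.eval c ≠ 0)).card ≤ (σ.C.filter (fun c => Q.eval c = 0)).card := by
      apply Finset.card_le_card
      intro c hc
      rw [Finset.mem_filter] at hc ⊢
      exact ⟨hc.1, hnot c hc.1 hc.2⟩
    have c2 : (σ.C.filter (fun c => Q.eval c ≠ 0)).card ≤ (σ.C.filter (fun c => R.eval c = 0)).card := by
      apply Finset.card_le_card
      intro c hc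
      rw [Finset.mem_filter] at hc ⊢
      refine ⟨hc.1, ?_⟩
      by_contra h
      exact hc.2 (hnot c hc.1 h)
    have al1 := alt (hV.pos (j + 1)) (fun x hx y hy hs he => hV.inj (j + 1) hx hy hs he) hx hR ho
      (by omega) (by omega)
    have al2 := alt (hW.pos (j + 1)) (fun x hx y hy hs he => hW.inj (j + 1) hx hy hs he) hy hQ hoQ
      (by omega) (by omega)
    -- every critical point is a zero of at most one of them
    have hfull : σ.C.filter (fun c => R.eval c ≠ 0) = σ.C.filter (fun c => Q.eval c = 0) := by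
      apply Finset.eq_of_subset_of_card_le
      · intro c hc
        rw [Finset.mem_filter] at hc ⊢
        exact ⟨hc.1, hnot c hc.1 hc.2⟩
      · omega
    intro c hc
    by_cases h : R.eval c = 0
    · right
      apply al2 c hc
      intro h2
      have : c ∈ σ.C.filter (fun c => Q.eval c = 0) := Finset.mem_filter.mpr ⟨hc, h2⟩
      rw [← hfull] at this
      exact (Finset.mem_filter.mp this).2 h
    · left
      exact al1 c hc h
  obtain ⟨c0, hc0, hc0A, hc0B⟩ := σ.hyp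
  have hv0 : 0 < σ.dl (σ.f c0) := dl_pos (X_crit hc0) hc0A hc0B
  -- case X : contradiction
  have caseX : ∀ j, ∀ x ∈ σ.Z, ∀ y ∈ σ.Z, W j x = S j * V j x → V j y = S' j * W j y → False := by
    intro j x hx y hy hxe hye
    obtain ⟨a0, a1, a2⟩ := both j x hx y hy hxe hye
    obtain ⟨b0, b1, b2⟩ := both (j + 1) _ (f_Z hx) _ (f_Z hy) a1 a2
    obtain ⟨d0, d1, d2⟩ := both (j + 1 + 1) _ (f_Z (f_Z hx)) _ (f_Z (f_Z hy)) b1 b2
    have hXv := X_crit (σ := σ) hc0
    have e1 := expand' hXv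
    have e2 := expand' (X_f hXv)
    have ne1 : σ.f (σ.f c0) ≠ σ.f c0 := by intro h; rw [h] at e1; linarith
    have ne2 : σ.f (σ.f (σ.f c0)) ≠ σ.f c0 := by intro h; rw [h] at e2; linarith
    rcases a0 c0 hc0 with h1 | h1 <;> rcases b0 c0 hc0 with h2 | h2 <;> rcases d0 c0 hc0 with h3 | h3
    · rw [← h1] at h2; exact ne1 h2.symm
    · rw [← h1] at h2; exact ne1 h2.symm
    · rw [← h1] at h3; exact ne2 h3.symm
    · rw [← h2] at h3; exact ne1 h3.symm
    · rw [← h2] at h3; exact ne1 h3.symm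
    · rw [← h1] at h3; exact ne2 h3.symm
    · rw [← h1] at h2; exact ne1 h2.symm
    · rw [← h1] at h2; exact ne1 h2.symm
  -- case Y
  have caseY : ∀ (V W : ℕ → ℝ → ℝ) (S S' : ℕ → ℝ), Chain σ i V → Chain σ i W → (∀ j, 1 ≤ S j) → (∀ j, 1 ≤ S' j) →
      (∀ j, ∀ z ∈ σ.Z, W j z ≤ S j * V j z) → (∀ j, ∀ z ∈ σ.Z, V j z ≤ S' j * W j z) →
      (∀ j, 1 < S' j → ∃ z ∈ σ.Z, V j z = S' j * W j z) →
      (∀ j, S j * S' j = T) →
      (∀ j, S j * σ.ggF (W (j + 1)) (i j) = S (j + 1) * σ.ggF (V (j + 1)) (i j)) →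
      (∀ j, S' j * σ.ggF (V (j + 1)) (i j) = S' (j + 1) * σ.ggF (W (j + 1)) (i j)) →
      (∀ j, ∀ x ∈ σ.Z, ∀ y ∈ σ.Z, W j x = S j * V j x → V j y = S' j * W j y → False) →
      ∀ x ∈ σ.Z, W 0 x = S 0 * V 0 x → False := by
    intro V W S S' hV hW hS1 hS1' hS hS' hat' hT hg hg' hX x hx hxe
    have pr := prop V W S hV hW hS hg
    -- all later extremal sets are nonempty
    have hne : ∀ j, ∃ z ∈ σ.Z, W j z = S j * V j z := by
      intro j
      induction j with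
      | zero => exact ⟨x, hx, hxe⟩
      | succ j ih =>
        obtain ⟨z, hz, hze⟩ := ih
        obtain ⟨R, hR, ho⟩ := exR V hV j z hz
        exact ⟨_, f_Z hz, (pr j z hz hze R hR ho).1⟩
    have hS'one : ∀ j, S' j = 1 := by
      intro j
      rcases (hS1' j).eq_or_lt with h | h
      · exact h.symm
      · obtain ⟨y, hy, hye⟩ := hat' j h
        obtain ⟨z, hz, hze⟩ := hne j
        exact absurd (hX j z hz y hy hze hye) (fun h => h)
    have hST : ∀ j, S j = T := by intro j; have := hT j; rw [hS'one j, mul_one] at this; exact this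
    -- digits are zero
    have hi0 : ∀ j, i j = 0 := by
      intro j
      by_contra hij
      obtain ⟨k, hk⟩ := Nat.exists_eq_succ_of_ne_zero hij
      have h1 := hg' j
      rw [hS'one j, hS'one (j + 1), one_mul, one_mul, hk] at h1
      have hkd : k + 1 < σ.d := by have := hV.dig j; omega
      obtain ⟨c, hc, hce⟩ := prop_inf (hW.pos (j + 1)) (hV.pos (j + 1)) (M := 1)
        (fun z hz => by have := hS' (j + 1) z hz; rwa [hS'one (j + 1)] at this) hkd (by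
          show 1 * hh σ.C (σ.omF (W (j + 1))) k ≤ hh σ.C (σ.omF (V (j + 1))) k
          have h1' : hh σ.C (σ.omF (V (j + 1))) k = hh σ.C (σ.omF (W (j + 1))) k := h1
          rw [h1', one_mul])
      obtain ⟨z, hz, hze⟩ := hne (j + 1)
      exact hX (j + 1) z hz _ (crit_Z hc) hze (by rw [hS'one (j + 1)]; exact hce)
    -- hyperbolic critical value
    have h1 : W 1 (σ.f c0) = S 1 * V 1 (σ.f c0) := by
      have ho : Orth (insert x σ.C) (σ.kapF (V 1) x) (i 0) 1 := by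
        intro q hq
        rw [hi0 0] at hq
        have : q = 0 := by
          rw [← degree_eq_bot]
          by_contra hne2
          have h3 := (degree_eq_natDegree (fun h => hne2 (by rw [h, degree_zero])) : q.degree = _)
          rw [h3] at hq
          exact absurd hq (not_lt.mpr (by exact_mod_cast Nat.zero_le _))
        simp [this]
      have hR : MD (i 0) (1 : ℝ[X]) := by
        rw [hi0 0]
        exact ⟨monic_one, natDegree_one⟩
      exact (pr 0 x hx hxe 1 hR ho).2 c0 hc0 (by simp)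
    have h2 : ∀ k, W (k + 1) (σ.f^[k] (σ.f c0)) = S (k + 1) * V (k + 1) (σ.f^[k] (σ.f c0)) ∧
        σ.f^[k] (σ.f c0) ∈ σ.Z := by
      intro k
      induction k with
      | zero => exact ⟨h1, crit_Z hc0⟩
      | succ k ih =>
        obtain ⟨R, hR, ho⟩ := exR V hV (k + 1) _ ih.2
        rw [Function.iterate_succ_apply']
        exact ⟨(pr (k + 1) _ ih.2 ih.1 R hR ho).1, f_Z ih.2⟩
    obtain ⟨K, hK⟩ := pow_unbounded_of_one_lt ((σ.B - σ.A) / ((T - 1) * σ.dl (σ.f c0))) (one_lt_two)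
    have h3 := dl_iter (X_crit hc0) K
    obtain ⟨h4, h5⟩ := h2 K
    have h6 := hV.lo (K + 1) _ h5
    have h7 := hW.hi (K + 1) _ h5
    rw [h4, hST] at h7
    have hTp : 0 < (T - 1) * σ.dl (σ.f c0) := mul_pos (by linarith) hv0
    rw [div_lt_iff₀ hTp] at hK
    nlinarith
  -- conclusion
  have hor : 1 < S 0 ∨ 1 < S' 0 := by
    by_contra hcon
    push Not at hcon
    have a := le_antisymm hcon.1 (hS1 0)
    have b := le_antisymm hcon.2 (hS1' 0)
    have := hT 0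
    rw [a, b] at this
    linarith
  rcases hor with h | h
  · obtain ⟨x, hx, hxe⟩ := hat 0 h
    exact caseY V W S S' hV hW hS1 hS1' hS hS' hat' hT hg hg' caseX x hx hxe
  · obtain ⟨x, hx, hxe⟩ := hat' 0 h
    exact caseY W V S' S hW hV hS1' hS1 hS' hS hat (fun j => by rw [mul_comm]; exact hT j) hg' hg
      (fun j a ha b hb h1 h2 => caseX j b hb a ha h2 h1) x hx hxe

end Sys

end Pool.Agent.Helper368.BC
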