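import Mathlib
import Pool.Agent.Helper368.N7

open Polynomial Finset Filter Topology

namespace Pool.Agent.Helper368.BC

/-- bounded real sequences have ultralimits -/
theorem ulim_exists (U : Ultrafilter ℕ) {a : ℕ → ℝ} {lo hi : ℝ}
    (h : ∀ᶠ k in (U : Filter ℕ), lo ≤ a k ∧ a k ≤ hi) :
    ∃ l, lo ≤ l ∧ l ≤ hi ∧ Tendsto a (U : Filter ℕ) (𝓝 l) := by
  have h1 : ((U.map a : Ultrafilter ℝ) : Filter ℝ) ≤ 𝓟 (Set.Icc lo hi) := by
    rw [Filter.le_principal_iff]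
    show (Set.Icc lo hi) ∈ (U.map a)
    rw [Ultrafilter.mem_map]
    exact h
  obtain ⟨l, hl, hl2⟩ := isCompact_Icc.ultrafilter_le_nhds _ h1
  exact ⟨l, hl.1, hl.2, hl2⟩

theorem udigit (U : Ultrafilter ℕ) {d : ℕ} (hd : 0 < d) (N : ℕ → ℕ) :
    ∃ i < d, ∀ᶠ k in (U : Filter ℕ), N k % d = i := by
  have h1 : (⋃ i ∈ {i : ℕ | i < d}, {k | N k % d = i}) ∈ U := by
    have : (⋃ i ∈ {i : ℕ | i < d}, {k | N k % d = i}) = Set.univ := by
      ext k
      simp only [Set.mem_ofPred_eq, Set.mem_iUnion, Set.mem_univ, iff_true]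
      exact ⟨N k % d, Nat.mod_lt _ hd, rfl⟩
    rw [this]; exact Filter.univ_mem
  rw [Ultrafilter.finite_biUnion_mem_iff (Set.finite_lt_nat d)] at h1
  obtain ⟨i, hi, hi2⟩ := h1
  exact ⟨i, hi, hi2⟩

namespace Sys

variable {σ : Sys}

theorem omF_tendsto {ι : Type*} {F : Filter ι} {v : ι → ℝ → ℝ} {V : ℝ → ℝ}
    (h : ∀ z ∈ σ.Z, Tendsto (fun k => v k z) F (𝓝 (V z))) :
    ∀ c ∈ σ.C, Tendsto (fun k => σ.omF (v k) c) F (𝓝 (σ.omF V c)) := by
  intro c hc
  unfold omF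
  exact (h _ (crit_Z hc)).const_mul _

theorem kapF_tendsto {ι : Type*} {F : Filter ι} {v : ι → ℝ → ℝ} {V : ℝ → ℝ}
    (h : ∀ z ∈ σ.Z, Tendsto (fun k => v k z) F (𝓝 (V z))) {x : ℝ} (hx : x ∈ σ.Z) :
    ∀ t ∈ insert x σ.C, Tendsto (fun k => σ.kapF (v k) x t) F (𝓝 (σ.kapF V x t)) := by
  intro t ht
  rcases Finset.mem_insert.mp ht with h1 | h1
  · rw [h1]
    simp_rw [kapF_self]
    exact (h _ (f_Z hx)).const_mul _
  · simp_rw [kapF_crit _ (X_Z hx) h1]
    exact (omF_tendsto h t h1).div_const _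

theorem ggF_tendsto {ι : Type*} {F : Filter ι} {v : ι → ℝ → ℝ} {V : ℝ → ℝ}
    (hv : ∀ k, ∀ z ∈ σ.Z, 0 < v k z) (hV : ∀ z ∈ σ.Z, 0 ≤ V z)
    (h : ∀ z ∈ σ.Z, Tendsto (fun k => v k z) F (𝓝 (V z))) (i : ℕ) :
    Tendsto (fun k => σ.ggF (v k) i) F (𝓝 (σ.ggF V i)) := by
  cases i with
  | zero => exact tendsto_const_nhds
  | succ i =>
    apply hh_tendsto
    · exact Eventually.of_forall fun k s hs => (omF_pos (hv k) s hs).le
    · intro s hs
      exact mul_nonneg (wt_pos (σ := σ) s).le (hV _ (crit_Z hs))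
    · exact omF_tendsto h

theorem hhk_tendsto {ι : Type*} {F : Filter ι} {v : ι → ℝ → ℝ} {V : ℝ → ℝ}
    (hv : ∀ k, ∀ z ∈ σ.Z, 0 < v k z) (hV : ∀ z ∈ σ.Z, 0 ≤ V z)
    (h : ∀ z ∈ σ.Z, Tendsto (fun k => v k z) F (𝓝 (V z))) {x : ℝ} (hx : x ∈ σ.Z) (i : ℕ) :
    Tendsto (fun k => hh (insert x σ.C) (σ.kapF (v k) x) i) F (𝓝 (hh (insert x σ.C) (σ.kapF V x) i)) := by
  apply hh_tendsto
  · exact Eventually.of_forall fun k s hs => (kapF_pos (hv k) hx s hs).le
  · intro s hs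
    rcases Finset.mem_insert.mp hs with h1 | h1
    · rw [h1, kapF_self]; exact mul_nonneg (gm_pos (X_Z hx)).le (hV _ (f_Z hx))
    · rw [kapF_crit _ (X_Z hx) h1]
      exact div_nonneg (mul_nonneg (wt_pos (σ := σ) s).le (hV _ (crit_Z h1))) (abs_nonneg _)
  · exact kapF_tendsto h hx

theorem uZ_pos (n : ℕ) : ∀ z ∈ σ.Z, 0 < σ.u n z := fun _ hz => u_pos' n (X_Z hz)

/-- limit chains -/
theorem limit_chain (U : Ultrafilter ℕ) (N : ℕ → ℕ → ℕ) (i : ℕ → ℕ) (hi : ∀ j, i j < σ.d)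
    (hN : ∀ j, ∀ᶠ k in (U : Filter ℕ), N j k = σ.d * N (j + 1) k + i j)
    (hgood : ∀ j, ∃ c > 0, ∀ᶠ k in (U : Filter ℕ), ∀ z ∈ σ.Z, c ≤ σ.u (N j k) z) :
    ∃ V : ℕ → ℝ → ℝ, Chain σ i V ∧
      ∀ j, ∀ z ∈ σ.Z, Tendsto (fun k => σ.u (N j k) z) (U : Filter ℕ) (𝓝 (V j z)) := by
  have h1 : ∀ j, ∀ z, ∃ l : ℝ, z ∈ σ.Z → Tendsto (fun k => σ.u (N j k) z) (U : Filter ℕ) (𝓝 l) := by
    intro j z
    by_cases hz : z ∈ σ.Z
    · obtain ⟨l, _, _, hl⟩ := ulim_exists U (a := fun k => σ.u (N j k) z) (lo := 0)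
        (hi := σ.dl z + (σ.B - σ.A)) (Eventually.of_forall fun k => ⟨(uZ_pos _ z hz).le, u_hi' _ (X_Z hz)⟩)
      exact ⟨l, fun _ => hl⟩
    · exact ⟨0, fun h => absurd h hz⟩
  choose V hV using h1
  have hV' : ∀ j, ∀ z ∈ σ.Z, Tendsto (fun k => σ.u (N j k) z) (U : Filter ℕ) (𝓝 (V j z)) :=
    fun j z hz => hV j z hz
  have hpos : ∀ j, ∀ z ∈ σ.Z, 0 < V j z := by
    intro j z hz
    obtain ⟨c, hc, hc2⟩ := hgood j
    refine lt_of_lt_of_le hc (ge_of_tendsto (hV' j z hz) ?_)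
    filter_upwards [hc2] with k hk
    exact hk z hz
  refine ⟨V, ⟨hi, hpos, ?_, ?_, ?_, ?_, ?_⟩, hV'⟩
  · intro j z hz
    exact ge_of_tendsto' (hV' j z hz) (fun k => u_lo' _ (X_Z hz))
  · intro j z hz
    exact le_of_tendsto' (hV' j z hz) (fun k => u_hi' _ (X_Z hz))
  · intro j x hx y hy h1 h2
    exact ge_of_tendsto' ((hV' j y hy).sub (hV' j x hx)) (fun k => σ.u_B _ x y h1 h2)
  · intro j x hx y hy h1 h2
    exact ge_of_tendsto' ((hV' j y hy).sub (hV' j x hx)) (fun k => σ.u_A _ x y h1 h2)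
  · intro j x hx
    have hvp : ∀ k, ∀ z ∈ σ.Z, 0 < σ.u (N (j + 1) k) z := fun k z hz => uZ_pos _ z hz
    have e1 := (hV' j x hx).mul (ggF_tendsto (F := (U : Filter ℕ)) hvp (fun z hz => (hpos (j + 1) z hz).le)
      (hV' (j + 1)) (i j))
    have e2 := hhk_tendsto (F := (U : Filter ℕ)) hvp (fun z hz => (hpos (j + 1) z hz).le) (hV' (j + 1)) hx (i j)
    refine tendsto_nhds_unique e1 (e2.congr' ?_)
    filter_upwards [hN j] with k hk
    rw [hk, ← gg_eq, ← kap_eq]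
    exact (renorm _ (hi j) (X_Z hx)).symm

/-- good states -/
def Good (σ : Sys) (c : ℝ) (n : ℕ) : Prop := ∀ z ∈ σ.Z, c ≤ σ.u n z

theorem Sp_good {c : ℝ} (hc : 0 < c) {n : ℕ} (hn : σ.Good c n) (m : ℕ) :
    σ.Sp n m ≤ 1 + (σ.B - σ.A) / c := by
  apply Sp_le
  intro z hz
  have h1 := hn z hz
  have h2 := u_lo' n (X_Z hz)
  have h3 := u_hi' m (X_Z hz)
  have hw := w_pos (σ := σ)
  have h4 : (σ.B - σ.A) ≤ (σ.B - σ.A) / c * σ.u n z := by
    rw [div_mul_eq_mul_div, le_div_iff₀ hc]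
    nlinarith
  nlinarith

theorem Th_good {c : ℝ} (hc : 0 < c) {n m : ℕ} (hn : σ.Good c n) (hm : σ.Good c m) :
    σ.Th n m ≤ (1 + (σ.B - σ.A) / c) ^ 2 := by
  unfold Th
  rw [pow_two]
  exact mul_le_mul (Sp_good hc hn m) (Sp_good hc hm n) (Sp_pos _ _).le
    (by have := w_pos (σ := σ); positivity)

/-- windows of almost constant distance are impossible -/
theorem window {c : ℝ} (hc : 0 < c) {ε : ℝ} (hε : 0 < ε) (n m : ℕ → ℕ)
    (hcong : ∀ k, n k % σ.d ^ k = m k % σ.d ^ k)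
    (hgood : ∀ k, ∀ j ≤ k, σ.Good c (n k / σ.d ^ j) ∧ σ.Good c (m k / σ.d ^ j))
    (hlow : ∀ k, 1 + ε ≤ σ.Th (n k) (m k))
    (hflat : Tendsto (fun k => σ.Th (n k / σ.d ^ k) (m k / σ.d ^ k) - σ.Th (n k) (m k)) atTop (𝓝 0)) :
    False := by
  set U : Ultrafilter ℕ := hyperfilter ℕ with hU
  have hUat : (U : Filter ℕ) ≤ atTop := by
    rw [← Nat.cofinite_eq_atTop]
    exact hyperfilter_le_cofinite
  have hge : ∀ j : ℕ, ∀ᶠ k in (U : Filter ℕ), j ≤ k := fun j => hUat (eventually_ge_atTop j)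
  set N : ℕ → ℕ → ℕ := fun j k => n k / σ.d ^ j with hN
  set M : ℕ → ℕ → ℕ := fun j k => m k / σ.d ^ j with hM
  have hdig : ∀ j, ∃ i < σ.d, ∀ᶠ k in (U : Filter ℕ), N j k % σ.d = i := fun j => udigit U dpos (N j)
  choose i hi hi2 using hdig
  have hsplit : ∀ (a j : ℕ), a / σ.d ^ j = σ.d * (a / σ.d ^ (j + 1)) + (a / σ.d ^ j) % σ.d := by
    intro a j
    rw [pow_succ, ← Nat.div_div_eq_div_mul, Nat.div_add_mod]
  have hcong2 : ∀ k j, j < k → N j k % σ.d = M j k % σ.d := by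
    intro k j hjk
    have h1 : ∀ a : ℕ, a / σ.d ^ j % σ.d = a % σ.d ^ k / σ.d ^ j % σ.d := by
      intro a
      have h2 : σ.d ^ k = σ.d ^ j * σ.d ^ (k - j) := by rw [← pow_add]; congr 1; omega
      rw [h2, Nat.mod_mul_right_div_self]
      exact (Nat.mod_mod_of_dvd _ (dvd_pow_self _ (by omega))).symm
    show n k / σ.d ^ j % σ.d = m k / σ.d ^ j % σ.d
    rw [h1 (n k), h1 (m k), hcong k]
  have hNeq : ∀ j, ∀ᶠ k in (U : Filter ℕ), N j k = σ.d * N (j + 1) k + i j := by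
    intro j
    filter_upwards [hi2 j] with k hk
    rw [← hk]
    exact hsplit (n k) j
  have hMeq : ∀ j, ∀ᶠ k in (U : Filter ℕ), M j k = σ.d * M (j + 1) k + i j := by
    intro j
    filter_upwards [hi2 j, hge (j + 1)] with k hk hk2
    rw [← hk, hcong2 k j (by omega)]
    exact hsplit (m k) j
  have hgN : ∀ j, ∃ c > 0, ∀ᶠ k in (U : Filter ℕ), ∀ z ∈ σ.Z, c ≤ σ.u (N j k) z := by
    intro j
    refine ⟨c, hc, ?_⟩
    filter_upwards [hge j] with k hk
    exact (hgood k j hk).1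
  have hgM : ∀ j, ∃ c > 0, ∀ᶠ k in (U : Filter ℕ), ∀ z ∈ σ.Z, c ≤ σ.u (M j k) z := by
    intro j
    refine ⟨c, hc, ?_⟩
    filter_upwards [hge j] with k hk
    exact (hgood k j hk).2
  obtain ⟨V, hV, hVl⟩ := limit_chain U N i hi hNeq hgN
  obtain ⟨W, hW, hWl⟩ := limit_chain U M i hi hMeq hgM
  set K : ℝ := 1 + (σ.B - σ.A) / c with hK
  -- limits of the suprema
  have hSex : ∀ j, ∃ S : ℝ, Tendsto (fun k => σ.Sp (N j k) (M j k)) (U : Filter ℕ) (𝓝 S) := by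
    intro j
    obtain ⟨l, _, _, hl⟩ := ulim_exists U (a := fun k => σ.Sp (N j k) (M j k)) (lo := 1) (hi := K) (by
      filter_upwards [hge j] with k hk
      exact ⟨one_le_Sp _ _, Sp_good hc (hgood k j hk).1 _⟩)
    exact ⟨l, hl⟩
  have hSex' : ∀ j, ∃ S : ℝ, Tendsto (fun k => σ.Sp (M j k) (N j k)) (U : Filter ℕ) (𝓝 S) := by
    intro j
    obtain ⟨l, _, _, hl⟩ := ulim_exists U (a := fun k => σ.Sp (M j k) (N j k)) (lo := 1) (hi := K) (by
      filter_upwards [hge j] with k hk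
      exact ⟨one_le_Sp _ _, Sp_good hc (hgood k j hk).2 _⟩)
    exact ⟨l, hl⟩
  choose S hS using hSex
  choose S' hS' using hSex'
  have hrat : ∀ j, ∀ z ∈ σ.Z, Tendsto (fun k => σ.u (M j k) z / σ.u (N j k) z) (U : Filter ℕ)
      (𝓝 (W j z / V j z)) := fun j z hz => (hWl j z hz).div (hVl j z hz) (hV.pos j z hz).ne'
  have hrat' : ∀ j, ∀ z ∈ σ.Z, Tendsto (fun k => σ.u (N j k) z / σ.u (M j k) z) (U : Filter ℕ)
      (𝓝 (V j z / W j z)) := fun j z hz => (hVl j z hz).div (hWl j z hz) (hW.pos j z hz).ne'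
  have hSp := fun j => Sp_lim (hrat j) (hS j)
  have hSp' := fun j => Sp_lim (hrat' j) (hS' j)
  -- the product is constant
  have hTh : ∀ j, Tendsto (fun k => σ.Th (N j k) (M j k)) (U : Filter ℕ) (𝓝 (S j * S' j)) := by
    intro j
    exact (hS j).mul (hS' j)
  have hconst : ∀ j, S j * S' j = S 0 * S' 0 := by
    intro j
    have h0 := hTh 0
    have e0 : (fun k => σ.Th (N 0 k) (M 0 k)) = fun k => σ.Th (n k) (m k) := by
      funext k
      simp [hN, hM]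
    rw [e0] at h0
    refine tendsto_nhds_unique (hTh j) ?_
    have hup : Tendsto (fun k => σ.Th (n k / σ.d ^ k) (m k / σ.d ^ k)) (U : Filter ℕ) (𝓝 (S 0 * S' 0)) := by
      have := (hflat.mono_left hUat).add h0
      simpa using this
    refine tendsto_of_tendsto_of_tendsto_of_le_of_le' h0 hup ?_ ?_
    · filter_upwards [hge j] with k hk
      apply Th_div
      have h1 := hcong k
      have h2 : σ.d ^ j ∣ σ.d ^ k := pow_dvd_pow _ hk
      rw [← Nat.mod_mod_of_dvd (n k) h2, ← Nat.mod_mod_of_dvd (m k) h2, h1]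
    · filter_upwards [hge j] with k hk
      have h3 : (n k / σ.d ^ j) % σ.d ^ (k - j) = (m k / σ.d ^ j) % σ.d ^ (k - j) := by
        have h2 : σ.d ^ k = σ.d ^ j * σ.d ^ (k - j) := by rw [← pow_add]; congr 1; omega
        rw [← Nat.mod_mul_right_div_self, ← Nat.mod_mul_right_div_self, ← h2, hcong k]
      have h4 := Th_div (σ := σ) h3
      rw [Nat.div_div_eq_div_mul, Nat.div_div_eq_div_mul, ← pow_add] at h4
      have h5 : j + (k - j) = k := by omega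
      rw [h5] at h4
      exact h4
  have hT1 : 1 + ε ≤ S 0 * S' 0 := by
    apply ge_of_tendsto' (hTh 0)
    intro k
    have := hlow k
    simpa [hN, hM] using this
  have := rigid (σ := σ) hV hW (S := S) (S' := S') (T := S 0 * S' 0)
    (fun j => (hSp j).1) (fun j => (hSp' j).1)
    (fun j z hz => by
      have := (hSp j).2.1 z hz
      rwa [div_le_iff₀ (hV.pos j z hz)] at this)
    (fun j z hz => by
      have := (hSp' j).2.1 z hz
      rwa [div_le_iff₀ (hW.pos j z hz)] at this)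
    (fun j h => by
      obtain ⟨z, hz, hze⟩ := (hSp j).2.2 h
      refine ⟨z, hz, ?_⟩
      rwa [div_eq_iff (hV.pos j z hz).ne'] at hze)
    (fun j h => by
      obtain ⟨z, hz, hze⟩ := (hSp' j).2.2 h
      refine ⟨z, hz, ?_⟩
      rwa [div_eq_iff (hW.pos j z hz).ne'] at hze)
    hconst
  linarith

/-- uniform contraction along good words -/
theorem contraction {c : ℝ} (hc : 0 < c) {ε : ℝ} (hε : 0 < ε) : ∃ k : ℕ, ∀ n m : ℕ,
    n % σ.d ^ k = m % σ.d ^ k → (∀ j ≤ k, σ.Good c (n / σ.d ^ j) ∧ σ.Good c (m / σ.d ^ j)) →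
    σ.Th n m ≤ 1 + ε := by
  by_contra hcon
  push Not at hcon
  set K2 : ℝ := (1 + (σ.B - σ.A) / c) ^ 2 with hK2
  -- for each k find a window of length k with small increase
  have hwin : ∀ k : ℕ, ∃ n m : ℕ, n % σ.d ^ k = m % σ.d ^ k ∧
      (∀ j ≤ k, σ.Good c (n / σ.d ^ j) ∧ σ.Good c (m / σ.d ^ j)) ∧ 1 + ε ≤ σ.Th n m ∧
      σ.Th (n / σ.d ^ k) (m / σ.d ^ k) - σ.Th n m ≤ K2 / (k + 1) := by
    intro k
    obtain ⟨n, m, hcong, hgood, hlow⟩ := hcon (k * (k + 1))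
    have hmod : ∀ a b, a + b ≤ k * (k + 1) → (n / σ.d ^ a) % σ.d ^ b = (m / σ.d ^ a) % σ.d ^ b := by
      intro a b hab
      have h2 : σ.d ^ (a + b) ∣ σ.d ^ (k * (k + 1)) := pow_dvd_pow _ hab
      have h3 : n % σ.d ^ (a + b) = m % σ.d ^ (a + b) := by
        rw [← Nat.mod_mod_of_dvd n h2, ← Nat.mod_mod_of_dvd m h2, hcong]
      rw [← Nat.mod_mul_right_div_self, ← Nat.mod_mul_right_div_self, ← pow_add, h3]
    have hTk : ∀ a, a ≤ k * (k + 1) → 1 + ε ≤ σ.Th (n / σ.d ^ a) (m / σ.d ^ a) := by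
      intro a ha
      have := Th_div (σ := σ) (k := a) (n := n) (m := m) (by
        have := hmod 0 a (by omega)
        simpa using this)
      linarith
    by_contra hno
    push Not at hno
    have hstep : ∀ a : ℕ, a ≤ k → K2 / (k + 1) < σ.Th (n / σ.d ^ (k * (a + 1))) (m / σ.d ^ (k * (a + 1)))
        - σ.Th (n / σ.d ^ (k * a)) (m / σ.d ^ (k * a)) := by
      intro a ha
      have hka : k * a + k ≤ k * (k + 1) := by nlinarith
      have := hno (n / σ.d ^ (k * a)) (m / σ.d ^ (k * a)) (hmod (k * a) k hka) (by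
        intro j hj
        rw [Nat.div_div_eq_div_mul, Nat.div_div_eq_div_mul, ← pow_add]
        exact hgood _ (by omega)) (hTk _ (by omega))
      rw [Nat.div_div_eq_div_mul, Nat.div_div_eq_div_mul, ← pow_add] at this
      have h5 : k * a + k = k * (a + 1) := by ring
      rw [h5] at this
      exact this
    have hsum : ∀ a : ℕ, a ≤ k + 1 → (a : ℝ) * (K2 / (k + 1)) ≤
        σ.Th (n / σ.d ^ (k * a)) (m / σ.d ^ (k * a)) - σ.Th n m := by
      intro a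
      induction a with
      | zero => intro _; simp
      | succ a ih =>
        intro ha
        have h1 := ih (by omega)
        have h2 := hstep a (by omega)
        push_cast
        linarith
    have h1 := hsum (k + 1) le_rfl
    have h2 := Th_good hc (hgood (k * (k + 1)) le_rfl).1 (hgood (k * (k + 1)) le_rfl).2
    have h3 := one_le_Th (σ := σ) n m
    have h4 : ((k + 1 : ℕ) : ℝ) * (K2 / (k + 1)) = K2 := by
      push_cast
      field_simp
    rw [h4] at h1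
    linarith
  choose n m hcong hgood hlow hflat using hwin
  refine window hc hε n m hcong hgood hlow ?_
  have h1 : Tendsto (fun k : ℕ => K2 / ((k : ℝ) + 1)) atTop (𝓝 0) := by
    have := tendsto_one_div_add_atTop_nhds_zero_nat (𝕜 := ℝ)
    have h2 := this.const_mul K2
    simp only [mul_zero] at h2
    refine h2.congr fun k => by ring
  refine tendsto_of_tendsto_of_tendsto_of_le_of_le tendsto_const_nhds h1 ?_ hflat
  intro k
  have := Th_div (σ := σ) (hcong k)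
  show (0:ℝ) ≤ _
  linarith

end Sys

end Pool.Agent.Helper368.BC
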