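import Mathlib
import Pool.Agent.Helper368.N8

open Polynomial Finset Filter Topology

namespace Pool.Agent.Helper368.BC

theorem hh_zero {S : Finset ℝ} {κ : ℝ → ℝ} (hκ : ∀ s ∈ S, 0 ≤ κ s) {i : ℕ} (hi : S.card ≤ i) : hh S κ i = 0 := by
  apply le_antisymm _ (hh_nonneg hκ i)
  have hMD : MD i (nod S * X ^ (i - S.card)) := by
    refine ⟨(nod_monic S).mul (monic_X_pow _), ?_⟩
    rw [(nod_monic S).natDegree_mul (monic_X_pow _), nod_natDegree, natDegree_X_pow]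
    omega
  refine (hh_le hκ hMD).trans_eq ?_
  unfold sq
  apply Finset.sum_eq_zero
  intro s hs
  rw [eval_mul, nod_eval_mem hs]
  ring

/-- dichotomy for positive sequences along an ultrafilter -/
theorem udich (U : Ultrafilter ℕ) (a b : ℕ → ℝ) :
    (∀ᶠ k in (U : Filter ℕ), a k ≤ b k) ∨ (∀ᶠ k in (U : Filter ℕ), b k ≤ a k) := by
  rw [← Ultrafilter.eventually_or]
  exact Eventually.of_forall fun k => le_total _ _

namespace Sys

variable {σ : Sys}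

/-- light end points -/
def Li (σ : Sys) (U : Ultrafilter ℕ) (n : ℕ → ℕ) (e : ℝ) : Prop :=
  Tendsto (fun k => σ.u (n k) e) (U : Filter ℕ) (𝓝 0)

/-- limit functions -/
structure LimF (σ : Sys) (U : Ultrafilter ℕ) (n : ℕ → ℕ) (V : ℝ → ℝ) : Prop where
  nn : ∀ z ∈ σ.Z, 0 ≤ V z
  lo : ∀ z ∈ σ.Z, σ.dl z ≤ V z
  hi : ∀ z ∈ σ.Z, V z ≤ σ.dl z + (σ.B - σ.A)
  lim : ∀ z ∈ σ.Z, Tendsto (fun k => σ.u (n k) z) (U : Filter ℕ) (𝓝 (V z))

theorem exists_limF (U : Ultrafilter ℕ) (n : ℕ → ℕ) : ∃ V, LimF σ U n V := by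
  have h1 : ∀ z, ∃ l : ℝ, z ∈ σ.Z → 0 ≤ l ∧ Tendsto (fun k => σ.u (n k) z) (U : Filter ℕ) (𝓝 l) := by
    intro z
    by_cases hz : z ∈ σ.Z
    · obtain ⟨l, h0, _, hl⟩ := ulim_exists U (a := fun k => σ.u (n k) z) (lo := 0)
        (hi := σ.dl z + (σ.B - σ.A)) (Eventually.of_forall fun k => ⟨(uZ_pos _ z hz).le, u_hi' _ (X_Z hz)⟩)
      exact ⟨l, fun _ => ⟨h0, hl⟩⟩
    · exact ⟨0, fun h => absurd h hz⟩
  choose V hV using h1
  refine ⟨V, fun z hz => (hV z hz).1, fun z hz => ?_, fun z hz => ?_, fun z hz => (hV z hz).2⟩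
  · exact ge_of_tendsto' (hV z hz).2 (fun k => u_lo' _ (X_Z hz))
  · exact le_of_tendsto' (hV z hz).2 (fun k => u_hi' _ (X_Z hz))

theorem LimF.li_iff {U : Ultrafilter ℕ} {n : ℕ → ℕ} {V : ℝ → ℝ} (h : LimF σ U n V) {z : ℝ} (hz : z ∈ σ.Z) :
    σ.Li U n z ↔ V z = 0 := by
  constructor
  · intro h1
    exact tendsto_nhds_unique (h.lim z hz) h1
  · intro h1
    have := h.lim z hz
    rwa [h1] at this

theorem LimF.end_of_zero {U : Ultrafilter ℕ} {n : ℕ → ℕ} {V : ℝ → ℝ} (h : LimF σ U n V) {z : ℝ} (hz : z ∈ σ.Z)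
    (h0 : V z = 0) : z = σ.A ∨ z = σ.B := by
  apply dl_eq_zero (X_Z hz)
  have := h.lo z hz
  have := dl_nonneg (X_Z hz)
  linarith

theorem LimF.pos_of {U : Ultrafilter ℕ} {n : ℕ → ℕ} {V : ℝ → ℝ} (h : LimF σ U n V) {z : ℝ} (hz : z ∈ σ.Z)
    (h0 : V z ≠ 0) : 0 < V z := lt_of_le_of_ne (h.nn z hz) (Ne.symm h0)

theorem li_end {U : Ultrafilter ℕ} {n : ℕ → ℕ} {z : ℝ} (hz : z ∈ σ.Z) (h : σ.Li U n z) : z = σ.A ∨ z = σ.B := by
  obtain ⟨V, hV⟩ := exists_limF (σ := σ) U n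
  exact hV.end_of_zero hz ((hV.li_iff hz).mp h)

/-- heavy critical points -/
noncomputable def TV (σ : Sys) (V : ℝ → ℝ) : Finset ℝ := σ.C.filter (fun c => V (σ.f c) ≠ 0)

/-- heavy atoms for the probe `x` -/
noncomputable def TX (σ : Sys) (V : ℝ → ℝ) (x : ℝ) : Finset ℝ :=
  (insert x σ.C).filter (fun c => V (σ.f c) ≠ 0)

theorem TX_card (V : ℝ → ℝ) {x : ℝ} (hx : σ.X x) :
    (σ.TX V x).card = (σ.TV V).card + (if V (σ.f x) = 0 then 0 else 1) := by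
  unfold TX TV
  by_cases h : V (σ.f x) = 0
  · rw [Finset.filter_insert, if_neg (by simpa using h), if_pos h, add_zero]
  · rw [Finset.filter_insert, if_pos h, if_neg h, Finset.card_insert_of_notMem]
    intro h; exact not_mem_C hx (Finset.mem_filter.mp h).1

theorem omF_nn {V : ℝ → ℝ} (hV : ∀ z ∈ σ.Z, 0 ≤ V z) : ∀ c ∈ σ.C, 0 ≤ σ.omF V c :=
  fun c hc => mul_nonneg (wt_pos c).le (hV _ (crit_Z hc))

theorem kapF_nn {V : ℝ → ℝ} (hV : ∀ z ∈ σ.Z, 0 ≤ V z) {x : ℝ} (hx : x ∈ σ.Z) :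
    ∀ t ∈ insert x σ.C, 0 ≤ σ.kapF V x t := by
  intro t ht
  rcases Finset.mem_insert.mp ht with h | h
  · rw [h, kapF_self]; exact mul_nonneg (gm_pos (X_Z hx)).le (hV _ (f_Z hx))
  · rw [kapF_crit V (X_Z hx) h]
    exact div_nonneg (omF_nn hV t h) (abs_nonneg _)

theorem f_Z' {x t : ℝ} (hx : x ∈ σ.Z) (ht : t ∈ insert x σ.C) : σ.f t ∈ σ.Z := by
  rcases Finset.mem_insert.mp ht with h | h
  · rw [h]; exact f_Z hx
  · exact crit_Z h

theorem omF_zero {V : ℝ → ℝ} {c : ℝ} (h : V (σ.f c) = 0) : σ.omF V c = 0 := by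
  unfold omF; rw [h, mul_zero]

theorem kapF_zero {V : ℝ → ℝ} {x c : ℝ} (h : V (σ.f c) = 0) : σ.kapF V x c = 0 := by
  unfold kapF
  split_ifs with h1
  · rw [← h1, h, mul_zero]
  · rw [omF_zero h, zero_div]

theorem omF_pos' {V : ℝ → ℝ} (hV : ∀ z ∈ σ.Z, 0 ≤ V z) : ∀ c ∈ σ.TV V, 0 < σ.omF V c := by
  intro c hc
  have hc' := Finset.mem_filter.mp hc
  exact mul_pos (wt_pos c) (lt_of_le_of_ne (hV _ (crit_Z hc'.1)) (Ne.symm hc'.2))

theorem kapF_pos' {V : ℝ → ℝ} (hV : ∀ z ∈ σ.Z, 0 ≤ V z) {x : ℝ} (hx : x ∈ σ.Z) :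
    ∀ t ∈ σ.TX V x, 0 < σ.kapF V x t := by
  intro t ht
  have ht' := Finset.mem_filter.mp ht
  have hp : 0 < V (σ.f t) := lt_of_le_of_ne (hV _ (f_Z' hx ht'.1)) (Ne.symm ht'.2)
  rcases Finset.mem_insert.mp ht'.1 with h | h
  · rw [h] at hp ⊢
    rw [kapF_self]; exact mul_pos (gm_pos (X_Z hx)) hp
  · rw [kapF_crit V (X_Z hx) h]
    exact div_pos (mul_pos (wt_pos t) hp) (abs_sub_pos (X_Z hx) h)

theorem hhk_restrict {V : ℝ → ℝ} {x : ℝ} (i : ℕ) :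
    hh (insert x σ.C) (σ.kapF V x) i = hh (σ.TX V x) (σ.kapF V x) i := by
  apply hh_restrict (Finset.filter_subset _ _)
  intro s hs hs2
  apply kapF_zero
  by_contra h
  exact hs2 (Finset.mem_filter.mpr ⟨hs, h⟩)

theorem hho_restrict {V : ℝ → ℝ} (i : ℕ) : hh σ.C (σ.omF V) i = hh (σ.TV V) (σ.omF V) i := by
  apply hh_restrict (Finset.filter_subset _ _)
  intro s hs hs2
  apply omF_zero
  by_contra h
  exact hs2 (Finset.mem_filter.mpr ⟨hs, h⟩)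

theorem ggF_pos' {V : ℝ → ℝ} (hV : ∀ z ∈ σ.Z, 0 ≤ V z) {i : ℕ} (hi : i ≤ (σ.TV V).card) : 0 < σ.ggF V i := by
  cases i with
  | zero => exact one_pos
  | succ i =>
    show 0 < hh σ.C (σ.omF V) i
    rw [hho_restrict]
    exact hh_pos (omF_pos' hV) hi

theorem hhk_pos' {V : ℝ → ℝ} (hV : ∀ z ∈ σ.Z, 0 ≤ V z) {x : ℝ} (hx : x ∈ σ.Z) {i : ℕ} (hi : i < (σ.TX V x).card) :
    0 < hh (insert x σ.C) (σ.kapF V x) i := by
  rw [hhk_restrict]
  exact hh_pos (kapF_pos' hV hx) hi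

theorem hhk_zero' {V : ℝ → ℝ} (hV : ∀ z ∈ σ.Z, 0 ≤ V z) {x : ℝ} (hx : x ∈ σ.Z) {i : ℕ} (hi : (σ.TX V x).card ≤ i) :
    hh (insert x σ.C) (σ.kapF V x) i = 0 := by
  rw [hhk_restrict]
  exact hh_zero (fun s hs => (kapF_pos' hV hx s hs).le) hi

/-- limits of children, regular digits -/
theorem child_lim {U : Ultrafilter ℕ} {n : ℕ → ℕ} {V : ℝ → ℝ} (h : LimF σ U n V) {i : ℕ} (hid : i < σ.d)
    (hi : i ≤ (σ.TV V).card) {x : ℝ} (hx : x ∈ σ.Z) :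
    Tendsto (fun k => σ.u (σ.d * n k + i) x) (U : Filter ℕ)
      (𝓝 (hh (insert x σ.C) (σ.kapF V x) i / σ.ggF V i)) := by
  have hvp : ∀ k, ∀ z ∈ σ.Z, 0 < σ.u (n k) z := fun k z hz => uZ_pos _ z hz
  have e1 := ggF_tendsto (F := (U : Filter ℕ)) hvp h.nn h.lim i
  have e2 := hhk_tendsto (F := (U : Filter ℕ)) hvp h.nn h.lim hx i
  refine (e2.div e1 (ggF_pos' h.nn hi).ne').congr fun k => ?_
  simp only [Pi.div_apply]
  rw [u_eq _ hid (X_Z hx), kap_eq, gg_eq]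

/-- a regular digit creates light end points only in the passing case -/
theorem slb {U : Ultrafilter ℕ} {n : ℕ → ℕ} {V : ℝ → ℝ} (h : LimF σ U n V) {i : ℕ} (hid : i < σ.d)
    (hi : i ≤ (σ.TV V).card) {x : ℝ} (hx : x ∈ σ.Z) :
    σ.Li U (fun k => σ.d * n k + i) x ↔ i = (σ.TV V).card ∧ V (σ.f x) = 0 := by
  have h1 := child_lim h hid hi hx
  have hg := ggF_pos' h.nn hi
  have hcard := TX_card (σ := σ) V (X_Z hx)
  constructor
  · intro h2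
    have h3 := tendsto_nhds_unique h1 h2
    have h4 : hh (insert x σ.C) (σ.kapF V x) i = 0 := by
      rcases div_eq_zero_iff.mp h3 with h | h
      · exact h
      · exact absurd h hg.ne'
    have h5 : (σ.TX V x).card ≤ i := by
      by_contra hcon
      rw [not_le] at hcon
      have := hhk_pos' h.nn hx hcon
      linarith
    split_ifs at hcard with h6
    · exact ⟨by omega, h6⟩
    · omega
  · rintro ⟨h2, h3⟩
    rw [if_pos h3] at hcard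
    have h4 := hhk_zero' h.nn hx (i := i) (by omega)
    rw [h4, zero_div] at h1
    exact h1

end Sys

end Pool.Agent.Helper368.BC
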