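import Mathlib
import Pool.Agent.Helper368.N9

open Polynomial Finset Filter Topology

namespace Pool.Agent.Helper368.BC

/-- weight fraction of a node when the number of nodes is the degree plus one -/
theorem frac {S : Finset ℝ} {κ : ℝ → ℝ} (hκ : ∀ s ∈ S, 0 < κ s) {i : ℕ} (hi : S.card = i + 1)
    {R : ℝ[X]} (hR : MD i R) (ho : Orth S κ i R) {c : ℝ} (hc : c ∈ S) :
    κ c * R.eval c * (nod (S.erase c)).eval c = hh S κ i := by
  have hM : MD i (nod (S.erase c)) := by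
    refine ⟨nod_monic _, ?_⟩
    rw [nod_natDegree, Finset.card_erase_of_mem hc, hi]
    omega
  have h1 := ho (nod (S.erase c) - R) (MD_sub_degree hR hM)
  have h2 := hh_eq (fun s hs => (hκ s hs).le) hR ho
  have h3 : ∑ s ∈ S, κ s * (R.eval s * (nod (S.erase c) - R).eval s)
      = ∑ s ∈ S, κ s * (R.eval s * (nod (S.erase c)).eval s) - sq S κ R := by
    unfold sq
    rw [← Finset.sum_sub_distrib]
    apply Finset.sum_congr rfl
    intro s _
    rw [eval_sub]
    ring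
  have h4 : ∑ s ∈ S, κ s * (R.eval s * (nod (S.erase c)).eval s)
      = κ c * (R.eval c * (nod (S.erase c)).eval c) := by
    apply Finset.sum_eq_single_of_mem c hc
    intro b hb hbc
    rw [nod_eval_mem (Finset.mem_erase.mpr ⟨hbc, hb⟩)]
    ring
  rw [h3, h4, ← h2] at h1
  linarith

/-- strict comparison using one node -/
theorem strict_step {S : Finset ℝ} {κ κ' : ℝ → ℝ} (hκ : ∀ s ∈ S, 0 < κ s) (hκ' : ∀ s ∈ S, 0 ≤ κ' s) {i : ℕ}
    (hi : S.card = i + 1) {c : ℝ} (hc : c ∈ S) {M s0 η : ℝ} (hle : ∀ s ∈ S, κ' s ≤ M * κ s)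
    (hc0 : κ' c ≤ s0 * κ c) (hs0 : s0 ≤ M)
    (hη : η * (κ c * (nod (S.erase c)).eval c ^ 2) ≤ hh S κ i) :
    hh S κ' i ≤ (M - (M - s0) * η) * hh S κ i := by
  obtain ⟨R, hR, ho⟩ := exists_op hκ (i := i) (by omega)
  have h1 := hh_eq (fun s hs => (hκ s hs).le) hR ho
  have h2 := hh_le hκ' hR
  have h3 := frac hκ hi hR ho hc
  have hpos : 0 < hh S κ i := hh_pos hκ (by omega)
  -- fraction bound
  have h4 : η * hh S κ i ≤ κ c * R.eval c ^ 2 := by
    have hκc := hκ c hc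
    have hn : 0 < (nod (S.erase c)).eval c ^ 2 := by
      have : (nod (S.erase c)).eval c ≠ 0 := nod_eval_ne (by simp)
      positivity
    have h5 : (κ c * R.eval c ^ 2) * (κ c * (nod (S.erase c)).eval c ^ 2) = hh S κ i ^ 2 := by
      rw [← h3]; ring
    have h6 : 0 < κ c * (nod (S.erase c)).eval c ^ 2 := mul_pos hκc hn
    have h7 : η * hh S κ i * (κ c * (nod (S.erase c)).eval c ^ 2)
        ≤ (κ c * R.eval c ^ 2) * (κ c * (nod (S.erase c)).eval c ^ 2) := by
      rw [h5]; nlinarith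
    exact le_of_mul_le_mul_right h7 h6
  have h5 : sq S κ' R ≤ M * sq S κ R - (M - s0) * (κ c * R.eval c ^ 2) := by
    unfold sq
    rw [← Finset.add_sum_erase S _ hc, ← Finset.add_sum_erase S (fun s => κ s * R.eval s ^ 2) hc, mul_add]
    have k1 : ∑ s ∈ S.erase c, κ' s * R.eval s ^ 2 ≤ M * ∑ s ∈ S.erase c, κ s * R.eval s ^ 2 := by
      rw [Finset.mul_sum]
      apply Finset.sum_le_sum
      intro s hs
      have := mul_le_mul_of_nonneg_right (hle s (Finset.mem_of_mem_erase hs)) (sq_nonneg (R.eval s))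
      linarith
    have k2 := mul_le_mul_of_nonneg_right hc0 (sq_nonneg (R.eval c))
    linarith
  rw [← h1] at h5
  have h6 := mul_le_mul_of_nonneg_left h4 (sub_nonneg.mpr hs0)
  linarith

/-- algebra of the contraction -/
theorem contr_alg {D α β η : ℝ} (hη0 : 0 ≤ η) (hη1 : η ≤ 1) (hα : α ≤ 1) (hβ : β ≤ 1)
    (hαβ : D * (α * β) = 1) (hD : 0 ≤ D) :
    D * ((1 - (1 - α) * η) * (1 - (1 - β) * η)) ≤ (1 - η) * D + η := by
  have e : D * ((1 - (1 - α) * η) * (1 - (1 - β) * η))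
      = D * ((1 - η) ^ 2 + η * (1 - η) * (α + β)) + η ^ 2 * (D * (α * β)) := by ring
  rw [e, hαβ]
  have h1 : α + β ≤ 1 + α * β := by nlinarith
  have h2 : D * (α + β) ≤ D + 1 := by nlinarith
  have h3 : η * (1 - η) * (D * (α + β)) ≤ η * (1 - η) * (D + 1) := by
    apply mul_le_mul_of_nonneg_left h2
    exact mul_nonneg hη0 (by linarith)
  nlinarith

namespace Sys

variable {σ : Sys}

/-- data of a reduced chain -/
structure RChain (σ : Sys) (L : Set ℝ) (i : ℕ) (c : ℝ) (V : ℕ → ℝ → ℝ) : Prop where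
  nn : ∀ j, ∀ z ∈ σ.Z, 0 ≤ V j z
  lo : ∀ j, ∀ z ∈ σ.Z, σ.dl z ≤ V j z
  hi : ∀ j, ∀ z ∈ σ.Z, V j z ≤ σ.dl z + (σ.B - σ.A)
  zero : ∀ j, ∀ z ∈ σ.Z, z ∈ L → V j z = 0
  good : ∀ j, ∀ z ∈ σ.Z, z ∉ L → c ≤ V j z
  ren : ∀ j, ∀ x ∈ σ.Z, x ∉ L → V j x * σ.ggF (V (j + 1)) i = hh (insert x σ.C) (σ.kapF (V (j + 1)) x) i

theorem TV_eq {L : Set ℝ} {V : ℝ → ℝ} {c : ℝ} (hc : 0 < c) (h0 : ∀ z ∈ σ.Z, z ∈ L → V z = 0)
    (h1 : ∀ z ∈ σ.Z, z ∉ L → c ≤ V z) [DecidablePred (fun c => σ.f c ∉ L)] :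
    σ.TV V = σ.C.filter (fun c => σ.f c ∉ L) := by
  unfold TV
  apply Finset.filter_congr
  intro t ht
  constructor
  · intro h2 h3
    exact h2 (h0 _ (crit_Z ht) h3)
  · intro h2 h3
    have := h1 _ (crit_Z ht) h2
    linarith

theorem far_crit {x t : ℝ} (hx : σ.X x) (ht : t ∈ σ.C) : |x - t| ≤ σ.dl x + (σ.B - σ.A) := by
  have h1 := σ.hCA t ht
  have h2 := σ.hCB t ht
  unfold dl
  rcases hx with h | h
  · rw [abs_of_nonpos (by linarith)]
    have := le_max_right (x - σ.B) (σ.A - x)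
    linarith
  · rw [abs_of_nonneg (by linarith)]
    have := le_max_left (x - σ.B) (σ.A - x)
    linarith

/-- one step of the reduced contraction -/
theorem FR_step {L : Set ℝ} {i : ℕ} {c : ℝ} (hc : 0 < c) (hL : ∀ x ∈ σ.Z, x ∉ L → σ.f x ∉ L)
    {T : Finset ℝ} (hT : ∀ t, t ∈ T ↔ t ∈ σ.C ∧ σ.f t ∉ L) (hTi : T.card = i) {c0 : ℝ} (hc0 : c0 ∈ T) :
    ∃ η : ℝ, 0 < η ∧ η ≤ 1 ∧ ∀ V W : ℕ → ℝ → ℝ, RChain σ L i c V → RChain σ L i c W → ∀ j : ℕ, ∀ D : ℝ,
      (∃ m M : ℝ, 0 < m ∧ M ≤ D * m ∧ ∀ x ∈ σ.Z, x ∉ L → m * V (j + 1) x ≤ W (j + 1) x ∧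
        W (j + 1) x ≤ M * V (j + 1) x) →
      ∃ m M : ℝ, 0 < m ∧ M ≤ ((1 - η) * D + η) * m ∧ ∀ x ∈ σ.Z, x ∉ L → m * V j x ≤ W j x ∧
        W j x ≤ M * V j x := by
  classical
  have hTC : T ⊆ σ.C := fun t ht => ((hT t).1 ht).1
  have hi1 : 1 ≤ i := by rw [← hTi]; exact Finset.card_pos.mpr ⟨c0, hc0⟩
  obtain ⟨k, hk⟩ : ∃ k, i = k + 1 := ⟨i - 1, by omega⟩
  obtain ⟨os, hos, hos2⟩ := os_low σ.C k
  -- lower bound of the heavy weights
  obtain ⟨t0, ht0, ht0'⟩ : ∃ t0 : ℝ, 0 < t0 ∧ ∀ t ∈ T, t0 ≤ σ.al / |(nod (σ.C.erase t)).eval t| * c := by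
    obtain ⟨s, hs, hmin⟩ := Finset.exists_min_image T (fun t => σ.al / |(nod (σ.C.erase t)).eval t| * c) ⟨c0, hc0⟩
    exact ⟨_, mul_pos (wt_pos s) hc, hmin⟩
  set w := σ.B - σ.A with hw
  have hw0 : 0 < w := w_pos
  set O : ℝ := σ.al / |(nod (σ.C.erase c0)).eval c0| * (σ.dl (σ.f c0) + w) with hO
  have hc0C : c0 ∈ σ.C := hTC hc0
  have hO0 : 0 < O := mul_pos (wt_pos c0) (by have := dl_nonneg (X_crit hc0C); linarith)
  set N : ℝ := (nod (T.erase c0)).eval c0 ^ 2 with hN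
  have hN0 : 0 < N := by
    have : (nod (T.erase c0)).eval c0 ≠ 0 := nod_eval_ne (by simp)
    positivity
  set η0 : ℝ := c / (c + w) * (os * t0) / (O * N) with hη0
  have hη0p : 0 < η0 := by positivity
  refine ⟨min η0 1, lt_min hη0p one_pos, min_le_right _ _, ?_⟩
  set η := min η0 1 with hη
  have hηp : 0 < η := lt_min hη0p one_pos
  have hη1 : η ≤ 1 := min_le_right _ _
  -- fraction bound for a chain
  have key : ∀ V : ℕ → ℝ → ℝ, RChain σ L i c V → ∀ j, ∀ x ∈ σ.Z, x ∉ L →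
      (∀ s ∈ insert x T, 0 < σ.kapF (V (j + 1)) x s) ∧ 0 < σ.ggF (V (j + 1)) i ∧
      V j x * σ.ggF (V (j + 1)) i = hh (insert x T) (σ.kapF (V (j + 1)) x) i ∧
      η * (σ.kapF (V (j + 1)) x c0 * (nod ((insert x T).erase c0)).eval c0 ^ 2) ≤
        hh (insert x T) (σ.kapF (V (j + 1)) x) i := by
    intro V hV j x hx hxL
    have hX := X_Z hx
    have hTV : σ.TV (V (j + 1)) = T := by
      rw [TV_eq hc (hV.zero (j + 1)) (hV.good (j + 1))]
      ext t
      rw [Finset.mem_filter, hT]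
    have hfx : V (j + 1) (σ.f x) ≠ 0 := by
      have := hV.good (j + 1) _ (f_Z hx) (hL x hx hxL)
      intro h; rw [h] at this; linarith
    have hTX : σ.TX (V (j + 1)) x = insert x T := by
      rw [← hTV]
      unfold TX TV
      rw [Finset.filter_insert, if_pos hfx]
    have hren := hV.ren j x hx hxL
    rw [hhk_restrict, hTX] at hren
    have hgl : os * t0 ≤ σ.ggF (V (j + 1)) i := by
      rw [hk]
      show os * t0 ≤ hh σ.C (σ.omF (V (j + 1))) k
      apply hos2 _ (omF_nn (hV.nn (j + 1))) t0 ht0.le T hTC (by omega)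
      intro s hs
      refine (ht0' s hs).trans ?_
      exact mul_le_mul_of_nonneg_left (hV.good (j + 1) _ (crit_Z (hTC hs)) ((hT s).1 hs).2) (wt_pos s).le
    refine ⟨fun s hs => ?_, lt_of_lt_of_le (by positivity) hgl, hren, ?_⟩
    · exact kapF_pos' (hV.nn (j + 1)) hx s (by rw [hTX]; exact hs)
    · rw [← hren]
      have hxT : x ∉ T := fun h => not_mem_C hX (hTC h)
      have hne : c0 ≠ x := fun h => hxT (h ▸ hc0)
      have he : (insert x T).erase c0 = insert x (T.erase c0) := by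
        rw [Finset.erase_insert_of_ne hne.symm]
      have hnod : (nod ((insert x T).erase c0)).eval c0 ^ 2 = |x - c0| ^ 2 * N := by
        rw [he, nod_eval, Finset.prod_insert (by simp [hxT]), ← nod_eval, mul_pow, sq_abs]
        ring
      rw [hnod, kapF_crit _ hX hc0C]
      have hd := abs_sub_pos hX hc0C
      have hom : σ.omF (V (j + 1)) c0 ≤ O := by
        unfold omF
        exact mul_le_mul_of_nonneg_left (hV.hi (j + 1) _ (crit_Z hc0C)) (wt_pos c0).le
      have hom0 : 0 ≤ σ.omF (V (j + 1)) c0 := omF_nn (hV.nn (j + 1)) c0 hc0C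
      have e1 : σ.omF (V (j + 1)) c0 / |x - c0| * (|x - c0| ^ 2 * N) = σ.omF (V (j + 1)) c0 * N * |x - c0| := by
        field_simp
      rw [e1]
      have h1 : η * (σ.omF (V (j + 1)) c0 * N * |x - c0|) ≤ η0 * (O * N * |x - c0|) := by
        apply mul_le_mul (min_le_left _ _) _ (by positivity) hη0p.le
        apply mul_le_mul_of_nonneg_right _ hd.le
        exact mul_le_mul_of_nonneg_right hom hN0.le
      have h2 : η0 * (O * N * |x - c0|) = (c / (c + w) * |x - c0|) * (os * t0) := by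
        rw [hη0]
        field_simp
      have h3 : c / (c + w) * |x - c0| ≤ V j x := by
        have h4 := far_crit hX hc0C
        have h5 := hV.lo j x hx
        have h6 := hV.good j x hx hxL
        have h7 := dl_nonneg hX
        rw [div_mul_eq_mul_div, div_le_iff₀ (by linarith)]
        rcases le_or_gt (σ.dl x) c with h8 | h8
        · nlinarith
        · nlinarith
      calc η * (σ.omF (V (j + 1)) c0 * N * |x - c0|) ≤ (c / (c + w) * |x - c0|) * (os * t0) := by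
            rw [← h2]; exact h1
        _ ≤ V j x * σ.ggF (V (j + 1)) i := by
            apply mul_le_mul h3 hgl (by positivity)
            exact hV.nn j x hx
  intro V W hV hW j D
  rintro ⟨m, M, hm, hMD, hmM⟩
  have hZ0 : ∃ x0 ∈ σ.Z, x0 ∉ L := by
    exact ⟨σ.f c0, crit_Z hc0C, ((hT c0).1 hc0).2⟩
  -- parent ratio at c0
  have hfc0 := ((hT c0).1 hc0).2
  have hVc := hV.good (j + 1) _ (crit_Z hc0C) hfc0
  have hWc := hW.good (j + 1) _ (crit_Z hc0C) hfc0
  have hVc0 : 0 < V (j + 1) (σ.f c0) := by linarith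
  have hWc0 : 0 < W (j + 1) (σ.f c0) := by linarith
  set s0 : ℝ := W (j + 1) (σ.f c0) / V (j + 1) (σ.f c0) with hs0
  have hs0p : 0 < s0 := div_pos hWc0 hVc0
  have hms : m ≤ s0 := by
    rw [hs0, le_div_iff₀ hVc0]; exact (hmM _ (crit_Z hc0C) hfc0).1
  have hsM : s0 ≤ M := by
    rw [hs0, div_le_iff₀ hVc0]; exact (hmM _ (crit_Z hc0C) hfc0).2
  have hM0 : 0 < M := lt_of_lt_of_le hs0p hsM
  have hWs : W (j + 1) (σ.f c0) = s0 * V (j + 1) (σ.f c0) := by
    rw [hs0, div_mul_cancel₀ _ hVc0.ne']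
  set a : ℝ := M - (M - s0) * η with ha
  set b : ℝ := 1 / m - (1 / m - 1 / s0) * η with hb
  have hsm : 1 / s0 ≤ 1 / m := one_div_le_one_div_of_le hm hms
  have ha0 : 0 < a := by
    rw [ha]
    have : (M - s0) * η ≤ (M - s0) * 1 := mul_le_mul_of_nonneg_left hη1 (by linarith)
    linarith
  have hb0 : 0 < b := by
    rw [hb]
    have h1 : (1 / m - 1 / s0) * η ≤ (1 / m - 1 / s0) * 1 := mul_le_mul_of_nonneg_left hη1 (by linarith)
    have : 0 < 1 / s0 := by positivity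
    linarith
  have hab : a * b ≤ (1 - η) * D + η := by
    have hMm : M / m ≤ D := by rw [div_le_iff₀ hm]; exact hMD
    have e1 : a * b = (M / m) * ((1 - (1 - s0 / M) * η) * (1 - (1 - m / s0) * η)) := by
      rw [ha, hb]
      field_simp
    have h1 := contr_alg (D := M / m) (α := s0 / M) (β := m / s0) hηp.le hη1
      ((div_le_one hM0).mpr hsM) ((div_le_one hs0p).mpr hms) (by field_simp) (by positivity)
    rw [e1]
    refine h1.trans ?_
    have : (1 - η) * (M / m) ≤ (1 - η) * D := mul_le_mul_of_nonneg_left hMm (by linarith)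
    linarith
  obtain ⟨x0, hx0, hx0L⟩ := hZ0
  have hgV := (key V hV j x0 hx0 hx0L).2.1
  have hgW := (key W hW j x0 hx0 hx0L).2.1
  set gV := σ.ggF (V (j + 1)) i with hgVd
  set gW := σ.ggF (W (j + 1)) i with hgWd
  refine ⟨gV / gW / b, gV / gW * a, by positivity, ?_, ?_⟩
  · have : gV / gW * a = a * b * (gV / gW / b) := by
      field_simp
    rw [this]
    exact mul_le_mul_of_nonneg_right hab (by positivity)
  · intro x hx hxL
    obtain ⟨hκV, _, hrenV, hηV⟩ := key V hV j x hx hxL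
    obtain ⟨hκW, _, hrenW, hηW⟩ := key W hW j x hx hxL
    have hX := X_Z hx
    have hxT : x ∉ T := fun h => not_mem_C hX (hTC h)
    have hcard : (insert x T).card = i + 1 := by rw [Finset.card_insert_of_notMem hxT, hTi]
    have hc0S : c0 ∈ insert x T := Finset.mem_insert_of_mem hc0
    -- weights comparison
    have hcomp : ∀ (V W : ℝ → ℝ) (M : ℝ), (∀ z ∈ σ.Z, z ∉ L → W z ≤ M * V z) →
        ∀ s ∈ insert x T, σ.kapF W x s ≤ M * σ.kapF V x s := by
      intro V W M h s hs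
      rcases Finset.mem_insert.mp hs with h1 | h1
      · rw [h1, kapF_self, kapF_self]
        have := mul_le_mul_of_nonneg_left (h _ (f_Z hx) (hL x hx hxL)) (gm_pos (σ := σ) hX).le
        linarith
      · have hsC := hTC h1
        rw [kapF_crit W hX hsC, kapF_crit V hX hsC, ← mul_div_assoc,
          div_le_div_iff_of_pos_right (abs_sub_pos hX hsC)]
        have := mul_le_mul_of_nonneg_left (h _ (crit_Z hsC) ((hT s).1 h1).2) (wt_pos (σ := σ) s).le
        unfold omF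
        linarith
    have hpt : ∀ (V W : ℝ → ℝ) (M : ℝ), W (σ.f c0) ≤ M * V (σ.f c0) →
        σ.kapF W x c0 ≤ M * σ.kapF V x c0 := by
      intro V W M h
      rw [kapF_crit W hX hc0C, kapF_crit V hX hc0C, ← mul_div_assoc,
        div_le_div_iff_of_pos_right (abs_sub_pos hX hc0C)]
      have := mul_le_mul_of_nonneg_left h (wt_pos (σ := σ) c0).le
      unfold omF
      linarith
    constructor
    · have h1 := strict_step hκW (fun s hs => (hκV s hs).le) hcard hc0S (M := 1 / m) (s0 := 1 / s0) (η := η)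
        (hcomp _ _ _ (fun z hz hzL => by
          have := (hmM z hz hzL).1
          rw [one_div, inv_mul_eq_div, le_div_iff₀ hm]; linarith))
        (hpt _ _ _ (by rw [hWs, one_div, inv_mul_cancel_left₀ hs0p.ne'])) hsm hηW
      rw [← hrenV, ← hrenW] at h1
      have h2 : gV / gW / b * V j x = (V j x * gV) / (gW * b) := by
        field_simp
      rw [h2, div_le_iff₀ (by positivity)]
      linarith
    · have h1 := strict_step hκV (fun s hs => (hκW s hs).le) hcard hc0S (M := M) (s0 := s0) (η := η)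
        (hcomp _ _ _ (fun z hz hzL => (hmM z hz hzL).2))
        (hpt _ _ _ hWs.le) hsM hηV
      rw [← hrenV, ← hrenW] at h1
      have h2 : gV / gW * a * V j x = (a * (V j x * gV)) / gW := by
        field_simp
      rw [h2, le_div_iff₀ hgW]
      exact h1

end Sys

end Pool.Agent.Helper368.BC
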