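import Mathlib
import Pool.Agent.Helper368.M2

open Polynomial Finset Filter Topology

namespace Pool.Agent.Helper368.BC
namespace Sys

variable {σ : Sys}

theorem RChain.bound {L : Set ℝ} {i : ℕ} {c : ℝ} (hc : 0 < c) {V W : ℕ → ℝ → ℝ} (hV : RChain σ L i c V)
    (hW : RChain σ L i c W) (j : ℕ) {x : ℝ} (hx : x ∈ σ.Z) (hxL : x ∉ L) :
    W j x ≤ (1 + (σ.B - σ.A) / c) * V j x := by
  have h1 := hV.lo j x hx
  have h2 := hW.hi j x hx
  have h3 := hV.good j x hx hxL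
  have h4 : σ.B - σ.A ≤ (σ.B - σ.A) / c * V j x := by
    rw [div_mul_eq_mul_div, le_div_iff₀ hc]
    have := w_pos (σ := σ)
    nlinarith
  linarith

/-- uniqueness of reduced chains -/
theorem FR {L : Set ℝ} {i : ℕ} {c : ℝ} (hc : 0 < c) (hL : ∀ x ∈ σ.Z, x ∉ L → σ.f x ∉ L)
    {T : Finset ℝ} (hT : ∀ t, t ∈ T ↔ t ∈ σ.C ∧ σ.f t ∉ L) (hTi : T.card = i) (hTn : T.Nonempty)
    (hLb : ∀ z ∈ σ.Z, z ∈ L → σ.dl z = 0)
    {V W : ℕ → ℝ → ℝ} (hV : RChain σ L i c V) (hW : RChain σ L i c W) : ∀ z ∈ σ.Z, z ∉ L → V 0 z = W 0 z := by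
  obtain ⟨c0, hc0⟩ := hTn
  obtain ⟨η, hη0, hη1, hstep⟩ := FR_step (σ := σ) hc hL hT hTi hc0
  set K : ℝ := 1 + (σ.B - σ.A) / c with hK
  have hK1 : 1 ≤ K := by
    have := div_pos (w_pos (σ := σ)) hc
    linarith
  -- iterate from level J down to level J - k
  have hiter : ∀ J k : ℕ, k ≤ J → ∃ m M : ℝ, 0 < m ∧ M ≤ (1 + (1 - η) ^ k * (K ^ 2 - 1)) * m ∧
      ∀ x ∈ σ.Z, x ∉ L → m * V (J - k) x ≤ W (J - k) x ∧ W (J - k) x ≤ M * V (J - k) x := by
    intro J k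
    induction k with
    | zero =>
      intro _
      refine ⟨1 / K, K, by positivity, ?_, ?_⟩
      · have : (1 + (1 - η) ^ 0 * (K ^ 2 - 1)) * (1 / K) = K := by
          field_simp
          ring
        rw [this]
      · intro x hx hxL
        have h1 := RChain.bound hc hV hW (J - 0) hx hxL
        have h2 := RChain.bound hc hW hV (J - 0) hx hxL
        refine ⟨?_, h1⟩
        rw [one_div, inv_mul_le_iff₀ (by linarith)]
        exact h2
    | succ k ih =>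
      intro hk
      obtain ⟨m, M, hm, hM, h1⟩ := ih (by omega)
      have e : J - k = (J - (k + 1)) + 1 := by omega
      rw [e] at h1
      obtain ⟨m', M', hm', hM', h2⟩ := hstep V W hV hW (J - (k + 1)) _ ⟨m, M, hm, hM, h1⟩
      refine ⟨m', M', hm', ?_, h2⟩
      have e2 : (1 - η) * (1 + (1 - η) ^ k * (K ^ 2 - 1)) + η = 1 + (1 - η) ^ (k + 1) * (K ^ 2 - 1) := by ring
      rw [← e2]
      exact hM'
  -- cross ratio inequality at level 0
  have hpos : ∀ z ∈ σ.Z, z ∉ L → 0 < V 0 z ∧ 0 < W 0 z := fun z hz hzL =>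
    ⟨lt_of_lt_of_le hc (hV.good 0 z hz hzL), lt_of_lt_of_le hc (hW.good 0 z hz hzL)⟩
  have hcross : ∀ x ∈ σ.Z, x ∉ L → ∀ y ∈ σ.Z, y ∉ L → W 0 x * V 0 y ≤ W 0 y * V 0 x := by
    intro x hx hxL y hy hyL
    have h1 : ∀ J : ℕ, W 0 x * V 0 y ≤ (1 + (1 - η) ^ J * (K ^ 2 - 1)) * (W 0 y * V 0 x) := by
      intro J
      obtain ⟨m, M, hm, hM, h2⟩ := hiter J J le_rfl
      rw [Nat.sub_self] at h2
      obtain ⟨p1, p2⟩ := hpos x hx hxL
      obtain ⟨p3, p4⟩ := hpos y hy hyL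
      have h3 := (h2 x hx hxL).2
      have h4 := (h2 y hy hyL).1
      set Dk : ℝ := 1 + (1 - η) ^ J * (K ^ 2 - 1) with hDk
      have hDk0 : 0 ≤ Dk := by
        have : 0 ≤ (1 - η) ^ J := pow_nonneg (by linarith) _
        have : 0 ≤ K ^ 2 - 1 := by nlinarith
        positivity
      calc W 0 x * V 0 y ≤ (M * V 0 x) * V 0 y := mul_le_mul_of_nonneg_right h3 p3.le
        _ ≤ ((Dk * m) * V 0 x) * V 0 y := by
            apply mul_le_mul_of_nonneg_right _ p3.le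
            exact mul_le_mul_of_nonneg_right hM p1.le
        _ = Dk * ((m * V 0 y) * V 0 x) := by ring
        _ ≤ Dk * (W 0 y * V 0 x) := by
            apply mul_le_mul_of_nonneg_left _ hDk0
            exact mul_le_mul_of_nonneg_right h4 p1.le
    have h2 : Tendsto (fun J : ℕ => (1 + (1 - η) ^ J * (K ^ 2 - 1)) * (W 0 y * V 0 x)) atTop
        (𝓝 ((1 + 0 * (K ^ 2 - 1)) * (W 0 y * V 0 x))) := by
      apply Tendsto.mul_const
      apply Tendsto.const_add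
      apply Tendsto.mul_const
      exact tendsto_pow_atTop_nhds_zero_of_lt_one (by linarith) (by linarith)
    have h3 := ge_of_tendsto' h2 h1
    rw [zero_mul, add_zero, one_mul] at h3
    exact h3
  have hcross' : ∀ x ∈ σ.Z, x ∉ L → ∀ y ∈ σ.Z, y ∉ L → W 0 x * V 0 y = W 0 y * V 0 x :=
    fun x hx hxL y hy hyL => le_antisymm (hcross x hx hxL y hy hyL) (hcross y hy hyL x hx hxL)
  intro z hz hzL
  obtain ⟨p1, p2⟩ := hpos z hz hzL
  have hw := w_pos (σ := σ)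
  -- far comparison
  have hfar : ∀ R : ℝ, 0 < R → V 0 z ≤ (1 + (σ.B - σ.A) / R) * W 0 z ∧ W 0 z ≤ (1 + (σ.B - σ.A) / R) * V 0 z := by
    intro R hR
    obtain ⟨y, hy, hyR⟩ := Z_unb (σ := σ) R
    have hyL : y ∉ L := by
      intro h
      have := hLb y hy h
      linarith
    obtain ⟨p3, p4⟩ := hpos y hy hyL
    have h1 := hcross' z hz hzL y hy hyL
    have hdl : 0 < σ.dl y := by linarith
    have hwR : σ.B - σ.A ≤ (σ.B - σ.A) / R * σ.dl y := by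
      rw [div_mul_eq_mul_div, le_div_iff₀ hR]
      nlinarith
    have a1 : V 0 y ≤ (1 + (σ.B - σ.A) / R) * W 0 y := by
      have h2 := hV.hi 0 y hy
      have h3 := hW.lo 0 y hy
      have h4 : (σ.B - σ.A) / R * σ.dl y ≤ (σ.B - σ.A) / R * W 0 y :=
        mul_le_mul_of_nonneg_left h3 (by positivity)
      linarith
    have a2 : W 0 y ≤ (1 + (σ.B - σ.A) / R) * V 0 y := by
      have h2 := hW.hi 0 y hy
      have h3 := hV.lo 0 y hy
      have h4 : (σ.B - σ.A) / R * σ.dl y ≤ (σ.B - σ.A) / R * V 0 y :=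
        mul_le_mul_of_nonneg_left h3 (by positivity)
      linarith
    constructor
    · -- W y * V z = W z * V y ≤ W z * k * W y
      have h5 : V 0 z * W 0 y ≤ ((1 + (σ.B - σ.A) / R) * W 0 z) * W 0 y := by
        calc V 0 z * W 0 y = W 0 z * V 0 y := by rw [h1]; ring
          _ ≤ W 0 z * ((1 + (σ.B - σ.A) / R) * W 0 y) := mul_le_mul_of_nonneg_left a1 p2.le
          _ = _ := by ring
      exact le_of_mul_le_mul_right h5 p4
    · have h5 : W 0 z * V 0 y ≤ ((1 + (σ.B - σ.A) / R) * V 0 z) * V 0 y := by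
        calc W 0 z * V 0 y = W 0 y * V 0 z := h1
          _ ≤ ((1 + (σ.B - σ.A) / R) * V 0 y) * V 0 z := mul_le_mul_of_nonneg_right a2 p1.le
          _ = _ := by ring
      exact le_of_mul_le_mul_right h5 p3
  have hlim : Tendsto (fun R : ℝ => 1 + (σ.B - σ.A) / R) atTop (𝓝 1) := by
    have := (tendsto_const_nhds (x := σ.B - σ.A)).div_atTop (tendsto_id (α := ℝ) (x := atTop))
    have h2 := this.const_add 1
    simpa using h2
  apply le_antisymm
  · have h1 : Tendsto (fun R : ℝ => (1 + (σ.B - σ.A) / R) * W 0 z) atTop (𝓝 (1 * W 0 z)) := hlim.mul_const _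
    rw [one_mul] at h1
    refine ge_of_tendsto h1 ?_
    filter_upwards [eventually_gt_atTop 0] with R hR
    exact (hfar R hR).1
  · have h1 : Tendsto (fun R : ℝ => (1 + (σ.B - σ.A) / R) * V 0 z) atTop (𝓝 (1 * V 0 z)) := hlim.mul_const _
    rw [one_mul] at h1
    refine ge_of_tendsto h1 ?_
    filter_upwards [eventually_gt_atTop 0] with R hR
    exact (hfar R hR).2

/-- reduced chains -/
structure RC (σ : Sys) (L : Set ℝ) (c0 : ℝ) (V : ℕ → ℝ → ℝ) : Prop where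
  zero : ∀ j, ∀ z ∈ σ.Z, z ∈ L → V j z = 0
  hv : ∀ j, ∀ z ∈ σ.Z, z ∉ L → c0 ≤ V j z
  lo : ∀ j, ∀ z ∈ σ.Z, σ.dl z ≤ V j z
  hi : ∀ j, ∀ z ∈ σ.Z, V j z ≤ σ.dl z + (σ.B - σ.A)
  far : ∀ j, ∀ x ∈ σ.Z, σ.dl x ≤ hh (insert x σ.C) (σ.kapF (V j) x) 0
  ren : ∀ j, ∀ x ∈ σ.Z, V j x * σ.ggF (V (j + 1)) (σ.TV (V (j + 1))).card =
    hh (insert x σ.C) (σ.kapF (V (j + 1)) x) (σ.TV (V (j + 1))).card

theorem rc_unique (σ : Sys) {L : Set ℝ} {c0 : ℝ} (hc0 : 0 < c0) (hfL : ∀ x ∈ σ.Z, x ∉ L → σ.f x ∉ L)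
    {V V' : ℕ → ℝ → ℝ} (h : RC σ L c0 V) (h' : RC σ L c0 V') : ∀ z ∈ σ.Z, V 0 z = V' 0 z := by
  classical
  set T : Finset ℝ := σ.C.filter (fun c => σ.f c ∉ L) with hT
  have hTm : ∀ t, t ∈ T ↔ t ∈ σ.C ∧ σ.f t ∉ L := fun t => by rw [hT, Finset.mem_filter]
  have hLb : ∀ z ∈ σ.Z, z ∈ L → σ.dl z = 0 := by
    intro z hz hzL
    have h1 := h.lo 0 z hz
    rw [h.zero 0 z hz hzL] at h1
    exact le_antisymm h1 (dl_nonneg (X_Z hz))
  have hTn : T.Nonempty := by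
    obtain ⟨c, hc, h1, h2⟩ := σ.hyp
    refine ⟨c, (hTm c).2 ⟨hc, fun h3 => ?_⟩⟩
    have h4 := dl_pos (X_crit hc) h1 h2
    have := hLb _ (crit_Z hc) h3
    linarith
  have conv : ∀ V : ℕ → ℝ → ℝ, RC σ L c0 V → RChain σ L T.card c0 V := by
    intro V hV
    refine ⟨fun j z hz => ?_, hV.lo, hV.hi, hV.zero, hV.hv, fun j x hx hxL => ?_⟩
    · exact (dl_nonneg (X_Z hz)).trans (hV.lo j z hz)
    · have h1 := TV_eq (V := V (j + 1)) hc0 (hV.zero (j + 1)) (hV.hv (j + 1))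
      have h2 := hV.ren j x hx
      rw [h1] at h2
      exact h2
  intro z hz
  by_cases hzL : z ∈ L
  · rw [h.zero 0 z hz hzL, h'.zero 0 z hz hzL]
  · exact FR hc0 hfL hTm rfl hTn hLb (conv V h) (conv V' h') z hz hzL

end Sys

end Pool.Agent.Helper368.BC
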