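import Pool.Agent.Helper368.N4
import Pool.Agent.Helper368.Bel.JB
import Pool.Agent.Helper368.Bel.JG
import Pool.Agent.Helper368.Bel.JI
import Pool.Agent.Helper368.Bel.JJ
import Pool.Agent.Helper368.Bel.JL
import Pool.Agent.Helper368.Bel.JM
import Pool.Agent.Helper368.Bel.JN

open Polynomial MeasureTheory Filter Topology
open Pool.Agent.Helper368.Bel (RD CF OS KK Bal NN Om MM Cr kap kinf FF HH mn)

namespace Pool.Agent.Helper368.Glue

variable {μ : Measure ℝ} {ξ η : ℝ} {P : ℕ → ℝ[X]} {g : ℝ[X]}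

theorem mn_eq_hh (U : Finset ℝ) (w : ℝ → ℝ) (j : ℕ) : mn U w j = BC.hh U w j := by
  unfold mn BC.hh BC.sq BC.MD
  congr 1
  ext t
  simp only [Set.mem_ofPred_eq, Set.mem_image]
  constructor
  · rintro ⟨q, h1, h2, h3⟩
    exact ⟨q, ⟨h1, h2⟩, h3.symm⟩
  · rintro ⟨q, ⟨h1, h2⟩, h3⟩
    exact ⟨q, h1, h2, h3.symm⟩

/-- the full variational formula -/
theorem vf_all (hR : RD g ξ η) (h : OS μ ξ η P) (hK : μ (KK g ξ η)ᶜ = 0) (hbal : Bal g μ) :
    ∀ n s z, s < g.natDegree → z ∉ Set.Ioo ξ η →
      |NN P (n * g.natDegree + s) z| * HH g (fun x => |NN P n x|) s = FF g (fun x => |NN P n x|) s z := by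
  have hC := Bel.CF_of_RD hR
  have hdeg := hR.deg
  have hej : ∀ p : ℝ[X], 1 ≤ p.natDegree → Multiset.card p.roots = p.natDegree → p.roots.Nodup →
      ∀ r : ℝ[X], r.natDegree < p.natDegree → ∑ y ∈ p.roots.toFinset, r.eval y / p.derivative.eval y =
        r.coeff (p.natDegree - 1) / p.leadingCoeff := fun p h1 h2 h3 r hr => Bel.ej h1 h2 h3 r hr
  apply Bel.sys_vf hR hC h (fun n => Bel.Om_pos hR hC h n) (fun z hz => Bel.gz_notin hR hC hz)
  apply Bel.vf hR hC h hej
  intro n s hs1 hs2
  have hu : ∀ c ∈ g.derivative.roots, 0 < -(NN P n (g.eval c)) / g.derivative.derivative.eval c := by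
    intro c hc
    have h1 := Bel.Om_pos hR hC h n c hc
    unfold Om at h1
    have hd : (0:ℝ) < g.natDegree := by exact_mod_cast (by omega : 0 < g.natDegree)
    have e : -(g.natDegree * NN P n (g.eval c)) / g.derivative.derivative.eval c
        = g.natDegree * (-(NN P n (g.eval c)) / g.derivative.derivative.eval c) := by ring
    rw [e] at h1
    exact (pos_iff_pos_of_mul_pos h1).1 hd
  obtain ⟨A, B, hA, dA, dB, h1, h2⟩ := Bel.exists_AB hR hC Bel.disc_op hej (fun c => NN P n (g.eval c)) hu s hs1 hs2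
  have h1' : ∀ c ∈ g.derivative.roots,
      A.eval c * (P (n + 1)).eval (g.eval c) + B.eval c * (P n).eval (g.eval c) = 0 := by
    intro c hc
    have h3 := h1 c hc
    have h4 := h.P_ne n (Bel.gc_notin hR hC hc)
    unfold NN at h3
    have h5 : (A.eval c * ((P (n + 1)).eval (g.eval c) / (P n).eval (g.eval c)) + B.eval c) *
        (P n).eval (g.eval c) = 0 := by rw [h3, zero_mul]
    rw [add_mul, mul_assoc, div_mul_cancel₀ _ h4] at h5
    exact h5
  refine ⟨A, B, hA, dA, dB, h1', ?_, ?_⟩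
  · intro r hr
    have h3 := h2 r hr
    have h4 : ∑ c ∈ g.derivative.roots.toFinset, Om g P n c * (A.eval c * r.eval c) = g.natDegree *
      ∑ c ∈ g.derivative.roots.toFinset,
          -(NN P n (g.eval c)) / g.derivative.derivative.eval c * (A.eval c * r.eval c) := by
      rw [Finset.mul_sum]
      apply Finset.sum_congr rfl
      intro c _
      unfold Om
      ring
    rw [h4, h3, mul_zero]
  · exact Bel.block_formula hR hC h hK hbal (fun q hq => Bel.ej_const g (by omega) q hq) n s hs1 hs2 A B hA dA dB h1'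

theorem lc_ne (hR : RD g ξ η) : g.leadingCoeff ≠ 0 := Bel.svf_lead_ne hR

theorem deg_pos (hR : RD g ξ η) : (0:ℝ) < g.natDegree := by
  have := hR.deg
  exact_mod_cast (by omega : 0 < g.natDegree)

theorem deriv_eq (hR : RD g ξ η) (hC : CF g ξ η) :
    g.derivative = C (g.leadingCoeff * g.natDegree) * BC.nod (Cr g) := by
  have h1 : g.derivative.natDegree = g.natDegree - 1 := Polynomial.natDegree_derivative g
  have h2 : Multiset.card g.derivative.roots = g.derivative.natDegree := by rw [h1]; exact hC.card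
  have h3 := C_leadingCoeff_mul_prod_multiset_X_sub_C h2
  have h4 : g.derivative.leadingCoeff = g.leadingCoeff * g.natDegree :=
    Polynomial.leadingCoeff_derivative g
  rw [h4] at h3
  conv_lhs => rw [← h3]
  congr 1
  unfold BC.nod Cr
  rw [Finset.prod, Multiset.toFinset_val, Multiset.dedup_eq_self.mpr hC.nodup]

theorem deriv_eval (hR : RD g ξ η) (hC : CF g ξ η) (z : ℝ) :
    g.derivative.eval z = g.leadingCoeff * g.natDegree * (BC.nod (Cr g)).eval z := by
  conv_lhs => rw [deriv_eq hR hC]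
  rw [eval_mul, eval_C]

theorem mem_Cr (hR : RD g ξ η) {c : ℝ} : c ∈ Cr g ↔ c ∈ g.derivative.roots := Multiset.mem_toFinset

theorem deriv2_eval (hR : RD g ξ η) (hC : CF g ξ η) {c : ℝ} (hc : c ∈ Cr g) :
    g.derivative.derivative.eval c = g.leadingCoeff * g.natDegree * (BC.nod ((Cr g).erase c)).eval c := by
  have h1 : BC.nod (Cr g) = (X - C c) * BC.nod ((Cr g).erase c) := by
    unfold BC.nod
    exact (Finset.mul_prod_erase (Cr g) (fun s => X - C s) hc).symm
  conv_lhs => rw [deriv_eq hR hC, h1]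
  simp only [derivative_mul, derivative_C, zero_mul, zero_add, derivative_sub, derivative_X, sub_zero, one_mul,
    eval_mul, eval_add, eval_C, eval_sub, eval_X, sub_self, add_zero]

theorem Cr_card (hR : RD g ξ η) (hC : CF g ξ η) : (Cr g).card + 1 = g.natDegree := by
  unfold Cr
  rw [Multiset.toFinset_card_of_nodup hC.nodup, hC.card]
  have := hR.deg
  omega

theorem notin {x : ℝ} (h : x ≤ ξ ∨ η ≤ x) : x ∉ Set.Ioo ξ η := by
  rintro ⟨h1, h2⟩
  rcases h with h | h <;> linarith

theorem side_crit (hR : RD g ξ η) (hC : CF g ξ η) : ∀ c ∈ Cr g,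
    (0 < g.leadingCoeff * (BC.nod ((Cr g).erase c)).eval c ∧ g.eval c ≤ ξ) ∨
    (g.leadingCoeff * (BC.nod ((Cr g).erase c)).eval c < 0 ∧ η ≤ g.eval c) := by
  intro c hc
  have hc' := (mem_Cr hR).1 hc
  have h1 := deriv2_eval hR hC hc
  have hd := deg_pos hR
  rcases lt_or_gt_of_ne (hC.snd c hc') with h2 | h2
  · right
    have h3 := hC.sign c hc' η hR.right
    refine ⟨?_, ?_⟩
    · rw [h1] at h2
      have e : g.leadingCoeff * g.natDegree * (BC.nod ((Cr g).erase c)).eval c
        = g.natDegree * (g.leadingCoeff * (BC.nod ((Cr g).erase c)).eval c) := by ring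
      rw [e] at h2
      by_contra hcon
      rw [not_lt] at hcon
      have := mul_nonneg hd.le hcon
      linarith
    · by_contra hcon
      push Not at hcon
      have := mul_pos_of_neg_of_neg (sub_neg.2 hcon) h2
      linarith
  · left
    have h3 := hC.sign c hc' ξ hR.left
    refine ⟨?_, ?_⟩
    · rw [h1] at h2
      have e : g.leadingCoeff * g.natDegree * (BC.nod ((Cr g).erase c)).eval c
        = g.natDegree * (g.leadingCoeff * (BC.nod ((Cr g).erase c)).eval c) := by ring
      rw [e] at h2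
      exact (pos_iff_pos_of_mul_pos h2).1 hd
    · by_contra hcon
      push Not at hcon
      have := mul_pos (sub_pos.2 hcon) h2
      linarith

theorem side_B (hR : RD g ξ η) (hC : CF g ξ η) : ∀ x, η ≤ x →
    (0 < g.leadingCoeff * (BC.nod (Cr g)).eval x ∧ η ≤ g.eval x) ∨
    (g.leadingCoeff * (BC.nod (Cr g)).eval x < 0 ∧ g.eval x ≤ ξ) := by
  intro x hx
  have ha := lc_ne hR
  have key : ∀ t ∈ KK g ξ η, 0 ≤ g.leadingCoeff * (g.eval x - t) := by
    intro t ht
    rcases hx.lt_or_eq with h1 | h1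
    · exact (hC.right x h1 t ht).le
    · subst h1
      have hcont : Continuous fun x => g.leadingCoeff * (g.eval x - t) :=
        continuous_const.mul (g.continuous.sub continuous_const)
      have ht' : Tendsto (fun x => g.leadingCoeff * (g.eval x - t)) (𝓝[>] η)
          (𝓝 (g.leadingCoeff * (g.eval η - t))) :=
        (hcont.tendsto η).mono_left nhdsWithin_le_nhds
      exact ge_of_tendsto ht' (eventually_nhdsWithin_of_forall fun x hx => (hC.right x hx t ht).le)
  have hpos : 0 < (BC.nod (Cr g)).eval x := by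
    rw [BC.nod_eval]
    apply Finset.prod_pos
    intro c hc
    have := (hC.mem c ((mem_Cr hR).1 hc)).2
    linarith
  rcases lt_or_gt_of_ne ha with h1 | h1
  · right
    refine ⟨mul_neg_of_neg_of_pos h1 hpos, ?_⟩
    have := key ξ hR.left
    by_contra hcon
    rw [not_le] at hcon
    have := mul_neg_of_neg_of_pos h1 (sub_pos.2 hcon)
    linarith
  · left
    refine ⟨mul_pos h1 hpos, ?_⟩
    have := key η hR.right
    by_contra hcon
    rw [not_le] at hcon
    have := mul_neg_of_pos_of_neg h1 (sub_neg.2 hcon)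
    linarith

theorem side_A (hR : RD g ξ η) (hC : CF g ξ η) : ∀ x, x ≤ ξ →
    (0 < g.leadingCoeff * (BC.nod (Cr g)).eval x ∧ g.eval x ≤ ξ) ∨
    (g.leadingCoeff * (BC.nod (Cr g)).eval x < 0 ∧ η ≤ g.eval x) := by
  intro x hx
  have ha := lc_ne hR
  set b : ℝ := (-1) ^ g.natDegree * g.leadingCoeff with hb
  have hb0 : b ≠ 0 := mul_ne_zero (pow_ne_zero _ (by norm_num)) ha
  have key : ∀ t ∈ KK g ξ η, 0 ≤ b * (g.eval x - t) := by
    intro t ht
    rcases hx.lt_or_eq with h1 | h1
    · exact (hC.left x h1 t ht).le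
    · subst h1
      have hcont : Continuous fun y => b * (g.eval y - t) :=
        continuous_const.mul (g.continuous.sub continuous_const)
      have ht' : Tendsto (fun y => b * (g.eval y - t)) (𝓝[<] x)
          (𝓝 (b * (g.eval x - t))) :=
        (hcont.tendsto x).mono_left nhdsWithin_le_nhds
      exact ge_of_tendsto ht' (eventually_nhdsWithin_of_forall fun y hy => (hC.left y hy t ht).le)
  have hneg : 0 < (-1) ^ (Cr g).card * (BC.nod (Cr g)).eval x := by
    rw [BC.nod_eval, ← Finset.prod_const, ← Finset.prod_mul_distrib]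
    apply Finset.prod_pos
    intro c hc
    have := (hC.mem c ((mem_Cr hR).1 hc)).1
    linarith
  have hcard := Cr_card hR hC
  have hprod : b * (g.leadingCoeff * (BC.nod (Cr g)).eval x) < 0 := by
    have e : b * (g.leadingCoeff * (BC.nod (Cr g)).eval x)
        = -(g.leadingCoeff ^ 2 * ((-1) ^ (Cr g).card * (BC.nod (Cr g)).eval x)) := by
      rw [hb, ← hcard, pow_succ]
      ring
    rw [e]
    have : 0 < g.leadingCoeff ^ 2 := by positivity
    have := mul_pos this hneg
    linarith
  rcases lt_or_gt_of_ne hb0 with h1 | h1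
  · left
    refine ⟨by_contra fun hcon => ?_, ?_⟩
    · rw [not_lt] at hcon
      have := mul_nonneg_of_nonpos_of_nonpos h1.le hcon
      linarith
    · have := key ξ hR.left
      by_contra hcon
      rw [not_le] at hcon
      have := mul_neg_of_neg_of_pos h1 (sub_pos.2 hcon)
      linarith
  · right
    refine ⟨by_contra fun hcon => ?_, ?_⟩
    · rw [not_lt] at hcon
      have := mul_nonneg h1.le hcon
      linarith
    · have := key η hR.right
      by_contra hcon
      rw [not_le] at hcon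
      have := mul_neg_of_pos_of_neg h1 (sub_neg.2 hcon)
      linarith

theorem rho_eq (hlt : ξ < η) {x : ℝ} (hx : x ≤ ξ ∨ η ≤ x) :
    Bel.rho ξ η x = 1 + max (x - η) (ξ - x) / (η - ξ) := by
  unfold Bel.rho
  have hw : 0 < η - ξ := by linarith
  rw [eq_comm, one_add_div hw.ne']
  congr 1
  rcases hx with h | h
  · rw [max_eq_right (by linarith : x - η ≤ ξ - x), abs_of_nonpos (by linarith : x - ξ ≤ 0),
      abs_of_nonpos (by linarith : x - η ≤ 0), max_eq_right (by linarith)]
    ring
  · rw [max_eq_left (by linarith : ξ - x ≤ x - η), abs_of_nonneg (by linarith : 0 ≤ x - ξ),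
      abs_of_nonneg (by linarith : 0 ≤ x - η), max_eq_left (by linarith)]
    ring

theorem side (hR : RD g ξ η) (hC : CF g ξ η) {x : ℝ} (hx : x ≤ ξ ∨ η ≤ x) : g.eval x ≤ ξ ∨ η ≤ g.eval x := by
  rcases hx with h | h
  · rcases side_A hR hC x h with h1 | h1
    · exact Or.inl h1.2
    · exact Or.inr h1.2
  · rcases side_B hR hC x h with h1 | h1
    · exact Or.inr h1.2
    · exact Or.inl h1.2

theorem expand (hR : RD g ξ η) (hC : CF g ξ η) {x : ℝ} (hx : x ≤ ξ ∨ η ≤ x) :
    2 * max (x - η) (ξ - x) ≤ max (g.eval x - η) (ξ - g.eval x) := by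
  have h1 := Bel.rho_growth hR hC (notin hx)
  have hlt := hR.lt
  rw [rho_eq hlt hx, rho_eq hlt (side hR hC hx)] at h1
  have hw : 0 < η - ξ := by linarith
  set a := max (x - η) (ξ - x) with ha
  set b := max (g.eval x - η) (ξ - g.eval x) with hb
  have ha0 : 0 ≤ a := by
    rcases hx with h | h
    · exact le_trans (by linarith) (le_max_right _ _)
    · exact le_trans (by linarith) (le_max_left _ _)
  have h2 : 1 + (g.natDegree : ℝ) * (a / (η - ξ)) ≤ (1 + a / (η - ξ)) ^ g.natDegree := by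
    apply one_add_mul_le_pow
    have : 0 ≤ a / (η - ξ) := div_nonneg ha0 hw.le
    linarith
  have h3 : (g.natDegree : ℝ) * (a / (η - ξ)) ≤ b / (η - ξ) := by linarith
  rw [← mul_div_assoc, div_le_div_iff_of_pos_right hw] at h3
  have hdeg : (2:ℝ) ≤ g.natDegree := by exact_mod_cast hR.deg
  nlinarith

theorem end_val (hR : RD g ξ η) (hC : CF g ξ η) {e : ℝ} (he : e = ξ ∨ e = η) : g.eval e = ξ ∨ g.eval e = η := by
  have hmem : e ∈ KK g ξ η := by rcases he with rfl | rfl; exacts [hR.left, hR.right]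
  have hI := Bel.eval_mem_Icc_of_KK hmem
  have hx : e ≤ ξ ∨ η ≤ e := by rcases he with rfl | rfl; exacts [Or.inl le_rfl, Or.inr le_rfl]
  rcases side hR hC hx with h | h
  · left; exact le_antisymm h hI.1
  · right; exact le_antisymm hI.2 h

theorem NN_abs_right (h : OS μ ξ η P) (n : ℕ) {x : ℝ} (hx : η ≤ x) : |NN P n x| = NN P n x :=
  abs_of_pos (h.NN_right n hx).1

theorem NN_abs_left (h : OS μ ξ η P) (n : ℕ) {x : ℝ} (hx : x ≤ ξ) : |NN P n x| = -NN P n x :=
  abs_of_neg (h.NN_left n hx).1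

theorem kap_eq (hR : RD g ξ η) (hC : CF g ξ η) {x t : ℝ} (hx : x ≤ ξ ∨ η ≤ x) (ht : t ∈ insert x (Cr g)) (v : ℝ → ℝ) :
    kap g x t * v (g.eval t) = (if t = x then |g.leadingCoeff|⁻¹ / |(BC.nod (Cr g)).eval x| * v (g.eval x)
      else |g.leadingCoeff|⁻¹ / |(BC.nod ((Cr g).erase t)).eval t| * v (g.eval t) / |x - t|) := by
  have hd := deg_pos hR
  have ha := abs_pos.2 (lc_ne hR)
  unfold kap
  split_ifs with h1
  · rw [h1, deriv_eval hR hC, abs_mul, abs_mul, Nat.abs_cast]
    have hx' : x ∉ Cr g := by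
      intro hc
      exact notin hx (hC.mem x ((mem_Cr hR).1 hc))
    have h2 := abs_pos.2 (BC.nod_eval_ne hx')
    congr 1
    field_simp
  · have ht' : t ∈ Cr g := by
      rcases Finset.mem_insert.1 ht with h2 | h2
      · exact absurd h2 h1
      · exact h2
    rw [deriv2_eval hR hC ht', abs_mul, abs_mul, Nat.abs_cast]
    have h2 : 0 < |(BC.nod ((Cr g).erase t)).eval t| := abs_pos.2 (BC.nod_eval_ne (by simp))
    have h3 : 0 < |x - t| := by
      rw [abs_pos]
      intro h
      exact h1 (by linarith)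
    field_simp

theorem kinf_eq (hR : RD g ξ η) (hC : CF g ξ η) {t : ℝ} (ht : t ∈ Cr g) (v : ℝ → ℝ) :
    kinf g t * v (g.eval t) = |g.leadingCoeff|⁻¹ / |(BC.nod ((Cr g).erase t)).eval t| * v (g.eval t) := by
  have hd := deg_pos hR
  have ha := abs_pos.2 (lc_ne hR)
  unfold kinf
  rw [deriv2_eval hR hC ht, abs_mul, abs_mul, Nat.abs_cast]
  have h2 : 0 < |(BC.nod ((Cr g).erase t)).eval t| := abs_pos.2 (BC.nod_eval_ne (by simp))
  congr 1
  field_simp

/-- the abstract system of a real polynomial -/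
noncomputable def mkSys (hR : RD g ξ η) (h : OS μ ξ η P) (hK : μ (KK g ξ η)ᶜ = 0) (hbal : Bal g μ)
    (hA : g.eval (g.eval ξ) = g.eval ξ) (hB : g.eval (g.eval η) = g.eval η) : BC.Sys where
  d := g.natDegree
  hd := hR.deg
  A := ξ
  B := η
  hAB := hR.lt
  f := fun x => g.eval x
  C := Cr g
  hC := Cr_card hR (Bel.CF_of_RD hR)
  hCA := fun c hc => ((Bel.CF_of_RD hR).mem c ((mem_Cr hR).1 hc)).1
  hCB := fun c hc => ((Bel.CF_of_RD hR).mem c ((mem_Cr hR).1 hc)).2
  al := |g.leadingCoeff|⁻¹
  hal := inv_pos.2 (abs_pos.2 (lc_ne hR))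
  sg := g.leadingCoeff
  side_crit := side_crit hR (Bel.CF_of_RD hR)
  side_B := side_B hR (Bel.CF_of_RD hR)
  side_A := side_A hR (Bel.CF_of_RD hR)
  expand := fun x hx => expand hR (Bel.CF_of_RD hR) hx
  fA := end_val hR (Bel.CF_of_RD hR) (Or.inl rfl)
  fB := end_val hR (Bel.CF_of_RD hR) (Or.inr rfl)
  idA := hA
  idB := hB
  hyp := by
    obtain ⟨c, hc, h1⟩ := Bel.exists_escape hR (Bel.CF_of_RD hR)
    refine ⟨c, hc, fun h2 => h1 ?_, fun h2 => h1 ?_⟩
    · show g.eval c ∈ Set.Icc ξ η
      rw [show g.eval c = ξ from h2]; exact ⟨le_rfl, hR.lt.le⟩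
    · show g.eval c ∈ Set.Icc ξ η
      rw [show g.eval c = η from h2]; exact ⟨hR.lt.le, le_rfl⟩
  u := fun n x => |NN P n x|
  u_pos := by
    intro n x hx
    rcases hx with hx | hx
    · rw [NN_abs_left h n hx]; linarith [(h.NN_left n hx).1]
    · rw [NN_abs_right h n hx]; exact (h.NN_right n hx).1
  u_lo := by
    intro n x hx
    have hlt := hR.lt
    rcases hx with hx | hx
    · rw [NN_abs_left h n hx, max_eq_right (by linarith)]; exact (h.NN_left n hx).2.1
    · rw [NN_abs_right h n hx, max_eq_left (by linarith)]; exact (h.NN_right n hx).2.1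
  u_hi := by
    intro n x hx
    have hlt := hR.lt
    rcases hx with hx | hx
    · rw [NN_abs_left h n hx, max_eq_right (by linarith)]; linarith [(h.NN_left n hx).2.2]
    · rw [NN_abs_right h n hx, max_eq_left (by linarith)]; linarith [(h.NN_right n hx).2.2]
  u_B := by
    intro n x y hx hxy
    rw [NN_abs_right h n hx, NN_abs_right h n (hx.trans hxy)]
    exact h.NN_mono_right n hx hxy
  u_A := by
    intro n x y hxy hx
    rw [NN_abs_left h n hx, NN_abs_left h n (hxy.trans hx)]
    linarith [h.NN_mono_left n hxy hx]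
  renorm0 := by
    intro n x hx
    have h1 := vf_all hR h hK hbal n 0 x (by have := hR.deg; omega) (notin hx)
    unfold HH FF at h1
    rw [if_pos rfl, mul_one, add_zero, mul_comm n, mn_eq_hh] at h1
    rw [h1]
    apply BC.hh_congr
    intro t ht
    exact kap_eq hR (Bel.CF_of_RD hR) hx ht (fun x => |NN P n x|)
  renorm1 := by
    intro n i x hi hx
    have h1 := vf_all hR h hK hbal n (i + 1) x hi (notin hx)
    unfold HH FF at h1
    rw [if_neg (Nat.succ_ne_zero i), mul_comm n, mn_eq_hh, mn_eq_hh, Nat.add_sub_cancel] at h1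
    have e1 : BC.hh (Cr g) (fun u => kinf g u * |NN P n (g.eval u)|) i = BC.hh (Cr g) (fun c =>
        |g.leadingCoeff|⁻¹ / |(BC.nod ((Cr g).erase c)).eval c| * |NN P n (g.eval c)|) i := by
      apply BC.hh_congr
      intro t ht
      exact kinf_eq hR (Bel.CF_of_RD hR) ht (fun x => |NN P n x|)
    rw [e1] at h1
    rw [h1]
    apply BC.hh_congr
    intro t ht
    exact kap_eq hR (Bel.CF_of_RD hR) hx ht (fun x => |NN P n x|)

end Pool.Agent.Helper368.Glue
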