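import Mathlib

open Filter Topology

namespace Pool.Agent.Helper368.Glue

theorem H_lip {α β α' β' : ℝ} (h1 : 1 ≤ α) (h2 : 1 ≤ β) (h3 : 1 ≤ α') (h4 : 1 ≤ β') :
    |α' * β' / (α' + β') - α * β / (α + β)| ≤ |α' - α| + |β' - β| := by
  have e : α' * β' / (α' + β') - α * β / (α + β) =
      (β * β' / ((α + β) * (α' + β'))) * (α' - α) + (α * α' / ((α + β) * (α' + β'))) * (β' - β) := by
    field_simp
    ring
  rw [e]
  refine (abs_add_le _ _).trans ?_
  rw [abs_mul, abs_mul]
  have hp : 0 < (α + β) * (α' + β') := by positivity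
  have k1 : |β * β' / ((α + β) * (α' + β'))| ≤ 1 := by
    rw [abs_of_nonneg (by positivity), div_le_one hp]
    nlinarith
  have k2 : |α * α' / ((α + β) * (α' + β'))| ≤ 1 := by
    rw [abs_of_nonneg (by positivity), div_le_one hp]
    nlinarith
  have := abs_nonneg (α' - α)
  have := abs_nonneg (β' - β)
  nlinarith

theorem H_le {α β w : ℝ} (h1 : 1 ≤ α) (h2 : 1 ≤ β) (h3 : α ≤ 1 + w) :
    0 ≤ α * β / (α + β) ∧ α * β / (α + β) ≤ 1 + w := by
  have hp : 0 < α + β := by linarith
  refine ⟨by positivity, ?_⟩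
  rw [div_le_iff₀ hp]
  nlinarith

theorem recover {up uq b y : ℕ → ℝ} {p q w : ℝ} (hw : 0 < w) (hpq : p - q = 2 + w)
    (b1 : ∀ n, 1 ≤ up n) (b2 : ∀ n, up n ≤ 1 + w) (b3 : ∀ n, 1 ≤ uq n) (b4 : ∀ n, uq n ≤ 1 + w)
    (h0 : up 0 = p - b 0) (h0' : uq 0 = b 0 - q)
    (hs : ∀ n, up (n + 1) = p - b (n + 1) - y n / up n)
    (hs' : ∀ n, uq (n + 1) = b (n + 1) - q - y n / uq n)
    (hmain : ∀ ε : ℝ, 0 < ε → ∃ N : ℕ, 1 ≤ N ∧ ∀ n k : ℕ, |up (n + N * k) / up n - 1| ≤ ε ∧
      |uq (n + N * k) / uq n - 1| ≤ ε) :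
    ∀ ε : ℝ, 0 < ε → ∃ N : ℕ, 1 ≤ N ∧ ∀ n k : ℕ, |b (n + N * k) - b n| ≤ ε ∧ |y (n + N * k) - y n| ≤ ε := by
  intro ε hε
  set D : ℝ := 2 + w with hD
  have hy : ∀ n, y n = (D - up (n + 1) - uq (n + 1)) * (up n * uq n / (up n + uq n)) := by
    intro n
    have h1 := hs n
    have h2 := hs' n
    have h3 := b1 n
    have h4 := b3 n
    have h5 : up (n + 1) + uq (n + 1) = p - q - y n * (1 / up n + 1 / uq n) := by
      rw [h1, h2]; ring
    rw [hpq] at h5
    have h6 : D - up (n + 1) - uq (n + 1) = y n * (1 / up n + 1 / uq n) := by linarith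
    rw [h6]
    field_simp
    ring
  have hb : ∀ n, b (n + 1) = p - up (n + 1) - y n / up n := by
    intro n
    linarith [hs n]
  -- bounds
  have hDb : ∀ n, |D - up n - uq n| ≤ 2 * D := by
    intro n
    rw [abs_le]
    have := b1 n; have := b2 n; have := b3 n; have := b4 n
    constructor <;> linarith
  have hyb : ∀ n, |y n| ≤ 2 * D * D := by
    intro n
    rw [hy, abs_mul]
    have h1 := H_le (b1 n) (b3 n) (b2 n)
    rw [abs_of_nonneg h1.1]
    have h2 := hDb (n + 1)
    have : (0:ℝ) ≤ 2 * D := by rw [hD]; linarith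
    calc |D - up (n + 1) - uq (n + 1)| * (up n * uq n / (up n + uq n)) ≤ 2 * D * (1 + w) :=
          mul_le_mul h2 h1.2 h1.1 this
      _ ≤ 2 * D * D := by rw [hD]; nlinarith
  set M : ℝ := 100 * D ^ 3 with hM
  have hD2 : 2 ≤ D := by rw [hD]; linarith
  have hM1 : 1 ≤ M := by
    rw [hM]
    have : (8:ℝ) ≤ D ^ 3 := by
      calc (8:ℝ) = 2 ^ 3 := by norm_num
        _ ≤ D ^ 3 := pow_le_pow_left₀ (by norm_num) hD2 3
    linarith
  obtain ⟨N, hN, hN2⟩ := hmain (ε / (M * D)) (by positivity)
  refine ⟨N, hN, ?_⟩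
  set δ : ℝ := ε / M with hδ
  have hδ0 : 0 < δ := by positivity
  have hup : ∀ n k, |up (n + N * k) - up n| ≤ δ := by
    intro n k
    have h1 := (hN2 n k).1
    have h2 := b1 n
    have h3 : |up (n + N * k) - up n| = |up (n + N * k) / up n - 1| * up n := by
      rw [← abs_of_pos (show 0 < up n by linarith), ← abs_mul, abs_of_pos (show 0 < up n by linarith)]
      congr 1
      field_simp
    rw [h3]
    calc |up (n + N * k) / up n - 1| * up n ≤ ε / (M * D) * D := by
          apply mul_le_mul h1 _ (by linarith) (by positivity)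
          have := b2 n; rw [hD]; linarith
      _ = δ := by rw [hδ]; field_simp
  have huq : ∀ n k, |uq (n + N * k) - uq n| ≤ δ := by
    intro n k
    have h1 := (hN2 n k).2
    have h2 := b3 n
    have h3 : |uq (n + N * k) - uq n| = |uq (n + N * k) / uq n - 1| * uq n := by
      rw [← abs_of_pos (show 0 < uq n by linarith), ← abs_mul, abs_of_pos (show 0 < uq n by linarith)]
      congr 1
      field_simp
    rw [h3]
    calc |uq (n + N * k) / uq n - 1| * uq n ≤ ε / (M * D) * D := by
          apply mul_le_mul h1 _ (by linarith) (by positivity)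
          have := b4 n; rw [hD]; linarith
      _ = δ := by rw [hδ]; field_simp
  have hydiff : ∀ n k, |y (n + N * k) - y n| ≤ 10 * D * δ := by
    intro n k
    rw [hy, hy]
    set X' := D - up (n + N * k + 1) - uq (n + N * k + 1)
    set X := D - up (n + 1) - uq (n + 1)
    set H' := up (n + N * k) * uq (n + N * k) / (up (n + N * k) + uq (n + N * k))
    set H := up n * uq n / (up n + uq n)
    have e : X' * H' - X * H = (X' - X) * H' + X * (H' - H) := by ring
    rw [e]
    refine (abs_add_le _ _).trans ?_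
    rw [abs_mul, abs_mul]
    have k1 : |X' - X| ≤ 2 * δ := by
      have e1 : X' - X = -(up (n + 1 + N * k) - up (n + 1)) - (uq (n + 1 + N * k) - uq (n + 1)) := by
        show (D - up (n + N * k + 1) - uq (n + N * k + 1)) - (D - up (n + 1) - uq (n + 1)) = _
        rw [show n + N * k + 1 = n + 1 + N * k by ring]
        ring
      rw [e1]
      refine (abs_sub _ _).trans ?_
      rw [abs_neg]
      have := hup (n + 1) k
      have := huq (n + 1) k
      linarith
    have k2 : |H'| ≤ D := by
      have := H_le (b1 (n + N * k)) (b3 (n + N * k)) (b2 (n + N * k))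
      rw [abs_of_nonneg this.1]
      have := this.2
      rw [hD]
      linarith
    have k3 : |X| ≤ 2 * D := hDb (n + 1)
    have k4 : |H' - H| ≤ 2 * δ := by
      refine (H_lip (b1 n) (b3 n) (b1 _) (b3 _)).trans ?_
      have := hup n k
      have := huq n k
      linarith
    have := abs_nonneg (X' - X)
    have := abs_nonneg (H' - H)
    have := abs_nonneg H'
    have := abs_nonneg X
    nlinarith
  have hDδ : 0 ≤ D * δ := by positivity
  have hfin : 10 * D * δ ≤ ε := by
    have h1 : M * δ = ε := by rw [hδ]; field_simp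
    have h2 : 10 * D ≤ M := by
      rw [hM]
      have : D ≤ D ^ 3 := by
        calc D = D ^ 1 := (pow_one D).symm
          _ ≤ D ^ 3 := pow_le_pow_right₀ (by linarith) (by norm_num)
      linarith
    nlinarith
  have hfin2 : 15 * D ^ 3 * δ ≤ ε := by
    have h1 : M * δ = ε := by rw [hδ]; field_simp
    rw [← h1, hM]
    have : 0 ≤ D ^ 3 * δ := by positivity
    linarith
  intro n k
  refine ⟨?_, (hydiff n k).trans hfin⟩
  rcases Nat.eq_zero_or_pos n with hn | hn
  · subst hn
    rcases Nat.eq_zero_or_pos (N * k) with hk | hk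
    · rw [hk]; simp [hε.le]
    obtain ⟨m, hm⟩ : ∃ m, N * k = m + 1 := ⟨N * k - 1, by omega⟩
    have h1 := hup 0 k
    have h2 := huq 0 k
    rw [zero_add, hm] at h1 h2
    rw [zero_add, hm, hb m]
    have h3 : b 0 = p - up 0 := by linarith
    rw [h3]
    have h4 : |y m| ≤ 2 * δ * D := by
      rw [hy, abs_mul]
      have h5 := H_le (b1 m) (b3 m) (b2 m)
      rw [abs_of_nonneg h5.1]
      have h6 : |D - up (m + 1) - uq (m + 1)| ≤ 2 * δ := by
        have e1 : D - up (m + 1) - uq (m + 1) = -(up (m + 1) - up 0) - (uq (m + 1) - uq 0) := by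
          have : D = up 0 + uq 0 := by rw [hD]; linarith
          rw [this]; ring
        rw [e1]
        refine (abs_sub _ _).trans ?_
        rw [abs_neg]
        linarith
      apply mul_le_mul h6 _ h5.1 (by positivity)
      have := h5.2; rw [hD]; linarith
    have h7 : |y m / up m| ≤ |y m| := by
      rw [abs_div]
      apply div_le_self (abs_nonneg _)
      rw [abs_of_pos (by linarith [b1 m])]
      exact b1 m
    have e2 : p - up (m + 1) - y m / up m - (p - up 0) = -(up (m + 1) - up 0) - y m / up m := by ring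
    rw [e2]
    refine (abs_sub _ _).trans ?_
    rw [abs_neg]
    have : δ ≤ D * δ := by nlinarith
    linarith
  · obtain ⟨m, rfl⟩ : ∃ m, n = m + 1 := ⟨n - 1, by omega⟩
    have e0 : m + 1 + N * k = (m + N * k) + 1 := by ring
    have h1 := hup (m + 1) k
    rw [e0] at h1
    rw [e0, hb, hb]
    have h2 := hup m k
    have h3 := hydiff m k
    have e1 : p - up (m + N * k + 1) - y (m + N * k) / up (m + N * k) - (p - up (m + 1) - y m / up m)
        = -(up (m + N * k + 1) - up (m + 1)) - (y (m + N * k) / up (m + N * k) - y m / up m) := by ring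
    rw [e1]
    refine (abs_sub _ _).trans ?_
    rw [abs_neg]
    have h4 : |y (m + N * k) / up (m + N * k) - y m / up m| ≤ 10 * D * δ + 2 * D * D * δ := by
      have p1 := b1 m
      have p2 := b1 (m + N * k)
      have e2 : y (m + N * k) / up (m + N * k) - y m / up m
          = (y (m + N * k) - y m) / up (m + N * k) - y m * (up (m + N * k) - up m) / (up m * up (m + N * k)) := by
        field_simp
        ring
      rw [e2]
      refine (abs_sub _ _).trans ?_
      have q1 : |(y (m + N * k) - y m) / up (m + N * k)| ≤ 10 * D * δ := by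
        rw [abs_div]
        refine le_trans (div_le_self (abs_nonneg _) ?_) h3
        rw [abs_of_pos (by linarith)]
        exact p2
      have q2 : |y m * (up (m + N * k) - up m) / (up m * up (m + N * k))| ≤ 2 * D * D * δ := by
        rw [abs_div, abs_mul]
        refine le_trans (div_le_self (by positivity) ?_) ?_
        · rw [abs_of_pos (by positivity)]
          nlinarith
        · exact mul_le_mul (hyb m) h2 (abs_nonneg _) (by positivity)
      linarith
    have : δ ≤ D * δ := by nlinarith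
    have h5 : D * δ ≤ D ^ 3 * δ := by
      apply mul_le_mul_of_nonneg_right _ hδ0.le
      calc D = D ^ 1 := (pow_one D).symm
        _ ≤ D ^ 3 := pow_le_pow_right₀ (by linarith) (by norm_num)
    have h6 : D * D * δ ≤ D ^ 3 * δ := by
      apply mul_le_mul_of_nonneg_right _ hδ0.le
      have : 0 ≤ D * D := by positivity
      nlinarith
    linarith

theorem bohr {b : ℕ → ℝ} (h : ∀ ε : ℝ, 0 < ε → ∃ N : ℕ, 1 ≤ N ∧ ∀ n k : ℕ, |b (n + N * k) - b n| ≤ ε) :
    ∀ ε : ℝ, 0 < ε → ∃ L : ℕ, ∀ m : ℕ, ∃ τ : ℕ, m ≤ τ ∧ τ ≤ m + L ∧ ∀ n : ℕ, |b (n + τ) - b n| ≤ ε := by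
  intro ε hε
  obtain ⟨N, hN, h1⟩ := h ε hε
  refine ⟨N, fun m => ⟨N * (m / N + 1), ?_, ?_, fun n => h1 n _⟩⟩
  · have := Nat.lt_mul_div_succ m (show 0 < N by omega)
    exact this.le
  · have := Nat.mul_div_le m N
    rw [mul_add, mul_one]
    omega

end Pool.Agent.Helper368.Glue
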