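import Pool.Agent.Helper368.N5
import Pool.Agent.Helper368.W1
import Pool.Agent.Helper368.W2
import Pool.Agent.Helper368.Bel.JA
import Pool.Agent.Helper368.Bel.JC
import Pool.Agent.Helper368.Bel.JD
import Pool.Agent.Helper368.Bel.JE
import Pool.Agent.Helper368.Bel.JF

open Polynomial MeasureTheory Filter Topology
open Pool.Agent.Helper368.Bel (RD CF OS KK Bal NN Om MM Cr kap kinf FF HH mn kD ED)

namespace Pool.Agent.Helper368.Glue

/-- bounded orbit set -/
def KB (f : ℂ[X]) : Set ℂ :=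
  {z : ℂ | Bornology.IsBounded (Set.range (fun n : ℕ => (fun w : ℂ => f.eval w)^[n] z))}

theorem KB_comp (f : ℂ[X]) : KB (f.comp f) = KB f := by
  have hit : ∀ (n : ℕ) (z : ℂ), (fun w : ℂ => (f.comp f).eval w)^[n] z = (fun w : ℂ => f.eval w)^[2 * n] z := by
    intro n
    induction n with
    | zero => intro z; rfl
    | succ n ih =>
      intro z
      rw [Function.iterate_succ_apply, ih, show 2 * (n + 1) = 2 * n + 1 + 1 by ring,
        Function.iterate_succ_apply, Function.iterate_succ_apply]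
      simp [eval_comp]
  ext z
  constructor
  · intro h
    have h' : Bornology.IsBounded (Set.range (fun n : ℕ => (fun w : ℂ => (f.comp f).eval w)^[n] z)) := h
    have h2 : Bornology.IsBounded ((fun w : ℂ => f.eval w) '' closure
        (Set.range (fun n : ℕ => (fun w : ℂ => (f.comp f).eval w)^[n] z))) := by
      apply IsCompact.isBounded
      exact h'.isCompact_closure.image f.continuous
    refine (h'.union h2).subset ?_
    rintro _ ⟨n, rfl⟩
    rcases Nat.even_or_odd' n with ⟨k, hk | hk⟩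
    · left
      exact ⟨k, by show (fun w : ℂ => (f.comp f).eval w)^[k] z = (fun w : ℂ => f.eval w)^[n] z; rw [hit, hk]⟩
    · right
      refine ⟨_, subset_closure ⟨k, rfl⟩, ?_⟩
      show f.eval ((fun w : ℂ => (f.comp f).eval w)^[k] z) = (fun w : ℂ => f.eval w)^[n] z
      rw [hit, hk, Function.iterate_succ_apply']
  · intro h
    have h' : Bornology.IsBounded (Set.range (fun n : ℕ => (fun w : ℂ => f.eval w)^[n] z)) := h
    refine h'.subset ?_
    rintro _ ⟨n, rfl⟩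
    exact ⟨2 * n, by
      show (fun w : ℂ => f.eval w)^[2 * n] z = (fun w : ℂ => (f.comp f).eval w)^[n] z
      rw [← hit]⟩

theorem exists_data (f : ℂ[X]) (hd : 2 ≤ f.natDegree) (J : Set ℂ) (hJ : J = frontier (KB f))
    (hreal : J ⊆ Set.range ((↑) : ℝ → ℂ)) (htd : IsTotallyDisconnected J) :
    ∃ (g : ℝ[X]) (ξ η : ℝ), RD g ξ η ∧ g.eval (g.eval ξ) = g.eval ξ ∧ g.eval (g.eval η) = g.eval η ∧
      J = (fun x : ℝ => (x : ℂ)) '' KK g ξ η ∧ Metric.diam J = η - ξ := by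
  obtain ⟨g, ξ, η, hf, hR, hJ1, _⟩ := Bel.RD_of_julia f hd J hJ hreal htd
  have hd2 : 2 ≤ (f.comp f).natDegree := by
    rw [natDegree_comp]
    nlinarith
  have hJ' : J = frontier (KB (f.comp f)) := by rw [KB_comp]; exact hJ
  obtain ⟨g2, ξ2, η2, hf2, hR2, hJ2, hdi⟩ := Bel.RD_of_julia (f.comp f) hd2 J hJ' hreal htd
  have hKK : KK g ξ η = KK g2 ξ2 η2 := by
    have : (fun x : ℝ => (x : ℂ)) '' KK g ξ η = (fun x : ℝ => (x : ℂ)) '' KK g2 ξ2 η2 := by rw [← hJ1, hJ2]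
    exact (Set.image_injective.2 Complex.ofReal_injective) this
  have hξ : ξ = ξ2 := by
    have h1 : ξ ∈ KK g2 ξ2 η2 := hKK ▸ hR.left
    have h2 : ξ2 ∈ KK g ξ η := hKK.symm ▸ hR2.left
    exact le_antisymm (Bel.KK_sub_Icc h2).1 (Bel.KK_sub_Icc h1).1
  have hη : η = η2 := by
    have h1 : η ∈ KK g2 ξ2 η2 := hKK ▸ hR.right
    have h2 : η2 ∈ KK g ξ η := hKK.symm ▸ hR2.right
    exact le_antisymm (Bel.KK_sub_Icc h1).2 (Bel.KK_sub_Icc h2).2
  have hg2 : g2 = g.comp g := by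
    apply Polynomial.map_injective (algebraMap ℝ ℂ) (algebraMap ℝ ℂ).injective
    rw [← hf2, Polynomial.map_comp, ← hf]
  subst hξ hη
  have hCF := Bel.CF_of_RD hR
  have hA := end_val hR hCF (e := ξ) (Or.inl rfl)
  have hB := end_val hR hCF (e := η) (Or.inr rfl)
  refine ⟨g2, ξ, η, hR2, ?_, ?_, hJ2, hdi⟩
  · rw [hg2]
    simp only [eval_comp]
    rcases hA with h1 | h1 <;> rcases hB with h2 | h2 <;> simp [h1, h2]
  · rw [hg2]
    simp only [eval_comp]
    rcases hA with h1 | h1 <;> rcases hB with h2 | h2 <;> simp [h1, h2]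

theorem no_atom {D : ℝ} {μ : Measure ℝ} (h : ED D μ < ⊤) (x : ℝ) : μ {x} = 0 := by
  by_contra hne
  have h1 : (⊤ : ENNReal) ≤ ED D μ := by
    unfold ED
    calc (⊤ : ENNReal) = ⊤ * μ {x} * μ {x} := by
          rw [ENNReal.top_mul hne, ENNReal.top_mul hne]
      _ = ∫⁻ a in {x}, (⊤ * μ {x}) ∂μ := by rw [setLIntegral_const]
      _ ≤ ∫⁻ a in {x}, ∫⁻ y, kD D a y ∂μ ∂μ := by
          apply setLIntegral_mono' (measurableSet_singleton x)
          intro a ha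
          rw [Set.mem_singleton_iff.1 ha]
          calc ⊤ * μ {x} = ∫⁻ y in {x}, ⊤ ∂μ := by rw [setLIntegral_const]
            _ ≤ ∫⁻ y in {x}, kD D x y ∂μ := by
                apply setLIntegral_mono' (measurableSet_singleton x)
                intro y hy
                rw [Set.mem_singleton_iff.1 hy]
                unfold kD
                rw [if_pos rfl]
            _ ≤ ∫⁻ y, kD D x y ∂μ := setLIntegral_le_lintegral _ _
      _ ≤ _ := setLIntegral_le_lintegral _ _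
  exact absurd h (not_lt.2 h1)

theorem balanced_of_min {g : ℝ[X]} {ξ η : ℝ} (hR : RD g ξ η) {μ : Measure ℝ} (hμ : IsProbabilityMeasure μ)
    (hK : μ (KK g ξ η)ᶜ = 0)
    (hmin : ∀ ν : Measure ℝ, IsProbabilityMeasure ν → ν (KK g ξ η)ᶜ = 0 → ED (η - ξ + 1) μ ≤ ED (η - ξ + 1) ν) :
    Bal g μ ∧ ED (η - ξ + 1) μ < ⊤ := by
  have hC := Bel.CF_of_RD hR
  obtain ⟨σ, h1, h2, h3, h4⟩ := Bel.branches hR hC
  have hD : η - ξ < η - ξ + 1 := by linarith
  obtain ⟨μ0, hp, hK0, hbal, hfin, huniq⟩ := Bel.exists_balanced hR h1 h2 h3 h4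
    (fun i => Bel.coding_conv hR h1 h2 h3 i)
    (fun α β hα hβ ha hb => Bel.energy_pd hD α β ha hb)
    (fun α β hα hβ ha hb fa fb he => Bel.energy_unique hD α β ha hb fa fb he)
  have := huniq μ hμ hK (hmin μ0 hp hK0)
  rw [this]
  exact ⟨hbal, hfin⟩

theorem main_of (hmain : ∀ σ : BC.Sys, ∀ ε : ℝ, 0 < ε → ∃ s : ℕ, ∀ n m : ℕ, n % σ.d ^ s = m % σ.d ^ s →
      |σ.u n (σ.B + 1) / σ.u m (σ.B + 1) - 1| ≤ ε ∧ |σ.u n (σ.A - 1) / σ.u m (σ.A - 1) - 1| ≤ ε)
    (f : ℂ[X]) (hd : 2 ≤ f.natDegree) (J : Set ℂ) (hJ : J = frontier (KB f))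
    (hreal : J ⊆ Set.range ((↑) : ℝ → ℂ)) (htd : IsTotallyDisconnected J)
    (μ : Measure ℝ) (hμ : IsProbabilityMeasure μ) (hμJ : μ {x : ℝ | (x : ℂ) ∉ J} = 0)
    (hmin : ∀ ν : Measure ℝ, IsProbabilityMeasure ν → ν {x : ℝ | (x : ℂ) ∉ J} = 0 →
          (∫⁻ x, ∫⁻ y, (if x = y then (⊤ : ENNReal)
              else ENNReal.ofReal (Real.log ((Metric.diam J + 1) / |x - y|))) ∂μ ∂μ)
            ≤ (∫⁻ x, ∫⁻ y, (if x = y then (⊤ : ENNReal)
              else ENNReal.ofReal (Real.log ((Metric.diam J + 1) / |x - y|))) ∂ν ∂ν))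
    (P : ℕ → ℝ[X]) (hP : ∀ n : ℕ, (P n).Monic ∧ (P n).natDegree = n ∧
            ∀ k : ℕ, k < n → ∫ x, (P n).eval x * x ^ k ∂μ = 0) :
    (∀ ε : ℝ, 0 < ε → ∃ L : ℕ, ∀ m : ℕ, ∃ τ : ℕ, m ≤ τ ∧ τ ≤ m + L ∧
            ∀ n : ℕ,
              |(∫ x, x * (P (n + τ)).eval x ^ 2 ∂μ) / (∫ x, (P (n + τ)).eval x ^ 2 ∂μ)
                - (∫ x, x * (P n).eval x ^ 2 ∂μ) / (∫ x, (P n).eval x ^ 2 ∂μ)| ≤ ε) ∧
          (∀ ε : ℝ, 0 < ε → ∃ L : ℕ, ∀ m : ℕ, ∃ τ : ℕ, m ≤ τ ∧ τ ≤ m + L ∧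
            ∀ n : ℕ,
              |(∫ x, (P (n + τ + 1)).eval x ^ 2 ∂μ) / (∫ x, (P (n + τ)).eval x ^ 2 ∂μ)
                - (∫ x, (P (n + 1)).eval x ^ 2 ∂μ) / (∫ x, (P n).eval x ^ 2 ∂μ)| ≤ ε) := by
  obtain ⟨g, ξ, η, hR, hA, hB, hJK, hdiam⟩ := exists_data f hd J hJ hreal htd
  have hset : {x : ℝ | (x : ℂ) ∉ J} = (KK g ξ η)ᶜ := by
    ext x
    rw [Set.mem_ofPred_eq, Set.mem_compl_iff, not_iff_not, hJK]
    constructor
    · rintro ⟨y, hy, hxy⟩
      have : y = x := Complex.ofReal_injective hxy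
      rwa [this] at hy
    · intro hx
      exact ⟨x, hx, rfl⟩
  rw [hset] at hμJ
  have hmin' : ∀ ν : Measure ℝ, IsProbabilityMeasure ν → ν (KK g ξ η)ᶜ = 0 →
      ED (η - ξ + 1) μ ≤ ED (η - ξ + 1) ν := by
    intro ν hν hνK
    have h1 := hmin ν hν (by rw [hset]; exact hνK)
    rw [hdiam] at h1
    exact h1
  obtain ⟨hbal, hfin⟩ := balanced_of_min hR hμ hμJ hmin'
  have hOS : OS μ ξ η P :=
    { prob := hμ
      supp := by
        refine measure_mono_null ?_ hμJ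
        intro x hx hx2
        exact hx (Bel.KK_sub_Icc hx2)
      na := fun x => no_atom hfin x
      monic := fun n => (hP n).1
      deg := fun n => (hP n).2.1
      orth := fun n k hk => (hP n).2.2 k hk }
  set σ := mkSys hR hOS hμJ hbal hA hB with hσ
  set up : ℕ → ℝ := fun n => σ.u n (σ.B + 1) with hup
  set uq : ℕ → ℝ := fun n => σ.u n (σ.A - 1) with huq
  set b : ℕ → ℝ := fun n => Bel.bb μ P n with hb
  set y : ℕ → ℝ := fun n => Bel.hh μ P (n + 1) / Bel.hh μ P n with hy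
  have eup : ∀ n, up n = NN P n (η + 1) := fun n => NN_abs_right (x := η + 1) hOS n (by linarith)
  have euq : ∀ n, uq n = -NN P n (ξ - 1) := fun n => NN_abs_left (x := ξ - 1) hOS n (by linarith)
  have hlt := hR.lt
  have hrec := recover (up := up) (uq := uq) (b := b) (y := y) (p := η + 1) (q := ξ - 1) (w := η - ξ)
    (by linarith) (by ring)
    (fun n => by rw [eup]; have := (hOS.NN_right n (z := η + 1) (by linarith)).2.1; linarith)
    (fun n => by rw [eup]; have := (hOS.NN_right n (z := η + 1) (by linarith)).2.2; linarith)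
    (fun n => by rw [euq]; have := (hOS.NN_left n (z := ξ - 1) (by linarith)).2.1; linarith)
    (fun n => by rw [euq]; have := (hOS.NN_left n (z := ξ - 1) (by linarith)).2.2; linarith)
    (by rw [eup, hOS.NN_zero])
    (by rw [euq, hOS.NN_zero]; ring)
    (fun n => by rw [eup, eup, hOS.NN_succ n (notin (Or.inr (by linarith)))])
    (fun n => by
      rw [euq, euq, hOS.NN_succ n (notin (Or.inl (by linarith)))]
      show -(ξ - 1 - b (n + 1) - y n / NN P n (ξ - 1)) = b (n + 1) - (ξ - 1) - y n / -NN P n (ξ - 1)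
      rw [div_neg]; ring)
    (by
      intro ε hε
      obtain ⟨s, hs⟩ := hmain σ ε hε
      refine ⟨σ.d ^ s, Nat.one_le_pow _ _ (by have := σ.hd; omega), fun n k => ?_⟩
      exact hs (n + σ.d ^ s * k) n (by simp))
  have e1 : ∀ n, (∫ x, x * (P n).eval x ^ 2 ∂μ) / (∫ x, (P n).eval x ^ 2 ∂μ) = b n := by
    intro n
    show _ = Bel.LL μ (X * (P n * P n)) / Bel.LL μ (P n * P n)
    unfold Bel.LL
    simp only [eval_mul, eval_X, pow_two]
  have e2 : ∀ n, (∫ x, (P (n + 1)).eval x ^ 2 ∂μ) / (∫ x, (P n).eval x ^ 2 ∂μ) = y n := by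
    intro n
    show _ = Bel.LL μ (P (n + 1) * P (n + 1)) / Bel.LL μ (P n * P n)
    unfold Bel.LL
    simp only [eval_mul, pow_two]
  simp only [e1, e2]
  exact ⟨bohr fun ε hε => by
      obtain ⟨N, hN, h⟩ := hrec ε hε
      exact ⟨N, hN, fun n k => (h n k).1⟩,
    bohr fun ε hε => by
      obtain ⟨N, hN, h⟩ := hrec ε hε
      exact ⟨N, hN, fun n k => (h n k).2⟩⟩

end Pool.Agent.Helper368.Glue
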